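import Mathlib
import Pool.Agent.H19.Maass.Forms

set_option autoImplicit false

/-!
# Below the exponent 5/12: definitions

Project Sup (MP_8fded1_nt): `|U(z)| ≤ C T ^ (5/12 - δ)` for Hecke-Maass forms on compact sets.
-/

namespace Pool.Agent.H19.Sup

open UpperHalfPlane Polynomial
open scoped MatrixGroups ComplexConjugate

/-- `e(x) = exp (2 π i x)` -/
noncomputable def ee (x : ℝ) : ℂ := Complex.exp (((2 * Real.pi * x : ℝ) : ℂ) * Complex.I)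

/-- hyperbolic distance between `X + iY` and `x + iy` -/
noncomputable def dh (X Y y x : ℝ) : ℝ :=
  Real.arcosh (1 + ((x - X) ^ 2 + (y - Y) ^ 2) / (2 * Y * y))

/-- amplitudes: supported in `(ρ, 1/2)`, bounded by `B0`, Lipschitz with constant `B1` -/
structure Amp (A : ℝ → ℂ) (B0 B1 ρ : ℝ) : Prop where
  lo : ∀ d, d ≤ ρ → A d = 0
  hi : ∀ d, 1 / 2 ≤ d → A d = 0
  bdd : ∀ d, ‖A d‖ ≤ B0
  lip : ∀ d d', ‖A d - A d'‖ ≤ B1 * |d - d'|

/-- the oscillating term -/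
noncomputable def osc (A : ℝ → ℂ) (T d d' : ℝ) : ℂ :=
  A d * conj (A d') * Complex.exp (((T * (d - d') : ℝ) : ℂ) * Complex.I)

/-- parameters of a line: a point `(m0 + m1 u) / (n0 + n1 u)` moving on the horocycle of height 1,
seen from the two points `iY` and `Δ + iY'`. -/
structure Par where
  m0 : ℝ
  m1 : ℝ
  n0 : ℝ
  n1 : ℝ
  Y : ℝ
  Y' : ℝ
  Δ : ℝ

namespace Par

variable (p : Par)

noncomputable def D : ℝ := p.m1 * p.n0 - p.m0 * p.n1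

noncomputable def m : ℝ[X] := C p.m0 + C p.m1 * X
noncomputable def n : ℝ[X] := C p.n0 + C p.n1 * X
noncomputable def m' : ℝ[X] := p.m - C p.Δ * p.n

/-- `(m² + (1-Y)² n²) (m² + (1+Y)² n²)` -/
noncomputable def R1 : ℝ[X] :=
  (p.m ^ 2 + C ((1 - p.Y) ^ 2) * p.n ^ 2) * (p.m ^ 2 + C ((1 + p.Y) ^ 2) * p.n ^ 2)
noncomputable def R2 : ℝ[X] :=
  (p.m' ^ 2 + C ((1 - p.Y') ^ 2) * p.n ^ 2) * (p.m' ^ 2 + C ((1 + p.Y') ^ 2) * p.n ^ 2)

/-- numerators of the derivatives: `al R a j` belongs to the derivative of order `j + 1` -/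
noncomputable def al (R a : ℝ[X]) : ℕ → ℝ[X]
  | 0 => a
  | (j + 1) => p.n * R * derivative (al R a j) - C ((j + 1 : ℝ) * p.n1) * R * al R a j +
      C (1 / 2 - (j + 1 : ℝ)) * p.n * derivative R * al R a j

/-- numerators of the first derivatives -/
noncomputable def a1 : ℝ[X] := C (2 * p.D) * p.m
noncomputable def a2 : ℝ[X] := C (2 * p.D) * p.m'
noncomputable def al1 (j : ℕ) : ℝ[X] := p.al p.R1 p.a1 j
noncomputable def al2 (j : ℕ) : ℝ[X] := p.al p.R2 p.a2 j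

/-- the polynomial whose smallness follows from the smallness of the derivative of order `j + 1` -/
noncomputable def PP (j : ℕ) : ℝ[X] :=
  p.al1 j ^ 2 * p.R2 ^ (2 * j + 1) - p.al2 j ^ 2 * p.R1 ^ (2 * j + 1)

/-- the phase and its derivatives -/
noncomputable def H : ℕ → ℝ → ℝ
  | 0 => fun u => dh 0 p.Y 1 (p.m.eval u / p.n.eval u) -
      dh 0 p.Y' 1 (p.m.eval u / p.n.eval u - p.Δ)
  | (j + 1) => fun u => (p.n.eval u ^ (j + 1))⁻¹ *
      ((p.al1 j).eval u * (p.R1.eval u) ^ (1 / 2 - (j + 1 : ℝ)) -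
        (p.al2 j).eval u * (p.R2.eval u) ^ (1 / 2 - (j + 1 : ℝ)))

/-- admissible parameters -/
structure Good (μ : ℝ) : Prop where
  hμ : 0 < μ
  hμ1 : μ ≤ 1
  hm0 : |p.m0| ≤ 4
  hm1 : |p.m1| ≤ 2
  hn0 : |p.n0| ≤ 4
  hn1 : |p.n1| ≤ 1
  hY : 3 / 5 ≤ p.Y ∧ p.Y ≤ 5 / 3
  hY' : 3 / 5 ≤ p.Y' ∧ p.Y' ≤ 5 / 3
  hΔ : |p.Δ| ≤ 2
  hD : μ ≤ |p.D|
  hne : μ ^ 2 ≤ p.Δ ^ 2 + (p.Y - p.Y') ^ 2

end Par

open Classical in
/-- an element of `SL₂(ℤ)` with given first column -/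
noncomputable def sec (c : ℤ × ℤ) : SL(2, ℤ) :=
  if h : IsCoprime c.1 c.2 then Classical.choose (h.exists_SL2_col (0 : Fin 2)) else 1

/-- the height of `w` seen from the cusp `c` -/
noncomputable def ht (c : ℤ × ℤ) (w : ℍ) : ℝ := ((sec c)⁻¹ • w).im

/-- the points of a plane: `τ_c (τ_e⁻¹ z + b / q)` -/
noncomputable def VV (c e : ℤ × ℤ) (q : ℕ) (b : ℤ) (z : ℍ) : ℍ :=
  sec c • (((b : ℝ) / (q : ℝ)) +ᵥ ((sec e)⁻¹ • z))

/-- the reduced denominator of `b / q` is not small -/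
def om (y : ℝ) (q : ℕ) (b : ℤ) : Prop := √(1 / y) / 10 < ((q / Nat.gcd q b.natAbs : ℕ) : ℝ)

end Pool.Agent.H19.Sup
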