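import Mathlib
import Pool.Agent.H19.Sup.Defs

set_option autoImplicit false

/-!
# Below the exponent 5/12: definitions, second part
-/

namespace Pool.Agent.H19.Sup

open UpperHalfPlane
open Pool.Agent.H19.Maass
open scoped MatrixGroups ComplexConjugate ENNReal

/-- indices of the amplifier: `⟨p, y⟩` with `p` a prime in `(N, 4 N]`, `y` a Hecke index of `p²`, other than the
one of the point `z` itself -/
noncomputable def II (N : ℕ) : Finset (Σ _ : ℕ, Σ _ : ℕ, ℕ) :=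
  (PR N).sigma fun p => (RR (p ^ 2)).erase ⟨p, 0⟩

/-- the Hecke points -/
noncomputable def zt (z : ℍ) (i : Σ _ : ℕ, Σ _ : ℕ, ℕ) : ℍ := hx (i.1 ^ 2) i.2 z

/-- the oscillating kernel -/
noncomputable def wv (A : ℝ → ℂ) (T d : ℝ) : ℂ :=
  A d * Complex.exp (((T * d : ℝ) : ℂ) * Complex.I)

/-- the Hecke matrix -/
def dl (q : ℕ) (y : Σ _ : ℕ, ℕ) : Matrix (Fin 2) (Fin 2) ℤ :=
  !![((q ^ 2 / y.1 : ℕ) : ℤ), (y.2 : ℤ); 0, (y.1 : ℤ)]

open Classical in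
/-- the sum over a plane, in coordinates -/
noncomputable def PS (A : ℝ → ℂ) (T : ℝ) (N : ℕ) (M : ℤ) (X Y X' Y' y : ℝ) : ℂ :=
  ∑ q ∈ Finset.Ioc N (4 * N), ∑ b ∈ Finset.Icc (-M) M,
    if om y q b then osc A T (dh X Y y ((b : ℝ) / q)) (dh X' Y' y ((b : ℝ) / q)) else 0

/-- the sum over a line `b s - a q = j` of a plane -/
noncomputable def LS (A : ℝ → ℂ) (T : ℝ) (N : ℕ) (M : ℤ) (X Y X' Y' y : ℝ) (a s j : ℤ) : ℂ :=
  ∑ q ∈ Finset.Ioc N (4 * N), ∑ b ∈ Finset.Icc (-M) M,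
    if b * s - a * q = j then osc A T (dh X Y y ((b : ℝ) / q)) (dh X' Y' y ((b : ℝ) / q)) else 0

open Classical in
/-- the sum over the plane of the cusps `c`, `e` -/
noncomputable def ZZ (A : ℝ → ℂ) (T : ℝ) (N : ℕ) (M : ℤ) (w w' z : ℍ) (c e : ℤ × ℤ) : ℂ :=
  ∑ q ∈ Finset.Ioc N (4 * N), ∑ b ∈ Finset.Icc (-M) M,
    if om (ht e z) q b then osc A T (dist w (VV c e q b z)) (dist w' (VV c e q b z)) else 0

/-- the oscillating part of the geometric side -/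
noncomputable def FF (A : ℝ → ℂ) (T : ℝ) (N : ℕ) (z : ℍ) (S : Finset SL(2, ℤ)) : ℂ :=
  ∑ i ∈ II N, ∑ j ∈ II N, ((1 / (i.1 : ℝ) * (1 / (j.1 : ℝ)) : ℝ) : ℂ) *
    ∑ σ ∈ S, wv A T (dist (zt z i) (σ • zt z j))

/-- majorant of the part of the kernel near the diagonal -/
noncomputable def phn (C T : ℝ) (j0 L : ℕ) (s : ℝ) : ℝ≥0∞ :=
  ENNReal.ofReal C * ic (s ≤ 1) +
    ∑ j ∈ Finset.Icc j0 L, ENNReal.ofReal (C * √T * 2 ^ j) * ic (s ≤ 6 / 16 ^ j)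

end Pool.Agent.H19.Sup
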