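import Mathlib
import Pool.Agent.H19.Sup.Defs2

set_option autoImplicit false

/-!
# CL1: Hecke points of large height

Let `M = σ * dl q y` with bottom row `v = (v1, v2) ≠ 0`.  `σ • hx (q^2) y z = M z`, `(M z).im = q² z.im / |v1 z + v2|²`.  So
`h ≤ im` means `|v1 z + v2|² ≤ X := q² z.im / h`.
* `(y, σ) ↦ M` is injective (`Maass.hermite`).
* For given `v`, `g = gcd (v1, v2)` divides `det M = q²`, so `g ∈ {1, q, q²}`; two matrices with the same bottom row and the same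
  determinant differ by `k * v / g`, `k ∈ ℤ`, in the top row, and `(M z).re` differs by `k / g`; so for given `v` at most
  `2 r g + 1` of them have `|re| ≤ r`.
* The number of `v` with gcd `g` and `|v1 z + v2|² ≤ X` is the number of coprime `w` with `|w1 z + w2|² ≤ X / g²`, at most
  `100 X / g²`: (`z.im ≥ 1/2`, `|z.re| ≤ 1/2`: `|w1 z + w2|² ≥ 1/4` for `w ≠ 0`, so it is `0` if `X / g² < 1/4`; otherwise
  `|w1| ≤ 2 √(X/g²)`, and for given `w1` at most `2 √(X/g²) + 1` values of `w2`.)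
* Total `≤ ∑_g 100 X / g² (2 r g + 1) ≤ 600 X (r + 1)`.
In Lean: sum over `v : ℤ × ℤ` of `ic (|v1 z + v2|² ≤ X) * ∑ over M with bottom row v`, as in `Maass/Count.lean`, `Maass/Strip.lean`.
-/

namespace Pool.Agent.H19.Sup

open UpperHalfPlane
open Pool.Agent.H19.Maass
open scoped MatrixGroups ENNReal

/-- the matrix `σ * dl` -/
def CL1_mat (m : ℕ) (y : Σ _ : ℕ, ℕ) (σ : SL(2, ℤ)) : Z4 :=
  (σ 0 0 * ((m / y.1 : ℕ) : ℤ), σ 0 0 * (y.2 : ℤ) + σ 0 1 * y.1,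
    σ 1 0 * ((m / y.1 : ℕ) : ℤ), σ 1 0 * (y.2 : ℤ) + σ 1 1 * y.1)

/-- squared length of the bottom row -/
noncomputable def CL1_nn (a b : ℤ) (z : ℍ) : ℝ := ((a : ℝ) * z.re + b) ^ 2 + ((a : ℝ) * z.im) ^ 2

lemma CL1_normSq (a b : ℤ) (z : ℍ) : Complex.normSq ((a : ℂ) * z + b) = CL1_nn a b z := by
  unfold CL1_nn
  rw [Complex.normSq_apply]
  simp
  ring

/-- the image point -/
noncomputable def CL1_pt (β : Z4) (z : ℍ) : ℂ :=
  ((β.1 : ℂ) * z + β.2.1) / ((β.2.2.1 : ℂ) * z + β.2.2.2)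

lemma CL1_pos {m : ℕ} (hm : 0 < m) {y : Σ _ : ℕ, ℕ} (hy : y ∈ RR m) :
    0 < m / y.1 ∧ 0 < y.1 ∧ (m / y.1) * y.1 = m := by
  rw [mem_RR, Nat.mem_divisors] at hy
  have h0 : 0 < y.1 := Nat.pos_of_dvd_of_pos hy.1.1 hm
  exact ⟨Nat.div_pos (Nat.le_of_dvd hm hy.1.1) h0, h0, Nat.div_mul_cancel hy.1.1⟩

lemma CL1_det {m : ℕ} (hm : 0 < m) {y : Σ _ : ℕ, ℕ} (hy : y ∈ RR m) (σ : SL(2, ℤ)) :
    det4 (CL1_mat m y σ) = m := by
  obtain ⟨_, _, h3⟩ := CL1_pos hm hy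
  have h4 : (((m / y.1 : ℕ) : ℤ)) * y.1 = m := by exact_mod_cast h3
  unfold det4 CL1_mat
  simp only
  have := sl_det σ
  linear_combination (((m / y.1 : ℕ) : ℤ)) * y.1 * this + h4

lemma CL1_coe {m : ℕ} (hm : 0 < m) {y : Σ _ : ℕ, ℕ} (hy : y ∈ RR m) (σ : SL(2, ℤ)) (z : ℍ) :
    ((σ • hx m y z : ℍ) : ℂ) = CL1_pt (CL1_mat m y σ) z := by
  obtain ⟨h1, h2, h3⟩ := CL1_pos hm hy
  have hdC : ((y.1 : ℕ) : ℂ) ≠ 0 := by exact_mod_cast h2.ne'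
  rw [coe_specialLinearGroup_apply]
  have hwc : ((hx m y z : ℍ) : ℂ) = (((m / y.1 : ℕ) : ℂ) * z + y.2) / y.1 := by
    unfold hx
    exact coe_hp h1 h2 z
  have hj0 : (σ 1 0 : ℂ) * (hx m y z : ℍ) + σ 1 1 ≠ 0 := by
    have := UpperHalfPlane.denom_ne_zero (σ : GL (Fin 2) ℝ) (hx m y z)
    rwa [ModularGroup.denom_apply] at this
  have hj1 : ((CL1_mat m y σ).2.2.1 : ℂ) * z + (CL1_mat m y σ).2.2.2 =
      ((σ 1 0 : ℂ) * (hx m y z : ℍ) + σ 1 1) * y.1 := by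
    rw [hwc]
    unfold CL1_mat
    simp only
    generalize m / y.1 = a
    push_cast
    field_simp
    ring
  have hj2 : ((CL1_mat m y σ).1 : ℂ) * z + (CL1_mat m y σ).2.1 =
      ((σ 0 0 : ℂ) * (hx m y z : ℍ) + σ 0 1) * y.1 := by
    rw [hwc]
    unfold CL1_mat
    simp only
    generalize m / y.1 = a
    push_cast
    field_simp
    ring
  unfold CL1_pt
  rw [hj1, hj2, mul_div_mul_right _ _ hdC]
  simp

lemma CL1_im (β : Z4) (z : ℍ) : (CL1_pt β z).im =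
    (det4 β : ℝ) * z.im / CL1_nn β.2.2.1 β.2.2.2 z := by
  unfold CL1_pt
  rw [Complex.div_im, CL1_normSq, ← sub_div]
  congr 1
  unfold det4
  push_cast
  simp
  ring

lemma CL1_inj {m : ℕ} {x y : Σ _ : ℕ, ℕ} (hx : x ∈ RR m) (hy : y ∈ RR m)
    {σ τ : SL(2, ℤ)} (h : CL1_mat m x σ = CL1_mat m y τ) : x = y ∧ σ = τ := by
  unfold CL1_mat at h
  simp only [Prod.mk.injEq] at h
  exact hermite hx hy h.1 h.2.1 h.2.2.1 h.2.2.2

/-- inner sum over the top rows -/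
lemma CL1_inner {z : ℍ} (n : ℤ) (v1 v2 : ℤ) (hv : ¬ (v1 = 0 ∧ v2 = 0)) {r : ℝ} (hr : 0 ≤ r) :
    ∑' t1 : ℤ, ∑' t2 : ℤ, ic (t1 * v2 - t2 * v1 = n ∧ |(CL1_pt (t1, t2, v1, v2) z).re| ≤ r) ≤
      ENNReal.ofReal (2 * (r * (Int.gcd v1 v2 : ℝ)) + 1) := by
  have hg : 0 < Int.gcd v1 v2 := by
    rw [Int.gcd_pos_iff]
    by_contra hcon
    push Not at hcon
    exact hv hcon
  obtain ⟨w1, w2, hcop, hw1, hw2⟩ := Int.exists_gcd_one hg
  set g : ℤ := (Int.gcd v1 v2 : ℤ) with hgdef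
  have hg0 : g ≠ 0 := by rw [hgdef]; exact_mod_cast hg.ne'
  have hgR : (0 : ℝ) < (Int.gcd v1 v2 : ℝ) := by exact_mod_cast hg
  have hden : (v1 : ℂ) * z + v2 ≠ 0 := by
    intro h0
    apply hv
    have him : ((v1 : ℂ) * z + v2).im = 0 := by rw [h0]; simp
    have hre : ((v1 : ℂ) * z + v2).re = 0 := by rw [h0]; simp
    simp at him hre
    have hz := z.im_pos
    rcases him with h1 | h1
    · subst h1
      simp at hre
      exact ⟨rfl, hre⟩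
    · exact absurd h1 hz.ne'
  -- one sum over pairs
  rw [← ENNReal.tsum_prod (f := fun t1 t2 => ic (t1 * v2 - t2 * v1 = n ∧
    |(CL1_pt (t1, t2, v1, v2) z).re| ≤ r))]
  by_cases hex : ∃ t : ℤ × ℤ, t.1 * v2 - t.2 * v1 = n
  · obtain ⟨⟨s1, s2⟩, hs⟩ := hex
    simp only at hs
    set φ : ℤ → ℤ × ℤ := fun k => (s1 + k * w1, s2 + k * w2) with hφ
    have hφinj : Function.Injective φ := by
      intro k k' h
      simp only [hφ, Prod.mk.injEq] at h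
      by_contra hne
      have hk : k - k' ≠ 0 := sub_ne_zero.2 hne
      have e1 : (k - k') * w1 = 0 := by linear_combination h.1
      have e2 : (k - k') * w2 = 0 := by linear_combination h.2
      have f1 : w1 = 0 := (mul_eq_zero.1 e1).resolve_left hk
      have f2 : w2 = 0 := (mul_eq_zero.1 e2).resolve_left hk
      apply hv
      rw [hw1, hw2, f1, f2]
      simp
    rw [← hφinj.tsum_eq (f := fun t : ℤ × ℤ => ic (t.1 * v2 - t.2 * v1 = n ∧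
      |(CL1_pt (t.1, t.2, v1, v2) z).re| ≤ r))]
    · refine (ENNReal.tsum_le_tsum (g := fun k : ℤ => ic (|(k : ℝ) +
        (Int.gcd v1 v2 : ℝ) * (CL1_pt (s1, s2, v1, v2) z).re| ≤ r * (Int.gcd v1 v2 : ℝ)))
        fun k => ic_mono ?_).trans (tsum_int_le _ _ (by positivity))
      rintro ⟨-, h2⟩
      have e1 : CL1_pt ((φ k).1, (φ k).2, v1, v2) z =
          CL1_pt (s1, s2, v1, v2) z + (k : ℂ) / (g : ℂ) := by
        have hgC : (g : ℂ) ≠ 0 := by exact_mod_cast hg0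
        unfold CL1_pt
        simp only [hφ]
        rw [eq_comm, div_add_div _ _ hden hgC, div_eq_div_iff (mul_ne_zero hden hgC) hden]
        have a1 : (v1 : ℂ) = w1 * g := by exact_mod_cast hw1
        have a2 : (v2 : ℂ) = w2 * g := by exact_mod_cast hw2
        push_cast
        rw [a1, a2]
        ring
      rw [e1] at h2
      have e2 : (CL1_pt (s1, s2, v1, v2) z + (k : ℂ) / (g : ℂ)).re =
          (CL1_pt (s1, s2, v1, v2) z).re + (k : ℝ) / (Int.gcd v1 v2 : ℝ) := by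
        rw [Complex.add_re]
        congr 1
        have : ((k : ℂ) / (g : ℂ)) = (((k : ℝ) / (Int.gcd v1 v2 : ℝ) : ℝ) : ℂ) := by
          rw [hgdef]; push_cast; rfl
        rw [this, Complex.ofReal_re]
      rw [e2] at h2
      have e3 : (k : ℝ) + (Int.gcd v1 v2 : ℝ) * (CL1_pt (s1, s2, v1, v2) z).re =
          ((CL1_pt (s1, s2, v1, v2) z).re + (k : ℝ) / (Int.gcd v1 v2 : ℝ)) *
            (Int.gcd v1 v2 : ℝ) := by
        field_simp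
        ring
      rw [e3, abs_mul, abs_of_pos hgR]
      exact mul_le_mul_of_nonneg_right h2 hgR.le
    · intro t ht
      rw [Function.mem_support] at ht
      have h3 : t.1 * v2 - t.2 * v1 = n := by
        by_contra h4
        exact ht (ic_false fun h5 => h4 h5.1)
      -- (t1 - s1) w2 = (t2 - s2) w1
      have h4 : (t.1 - s1) * w2 = (t.2 - s2) * w1 := by
        have h5 : g * ((t.1 - s1) * w2 - (t.2 - s2) * w1) = 0 := by
          rw [hw1, hw2] at h3 hs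
          linear_combination h3 - hs
        have h6 := (mul_eq_zero.1 h5).resolve_left hg0
        linarith
      have hcop' : IsCoprime w1 w2 := Int.isCoprime_iff_gcd_eq_one.2 hcop
      obtain ⟨a, b, hab⟩ := hcop'
      refine ⟨a * (t.1 - s1) + b * (t.2 - s2), ?_⟩
      simp only [hφ]
      ext
      · simp only
        linear_combination (t.1 - s1) * hab - b * h4
      · simp only
        linear_combination (t.2 - s2) * hab + a * h4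
  · rw [not_exists] at hex
    rw [ENNReal.tsum_eq_zero.2 fun t : ℤ × ℤ => ic_false fun h => hex t h.1]
    exact zero_le

/-- number of nonzero rows of bounded length -/
lemma CL1_rows {z : ℍ} (hy : 1 / 2 ≤ z.im) (Y : ℝ) (hY : 0 ≤ Y) :
    ∑' w1 : ℤ, ∑' w2 : ℤ, ic (¬ (w1 = 0 ∧ w2 = 0) ∧ CL1_nn w1 w2 z ≤ Y) ≤
      ENNReal.ofReal (24 * Y) := by
  by_cases hY4 : Y < 1 / 4
  · rw [ENNReal.tsum_eq_zero.2]
    · exact zero_le
    intro w1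
    rw [ENNReal.tsum_eq_zero]
    intro w2
    refine ic_false ?_
    rintro ⟨h1, h2⟩
    unfold CL1_nn at h2
    by_cases hw : w1 = 0
    · subst hw
      have hw2 : w2 ≠ 0 := fun h => h1 ⟨rfl, h⟩
      have h3 : (1 : ℝ) ≤ (w2 : ℝ) ^ 2 := by
        have h7 : (w2) ^ 2 ≠ 0 := pow_ne_zero 2 hw2
        have := sq_nonneg w2
        have : 1 ≤ w2 ^ 2 := by omega
        exact_mod_cast this
      simp at h2
      linarith
    · have h3 : (1 : ℝ) ≤ (w1 : ℝ) ^ 2 := by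
        have h7 : (w1) ^ 2 ≠ 0 := pow_ne_zero 2 hw
        have := sq_nonneg w1
        have : 1 ≤ w1 ^ 2 := by omega
        exact_mod_cast this
      have h4 : (1 / 4 : ℝ) ≤ z.im ^ 2 := by nlinarith
      have h5 : (1 / 4 : ℝ) ≤ ((w1 : ℝ) * z.im) ^ 2 := by
        rw [mul_pow]; nlinarith
      nlinarith [sq_nonneg ((w1 : ℝ) * z.re + w2)]
  · rw [not_lt] at hY4
    set s : ℝ := √Y with hs
    have hs0 : 0 ≤ s := Real.sqrt_nonneg _
    have hs2 : s ^ 2 = Y := Real.sq_sqrt hY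
    have hs1 : 1 / 2 ≤ s := by
      by_contra hcon
      rw [not_le] at hcon
      nlinarith
    have hstep : ∀ w1 w2 : ℤ, ic (¬ (w1 = 0 ∧ w2 = 0) ∧ CL1_nn w1 w2 z ≤ Y) ≤
        ic (|(w1 : ℝ) + 0| ≤ 2 * s) * ic (|(w2 : ℝ) + w1 * z.re| ≤ s) := by
      intro w1 w2
      rw [← ic_and]
      refine ic_mono ?_
      rintro ⟨-, h⟩
      unfold CL1_nn at h
      rw [← hs2] at h
      constructor
      · rw [add_zero]
        refine abs_le_of_sq_le_sq ?_ (by positivity)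
        have h3 : ((w1 : ℝ) * z.im) ^ 2 ≤ s ^ 2 := by
          nlinarith [sq_nonneg ((w1 : ℝ) * z.re + w2)]
        have h4 : (1 / 4 : ℝ) ≤ z.im ^ 2 := by nlinarith
        rw [mul_pow] at h3
        nlinarith [sq_nonneg (w1 : ℝ)]
      · refine abs_le_of_sq_le_sq ?_ hs0
        nlinarith [sq_nonneg ((w1 : ℝ) * z.im)]
    calc ∑' w1 : ℤ, ∑' w2 : ℤ, ic (¬ (w1 = 0 ∧ w2 = 0) ∧ CL1_nn w1 w2 z ≤ Y)
        ≤ ∑' w1 : ℤ, ∑' w2 : ℤ, ic (|(w1 : ℝ) + 0| ≤ 2 * s) *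
            ic (|(w2 : ℝ) + w1 * z.re| ≤ s) :=
          ENNReal.tsum_le_tsum fun w1 => ENNReal.tsum_le_tsum fun w2 => hstep w1 w2
      _ = ∑' w1 : ℤ, ic (|(w1 : ℝ) + 0| ≤ 2 * s) * ∑' w2 : ℤ, ic (|(w2 : ℝ) + w1 * z.re| ≤ s) :=
          tsum_congr fun w1 => ENNReal.tsum_mul_left
      _ ≤ ∑' w1 : ℤ, ic (|(w1 : ℝ) + 0| ≤ 2 * s) * ENNReal.ofReal (2 * s + 1) := by
          gcongr; exact tsum_int_le _ _ hs0
      _ = (∑' w1 : ℤ, ic (|(w1 : ℝ) + 0| ≤ 2 * s)) * ENNReal.ofReal (2 * s + 1) :=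
          ENNReal.tsum_mul_right
      _ ≤ ENNReal.ofReal (2 * (2 * s) + 1) * ENNReal.ofReal (2 * s + 1) := by
          gcongr; exact tsum_int_le _ _ (by positivity)
      _ = ENNReal.ofReal ((2 * (2 * s) + 1) * (2 * s + 1)) :=
          (ENNReal.ofReal_mul (by positivity)).symm
      _ ≤ ENNReal.ofReal (24 * Y) := by
          refine ENNReal.ofReal_le_ofReal ?_
          rw [← hs2]
          nlinarith

/-- rows with a given gcd -/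
lemma CL1_gcd {z : ℍ} (hy : 1 / 2 ≤ z.im) {X : ℝ} (hX : 0 ≤ X) {g : ℕ} (hg : 0 < g) :
    ∑' v1 : ℤ, ∑' v2 : ℤ, ic (¬ (v1 = 0 ∧ v2 = 0) ∧ CL1_nn v1 v2 z ≤ X ∧ Int.gcd v1 v2 = g) ≤
      ENNReal.ofReal (24 * (X / (g : ℝ) ^ 2)) := by
  have hgR : (0 : ℝ) < g := by exact_mod_cast hg
  refine le_trans ?_ (CL1_rows hy (X / (g : ℝ) ^ 2) (by positivity))
  rw [← ENNReal.tsum_prod (f := fun v1 v2 => ic (¬ (v1 = 0 ∧ v2 = 0) ∧ CL1_nn v1 v2 z ≤ X ∧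
    Int.gcd v1 v2 = g)), ← ENNReal.tsum_prod (f := fun w1 w2 => ic (¬ (w1 = 0 ∧ w2 = 0) ∧
    CL1_nn w1 w2 z ≤ X / (g : ℝ) ^ 2))]
  set φ : ℤ × ℤ → ℤ × ℤ := fun w => ((g : ℤ) * w.1, (g : ℤ) * w.2) with hφ
  have hgz : (g : ℤ) ≠ 0 := by exact_mod_cast hg.ne'
  have hφinj : Function.Injective φ := by
    rintro ⟨a, b⟩ ⟨a', b'⟩ h
    simp only [hφ, Prod.mk.injEq] at h ⊢
    exact ⟨mul_left_cancel₀ hgz h.1, mul_left_cancel₀ hgz h.2⟩
  rw [← hφinj.tsum_eq (f := fun v : ℤ × ℤ => ic (¬ (v.1 = 0 ∧ v.2 = 0) ∧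
    CL1_nn v.1 v.2 z ≤ X ∧ Int.gcd v.1 v.2 = g))]
  · refine ENNReal.tsum_le_tsum fun w => ic_mono ?_
    rintro ⟨h1, h2, -⟩
    simp only [hφ] at h1 h2
    constructor
    · rintro ⟨a, b⟩
      exact h1 ⟨by rw [a, mul_zero], by rw [b, mul_zero]⟩
    · rw [le_div_iff₀ (by positivity)]
      refine le_trans (le_of_eq ?_) h2
      unfold CL1_nn
      push_cast
      ring
  · intro v hv
    rw [Function.mem_support] at hv
    have h3 : Int.gcd v.1 v.2 = g := by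
      by_contra h4
      exact hv (ic_false fun h5 => h4 h5.2.2)
    have a1 : (g : ℤ) ∣ v.1 := by rw [← h3]; exact Int.gcd_dvd_left ..
    have a2 : (g : ℤ) ∣ v.2 := by rw [← h3]; exact Int.gcd_dvd_right ..
    obtain ⟨w1, hw1⟩ := a1
    obtain ⟨w2, hw2⟩ := a2
    exact ⟨(w1, w2), by simp only [hφ]; rw [← hw1, ← hw2]⟩

theorem count_high : ∃ K : ℝ, 0 < K ∧ ∀ z : ℍ, |z.re| ≤ 1 / 2 → 1 / 2 ≤ z.im →
    ∀ q : ℕ, q.Prime → ∀ h r : ℝ, 0 < h → 0 ≤ r →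
    ∑ y ∈ RR (q ^ 2), ∑' σ : SL(2, ℤ),
      ic (h ≤ (σ • hx (q ^ 2) y z).im ∧ |(σ • hx (q ^ 2) y z).re| ≤ r) ≤
    ENNReal.ofReal (K * (q ^ 2 * z.im / h) * (r + 1)) := by
  classical
  refine ⟨100, by norm_num, ?_⟩
  intro z hre him q hq h r hh hr
  have hq0 : 0 < q := hq.pos
  have hq2 : 0 < q ^ 2 := by positivity
  have hqR : (2 : ℝ) ≤ q := by exact_mod_cast hq.two_le
  have hz := z.im_pos
  set X : ℝ := q ^ 2 * z.im / h with hX
  have hX0 : 0 ≤ X := by rw [hX]; positivity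
  -- the function of the matrix
  set G : Z4 → ℝ≥0∞ := fun β => ic ((¬ (β.2.2.1 = 0 ∧ β.2.2.2 = 0) ∧
      CL1_nn β.2.2.1 β.2.2.2 z ≤ X ∧ Int.gcd β.2.2.1 β.2.2.2 ∣ q ^ 2) ∧
      (β.1 * β.2.2.2 - β.2.1 * β.2.2.1 = (q : ℤ) ^ 2 ∧ |(CL1_pt β z).re| ≤ r)) with hG
  have e1 : ∑ y ∈ RR (q ^ 2), ∑' σ : SL(2, ℤ),
      ic (h ≤ (σ • hx (q ^ 2) y z).im ∧ |(σ • hx (q ^ 2) y z).re| ≤ r) =
      ∑' p : (RR (q ^ 2)) × SL(2, ℤ),
        ic (h ≤ (p.2 • hx (q ^ 2) p.1.1 z).im ∧ |(p.2 • hx (q ^ 2) p.1.1 z).re| ≤ r) := by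
    rw [ENNReal.tsum_prod', tsum_fintype, ← Finset.sum_coe_sort (RR (q ^ 2))]
  rw [e1]
  set Ψ : (RR (q ^ 2)) × SL(2, ℤ) → Z4 := fun p => CL1_mat (q ^ 2) p.1.1 p.2 with hΨ
  have hinj : Function.Injective Ψ := by
    rintro ⟨⟨y, hy⟩, σ⟩ ⟨⟨y', hy'⟩, σ'⟩ h
    obtain ⟨h1, h2⟩ := CL1_inj hy hy' h
    subst h1 h2
    rfl
  have e2 : ∀ p : (RR (q ^ 2)) × SL(2, ℤ),
      ic (h ≤ (p.2 • hx (q ^ 2) p.1.1 z).im ∧ |(p.2 • hx (q ^ 2) p.1.1 z).re| ≤ r) ≤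
      G (Ψ p) := by
    rintro ⟨⟨y, hy⟩, σ⟩
    refine ic_mono ?_
    rintro ⟨h1, h2⟩
    simp only at h1 h2 ⊢
    simp only [hΨ]
    set β := CL1_mat (q ^ 2) y σ with hβ
    have hdet : det4 β = ((q ^ 2 : ℕ) : ℤ) := CL1_det hq2 hy σ
    have hdet' : β.1 * β.2.2.2 - β.2.1 * β.2.2.1 = (q : ℤ) ^ 2 := by
      have := hdet
      unfold det4 at this
      rw [this]; push_cast; ring
    have hco := CL1_coe hq2 hy σ z
    rw [← hβ] at hco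
    have him2 : (σ • hx (q ^ 2) y z).im = (q : ℝ) ^ 2 * z.im / CL1_nn β.2.2.1 β.2.2.2 z := by
      rw [← coe_im, hco, CL1_im, hdet]
      push_cast
      ring
    have hv : ¬ (β.2.2.1 = 0 ∧ β.2.2.2 = 0) := by
      rintro ⟨a, b⟩
      rw [a, b, mul_zero, mul_zero, sub_zero] at hdet'
      have hqz : (q : ℤ) ≠ 0 := by exact_mod_cast hq0.ne'
      exact (pow_ne_zero 2 hqz) hdet'.symm
    have hnn : 0 ≤ CL1_nn β.2.2.1 β.2.2.2 z := by unfold CL1_nn; positivity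
    refine ⟨⟨hv, ?_, ?_⟩, hdet', ?_⟩
    · rw [hX, le_div_iff₀ hh]
      rcases hnn.eq_or_lt with h0 | h0
      · rw [← h0, zero_mul]; positivity
      · rw [him2, le_div_iff₀ h0] at h1
        linarith
    · have a1 : ((Int.gcd β.2.2.1 β.2.2.2 : ℕ) : ℤ) ∣ (q : ℤ) ^ 2 := by
        rw [← hdet']
        exact dvd_sub ((Int.gcd_dvd_right ..).mul_left _) ((Int.gcd_dvd_left ..).mul_left _)
      exact_mod_cast a1
    · rw [← hco, coe_re]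
      exact h2
  refine (ENNReal.tsum_le_tsum e2).trans ?_
  refine (ENNReal.tsum_comp_le_tsum_of_injective hinj G).trans ?_
  -- reorder: bottom row first
  have e3 : ∑' β : Z4, G β = ∑' v1 : ℤ, ∑' v2 : ℤ, ∑' t1 : ℤ, ∑' t2 : ℤ, G (t1, t2, v1, v2) := by
    rw [ENNReal.tsum_prod']
    simp_rw [ENNReal.tsum_prod']
    -- ∑ t1, ∑ t2, ∑ v1, ∑ v2
    calc ∑' t1 : ℤ, ∑' t2 : ℤ, ∑' v1 : ℤ, ∑' v2 : ℤ, G (t1, t2, v1, v2)
        = ∑' t1 : ℤ, ∑' v1 : ℤ, ∑' t2 : ℤ, ∑' v2 : ℤ, G (t1, t2, v1, v2) :=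
          tsum_congr fun t1 => ENNReal.tsum_comm
      _ = ∑' v1 : ℤ, ∑' t1 : ℤ, ∑' t2 : ℤ, ∑' v2 : ℤ, G (t1, t2, v1, v2) := ENNReal.tsum_comm
      _ = ∑' v1 : ℤ, ∑' t1 : ℤ, ∑' v2 : ℤ, ∑' t2 : ℤ, G (t1, t2, v1, v2) :=
          tsum_congr fun v1 => tsum_congr fun t1 => ENNReal.tsum_comm
      _ = ∑' v1 : ℤ, ∑' v2 : ℤ, ∑' t1 : ℤ, ∑' t2 : ℤ, G (t1, t2, v1, v2) :=
          tsum_congr fun v1 => ENNReal.tsum_comm
  rw [e3]
  -- inner sums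
  have e4 : ∀ v1 v2 : ℤ, ∑' t1 : ℤ, ∑' t2 : ℤ, G (t1, t2, v1, v2) ≤
      ∑ g ∈ (q ^ 2).divisors, ic (¬ (v1 = 0 ∧ v2 = 0) ∧ CL1_nn v1 v2 z ≤ X ∧
        Int.gcd v1 v2 = g) * ENNReal.ofReal (2 * (r * (g : ℝ)) + 1) := by
    intro v1 v2
    have f1 : ∀ t1 t2 : ℤ, G (t1, t2, v1, v2) = ic (¬ (v1 = 0 ∧ v2 = 0) ∧
        CL1_nn v1 v2 z ≤ X ∧ Int.gcd v1 v2 ∣ q ^ 2) *
        ic (t1 * v2 - t2 * v1 = (q : ℤ) ^ 2 ∧ |(CL1_pt (t1, t2, v1, v2) z).re| ≤ r) := by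
      intro t1 t2
      simp only [hG]
      rw [ic_and]
    simp_rw [f1, ENNReal.tsum_mul_left]
    by_cases hc : ¬ (v1 = 0 ∧ v2 = 0) ∧ CL1_nn v1 v2 z ≤ X ∧ Int.gcd v1 v2 ∣ q ^ 2
    · rw [ic_true hc, one_mul]
      refine (CL1_inner _ v1 v2 hc.1 hr).trans ?_
      have hmem : Int.gcd v1 v2 ∈ (q ^ 2).divisors :=
        Nat.mem_divisors.2 ⟨hc.2.2, hq2.ne'⟩
      refine le_trans (le_of_eq ?_) (Finset.single_le_sum (f := fun g : ℕ =>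
        ic (¬ (v1 = 0 ∧ v2 = 0) ∧ CL1_nn v1 v2 z ≤ X ∧ Int.gcd v1 v2 = g) *
          ENNReal.ofReal (2 * (r * (g : ℝ)) + 1)) (fun _ _ => zero_le) hmem)
      rw [ic_true (p := ¬ (v1 = 0 ∧ v2 = 0) ∧ CL1_nn v1 v2 z ≤ X ∧
        Int.gcd v1 v2 = Int.gcd v1 v2) ⟨hc.1, hc.2.1, rfl⟩, one_mul]
    · rw [ic_false hc, zero_mul]
      exact zero_le
  refine (ENNReal.tsum_le_tsum fun v1 => ENNReal.tsum_le_tsum fun v2 => e4 v1 v2).trans ?_
  have e5 : ∑' v1 : ℤ, ∑' v2 : ℤ, ∑ g ∈ (q ^ 2).divisors, ic (¬ (v1 = 0 ∧ v2 = 0) ∧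
      CL1_nn v1 v2 z ≤ X ∧ Int.gcd v1 v2 = g) * ENNReal.ofReal (2 * (r * (g : ℝ)) + 1) =
      ∑ g ∈ (q ^ 2).divisors, (∑' v1 : ℤ, ∑' v2 : ℤ, ic (¬ (v1 = 0 ∧ v2 = 0) ∧
        CL1_nn v1 v2 z ≤ X ∧ Int.gcd v1 v2 = g)) * ENNReal.ofReal (2 * (r * (g : ℝ)) + 1) := by
    have g1 : ∀ v1 : ℤ, ∑' v2 : ℤ, ∑ g ∈ (q ^ 2).divisors, ic (¬ (v1 = 0 ∧ v2 = 0) ∧
      CL1_nn v1 v2 z ≤ X ∧ Int.gcd v1 v2 = g) * ENNReal.ofReal (2 * (r * (g : ℝ)) + 1) =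
      ∑ g ∈ (q ^ 2).divisors, (∑' v2 : ℤ, ic (¬ (v1 = 0 ∧ v2 = 0) ∧
        CL1_nn v1 v2 z ≤ X ∧ Int.gcd v1 v2 = g)) * ENNReal.ofReal (2 * (r * (g : ℝ)) + 1) := by
      intro v1
      rw [Summable.tsum_finsetSum (fun _ _ => ENNReal.summable)]
      exact Finset.sum_congr rfl fun g _ => ENNReal.tsum_mul_right
    simp_rw [g1]
    rw [Summable.tsum_finsetSum (fun _ _ => ENNReal.summable)]
    exact Finset.sum_congr rfl fun g _ => ENNReal.tsum_mul_right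
  rw [e5]
  have e6 : ∀ g ∈ (q ^ 2).divisors, (∑' v1 : ℤ, ∑' v2 : ℤ, ic (¬ (v1 = 0 ∧ v2 = 0) ∧
        CL1_nn v1 v2 z ≤ X ∧ Int.gcd v1 v2 = g)) * ENNReal.ofReal (2 * (r * (g : ℝ)) + 1) ≤
      ENNReal.ofReal (24 * (X / (g : ℝ) ^ 2) * (2 * (r * (g : ℝ)) + 1)) := by
    intro g hg
    rw [Nat.mem_divisors] at hg
    have hg0 : 0 < g := Nat.pos_of_dvd_of_pos hg.1 hq2
    rw [ENNReal.ofReal_mul (by positivity)]
    exact mul_le_mul_left (CL1_gcd him hX0 hg0) _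
  refine (Finset.sum_le_sum e6).trans ?_
  rw [← ENNReal.ofReal_sum_of_nonneg]
  · refine ENNReal.ofReal_le_ofReal ?_
    have e7 : (q ^ 2).divisors = {1, q, q ^ 2} := by
      rw [Nat.divisors_prime_pow hq 2]
      ext a
      simp only [Finset.mem_map, Finset.mem_range, Function.Embedding.coeFn_mk,
        Finset.mem_insert, Finset.mem_singleton]
      constructor
      · rintro ⟨i, hi, rfl⟩
        interval_cases i
        · left; simp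
        · right; left; simp
        · right; right; rfl
      · rintro (rfl | rfl | rfl)
        · exact ⟨0, by norm_num, by simp⟩
        · exact ⟨1, by norm_num, by simp⟩
        · exact ⟨2, by norm_num, rfl⟩
    have hq1 : (1 : ℕ) ∉ ({q, q ^ 2} : Finset ℕ) := by
      simp only [Finset.mem_insert, Finset.mem_singleton, not_or]
      have := hq.two_le
      exact ⟨by omega, by nlinarith⟩
    have hq3 : q ∉ ({q ^ 2} : Finset ℕ) := by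
      simp only [Finset.mem_singleton]
      have := hq.two_le
      nlinarith
    rw [e7, Finset.sum_insert hq1, Finset.sum_insert hq3, Finset.sum_singleton]
    have hqp : (0 : ℝ) < q := by linarith
    have k1 : 24 * (X / ((1 : ℕ) : ℝ) ^ 2) * (2 * (r * ((1 : ℕ) : ℝ)) + 1) =
        X * (48 * r + 24) := by push_cast; ring
    have k2 : 24 * (X / (q : ℝ) ^ 2) * (2 * (r * (q : ℝ)) + 1) ≤ X * (24 * r + 6) := by
      have : 24 * (X / (q : ℝ) ^ 2) * (2 * (r * (q : ℝ)) + 1) =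
          X * (48 * r * (1 / q) + 24 * (1 / q) ^ 2) := by field_simp; ring
      rw [this]
      have i1 : 1 / (q : ℝ) ≤ 1 / 2 := one_div_le_one_div_of_le (by norm_num) hqR
      have i0 : 0 ≤ 1 / (q : ℝ) := by positivity
      refine mul_le_mul_of_nonneg_left ?_ hX0
      nlinarith
    have k3 : 24 * (X / ((q ^ 2 : ℕ) : ℝ) ^ 2) * (2 * (r * ((q ^ 2 : ℕ) : ℝ)) + 1) ≤
        X * (12 * r + 2) := by
      have : 24 * (X / ((q ^ 2 : ℕ) : ℝ) ^ 2) * (2 * (r * ((q ^ 2 : ℕ) : ℝ)) + 1) =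
          X * (48 * r * (1 / q) ^ 2 + 24 * ((1 / q) ^ 2) ^ 2) := by push_cast; field_simp; ring
      rw [this]
      have i1 : 1 / (q : ℝ) ≤ 1 / 2 := one_div_le_one_div_of_le (by norm_num) hqR
      have i0 : 0 ≤ 1 / (q : ℝ) := by positivity
      have i2 : (1 / (q : ℝ)) ^ 2 ≤ 1 / 4 := by nlinarith
      have i3 : 0 ≤ (1 / (q : ℝ)) ^ 2 := by positivity
      refine mul_le_mul_of_nonneg_left ?_ hX0
      nlinarith
    rw [k1]
    nlinarith [mul_nonneg hX0 hr]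
  · intro g _
    positivity

end Pool.Agent.H19.Sup
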