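import Mathlib
import Pool.Agent.H19.Sup.Defs2

set_option autoImplicit false
set_option linter.unusedVariables false

/-!
# St: the main statements of the project as propositions

So that the long files can be compiled in parallel: every main step is an implication between them, see
`Glue.lean`.
-/

namespace Pool.Agent.H19.Sup

open UpperHalfPlane Polynomial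
open Pool.Agent.H19.Maass
open scoped MatrixGroups ComplexConjugate ENNReal

/-- the term of a line sum -/
noncomputable def Par.term (p : Par) (A : ℝ → ℂ) (T N u0 : ℝ) (n : ℤ) : ℂ :=
  osc A T (dh 0 p.Y 1 (p.m.eval (u0 + n / N) / p.n.eval (u0 + n / N)))
    (dh 0 p.Y' 1 (p.m.eval (u0 + n / N) / p.n.eval (u0 + n / N) - p.Δ))

def VdcQS : Prop :=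
  ∀ (k : ℕ) (hk : 1 ≤ k) (γ : ℝ) (hγ : 0 < γ) (hγ1 : γ ≤ 1 / 2),
    ∃ c C : ℝ, 0 < c ∧ 0 < C ∧ ∀ (f : ℕ → ℝ → ℝ) (A B N lam eps R : ℝ), 1 ≤ N → A ≤ B →
      B - A ≤ N → 0 < eps → eps ≤ 1 → 1 ≤ R → N ^ (-1 + γ) ≤ lam → lam ≤ N ^ (-γ) →
      (∀ i ≤ k, ∀ x ∈ Set.Icc A B, HasDerivAt (f i) (f (i + 1) x) x) →
      (∀ x ∈ Set.Icc A B, eps * lam ≤ |f k x| ∧ |f k x| ≤ R * lam) →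
      (∀ x ∈ Set.Icc A B, |f (k + 1) x| ≤ R * lam / N) →
      ‖∑ n ∈ Finset.Icc ⌈A⌉ ⌊B⌋, ee (f 0 n)‖ ≤ C * (R / eps ^ 2) * N ^ (1 - c)

def VdcS : Prop :=
  ∀ (k : ℕ) (hk : 2 ≤ k),
    ∃ c C : ℝ, 0 < c ∧ 0 < C ∧ ∀ (f : ℕ → ℝ → ℝ) (A B N lam eps R : ℝ), 1 ≤ N → A ≤ B →
      B - A ≤ N → 0 < eps → eps ≤ 1 → 1 ≤ R → N ^ (-(5 / 4) : ℝ) ≤ lam → lam ≤ N ^ (-(1 / 4) : ℝ) →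
      (∀ i ≤ k, ∀ x ∈ Set.Icc A B, HasDerivAt (f i) (f (i + 1) x) x) →
      (∀ x ∈ Set.Icc A B, eps * lam ≤ |f k x| ∧ |f k x| ≤ R * lam) →
      (∀ x ∈ Set.Icc A B, |f (k + 1) x| ≤ R * lam / N) →
      ‖∑ n ∈ Finset.Icc ⌈A⌉ ⌊B⌋, ee (f 0 n)‖ ≤ C * (R / eps ^ 2) * N ^ (1 - c)

def GoodBlockS : Prop :=
  ∀ (k : ℕ) (hk : 2 ≤ k),
    ∃ (c K : ℝ) (E : ℕ), 0 < c ∧ 0 < K ∧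
    ∀ (p : Par) (μ : ℝ), p.Good μ → ∀ (A : ℝ → ℂ) (B0 B1 ρ₀ ρ ε T N u0 : ℝ) (a b : ℤ),
    Amp A B0 B1 ρ₀ → 0 < ρ → ρ ≤ 1 → 0 < ε → ε ≤ 1 → 1 ≤ N → a ≤ b → ((b - a : ℤ) : ℝ) ≤ N →
    N ^ (-(5 / 4) : ℝ) ≤ T / (2 * Real.pi * N ^ k) → T / (2 * Real.pi * N ^ k) ≤ N ^ (-(1 / 4) : ℝ) →
    (∀ t : ℝ, (a : ℝ) ≤ t → t ≤ b → |u0 + t / N| ≤ 40 ∧ 1 ≤ p.n.eval (u0 + t / N) ∧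
      ρ ^ 2 ≤ p.R1.eval (u0 + t / N) ∧ ρ ^ 2 ≤ p.R2.eval (u0 + t / N) ∧
      ε ≤ |p.H k (u0 + t / N)|) →
    ‖∑ n ∈ Finset.Icc a b, p.term A T N u0 n‖ ≤
      K * (B0 * (B0 + B1)) * (ρ⁻¹) ^ E * (ε⁻¹) ^ 2 * N ^ (1 - c)

def NondegS : Prop :=
  ∀ (j : ℕ),
    ∃ (K : ℝ) (E : ℕ), 0 < K ∧ ∀ (p : Par) (μ : ℝ), p.Good μ →
    ∀ (g ε : ℝ), 0 < g → g ≤ 1 → 0 ≤ ε → ∀ u : Fin (16 * j + 7) → ℝ, (∀ i, |u i| ≤ 40) →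
    (∀ i l, i ≠ l → g ≤ |u i - u l|) → (∀ i, 0 < p.n.eval (u i)) →
    (∀ i, 0 < p.R1.eval (u i)) → (∀ i, 0 < p.R2.eval (u i)) →
    (∀ i, |p.H (j + 1) (u i)| ≤ ε) → μ ^ E * g ^ (16 * j + 6) ≤ K * ε

def LineSumS : Prop :=
  ∀ (k : ℕ) (hk : 2 ≤ k),
    ∃ (c K : ℝ) (E : ℕ), 0 < c ∧ 0 < K ∧
    ∀ (p : Par) (μ : ℝ), p.Good μ → ∀ (A : ℝ → ℂ) (B0 B1 ρ T N u0 : ℝ) (na nb : ℤ),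
    Amp A B0 B1 ρ → 0 < ρ → ρ ≤ 1 → 1 ≤ N →
    N ^ (-(5 / 4) : ℝ) ≤ T / (2 * Real.pi * N ^ k) → T / (2 * Real.pi * N ^ k) ≤ N ^ (-(1 / 4) : ℝ) →
    (∀ n : ℤ, na ≤ n → n ≤ nb → |u0 + n / N| ≤ 40 ∧ 1 ≤ p.n.eval (u0 + n / N)) →
    ‖∑ n ∈ Finset.Icc na nb, p.term A T N u0 n‖ ≤
      K * (B0 * (B0 + B1)) * ((ρ * μ)⁻¹) ^ E * N ^ (1 - c)

def PlaneLineS : Prop :=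
  ∃ (c K : ℝ) (E : ℕ), 0 < c ∧ c ≤ 1 ∧ 0 < K ∧
    ∀ (A : ℝ → ℂ) (B0 B1 ρ T μ : ℝ) (N : ℕ) (M : ℤ) (X Y X' Y' y : ℝ) (a s j : ℤ),
    Amp A B0 B1 ρ → 0 < ρ → ρ ≤ 1 → 0 < μ → μ ≤ 1 → 1 ≤ N → (N : ℝ) ^ 5 ≤ T → T ≤ (N : ℝ) ^ 6 →
    0 < Y → 0 < Y' → 0 < y → μ ^ 2 * (Y * Y') ≤ (X - X') ^ 2 + (Y - Y') ^ 2 →
    (∀ q ∈ Finset.Ioc N (4 * N), ∀ b : ℤ, dh X Y y ((b : ℝ) / q) < 1 / 2 → |b| ≤ M) →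
    1 ≤ s → IsCoprime a s → μ * (s * y * N) ≤ |(j : ℝ)| →
    √(N : ℝ) / 40 ≤ N / max (s : ℝ) (|(j : ℝ)| / (y * N)) →
    ‖LS A T N M X Y X' Y' y a s j‖ ≤
      K * (B0 * (B0 + B1)) * ((ρ * μ)⁻¹) ^ E * ((N : ℝ) / max (s : ℝ) (|(j : ℝ)| / (y * N))) ^ (1 - c)

def PlaneSumS : Prop :=
  ∃ (c K : ℝ) (E : ℕ), 0 < c ∧ c ≤ 1 ∧ 0 < K ∧
    ∀ (A : ℝ → ℂ) (B0 B1 ρ T μ : ℝ) (N : ℕ) (M : ℤ) (X Y X' Y' y : ℝ),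
    Amp A B0 B1 ρ → 0 < ρ → ρ ≤ 1 → 0 < μ → μ ≤ 1 → 1 ≤ N → (N : ℝ) ^ 5 ≤ T → T ≤ (N : ℝ) ^ 6 →
    0 < Y → 0 < Y' → 1 / (20 * N : ℝ) ≤ y → y ≤ 1 →
    μ ^ 2 * (Y * Y') ≤ (X - X') ^ 2 + (Y - Y') ^ 2 →
    (∀ q ∈ Finset.Ioc N (4 * N), ∀ b : ℤ, dh X Y y ((b : ℝ) / q) < 1 / 2 → |b| ≤ M) →
    ‖PS A T N M X Y X' Y' y‖ ≤ K * ((N : ℝ) ^ 2 * y) * (B0 ^ 2 * (μ + (N : ℝ) ^ (-c)) +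
      B0 * (B0 + B1) * ((ρ * μ)⁻¹) ^ E * (N : ℝ) ^ (-c))

def AllPlanesS : Prop :=
  ∃ (c : ℝ) (E : ℕ), 0 < c ∧ c ≤ 1 ∧ ∀ Y0 : ℝ, ∃ K : ℝ, 0 < K ∧
    ∀ (A : ℝ → ℂ) (B0 B1 ρ T μ : ℝ) (N : ℕ) (M : ℤ) (w w' z : ℍ),
    Amp A B0 B1 ρ → 0 < ρ → ρ ≤ 1 → 0 < μ → μ ≤ 1 → 1 ≤ N → (N : ℝ) ^ 5 ≤ T → T ≤ (N : ℝ) ^ 6 →
    1 / 2 ≤ z.im → z.im ≤ Y0 → 1 / 2 ≤ w.im → 1 / 2 ≤ w'.im → μ ≤ dist w w' →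
    ∀ G : Finset ((ℤ × ℤ) × (ℤ × ℤ)),
    (∀ g ∈ G, IsCoprime g.1.1 g.1.2 ∧ IsCoprime g.2.1 g.2.2 ∧ 1 / (20 * N : ℝ) ≤ ht g.2 z) →
    (∀ g ∈ G, ∀ q ∈ Finset.Ioc N (4 * N), ∀ b : ℤ, dist w (VV g.1 g.2 q b z) < 1 / 2 → |b| ≤ M) →
    ‖∑ g ∈ G, ZZ A T N M w w' z g.1 g.2‖ ≤ K * (N : ℝ) ^ 3 * (B0 ^ 2 * (μ + (N : ℝ) ^ (-c)) +
      B0 * (B0 + B1) * ((ρ * μ)⁻¹) ^ E * (N : ℝ) ^ (-c))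

def FarBoundS : Prop :=
  ∃ (c : ℝ) (E : ℕ), 0 < c ∧ c ≤ 1 ∧ ∀ Y0 ε : ℝ, 0 < ε → ∃ K : ℝ, 0 < K ∧
    ∀ (A : ℝ → ℂ) (B0 B1 ρ T μ h0 : ℝ) (N : ℕ) (z : ℍ) (S : Finset SL(2, ℤ)),
    Amp A B0 B1 ρ → 0 < ρ → ρ ≤ 1 → 1 / (N : ℝ) ≤ μ → μ ≤ 1 → 2 ≤ h0 → 9 * h0 ≤ N → 20 * Y0 < N →
    1 ≤ N → (N : ℝ) ^ 5 ≤ T → T ≤ (N : ℝ) ^ 6 →
    |z.re| ≤ 1 / 2 → 1 / 2 ≤ z.im → z.im ≤ Y0 →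
    (∀ i ∈ II N, ∀ j ∈ II N, ∀ σ : SL(2, ℤ), dist (zt z i) (σ • zt z j) ≤ 1 / 2 → σ ∈ S) →
    ‖FF A T N z S‖ ≤ K * (N : ℝ) ^ 4 * (B0 / h0 +
      √((1 + Real.log h0) * ((N : ℝ) ^ ε * μ ^ 2 * B0 ^ 2 + B0 ^ 2 * (μ + (N : ℝ) ^ (-c)) +
        B0 * (B0 + B1) * ((ρ * μ)⁻¹) ^ E * (N : ℝ) ^ (-c))))

def SplitKernelS : Prop :=
  ∃ C : ℝ, 0 < C ∧ ∀ T : ℝ, 1 ≤ T → ∀ ρ : ℝ, 1 / T ≤ ρ → ρ ≤ 1 / 8 →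
    ∃ (L j0 : ℕ) (k : ℝ → ℝ) (A : ℝ → ℂ), (2 : ℝ) ^ L ≤ 2 * √T ∧ j0 ≤ L ∧
      1 / (8 : ℝ) ^ j0 ≤ C * ρ ^ (3 / 2 : ℝ) ∧ Ker k (1 / 4) ∧
      1 / 20 ≤ ‖selb k (1 / 2 + T * Complex.I)‖ ∧ Amp A (C * √T / √ρ) (C * √T / ρ ^ 3) ρ ∧
      ∀ z w : ℍ, ENNReal.ofReal |KK k z w - (wv A T (dist z w)).re| ≤
        phn C T j0 L (2 * Real.cosh (dist z w) - 2)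

def SmallImprovedS : Prop :=
  ∃ δ : ℝ, 0 < δ ∧ ∀ Y0 ε : ℝ, 0 < ε → ∃ K : ℝ, 0 < K ∧
    ∀ (N : ℕ) (T : ℝ), 1 ≤ N → (N : ℝ) ^ 5 ≤ T → T ≤ (N : ℝ) ^ 6 →
    ∀ (U : ℂ → ℂ) (c : ℕ → ℂ), Frm T U c → (∀ p : ℕ, p.Prime → c p ^ 2 = c (p ^ 2) + p) →
    ∀ z : ℍ, |z.re| ≤ 1 / 2 → 1 / 2 ≤ z.im → z.im ≤ Y0 →
    ∑ p ∈ PR N, ‖c p‖ ^ 2 / p ≤ (PR N).card / 2 →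
    ((PR N).card : ℝ) ^ 2 * ‖U z‖ ^ 2 ≤
      K * ((N : ℝ) ^ ε * (N * T + √T * (N : ℝ) ^ (4 - δ)))

end Pool.Agent.H19.Sup
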