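import Mathlib
import Pool.Agent.H19.Sup.Defs

set_option autoImplicit false

/-!
# V1: the inequality of Weyl and van der Corput

Proof.  Put `z n = 0` outside `[a, b]`.  Then `H * S = ∑_m ∑_{0 ≤ h < H} z (m + h)`, where `m` runs
over the `L + H - 1` integers of `[a - H + 1, b]`.  Cauchy-Schwarz:
`H² |S|² ≤ (L + H - 1) ∑_m |∑_h z (m + h)|² = (L + H - 1) ∑_{h, h'} ∑_m z (m + h) conj (z (m + h'))`
`≤ (L + H) (H L + 2 ∑_{1 ≤ r < H} (H - r) |c_r|)`, `c_r = ∑_m z (m + r) conj (z m)`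
(a sum over `m ∈ [a, b - r]`).
-/

namespace Pool.Agent.H19.Sup

open scoped ComplexConjugate

lemma V1_shift (g : ℤ → ℂ) {A B a b h : ℤ} (h1 : A + h ≤ a) (h2 : b ≤ B + h)
    (hg : ∀ n, n ∉ Finset.Icc a b → g n = 0) :
    ∑ m ∈ Finset.Icc A B, g (m + h) = ∑ n ∈ Finset.Icc a b, g n := by
  have e : ∑ m ∈ Finset.Icc A B, g (m + h) = ∑ n ∈ Finset.Icc (A + h) (B + h), g n := by
    rw [← Finset.image_add_right_Icc A B h, Finset.sum_image]
    intro x _ y _ hxy
    simpa using hxy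
  rw [e]
  symm
  apply Finset.sum_subset
  · intro n hn
    rw [Finset.mem_Icc] at hn ⊢
    omega
  · intro n _ hn
    exact hg n hn

/-- the truncated sequence -/
noncomputable def V1_w (z : ℤ → ℂ) (a b : ℤ) (n : ℤ) : ℂ := if n ∈ Finset.Icc a b then z n else 0

lemma V1_corr (z : ℤ → ℂ) {a b : ℤ} {H h h' : ℕ} (hh : h < H) (hh' : h' ≤ h) :
    ∑ m ∈ Finset.Icc (a - H + 1) b, V1_w z a b (m + h) * conj (V1_w z a b (m + h')) =
      ∑ n ∈ Finset.Icc a (b - ((h - h' : ℕ) : ℤ)), z (n + ((h - h' : ℕ) : ℤ)) * conj (z n) := by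
  set g : ℤ → ℂ := fun n => V1_w z a b (n + ((h - h' : ℕ) : ℤ)) * conj (V1_w z a b n) with hg
  have l : ∑ m ∈ Finset.Icc (a - H + 1) b, V1_w z a b (m + h) * conj (V1_w z a b (m + h')) =
      ∑ m ∈ Finset.Icc (a - H + 1) b, g (m + (h' : ℤ)) := by
    apply Finset.sum_congr rfl
    intro m _
    have e : m + (h' : ℤ) + ((h - h' : ℕ) : ℤ) = m + h := by omega
    simp only [hg, e]
  have r : ∑ n ∈ Finset.Icc a (b - ((h - h' : ℕ) : ℤ)), z (n + ((h - h' : ℕ) : ℤ)) * conj (z n) =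
      ∑ n ∈ Finset.Icc a (b - ((h - h' : ℕ) : ℤ)), g n := by
    apply Finset.sum_congr rfl
    intro n hn
    rw [Finset.mem_Icc] at hn
    have e1 : n + ((h - h' : ℕ) : ℤ) ∈ Finset.Icc a b := by rw [Finset.mem_Icc]; omega
    have e2 : n ∈ Finset.Icc a b := by rw [Finset.mem_Icc]; omega
    simp only [hg, V1_w, e1, e2, if_true]
  rw [l, r]
  apply V1_shift g
  · omega
  · omega
  · intro n hn
    rw [Finset.mem_Icc] at hn
    by_cases e2 : n ∈ Finset.Icc a b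
    · have e1 : n + ((h - h' : ℕ) : ℤ) ∉ Finset.Icc a b := by
        rw [Finset.mem_Icc] at e2 ⊢; omega
      simp only [hg, V1_w, e1, if_false, zero_mul]
    · simp only [hg, V1_w, e2, if_false, map_zero, mul_zero]

lemma V1_row (F : ℕ → ℝ) (hF : ∀ r, 0 ≤ F r) {H k : ℕ} (hk : k < H) (G : ℕ → ℝ)
    (hG1 : ∀ h, k ≤ h → h < H → G h = F (h - k)) (hG2 : ∀ h, h < k → G h = F (k - h)) :
    ∑ h ∈ Finset.range H, G h ≤ F 0 + 2 * ∑ r ∈ Finset.Icc 1 (H - 1), F r := by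
  have e : Finset.range H = Finset.range k ∪ ({k} ∪ Finset.Icc (k + 1) (H - 1)) := by
    ext x
    simp only [Finset.mem_range, Finset.mem_union, Finset.mem_singleton, Finset.mem_Icc]
    omega
  have d1 : Disjoint (Finset.range k) ({k} ∪ Finset.Icc (k + 1) (H - 1)) := by
    rw [Finset.disjoint_left]
    intro x
    simp only [Finset.mem_range, Finset.mem_union, Finset.mem_singleton, Finset.mem_Icc]
    omega
  have d2 : Disjoint ({k} : Finset ℕ) (Finset.Icc (k + 1) (H - 1)) := by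
    rw [Finset.disjoint_left]
    intro x
    simp only [Finset.mem_singleton, Finset.mem_Icc]
    omega
  rw [e, Finset.sum_union d1, Finset.sum_union d2, Finset.sum_singleton, hG1 k le_rfl hk,
    Nat.sub_self]
  have s1 : ∑ h ∈ Finset.range k, G h ≤ ∑ r ∈ Finset.Icc 1 (H - 1), F r := by
    have e1 : ∑ h ∈ Finset.range k, G h = ∑ r ∈ (Finset.range k).image (fun h => k - h), F r := by
      rw [Finset.sum_image]
      · apply Finset.sum_congr rfl
        intro h hh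
        exact hG2 h (Finset.mem_range.mp hh)
      · intro x hx y hy hxy
        have hx' := Finset.mem_range.mp hx
        have hy' := Finset.mem_range.mp hy
        simp only at hxy
        omega
    rw [e1]
    apply Finset.sum_le_sum_of_subset_of_nonneg
    · intro r hr
      obtain ⟨h, hh, rfl⟩ := Finset.mem_image.mp hr
      have := Finset.mem_range.mp hh
      rw [Finset.mem_Icc]
      omega
    · intro r _ _
      exact hF r
  have s2 : ∑ h ∈ Finset.Icc (k + 1) (H - 1), G h ≤ ∑ r ∈ Finset.Icc 1 (H - 1), F r := by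
    have e1 : ∑ h ∈ Finset.Icc (k + 1) (H - 1), G h =
        ∑ r ∈ (Finset.Icc (k + 1) (H - 1)).image (fun h => h - k), F r := by
      rw [Finset.sum_image]
      · apply Finset.sum_congr rfl
        intro h hh
        have := Finset.mem_Icc.mp hh
        exact hG1 h (by omega) (by omega)
      · intro x hx y hy hxy
        have hx' := Finset.mem_Icc.mp hx
        have hy' := Finset.mem_Icc.mp hy
        simp only at hxy
        omega
    rw [e1]
    apply Finset.sum_le_sum_of_subset_of_nonneg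
    · intro r hr
      obtain ⟨h, hh, rfl⟩ := Finset.mem_image.mp hr
      have := Finset.mem_Icc.mp hh
      rw [Finset.mem_Icc]
      omega
    · intro r _ _
      exact hF r
  linarith

theorem vdc_ineq (z : ℤ → ℂ) (hz : ∀ n, ‖z n‖ ≤ 1) {a b : ℤ} (hab : a ≤ b) {H : ℕ} (hH : 1 ≤ H) :
    ‖∑ n ∈ Finset.Icc a b, z n‖ ^ 2 ≤
      (((b - a + 1 : ℤ) : ℝ) + H) / H * (((b - a + 1 : ℤ) : ℝ) +
        2 * ∑ h ∈ Finset.Icc 1 (H - 1), ‖∑ n ∈ Finset.Icc a (b - (h : ℤ)),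
          z (n + (h : ℤ)) * conj (z n)‖) := by
  set F : ℕ → ℝ := fun r => ‖∑ n ∈ Finset.Icc a (b - (r : ℤ)), z (n + (r : ℤ)) * conj (z n)‖ with hFdef
  have hF : ∀ r, 0 ≤ F r := fun r => norm_nonneg _
  set S : ℂ := ∑ n ∈ Finset.Icc a b, z n with hS
  set I : Finset ℤ := Finset.Icc (a - H + 1) b with hI
  set w : ℤ → ℂ := V1_w z a b with hw
  have hHpos : (0 : ℝ) < H := by exact_mod_cast hH
  have hL1 : (1 : ℝ) ≤ ((b - a + 1 : ℤ) : ℝ) := by
    have : (1 : ℤ) ≤ b - a + 1 := by omega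
    exact_mod_cast this
  -- the shifted sums
  have h1 : ∀ h ∈ Finset.range H, ∑ m ∈ I, w (m + (h : ℤ)) = S := by
    intro h hh
    have hh' := Finset.mem_range.mp hh
    rw [hI, V1_shift w (a := a) (b := b) (by omega) (by omega), hS]
    · apply Finset.sum_congr rfl
      intro n hn
      simp only [hw, V1_w, hn, if_true]
    · intro n hn
      simp only [hw, V1_w, hn, if_false]
  have h2 : (H : ℂ) * S = ∑ m ∈ I, ∑ h ∈ Finset.range H, w (m + (h : ℤ)) := by
    rw [Finset.sum_comm, Finset.sum_congr rfl h1, Finset.sum_const, Finset.card_range, nsmul_eq_mul]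
  -- Cauchy-Schwarz
  have hcard : (I.card : ℝ) ≤ ((b - a + 1 : ℤ) : ℝ) + H := by
    rw [hI, Int.card_Icc]
    have : ((b + 1 - (a - H + 1)).toNat : ℤ) ≤ (b - a + 1) + H := by omega
    have h3 : (((b + 1 - (a - H + 1)).toNat : ℤ) : ℝ) ≤ (((b - a + 1) + H : ℤ) : ℝ) := by
      exact_mod_cast this
    push_cast at h3 ⊢
    exact h3
  have h3 : ((H : ℝ) * ‖S‖) ^ 2 ≤ (I.card : ℝ) *
      ∑ m ∈ I, ‖∑ h ∈ Finset.range H, w (m + (h : ℤ))‖ ^ 2 := by
    have e : (H : ℝ) * ‖S‖ = ‖(H : ℂ) * S‖ := by rw [norm_mul, Complex.norm_natCast]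
    rw [e, h2]
    calc ‖∑ m ∈ I, ∑ h ∈ Finset.range H, w (m + (h : ℤ))‖ ^ 2
        ≤ (∑ m ∈ I, ‖∑ h ∈ Finset.range H, w (m + (h : ℤ))‖) ^ 2 := by
          apply pow_le_pow_left₀ (norm_nonneg _)
          exact norm_sum_le _ _
      _ ≤ _ := sq_sum_le_card_mul_sum_sq
  -- the diagonalisation
  have h4 : ((∑ m ∈ I, ‖∑ h ∈ Finset.range H, w (m + (h : ℤ))‖ ^ 2 : ℝ) : ℂ) =
      ∑ h' ∈ Finset.range H, ∑ h ∈ Finset.range H,
        ∑ m ∈ I, w (m + (h : ℤ)) * conj (w (m + (h' : ℤ))) := by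
    push_cast
    have e : ∀ m ∈ I, (‖∑ h ∈ Finset.range H, w (m + (h : ℤ))‖ : ℂ) ^ 2 =
        ∑ h' ∈ Finset.range H, ∑ h ∈ Finset.range H,
          w (m + (h : ℤ)) * conj (w (m + (h' : ℤ))) := by
      intro m _
      rw [← Complex.mul_conj', map_sum, Finset.sum_mul_sum, Finset.sum_comm]
    rw [Finset.sum_congr rfl e, Finset.sum_comm]
    apply Finset.sum_congr rfl
    intro h' _
    rw [Finset.sum_comm]
  have h5 : (∑ m ∈ I, ‖∑ h ∈ Finset.range H, w (m + (h : ℤ))‖ ^ 2) ≤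
      ∑ h' ∈ Finset.range H, ∑ h ∈ Finset.range H,
        ‖∑ m ∈ I, w (m + (h : ℤ)) * conj (w (m + (h' : ℤ)))‖ := by
    have e : (∑ m ∈ I, ‖∑ h ∈ Finset.range H, w (m + (h : ℤ))‖ ^ 2) =
        ‖((∑ m ∈ I, ‖∑ h ∈ Finset.range H, w (m + (h : ℤ))‖ ^ 2 : ℝ) : ℂ)‖ := by
      rw [Complex.norm_real, Real.norm_of_nonneg]
      positivity
    rw [e, h4]
    refine (norm_sum_le _ _).trans ?_
    apply Finset.sum_le_sum
    intro h' _
    exact norm_sum_le _ _
  have hF0 : F 0 ≤ ((b - a + 1 : ℤ) : ℝ) := by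
    simp only [hFdef, Nat.cast_zero, sub_zero, add_zero]
    refine (norm_sum_le _ _).trans ?_
    calc ∑ n ∈ Finset.Icc a b, ‖z n * conj (z n)‖ ≤ ∑ n ∈ Finset.Icc a b, (1 : ℝ) := by
          apply Finset.sum_le_sum
          intro n _
          rw [norm_mul, RCLike.norm_conj]
          have := hz n
          have h0 := norm_nonneg (z n)
          nlinarith
      _ = ((Finset.Icc a b).card : ℝ) := by simp
      _ ≤ ((b - a + 1 : ℤ) : ℝ) := by
          rw [Int.card_Icc]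
          have : ((b + 1 - a).toNat : ℤ) = b - a + 1 := by omega
          have h3 : (((b + 1 - a).toNat : ℤ) : ℝ) = ((b - a + 1 : ℤ) : ℝ) := by rw [this]
          rw [← h3]
          norm_cast
  have h6 : ∀ h' ∈ Finset.range H, ∑ h ∈ Finset.range H,
        ‖∑ m ∈ I, w (m + (h : ℤ)) * conj (w (m + (h' : ℤ)))‖ ≤
        ((b - a + 1 : ℤ) : ℝ) + 2 * ∑ r ∈ Finset.Icc 1 (H - 1), F r := by
    intro h' hh'
    have hk := Finset.mem_range.mp hh'
    have := V1_row F hF hk (fun h => ‖∑ m ∈ I, w (m + (h : ℤ)) * conj (w (m + (h' : ℤ)))‖) ?_ ?_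
    · linarith
    · intro h hh1 hh2
      simp only [hFdef, hI, hw]
      rw [V1_corr z hh2 hh1]
    · intro h hh1
      simp only [hFdef, hI, hw]
      rw [← V1_corr z hk hh1.le, ← RCLike.norm_conj, map_sum]
      congr 1
      apply Finset.sum_congr rfl
      intro m _
      rw [map_mul, Complex.conj_conj, mul_comm]
  have h7 : (∑ m ∈ I, ‖∑ h ∈ Finset.range H, w (m + (h : ℤ))‖ ^ 2) ≤
      H * (((b - a + 1 : ℤ) : ℝ) + 2 * ∑ r ∈ Finset.Icc 1 (H - 1), F r) := by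
    refine h5.trans ((Finset.sum_le_sum h6).trans ?_)
    rw [Finset.sum_const, Finset.card_range, nsmul_eq_mul]
  have hsum : 0 ≤ ∑ r ∈ Finset.Icc 1 (H - 1), F r := Finset.sum_nonneg (fun r _ => hF r)
  set R : ℝ := ((b - a + 1 : ℤ) : ℝ) + 2 * ∑ r ∈ Finset.Icc 1 (H - 1), F r with hR
  have hRpos : 0 ≤ R := by rw [hR]; linarith
  have h8 : ((H : ℝ) * ‖S‖) ^ 2 ≤ (((b - a + 1 : ℤ) : ℝ) + H) * (H * R) := by
    refine h3.trans ?_
    apply mul_le_mul hcard h7
    · positivity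
    · linarith
  have h9 : ‖S‖ ^ 2 ≤ (((b - a + 1 : ℤ) : ℝ) + H) / H * R := by
    have e : (((b - a + 1 : ℤ) : ℝ) + H) / H * R = ((((b - a + 1 : ℤ) : ℝ) + H) * (H * R)) / H ^ 2 := by
      field_simp
    rw [e, le_div_iff₀ (by positivity)]
    calc ‖S‖ ^ 2 * (H : ℝ) ^ 2 = ((H : ℝ) * ‖S‖) ^ 2 := by ring
      _ ≤ _ := h8
  exact h9

end Pool.Agent.H19.Sup
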