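import Mathlib
import Pool.Agent.H19.Sup.Defs

set_option autoImplicit false

/-!
# V2: sums with small non vanishing derivative (Kusmin-Landau without monotonicity)

Proof.  Let `a = ⌈A⌉`, `b = ⌊B⌋`, `Δ n = f (n + 1) - f n` for `a ≤ n < b` (mean value theorem:
`δ ≤ |Δ n| ≤ 1 / 2`), `G n = 1 / (ee (Δ n) - 1)`; `|ee x - 1| = 2 |sin (π x)| ≥ 4 |x|` for
`|x| ≤ 1/2`, so `|G n| ≤ 1 / (4 δ)`.  Then `ee (f n) = (ee (f (n+1)) - ee (f n)) * G n`; sum by
parts: the sum over `a ≤ n < b` is at most `1/(2δ) + ∑ |G n - G (n-1)|`, and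
`|G n - G (n-1)| ≤ |ee (Δ n) - ee (Δ (n-1))| / (16 δ²) ≤ 2 π |Δ n - Δ (n-1)| / (16 δ²)`, and
`|Δ n - Δ (n-1)| ≤ τ` (mean value theorem twice).  The last term `n = b` gives `1`.
-/

namespace Pool.Agent.H19.Sup

theorem V2_ee_norm (x : ℝ) : ‖ee x‖ = 1 := by
  unfold ee
  exact Complex.norm_exp_ofReal_mul_I _

theorem V2_ee_add (x y : ℝ) : ee (x + y) = ee x * ee y := by
  unfold ee
  rw [← Complex.exp_add]
  congr 1
  push_cast
  ring

theorem V2_ee_sub_one_le (x : ℝ) : ‖ee x - 1‖ ≤ 2 * Real.pi * |x| := by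
  have h := Real.norm_exp_I_mul_ofReal_sub_one_le (x := 2 * Real.pi * x)
  unfold ee
  rw [mul_comm ((2 * Real.pi * x : ℝ) : ℂ) Complex.I]
  refine h.trans (le_of_eq ?_)
  rw [Real.norm_eq_abs, abs_mul, abs_of_pos (by positivity : (0:ℝ) < 2 * Real.pi)]

theorem V2_le_ee_sub_one {x : ℝ} (hx : |x| ≤ 1 / 2) : 4 * |x| ≤ ‖ee x - 1‖ := by
  unfold ee
  rw [mul_comm ((2 * Real.pi * x : ℝ) : ℂ) Complex.I, Complex.norm_exp_I_mul_ofReal_sub_one,
    Real.norm_eq_abs, abs_mul, abs_of_pos (by norm_num : (0:ℝ) < 2)]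
  have e1 : 2 * Real.pi * x / 2 = Real.pi * x := by ring
  rw [e1]
  have e2 : |Real.sin (Real.pi * x)| = Real.sin (Real.pi * |x|) := by
    rcases le_or_gt 0 x with h | h
    · rw [abs_of_nonneg h] at hx ⊢
      rw [abs_of_nonneg]
      exact Real.sin_nonneg_of_nonneg_of_le_pi (by positivity) (by nlinarith [Real.pi_pos])
    · rw [abs_of_neg h] at hx ⊢
      have h1 : Real.pi * x = - (Real.pi * (-x)) := by ring
      rw [h1, Real.sin_neg, abs_neg, abs_of_nonneg]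
      exact Real.sin_nonneg_of_nonneg_of_le_pi (by nlinarith [Real.pi_pos])
        (by nlinarith [Real.pi_pos])
  rw [e2]
  have h3 : 2 / Real.pi * (Real.pi * |x|) ≤ Real.sin (Real.pi * |x|) := by
    apply Real.mul_le_sin
    · positivity
    · nlinarith [Real.pi_pos]
  have h4 : 2 / Real.pi * (Real.pi * |x|) = 2 * |x| := by
    field_simp
  rw [h4] at h3
  linarith

theorem V2_ee_sub_le (x y : ℝ) : ‖ee x - ee y‖ ≤ 2 * Real.pi * |x - y| := by
  have h : ee x - ee y = ee y * (ee (x - y) - 1) := by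
    rw [mul_sub, ← V2_ee_add, mul_one]
    congr 2
    ring
  rw [h, norm_mul, V2_ee_norm, one_mul]
  exact V2_ee_sub_one_le _

/-- summation by parts -/
theorem V2_parts (u G : ℕ → ℂ) (g κ : ℝ) (hu : ∀ k, ‖u k‖ = 1) (N : ℕ)
    (hG : ∀ k, k ≤ N → ‖G k‖ ≤ g) (hκ : ∀ k, k < N → ‖G (k + 1) - G k‖ ≤ κ) :
    ‖(∑ k ∈ Finset.range (N + 1), (u (k + 1) - u k) * G k) - u (N + 1) * G N‖ ≤ g + N * κ := by
  induction N with
  | zero =>
    have : (∑ k ∈ Finset.range (0 + 1), (u (k + 1) - u k) * G k) - u (0 + 1) * G 0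
        = - (u 0 * G 0) := by
      simp
      ring
    rw [this, norm_neg, norm_mul, hu, one_mul]
    simpa using hG 0 le_rfl
  | succ N ih =>
    have ih' := ih (fun k hk => hG k (by omega)) (fun k hk => hκ k (by omega))
    rw [Finset.sum_range_succ]
    have h1 : (∑ k ∈ Finset.range (N + 1), (u (k + 1) - u k) * G k) +
        (u (N + 1 + 1) - u (N + 1)) * G (N + 1) - u (N + 1 + 1) * G (N + 1)
        = ((∑ k ∈ Finset.range (N + 1), (u (k + 1) - u k) * G k) - u (N + 1) * G N)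
          - u (N + 1) * (G (N + 1) - G N) := by ring
    rw [h1]
    refine (norm_sub_le _ _).trans ?_
    rw [norm_mul, hu, one_mul]
    have h2 := hκ N (by omega)
    push_cast
    linarith

theorem vdc_base (f f1 f2 : ℝ → ℝ) {A B δ τ : ℝ} (hAB : A ≤ B) (hδ : 0 < δ) (hτ : 0 ≤ τ)
    (h1 : ∀ x ∈ Set.Icc A B, HasDerivAt f (f1 x) x)
    (h2 : ∀ x ∈ Set.Icc A B, HasDerivAt f1 (f2 x) x)
    (h3 : ∀ x ∈ Set.Icc A B, δ ≤ |f1 x| ∧ |f1 x| ≤ 1 / 2)
    (h4 : ∀ x ∈ Set.Icc A B, |f2 x| ≤ τ) :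
    ‖∑ n ∈ Finset.Icc ⌈A⌉ ⌊B⌋, ee (f n)‖ ≤ 1 + 1 / (2 * δ) + (B - A) * τ / δ ^ 2 := by
  have hpos : 0 ≤ 1 / (2 * δ) + (B - A) * τ / δ ^ 2 := by
    have : 0 ≤ (B - A) * τ := mul_nonneg (by linarith) hτ
    positivity
  rcases lt_or_ge ⌊B⌋ ⌈A⌉ with hab | hab
  · rw [Finset.Icc_eq_empty (by omega)]
    simp only [Finset.sum_empty, norm_zero]
    linarith
  obtain ⟨M, hM⟩ : ∃ M : ℕ, ⌊B⌋ = ⌈A⌉ + M := ⟨(⌊B⌋ - ⌈A⌉).toNat, by omega⟩
  set a : ℤ := ⌈A⌉ with ha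
  have haA : A ≤ (a : ℝ) := Int.le_ceil A
  have hbB : (a : ℝ) + M ≤ B := by
    have h := Int.floor_le B
    rw [hM] at h
    push_cast at h
    exact h
  -- the sum over naturals
  have hsum : ∑ n ∈ Finset.Icc a ⌊B⌋, ee (f n)
      = ∑ k ∈ Finset.range (M + 1), ee (f ((a : ℝ) + k)) := by
    rw [hM]
    symm
    refine Finset.sum_bij (fun (k : ℕ) _ => a + (k : ℤ)) ?_ ?_ ?_ ?_
    · intro k hk
      rw [Finset.mem_range] at hk
      rw [Finset.mem_Icc]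
      omega
    · intro k _ l _ hkl
      have : (a + (k : ℤ)) = a + (l : ℤ) := hkl
      omega
    · intro n hn
      rw [Finset.mem_Icc] at hn
      exact ⟨(n - a).toNat, by rw [Finset.mem_range]; omega, by
        show a + ((n - a).toNat : ℤ) = n
        omega⟩
    · intro k _
      push_cast
      rfl
  rw [hsum, Finset.sum_range_succ]
  set u : ℕ → ℂ := fun k => ee (f ((a : ℝ) + k)) with hu
  have hu1 : ∀ k, ‖u k‖ = 1 := fun k => V2_ee_norm _
  rcases Nat.eq_zero_or_pos M with hM0 | hM0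
  · subst hM0
    simp only [Finset.range_zero, Finset.sum_empty, zero_add]
    have : ‖ee (f ((a : ℝ) + (0 : ℕ)))‖ = 1 := V2_ee_norm _
    rw [this]
    linarith
  obtain ⟨N, rfl⟩ : ∃ N, M = N + 1 := ⟨M - 1, by omega⟩
  push_cast at hbB
  set Δ : ℕ → ℝ := fun k => f ((a : ℝ) + k + 1) - f ((a : ℝ) + k) with hΔ
  -- mean value theorem
  have hmv : ∀ k : ℕ, k ≤ N → ∃ c ∈ Set.Icc A B, Δ k = f1 c := by
    intro k hk
    have hk' : (k : ℝ) ≤ N := by exact_mod_cast hk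
    have hk0 : (0 : ℝ) ≤ k := Nat.cast_nonneg k
    have hsub : Set.Icc ((a : ℝ) + k) ((a : ℝ) + k + 1) ⊆ Set.Icc A B := by
      intro x hx
      exact ⟨by linarith [hx.1], by linarith [hx.2]⟩
    obtain ⟨c, hc, hc2⟩ := exists_hasDerivAt_eq_slope f f1 (a := (a : ℝ) + k)
      (b := (a : ℝ) + k + 1) (by linarith)
      (fun x hx => (h1 x (hsub hx)).continuousAt.continuousWithinAt)
      (fun x hx => h1 x (hsub ⟨hx.1.le, hx.2.le⟩))
    refine ⟨c, hsub ⟨hc.1.le, hc.2.le⟩, ?_⟩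
    rw [hc2, hΔ]
    simp
  have hΔ1 : ∀ k : ℕ, k ≤ N → δ ≤ |Δ k| ∧ |Δ k| ≤ 1 / 2 := by
    intro k hk
    obtain ⟨c, hc, hc2⟩ := hmv k hk
    rw [hc2]
    exact h3 c hc
  -- second differences
  have hΔ2 : ∀ k : ℕ, k < N → |Δ (k + 1) - Δ k| ≤ τ := by
    intro k hk
    have hk' : (k : ℝ) + 1 ≤ N := by exact_mod_cast hk
    have hk0 : (0 : ℝ) ≤ k := Nat.cast_nonneg k
    have hsub : Set.Icc ((a : ℝ) + k) ((a : ℝ) + k + 2) ⊆ Set.Icc A B := by
      intro x hx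
      exact ⟨by linarith [hx.1], by linarith [hx.2]⟩
    have hder : ∀ x ∈ Set.Icc ((a : ℝ) + k) ((a : ℝ) + k + 1),
        HasDerivAt (fun x => f (x + 1) - f x) (f1 (x + 1) - f1 x) x := by
      intro x hx
      have e1 : HasDerivAt (fun x => f (x + 1)) (f1 (x + 1)) x :=
        HasDerivAt.comp_add_const x 1 (h1 (x + 1) (hsub ⟨by linarith [hx.1], by linarith [hx.2]⟩))
      exact e1.sub (h1 x (hsub ⟨by linarith [hx.1], by linarith [hx.2]⟩))
    obtain ⟨c, hc, hc2⟩ := exists_hasDerivAt_eq_slope (fun x => f (x + 1) - f x)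
      (fun x => f1 (x + 1) - f1 x) (a := (a : ℝ) + k) (b := (a : ℝ) + k + 1) (by linarith)
      (fun x hx => (hder x hx).continuousAt.continuousWithinAt)
      (fun x hx => hder x ⟨hx.1.le, hx.2.le⟩)
    have e2 : Δ (k + 1) - Δ k = f1 (c + 1) - f1 c := by
      have : f1 (c + 1) - f1 c = _ := hc2
      rw [this, hΔ]
      push_cast
      simp only [add_sub_cancel_left, div_one]
      have e3 : (a : ℝ) + ((k : ℝ) + 1) = (a : ℝ) + k + 1 := by ring
      rw [e3]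
    obtain ⟨c', hc', hc2'⟩ := exists_hasDerivAt_eq_slope f1 f2 (a := c) (b := c + 1)
      (by linarith)
      (fun x hx => (h2 x (hsub ⟨by linarith [hx.1, hc.1], by
        linarith [hx.2, hc.2]⟩)).continuousAt.continuousWithinAt)
      (fun x hx => h2 x (hsub ⟨by linarith [hx.1, hc.1], by linarith [hx.2, hc.2]⟩))
    have e4 : f1 (c + 1) - f1 c = f2 c' := by
      rw [hc2']
      simp
    rw [e2, e4]
    exact h4 c' (hsub ⟨by linarith [hc'.1, hc.1], by linarith [hc'.2, hc.2]⟩)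
  have hlow : ∀ k : ℕ, k ≤ N → 4 * δ ≤ ‖ee (Δ k) - 1‖ := by
    intro k hk
    obtain ⟨e1, e2⟩ := hΔ1 k hk
    have := V2_le_ee_sub_one e2
    linarith
  set G : ℕ → ℂ := fun k => (ee (Δ k) - 1)⁻¹ with hGdef
  have hG : ∀ k, k ≤ N → ‖G k‖ ≤ 1 / (4 * δ) := by
    intro k hk
    rw [hGdef]
    simp only [norm_inv]
    rw [one_div]
    exact inv_anti₀ (by positivity) (hlow k hk)
  have hne : ∀ k : ℕ, k ≤ N → ee (Δ k) - 1 ≠ 0 := by
    intro k hk h0
    have := hlow k hk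
    rw [h0, norm_zero] at this
    linarith
  have hκ : ∀ k, k < N → ‖G (k + 1) - G k‖ ≤ τ / δ ^ 2 := by
    intro k hk
    have n1 := hne k hk.le
    have n2 := hne (k + 1) hk
    have e1 : G (k + 1) - G k = (ee (Δ k) - ee (Δ (k + 1))) /
        ((ee (Δ (k + 1)) - 1) * (ee (Δ k) - 1)) := by
      rw [hGdef]
      simp only
      field_simp
      ring
    rw [e1, norm_div, norm_mul]
    have l1 := hlow k hk.le
    have l2 := hlow (k + 1) hk
    have u1 := V2_ee_sub_le (Δ k) (Δ (k + 1))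
    have u2 := hΔ2 k hk
    rw [abs_sub_comm] at u2
    have hpi := Real.pi_lt_four
    have u3 : ‖ee (Δ k) - ee (Δ (k + 1))‖ ≤ 16 * τ := by
      refine u1.trans ?_
      have : 2 * Real.pi * |Δ k - Δ (k + 1)| ≤ 2 * Real.pi * τ := by
        apply mul_le_mul_of_nonneg_left u2 (by positivity)
      nlinarith
    have l3 : 16 * δ ^ 2 ≤ ‖ee (Δ (k + 1)) - 1‖ * ‖ee (Δ k) - 1‖ := by
      have : (4 * δ) * (4 * δ) ≤ ‖ee (Δ (k + 1)) - 1‖ * ‖ee (Δ k) - 1‖ :=
        mul_le_mul l2 l1 (by positivity) (norm_nonneg _)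
      nlinarith
    calc ‖ee (Δ k) - ee (Δ (k + 1))‖ / (‖ee (Δ (k + 1)) - 1‖ * ‖ee (Δ k) - 1‖)
        ≤ (16 * τ) / (16 * δ ^ 2) := by
          apply div_le_div₀ (by positivity) u3 (by positivity) l3
      _ = τ / δ ^ 2 := by
          rw [mul_div_mul_left _ _ (by norm_num : (16:ℝ) ≠ 0)]
  have hparts := V2_parts u G (1 / (4 * δ)) (τ / δ ^ 2) hu1 N hG hκ
  have hterm : ∀ k ∈ Finset.range (N + 1), ee (f ((a : ℝ) + k)) = (u (k + 1) - u k) * G k := by
    intro k hk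
    rw [Finset.mem_range] at hk
    have n1 := hne k (by omega)
    have e1 : u (k + 1) = u k * ee (Δ k) := by
      rw [hu, hΔ]
      simp only
      rw [← V2_ee_add]
      congr 1
      push_cast
      have e3 : (a : ℝ) + ((k : ℝ) + 1) = (a : ℝ) + k + 1 := by ring
      rw [e3]
      ring
    have e2 : u (k + 1) - u k = u k * (ee (Δ k) - 1) := by
      rw [e1]
      ring
    rw [e2, hGdef]
    simp only
    rw [mul_assoc, mul_inv_cancel₀ n1, mul_one]
  rw [Finset.sum_congr rfl hterm]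
  have hlast : ‖u (N + 1) * G N‖ ≤ 1 / (4 * δ) := by
    rw [norm_mul, hu1, one_mul]
    exact hG N le_rfl
  have hN : (N : ℝ) * (τ / δ ^ 2) ≤ (B - A) * τ / δ ^ 2 := by
    rw [mul_div_assoc]
    apply mul_le_mul_of_nonneg_right _ (by positivity)
    linarith
  have hfin : ‖∑ k ∈ Finset.range (N + 1), (u (k + 1) - u k) * G k‖
      ≤ 1 / (4 * δ) + N * (τ / δ ^ 2) + 1 / (4 * δ) := by
    have e1 : ∑ k ∈ Finset.range (N + 1), (u (k + 1) - u k) * G k
        = ((∑ k ∈ Finset.range (N + 1), (u (k + 1) - u k) * G k) - u (N + 1) * G N)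
          + u (N + 1) * G N := by ring
    rw [e1]
    refine (norm_add_le _ _).trans ?_
    linarith
  have hlast1 : ‖ee (f ((a : ℝ) + ((N + 1 : ℕ) : ℝ)))‖ = 1 := V2_ee_norm _
  have h12 : 1 / (4 * δ) + 1 / (4 * δ) = 1 / (2 * δ) := by
    field_simp
    norm_num
  refine (norm_add_le _ _).trans ?_
  rw [hlast1]
  linarith

end Pool.Agent.H19.Sup
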