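import Mathlib
import Pool.Agent.H19.Sup.V1
import Pool.Agent.H19.Sup.V2

set_option autoImplicit false

/-!
# V3: van der Corput's `k`-th derivative test, `λ ∈ [N^(-1+γ), N^(-γ)]`

Proof by induction on `k`.

`k = 1`: if `R λ ≤ 1 / 2`, use `vdc_base` with `δ = eps λ`, `τ = R λ / N`: the bound is
`1 + 1/(2 eps λ) + R/(eps² λ) ≤ 3 (R/eps²) / λ ≤ 3 (R / eps²) N^(1-γ)` (`λ ≤ 1`).  If `R λ > 1/2` the
trivial bound `N + 1 ≤ 2 N ≤ 4 R λ N ≤ 4 (R/eps²) N^(1-γ)` is enough.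

`k ≥ 2`: let `H = ⌊N^(γ/2)⌋ ≥ 1`, apply `vdc_ineq` to `z n = ee (f 0 n)`, `a = ⌈A⌉`, `b = ⌊B⌋`
(`b - a + 1 ≤ N + 1`; nothing to prove if `b < a`).  For `1 ≤ h < H` the inner sum is (in norm)
`∑ ee (g 0 n)`, `g i x = f i (x + h) - f i x` on `[A, B - h]` (empty if `A > B - h`).  There
`f k` has constant sign (continuity) and `g (k-1) x = f (k-1) (x+h) - f (k-1) x = h * f k ξ` by the
mean value theorem, so `eps (h λ) ≤ |g (k-1)| ≤ R (h λ)`; `|g k x| = |f k (x+h) - f k x| ≤ h R λ / N`.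
So `g` satisfies the hypotheses for `k - 1` with `λ' = h λ ∈ [N^(-1+γ/2), N^(-γ/2)]` and `γ/2`;
by induction `|inner| ≤ C' (R / eps²) N^(1-c')`.  Hence
`|S|² ≤ ((2N+1)... / H) (2 N + 2 H C' (R/eps²) N^(1-c')) ≤ C (R/eps²) (N^(2-γ/2) + N^(2-c'))`
and `|S| ≤ C (R/eps²) N^(1 - min (γ/4) (c'/2))` because `R / eps² ≥ 1`.
-/

namespace Pool.Agent.H19.Sup

open scoped ComplexConjugate

theorem V3_norm_ee (x : ℝ) : ‖ee x‖ = 1 := by
  rw [ee, Complex.norm_exp_ofReal_mul_I]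

theorem V3_ee_mul_conj (x y : ℝ) : ee x * conj (ee y) = ee (x - y) := by
  have h : conj (ee y) = ee (-y) := by
    rw [ee, ee, ← Complex.exp_conj]
    congr 1
    rw [map_mul, Complex.conj_I, Complex.conj_ofReal]
    push_cast
    ring
  rw [h, ee, ee, ee, ← Complex.exp_add]
  congr 1
  push_cast
  ring

/-- the trivial bound -/
theorem V3_trivial (g : ℤ → ℝ) {A B N : ℝ} (hN : 1 ≤ N) (hBA : B - A ≤ N) :
    ‖∑ n ∈ Finset.Icc ⌈A⌉ ⌊B⌋, ee (g n)‖ ≤ 2 * N := by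
  refine (norm_sum_le _ _).trans ?_
  simp only [V3_norm_ee, Finset.sum_const, nsmul_eq_mul, mul_one, Int.card_Icc]
  have h1 : ((⌊B⌋ + 1 - ⌈A⌉).toNat : ℝ) ≤ N + 1 := by
    rcases le_or_gt (⌊B⌋ + 1 - ⌈A⌉) 0 with h | h
    · rw [Int.toNat_eq_zero.mpr h]
      push_cast
      linarith
    · have h2 : (((⌊B⌋ + 1 - ⌈A⌉).toNat : ℤ) : ℝ) = ((⌊B⌋ + 1 - ⌈A⌉ : ℤ) : ℝ) := by
        rw [Int.toNat_of_nonneg h.le]
      have h3 : ((⌊B⌋ + 1 - ⌈A⌉).toNat : ℝ) = ((⌊B⌋ + 1 - ⌈A⌉ : ℤ) : ℝ) := by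
        rw [← h2]; norm_cast
      rw [h3]
      push_cast
      have h4 := Int.floor_le B
      have h5 := Int.le_ceil A
      linarith
  linarith

/-- the differencing step -/
theorem V3_diff (f : ℝ → ℝ) {A B N : ℝ} (hN : 1 ≤ N) (hBA : B - A ≤ N) {H : ℕ}
    (hH : 1 ≤ H) (hHN : (H : ℝ) ≤ N) (E : ℕ → ℝ) (hE0 : ∀ h, 0 ≤ E h)
    (hE : ∀ h ∈ Finset.Icc 1 (H - 1), A ≤ B - (h : ℝ) →
      ‖∑ n ∈ Finset.Icc ⌈A⌉ ⌊B - (h : ℝ)⌋, ee (f ((n : ℝ) + h) - f n)‖ ≤ E h) :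
    ‖∑ n ∈ Finset.Icc ⌈A⌉ ⌊B⌋, ee (f n)‖ ^ 2 ≤
      3 * N / H * (2 * N + 2 * ∑ h ∈ Finset.Icc 1 (H - 1), E h) := by
  have hH0 : (0 : ℝ) < H := by exact_mod_cast hH
  have hS0 : 0 ≤ ∑ h ∈ Finset.Icc 1 (H - 1), E h := Finset.sum_nonneg fun h _ => hE0 h
  rcases lt_or_ge ⌊B⌋ ⌈A⌉ with hlt | hle
  · rw [Finset.Icc_eq_empty (by simpa using hlt), Finset.sum_empty, norm_zero,
      zero_pow two_ne_zero]
    positivity
  · have key := vdc_ineq (fun n : ℤ => ee (f n)) (fun n => (V3_norm_ee _).le) hle hH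
    refine key.trans ?_
    have hlen : (((⌊B⌋ - ⌈A⌉ + 1 : ℤ) : ℝ)) ≤ N + 1 := by
      push_cast
      have h4 := Int.floor_le B
      have h5 := Int.le_ceil A
      linarith
    have hlen0 : (0 : ℝ) ≤ (((⌊B⌋ - ⌈A⌉ + 1 : ℤ) : ℝ)) := by
      exact_mod_cast (by omega : (0 : ℤ) ≤ ⌊B⌋ - ⌈A⌉ + 1)
    have hinner : ∀ h ∈ Finset.Icc 1 (H - 1), ‖∑ n ∈ Finset.Icc ⌈A⌉ (⌊B⌋ - (h : ℤ)),
          ee (f ((n + (h : ℤ) : ℤ) : ℝ)) * conj (ee (f (n : ℝ)))‖ ≤ E h := by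
      intro h hh
      have hfl : ⌊B⌋ - (h : ℤ) = ⌊B - (h : ℝ)⌋ := by
        rw [Int.floor_sub_natCast]
      rw [hfl]
      rcases lt_or_ge (B - (h : ℝ)) A with h1 | h1
      · rw [Finset.Icc_eq_empty, Finset.sum_empty, norm_zero]
        · exact hE0 h
        · intro h2
          have h3 : (⌈A⌉ : ℝ) ≤ (⌊B - (h : ℝ)⌋ : ℝ) := by exact_mod_cast h2
          have h4 := Int.floor_le (B - (h : ℝ))
          have h5 := Int.le_ceil A
          linarith
      · have h2 := hE h hh h1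
        have h3 : ∀ n ∈ Finset.Icc ⌈A⌉ ⌊B - (h : ℝ)⌋,
            ee (f ((n + (h : ℤ) : ℤ) : ℝ)) * conj (ee (f (n : ℝ))) =
              ee (f ((n : ℝ) + h) - f n) := by
          intro n _
          rw [V3_ee_mul_conj]
          push_cast
          rfl
        rw [Finset.sum_congr rfl h3]
        exact h2
    have hsum := Finset.sum_le_sum hinner
    have hA1 : ((((⌊B⌋ - ⌈A⌉ + 1 : ℤ) : ℝ)) + H) / H ≤ 3 * N / H := by
      apply div_le_div_of_nonneg_right _ hH0.le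
      linarith
    have hA2 : (((⌊B⌋ - ⌈A⌉ + 1 : ℤ) : ℝ)) + 2 * ∑ h ∈ Finset.Icc 1 (H - 1),
        ‖∑ n ∈ Finset.Icc ⌈A⌉ (⌊B⌋ - (h : ℤ)),
          ee (f ((n + (h : ℤ) : ℤ) : ℝ)) * conj (ee (f (n : ℝ)))‖ ≤
        2 * N + 2 * ∑ h ∈ Finset.Icc 1 (H - 1), E h := by
      linarith
    apply mul_le_mul hA1 hA2
    · have : 0 ≤ ∑ h ∈ Finset.Icc 1 (H - 1),
        ‖∑ n ∈ Finset.Icc ⌈A⌉ (⌊B⌋ - (h : ℤ)),
          ee (f ((n + (h : ℤ) : ℤ) : ℝ)) * conj (ee (f (n : ℝ)))‖ :=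
        Finset.sum_nonneg fun _ _ => norm_nonneg _
      linarith
    · positivity

/-- mean value theorem -/
theorem V3_mvt (g g' : ℝ → ℝ) {A B x h : ℝ} (hd : ∀ x ∈ Set.Icc A B, HasDerivAt g (g' x) x)
    (hx : A ≤ x) (hxh : x + h ≤ B) (hh : 0 < h) :
    ∃ ξ ∈ Set.Icc A B, g (x + h) - g x = h * g' ξ := by
  obtain ⟨ξ, hξ, he⟩ := exists_hasDerivAt_eq_slope g g' (by linarith : x < x + h)
    (fun y hy => (hd y ⟨by linarith [hy.1], by linarith [hy.2]⟩).continuousAt.continuousWithinAt)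
    (fun y hy => hd y ⟨by linarith [hy.1], by linarith [hy.2]⟩)
  refine ⟨ξ, ⟨by linarith [hξ.1], by linarith [hξ.2]⟩, ?_⟩
  rw [he, add_sub_cancel_left, mul_div_cancel₀ _ hh.ne']

/-- the hypotheses for the differences -/
theorem V3_hyp {k : ℕ} {f : ℕ → ℝ → ℝ} {A B N lam eps R : ℝ}
    (hd : ∀ i ≤ k + 1, ∀ x ∈ Set.Icc A B, HasDerivAt (f i) (f (i + 1) x) x)
    (h1 : ∀ x ∈ Set.Icc A B, eps * lam ≤ |f (k + 1) x| ∧ |f (k + 1) x| ≤ R * lam)
    (h2 : ∀ x ∈ Set.Icc A B, |f (k + 2) x| ≤ R * lam / N) {h : ℝ} (hh : 0 < h) :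
    (∀ i ≤ k, ∀ x ∈ Set.Icc A (B - h),
      HasDerivAt (fun x => f i (x + h) - f i x) (f (i + 1) (x + h) - f (i + 1) x) x) ∧
    (∀ x ∈ Set.Icc A (B - h), eps * (h * lam) ≤ |f k (x + h) - f k x| ∧
      |f k (x + h) - f k x| ≤ R * (h * lam)) ∧
    (∀ x ∈ Set.Icc A (B - h), |f (k + 1) (x + h) - f (k + 1) x| ≤ R * (h * lam) / N) := by
  refine ⟨?_, ?_, ?_⟩
  · intro i hi x hx
    have e1 := hd i (by omega) x ⟨hx.1, by linarith [hx.2]⟩
    have e2 := hd i (by omega) (x + h) ⟨by linarith [hx.1], by linarith [hx.2]⟩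
    exact (e2.comp_add_const x h).sub e1
  · intro x hx
    obtain ⟨ξ, hξ, he⟩ := V3_mvt (f k) (f (k + 1)) (hd k (by omega)) hx.1
      (by linarith [hx.2]) hh
    rw [he, abs_mul, abs_of_pos hh]
    obtain ⟨a1, a2⟩ := h1 ξ hξ
    constructor
    · calc eps * (h * lam) = h * (eps * lam) := by ring
        _ ≤ h * |f (k + 1) ξ| := mul_le_mul_of_nonneg_left a1 hh.le
    · calc h * |f (k + 1) ξ| ≤ h * (R * lam) := mul_le_mul_of_nonneg_left a2 hh.le
        _ = R * (h * lam) := by ring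
  · intro x hx
    obtain ⟨ξ, hξ, he⟩ := V3_mvt (f (k + 1)) (f (k + 2)) (hd (k + 1) le_rfl) hx.1
      (by linarith [hx.2]) hh
    rw [he, abs_mul, abs_of_pos hh]
    calc h * |f (k + 2) ξ| ≤ h * (R * lam / N) := mul_le_mul_of_nonneg_left (h2 ξ hξ) hh.le
      _ = R * (h * lam) / N := by ring

theorem V3_one_le {R eps : ℝ} (heps : 0 < eps) (heps1 : eps ≤ 1) (hR : 1 ≤ R) :
    1 ≤ R / eps ^ 2 := by
  rw [le_div_iff₀ (by positivity)]
  nlinarith

theorem vdc_Q (k : ℕ) (hk : 1 ≤ k) (γ : ℝ) (hγ : 0 < γ) (hγ1 : γ ≤ 1 / 2) :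
    ∃ c C : ℝ, 0 < c ∧ 0 < C ∧ ∀ (f : ℕ → ℝ → ℝ) (A B N lam eps R : ℝ), 1 ≤ N → A ≤ B →
      B - A ≤ N → 0 < eps → eps ≤ 1 → 1 ≤ R → N ^ (-1 + γ) ≤ lam → lam ≤ N ^ (-γ) →
      (∀ i ≤ k, ∀ x ∈ Set.Icc A B, HasDerivAt (f i) (f (i + 1) x) x) →
      (∀ x ∈ Set.Icc A B, eps * lam ≤ |f k x| ∧ |f k x| ≤ R * lam) →
      (∀ x ∈ Set.Icc A B, |f (k + 1) x| ≤ R * lam / N) →
      ‖∑ n ∈ Finset.Icc ⌈A⌉ ⌊B⌋, ee (f 0 n)‖ ≤ C * (R / eps ^ 2) * N ^ (1 - c) := by
  induction k, hk using Nat.le_induction generalizing γ with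
  | base =>
    refine ⟨γ, 4, hγ, by norm_num, ?_⟩
    intro f A B N lam eps R hN hAB hBA heps heps1 hR hl1 hl2 hd h1 h2
    have hN0 : 0 < N := by linarith
    have hlam : 0 < lam := lt_of_lt_of_le (Real.rpow_pos_of_pos hN0 _) hl1
    have hNγ : N ^ (-γ) ≤ 1 := Real.rpow_le_one_of_one_le_of_nonpos hN (by linarith)
    have hRe := V3_one_le heps heps1 hR
    have hpow : N ^ (1 - γ) = N * N ^ (-γ) := by
      rw [sub_eq_add_neg, Real.rpow_add hN0, Real.rpow_one]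
    have hpow0 : 0 < N ^ (1 - γ) := Real.rpow_pos_of_pos hN0 _
    rcases le_or_gt (R * lam) (1 / 2) with hc | hc
    · have hb := vdc_base (f 0) (f 1) (f 2) (δ := eps * lam) (τ := R * lam / N) hAB
        (by positivity) (by positivity) (fun x hx => hd 0 (by omega) x hx)
        (fun x hx => hd 1 le_rfl x hx)
        (fun x hx => ⟨(h1 x hx).1, (h1 x hx).2.trans hc⟩) h2
      refine hb.trans ?_
      have hinv : 1 / lam ≤ N ^ (1 - γ) := by
        rw [div_le_iff₀ hlam]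
        calc (1 : ℝ) = N ^ (1 - γ) * N ^ (-1 + γ) := by
              rw [← Real.rpow_add hN0]; norm_num
          _ ≤ N ^ (1 - γ) * lam := mul_le_mul_of_nonneg_left hl1 hpow0.le
      have e1 : (1 : ℝ) ≤ (R / eps ^ 2) * (1 / lam) := by
        have : 1 ≤ 1 / lam := by
          rw [le_div_iff₀ hlam]; linarith
        nlinarith
      have e2 : 1 / (2 * (eps * lam)) ≤ (R / eps ^ 2) * (1 / lam) := by
        have h3 : 1 / (2 * (eps * lam)) = (1 / (2 * eps)) * (1 / lam) := by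
          field_simp
        rw [h3]
        apply mul_le_mul_of_nonneg_right _ (by positivity)
        rw [div_le_div_iff₀ (by positivity) (by positivity)]
        nlinarith
      have e3 : (B - A) * (R * lam / N) / (eps * lam) ^ 2 ≤ (R / eps ^ 2) * (1 / lam) := by
        have h3 : (R / eps ^ 2) * (1 / lam) = N * (R * lam / N) / (eps * lam) ^ 2 := by
          field_simp
        rw [h3]
        apply div_le_div_of_nonneg_right _ (by positivity)
        exact mul_le_mul_of_nonneg_right hBA (by positivity)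
      calc 1 + 1 / (2 * (eps * lam)) + (B - A) * (R * lam / N) / (eps * lam) ^ 2
          ≤ 4 * (R / eps ^ 2) * (1 / lam) := by
            have : 0 ≤ (R / eps ^ 2) * (1 / lam) := by positivity
            linarith
        _ ≤ 4 * (R / eps ^ 2) * N ^ (1 - γ) :=
            mul_le_mul_of_nonneg_left hinv (by positivity)
    · have ht := V3_trivial (fun n => f 0 n) hN hBA
      refine ht.trans ?_
      have e1 : lam * N ≤ N ^ (1 - γ) := by
        rw [hpow, mul_comm]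
        exact mul_le_mul_of_nonneg_left hl2 hN0.le
      have e2 : R ≤ R / eps ^ 2 := by
        rw [le_div_iff₀ (by positivity)]
        have : eps ^ 2 ≤ 1 := by nlinarith
        nlinarith
      calc 2 * N ≤ 4 * (R * lam) * N := by nlinarith
        _ = 4 * R * (lam * N) := by ring
        _ ≤ 4 * (R / eps ^ 2) * N ^ (1 - γ) := by
          apply mul_le_mul _ e1 (by positivity) (by positivity)
          linarith
  | succ k hk ih =>
    obtain ⟨c', C', hc', hC', ih⟩ := ih (γ / 2) (by linarith) (by linarith)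
    refine ⟨min (γ / 4) (c' / 2), 12 + 6 * C', lt_min (by linarith) (by linarith),
      by linarith, ?_⟩
    intro f A B N lam eps R hN hAB hBA heps heps1 hR hl1 hl2 hd h1 h2
    have hN0 : 0 < N := by linarith
    have hlam : 0 < lam := lt_of_lt_of_le (Real.rpow_pos_of_pos hN0 _) hl1
    have hRe := V3_one_le heps heps1 hR
    set H : ℕ := ⌊N ^ (γ / 2)⌋₊ with hHdef
    have hNg1 : 1 ≤ N ^ (γ / 2) := Real.one_le_rpow hN (by linarith)
    have hH1 : 1 ≤ H := Nat.one_le_floor_iff _ |>.mpr hNg1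
    have hHle : (H : ℝ) ≤ N ^ (γ / 2) := Nat.floor_le (by linarith)
    have hHge : N ^ (γ / 2) ≤ 2 * H := by
      have h3 := Nat.lt_floor_add_one (N ^ (γ / 2))
      have h4 : (1 : ℝ) ≤ H := by exact_mod_cast hH1
      rw [← hHdef] at h3
      linarith
    have hHN : (H : ℝ) ≤ N := by
      refine hHle.trans ?_
      calc N ^ (γ / 2) ≤ N ^ (1 : ℝ) := Real.rpow_le_rpow_of_exponent_le hN (by linarith)
        _ = N := Real.rpow_one N
    have hH0 : (0 : ℝ) < H := by exact_mod_cast hH1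
    set E : ℝ := C' * (R / eps ^ 2) * N ^ (1 - c') with hE
    have hE0 : 0 ≤ E := by positivity
    have key := V3_diff (f 0) hN hBA hH1 hHN (fun _ => E) (fun _ => hE0) (by
      intro h hh hAh
      rw [Finset.mem_Icc] at hh
      have hh0 : (0 : ℝ) < h := by exact_mod_cast hh.1
      have hh1 : (1 : ℝ) ≤ h := by exact_mod_cast hh.1
      have hhH : (h : ℝ) ≤ N ^ (γ / 2) := by
        refine le_trans ?_ hHle
        exact_mod_cast (by omega : h ≤ H)
      obtain ⟨g1, g2, g3⟩ := V3_hyp hd h1 h2 hh0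
      have h5 := ih (fun i x => f i (x + h) - f i x) A (B - h) N (h * lam) eps R hN hAh
        (by linarith) heps heps1 hR
        (by
          calc N ^ (-1 + γ / 2) ≤ N ^ (-1 + γ) :=
                Real.rpow_le_rpow_of_exponent_le hN (by linarith)
            _ ≤ lam := hl1
            _ ≤ h * lam := by nlinarith)
        (by
          calc (h : ℝ) * lam ≤ N ^ (γ / 2) * N ^ (-γ) :=
                mul_le_mul hhH hl2 hlam.le (by positivity)
            _ = N ^ (-(γ / 2)) := by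
                rw [← Real.rpow_add hN0]; congr 1; ring)
        g1 g2 g3
      exact h5)
    have hsum : ∑ _h ∈ Finset.Icc 1 (H - 1), E ≤ H * E := by
      rw [Finset.sum_const, nsmul_eq_mul, Nat.card_Icc]
      apply mul_le_mul_of_nonneg_right _ hE0
      exact_mod_cast (by omega : H - 1 + 1 - 1 ≤ H)
    set c : ℝ := min (γ / 4) (c' / 2) with hcdef
    have hc1 : c ≤ γ / 4 := min_le_left _ _
    have hc2 : c ≤ c' / 2 := min_le_right _ _
    have hP : N ^ (1 - c) * N ^ (1 - c) = N ^ (2 - 2 * c) := by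
      rw [← Real.rpow_add hN0]; congr 1; ring
    have hP0 : 0 < N ^ (2 - 2 * c) := Real.rpow_pos_of_pos hN0 _
    -- first part
    have e1 : 3 * N / H * (2 * N) ≤ 12 * N ^ (2 - 2 * c) := by
      have h3 : N * N = N ^ (2 - γ / 2) * N ^ (γ / 2) := by
        rw [← Real.rpow_add hN0]
        rw [show (2 - γ / 2 + γ / 2 : ℝ) = 2 by ring]
        rw [Real.rpow_two]; ring
      have h4 : N ^ (2 - γ / 2) ≤ N ^ (2 - 2 * c) :=
        Real.rpow_le_rpow_of_exponent_le hN (by linarith)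
      have h5 : 0 < N ^ (2 - γ / 2) := Real.rpow_pos_of_pos hN0 _
      calc 3 * N / H * (2 * N) = 6 * (N * N) / H := by ring
        _ = 6 * (N ^ (2 - γ / 2) * N ^ (γ / 2)) / H := by rw [h3]
        _ ≤ 6 * (N ^ (2 - γ / 2) * (2 * H)) / H := by
            apply div_le_div_of_nonneg_right _ hH0.le
            apply mul_le_mul_of_nonneg_left _ (by norm_num)
            exact mul_le_mul_of_nonneg_left hHge h5.le
        _ = 12 * N ^ (2 - γ / 2) := by field_simp; ring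
        _ ≤ 12 * N ^ (2 - 2 * c) := by linarith
    have e2 : 3 * N / H * (2 * (H * E)) ≤ 6 * C' * (R / eps ^ 2) * N ^ (2 - 2 * c) := by
      have h3 : N * N ^ (1 - c') = N ^ (2 - c') := by
        nth_rewrite 1 [← Real.rpow_one N]
        rw [← Real.rpow_add hN0]; congr 1; ring
      have h4 : N ^ (2 - c') ≤ N ^ (2 - 2 * c) :=
        Real.rpow_le_rpow_of_exponent_le hN (by linarith)
      calc 3 * N / H * (2 * (H * E)) = 6 * C' * (R / eps ^ 2) * (N * N ^ (1 - c')) := by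
            rw [hE]; field_simp; ring
        _ = 6 * C' * (R / eps ^ 2) * N ^ (2 - c') := by rw [h3]
        _ ≤ _ := mul_le_mul_of_nonneg_left h4 (by positivity)
    have hfin : ‖∑ n ∈ Finset.Icc ⌈A⌉ ⌊B⌋, ee (f 0 n)‖ ^ 2 ≤
        (12 + 6 * C') * (R / eps ^ 2) * N ^ (2 - 2 * c) := by
      refine key.trans ?_
      have h3 : 3 * N / H * (2 * N + 2 * ∑ _h ∈ Finset.Icc 1 (H - 1), E) ≤
          3 * N / H * (2 * N) + 3 * N / H * (2 * (H * E)) := by
        have h5 : 0 ≤ 3 * N / H := by positivity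
        have h6 := mul_le_mul_of_nonneg_left hsum h5
        linarith
      refine h3.trans ?_
      have h4 : 12 * N ^ (2 - 2 * c) ≤ 12 * (R / eps ^ 2) * N ^ (2 - 2 * c) := by
        nlinarith
      calc 3 * N / H * (2 * N) + 3 * N / H * (2 * (H * E))
          ≤ 12 * (R / eps ^ 2) * N ^ (2 - 2 * c) + 6 * C' * (R / eps ^ 2) * N ^ (2 - 2 * c) :=
            add_le_add (e1.trans h4) e2
        _ = _ := by ring
    apply abs_le_of_sq_le_sq' _ (by positivity) |>.2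
    refine hfin.trans ?_
    have hD : 1 ≤ (12 + 6 * C') * (R / eps ^ 2) := by nlinarith
    calc (12 + 6 * C') * (R / eps ^ 2) * N ^ (2 - 2 * c)
        ≤ ((12 + 6 * C') * (R / eps ^ 2)) ^ 2 * N ^ (2 - 2 * c) := by
          apply mul_le_mul_of_nonneg_right _ hP0.le
          nlinarith
      _ = ((12 + 6 * C') * (R / eps ^ 2) * N ^ (1 - c)) ^ 2 := by
          rw [← hP]; ring

end Pool.Agent.H19.Sup
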