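import Mathlib
import Pool.Agent.H19.Sup.Defs2

set_option autoImplicit false

/-!
# B1: Bessel's inequality for one form, without absolute values

Let `F w = ∑_{i ∈ I} a i * pk k (ζ i) w` (real valued).  As in `Maass.bessel`: `∫_𝒟 U F = 2 selb k (1/2 + i T) ∑ a i U (ζ i)`
(`integral_mul_pk`, `selberg`), so by Cauchy-Schwarz (`‖U‖₂ = 1`) `‖...‖² ≤ ∫_𝒟 F²`
`= ∑_{i,j} a i a j ∫ pk k (ζ i) pk k (ζ j) = 2 ∑_{i,j} a i a j ∑_σ KK k (ζ i) (σ • ζ j)` (`integral_pk_mul_pk`; the sum over `σ⁻¹`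
in a finite set there is the sum over `σ ∈ S` here, because `KK k z w = 0` if `dist z w > 2 R`, `Maass.KK_supp`).
-/

namespace Pool.Agent.H19.Sup

open UpperHalfPlane MeasureTheory
open Pool.Agent.H19.Maass
open scoped MatrixGroups ENNReal

section B1aux

open ModularGroup Metric
open scoped Modular ComplexConjugate

lemma B1_pair {k : ℝ → ℝ} {R : ℝ} (hk : Ker k R) (ζ ζ' : ℍ) (S : Finset SL(2, ℤ))
    (hS : ∀ σ : SL(2, ℤ), dist ζ (σ • ζ') ≤ 2 * R → σ ∈ S) :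
    ∫ w in 𝒟, (pk k ζ' w : ℂ) * (pk k ζ w : ℂ) = 2 * ∑ σ ∈ S, (KK k ζ (σ • ζ') : ℂ) := by
  rw [integral_pk_mul_pk hk ζ ζ' (S := S.map (Equiv.inv SL(2, ℤ)).toEmbedding)]
  · rw [Finset.sum_map]
    simp
  · intro w hw σ hσ
    rw [Finset.mem_map]
    refine ⟨σ⁻¹, hS _ ?_, by simp⟩
    rw [mem_closedBall] at hw
    have h1 : dist w (σ⁻¹ • ζ') ≤ R := by
      rw [dist_sl' σ⁻¹ w ζ', inv_inv, dist_comm]
      exact hσ
    have h2 := dist_triangle ζ w (σ⁻¹ • ζ')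
    rw [dist_comm w ζ] at hw
    linarith

theorem B1_bessel {k : ℝ → ℝ} {R : ℝ} (hk : Ker k R) (u : ℍ → ℂ)
    (hu : Continuous u) (hinv : ∀ (γ : SL(2, ℤ)) w, u (γ • w) = u w)
    (hL2 : MemLp u 2 ((volume : Measure ℍ).restrict 𝒟))
    (hnrm : ∫ w in 𝒟, u w * conj (u w) = 1)
    (h : ℂ) (heig : ∀ z, ∫ w : ℍ, (k (dist z w) : ℂ) * u w = h * u z)
    {ι : Type*} (I : Finset ι) (a : ι → ℝ) (ζ : ι → ℍ) (S : Finset SL(2, ℤ))
    (hS : ∀ i ∈ I, ∀ j ∈ I, ∀ σ : SL(2, ℤ), dist (ζ i) (σ • ζ j) ≤ 2 * R → σ ∈ S) :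
    ‖2 * h * ∑ i ∈ I, (a i : ℂ) * u (ζ i)‖ ^ 2 ≤
      2 * ∑ i ∈ I, ∑ j ∈ I, a i * a j * ∑ σ ∈ S, KK k (ζ i) (σ • ζ j) := by
  set μ := (volume : Measure ℍ).restrict 𝒟 with hμ
  set F : ℍ → ℂ := fun w => ∑ i ∈ I, (a i : ℂ) * (pk k (ζ i) w : ℂ) with hF
  have hFL : MemLp F 2 μ := memLp_finsetSum I fun i _ => (memLp_pk hk (ζ i)).const_mul (a i : ℂ)
  have hcL : MemLp (fun w => conj (u w)) 2 μ := hL2.star
  set e : Lp ℂ 2 μ := hcL.toLp _ with he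
  have hb : ∫ w, u w * F w ∂μ = 2 * h * ∑ i ∈ I, (a i : ℂ) * u (ζ i) := by
    have h1 : ∀ w, u w * F w = ∑ i ∈ I, (a i : ℂ) * (u w * (pk k (ζ i) w : ℂ)) := by
      intro w
      rw [hF]; simp only
      rw [Finset.mul_sum]
      exact Finset.sum_congr rfl fun i _ => by ring
    simp_rw [h1]
    rw [integral_finsetSum]
    · rw [Finset.mul_sum]
      refine Finset.sum_congr rfl fun i _ => ?_
      rw [integral_const_mul, hμ, integral_mul_pk hk (ζ i) hu.measurable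
        (bdd_of_continuous hu _ _) hinv, heig]
      ring
    · intro i _
      exact (hL2.integrable_mul (memLp_pk hk (ζ i))).const_mul _
  have hinner : inner ℂ e (hFL.toLp F) = 2 * h * ∑ i ∈ I, (a i : ℂ) * u (ζ i) := by
    rw [← hb, L2.inner_def]
    refine integral_congr_ae ?_
    filter_upwards [hcL.coeFn_toLp, hFL.coeFn_toLp] with w h1 h2
    rw [h1, h2]
    simp [mul_comm]
  have hen : ‖e‖ ^ 2 = 1 := by
    have h1 : inner ℂ e e = (1 : ℂ) := by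
      rw [L2.inner_def, ← hnrm]
      refine integral_congr_ae ?_
      filter_upwards [hcL.coeFn_toLp] with w h1
      rw [h1, RCLike.inner_apply, RCLike.conj_conj, mul_comm]
    rw [← inner_self_eq_norm_sq (𝕜 := ℂ), h1]
    simp
  have hnorm : ‖hFL.toLp F‖ ^ 2 =
      2 * ∑ i ∈ I, ∑ j ∈ I, a i * a j * ∑ σ ∈ S, KK k (ζ i) (σ • ζ j) := by
    have h1 : inner ℂ (hFL.toLp F) (hFL.toLp F) = ∫ w, conj (F w) * F w ∂μ := by
      rw [L2.inner_def]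
      refine integral_congr_ae ?_
      filter_upwards [hFL.coeFn_toLp] with w h1
      rw [h1, RCLike.inner_apply, mul_comm]
    have h3 : ∀ w, conj (F w) * F w = ∑ i ∈ I, ∑ j ∈ I, ((a i : ℂ) * a j) *
        ((pk k (ζ j) w : ℂ) * (pk k (ζ i) w : ℂ)) := by
      intro w
      rw [hF]; simp only
      rw [map_sum, Finset.sum_mul_sum]
      refine Finset.sum_congr rfl fun i _ => Finset.sum_congr rfl fun i' _ => ?_
      rw [map_mul, Complex.conj_ofReal, Complex.conj_ofReal]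
      ring
    simp_rw [h3] at h1
    have hint : ∀ i j : ι, Integrable (fun w => ((a i : ℂ) * a j) *
        ((pk k (ζ j) w : ℂ) * (pk k (ζ i) w : ℂ))) μ := fun i j =>
      ((memLp_pk hk (ζ j)).integrable_mul (memLp_pk hk (ζ i))).const_mul _
    rw [integral_finsetSum _ (fun i _ => integrable_finsetSum _ fun j _ => hint i j)] at h1
    have h4 : ∑ i ∈ I, ∫ w, ∑ j ∈ I, ((a i : ℂ) * a j) *
        ((pk k (ζ j) w : ℂ) * (pk k (ζ i) w : ℂ)) ∂μ =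
        ((2 * ∑ i ∈ I, ∑ j ∈ I, a i * a j * ∑ σ ∈ S, KK k (ζ i) (σ • ζ j) : ℝ) : ℂ) := by
      push_cast
      rw [Finset.mul_sum]
      refine Finset.sum_congr rfl fun i hi => ?_
      rw [integral_finsetSum _ (fun j _ => hint i j), Finset.mul_sum]
      refine Finset.sum_congr rfl fun j hj => ?_
      rw [integral_const_mul, hμ, B1_pair hk (ζ i) (ζ j) S (hS i hi j hj)]
      ring
    rw [h4] at h1
    rw [← inner_self_eq_norm_sq (𝕜 := ℂ), h1]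
    exact Complex.ofReal_re _
  have hcs := norm_inner_le_norm (𝕜 := ℂ) e (hFL.toLp F)
  rw [hinner] at hcs
  rw [← hnorm]
  calc ‖2 * h * ∑ i ∈ I, (a i : ℂ) * u (ζ i)‖ ^ 2 ≤ (‖e‖ * ‖hFL.toLp F‖) ^ 2 :=
        pow_le_pow_left₀ (norm_nonneg _) hcs 2
    _ = ‖hFL.toLp F‖ ^ 2 := by rw [mul_pow, hen, one_mul]

end B1aux

theorem bessel_one {k : ℝ → ℝ} {R : ℝ} (hk : Ker k R) {T : ℝ} {U : ℂ → ℂ} {c : ℕ → ℂ}
    (hF : Frm T U c) {ι : Type*} (I : Finset ι) (a : ι → ℝ) (ζ : ι → ℍ) (S : Finset SL(2, ℤ))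
    (hS : ∀ i ∈ I, ∀ j ∈ I, ∀ σ : SL(2, ℤ), dist (ζ i) (σ • ζ j) ≤ 2 * R → σ ∈ S) :
    ‖2 * selb k (1 / 2 + T * Complex.I) * ∑ i ∈ I, (a i : ℂ) * U (ζ i)‖ ^ 2 ≤
      2 * ∑ i ∈ I, ∑ j ∈ I, a i * a j * ∑ σ ∈ S, KK k (ζ i) (σ • ζ j) :=
  B1_bessel hk (fun w : ℍ => U w) hF.continuous (fun γ w => hF.inv γ w) hF.l2 hF.nrm _
    (fun z => selberg hF.eig hk z) I a ζ S hS

/-- a finite set of `σ` containing all pairs of near points -/
theorem exists_cover {ι : Type*} (I : Finset ι) (ζ ζ' : ι → ℍ) (r : ℝ) : ∃ S : Finset SL(2, ℤ),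
    ∀ i ∈ I, ∀ j ∈ I, ∀ σ : SL(2, ℤ), dist (ζ i) (σ • ζ' j) ≤ r → σ ∈ S := by
  classical
  choose S hS using fun i j => exists_finset_near (ζ i) (ζ' j) 0 r
  refine ⟨I.biUnion fun i => I.biUnion fun j => S i j, fun i hi j hj σ hσ => ?_⟩
  rw [Finset.mem_biUnion]
  refine ⟨i, hi, ?_⟩
  rw [Finset.mem_biUnion]
  refine ⟨j, hj, hS i j (ζ' j) ?_ σ hσ⟩
  simp

end Pool.Agent.H19.Sup
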