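import Mathlib
import Pool.Agent.H19.Sup.Defs2

set_option autoImplicit false

/-!
# G1: near points

`2 cosh d - 2 = ((x - x')² + (y - y')²) / (y y')` (`UpperHalfPlane.cosh_dist`), `2 cosh (1/2) - 2 < 0.2554`.
* `near_im`: `(v.im - w.im)² ≤ 0.2554 v.im w.im` gives the ratio in `[3/5, 5/3]` (`ratio + 1/ratio ≤ 2.2554 < 34/15 = 2.2666`);
  `|v.re - w.re| ≤ √(0.2554 * v.im * w.im) ≤ √(0.2554 * 5/3) v.im ≤ v.im`.
* `im_orbit`: `(γ • w).im = w.im / ((γ 1 0 * w.re + γ 1 1)² + (γ 1 0 * w.im)²)`; if `γ 1 0 = 0` then `γ 1 1 = ±1`; otherwise the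
  denominator is at least `w.im²`.
-/

namespace Pool.Agent.H19.Sup

open UpperHalfPlane
open Pool.Agent.H19.Maass
open scoped MatrixGroups

theorem G1_cosh_half : Real.cosh (1 / 2) < 17 / 15 := by
  have h1 : Real.cosh (1 / 2) ≤ Real.exp (1 / 8) := by
    have := Real.cosh_le_exp_half_sq (1 / 2)
    norm_num at this
    simpa using this
  have h2 : Real.exp (1 / 8) ^ 8 = Real.exp 1 := by
    rw [← Real.exp_nat_mul]; norm_num
  have h3 : Real.exp (1 / 8) < 17 / 15 := by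
    apply lt_of_pow_lt_pow_left₀ 8 (by norm_num)
    rw [h2]
    have := Real.exp_one_lt_d9
    refine this.trans ?_
    norm_num
  exact h1.trans_lt h3

theorem G1_sq {v w : ℍ} (h : dist v w ≤ 1 / 2) :
    (v.re - w.re) ^ 2 + (v.im - w.im) ^ 2 < 4 / 15 * (v.im * w.im) := by
  have h1 : Real.cosh (dist v w) ≤ Real.cosh (1 / 2) := by
    rw [Real.cosh_le_cosh, abs_of_nonneg dist_nonneg, abs_of_nonneg (by norm_num)]
    exact h
  have h2 := h1.trans_lt G1_cosh_half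
  rw [UpperHalfPlane.cosh_dist] at h2
  have hv := v.im_pos
  have hw := w.im_pos
  have h3 : dist (v : ℂ) (w : ℂ) ^ 2 = (v.re - w.re) ^ 2 + (v.im - w.im) ^ 2 := by
    rw [Complex.dist_eq, ← Complex.normSq_eq_norm_sq, Complex.normSq_apply]
    simp
    ring
  rw [h3] at h2
  have h4 : ((v.re - w.re) ^ 2 + (v.im - w.im) ^ 2) / (2 * v.im * w.im) < 2 / 15 := by linarith
  rw [div_lt_iff₀ (by positivity)] at h4
  linarith

theorem near_im {v w : ℍ} (h : dist v w ≤ 1 / 2) :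
    v.im ≤ 5 / 3 * w.im ∧ w.im ≤ 5 / 3 * v.im ∧ |v.re - w.re| ≤ v.im := by
  have h1 := G1_sq h
  have hv := v.im_pos
  have hw := w.im_pos
  have h2 : v.im ≤ 5 / 3 * w.im := by
    by_contra hc
    push Not at hc
    nlinarith [mul_pos (sub_pos.2 hc) (by linarith : 0 < v.im - 3 / 5 * w.im), sq_nonneg (v.re - w.re)]
  have h3 : w.im ≤ 5 / 3 * v.im := by
    by_contra hc
    push Not at hc
    nlinarith [mul_pos (sub_pos.2 hc) (by linarith : 0 < w.im - 3 / 5 * v.im), sq_nonneg (v.re - w.re)]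
  refine ⟨h2, h3, ?_⟩
  apply abs_le_of_sq_le_sq _ hv.le
  nlinarith [sq_nonneg (v.im - w.im), mul_le_mul_of_nonneg_left h3 hv.le]

theorem im_orbit (w : ℍ) (hw : 1 / 2 ≤ w.im) (γ : SL(2, ℤ)) : (γ • w).im ≤ max w.im 2 := by
  rw [ModularGroup.im_smul_eq_div_normSq, ModularGroup.denom_apply, Complex.normSq_apply]
  have hp := w.im_pos
  have e1 : ((γ 1 0 : ℂ) * (w : ℂ) + (γ 1 1 : ℂ)).re = (γ 1 0 : ℝ) * w.re + (γ 1 1 : ℝ) := by
    simp
  have e2 : ((γ 1 0 : ℂ) * (w : ℂ) + (γ 1 1 : ℂ)).im = (γ 1 0 : ℝ) * w.im := by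
    simp
  rw [e1, e2]
  by_cases hc : γ 1 0 = 0
  · have hdet := γ.det_coe
    rw [Matrix.det_fin_two, hc, mul_zero, sub_zero] at hdet
    have hd : (γ 1 1 : ℤ) * (γ 1 1 : ℤ) = 1 := by
      rcases Int.isUnit_iff.1 (IsUnit.of_mul_eq_one _ (by rw [mul_comm]; exact hdet) : IsUnit (γ 1 1 : ℤ)) with h | h <;>
        rw [h] <;> norm_num
    have hd' : (γ 1 1 : ℝ) * (γ 1 1 : ℝ) = 1 := by exact_mod_cast hd
    rw [hc]
    simp only [Int.cast_zero, zero_mul, zero_add, mul_zero, add_zero]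
    rw [hd', div_one]
    exact le_max_left _ _
  · have hc1 : (1 : ℝ) ≤ (γ 1 0 : ℝ) * (γ 1 0 : ℝ) := by
      have : (1 : ℤ) ≤ γ 1 0 * γ 1 0 := by
        have := mul_self_pos.2 hc
        omega
      exact_mod_cast this
    have hden : w.im * w.im ≤ ((γ 1 0 : ℝ) * w.re + (γ 1 1 : ℝ)) * ((γ 1 0 : ℝ) * w.re + (γ 1 1 : ℝ)) +
        (γ 1 0 : ℝ) * w.im * ((γ 1 0 : ℝ) * w.im) := by
      nlinarith [mul_self_nonneg ((γ 1 0 : ℝ) * w.re + (γ 1 1 : ℝ)), mul_pos hp hp]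
    refine le_trans ?_ (le_max_right _ _)
    rw [div_le_iff₀ (lt_of_lt_of_le (mul_pos hp hp) hden)]
    nlinarith [mul_le_mul_of_nonneg_right hw hp.le]

theorem G1_dist_sl (σ : SL(2, ℤ)) (z w : ℍ) : dist (σ • z) (σ • w) = dist z w := by
  have h : ∀ z : ℍ, σ • z = ((σ : SL(2, ℝ)) : SL(2, ℝ)) • z := by
    intro z
    rfl
  rw [h z, h w, dist_smul]

theorem near_orbit {v w : ℍ} (h : dist v w ≤ 1 / 2) (hw : 1 / 2 ≤ w.im) (γ : SL(2, ℤ)) :
    (γ • v).im ≤ 5 / 3 * max w.im 2 := by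
  have h1 : dist (γ • v) (γ • w) ≤ 1 / 2 := by rw [G1_dist_sl]; exact h
  have h2 := (near_im h1).1
  have h3 := im_orbit w hw γ
  linarith

theorem cosh_le_of_dist {v w : ℍ} {μ : ℝ} (hμ : μ ≤ 1) (h : dist v w ≤ μ) :
    2 * Real.cosh (dist v w) - 2 ≤ 2 * μ ^ 2 := by
  have h0 : 0 ≤ μ := dist_nonneg.trans h
  have h1 : Real.cosh (dist v w) ≤ Real.cosh μ := by
    rw [Real.cosh_le_cosh, abs_of_nonneg dist_nonneg, abs_of_nonneg h0]
    exact h
  have h2 := Real.cosh_le_exp_half_sq μ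
  have h3 : μ ^ 2 ≤ 1 := by nlinarith
  have h4 : |μ ^ 2 / 2| ≤ 1 := by
    rw [abs_of_nonneg (by positivity)]; linarith
  have h5 := (abs_le.1 (Real.abs_exp_sub_one_sub_id_le h4)).2
  nlinarith [sq_nonneg μ]

end Pool.Agent.H19.Sup
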