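import Mathlib
import Pool.Agent.H19.Sup.CL1
import Pool.Agent.H19.Sup.G1

set_option autoImplicit false

/-!
# CL2: consequences of `count_high`

`count_high_sum`: sum over the primes: `#PR N ≤ 3 N`, `q ≤ 4 N`.
`low_count`: dyadic heights: `ic (1/4 ≤ im ∧ im ≤ 2 h0 ∧ |re| ≤ 1/2 + im) ≤ ∑_{m : 2^m / 4 ≤ 2 h0} ic (2^m/4 ≤ im ∧ |re| ≤ 1/2 + 2^(m+1)/4)`, every
term contributes `≤ K N³ z.im (2^m/4)⁻¹ (3/2 + 2^(m+1)/4) ≤ 8 K N³ z.im`, and there are at most `4 + 2 log h0 / log 2` values of `m`.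
`high_pairs`: fix `i` with `H = (g i • zt z i).im > h0 ≥ 1`.  If `dist (g i • zt z i) (σ • zt z j) ≤ 1/2` then (`near_im`)
`(σ • zt z j).im ≥ 3/5 H` and `|re| ≤ 1/2 + 5/3 H`, so the number of `(j, σ)` is at most `K N³ z.im (5/(3H)) (3/2 + 5/3 H) ≤ K' N³ z.im`.
The number of such `i` is at most `∑_i ∑' σ ic (h0 ≤ im ∧ |re| ≤ 1/2) ≤ K'' N³ z.im / h0`.
-/

namespace Pool.Agent.H19.Sup

open UpperHalfPlane
open Pool.Agent.H19.Maass
open scoped MatrixGroups ENNReal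

theorem count_high_sum : ∃ K : ℝ, 0 < K ∧ ∀ z : ℍ, |z.re| ≤ 1 / 2 → 1 / 2 ≤ z.im →
    ∀ N : ℕ, 1 ≤ N → ∀ h r : ℝ, 0 < h → 0 ≤ r →
    ∑ i ∈ II N, ∑' σ : SL(2, ℤ), ic (h ≤ (σ • zt z i).im ∧ |(σ • zt z i).re| ≤ r) ≤
    ENNReal.ofReal (K * ((N : ℝ) ^ 3 * z.im / h) * (r + 1)) := by
  obtain ⟨K, hK, hcount⟩ := count_high
  refine ⟨48 * K, by positivity, ?_⟩
  intro z hz1 hz2 N hN h r hh hr
  have hz0 : 0 < z.im := by linarith
  have hsum : ∑ i ∈ II N, ∑' σ : SL(2, ℤ),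
      ic (h ≤ (σ • zt z i).im ∧ |(σ • zt z i).re| ≤ r) =
      ∑ p ∈ PR N, ∑ y ∈ (RR (p ^ 2)).erase ⟨p, 0⟩, ∑' σ : SL(2, ℤ),
      ic (h ≤ (σ • hx (p ^ 2) y z).im ∧ |(σ • hx (p ^ 2) y z).re| ≤ r) := by
    unfold II
    rw [Finset.sum_sigma]
    rfl
  rw [hsum]
  calc _ ≤ ∑ p ∈ PR N, ENNReal.ofReal (K * (16 * (N : ℝ) ^ 2 * z.im / h) * (r + 1)) := by
        apply Finset.sum_le_sum
        intro p hp
        rw [mem_PR] at hp
        have h1 : ∑ y ∈ (RR (p ^ 2)).erase ⟨p, 0⟩, ∑' σ : SL(2, ℤ),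
            ic (h ≤ (σ • hx (p ^ 2) y z).im ∧ |(σ • hx (p ^ 2) y z).re| ≤ r) ≤
            ∑ y ∈ RR (p ^ 2), ∑' σ : SL(2, ℤ),
            ic (h ≤ (σ • hx (p ^ 2) y z).im ∧ |(σ • hx (p ^ 2) y z).re| ≤ r) :=
          Finset.sum_le_sum_of_subset (Finset.erase_subset _ _)
        refine h1.trans ((hcount z hz1 hz2 p hp.2 h r hh hr).trans (ENNReal.ofReal_le_ofReal ?_))
        have hp1 : (p : ℝ) ≤ 4 * N := by exact_mod_cast hp.1.2
        have hp2 : (p : ℝ) ^ 2 ≤ 16 * (N : ℝ) ^ 2 := by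
          have h0 : (0 : ℝ) ≤ p := Nat.cast_nonneg p
          nlinarith
        have h3 : (p : ℝ) ^ 2 * z.im / h ≤ 16 * (N : ℝ) ^ 2 * z.im / h :=
          div_le_div_of_nonneg_right (mul_le_mul_of_nonneg_right hp2 hz0.le) hh.le
        exact mul_le_mul_of_nonneg_right (mul_le_mul_of_nonneg_left h3 hK.le) (by linarith)
    _ = ((PR N).card : ℝ≥0∞) * ENNReal.ofReal (K * (16 * (N : ℝ) ^ 2 * z.im / h) * (r + 1)) := by
        rw [Finset.sum_const, nsmul_eq_mul]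
    _ ≤ ENNReal.ofReal (3 * N) * ENNReal.ofReal (K * (16 * (N : ℝ) ^ 2 * z.im / h) * (r + 1)) := by
        refine mul_le_mul_left ?_ _
        rw [← ENNReal.ofReal_natCast]
        apply ENNReal.ofReal_le_ofReal
        have := card_PR_le N
        exact_mod_cast this
    _ = ENNReal.ofReal (48 * K * ((N : ℝ) ^ 3 * z.im / h) * (r + 1)) := by
        rw [← ENNReal.ofReal_mul (by positivity)]
        congr 1
        ring

lemma CL2_dyadic {w : ℍ} {h0 : ℝ} (hh0 : 1 ≤ h0) :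
    ic (1 / 4 ≤ w.im ∧ w.im ≤ 2 * h0 ∧ |w.re| ≤ 1 / 2 + w.im) ≤
      ∑ m ∈ Finset.range (⌊Real.log (8 * h0) / Real.log 2⌋₊ + 1),
        ic ((2 : ℝ) ^ m / 4 ≤ w.im ∧ |w.re| ≤ 1 / 2 + 2 ^ (m + 1) / 4) := by
  by_cases h : 1 / 4 ≤ w.im ∧ w.im ≤ 2 * h0 ∧ |w.re| ≤ 1 / 2 + w.im
  · rw [ic_true h]
    obtain ⟨h1, h2, h3⟩ := h
    obtain ⟨m, hm1, hm2⟩ := exists_nat_pow_near (x := 4 * w.im) (y := 2) (by linarith) (by norm_num)
    have hmr : m ∈ Finset.range (⌊Real.log (8 * h0) / Real.log 2⌋₊ + 1) := by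
      rw [Finset.mem_range, Nat.lt_succ_iff]
      apply Nat.le_floor
      rw [le_div_iff₀ (Real.log_pos (by norm_num)), ← Real.log_pow]
      apply Real.log_le_log (by positivity)
      linarith
    have h4 : ic ((2 : ℝ) ^ m / 4 ≤ w.im ∧ |w.re| ≤ 1 / 2 + 2 ^ (m + 1) / 4) = 1 := by
      apply ic_true
      constructor
      · linarith
      · linarith
    rw [← h4]
    exact Finset.single_le_sum
      (f := fun m : ℕ => ic ((2 : ℝ) ^ m / 4 ≤ w.im ∧ |w.re| ≤ 1 / 2 + 2 ^ (m + 1) / 4))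
      (fun _ _ => zero_le) hmr
  · rw [ic_false h]
    exact zero_le

theorem low_count : ∃ K : ℝ, 0 < K ∧ ∀ z : ℍ, |z.re| ≤ 1 / 2 → 1 / 2 ≤ z.im →
    ∀ N : ℕ, 1 ≤ N → ∀ h0 : ℝ, 1 ≤ h0 →
    ∑ i ∈ II N, ∑' σ : SL(2, ℤ),
      ic (1 / 4 ≤ (σ • zt z i).im ∧ (σ • zt z i).im ≤ 2 * h0 ∧
        |(σ • zt z i).re| ≤ 1 / 2 + (σ • zt z i).im) ≤
    ENNReal.ofReal (K * ((N : ℝ) ^ 3 * z.im) * (1 + Real.log h0)) := by
  obtain ⟨K, hK, hcount⟩ := count_high_sum
  refine ⟨32 * K, by positivity, ?_⟩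
  intro z hz1 hz2 N hN h0 hh0
  have hz0 : 0 < z.im := by linarith
  set M := ⌊Real.log (8 * h0) / Real.log 2⌋₊ with hM
  have hlog : 0 ≤ Real.log h0 := Real.log_nonneg hh0
  have hlog2 : (0.69 : ℝ) < Real.log 2 := by
    have := Real.log_two_gt_d9
    linarith
  calc _ ≤ ∑ i ∈ II N, ∑' σ : SL(2, ℤ), ∑ m ∈ Finset.range (M + 1),
        ic ((2 : ℝ) ^ m / 4 ≤ (σ • zt z i).im ∧ |(σ • zt z i).re| ≤ 1 / 2 + 2 ^ (m + 1) / 4) := by
        apply Finset.sum_le_sum
        intro i _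
        exact ENNReal.tsum_le_tsum fun σ => CL2_dyadic hh0
    _ = ∑ m ∈ Finset.range (M + 1), ∑ i ∈ II N, ∑' σ : SL(2, ℤ),
        ic ((2 : ℝ) ^ m / 4 ≤ (σ • zt z i).im ∧ |(σ • zt z i).re| ≤ 1 / 2 + 2 ^ (m + 1) / 4) := by
        rw [Finset.sum_comm]
        apply Finset.sum_congr rfl
        intro i _
        rw [Summable.tsum_finsetSum (fun _ _ => ENNReal.summable)]
    _ ≤ ∑ m ∈ Finset.range (M + 1), ENNReal.ofReal (8 * K * ((N : ℝ) ^ 3 * z.im)) := by
        apply Finset.sum_le_sum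
        intro m _
        have h2 : (1 : ℝ) ≤ 2 ^ m := one_le_pow₀ (by norm_num)
        refine (hcount z hz1 hz2 N hN ((2 : ℝ) ^ m / 4) (1 / 2 + 2 ^ (m + 1) / 4) (by positivity)
          (by positivity)).trans (ENNReal.ofReal_le_ofReal ?_)
        have h3 : K * ((N : ℝ) ^ 3 * z.im / (2 ^ m / 4)) * (1 / 2 + 2 ^ (m + 1) / 4 + 1) =
            K * ((N : ℝ) ^ 3 * z.im) * (6 / 2 ^ m + 2) := by
          rw [pow_succ]
          field_simp
          ring
        rw [h3]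
        have h4 : (6 : ℝ) / 2 ^ m ≤ 6 := div_le_self (by norm_num) h2
        have h5 : 0 ≤ K * ((N : ℝ) ^ 3 * z.im) := by positivity
        nlinarith
    _ = ((M + 1 : ℕ) : ℝ≥0∞) * ENNReal.ofReal (8 * K * ((N : ℝ) ^ 3 * z.im)) := by
        rw [Finset.sum_const, Finset.card_range, nsmul_eq_mul]
    _ ≤ ENNReal.ofReal (4 + 4 * Real.log h0) * ENNReal.ofReal (8 * K * ((N : ℝ) ^ 3 * z.im)) := by
        refine mul_le_mul_left ?_ _
        rw [← ENNReal.ofReal_natCast]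
        apply ENNReal.ofReal_le_ofReal
        have h1 : (M : ℝ) ≤ Real.log (8 * h0) / Real.log 2 := by
          apply Nat.floor_le
          apply div_nonneg (Real.log_nonneg (by linarith)) (by linarith)
        have h2 : Real.log (8 * h0) = 3 * Real.log 2 + Real.log h0 := by
          rw [Real.log_mul (by norm_num) (by linarith)]
          have : (8 : ℝ) = 2 ^ 3 := by norm_num
          rw [this, Real.log_pow]
          push_cast
          ring
        have h3 : Real.log (8 * h0) / Real.log 2 ≤ 3 + 4 * Real.log h0 := by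
          rw [div_le_iff₀ (by linarith), h2]
          nlinarith
        push_cast
        linarith
    _ = ENNReal.ofReal (32 * K * ((N : ℝ) ^ 3 * z.im) * (1 + Real.log h0)) := by
        rw [← ENNReal.ofReal_mul (by positivity)]
        congr 1
        ring

open Classical in
theorem high_pairs : ∃ K : ℝ, 0 < K ∧ ∀ z : ℍ, |z.re| ≤ 1 / 2 → 1 / 2 ≤ z.im →
    ∀ N : ℕ, 1 ≤ N → ∀ h0 : ℝ, 1 ≤ h0 → ∀ g : (Σ _ : ℕ, Σ _ : ℕ, ℕ) → SL(2, ℤ),
    (∀ i ∈ II N, |(g i • zt z i).re| ≤ 1 / 2) →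
    ∑ i ∈ (II N).filter (fun i => h0 < (g i • zt z i).im), ∑ j ∈ II N,
      ∑' σ : SL(2, ℤ), ic (dist (g i • zt z i) (σ • zt z j) ≤ 1 / 2) ≤
    ENNReal.ofReal (K * ((N : ℝ) ^ 6 * z.im ^ 2 / h0)) := by
  obtain ⟨K, hK, hcount⟩ := count_high_sum
  refine ⟨8 * K ^ 2, by positivity, ?_⟩
  intro z hz1 hz2 N hN h0 hh0 g hg
  have hz0 : 0 < z.im := by linarith
  have hrow : ∀ i ∈ (II N).filter (fun i => h0 < (g i • zt z i).im), ∑ j ∈ II N,
      ∑' σ : SL(2, ℤ), ic (dist (g i • zt z i) (σ • zt z j) ≤ 1 / 2) ≤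
      ENNReal.ofReal (5 * K * ((N : ℝ) ^ 3 * z.im)) := by
    intro i hi
    rw [Finset.mem_filter] at hi
    set H := (g i • zt z i).im with hH
    have hH1 : 1 < H := lt_of_le_of_lt hh0 hi.2
    have hre := hg i hi.1
    calc _ ≤ ∑ j ∈ II N, ∑' σ : SL(2, ℤ),
          ic (3 / 5 * H ≤ (σ • zt z j).im ∧ |(σ • zt z j).re| ≤ 1 / 2 + H) := by
          apply Finset.sum_le_sum
          intro j _
          apply ENNReal.tsum_le_tsum
          intro σ
          apply ic_mono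
          intro hd
          obtain ⟨g1, g2, g3⟩ := near_im hd
          constructor
          · rw [← hH] at g1
            linarith
          · rw [← hH] at g3
            have h1 : |(σ • zt z j).re| ≤ |(g i • zt z i).re| +
                |(g i • zt z i).re - (σ • zt z j).re| := by
              have := abs_sub (g i • zt z i).re ((g i • zt z i).re - (σ • zt z j).re)
              have h2 : (g i • zt z i).re - ((g i • zt z i).re - (σ • zt z j).re) =
                (σ • zt z j).re := by ring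
              rw [h2] at this
              exact this
            linarith
      _ ≤ ENNReal.ofReal (K * ((N : ℝ) ^ 3 * z.im / (3 / 5 * H)) * (1 / 2 + H + 1)) :=
          hcount z hz1 hz2 N hN _ _ (by linarith) (by linarith)
      _ ≤ _ := by
          apply ENNReal.ofReal_le_ofReal
          have h1 : K * ((N : ℝ) ^ 3 * z.im / (3 / 5 * H)) * (1 / 2 + H + 1) =
              K * ((N : ℝ) ^ 3 * z.im) * (5 / 3 * (3 / 2 / H + 1)) := by
            field_simp
            ring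
          rw [h1]
          have h2 : (3 : ℝ) / 2 / H ≤ 3 / 2 := div_le_self (by norm_num) hH1.le
          have h3 : 0 ≤ K * ((N : ℝ) ^ 3 * z.im) := by positivity
          nlinarith
  have hcard : (((II N).filter (fun i => h0 < (g i • zt z i).im)).card : ℝ≥0∞) ≤
      ENNReal.ofReal (K * ((N : ℝ) ^ 3 * z.im / h0) * (1 / 2 + 1)) := by
    calc (((II N).filter (fun i => h0 < (g i • zt z i).im)).card : ℝ≥0∞)
        = ∑ i ∈ (II N).filter (fun i => h0 < (g i • zt z i).im), (1 : ℝ≥0∞) := by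
          rw [Finset.sum_const, nsmul_eq_mul, mul_one]
      _ ≤ ∑ i ∈ (II N).filter (fun i => h0 < (g i • zt z i).im), ∑' σ : SL(2, ℤ),
          ic (h0 ≤ (σ • zt z i).im ∧ |(σ • zt z i).re| ≤ 1 / 2) := by
          apply Finset.sum_le_sum
          intro i hi
          rw [Finset.mem_filter] at hi
          have h1 : ic (h0 ≤ (g i • zt z i).im ∧ |(g i • zt z i).re| ≤ 1 / 2) = 1 :=
            ic_true ⟨hi.2.le, hg i hi.1⟩
          rw [← h1]
          exact ENNReal.le_tsum (f := fun σ : SL(2, ℤ) =>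
            ic (h0 ≤ (σ • zt z i).im ∧ |(σ • zt z i).re| ≤ 1 / 2)) (g i)
      _ ≤ ∑ i ∈ II N, ∑' σ : SL(2, ℤ),
          ic (h0 ≤ (σ • zt z i).im ∧ |(σ • zt z i).re| ≤ 1 / 2) :=
          Finset.sum_le_sum_of_subset (Finset.filter_subset _ _)
      _ ≤ _ := hcount z hz1 hz2 N hN _ _ (by linarith) (by norm_num)
  calc _ ≤ ∑ i ∈ (II N).filter (fun i => h0 < (g i • zt z i).im),
        ENNReal.ofReal (5 * K * ((N : ℝ) ^ 3 * z.im)) := Finset.sum_le_sum hrow
    _ = (((II N).filter (fun i => h0 < (g i • zt z i).im)).card : ℝ≥0∞) *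
        ENNReal.ofReal (5 * K * ((N : ℝ) ^ 3 * z.im)) := by
        rw [Finset.sum_const, nsmul_eq_mul]
    _ ≤ ENNReal.ofReal (K * ((N : ℝ) ^ 3 * z.im / h0) * (1 / 2 + 1)) *
        ENNReal.ofReal (5 * K * ((N : ℝ) ^ 3 * z.im)) := mul_le_mul_left hcard _
    _ ≤ _ := by
        rw [← ENNReal.ofReal_mul (by positivity)]
        apply ENNReal.ofReal_le_ofReal
        have h1 : K * ((N : ℝ) ^ 3 * z.im / h0) * (1 / 2 + 1) * (5 * K * ((N : ℝ) ^ 3 * z.im)) =
            15 / 2 * (K ^ 2 * ((N : ℝ) ^ 6 * z.im ^ 2 / h0)) := by ring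
        rw [h1]
        have h2 : 0 ≤ K ^ 2 * ((N : ℝ) ^ 6 * z.im ^ 2 / h0) := by positivity
        linarith

theorem card_II_le (N : ℕ) : ((II N).card : ℝ) ≤ 63 * (N : ℝ) ^ 3 := by
  have h : (II N).card ≤ 63 * N ^ 3 := by
    unfold II
    rw [Finset.card_sigma]
    calc ∑ p ∈ PR N, ((RR (p ^ 2)).erase ⟨p, 0⟩).card ≤ ∑ p ∈ PR N, 21 * N ^ 2 := by
          apply Finset.sum_le_sum
          intro p hp
          rw [mem_PR] at hp
          refine (Finset.card_le_card (Finset.erase_subset _ _)).trans ?_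
          unfold RR
          rw [Finset.card_sigma, divisors_sq hp.2]
          have hp2 := hp.2.two_le
          have hN : 1 ≤ N := by omega
          rw [Finset.sum_insert, Finset.sum_insert, Finset.sum_singleton]
          · simp only [Finset.card_range]
            nlinarith [hp.1.2]
          · rw [Finset.mem_singleton]
            intro h
            nlinarith
          · rw [Finset.mem_insert, Finset.mem_singleton]
            rintro (h | h)
            · omega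
            · nlinarith
      _ = (PR N).card * (21 * N ^ 2) := by rw [Finset.sum_const, smul_eq_mul]
      _ ≤ 3 * N * (21 * N ^ 2) := Nat.mul_le_mul_right _ (card_PR_le N)
      _ = 63 * N ^ 3 := by ring
  exact_mod_cast h

end Pool.Agent.H19.Sup
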