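import Mathlib
import Pool.Agent.H19.Sup.Defs2
import Pool.Agent.H19.Sup.G1

set_option autoImplicit false

/-!
# F0: auxiliary lemmas for the assembly
-/

namespace Pool.Agent.H19.Sup

open UpperHalfPlane
open Pool.Agent.H19.Maass
open scoped MatrixGroups ComplexConjugate ENNReal

lemma Amp.B0_nonneg {A : ℝ → ℂ} {B0 B1 ρ : ℝ} (h : Amp A B0 B1 ρ) : 0 ≤ B0 :=
  (norm_nonneg _).trans (h.bdd 0)

lemma norm_wv (A : ℝ → ℂ) (T d : ℝ) : ‖wv A T d‖ = ‖A d‖ := by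
  unfold wv
  rw [norm_mul, Complex.norm_exp_ofReal_mul_I, mul_one]

lemma wv_zero {A : ℝ → ℂ} {B0 B1 ρ : ℝ} (h : Amp A B0 B1 ρ) (T : ℝ) {d : ℝ} (hd : 1 / 2 ≤ d) :
    wv A T d = 0 := by
  unfold wv
  rw [h.hi d hd, zero_mul]

lemma wv_le {A : ℝ → ℂ} {B0 B1 ρ : ℝ} (h : Amp A B0 B1 ρ) (T d : ℝ) :
    ENNReal.ofReal ‖wv A T d‖ ≤ ENNReal.ofReal B0 * ic (d ≤ 1 / 2) := by
  by_cases hd : d ≤ 1 / 2
  · rw [ic_true hd, mul_one, norm_wv]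
    exact ENNReal.ofReal_le_ofReal (h.bdd d)
  · rw [wv_zero h T (not_le.1 hd).le]
    simp

lemma F0_shift {A : ℝ → ℂ} {B0 B1 ρ : ℝ} (h : Amp A B0 B1 ρ) (T : ℝ) (g : SL(2, ℤ)) (ζ ζ' : ℍ)
    {S S' : Finset SL(2, ℤ)} (hS : ∀ σ : SL(2, ℤ), dist ζ (σ • ζ') ≤ 1 / 2 → σ ∈ S)
    (hS' : ∀ σ : SL(2, ℤ), dist (g • ζ) (σ • ζ') ≤ 1 / 2 → σ ∈ S') :
    ∑ σ ∈ S, wv A T (dist ζ (σ • ζ')) = ∑ σ ∈ S', wv A T (dist (g • ζ) (σ • ζ')) := by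
  have h1 : ∑' σ : SL(2, ℤ), wv A T (dist ζ (σ • ζ')) = ∑ σ ∈ S, wv A T (dist ζ (σ • ζ')) := by
    refine tsum_eq_sum fun σ hσ => ?_
    refine wv_zero h T ?_
    by_contra hc
    exact hσ (hS σ (not_le.1 hc).le)
  have h2 : ∑' σ : SL(2, ℤ), wv A T (dist (g • ζ) (σ • ζ')) =
      ∑ σ ∈ S', wv A T (dist (g • ζ) (σ • ζ')) := by
    refine tsum_eq_sum fun σ hσ => ?_
    refine wv_zero h T ?_
    by_contra hc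
    exact hσ (hS' σ (not_le.1 hc).le)
  rw [← h1, ← h2, ← (Equiv.mulLeft g).tsum_eq (fun σ : SL(2, ℤ) => wv A T (dist (g • ζ) (σ • ζ')))]
  refine tsum_congr fun σ => ?_
  rw [Equiv.coe_mulLeft, mul_smul, dist_sl]

/-- the index set `II` is part of the index set of the sums `MM` -/
lemma II_le_MM (φ : ℝ → ℝ≥0∞) (w : ℕ → ℕ → ℝ≥0∞) (N : ℕ) (z : ℍ) :
    ∑ i ∈ II N, ∑ j ∈ II N, w i.1 j.1 * ∑' σ : SL(2, ℤ),
      φ (2 * Real.cosh (dist (zt z i) (σ • zt z j)) - 2) ≤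
    ∑ p ∈ PR N, ∑ q ∈ PR N, w p q * MM φ (p ^ 2) (q ^ 2) z := by
  unfold II
  rw [Finset.sum_sigma]
  refine Finset.sum_le_sum fun p hp => ?_
  have h1 : ∀ x : Σ _ : ℕ, ℕ, ∑ j ∈ (PR N).sigma fun p => (RR (p ^ 2)).erase ⟨p, 0⟩,
      w p j.1 * ∑' σ : SL(2, ℤ), φ (2 * Real.cosh (dist (zt z ⟨p, x⟩) (σ • zt z j)) - 2) ≤
      ∑ q ∈ PR N, w p q * ∑ y ∈ RR (q ^ 2), ∑' σ : SL(2, ℤ),
        φ (2 * Real.cosh (dist (hx (p ^ 2) x z) (σ • hx (q ^ 2) y z)) - 2) := by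
    intro x
    rw [Finset.sum_sigma]
    refine Finset.sum_le_sum fun q hq => ?_
    rw [Finset.mul_sum]
    exact Finset.sum_le_sum_of_subset (Finset.erase_subset _ _)
  refine (Finset.sum_le_sum fun x _ => h1 x).trans ?_
  rw [Finset.sum_comm]
  refine Finset.sum_le_sum fun q hq => ?_
  rw [← Finset.mul_sum]
  refine mul_le_mul_right ?_ _
  unfold MM
  exact Finset.sum_le_sum_of_subset (Finset.erase_subset _ _)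

lemma mem_II {N : ℕ} {i : Σ _ : ℕ, Σ _ : ℕ, ℕ} (hi : i ∈ II N) :
    (N < i.1 ∧ i.1 ≤ 4 * N) ∧ i.1.Prime ∧ i.2 ∈ RR (i.1 ^ 2) ∧ i.2 ≠ ⟨i.1, 0⟩ := by
  unfold II at hi
  rw [Finset.mem_sigma, Finset.mem_erase, mem_PR] at hi
  exact ⟨hi.1.1, hi.1.2, hi.2.2, hi.2.1⟩

lemma inv_II {N : ℕ} (hN : 1 ≤ N) {i : Σ _ : ℕ, Σ _ : ℕ, ℕ} (hi : i ∈ II N) :
    0 < 1 / (i.1 : ℝ) ∧ 1 / (i.1 : ℝ) ≤ 1 / N := by
  obtain ⟨⟨h1, _⟩, h2, _⟩ := mem_II hi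
  have h3 : (0 : ℝ) < i.1 := by exact_mod_cast h2.pos
  have h4 : (N : ℝ) ≤ i.1 := by exact_mod_cast h1.le
  have h5 : (0 : ℝ) < N := by exact_mod_cast hN
  exact ⟨by positivity, one_div_le_one_div_of_le h5 h4⟩

end Pool.Agent.H19.Sup
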