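import Mathlib
import Pool.Agent.H19.Sup.Defs

set_option autoImplicit false

/-!
# L2: elementary properties of the distance along a horocycle

* `dh_lip`: the distance of `ξ + i` and `ξ' + i` is at most `|ξ - ξ'|` (`arcosh (1 + t²/2) ≤ |t|`), and the triangle
  inequality; or directly: the derivative of `dh 0 Y 1` is `2ξ/√((ξ²+(1-Y)²)(ξ²+(1+Y)²))`, of absolute value `≤ 1` (mind the
  point `ξ = 0`, `Y = 1`; the triangle inequality in `UpperHalfPlane` is the cleanest way).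
* `dh_small`: `cosh (1/2) - 1 < 0.1277`; `1 + (ξ² + (1-Y)²)/(2Y) < cosh (1/2)` gives `(1-Y)² < 0.2554 Y`, so `Y ∈ [3/5, 5/3]`,
  and `ξ² < 0.2554 * 5/3 < 1`.  (`Y = 3/5`: `0.16 / 0.6 = 0.267 > 0.2554`; `Y = 5/3`: `0.444/1.667 = 0.267 > 0.2554`.)
* `R_far`: `R1 = n⁴ (ξ²+(1-Y)²)(ξ²+(1+Y)²)`, `ξ² + (1-Y)² = 2 Y (cosh d - 1) ≥ Y d²`, `(1+Y)² ≥ 64/25`, `n ≥ 1`.
-/

namespace Pool.Agent.H19.Sup

open Polynomial

theorem L2_arg_ge {Y : ℝ} (hY : 0 < Y) (ξ : ℝ) :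
    1 ≤ 1 + ((ξ - 0) ^ 2 + (1 - Y) ^ 2) / (2 * Y * 1) := by
  have : 0 ≤ ((ξ - 0) ^ 2 + (1 - Y) ^ 2) / (2 * Y * 1) := by positivity
  linarith

theorem L2_dist {Y : ℝ} (hY : 0 < Y) (ξ : ℝ) :
    dh 0 Y 1 ξ = dist (UpperHalfPlane.mk ⟨0, Y⟩ hY)
      (UpperHalfPlane.mk ⟨ξ, 1⟩ (by norm_num : (0 : ℝ) < 1)) := by
  have h := UpperHalfPlane.cosh_dist (UpperHalfPlane.mk ⟨0, Y⟩ hY)
      (UpperHalfPlane.mk ⟨ξ, 1⟩ (by norm_num : (0 : ℝ) < 1))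
  rw [dh, ← Real.arcosh_cosh (x := dist (UpperHalfPlane.mk ⟨0, Y⟩ hY)
      (UpperHalfPlane.mk ⟨ξ, 1⟩ (by norm_num : (0 : ℝ) < 1))) dist_nonneg, h]
  congr 3
  rw [Complex.dist_eq_re_im, Real.sq_sqrt (by positivity)]
  simp only
  ring

theorem L2_dist_one (ξ ξ' : ℝ) :
    dist (UpperHalfPlane.mk ⟨ξ, 1⟩ (by norm_num : (0 : ℝ) < 1))
      (UpperHalfPlane.mk ⟨ξ', 1⟩ (by norm_num : (0 : ℝ) < 1)) ≤ |ξ - ξ'| := by
  refine (UpperHalfPlane.dist_le_dist_coe_div_sqrt _ _).trans (le_of_eq ?_)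
  rw [Complex.dist_eq_re_im]
  simp [UpperHalfPlane.im, Real.sqrt_sq_eq_abs]

theorem dh_lip {Y : ℝ} (hY : 0 < Y) (ξ ξ' : ℝ) : |dh 0 Y 1 ξ - dh 0 Y 1 ξ'| ≤ |ξ - ξ'| := by
  rw [L2_dist hY, L2_dist hY]
  refine le_trans ?_ (L2_dist_one ξ ξ')
  rw [dist_comm (UpperHalfPlane.mk ⟨0, Y⟩ hY), dist_comm (UpperHalfPlane.mk ⟨0, Y⟩ hY)]
  exact abs_dist_sub_le _ _ _

theorem dh_nonneg {Y : ℝ} (hY : 0 < Y) (ξ : ℝ) : 0 ≤ dh 0 Y 1 ξ :=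
  Real.arcosh_nonneg (L2_arg_ge hY ξ)

theorem L2_cosh_half : Real.cosh (1 / 2) < 1.1277 := by
  have h1 : Real.cosh 1 = 2 * Real.cosh (1 / 2) ^ 2 - 1 := by
    have := Real.cosh_two_mul (1 / 2)
    have h2 := Real.cosh_sq (1 / 2)
    rw [show (2 : ℝ) * (1 / 2) = 1 by norm_num] at this
    linarith
  have h3 : Real.cosh 1 < 1.54309 := by
    rw [Real.cosh_eq]
    have e1 := Real.exp_one_lt_d9
    have e2 := Real.exp_one_gt_d9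
    have e3 : Real.exp (-1) < 0.36788 := by
      rw [Real.exp_neg]
      have : (0.36788 : ℝ) = (0.36788⁻¹)⁻¹ := by norm_num
      rw [this]
      refine inv_strictAnti₀ (by norm_num) ?_
      refine lt_trans ?_ e2
      norm_num
    norm_num at e1 e3 ⊢
    linarith
  have h4 : 0 < Real.cosh (1 / 2) := Real.cosh_pos _
  by_contra hcon
  push Not at hcon
  norm_num at hcon h3
  nlinarith

theorem L2_cosh_lower {d : ℝ} (hd : 0 ≤ d) : 1 + d ^ 2 / 2 ≤ Real.cosh d := by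
  have h1 := Real.cosh_two_mul (d / 2)
  have h2 := Real.cosh_sq (d / 2)
  rw [show (2 : ℝ) * (d / 2) = d by ring] at h1
  have h3 : d / 2 ≤ Real.sinh (d / 2) := Real.self_le_sinh_iff.2 (by positivity)
  have h4 : (d / 2) ^ 2 ≤ Real.sinh (d / 2) ^ 2 := pow_le_pow_left₀ (by positivity) h3 2
  nlinarith

theorem L2_cosh_dh {Y : ℝ} (hY : 0 < Y) (ξ : ℝ) :
    Real.cosh (dh 0 Y 1 ξ) = 1 + (ξ ^ 2 + (1 - Y) ^ 2) / (2 * Y) := by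
  rw [dh, Real.cosh_arcosh (L2_arg_ge hY ξ)]
  simp

theorem dh_small {Y : ℝ} (hY : 0 < Y) {ξ : ℝ} (h : dh 0 Y 1 ξ < 1 / 2) :
    3 / 5 ≤ Y ∧ Y ≤ 5 / 3 ∧ |ξ| ≤ 1 := by
  have h1 : Real.cosh (dh 0 Y 1 ξ) < Real.cosh (1 / 2) := by
    rw [Real.cosh_lt_cosh, abs_of_nonneg (dh_nonneg hY ξ), abs_of_nonneg (by norm_num)]
    exact h
  have h2 := h1.trans L2_cosh_half
  rw [L2_cosh_dh hY] at h2
  have h3 : (ξ ^ 2 + (1 - Y) ^ 2) / (2 * Y) < 0.1277 := by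
    norm_num at h2 ⊢; linarith
  rw [div_lt_iff₀ (by positivity)] at h3
  have h4 : ξ ^ 2 + (1 - Y) ^ 2 < 0.2554 * Y := by
    norm_num at h3 ⊢; linarith
  have h5 : 3 / 5 ≤ Y := by
    by_contra hcon
    push Not at hcon
    norm_num at h4
    nlinarith [sq_nonneg ξ, mul_pos (sub_pos.2 hcon) (sub_pos.2 hcon)]
  have h6 : Y ≤ 5 / 3 := by
    by_contra hcon
    push Not at hcon
    norm_num at h4
    nlinarith [sq_nonneg ξ, mul_pos (sub_pos.2 hcon) (sub_pos.2 hcon)]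
  refine ⟨h5, h6, ?_⟩
  rw [abs_le_one_iff_mul_self_le_one]
  norm_num at h4
  nlinarith [sq_nonneg (1 - Y)]

theorem dh_scale {X Y y x : ℝ} (hY : 0 < Y) (hy : 0 < y) :
    dh X Y y x = dh 0 (Y / y) 1 ((x - X) / y) := by
  rw [dh, dh]
  congr 2
  field_simp
  ring

theorem L2_far {Y M N ρ : ℝ} (hY : 3 / 5 ≤ Y) (hN : 1 ≤ N) (hρ : 0 < ρ)
    (h : ρ ≤ dh 0 Y 1 (M / N)) :
    ρ ^ 2 ≤ (M ^ 2 + (1 - Y) ^ 2 * N ^ 2) * (M ^ 2 + (1 + Y) ^ 2 * N ^ 2) := by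
  have hY0 : 0 < Y := by linarith
  have hN0 : 0 < N := by linarith
  have h1 := L2_cosh_dh hY0 (M / N)
  have h2 := L2_cosh_lower (dh_nonneg hY0 (M / N))
  rw [h1] at h2
  have h3 : ρ ^ 2 ≤ (dh 0 Y 1 (M / N)) ^ 2 := pow_le_pow_left₀ hρ.le h 2
  have h4 : ρ ^ 2 / 2 ≤ ((M / N) ^ 2 + (1 - Y) ^ 2) / (2 * Y) := by linarith
  rw [le_div_iff₀ (by positivity)] at h4
  have h5 : ρ ^ 2 * Y ≤ (M / N) ^ 2 + (1 - Y) ^ 2 := by linarith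
  have h6 : M ^ 2 + (1 - Y) ^ 2 * N ^ 2 = N ^ 2 * ((M / N) ^ 2 + (1 - Y) ^ 2) := by
    field_simp
  have hN2 : 1 ≤ N ^ 2 := one_le_pow₀ hN
  have h7 : ρ ^ 2 * Y ≤ M ^ 2 + (1 - Y) ^ 2 * N ^ 2 := by
    rw [h6]
    have : 0 ≤ (M / N) ^ 2 + (1 - Y) ^ 2 := by positivity
    nlinarith
  have h8 : 64 / 25 ≤ M ^ 2 + (1 + Y) ^ 2 * N ^ 2 := by
    have h9 : 64 / 25 ≤ (1 + Y) ^ 2 := by nlinarith
    have h10 : (1 + Y) ^ 2 * 1 ≤ (1 + Y) ^ 2 * N ^ 2 :=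
      mul_le_mul_of_nonneg_left hN2 (by positivity)
    nlinarith [sq_nonneg M]
  have h11 : ρ ^ 2 * Y * (64 / 25) ≤
      (M ^ 2 + (1 - Y) ^ 2 * N ^ 2) * (M ^ 2 + (1 + Y) ^ 2 * N ^ 2) := by
    apply mul_le_mul h7 h8 (by norm_num) (by positivity)
  have h12 : ρ ^ 2 * (3 / 5) ≤ ρ ^ 2 * Y := mul_le_mul_of_nonneg_left hY (by positivity)
  nlinarith [sq_nonneg ρ]

theorem R_far (p : Par) {μ : ℝ} (hp : p.Good μ) {u : ℝ} (hn : 1 ≤ p.n.eval u) {ρ : ℝ} (hρ : 0 < ρ)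
    (h1 : ρ ≤ dh 0 p.Y 1 (p.m.eval u / p.n.eval u))
    (h2 : ρ ≤ dh 0 p.Y' 1 (p.m.eval u / p.n.eval u - p.Δ)) :
    ρ ^ 2 ≤ p.R1.eval u ∧ ρ ^ 2 ≤ p.R2.eval u := by
  have hn0 : p.n.eval u ≠ 0 := by linarith
  have e1 : p.R1.eval u = ((p.m.eval u) ^ 2 + (1 - p.Y) ^ 2 * (p.n.eval u) ^ 2) *
      ((p.m.eval u) ^ 2 + (1 + p.Y) ^ 2 * (p.n.eval u) ^ 2) := by
    simp [Par.R1]
  have e2 : p.R2.eval u = ((p.m'.eval u) ^ 2 + (1 - p.Y') ^ 2 * (p.n.eval u) ^ 2) *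
      ((p.m'.eval u) ^ 2 + (1 + p.Y') ^ 2 * (p.n.eval u) ^ 2) := by
    simp [Par.R2]
  have e3 : p.m.eval u / p.n.eval u - p.Δ = p.m'.eval u / p.n.eval u := by
    have : p.m'.eval u = p.m.eval u - p.Δ * p.n.eval u := by simp [Par.m']
    rw [this]; field_simp
  rw [e3] at h2
  rw [e1, e2]
  exact ⟨L2_far hp.hY.1 hn hρ h1, L2_far hp.hY'.1 hn hρ h2⟩

/-- the speed of the point on the horocycle -/
theorem xi_lip (p : Par) {μ : ℝ} (hp : p.Good μ) {u v : ℝ} (hu : 1 ≤ p.n.eval u)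
    (hv : 1 ≤ p.n.eval v) :
    |p.m.eval u / p.n.eval u - p.m.eval v / p.n.eval v| ≤ 12 * |u - v| := by
  have hu0 : p.n.eval u ≠ 0 := by linarith
  have hv0 : p.n.eval v ≠ 0 := by linarith
  have e : p.m.eval u / p.n.eval u - p.m.eval v / p.n.eval v =
      p.D * (u - v) / (p.n.eval u * p.n.eval v) := by
    rw [div_sub_div _ _ hu0 hv0]
    congr 1
    simp [Par.m, Par.n, Par.D]
    ring
  rw [e, abs_div, abs_mul, abs_mul, abs_of_nonneg (by linarith : (0:ℝ) ≤ p.n.eval u),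
    abs_of_nonneg (by linarith : (0:ℝ) ≤ p.n.eval v)]
  have hD : |p.D| ≤ 12 := by
    rw [Par.D]
    calc |p.m1 * p.n0 - p.m0 * p.n1| ≤ |p.m1 * p.n0| + |p.m0 * p.n1| := abs_sub _ _
      _ = |p.m1| * |p.n0| + |p.m0| * |p.n1| := by rw [abs_mul, abs_mul]
      _ ≤ 2 * 4 + 4 * 1 := by
        apply add_le_add
        · exact mul_le_mul hp.hm1 hp.hn0 (abs_nonneg _) (by norm_num)
        · exact mul_le_mul hp.hm0 hp.hn1 (abs_nonneg _) (by norm_num)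
      _ = 12 := by norm_num
  have h1 : 1 ≤ p.n.eval u * p.n.eval v := by nlinarith
  calc |p.D| * |u - v| / (p.n.eval u * p.n.eval v) ≤ |p.D| * |u - v| / 1 := by
        apply div_le_div_of_nonneg_left (by positivity) (by norm_num) h1
    _ ≤ 12 * |u - v| := by
        rw [div_one]
        exact mul_le_mul_of_nonneg_right hD (abs_nonneg _)

end Pool.Agent.H19.Sup
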