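import Mathlib
import Pool.Agent.H19.Sup.Defs2
import Pool.Agent.H19.Sup.L2

set_option autoImplicit false

/-!
# P3: trivial bound for a plane, and planes in coordinates

`plane_triv`: a nonzero term has `|b / q - X| ≤ y` (`Amp.hi`, `dh_scale`, `dh_small`): for each `q` at most
`2 q y + 1 ≤ 8 N y + 1 ≤ 28 N y` values of `b`; `3 N` values of `q`.

`ZZ_eq`: `dist w (sec c • v) = dist ((sec c)⁻¹ • w) v` (`Maass.dist_sl'`), and for `v = t +ᵥ v'` the distance is given by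
`cosh d = 1 + ((x - x')² + (y - y')²) / (2 y y')` (`UpperHalfPlane.cosh_dist` or `dist_eq`), so
`d = arcosh ...` because `d ≥ 0` (`Real.arcosh_cosh`).
-/

namespace Pool.Agent.H19.Sup

open UpperHalfPlane
open Pool.Agent.H19.Maass
open scoped MatrixGroups

/-- number of integers in a real interval -/
lemma P3_card_le (S : Finset ℤ) (u v : ℝ) (huv : u ≤ v) (h : ∀ b ∈ S, u ≤ (b : ℝ) ∧ (b : ℝ) ≤ v) :
    (S.card : ℝ) ≤ v - u + 1 := by
  have hsub : S ⊆ Finset.Icc ⌈u⌉ ⌊v⌋ := by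
    intro b hb
    obtain ⟨h1, h2⟩ := h b hb
    exact Finset.mem_Icc.mpr ⟨Int.ceil_le.mpr h1, Int.le_floor.mpr h2⟩
  have hc := Finset.card_le_card hsub
  rw [Int.card_Icc] at hc
  by_cases hn : 0 ≤ ⌊v⌋ + 1 - ⌈u⌉
  · have h3 : ((⌊v⌋ + 1 - ⌈u⌉).toNat : ℝ) = ((⌊v⌋ + 1 - ⌈u⌉ : ℤ) : ℝ) := by
      rw [← Int.cast_natCast, Int.toNat_of_nonneg hn]
    have h4 : (S.card : ℝ) ≤ ((⌊v⌋ + 1 - ⌈u⌉).toNat : ℝ) := by exact_mod_cast hc
    rw [h3] at h4
    push_cast at h4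
    have h5 := Int.floor_le v
    have h6 := Int.le_ceil u
    linarith
  · have h3 : (⌊v⌋ + 1 - ⌈u⌉).toNat = 0 := Int.toNat_eq_zero.mpr (by omega)
    rw [h3] at hc
    have : S.card = 0 := by omega
    rw [this]
    push_cast
    linarith

lemma P3_osc_norm (A : ℝ → ℂ) {B0 B1 ρ : ℝ} (hA : Amp A B0 B1 ρ) (T d d' : ℝ) :
    ‖osc A T d d'‖ ≤ B0 ^ 2 := by
  unfold osc
  rw [norm_mul, norm_mul, Complex.norm_exp_ofReal_mul_I, mul_one, RCLike.norm_conj]
  have h1 := hA.bdd d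
  have h2 := hA.bdd d'
  have h3 := norm_nonneg (A d)
  have h4 := norm_nonneg (A d')
  nlinarith [mul_le_mul h1 h2 h4 (h3.trans h1)]

lemma P3_osc_zero (A : ℝ → ℂ) {B0 B1 ρ : ℝ} (hA : Amp A B0 B1 ρ) (T : ℝ) {d : ℝ} (d' : ℝ)
    (hd : 1 / 2 ≤ d) : osc A T d d' = 0 := by
  unfold osc
  rw [hA.hi d hd]
  simp

theorem plane_triv (A : ℝ → ℂ) {B0 B1 ρ : ℝ} (hA : Amp A B0 B1 ρ) (T : ℝ) {N : ℕ} (hN : 1 ≤ N) (M : ℤ)
    (X X' Y' : ℝ) {Y y : ℝ} (hY : 0 < Y) (hY' : 0 < Y') (hy : 1 / (20 * N : ℝ) ≤ y) :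
    ‖PS A T N M X Y X' Y' y‖ ≤ 84 * ((N : ℝ) ^ 2 * y) * B0 ^ 2 := by
  classical
  have hN' : (1 : ℝ) ≤ N := by exact_mod_cast hN
  have hy0 : 0 < y := lt_of_lt_of_le (by positivity) hy
  have hNy : 1 ≤ 20 * N * y := by
    have := mul_le_mul_of_nonneg_left hy (show (0 : ℝ) ≤ 20 * N by positivity)
    rwa [mul_one_div_cancel (by positivity)] at this
  have key : ∀ q ∈ Finset.Ioc N (4 * N), ‖∑ b ∈ Finset.Icc (-M) M,
      (if om y q b then osc A T (dh X Y y ((b : ℝ) / q)) (dh X' Y' y ((b : ℝ) / q)) else 0)‖ ≤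
      28 * N * y * B0 ^ 2 := by
    intro q hq
    rw [Finset.mem_Ioc] at hq
    have hq0 : (0 : ℝ) < q := by
      have : 0 < q := by omega
      exact_mod_cast this
    have hq4 : (q : ℝ) ≤ 4 * N := by exact_mod_cast hq.2
    set S : Finset ℤ := (Finset.Icc (-M) M).filter (fun b => |(b : ℝ) / q - X| ≤ y) with hS
    have h1 : ∑ b ∈ Finset.Icc (-M) M,
        (if om y q b then osc A T (dh X Y y ((b : ℝ) / q)) (dh X' Y' y ((b : ℝ) / q)) else 0) =
        ∑ b ∈ S,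
        (if om y q b then osc A T (dh X Y y ((b : ℝ) / q)) (dh X' Y' y ((b : ℝ) / q)) else 0) := by
      symm
      apply Finset.sum_subset (Finset.filter_subset _ _)
      intro b hb hb'
      have hb2 : ¬ |(b : ℝ) / q - X| ≤ y := by
        intro h
        exact hb' (Finset.mem_filter.mpr ⟨hb, h⟩)
      split_ifs with ho
      · apply P3_osc_zero A hA T
        by_contra hlt
        push Not at hlt
        rw [dh_scale hY hy0] at hlt
        have h3 := (dh_small (div_pos hY hy0) hlt).2.2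
        rw [abs_div, abs_of_pos hy0, div_le_one hy0] at h3
        exact hb2 h3
      · rfl
    rw [h1]
    have hcard : (S.card : ℝ) ≤ 28 * N * y := by
      have := P3_card_le S (q * (X - y)) (q * (X + y)) (by nlinarith) (by
        intro b hb
        have hb2 := (Finset.mem_filter.mp hb).2
        rw [abs_le] at hb2
        have e1 : (b : ℝ) = q * ((b : ℝ) / q) := by field_simp
        constructor
        · rw [e1]
          apply mul_le_mul_of_nonneg_left _ hq0.le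
          linarith [hb2.1]
        · rw [e1]
          apply mul_le_mul_of_nonneg_left _ hq0.le
          linarith [hb2.2])
      have h5 : q * (X + y) - q * (X - y) = 2 * q * y := by ring
      rw [h5] at this
      have h6 : q * y ≤ 4 * N * y := mul_le_mul_of_nonneg_right hq4 hy0.le
      nlinarith
    calc ‖∑ b ∈ S, (if om y q b then osc A T (dh X Y y ((b : ℝ) / q)) (dh X' Y' y ((b : ℝ) / q))
          else 0)‖ ≤ ∑ b ∈ S, B0 ^ 2 := by
          apply norm_sum_le_of_le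
          intro b _
          split_ifs
          · exact P3_osc_norm A hA T _ _
          · rw [norm_zero]; positivity
      _ = S.card * B0 ^ 2 := by rw [Finset.sum_const, nsmul_eq_mul]
      _ ≤ 28 * N * y * B0 ^ 2 := mul_le_mul_of_nonneg_right hcard (by positivity)
  unfold PS
  calc ‖∑ q ∈ Finset.Ioc N (4 * N), ∑ b ∈ Finset.Icc (-M) M,
      (if om y q b then osc A T (dh X Y y ((b : ℝ) / q)) (dh X' Y' y ((b : ℝ) / q)) else 0)‖
      ≤ ∑ q ∈ Finset.Ioc N (4 * N), 28 * N * y * B0 ^ 2 := norm_sum_le_of_le _ key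
    _ = 84 * ((N : ℝ) ^ 2 * y) * B0 ^ 2 := by
      rw [Finset.sum_const, nsmul_eq_mul, Nat.card_Ioc]
      have : ((4 * N - N : ℕ) : ℝ) = 3 * N := by
        have h : 4 * N - N = 3 * N := by omega
        rw [h]; push_cast; ring
      rw [this]
      ring

/-- distance in coordinates -/
lemma P3_cosh (z w : ℍ) : Real.cosh (dist z w) =
    1 + ((w.re - z.re) ^ 2 + (w.im - z.im) ^ 2) / (2 * z.im * w.im) := by
  rw [UpperHalfPlane.cosh_dist']
  have h1 := z.im_pos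
  have h2 := w.im_pos
  field_simp
  ring

lemma P3_dist (z w : ℍ) : dist z w = dh z.re z.im w.im w.re := by
  unfold dh
  rw [← P3_cosh, Real.arcosh_cosh dist_nonneg]

theorem dist_VV (w z : ℍ) (c e : ℤ × ℤ) (q : ℕ) (b : ℤ) :
    dist w (VV c e q b z) =
      dh (((sec c)⁻¹ • w).re - ((sec e)⁻¹ • z).re) (ht c w) (ht e z) ((b : ℝ) / q) := by
  unfold VV
  rw [dist_sl', P3_dist]
  unfold dh ht
  rw [UpperHalfPlane.vadd_re, UpperHalfPlane.vadd_im]
  congr 3
  ring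

theorem ZZ_eq (A : ℝ → ℂ) (T : ℝ) (N : ℕ) (M : ℤ) (w w' z : ℍ) (c e : ℤ × ℤ) :
    ZZ A T N M w w' z c e = PS A T N M (((sec c)⁻¹ • w).re - ((sec e)⁻¹ • z).re) (ht c w)
      (((sec c)⁻¹ • w').re - ((sec e)⁻¹ • z).re) (ht c w') (ht e z) := by
  unfold ZZ PS
  simp only [dist_VV]

lemma P3_cosh_ge (x : ℝ) (hx : 0 ≤ x) : 1 + x ^ 2 / 2 ≤ Real.cosh x := by
  have h1 : Real.cosh x = 1 + 2 * Real.sinh (x / 2) ^ 2 := by
    have h2 : x = 2 * (x / 2) := by ring
    conv_lhs => rw [h2]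
    rw [Real.cosh_two_mul, Real.cosh_sq]
    ring
  have h3 : x / 2 ≤ Real.sinh (x / 2) := Real.self_le_sinh_iff.mpr (by positivity)
  have h4 : (x / 2) ^ 2 ≤ Real.sinh (x / 2) ^ 2 := pow_le_pow_left₀ (by positivity) h3 2
  rw [h1]
  nlinarith

/-- the distance of two points bounds the distance of their images -/
theorem dist_coord {μ : ℝ} (hμ : 0 ≤ μ) (w w' : ℍ) (h : μ ≤ dist w w') (c : ℤ × ℤ) (t : ℝ) :
    μ ^ 2 * (ht c w * ht c w') ≤ ((((sec c)⁻¹ • w).re - t) - (((sec c)⁻¹ • w').re - t)) ^ 2 +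
      (ht c w - ht c w') ^ 2 := by
  have h1 : dist w w' = dist ((sec c)⁻¹ • w) ((sec c)⁻¹ • w') := by
    have := dist_sl' (sec c) w ((sec c)⁻¹ • w')
    rw [smul_inv_smul] at this
    exact this
  rw [h1] at h
  set u := (sec c)⁻¹ • w with hu
  set v := (sec c)⁻¹ • w' with hv
  have hc := P3_cosh_ge (dist u v) dist_nonneg
  rw [P3_cosh] at hc
  have hu0 := u.im_pos
  have hv0 := v.im_pos
  have h2 : μ ^ 2 ≤ dist u v ^ 2 := pow_le_pow_left₀ hμ h 2
  have h3 : μ ^ 2 / 2 ≤ ((v.re - u.re) ^ 2 + (v.im - u.im) ^ 2) / (2 * u.im * v.im) := by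
    linarith
  rw [le_div_iff₀ (by positivity)] at h3
  unfold ht
  rw [← hu, ← hv]
  nlinarith

end Pool.Agent.H19.Sup
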