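import Mathlib
import Pool.Agent.H19.Sup.Defs2

set_option autoImplicit false

/-!
# NR2: the near part of the geometric side

Follow `Maass.total_sq` (and `Maass/Sum.lean`) with `φ = phn C T j0 L`.  For the scale `j` (`S = 6 / 16^j`, weight `C √T 2^j`), `√S ≤ 5/2 * 4^(-j)` (`Maass.sqrt_six_div`):
term 1: `N^(-2) * 2 C2 (16N²)^(1+ε) ((1 + 40 N² / 4^j)² + 40 N² y / 4^j) C √T 2^j ≤ C' C (1 + y) N^(2ε) √T (2^j + N² 2^(-j) + N⁴ 8^(-j))`,
sum over `j0 ≤ j ≤ L`: `≤ C'' C (1 + y) N^(2ε) (T + √T N² + √T N⁴ 8^(-j0))` (`2^L ≤ 2 √T`);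
term 2: `N^(-1) (3N) C2 (4N)^(1+ε) (...)`, term 3: `3 N ct φ 1`, all smaller than `N^(2ε) (N T + √T N² + √T N⁴ 8^(-j0) + N⁴)`;
the part `C ic (s ≤ 1)` gives `N^(2ε) N⁴ (1 + y)`.
-/

namespace Pool.Agent.H19.Sup

open UpperHalfPlane
open Pool.Agent.H19.Maass
open scoped MatrixGroups ENNReal

lemma NR2_ct (C T : ℝ) (j0 L : ℕ) (n : ℤ) (z : ℍ) :
    ct (phn C T j0 L) n z = ENNReal.ofReal C * ∑' β : Z4, ic (det4 β = n ∧ sf4 β z ≤ 1) +
      ∑ j ∈ Finset.Icc j0 L, ENNReal.ofReal (C * √T * 2 ^ j) *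
        ∑' β : Z4, ic (det4 β = n ∧ sf4 β z ≤ 6 / 16 ^ j) := by
  unfold ct phn
  simp_rw [mul_add]
  rw [ENNReal.tsum_add]
  congr 1
  · rw [← ENNReal.tsum_mul_left]
    refine tsum_congr fun β => ?_
    rw [ic_and]
    ring
  · simp_rw [Finset.mul_sum]
    rw [Summable.tsum_finsetSum (fun _ _ => ENNReal.summable)]
    refine Finset.sum_congr rfl fun j _ => ?_
    rw [← ENNReal.tsum_mul_left]
    refine tsum_congr fun β => ?_
    rw [ic_and]
    ring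

lemma NR2_geom_two (j0 L : ℕ) : ∑ j ∈ Finset.Icc j0 L, (2 : ℝ) ^ j ≤ 2 * 2 ^ L := by
  refine le_trans ?_ (geom_two_le L)
  refine Finset.sum_le_sum_of_subset_of_nonneg ?_ fun _ _ _ => by positivity
  intro j hj
  rw [Finset.mem_Icc] at hj
  rw [Finset.mem_range]
  omega

lemma NR2_geom_half (j0 L : ℕ) : ∑ j ∈ Finset.Icc j0 L, (1 / 2 : ℝ) ^ j ≤ 2 := by
  refine le_trans ?_ (geom_half_le L)
  refine Finset.sum_le_sum_of_subset_of_nonneg ?_ fun _ _ _ => by positivity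
  intro j hj
  rw [Finset.mem_Icc] at hj
  rw [Finset.mem_range]
  omega

lemma NR2_geom_eighth (j0 L : ℕ) : ∑ j ∈ Finset.Icc j0 L, (1 / 8 : ℝ) ^ j ≤ 2 / 8 ^ j0 := by
  have e0 : (2 : ℝ) / 8 ^ j0 = 2 * (1 / 8) ^ j0 := by
    rw [one_div, inv_pow, div_eq_mul_inv]
  have h : ∀ n : ℕ, ∑ j ∈ Finset.Ico j0 (j0 + n), (1 / 8 : ℝ) ^ j ≤
      2 * (1 / 8) ^ j0 - 2 * (1 / 8) ^ (j0 + n) := by
    intro n
    induction n with
    | zero => simp
    | succ n ih =>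
      rw [← add_assoc, Finset.sum_Ico_succ_top (by omega), pow_succ]
      have : (0 : ℝ) ≤ (1 / 8) ^ (j0 + n) := by positivity
      linarith
  rw [e0]
  by_cases hj : j0 ≤ L + 1
  · obtain ⟨n, hn⟩ := Nat.exists_eq_add_of_le hj
    have h1 := h n
    rw [← hn] at h1
    have h2 : Finset.Icc j0 L = Finset.Ico j0 (L + 1) := by
      ext j; rw [Finset.mem_Icc, Finset.mem_Ico]; omega
    rw [h2]
    have : (0 : ℝ) ≤ (1 / 8) ^ (L + 1) := by positivity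
    linarith
  · rw [Finset.Icc_eq_empty (by omega)]
    simp

/-- weighted counts for square determinants -/
theorem NR2_count (ε : ℝ) (hε : 0 < ε) : ∃ C' : ℝ, 0 < C' ∧ ∀ (z : ℍ), |z.re| ≤ 1 / 2 →
    1 / 2 ≤ z.im → ∀ (C T : ℝ), 0 ≤ C → 1 ≤ T → ∀ j0 L : ℕ, (2 : ℝ) ^ L ≤ 2 * √T →
    ∀ X : ℕ, 1 ≤ X → ∑ D ∈ Finset.Icc 1 X, ct (phn C T j0 L) ((D : ℤ) ^ 2) z ≤
      ENNReal.ofReal (C' * C * (X * (X : ℝ) ^ ε) *
        (T + √T * X ^ 2 / 8 ^ j0 + √T * X * z.im + X ^ 2 + X * z.im)) := by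
  obtain ⟨C', hC', hcount⟩ := count_sq ε hε
  refine ⟨24 * C', by positivity, ?_⟩
  intro z hx hy C T hC hT j0 L hL X hX
  have hX1 : (1 : ℝ) ≤ X := by exact_mod_cast hX
  have hX0 : (0 : ℝ) ≤ X := Nat.cast_nonneg X
  have hT0 : 0 ≤ √T := Real.sqrt_nonneg T
  have hTT : √T * √T = T := Real.mul_self_sqrt (by linarith)
  have hXe : 0 ≤ (X : ℝ) ^ ε := Real.rpow_nonneg hX0 ε
  have hy0 := z.im_pos
  set K : ℝ := X * (X : ℝ) ^ ε with hK
  have hK0 : 0 ≤ K := by positivity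
  have hsum : ∑ D ∈ Finset.Icc 1 X, ct (phn C T j0 L) ((D : ℤ) ^ 2) z =
      ENNReal.ofReal C * ∑ D ∈ Finset.Icc 1 X, ∑' β : Z4, ic (det4 β = (D : ℤ) ^ 2 ∧ sf4 β z ≤ 1) +
      ∑ j ∈ Finset.Icc j0 L, ENNReal.ofReal (C * √T * 2 ^ j) *
        ∑ D ∈ Finset.Icc 1 X, ∑' β : Z4, ic (det4 β = (D : ℤ) ^ 2 ∧ sf4 β z ≤ 6 / 16 ^ j) := by
    simp_rw [NR2_ct]
    rw [Finset.sum_add_distrib, ← Finset.mul_sum]
    congr 1
    rw [Finset.sum_comm]
    refine Finset.sum_congr rfl fun j _ => ?_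
    rw [Finset.mul_sum]
  rw [hsum]
  have h1 : ENNReal.ofReal C * ∑ D ∈ Finset.Icc 1 X,
      ∑' β : Z4, ic (det4 β = (D : ℤ) ^ 2 ∧ sf4 β z ≤ 1) ≤
      ENNReal.ofReal (C * (C' * (K * (4 * X ^ 2 + X * z.im)))) := by
    rw [ENNReal.ofReal_mul hC]
    refine mul_le_mul_right ?_ _
    refine (hcount z hx hy 1 (by norm_num) (by norm_num) X hX).trans ?_
    refine ENNReal.ofReal_le_ofReal ?_
    rw [Real.sqrt_one, one_mul]
    refine mul_le_mul_of_nonneg_left ?_ hC'.le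
    refine mul_le_mul_of_nonneg_left ?_ hK0
    nlinarith
  have h2 : ∀ j ∈ Finset.Icc j0 L, ENNReal.ofReal (C * √T * 2 ^ j) *
      ∑ D ∈ Finset.Icc 1 X, ∑' β : Z4, ic (det4 β = (D : ℤ) ^ 2 ∧ sf4 β z ≤ 6 / 16 ^ j) ≤
      ENNReal.ofReal (C * √T * (C' * K * (2 * 2 ^ j + 12 * X ^ 2 * (1 / 8) ^ j +
        5 / 2 * (X * z.im) * (1 / 2) ^ j))) := by
    intro j _
    refine (mul_le_mul_right (hcount z hx hy (6 / 16 ^ j) (by positivity)
      (div_le_self (by norm_num) (one_le_pow₀ (by norm_num))) X hX) _).trans ?_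
    rw [← ENNReal.ofReal_mul (by positivity)]
    refine ENNReal.ofReal_le_ofReal ?_
    set r := √(6 / 16 ^ j) with hr
    have hr0 : 0 ≤ r := Real.sqrt_nonneg _
    have hr2 : r ^ 2 = 6 / 16 ^ j := Real.sq_sqrt (by positivity)
    have hr3 : r ≤ 5 / 2 * (1 / 4) ^ j := sqrt_six_div j
    have e1 : (2 : ℝ) ^ j * (1 / 4) ^ j = (1 / 2) ^ j := by rw [← mul_pow]; norm_num
    have e2 : (2 : ℝ) ^ j * r ^ 2 = 6 * (1 / 8) ^ j := by
      rw [hr2]
      have : (2 : ℝ) ^ j * (1 / 16) ^ j = (1 / 8) ^ j := by rw [← mul_pow]; norm_num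
      rw [← this, div_pow, one_pow]; ring
    have e3 : (2 : ℝ) ^ j * r ≤ 5 / 2 * (1 / 2) ^ j := by
      rw [← e1]
      have : (0 : ℝ) ≤ 2 ^ j := by positivity
      nlinarith
    have e4 : (1 + r * X) ^ 2 ≤ 2 + 2 * (r ^ 2 * X ^ 2) := by nlinarith [sq_nonneg (r * X - 1)]
    have e5 : (2 : ℝ) ^ j * ((1 + r * X) ^ 2 + r * X * z.im) ≤
        2 * 2 ^ j + 12 * X ^ 2 * (1 / 8) ^ j + 5 / 2 * (X * z.im) * (1 / 2) ^ j := by
      have f1 : (2 : ℝ) ^ j * (1 + r * X) ^ 2 ≤ 2 ^ j * (2 + 2 * (r ^ 2 * X ^ 2)) :=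
        mul_le_mul_of_nonneg_left e4 (by positivity)
      have f2 : (2 : ℝ) ^ j * (2 + 2 * (r ^ 2 * X ^ 2)) = 2 * 2 ^ j + 12 * X ^ 2 * (1 / 8) ^ j := by
        calc (2 : ℝ) ^ j * (2 + 2 * (r ^ 2 * X ^ 2)) = 2 * 2 ^ j + 2 * (2 ^ j * r ^ 2) * X ^ 2 := by
              ring
          _ = _ := by rw [e2]; ring
      have f3 : (2 : ℝ) ^ j * (r * X * z.im) ≤ 5 / 2 * (X * z.im) * (1 / 2) ^ j := by
        calc (2 : ℝ) ^ j * (r * X * z.im) = 2 ^ j * r * (X * z.im) := by ring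
          _ ≤ 5 / 2 * (1 / 2) ^ j * (X * z.im) := mul_le_mul_of_nonneg_right e3 (by positivity)
          _ = _ := by ring
      calc (2 : ℝ) ^ j * ((1 + r * X) ^ 2 + r * X * z.im)
          = 2 ^ j * (1 + r * X) ^ 2 + 2 ^ j * (r * X * z.im) := by ring
        _ ≤ _ := by linarith
    calc C * √T * 2 ^ j * (C' * (K * ((1 + r * X) ^ 2 + r * X * z.im)))
        = C * √T * (C' * K * (2 ^ j * ((1 + r * X) ^ 2 + r * X * z.im))) := by ring
      _ ≤ _ := by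
        refine mul_le_mul_of_nonneg_left ?_ (by positivity)
        exact mul_le_mul_of_nonneg_left e5 (by positivity)
  refine (add_le_add h1 (Finset.sum_le_sum h2)).trans ?_
  rw [← ENNReal.ofReal_sum_of_nonneg (fun j _ => by positivity),
    ← ENNReal.ofReal_add (by positivity) (Finset.sum_nonneg fun j _ => by positivity)]
  refine ENNReal.ofReal_le_ofReal ?_
  rw [← Finset.mul_sum, ← Finset.mul_sum, Finset.sum_add_distrib, Finset.sum_add_distrib,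
    ← Finset.mul_sum, ← Finset.mul_sum, ← Finset.mul_sum]
  have g1 := NR2_geom_two j0 L
  have g2 := NR2_geom_half j0 L
  have g3 := NR2_geom_eighth j0 L
  have g4 : (0 : ℝ) ≤ X * z.im := by positivity
  have g5 : √T * (2 * ∑ j ∈ Finset.Icc j0 L, (2 : ℝ) ^ j +
      12 * (X : ℝ) ^ 2 * ∑ j ∈ Finset.Icc j0 L, (1 / 8 : ℝ) ^ j +
      5 / 2 * (X * z.im) * ∑ j ∈ Finset.Icc j0 L, (1 / 2 : ℝ) ^ j) ≤
      8 * T + 24 * (√T * X ^ 2 / 8 ^ j0) + 5 * (√T * X * z.im) := by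
    calc √T * (2 * ∑ j ∈ Finset.Icc j0 L, (2 : ℝ) ^ j +
          12 * (X : ℝ) ^ 2 * ∑ j ∈ Finset.Icc j0 L, (1 / 8 : ℝ) ^ j +
          5 / 2 * (X * z.im) * ∑ j ∈ Finset.Icc j0 L, (1 / 2 : ℝ) ^ j)
        ≤ √T * (2 * (4 * √T) + 12 * (X : ℝ) ^ 2 * (2 / 8 ^ j0) + 5 / 2 * (X * z.im) * 2) := by
          gcongr
          linarith
      _ = 8 * (√T * √T) + 24 * (√T * X ^ 2 / 8 ^ j0) + 5 * (√T * X * z.im) := by ring
      _ = _ := by rw [hTT]
  have p1 : 0 ≤ T := by linarith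
  have p2 : 0 ≤ √T * (X : ℝ) ^ 2 / 8 ^ j0 := by positivity
  have p3 : 0 ≤ √T * X * z.im := by positivity
  have p4 : 0 ≤ (X : ℝ) ^ 2 := by positivity
  calc C * (C' * (K * (4 * X ^ 2 + X * z.im))) +
        C * √T * (C' * K * (2 * ∑ j ∈ Finset.Icc j0 L, (2 : ℝ) ^ j +
          12 * (X : ℝ) ^ 2 * ∑ j ∈ Finset.Icc j0 L, (1 / 8 : ℝ) ^ j +
          5 / 2 * (X * z.im) * ∑ j ∈ Finset.Icc j0 L, (1 / 2 : ℝ) ^ j))
      = C * C' * K * ((4 * X ^ 2 + X * z.im) + √T * (2 * ∑ j ∈ Finset.Icc j0 L, (2 : ℝ) ^ j +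
          12 * (X : ℝ) ^ 2 * ∑ j ∈ Finset.Icc j0 L, (1 / 8 : ℝ) ^ j +
          5 / 2 * (X * z.im) * ∑ j ∈ Finset.Icc j0 L, (1 / 2 : ℝ) ^ j)) := by ring
    _ ≤ C * C' * K * (24 * (T + √T * X ^ 2 / 8 ^ j0 + √T * X * z.im + X ^ 2 + X * z.im)) := by
        refine mul_le_mul_of_nonneg_left ?_ (by positivity)
        linarith
    _ = _ := by ring

theorem near_sum (ε : ℝ) (hε : 0 < ε) : ∃ C' : ℝ, 0 < C' ∧ ∀ z : ℍ, |z.re| ≤ 1 / 2 →
    1 / 2 ≤ z.im → ∀ (C T : ℝ), 0 ≤ C → 1 ≤ T → ∀ j0 L : ℕ, j0 ≤ L → (2 : ℝ) ^ L ≤ 2 * √T →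
    ∀ N : ℕ, 1 ≤ N →
    ∑ p ∈ PR N, ∑ q ∈ PR N, ENNReal.ofReal (1 / p * (1 / q)) *
        MM (phn C T j0 L) (p ^ 2) (q ^ 2) z ≤
      ENNReal.ofReal (C' * C * (1 + z.im) * ((N : ℝ) ^ (2 * ε) *
        (N * T + √T * N ^ 2 + √T * N ^ 4 / 8 ^ j0 + N ^ 4))) := by
  obtain ⟨C₂, hC₂, h2⟩ := NR2_count ε hε
  refine ⟨3 * (8192 * 16 ^ ε * C₂ + 240 * 4 ^ ε * C₂ + 6 * C₂), by positivity, ?_⟩
  intro z hx hy C T hC hT j0 L _ hL N hN
  have hNr : (1 : ℝ) ≤ N := by exact_mod_cast hN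
  have hN0 : (0 : ℝ) < N := by linarith
  have hT0 : 0 ≤ √T := Real.sqrt_nonneg T
  have hy0 := z.im_pos
  set φ := phn C T j0 L with hφ
  -- the three pieces
  have hpt : ∀ p ∈ PR N, ∀ q ∈ PR N, ENNReal.ofReal (1 / p * (1 / q)) * MM φ (p ^ 2) (q ^ 2) z ≤
      3 * (ENNReal.ofReal (1 / N ^ 2) * ct φ (((p * q : ℕ) : ℤ) ^ 2) z +
        ENNReal.ofReal (1 / N) * ct φ ((q : ℤ) ^ 2) z + if q = p then ct φ 1 z else 0) := by
    intro p hp q hq
    rw [mem_PR] at hp hq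
    obtain ⟨⟨hp1, _⟩, hpp⟩ := hp
    obtain ⟨⟨hq1, _⟩, hqq⟩ := hq
    have hp0 : (0 : ℝ) < p := by exact_mod_cast hpp.pos
    have hq0 : (0 : ℝ) < q := by exact_mod_cast hqq.pos
    have hpN : (N : ℝ) ≤ p := by exact_mod_cast hp1.le
    have hqN : (N : ℝ) ≤ q := by exact_mod_cast hq1.le
    refine (mul_le_mul_right (MM_sq_le φ hpp hqq z) _).trans ?_
    rw [← mul_assoc, mul_comm _ (3 : ℝ≥0∞), mul_assoc]
    refine mul_le_mul_right ?_ 3
    rw [mul_add, mul_add]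
    refine add_le_add (add_le_add ?_ ?_) ?_
    · refine mul_le_mul_left (ENNReal.ofReal_le_ofReal ?_) _
      rw [one_div_mul_one_div, sq]
      exact one_div_le_one_div_of_le (by positivity) (mul_le_mul hpN hqN hN0.le hp0.le)
    · rw [← mul_assoc]
      refine mul_le_mul_left ?_ _
      rw [← ENNReal.ofReal_natCast, ← ENNReal.ofReal_mul (by positivity)]
      refine ENNReal.ofReal_le_ofReal ?_
      rw [show 1 / (p : ℝ) * (1 / q) * p = 1 / q by field_simp]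
      exact one_div_le_one_div_of_le hN0 hqN
    · by_cases h : q = p
      · rw [if_pos h, if_pos h, ← mul_assoc]
        subst h
        have : ENNReal.ofReal (1 / (q : ℝ) * (1 / q)) * (q : ℝ≥0∞) ^ 2 = 1 := by
          rw [← ENNReal.ofReal_natCast, ← ENNReal.ofReal_pow hq0.le,
            ← ENNReal.ofReal_mul (by positivity), ← ENNReal.ofReal_one]
          congr 1
          field_simp
        rw [this, one_mul]
      · rw [if_neg h, if_neg h, mul_zero]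
  have hG : ∀ X : ℕ, 1 ≤ X → ∑ D ∈ Finset.Icc 1 X, ct φ ((D : ℤ) ^ 2) z ≤
      ENNReal.ofReal (C₂ * C * (X * (X : ℝ) ^ ε) *
        (T + √T * X ^ 2 / 8 ^ j0 + √T * X * z.im + X ^ 2 + X * z.im)) :=
    fun X hX => h2 z hx hy C T hC hT j0 L hL X hX
  have hB : ct φ 1 z ≤ ENNReal.ofReal (C₂ * C *
      (T + √T / 8 ^ j0 + √T * z.im + 1 + z.im)) := by
    have h3 := hG 1 le_rfl
    simpa only [Finset.Icc_self, Finset.sum_singleton, Nat.cast_one, one_pow, mul_one,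
      Real.one_rpow, one_mul] using h3
  have hs1 : ∑ p ∈ PR N, ∑ q ∈ PR N, ct φ (((p * q : ℕ) : ℤ) ^ 2) z ≤
      2 * ∑ D ∈ Finset.Icc (1 : ℕ) (16 * N ^ 2), ct φ ((D : ℤ) ^ 2) z :=
    sum_prod_le N (fun D => ct φ ((D : ℤ) ^ 2) z)
  have hs2 : ∑ q ∈ PR N, ct φ ((q : ℤ) ^ 2) z ≤
      ∑ D ∈ Finset.Icc (1 : ℕ) (4 * N), ct φ ((D : ℤ) ^ 2) z := by
    refine Finset.sum_le_sum_of_subset ?_
    intro q hq
    rw [mem_PR] at hq
    rw [Finset.mem_Icc]
    omega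
  have hcard : ((PR N).card : ℝ≥0∞) ≤ ENNReal.ofReal (3 * N) := by
    rw [← ENNReal.ofReal_natCast]
    refine ENNReal.ofReal_le_ofReal ?_
    exact_mod_cast card_PR_le N
  calc ∑ p ∈ PR N, ∑ q ∈ PR N, ENNReal.ofReal (1 / p * (1 / q)) * MM φ (p ^ 2) (q ^ 2) z
      ≤ ∑ p ∈ PR N, ∑ q ∈ PR N, 3 * (ENNReal.ofReal (1 / N ^ 2) * ct φ (((p * q : ℕ) : ℤ) ^ 2) z +
        ENNReal.ofReal (1 / N) * ct φ ((q : ℤ) ^ 2) z + if q = p then ct φ 1 z else 0) :=
        Finset.sum_le_sum fun p hp => Finset.sum_le_sum fun q hq => hpt p hp q hq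
    _ = 3 * (ENNReal.ofReal (1 / N ^ 2) * ∑ p ∈ PR N, ∑ q ∈ PR N, ct φ (((p * q : ℕ) : ℤ) ^ 2) z +
        ENNReal.ofReal (1 / N) * (((PR N).card : ℝ≥0∞) * ∑ q ∈ PR N, ct φ ((q : ℤ) ^ 2) z) +
        ((PR N).card : ℝ≥0∞) * ct φ 1 z) := by
        simp_rw [← Finset.mul_sum, Finset.sum_add_distrib, ← Finset.mul_sum]
        congr 3
        · rw [Finset.sum_const, nsmul_eq_mul]
        · rw [← nsmul_eq_mul, ← Finset.sum_const]
          refine Finset.sum_congr rfl fun p hp => ?_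
          rw [Finset.sum_ite_eq', if_pos hp]
    _ ≤ ENNReal.ofReal 3 * (ENNReal.ofReal (1 / N ^ 2) * (ENNReal.ofReal 2 * ENNReal.ofReal
          (C₂ * C * ((16 * N ^ 2 : ℕ) * ((16 * N ^ 2 : ℕ) : ℝ) ^ ε) *
            (T + √T * (16 * N ^ 2 : ℕ) ^ 2 / 8 ^ j0 + √T * (16 * N ^ 2 : ℕ) * z.im +
              (16 * N ^ 2 : ℕ) ^ 2 + (16 * N ^ 2 : ℕ) * z.im))) +
        ENNReal.ofReal (1 / N) * (ENNReal.ofReal (3 * N) * ENNReal.ofReal
          (C₂ * C * ((4 * N : ℕ) * ((4 * N : ℕ) : ℝ) ^ ε) *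
            (T + √T * (4 * N : ℕ) ^ 2 / 8 ^ j0 + √T * (4 * N : ℕ) * z.im +
              (4 * N : ℕ) ^ 2 + (4 * N : ℕ) * z.im))) +
        ENNReal.ofReal (3 * N) * ENNReal.ofReal (C₂ * C *
          (T + √T / 8 ^ j0 + √T * z.im + 1 + z.im))) := by
        rw [show (3 : ℝ≥0∞) = ENNReal.ofReal 3 by norm_num]
        gcongr
        · refine hs1.trans ?_
          rw [show (2 : ℝ≥0∞) = ENNReal.ofReal 2 by norm_num]
          gcongr
          exact hG _ (by nlinarith)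
        · exact hs2.trans (hG _ (by omega))
    _ = ENNReal.ofReal (3 * (1 / N ^ 2 * (2 *
          (C₂ * C * ((16 * N ^ 2 : ℕ) * ((16 * N ^ 2 : ℕ) : ℝ) ^ ε) *
            (T + √T * (16 * N ^ 2 : ℕ) ^ 2 / 8 ^ j0 + √T * (16 * N ^ 2 : ℕ) * z.im +
              (16 * N ^ 2 : ℕ) ^ 2 + (16 * N ^ 2 : ℕ) * z.im))) +
        1 / N * (3 * N *
          (C₂ * C * ((4 * N : ℕ) * ((4 * N : ℕ) : ℝ) ^ ε) *
            (T + √T * (4 * N : ℕ) ^ 2 / 8 ^ j0 + √T * (4 * N : ℕ) * z.im +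
              (4 * N : ℕ) ^ 2 + (4 * N : ℕ) * z.im))) +
        3 * N * (C₂ * C * (T + √T / 8 ^ j0 + √T * z.im + 1 + z.im)))) := by
        rw [← ENNReal.ofReal_mul (by positivity), ← ENNReal.ofReal_mul (by positivity),
          ← ENNReal.ofReal_mul (by positivity), ← ENNReal.ofReal_mul (by positivity),
          ← ENNReal.ofReal_mul (by positivity), ← ENNReal.ofReal_add (by positivity)
          (by positivity), ← ENNReal.ofReal_add (by positivity) (by positivity),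
          ← ENNReal.ofReal_mul (by positivity)]
    _ ≤ _ := by
        refine ENNReal.ofReal_le_ofReal ?_
        push_cast
        set E := (N : ℝ) ^ (2 * ε) with hE
        set y := z.im with hyd
        have hE1 : 1 ≤ E := Real.one_le_rpow hNr (by positivity)
        have hE16 : (16 * (N : ℝ) ^ 2) ^ ε = 16 ^ ε * E := by
          rw [Real.mul_rpow (by norm_num) (by positivity), hE, Real.rpow_mul hN0.le]
          norm_cast
        have hE4 : (4 * (N : ℝ)) ^ ε ≤ 4 ^ ε * E := by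
          rw [Real.mul_rpow (by norm_num) (by positivity)]
          refine mul_le_mul_of_nonneg_left ?_ (by positivity)
          exact Real.rpow_le_rpow_of_exponent_le hNr (by linarith)
        rw [hE16]
        set J : ℝ := √T / 8 ^ j0 with hJ
        have hJ0 : 0 ≤ J := by positivity
        have hJe : ∀ X : ℝ, √T * X ^ 2 / 8 ^ j0 = J * X ^ 2 := fun X => by rw [hJ]; ring
        have hJe4 : √T * (N : ℝ) ^ 4 / 8 ^ j0 = J * N ^ 4 := by rw [hJ]; ring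
        rw [hJe, hJe, hJe4]
        have n1 : (1 : ℝ) ≤ N ^ 2 := one_le_pow₀ hNr
        have n12 : (N : ℝ) ≤ N ^ 2 := by nlinarith
        have n24 : (N : ℝ) ^ 2 ≤ N ^ 4 := pow_le_pow_right₀ hNr (by norm_num)
        have n34 : (N : ℝ) ^ 3 ≤ N ^ 4 := pow_le_pow_right₀ hNr (by norm_num)
        have n14 : (N : ℝ) ≤ N ^ 4 := n12.trans n24
        have hTN : T ≤ N * T := by nlinarith
        have q1 : 0 ≤ (N : ℝ) * T := by positivity
        have q2 : 0 ≤ √T * (N : ℝ) ^ 2 := by positivity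
        have q3 : 0 ≤ J * (N : ℝ) ^ 4 := by positivity
        have q4 : 0 ≤ (N : ℝ) ^ 4 := by positivity
        set V := N * T + √T * N ^ 2 + J * N ^ 4 + N ^ 4 with hV
        have hV0 : 0 ≤ V := by positivity
        have a1 : T + J * (16 * N ^ 2) ^ 2 + √T * (16 * N ^ 2) * y + (16 * N ^ 2) ^ 2 +
            16 * N ^ 2 * y ≤ 256 * ((1 + y) * V) := by
          have b1 : (N : ℝ) ^ 2 * y ≤ N ^ 4 * y := by gcongr
          have b2 : 0 ≤ (N : ℝ) * T * y := by positivity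
          have b3 : 0 ≤ √T * (N : ℝ) ^ 2 * y := by positivity
          have b4 : 0 ≤ J * (N : ℝ) ^ 4 * y := by positivity
          have b5 : 0 ≤ (N : ℝ) ^ 4 * y := by positivity
          rw [hV]
          nlinarith
        have a2 : N * (T + J * (4 * N) ^ 2 + √T * (4 * N) * y + (4 * N) ^ 2 + 4 * N * y) ≤
            20 * ((1 + y) * V) := by
          have b1 : J * (N : ℝ) ^ 3 ≤ J * N ^ 4 := by gcongr
          have b2 : (N : ℝ) ^ 2 * y ≤ N ^ 4 * y := by gcongr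
          have b3 : 0 ≤ (N : ℝ) * T * y := by positivity
          have b4 : 0 ≤ √T * (N : ℝ) ^ 2 * y := by positivity
          have b5 : 0 ≤ J * (N : ℝ) ^ 4 * y := by positivity
          have b6 : 0 ≤ (N : ℝ) ^ 4 * y := by positivity
          calc N * (T + J * (4 * N) ^ 2 + √T * (4 * N) * y + (4 * N) ^ 2 + 4 * N * y)
              = N * T + 16 * (J * N ^ 3) + 4 * (√T * N ^ 2 * y) + 16 * N ^ 3 +
                4 * (N ^ 2 * y) := by ring
            _ ≤ N * T + 16 * (J * N ^ 4) + 4 * (√T * N ^ 2 * y) + 16 * N ^ 4 +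
                4 * (N ^ 4 * y) := by linarith
            _ ≤ 20 * (N * T + √T * N ^ 2 + J * N ^ 4 + N ^ 4 + N * T * y + √T * N ^ 2 * y +
                J * N ^ 4 * y + N ^ 4 * y) := by linarith
            _ = _ := by rw [hV]; ring
        have a3 : N * (T + J + √T * y + 1 + y) ≤ 2 * ((1 + y) * V) := by
          have b1 : √T * (N * y) ≤ √T * (N ^ 2 * y) := by gcongr
          have b2 : (N : ℝ) * y ≤ N ^ 4 * y := by gcongr
          have b3 : J * (N : ℝ) ≤ J * N ^ 4 := by gcongr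
          have b4 : 0 ≤ (N : ℝ) * T * y := by positivity
          have b5 : 0 ≤ √T * (N : ℝ) ^ 2 * y := by positivity
          have b6 : 0 ≤ J * (N : ℝ) ^ 4 * y := by positivity
          have b7 : 0 ≤ (N : ℝ) ^ 4 * y := by positivity
          calc N * (T + J + √T * y + 1 + y)
              = N * T + J * N + √T * (N * y) + N + N * y := by ring
            _ ≤ N * T + J * N ^ 4 + √T * (N ^ 2 * y) + N ^ 4 + N ^ 4 * y := by linarith
            _ ≤ 2 * (N * T + √T * N ^ 2 + J * N ^ 4 + N ^ 4 + N * T * y + √T * N ^ 2 * y +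
                J * N ^ 4 * y + N ^ 4 * y) := by linarith
            _ = _ := by rw [hV]; ring
        set W := (1 + y) * V with hW
        have hW0 : 0 ≤ W := by positivity
        have c1 : 1 / (N : ℝ) ^ 2 * (2 * (C₂ * C * (16 * N ^ 2 * (16 ^ ε * E)) *
            (T + J * (16 * N ^ 2) ^ 2 + √T * (16 * N ^ 2) * y + (16 * N ^ 2) ^ 2 +
              16 * N ^ 2 * y))) ≤
            8192 * 16 ^ ε * C₂ * (C * E * W) := by
          calc 1 / (N : ℝ) ^ 2 * (2 * (C₂ * C * (16 * N ^ 2 * (16 ^ ε * E)) *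
              (T + J * (16 * N ^ 2) ^ 2 + √T * (16 * N ^ 2) * y + (16 * N ^ 2) ^ 2 +
                16 * N ^ 2 * y)))
              = 32 * 16 ^ ε * C₂ * C * E *
                (T + J * (16 * N ^ 2) ^ 2 + √T * (16 * N ^ 2) * y + (16 * N ^ 2) ^ 2 +
                  16 * N ^ 2 * y) := by
                field_simp; ring
            _ ≤ 32 * 16 ^ ε * C₂ * C * E * (256 * W) :=
                mul_le_mul_of_nonneg_left a1 (by positivity)
            _ = _ := by ring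
        have c2 : 1 / (N : ℝ) * (3 * N * (C₂ * C * (4 * N * (4 * N) ^ ε) *
            (T + J * (4 * N) ^ 2 + √T * (4 * N) * y + (4 * N) ^ 2 + 4 * N * y))) ≤
            240 * 4 ^ ε * C₂ * (C * E * W) := by
          calc 1 / (N : ℝ) * (3 * N * (C₂ * C * (4 * N * (4 * N) ^ ε) *
              (T + J * (4 * N) ^ 2 + √T * (4 * N) * y + (4 * N) ^ 2 + 4 * N * y)))
              = 12 * C₂ * C * (4 * N) ^ ε * (N *
                (T + J * (4 * N) ^ 2 + √T * (4 * N) * y + (4 * N) ^ 2 + 4 * N * y)) := by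
                field_simp; ring
            _ ≤ 12 * C₂ * C * (4 ^ ε * E) * (20 * W) := by
                gcongr
            _ = _ := by ring
        have c3 : 3 * N * (C₂ * C * (T + J + √T * y + 1 + y)) ≤ 6 * C₂ * (C * E * W) := by
          calc 3 * N * (C₂ * C * (T + J + √T * y + 1 + y)) =
                3 * C₂ * C * (N * (T + J + √T * y + 1 + y)) := by ring
            _ ≤ 3 * C₂ * C * (2 * W) := mul_le_mul_of_nonneg_left a3 (by positivity)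
            _ ≤ 3 * C₂ * C * (2 * W) * E := le_mul_of_one_le_right (by positivity) hE1
            _ = _ := by ring
        calc _ ≤ 3 * (8192 * 16 ^ ε * C₂ * (C * E * W) + 240 * 4 ^ ε * C₂ * (C * E * W) +
              6 * C₂ * (C * E * W)) := by
              refine mul_le_mul_of_nonneg_left ?_ (by norm_num)
              exact add_le_add (add_le_add c1 c2) c3
          _ = _ := by rw [hW]; ring

end Pool.Agent.H19.Sup
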