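import Mathlib
import Pool.Agent.H19.Sup.Defs

set_option autoImplicit false

/-!
# N1: the derivatives of the phase

`N1a`.  `dh 0 Y 1 ξ = arcosh ((ξ² + 1 + Y²) / (2 Y))`, derivative `2 ξ / √((ξ²+(1-Y)²)(ξ²+(1+Y)²))`
where the radicand is positive.  With `ξ = m/n`, `ξ' = D / n²` (`D = m1 n0 - m0 n1`),
`R1 = n⁴ (ξ²+(1-Y)²)(ξ²+(1+Y)²)`: the derivative of `dh 0 Y 1 (m/n)` is
`2 D m n / (n² √R1) = n⁻¹ (2 D m) R1^(-1/2)`, i.e. the first half of `H 1` with `al _ _ 0`.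
The second half is the same with `m' = m - Δ n` (`m'/n = m/n - Δ`, same `D`).

`N1b`.  For `j ≥ 0`: `d/du [n^-(j+1) a R^(1/2-(j+1))] =
n^-(j+2) R^(1/2-(j+2)) [n R a' - (j+1) n1 R a + (1/2-(j+1)) n R' a]`.
(General lemma for a polynomial `R` and `a`, then use it twice.)
-/

namespace Pool.Agent.H19.Sup

open Polynomial

/-- the general step of `N1b` -/
theorem N1_step (p : Par) (R a : ℝ[X]) (j : ℕ) {u : ℝ} (hn : 0 < p.n.eval u)
    (hR : 0 < R.eval u) :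
    HasDerivAt (fun v => (p.n.eval v ^ (j + 1))⁻¹ *
      ((p.al R a j).eval v * (R.eval v) ^ (1 / 2 - (j + 1 : ℝ))))
      ((p.n.eval u ^ (j + 2))⁻¹ *
        ((p.al R a (j + 1)).eval u * (R.eval u) ^ (1 / 2 - (((j + 1 : ℕ) : ℝ) + 1)))) u := by
  have hnd : derivative p.n = C p.n1 := by
    simp [Par.n]
  have h1 : HasDerivAt (fun v => p.n.eval v) p.n1 u := by
    have := p.n.hasDerivAt u
    rw [hnd, eval_C] at this
    exact this
  have h2 := (h1.pow (j + 1)).inv (pow_pos hn (j + 1)).ne'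
  have h3 := (p.al R a j).hasDerivAt u
  have h4 := (R.hasDerivAt u).rpow_const (p := 1 / 2 - (j + 1 : ℝ)) (Or.inl hR.ne')
  have h5 := h2.mul (h3.mul h4)
  refine h5.congr_deriv ?_
  have e1 : (1 / 2 - (((j + 1 : ℕ) : ℝ) + 1)) = (1 / 2 - ((j : ℝ) + 1)) - 1 := by
    push_cast; ring
  have e2 : (R.eval u) ^ (1 / 2 - ((j : ℝ) + 1)) =
      (R.eval u) ^ ((1 / 2 - ((j : ℝ) + 1)) - 1) * R.eval u := by
    rw [Real.rpow_sub_one hR.ne']
    field_simp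
  rw [e1]
  have e3 : (p.al R a (j + 1)).eval u = p.n.eval u * R.eval u * (derivative (p.al R a j)).eval u -
      ((j : ℝ) + 1) * p.n1 * R.eval u * (p.al R a j).eval u +
      (1 / 2 - ((j : ℝ) + 1)) * p.n.eval u * (derivative R).eval u * (p.al R a j).eval u := by
    simp only [Par.al, eval_add, eval_sub, eval_mul, eval_C]
  rw [e3]
  simp only [Pi.mul_apply, Pi.inv_apply, Pi.pow_apply]
  rw [e2]
  set Q := (R.eval u) ^ ((1 / 2 - ((j : ℝ) + 1)) - 1)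
  have hn' := hn.ne'
  push_cast
  field_simp
  ring

theorem N1_dh {Y : ℝ} (hY : 0 < Y) {f : ℝ → ℝ} {D u M N : ℝ} (hN : 0 < N)
    (hf : HasDerivAt f (D / N ^ 2) u) (hfu : f u = M / N)
    (hR : 0 < (M ^ 2 + (1 - Y) ^ 2 * N ^ 2) * (M ^ 2 + (1 + Y) ^ 2 * N ^ 2)) :
    HasDerivAt (fun v => dh 0 Y 1 (f v)) (N⁻¹ * (2 * D * M *
      ((M ^ 2 + (1 - Y) ^ 2 * N ^ 2) * (M ^ 2 + (1 + Y) ^ 2 * N ^ 2)) ^ ((1 : ℝ) / 2 - 1))) u := by
  set R := (M ^ 2 + (1 - Y) ^ 2 * N ^ 2) * (M ^ 2 + (1 + Y) ^ 2 * N ^ 2) with hRdef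
  have hN' := hN.ne'
  have hY' := hY.ne'
  set c := 1 + ((f u) ^ 2 + (1 - Y) ^ 2) / (2 * Y) with hc
  have hc2 : c ^ 2 - 1 = R / (2 * Y * N ^ 2) ^ 2 := by
    rw [hc, hfu, hRdef]
    field_simp
    ring
  have hden : 0 < 2 * Y * N ^ 2 := by positivity
  have hsq : √(c ^ 2 - 1) = √R / (2 * Y * N ^ 2) := by
    rw [hc2, Real.sqrt_div hR.le, Real.sqrt_sq hden.le]
  have hc1 : 1 ≤ c := by
    rw [hc]
    have : 0 ≤ ((f u) ^ 2 + (1 - Y) ^ 2) / (2 * Y) := by positivity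
    linarith
  have hcpos : 0 < c ^ 2 - 1 := by
    rw [hc2]; positivity
  have hc1' : c ∈ Set.Ioi (1 : ℝ) := by
    rcases hc1.lt_or_eq with h | h
    · exact h
    · rw [← h] at hcpos; norm_num at hcpos
  have hd1 : HasDerivAt (fun v => 1 + ((f v) ^ 2 + (1 - Y) ^ 2) / (2 * Y))
      ((2 * f u * (D / N ^ 2)) / (2 * Y)) u := by
    have h1 := ((hf.pow 2).add_const ((1 - Y) ^ 2)).div_const (2 * Y)
    have h2 := h1.const_add 1
    refine h2.congr_deriv ?_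
    simp
  have hd2 := (Real.hasDerivAt_arcosh hc1').comp u hd1
  have hfun : (fun v => dh 0 Y 1 (f v)) =
      (Real.arcosh ∘ fun v => 1 + ((f v) ^ 2 + (1 - Y) ^ 2) / (2 * Y)) := by
    funext v
    simp [dh]
  rw [hfun]
  refine hd2.congr_deriv ?_
  rw [hsq, hfu]
  have hpow : R ^ ((1 : ℝ) / 2 - 1) = (√R)⁻¹ := by
    rw [show (1 : ℝ) / 2 - 1 = -(1 / 2) by norm_num, Real.rpow_neg hR.le, ← Real.sqrt_eq_rpow]
  rw [hpow]
  have hs : √R ≠ 0 := (Real.sqrt_pos.2 hR).ne'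
  field_simp

theorem Par.hasDerivAt_zero (p : Par) (hY : 0 < p.Y) (hY' : 0 < p.Y') {u : ℝ}
    (hn : 0 < p.n.eval u) (h1 : 0 < p.R1.eval u) (h2 : 0 < p.R2.eval u) :
    HasDerivAt (p.H 0) (p.H 1 u) u := by
  have hxi : HasDerivAt (fun v => p.m.eval v / p.n.eval v) (p.D / (p.n.eval u) ^ 2) u := by
    have hm := p.m.hasDerivAt u
    have hn2 := p.n.hasDerivAt u
    have h := hm.div hn2 hn.ne'
    refine h.congr_deriv ?_
    congr 1
    simp [Par.m, Par.n, Par.D]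
    ring
  have e1 : p.R1.eval u = ((p.m.eval u) ^ 2 + (1 - p.Y) ^ 2 * (p.n.eval u) ^ 2) *
      ((p.m.eval u) ^ 2 + (1 + p.Y) ^ 2 * (p.n.eval u) ^ 2) := by
    simp [Par.R1]
  have e2 : p.R2.eval u = ((p.m'.eval u) ^ 2 + (1 - p.Y') ^ 2 * (p.n.eval u) ^ 2) *
      ((p.m'.eval u) ^ 2 + (1 + p.Y') ^ 2 * (p.n.eval u) ^ 2) := by
    simp [Par.R2]
  have d1 := N1_dh hY (f := fun v => p.m.eval v / p.n.eval v) hn hxi rfl (e1 ▸ h1)
  have d2 := N1_dh hY' (f := fun v => p.m.eval v / p.n.eval v - p.Δ) (M := p.m'.eval u) hn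
    (hxi.sub_const p.Δ)
    (by
      have : p.m'.eval u = p.m.eval u - p.Δ * p.n.eval u := by simp [Par.m']
      rw [this]; field_simp [hn.ne'])
    (e2 ▸ h2)
  have d3 := d1.sub d2
  refine (HasDerivAt.congr_deriv (f := p.H 0) d3 ?_)
  show _ = (p.n.eval u ^ (0 + 1))⁻¹ *
      ((p.al1 0).eval u * (p.R1.eval u) ^ (1 / 2 - (((0 : ℕ) : ℝ) + 1)) -
        (p.al2 0).eval u * (p.R2.eval u) ^ (1 / 2 - (((0 : ℕ) : ℝ) + 1)))
  rw [e1, e2]
  simp only [Par.al1, Par.al2, Par.al, Par.a1, Par.a2, eval_mul, eval_C, Nat.cast_zero, zero_add,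
    pow_one]
  ring

theorem Par.hasDerivAt_succ (p : Par) (j : ℕ) {u : ℝ}
    (hn : 0 < p.n.eval u) (h1 : 0 < p.R1.eval u) (h2 : 0 < p.R2.eval u) :
    HasDerivAt (p.H (j + 1)) (p.H (j + 2) u) u := by
  have d1 := N1_step p p.R1 p.a1 j hn h1
  have d2 := N1_step p p.R2 p.a2 j hn h2
  have d3 := d1.sub d2
  have hfun : p.H (j + 1) = fun v => (p.n.eval v ^ (j + 1))⁻¹ *
      ((p.al p.R1 p.a1 j).eval v * (p.R1.eval v) ^ (1 / 2 - (j + 1 : ℝ))) -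
      (p.n.eval v ^ (j + 1))⁻¹ *
      ((p.al p.R2 p.a2 j).eval v * (p.R2.eval v) ^ (1 / 2 - (j + 1 : ℝ))) := by
    funext v
    simp only [Par.H, Par.al1, Par.al2]
    ring
  rw [hfun]
  refine d3.congr_deriv ?_
  simp only [Par.H, Par.al1, Par.al2]
  ring

end Pool.Agent.H19.Sup
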