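import Mathlib
import Pool.Agent.H19.Sup.Defs

set_option autoImplicit false

/-!
# N2: upper bounds for the derivatives of the phase

Proof.  All coefficients of `m, m', n, R1, R2, 2 D m, 2 D m'` are bounded by absolute constants (`Good`), so by
induction the coefficients of `al _ _ j` are bounded by a constant depending on `j` only (and
`natDegree (al _ _ j) ≤ 4 j + 1`); hence `|al (u)| ≤ C_j` for `|u| ≤ 40`.  One way to organise this:
define `bdd c q := ∀ i, |q.coeff i| ≤ c ∧ natDegree q ≤ d` and show it is stable under sum, product, derivative.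
Then `|H (j+1) u| ≤ n^-(j+1) * 2 C_j * (ρ²)^(1/2-(j+1)) ≤ C ρ^-(2j+1)` since `n ≥ 1`, `R1, R2 ≥ ρ²`.
-/

namespace Pool.Agent.H19.Sup

open Polynomial

/-- a family of polynomials with uniformly bounded degrees and coefficients -/
def N2_UB (q : Par → ℝ[X]) : Prop :=
  ∃ (c : ℝ) (d : ℕ), 0 ≤ c ∧ ∀ (p : Par) (μ : ℝ), p.Good μ →
    (q p).natDegree ≤ d ∧ ∀ i, |(q p).coeff i| ≤ c

theorem N2_UB.add {q r : Par → ℝ[X]} (hq : N2_UB q) (hr : N2_UB r) :
    N2_UB (fun p => q p + r p) := by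
  obtain ⟨c, d, hc, h⟩ := hq
  obtain ⟨c', d', hc', h'⟩ := hr
  refine ⟨c + c', max d d', by positivity, fun p μ hp => ⟨?_, fun i => ?_⟩⟩
  · exact le_trans (natDegree_add_le _ _) (max_le_max (h p μ hp).1 (h' p μ hp).1)
  · rw [coeff_add]
    exact le_trans (abs_add_le _ _) (add_le_add ((h p μ hp).2 i) ((h' p μ hp).2 i))

theorem N2_UB.neg {q : Par → ℝ[X]} (hq : N2_UB q) : N2_UB (fun p => - q p) := by
  obtain ⟨c, d, hc, h⟩ := hq
  refine ⟨c, d, hc, fun p μ hp => ⟨?_, fun i => ?_⟩⟩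
  · rw [natDegree_neg]; exact (h p μ hp).1
  · rw [coeff_neg, abs_neg]; exact (h p μ hp).2 i

theorem N2_UB.sub {q r : Par → ℝ[X]} (hq : N2_UB q) (hr : N2_UB r) :
    N2_UB (fun p => q p - r p) := by
  have := hq.add hr.neg
  simpa [sub_eq_add_neg] using this

theorem N2_UB.mul {q r : Par → ℝ[X]} (hq : N2_UB q) (hr : N2_UB r) :
    N2_UB (fun p => q p * r p) := by
  obtain ⟨c, d, hc, h⟩ := hq
  obtain ⟨c', d', hc', h'⟩ := hr
  refine ⟨(d + d' + 1) * (c * c'), d + d', by positivity, fun p μ hp => ⟨?_, fun i => ?_⟩⟩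
  · exact le_trans natDegree_mul_le (add_le_add (h p μ hp).1 (h' p μ hp).1)
  · have hdeg : (q p * r p).natDegree ≤ d + d' :=
      le_trans natDegree_mul_le (add_le_add (h p μ hp).1 (h' p μ hp).1)
    by_cases hi : i ≤ d + d'
    · rw [coeff_mul]
      calc |∑ x ∈ Finset.HasAntidiagonal.antidiagonal i, (q p).coeff x.1 * (r p).coeff x.2|
          ≤ ∑ x ∈ Finset.HasAntidiagonal.antidiagonal i, |(q p).coeff x.1 * (r p).coeff x.2| :=
            Finset.abs_sum_le_sum_abs _ _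
        _ ≤ ∑ x ∈ Finset.HasAntidiagonal.antidiagonal i, c * c' := by
            refine Finset.sum_le_sum fun x _ => ?_
            rw [abs_mul]
            exact mul_le_mul ((h p μ hp).2 _) ((h' p μ hp).2 _) (abs_nonneg _) hc
        _ = (i + 1 : ℝ) * (c * c') := by
            rw [Finset.sum_const, Finset.Nat.card_antidiagonal, nsmul_eq_mul]
            push_cast; ring
        _ ≤ (d + d' + 1) * (c * c') := by
            have : (i : ℝ) ≤ d + d' := by exact_mod_cast hi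
            have hcc : 0 ≤ c * c' := by positivity
            nlinarith
    · have hlt : (q p * r p).natDegree < i := by omega
      rw [coeff_eq_zero_of_natDegree_lt hlt]
      simp only [abs_zero]
      positivity

theorem N2_UB.pow {q : Par → ℝ[X]} (hq : N2_UB q) : N2_UB (fun p => q p ^ 2) := by
  have := hq.mul hq
  simpa [pow_two] using this

theorem N2_UB.der {q : Par → ℝ[X]} (hq : N2_UB q) : N2_UB (fun p => derivative (q p)) := by
  obtain ⟨c, d, hc, h⟩ := hq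
  refine ⟨c * (d + 1), d, by positivity, fun p μ hp => ⟨?_, fun i => ?_⟩⟩
  · exact le_trans (natDegree_derivative_le _) (le_trans (Nat.sub_le _ _) (h p μ hp).1)
  · rw [coeff_derivative]
    by_cases hi : i + 1 ≤ d
    · rw [abs_mul]
      have h1 : |(i : ℝ) + 1| ≤ d + 1 := by
        rw [abs_of_nonneg (by positivity)]
        have : (i : ℝ) + 1 ≤ d := by exact_mod_cast hi
        linarith
      exact mul_le_mul ((h p μ hp).2 _) h1 (abs_nonneg _) hc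
    · rw [coeff_eq_zero_of_natDegree_lt (lt_of_le_of_lt (h p μ hp).1 (by omega))]
      simp only [zero_mul, abs_zero]
      positivity

theorem N2_UB.const {f : Par → ℝ} (c : ℝ) (hf : ∀ (p : Par) (μ : ℝ), p.Good μ → |f p| ≤ c) :
    N2_UB (fun p => C (f p)) := by
  refine ⟨|c|, 0, abs_nonneg _, fun p μ hp => ⟨?_, fun i => ?_⟩⟩
  · simp
  · rw [coeff_C]
    split_ifs
    · exact le_trans (hf p μ hp) (le_abs_self _)
    · simp

theorem N2_UB.X : N2_UB (fun _ => (X : ℝ[X])) := by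
  refine ⟨1, 1, zero_le_one, fun p μ hp => ⟨natDegree_X_le, fun i => ?_⟩⟩
  rw [coeff_X]
  split_ifs <;> simp

theorem N2_UB.eval {q : Par → ℝ[X]} (hq : N2_UB q) : ∃ K : ℝ, 0 < K ∧
    ∀ (p : Par) (μ : ℝ), p.Good μ → ∀ u : ℝ, |u| ≤ 40 → |(q p).eval u| ≤ K := by
  obtain ⟨c, d, hc, h⟩ := hq
  refine ⟨(d + 1) * (c * 40 ^ d) + 1, by positivity, fun p μ hp u hu => ?_⟩
  rw [eval_eq_sum_range' (Nat.lt_succ_of_le (h p μ hp).1)]
  calc |∑ i ∈ Finset.range (d + 1), (q p).coeff i * u ^ i|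
      ≤ ∑ i ∈ Finset.range (d + 1), |(q p).coeff i * u ^ i| := Finset.abs_sum_le_sum_abs _ _
    _ ≤ ∑ i ∈ Finset.range (d + 1), c * 40 ^ d := by
        refine Finset.sum_le_sum fun i hi => ?_
        rw [abs_mul, abs_pow]
        have hi' : i ≤ d := Nat.lt_succ_iff.mp (Finset.mem_range.mp hi)
        have h1 : |u| ^ i ≤ 40 ^ d :=
          le_trans (pow_le_pow_left₀ (abs_nonneg _) hu i)
            (pow_le_pow_right₀ (by norm_num) hi')
        exact mul_le_mul ((h p μ hp).2 i) h1 (by positivity) hc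
    _ = (d + 1) * (c * 40 ^ d) := by
        rw [Finset.sum_const, Finset.card_range, nsmul_eq_mul]
        push_cast; ring
    _ ≤ (d + 1) * (c * 40 ^ d) + 1 := by linarith

theorem N2_m : N2_UB (fun p => p.m) := by
  unfold Par.m
  exact (N2_UB.const 4 fun p μ hp => hp.hm0).add ((N2_UB.const 2 fun p μ hp => hp.hm1).mul N2_UB.X)

theorem N2_n : N2_UB (fun p => p.n) := by
  unfold Par.n
  exact (N2_UB.const 4 fun p μ hp => hp.hn0).add ((N2_UB.const 1 fun p μ hp => hp.hn1).mul N2_UB.X)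

theorem N2_m' : N2_UB (fun p => p.m') := by
  unfold Par.m'
  exact N2_m.sub ((N2_UB.const 2 fun p μ hp => hp.hΔ).mul N2_n)

theorem N2_sq {f : Par → ℝ} (c : ℝ) (hf : ∀ (p : Par) (μ : ℝ), p.Good μ → |f p| ≤ c) :
    ∀ (p : Par) (μ : ℝ), p.Good μ → |f p ^ 2| ≤ c ^ 2 := by
  intro p μ hp
  rw [abs_pow]
  exact pow_le_pow_left₀ (abs_nonneg _) (hf p μ hp) 2

theorem N2_R1 : N2_UB (fun p => p.R1) := by
  unfold Par.R1
  refine (N2_m.pow.add ((N2_UB.const _ (N2_sq 3 fun p μ hp => ?_)).mul N2_n.pow)).mul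
    (N2_m.pow.add ((N2_UB.const _ (N2_sq 3 fun p μ hp => ?_)).mul N2_n.pow))
  · have := hp.hY; rw [abs_le]; constructor <;> linarith [this.1, this.2]
  · have := hp.hY; rw [abs_le]; constructor <;> linarith [this.1, this.2]

theorem N2_R2 : N2_UB (fun p => p.R2) := by
  unfold Par.R2
  refine (N2_m'.pow.add ((N2_UB.const _ (N2_sq 3 fun p μ hp => ?_)).mul N2_n.pow)).mul
    (N2_m'.pow.add ((N2_UB.const _ (N2_sq 3 fun p μ hp => ?_)).mul N2_n.pow))
  · have := hp.hY'; rw [abs_le]; constructor <;> linarith [this.1, this.2]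
  · have := hp.hY'; rw [abs_le]; constructor <;> linarith [this.1, this.2]

theorem N2_D (p : Par) (μ : ℝ) (hp : p.Good μ) : |2 * p.D| ≤ 24 := by
  unfold Par.D
  have h1 : |p.m1 * p.n0| ≤ 2 * 4 := by
    rw [abs_mul]; exact mul_le_mul hp.hm1 hp.hn0 (abs_nonneg _) (by norm_num)
  have h2 : |p.m0 * p.n1| ≤ 4 * 1 := by
    rw [abs_mul]; exact mul_le_mul hp.hm0 hp.hn1 (abs_nonneg _) (by norm_num)
  rw [abs_le] at *
  constructor <;> linarith [h1.1, h1.2, h2.1, h2.2]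

theorem N2_al {R a : Par → ℝ[X]} (hR : N2_UB R) (ha : N2_UB a) (j : ℕ) :
    N2_UB (fun p => p.al (R p) (a p) j) := by
  induction j with
  | zero => simpa [Par.al] using ha
  | succ j ih =>
    have h1 : N2_UB (fun p => p.n * R p * derivative (p.al (R p) (a p) j)) :=
      (N2_n.mul hR).mul ih.der
    have h2 : N2_UB (fun p => C ((j + 1 : ℝ) * p.n1) * R p * p.al (R p) (a p) j) := by
      refine ((N2_UB.const ((j + 1 : ℝ) * 1) fun p μ hp => ?_).mul hR).mul ih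
      rw [abs_mul, abs_of_nonneg (by positivity : (0:ℝ) ≤ (j:ℝ) + 1)]
      exact mul_le_mul_of_nonneg_left hp.hn1 (by positivity)
    have h3 : N2_UB (fun p => C (1 / 2 - (j + 1 : ℝ)) * p.n * derivative (R p) *
        p.al (R p) (a p) j) :=
      (((N2_UB.const |1 / 2 - (j + 1 : ℝ)| fun p μ hp => le_rfl).mul N2_n).mul hR.der).mul ih
    exact (h1.sub h2).add h3

/-- bound for the numerators -/
theorem al_bound (j : ℕ) : ∃ K : ℝ, 0 < K ∧ ∀ (p : Par) (μ : ℝ), p.Good μ → ∀ u : ℝ, |u| ≤ 40 →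
    |(p.al1 j).eval u| ≤ K ∧ |(p.al2 j).eval u| ≤ K ∧ |p.R1.eval u| ≤ K ∧ |p.R2.eval u| ≤ K := by
  have ha1 : N2_UB (fun p => p.a1) := (N2_UB.const 24 N2_D).mul N2_m
  have ha2 : N2_UB (fun p => p.a2) := (N2_UB.const 24 N2_D).mul N2_m'
  obtain ⟨K1, hK1, h1⟩ := (N2_al N2_R1 ha1 j).eval
  obtain ⟨K2, hK2, h2⟩ := (N2_al N2_R2 ha2 j).eval
  obtain ⟨K3, hK3, h3⟩ := N2_R1.eval
  obtain ⟨K4, hK4, h4⟩ := N2_R2.eval
  refine ⟨K1 + K2 + K3 + K4, by positivity, fun p μ hp u hu => ⟨?_, ?_, ?_, ?_⟩⟩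
  · exact le_trans (h1 p μ hp u hu) (by linarith)
  · exact le_trans (h2 p μ hp u hu) (by linarith)
  · exact le_trans (h3 p μ hp u hu) (by linarith)
  · exact le_trans (h4 p μ hp u hu) (by linarith)

theorem N2_rpow {ρ x : ℝ} (hρ : 0 < ρ) (hx : ρ ^ 2 ≤ x) (j : ℕ) :
    x ^ (1 / 2 - (j + 1 : ℝ)) ≤ (ρ⁻¹) ^ (2 * j + 1) := by
  have h0 : (1 / 2 - (j + 1 : ℝ)) ≤ 0 := by
    have : (0 : ℝ) ≤ j := Nat.cast_nonneg j
    linarith
  calc x ^ (1 / 2 - (j + 1 : ℝ)) ≤ (ρ ^ 2) ^ (1 / 2 - (j + 1 : ℝ)) :=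
        Real.rpow_le_rpow_of_nonpos (by positivity) hx h0
    _ = (ρ⁻¹) ^ (2 * j + 1) := by
        rw [← Real.rpow_natCast ρ 2, ← Real.rpow_mul hρ.le, inv_pow, ← Real.rpow_natCast,
          ← Real.rpow_neg hρ.le]
        congr 1
        push_cast
        ring

theorem H_bound (k : ℕ) (hk : 1 ≤ k) : ∃ (K : ℝ) (E : ℕ), 0 < K ∧ ∀ (p : Par) (μ : ℝ), p.Good μ →
    ∀ ρ : ℝ, 0 < ρ → ρ ≤ 1 → ∀ u : ℝ, |u| ≤ 40 → 1 ≤ p.n.eval u → ρ ^ 2 ≤ p.R1.eval u →
    ρ ^ 2 ≤ p.R2.eval u → |p.H k u| ≤ K * (ρ⁻¹) ^ E := by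
  obtain ⟨j, rfl⟩ : ∃ j, k = j + 1 := ⟨k - 1, by omega⟩
  obtain ⟨K, hK, h⟩ := al_bound j
  refine ⟨2 * K, 2 * j + 1, by positivity, fun p μ hp ρ hρ hρ1 u hu hn h1 h2 => ?_⟩
  obtain ⟨ha, hb, -, -⟩ := h p μ hp u hu
  have e1 := N2_rpow hρ h1 j
  have e2 := N2_rpow hρ h2 j
  have p1 : 0 ≤ (p.R1.eval u) ^ (1 / 2 - (j + 1 : ℝ)) :=
    Real.rpow_nonneg (le_trans (by positivity) h1) _
  have p2 : 0 ≤ (p.R2.eval u) ^ (1 / 2 - (j + 1 : ℝ)) :=
    Real.rpow_nonneg (le_trans (by positivity) h2) _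
  simp only [Par.H]
  rw [abs_mul]
  have hn1 : |(p.n.eval u ^ (j + 1))⁻¹| ≤ 1 := by
    rw [abs_of_nonneg (by positivity)]
    exact inv_le_one_of_one_le₀ (one_le_pow₀ hn)
  have hmain : |(p.al1 j).eval u * (p.R1.eval u) ^ (1 / 2 - (j + 1 : ℝ)) -
      (p.al2 j).eval u * (p.R2.eval u) ^ (1 / 2 - (j + 1 : ℝ))| ≤ 2 * K * (ρ⁻¹) ^ (2 * j + 1) := by
    calc _ ≤ |(p.al1 j).eval u * (p.R1.eval u) ^ (1 / 2 - (j + 1 : ℝ))| +
          |(p.al2 j).eval u * (p.R2.eval u) ^ (1 / 2 - (j + 1 : ℝ))| := abs_sub _ _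
      _ ≤ K * (ρ⁻¹) ^ (2 * j + 1) + K * (ρ⁻¹) ^ (2 * j + 1) := by
          rw [abs_mul, abs_mul, abs_of_nonneg p1, abs_of_nonneg p2]
          exact add_le_add (mul_le_mul ha e1 p1 hK.le) (mul_le_mul hb e2 p2 hK.le)
      _ = _ := by ring
  calc _ ≤ 1 * (2 * K * (ρ⁻¹) ^ (2 * j + 1)) :=
        mul_le_mul hn1 hmain (abs_nonneg _) zero_le_one
    _ = _ := one_mul _

end Pool.Agent.H19.Sup
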