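import Mathlib
import Pool.Agent.H19.Sup.St
import Pool.Agent.H19.Sup.N1
import Pool.Agent.H19.Sup.N2
import Pool.Agent.H19.Sup.L2

set_option autoImplicit false

/-!
# L3: the sum over a good block

Proof.  Let `u_t = u0 + t / N` for real `t ∈ [a, b]`, `f i t = T / (2π) * N^(-i) * H i (u_t)` (`i ≤ k + 1`); by N1 these are
successive derivatives.  `λ = T / (2π N^k)`; `ε λ ≤ |f k| ≤ K ρ⁻ᴱ λ` by `hε` and `H_bound`, `|f (k+1)| ≤ K ρ⁻ᴱ λ / N`.
`vdc` gives `|∑_{a ≤ n ≤ b'} e(f 0 n)| ≤ C (R / ε²) N^(1-c)` for every `b' ≤ b` (`R = max 1 (K ρ⁻ᴱ)`).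
`e(f 0 n) = exp (i T (dh ... - dh ...))`.  Partial summation with the amplitude
`α n = A (dh 0 Y 1 ξ_n) * conj (A (dh 0 Y' 1 (ξ_n - Δ)))`: `|α| ≤ B0²`, `|α (n+1) - α n| ≤ 2 B0 B1 * 12 / N`
(`xi_lip`, `dh_lip`), total variation `≤ 24 B0 B1`.
-/

namespace Pool.Agent.H19.Sup

open Polynomial

open ComplexConjugate in
lemma L3_abel (α e : ℕ → ℂ) (m : ℕ) :
    ∑ i ∈ Finset.range (m + 1), α i * e i =
      α m * ∑ i ∈ Finset.range (m + 1), e i -
        ∑ i ∈ Finset.range m, (α (i + 1) - α i) * ∑ j ∈ Finset.range (i + 1), e j := by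
  induction m with
  | zero => simp
  | succ m ih =>
    rw [Finset.sum_range_succ, ih, Finset.sum_range_succ (fun i => e i) (m + 1),
      Finset.sum_range_succ (fun i => (α (i + 1) - α i) * ∑ j ∈ Finset.range (i + 1), e j) m]
    ring

lemma L3_parts (α e : ℕ → ℂ) (m : ℕ) {M V W : ℝ} (hM : 0 ≤ M)
    (hS : ∀ j ≤ m, ‖∑ i ∈ Finset.range (j + 1), e i‖ ≤ M) (hα : ‖α m‖ ≤ V)
    (hv : ∀ i < m, ‖α (i + 1) - α i‖ ≤ W) :
    ‖∑ i ∈ Finset.range (m + 1), α i * e i‖ ≤ (V + m * W) * M := by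
  rw [L3_abel]
  refine (norm_sub_le _ _).trans ?_
  have h1 : ‖α m * ∑ i ∈ Finset.range (m + 1), e i‖ ≤ V * M := by
    rw [norm_mul]
    exact mul_le_mul hα (hS m le_rfl) (norm_nonneg _) ((norm_nonneg _).trans hα)
  have h2 : ‖∑ i ∈ Finset.range m, (α (i + 1) - α i) * ∑ j ∈ Finset.range (i + 1), e j‖ ≤
      m * (W * M) := by
    refine (norm_sum_le _ _).trans ?_
    calc ∑ i ∈ Finset.range m, ‖(α (i + 1) - α i) * ∑ j ∈ Finset.range (i + 1), e j‖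
        ≤ ∑ i ∈ Finset.range m, W * M := by
          apply Finset.sum_le_sum
          intro i hi
          rw [Finset.mem_range] at hi
          rw [norm_mul]
          exact mul_le_mul (hv i hi) (hS i hi.le) (norm_nonneg _) ((norm_nonneg _).trans (hv i hi))
      _ = m * (W * M) := by rw [Finset.sum_const, Finset.card_range, nsmul_eq_mul]
  linarith

lemma L3_Icc (g : ℤ → ℂ) (a : ℤ) (m : ℕ) :
    ∑ n ∈ Finset.Icc a (a + m), g n = ∑ i ∈ Finset.range (m + 1), g (a + i) := by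
  have h : Finset.Icc a (a + m) = (Finset.range (m + 1)).image (fun i : ℕ => a + (i : ℤ)) := by
    ext x
    simp only [Finset.mem_Icc, Finset.mem_image, Finset.mem_range]
    constructor
    · rintro ⟨h1, h2⟩
      exact ⟨(x - a).toNat, by omega, by omega⟩
    · rintro ⟨i, hi, rfl⟩
      omega
  rw [h, Finset.sum_image]
  intro i _ j _ hij
  simpa using hij

theorem good_block_of (vdc : VdcS) : GoodBlockS := by
  intro k hk
  obtain ⟨c, C, hc, hC, hvdc⟩ := vdc k hk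
  obtain ⟨K1, E1, hK1, hH1⟩ := H_bound k (by omega)
  obtain ⟨K2, E2, hK2, hH2⟩ := H_bound (k + 1) (by omega)
  refine ⟨c, 24 * (C * (K1 + K2 + 1)), E1 + E2, hc, by positivity, ?_⟩
  intro p μ hp A B0 B1 ρ₀ ρ ε T N u0 a b hA hρ hρ1 hε hε1 hN hab hlen hlo hhi hpt
  have hN0 : 0 < N := by linarith
  have hNne : N ≠ 0 := hN0.ne'
  have hpi := Real.pi_pos
  obtain ⟨m, hm⟩ : ∃ m : ℕ, b = a + m := ⟨(b - a).toNat, by omega⟩
  subst hm
  set lam := T / (2 * Real.pi * N ^ k) with hlam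
  have hlam0 : 0 < lam := lt_of_lt_of_le (Real.rpow_pos_of_pos hN0 _) hlo
  -- the bounds `B0, B1` are nonnegative
  have hB0 : 0 ≤ B0 := (norm_nonneg _).trans (hA.bdd 0)
  have hB1 : 0 ≤ B1 := by
    have := (norm_nonneg _).trans (hA.lip 1 0)
    simpa using this
  -- R
  have hρi : 1 ≤ ρ⁻¹ := (one_le_inv₀ hρ).2 hρ1
  set R := (K1 + K2 + 1) * (ρ⁻¹) ^ (E1 + E2) with hR
  have hpow1 : (ρ⁻¹) ^ E1 ≤ (ρ⁻¹) ^ (E1 + E2) := pow_le_pow_right₀ hρi (by omega)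
  have hpow2 : (ρ⁻¹) ^ E2 ≤ (ρ⁻¹) ^ (E1 + E2) := pow_le_pow_right₀ hρi (by omega)
  have hpow0 : 1 ≤ (ρ⁻¹) ^ (E1 + E2) := one_le_pow₀ hρi
  have hR1 : K1 * (ρ⁻¹) ^ E1 ≤ R := by
    calc K1 * (ρ⁻¹) ^ E1 ≤ K1 * (ρ⁻¹) ^ (E1 + E2) := mul_le_mul_of_nonneg_left hpow1 hK1.le
      _ ≤ (K1 + K2 + 1) * (ρ⁻¹) ^ (E1 + E2) :=
          mul_le_mul_of_nonneg_right (by linarith) (by positivity)
  have hR2 : K2 * (ρ⁻¹) ^ E2 ≤ R := by
    calc K2 * (ρ⁻¹) ^ E2 ≤ K2 * (ρ⁻¹) ^ (E1 + E2) := mul_le_mul_of_nonneg_left hpow2 hK2.le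
      _ ≤ (K1 + K2 + 1) * (ρ⁻¹) ^ (E1 + E2) :=
          mul_le_mul_of_nonneg_right (by linarith) (by positivity)
  have hRone : 1 ≤ R := by
    calc (1 : ℝ) ≤ 1 * (ρ⁻¹) ^ (E1 + E2) := by linarith
      _ ≤ (K1 + K2 + 1) * (ρ⁻¹) ^ (E1 + E2) :=
          mul_le_mul_of_nonneg_right (by linarith) (by positivity)
  -- the phase
  let f : ℕ → ℝ → ℝ := fun i t => T / (2 * Real.pi) / N ^ i * p.H i (u0 + t / N)
  have hY : 0 < p.Y := by linarith [hp.hY.1]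
  have hY' : 0 < p.Y' := by linarith [hp.hY'.1]
  have hder : ∀ i : ℕ, ∀ t : ℝ, (a : ℝ) ≤ t → t ≤ ((a + m : ℤ) : ℝ) →
      HasDerivAt (f i) (f (i + 1) t) t := by
    intro i t h1 h2
    obtain ⟨-, g2, g3, g4, -⟩ := hpt t h1 h2
    have hn : 0 < p.n.eval (u0 + t / N) := by linarith
    have hr1 : 0 < p.R1.eval (u0 + t / N) := lt_of_lt_of_le (by positivity) g3
    have hr2 : 0 < p.R2.eval (u0 + t / N) := lt_of_lt_of_le (by positivity) g4
    have hH : HasDerivAt (p.H i) (p.H (i + 1) (u0 + t / N)) (u0 + t / N) := by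
      cases i with
      | zero => exact p.hasDerivAt_zero hY hY' hn hr1 hr2
      | succ j => exact p.hasDerivAt_succ j hn hr1 hr2
    have hlin : HasDerivAt (fun t : ℝ => u0 + t / N) (1 / N) t := by
      simpa using ((hasDerivAt_id t).div_const N).const_add u0
    have h3 := (HasDerivAt.comp t hH hlin).const_mul (T / (2 * Real.pi) / N ^ i)
    have h4 : T / (2 * Real.pi) / N ^ i * (p.H (i + 1) (u0 + t / N) * (1 / N)) = f (i + 1) t := by
      simp only [f]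
      rw [pow_succ]
      field_simp
    rw [h4] at h3
    exact h3
  -- partial sums
  set M := C * (R / ε ^ 2) * N ^ (1 - c) with hM
  have hM0 : 0 ≤ M := by positivity
  have hpart : ∀ j ≤ m, ‖∑ i ∈ Finset.range (j + 1), ee (f 0 ((a + (i : ℤ) : ℤ) : ℝ))‖ ≤ M := by
    intro j hj
    have h1 : (a : ℝ) ≤ ((a + (j : ℤ) : ℤ) : ℝ) := by push_cast; linarith [Nat.cast_nonneg (α := ℝ) j]
    have hjm : (j : ℝ) ≤ m := by exact_mod_cast hj
    have h2 := hvdc f (a : ℝ) ((a + (j : ℤ) : ℤ) : ℝ) N lam ε R hN h1 (by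
      push_cast at hlen ⊢
      linarith) hε hε1 hRone hlo hhi (by
      intro i _ x hx
      refine hder i x hx.1 (hx.2.trans ?_)
      push_cast
      linarith) (by
      intro x hx
      have hx2 : x ≤ ((a + m : ℤ) : ℝ) := hx.2.trans (by push_cast; linarith)
      obtain ⟨g1, g2, g3, g4, g5⟩ := hpt x hx.1 hx2
      have hfk : |f k x| = lam * |p.H k (u0 + x / N)| := by
        simp only [f]
        rw [abs_mul]
        congr 1
        have : T / (2 * Real.pi) / N ^ k = lam := by rw [hlam, div_div]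
        rw [this, abs_of_pos hlam0]
      rw [hfk]
      constructor
      · rw [mul_comm]
        exact mul_le_mul_of_nonneg_left g5 hlam0.le
      · rw [mul_comm]
        refine mul_le_mul_of_nonneg_right ((hH1 p μ hp ρ hρ hρ1 _ g1 g2 g3 g4).trans hR1) hlam0.le)
      (by
      intro x hx
      have hx2 : x ≤ ((a + m : ℤ) : ℝ) := hx.2.trans (by push_cast; linarith)
      obtain ⟨g1, g2, g3, g4, g5⟩ := hpt x hx.1 hx2
      have hfk : |f (k + 1) x| = lam / N * |p.H (k + 1) (u0 + x / N)| := by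
        simp only [f]
        rw [abs_mul]
        congr 1
        have : T / (2 * Real.pi) / N ^ (k + 1) = lam / N := by
          rw [hlam, pow_succ]; field_simp
        rw [this, abs_of_pos (by positivity)]
      rw [hfk]
      have h5 := (hH2 p μ hp ρ hρ hρ1 _ g1 g2 g3 g4).trans hR2
      calc lam / N * |p.H (k + 1) (u0 + x / N)| ≤ lam / N * R :=
            mul_le_mul_of_nonneg_left h5 (by positivity)
        _ = R * lam / N := by ring)
    rw [Int.ceil_intCast, Int.floor_intCast, L3_Icc] at h2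
    exact h2
  -- the terms
  let ξ : ℕ → ℝ := fun i => p.m.eval (u0 + ((a + (i : ℤ) : ℤ) : ℝ) / N) /
    p.n.eval (u0 + ((a + (i : ℤ) : ℤ) : ℝ) / N)
  let α : ℕ → ℂ := fun i => A (dh 0 p.Y 1 (ξ i)) * (starRingEnd ℂ) (A (dh 0 p.Y' 1 (ξ i - p.Δ)))
  have hterm : ∀ i : ℕ, p.term A T N u0 (a + i) = α i * ee (f 0 ((a + (i : ℤ) : ℤ) : ℝ)) := by
    intro i
    simp only [Par.term, osc, α, ξ, ee, f, Par.H]
    congr 2
    rw [pow_zero, div_one]
    congr 2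
    field_simp
  have hα : ∀ i, ‖α i‖ ≤ B0 * B0 := by
    intro i
    simp only [α]
    rw [norm_mul, RCLike.norm_conj]
    exact mul_le_mul (hA.bdd _) (hA.bdd _) (norm_nonneg _) hB0
  have hcoord : ∀ i : ℕ, i ≤ m → (a : ℝ) ≤ ((a + (i : ℤ) : ℤ) : ℝ) ∧
      ((a + (i : ℤ) : ℤ) : ℝ) ≤ ((a + m : ℤ) : ℝ) := by
    intro i hi
    have him : (i : ℝ) ≤ m := by exact_mod_cast hi
    constructor
    · push_cast; linarith [Nat.cast_nonneg (α := ℝ) i]
    · push_cast; linarith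
  have hξ : ∀ i < m, |ξ (i + 1) - ξ i| ≤ 12 / N := by
    intro i hi
    obtain ⟨c1, c2⟩ := hcoord i hi.le
    obtain ⟨c3, c4⟩ := hcoord (i + 1) hi
    have h1 := (hpt _ c1 c2).2.1
    have h2 := (hpt _ c3 c4).2.1
    have h3 := xi_lip p hp h2 h1
    have h4 : |u0 + ((a + ((i + 1 : ℕ) : ℤ) : ℤ) : ℝ) / N - (u0 + ((a + (i : ℤ) : ℤ) : ℝ) / N)|
        = 1 / N := by
      have : u0 + ((a + ((i + 1 : ℕ) : ℤ) : ℤ) : ℝ) / N - (u0 + ((a + (i : ℤ) : ℤ) : ℝ) / N)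
          = 1 / N := by
        push_cast
        field_simp
        ring
      rw [this, abs_of_pos (by positivity)]
    rw [h4] at h3
    calc |ξ (i + 1) - ξ i| ≤ 12 * (1 / N) := h3
      _ = 12 / N := by ring
  have hvar : ∀ i < m, ‖α (i + 1) - α i‖ ≤ 24 * (B0 * B1) / N := by
    intro i hi
    have hx := hξ i hi
    have h1 : ‖A (dh 0 p.Y 1 (ξ (i + 1))) - A (dh 0 p.Y 1 (ξ i))‖ ≤ B1 * (12 / N) :=
      (hA.lip _ _).trans (mul_le_mul_of_nonneg_left ((dh_lip hY _ _).trans hx) hB1)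
    have h2 : ‖A (dh 0 p.Y' 1 (ξ (i + 1) - p.Δ)) - A (dh 0 p.Y' 1 (ξ i - p.Δ))‖ ≤
        B1 * (12 / N) := by
      refine (hA.lip _ _).trans (mul_le_mul_of_nonneg_left ((dh_lip hY' _ _).trans ?_) hB1)
      have : ξ (i + 1) - p.Δ - (ξ i - p.Δ) = ξ (i + 1) - ξ i := by ring
      rw [this]; exact hx
    have h3 : α (i + 1) - α i = (A (dh 0 p.Y 1 (ξ (i + 1))) - A (dh 0 p.Y 1 (ξ i))) *
        (starRingEnd ℂ) (A (dh 0 p.Y' 1 (ξ (i + 1) - p.Δ))) +
        A (dh 0 p.Y 1 (ξ i)) * (starRingEnd ℂ) (A (dh 0 p.Y' 1 (ξ (i + 1) - p.Δ)) -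
          A (dh 0 p.Y' 1 (ξ i - p.Δ))) := by
      simp only [α, map_sub]
      ring
    rw [h3]
    refine (norm_add_le _ _).trans ?_
    rw [norm_mul, norm_mul, RCLike.norm_conj, RCLike.norm_conj]
    have h4 : ‖A (dh 0 p.Y 1 (ξ (i + 1))) - A (dh 0 p.Y 1 (ξ i))‖ *
        ‖A (dh 0 p.Y' 1 (ξ (i + 1) - p.Δ))‖ ≤ B1 * (12 / N) * B0 :=
      mul_le_mul h1 (hA.bdd _) (norm_nonneg _) (by positivity)
    have h5 : ‖A (dh 0 p.Y 1 (ξ i))‖ *
        ‖A (dh 0 p.Y' 1 (ξ (i + 1) - p.Δ)) - A (dh 0 p.Y' 1 (ξ i - p.Δ))‖ ≤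
        B0 * (B1 * (12 / N)) :=
      mul_le_mul (hA.bdd _) h2 (norm_nonneg _) hB0
    calc _ ≤ B1 * (12 / N) * B0 + B0 * (B1 * (12 / N)) := add_le_add h4 h5
      _ = 24 * (B0 * B1) / N := by ring
  -- assembly
  rw [L3_Icc]
  have hsum : ∑ i ∈ Finset.range (m + 1), p.term A T N u0 (a + i) =
      ∑ i ∈ Finset.range (m + 1), α i * ee (f 0 ((a + (i : ℤ) : ℤ) : ℝ)) :=
    Finset.sum_congr rfl fun i _ => hterm i
  rw [hsum]
  refine (L3_parts α _ m hM0 hpart (hα m) hvar).trans ?_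
  have hmN : (m : ℝ) ≤ N := by
    push_cast at hlen
    linarith
  have h1 : (m : ℝ) * (24 * (B0 * B1) / N) ≤ 24 * (B0 * B1) := by
    calc (m : ℝ) * (24 * (B0 * B1) / N) ≤ N * (24 * (B0 * B1) / N) :=
          mul_le_mul_of_nonneg_right hmN (by positivity)
      _ = 24 * (B0 * B1) := by field_simp
  have h2 : B0 * B0 + (m : ℝ) * (24 * (B0 * B1) / N) ≤ 24 * (B0 * (B0 + B1)) := by
    nlinarith [mul_nonneg hB0 hB0]
  calc (B0 * B0 + (m : ℝ) * (24 * (B0 * B1) / N)) * M ≤ 24 * (B0 * (B0 + B1)) * M :=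
        mul_le_mul_of_nonneg_right h2 hM0
    _ = 24 * (C * (K1 + K2 + 1)) * (B0 * (B0 + B1)) * ρ⁻¹ ^ (E1 + E2) * ε⁻¹ ^ 2 *
        N ^ (1 - c) := by
        rw [hM, hR]
        rw [inv_pow ε 2, div_eq_mul_inv]
        ring

end Pool.Agent.H19.Sup
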