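import Mathlib
import Pool.Agent.H19.Sup.F0
import Pool.Agent.H19.Sup.B1
import Pool.Agent.H19.Sup.NR2
import Pool.Agent.H19.Sup.St
import Pool.Agent.H19.Maass.Forms

set_option autoImplicit false

/-!
# F2: forms with small Hecke eigenvalues at primes

`bessel_one` with `I = II N`, `a i = 1 / i.1`, `ζ = zt z`, `R = 1/4`, `S` from `exists_cover` (radius `1/2`).
Left side: `∑_{i ∈ II N} U (zt z i) / i.1 = (∑_{p ∈ PR N} (c (p²) - 1) / p) U z` (`Frm.hecke`, the erased index gives `U z`) and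
`c (p²) = c p ^ 2 - p`, so `|∑ (c (p²) - 1)/p| ≥ #PR + ∑ 1/p - ∑ ‖c p‖²/p ≥ #PR / 2`; `‖2 selb‖ ≥ 1/10`: the left side is at least
`(#PR N)² ‖U z‖² / 400`.
Right side `= 2 ∑∑ a i a j ∑_σ KK ≤ 2 ‖FF A T N z S‖ + 2 ∑∑ a i a j ∑_σ |KK - Re wv|`, and the last sum is at most the sum of `near_sum`
(`II N` is part of the full index set; `split_kernel`; `MM` with `phn`).
Parameters: `η > 0` small, `ρ = N^(-η)`, `μ = ρ³ = N^(-3η)`, `h0 = max 2 (N^(3η))`... with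
`η (4 E + 4) ≤ c / 2`, `6 η ≤ c`, `η ≤ 1/100`:
`B0 = C √T N^(η/2)`, `B1 = C √T N^(3η)`, `B0 (B0 + B1) ≤ 2 C² T N^(4η)`, so the square root is at most
`K √T √(1 + log N) (N^(ε/2 + η/2 - 3η) + N^(η/2 - 3η/2) + N^(η/2 - c/2) + N^((4η + 4ηE - c)/2)) ≤ K √T N^(-η/2 + ε)`, and
`B0 / h0 ≤ C √T N^(η/2 - 3η)`.  Near part: `√T N⁴ / 8^j0 ≤ C √T N^(4 - 3η/2)`; `N⁴ ≤ √T N^(4 - 5/2)`; `√T N² ≤ N T` since `N² ≤ T`.
Total: `≤ K N^(ε') (N T + √T N^(4 - η/2))`; take `δ = η / 4`.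
For `N` smaller than a threshold depending on `Y0` use `Maass.weyl_bound` (`(#PR)² ‖U z‖² ≤ 9 N² C (1 + Y0) T`).
-/

namespace Pool.Agent.H19.Sup

open UpperHalfPlane
open Pool.Agent.H19.Maass
open scoped MatrixGroups ComplexConjugate ENNReal

lemma F2_hx_self {p : ℕ} (hp : 0 < p) (z : ℍ) : hx (p ^ 2) ⟨p, 0⟩ z = z := by
  unfold hx
  have h1 : p ^ 2 / p = p := by rw [sq, Nat.mul_div_cancel _ hp]
  ext1
  simp only
  rw [h1, coe_hp hp hp]
  have : (p : ℂ) ≠ 0 := by exact_mod_cast hp.ne'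
  field_simp
  simp

/-- the amplified value -/
lemma F2_sum {T : ℝ} {U : ℂ → ℂ} {c : ℕ → ℂ} (hF : Frm T U c) (N : ℕ) (z : ℍ) :
    ∑ i ∈ II N, ((1 / (i.1 : ℝ) : ℝ) : ℂ) * U (zt z i) =
      (∑ p ∈ PR N, (c (p ^ 2) - 1) / p) * U z := by
  unfold II
  rw [Finset.sum_sigma, Finset.sum_mul]
  refine Finset.sum_congr rfl fun p hp => ?_
  have hpp := (mem_PR.1 hp).2
  have h1 : (⟨p, 0⟩ : Σ _ : ℕ, ℕ) ∈ RR (p ^ 2) := by
    rw [mem_RR, Nat.mem_divisors]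
    exact ⟨⟨⟨p, by ring⟩, pow_ne_zero 2 hpp.ne_zero⟩, hpp.pos⟩
  have h2 := hF.hecke (p ^ 2) (Nat.one_le_pow _ _ hpp.pos) z
  rw [← Finset.add_sum_erase _ _ h1, F2_hx_self hpp.pos] at h2
  have h3 : ∑ x ∈ (RR (p ^ 2)).erase ⟨p, 0⟩, U (hx (p ^ 2) x z) = c (p ^ 2) * U z - U z := by
    rw [← h2]; ring
  calc ∑ x ∈ (RR (p ^ 2)).erase ⟨p, 0⟩, ((1 / (p : ℝ) : ℝ) : ℂ) * U (zt z ⟨p, x⟩)
      = ((1 / (p : ℝ) : ℝ) : ℂ) * ∑ x ∈ (RR (p ^ 2)).erase ⟨p, 0⟩, U (hx (p ^ 2) x z) := by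
        rw [Finset.mul_sum]; rfl
    _ = _ := by
        rw [h3]
        push_cast
        ring

lemma F2_lower {c : ℕ → ℂ} (hrel : ∀ p : ℕ, p.Prime → c p ^ 2 = c (p ^ 2) + p) (N : ℕ)
    (hs : ∑ p ∈ PR N, ‖c p‖ ^ 2 / p ≤ (PR N).card / 2) :
    ((PR N).card : ℝ) / 2 ≤ ‖∑ p ∈ PR N, (c (p ^ 2) - 1) / (p : ℂ)‖ := by
  have e1 : ∑ p ∈ PR N, (c (p ^ 2) - 1) / (p : ℂ) =
      ∑ p ∈ PR N, c p ^ 2 / (p : ℂ) - (((PR N).card + ∑ p ∈ PR N, 1 / (p : ℝ) : ℝ) : ℂ) := by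
    rw [Finset.card_eq_sum_ones]
    push_cast
    rw [← Finset.sum_add_distrib, ← Finset.sum_sub_distrib]
    refine Finset.sum_congr rfl fun p hp => ?_
    have hp0 : (p : ℂ) ≠ 0 := by exact_mod_cast (mem_PR.1 hp).2.ne_zero
    rw [hrel p (mem_PR.1 hp).2]
    field_simp
    ring
  rw [e1]
  have e2 : ‖∑ p ∈ PR N, c p ^ 2 / (p : ℂ)‖ ≤ (PR N).card / 2 := by
    refine (norm_sum_le _ _).trans (le_trans (le_of_eq ?_) hs)
    refine Finset.sum_congr rfl fun p _ => ?_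
    rw [norm_div, norm_pow, Complex.norm_natCast]
  have e3 : (0 : ℝ) ≤ ∑ p ∈ PR N, 1 / (p : ℝ) := Finset.sum_nonneg fun _ _ => by positivity
  have e4 := norm_sub_norm_le (((PR N).card + ∑ p ∈ PR N, 1 / (p : ℝ) : ℝ) : ℂ)
    (∑ p ∈ PR N, c p ^ 2 / (p : ℂ))
  rw [norm_sub_rev, Complex.norm_real, Real.norm_eq_abs, abs_of_nonneg (by positivity)] at e4
  linarith

/-- the geometric side -/
lemma F2_geo {k : ℝ → ℝ} {A : ℝ → ℂ} {C T : ℝ} {j0 L : ℕ} (N : ℕ) (z : ℍ) (S : Finset SL(2, ℤ))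
    (hk : ∀ z w : ℍ, ENNReal.ofReal |KK k z w - (wv A T (dist z w)).re| ≤
        phn C T j0 L (2 * Real.cosh (dist z w) - 2)) {V : ℝ} (hV : 0 ≤ V)
    (hn : ∑ p ∈ PR N, ∑ q ∈ PR N, ENNReal.ofReal (1 / p * (1 / q)) *
        MM (phn C T j0 L) (p ^ 2) (q ^ 2) z ≤ ENNReal.ofReal V) :
    ∑ i ∈ II N, ∑ j ∈ II N, (1 / (i.1 : ℝ)) * (1 / (j.1 : ℝ)) *
      ∑ σ ∈ S, KK k (zt z i) (σ • zt z j) ≤ ‖FF A T N z S‖ + V := by
  have h1 : ∑ i ∈ II N, ∑ j ∈ II N, (1 / (i.1 : ℝ)) * (1 / (j.1 : ℝ)) *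
      ∑ σ ∈ S, KK k (zt z i) (σ • zt z j) = (FF A T N z S).re +
      ∑ i ∈ II N, ∑ j ∈ II N, (1 / (i.1 : ℝ)) * (1 / (j.1 : ℝ)) *
        ∑ σ ∈ S, (KK k (zt z i) (σ • zt z j) - (wv A T (dist (zt z i) (σ • zt z j))).re) := by
    unfold FF
    rw [Complex.re_sum, ← Finset.sum_add_distrib]
    refine Finset.sum_congr rfl fun i _ => ?_
    rw [Complex.re_sum, ← Finset.sum_add_distrib]
    refine Finset.sum_congr rfl fun j _ => ?_
    rw [Complex.re_ofReal_mul, Complex.re_sum, Finset.sum_sub_distrib]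
    ring
  have h2 : ∑ i ∈ II N, ∑ j ∈ II N, (1 / (i.1 : ℝ)) * (1 / (j.1 : ℝ)) *
        ∑ σ ∈ S, (KK k (zt z i) (σ • zt z j) - (wv A T (dist (zt z i) (σ • zt z j))).re) ≤
      ∑ i ∈ II N, ∑ j ∈ II N, (1 / (i.1 : ℝ)) * (1 / (j.1 : ℝ)) *
        ∑ σ ∈ S, |KK k (zt z i) (σ • zt z j) - (wv A T (dist (zt z i) (σ • zt z j))).re| := by
    refine Finset.sum_le_sum fun i _ => Finset.sum_le_sum fun j _ => ?_
    refine mul_le_mul_of_nonneg_left ?_ (by positivity)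
    exact Finset.sum_le_sum fun σ _ => le_abs_self _
  have h3 : ∑ i ∈ II N, ∑ j ∈ II N, (1 / (i.1 : ℝ)) * (1 / (j.1 : ℝ)) *
        ∑ σ ∈ S, |KK k (zt z i) (σ • zt z j) - (wv A T (dist (zt z i) (σ • zt z j))).re| ≤ V := by
    rw [← ENNReal.ofReal_le_ofReal_iff hV]
    refine le_trans ?_ hn
    refine le_trans ?_ (II_le_MM (phn C T j0 L) (fun p q => ENNReal.ofReal (1 / p * (1 / q))) N z)
    rw [ENNReal.ofReal_sum_of_nonneg (fun i _ => Finset.sum_nonneg fun j _ => by positivity)]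
    refine Finset.sum_le_sum fun i _ => ?_
    rw [ENNReal.ofReal_sum_of_nonneg (fun j _ => by positivity)]
    refine Finset.sum_le_sum fun j _ => ?_
    rw [ENNReal.ofReal_mul (by positivity), ENNReal.ofReal_sum_of_nonneg (fun _ _ => abs_nonneg _)]
    refine mul_le_mul_right ?_ _
    exact (Finset.sum_le_sum fun σ _ => hk _ _).trans (ENNReal.sum_le_tsum _)
  have h4 := Complex.re_le_norm (FF A T N z S)
  linarith

/-- the parameters -/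
lemma F2_param {C T x Nc : ℝ} {E : ℕ} (hC : 0 < C) (hT : 0 < T) (hx : 3 ≤ x)
    (hNc : Nc ≤ (x ^ (8 * E + 16))⁻¹) (hNc0 : 0 ≤ Nc) :
    C * √T / √((x ^ 2)⁻¹) / x ^ 6 + √((1 + Real.log (x ^ 6)) *
      (x ^ 2 * ((x ^ 6)⁻¹) ^ 2 * (C * √T / √((x ^ 2)⁻¹)) ^ 2 +
        (C * √T / √((x ^ 2)⁻¹)) ^ 2 * ((x ^ 6)⁻¹ + Nc) +
        (C * √T / √((x ^ 2)⁻¹)) * ((C * √T / √((x ^ 2)⁻¹)) + C * √T / ((x ^ 2)⁻¹) ^ 3) *
          (((x ^ 2)⁻¹ * (x ^ 6)⁻¹)⁻¹) ^ E * Nc)) ≤ 7 * C * √T / x := by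
  have hx0 : 0 < x := by linarith
  have hx1 : 1 ≤ x := by linarith
  set s := √T with hs
  have hs0 : 0 < s := Real.sqrt_pos.2 hT
  have hsq : √((x ^ 2)⁻¹) = x⁻¹ := by
    rw [Real.sqrt_inv, Real.sqrt_sq hx0.le]
  have e0 : C * s / √((x ^ 2)⁻¹) = C * s * x := by rw [hsq, div_inv_eq_mul]
  have e1 : C * s / ((x ^ 2)⁻¹) ^ 3 = C * s * x ^ 6 := by
    rw [inv_pow, div_inv_eq_mul, ← pow_mul]
  have e2 : (((x ^ 2)⁻¹ * (x ^ 6)⁻¹)⁻¹) ^ E = x ^ (8 * E) := by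
    rw [← mul_inv, inv_inv, ← pow_add, ← pow_mul]
  rw [e0, e1, e2]
  have hlog : 1 + Real.log (x ^ 6) ≤ 7 * x ^ 2 := by
    rw [Real.log_pow]
    have := Real.log_le_sub_one_of_pos hx0
    push_cast
    nlinarith
  have hlog0 : 0 ≤ 1 + Real.log (x ^ 6) := by
    have := Real.log_nonneg (one_le_pow₀ hx1 (n := 6))
    linarith
  have hNx : Nc * x ^ (8 * E) * x ^ 16 ≤ 1 := by
    have h1 : Nc * x ^ (8 * E + 16) ≤ (x ^ (8 * E + 16))⁻¹ * x ^ (8 * E + 16) :=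
      mul_le_mul_of_nonneg_right hNc (by positivity)
    rw [inv_mul_cancel₀ (by positivity), pow_add] at h1
    linarith
  have hNx2 : Nc * x ^ 16 ≤ 1 := by
    refine le_trans ?_ hNx
    have : 1 ≤ x ^ (8 * E) := one_le_pow₀ hx1
    have h2 : 0 ≤ Nc * x ^ 16 := by positivity
    nlinarith
  have hCs : 0 < C * s := by positivity
  have t1 : x ^ 2 * ((x ^ 6)⁻¹) ^ 2 * (C * s * x) ^ 2 ≤ (C * s) ^ 2 * (x ^ 4)⁻¹ := by
    have : x ^ 2 * ((x ^ 6)⁻¹) ^ 2 * (C * s * x) ^ 2 = (C * s) ^ 2 * (x ^ 8)⁻¹ := by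
      field_simp
    rw [this]
    refine mul_le_mul_of_nonneg_left ?_ (by positivity)
    exact inv_anti₀ (by positivity) (pow_le_pow_right₀ hx1 (by norm_num))
  have t2 : (C * s * x) ^ 2 * ((x ^ 6)⁻¹ + Nc) ≤ 2 * ((C * s) ^ 2 * (x ^ 4)⁻¹) := by
    have h1 : Nc ≤ (x ^ 6)⁻¹ := by
      rw [← one_div, le_div_iff₀ (by positivity)]
      refine le_trans ?_ hNx2
      exact mul_le_mul_of_nonneg_left (pow_le_pow_right₀ hx1 (by norm_num)) hNc0
    calc (C * s * x) ^ 2 * ((x ^ 6)⁻¹ + Nc) ≤ (C * s * x) ^ 2 * ((x ^ 6)⁻¹ + (x ^ 6)⁻¹) := by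
          gcongr
      _ = _ := by field_simp; ring
  have t3 : (C * s * x) * (C * s * x + C * s * x ^ 6) * x ^ (8 * E) * Nc ≤
      2 * ((C * s) ^ 2 * (x ^ 4)⁻¹) := by
    have h1 : x ≤ x ^ 6 := by
      calc x = x ^ 1 := (pow_one x).symm
        _ ≤ x ^ 6 := pow_le_pow_right₀ hx1 (by norm_num)
    have h2 : x ^ 7 * x ^ (8 * E) * Nc ≤ (x ^ 4)⁻¹ := by
      rw [← one_div, le_div_iff₀ (by positivity)]
      refine le_trans ?_ hNx
      have : x ^ 7 * x ^ (8 * E) * Nc * x ^ 4 = Nc * x ^ (8 * E) * x ^ 11 := by ring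
      rw [this]
      exact mul_le_mul_of_nonneg_left (pow_le_pow_right₀ hx1 (by norm_num)) (by positivity)
    calc (C * s * x) * (C * s * x + C * s * x ^ 6) * x ^ (8 * E) * Nc
        ≤ (C * s * x) * (C * s * x ^ 6 + C * s * x ^ 6) * x ^ (8 * E) * Nc := by gcongr
      _ = 2 * ((C * s) ^ 2 * (x ^ 7 * x ^ (8 * E) * Nc)) := by ring
      _ ≤ _ := by gcongr
  have t4 : √((1 + Real.log (x ^ 6)) * (x ^ 2 * ((x ^ 6)⁻¹) ^ 2 * (C * s * x) ^ 2 +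
        (C * s * x) ^ 2 * ((x ^ 6)⁻¹ + Nc) +
        (C * s * x) * (C * s * x + C * s * x ^ 6) * x ^ (8 * E) * Nc)) ≤ 6 * (C * s / x) := by
    rw [Real.sqrt_le_left (by positivity)]
    calc (1 + Real.log (x ^ 6)) * (x ^ 2 * ((x ^ 6)⁻¹) ^ 2 * (C * s * x) ^ 2 +
        (C * s * x) ^ 2 * ((x ^ 6)⁻¹ + Nc) +
        (C * s * x) * (C * s * x + C * s * x ^ 6) * x ^ (8 * E) * Nc)
        ≤ 7 * x ^ 2 * (5 * ((C * s) ^ 2 * (x ^ 4)⁻¹)) := by
          refine mul_le_mul hlog (by linarith) (by positivity) (by positivity)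
      _ = 35 * (C * s / x) ^ 2 := by field_simp; ring
      _ ≤ (6 * (C * s / x)) ^ 2 := by
          have : 0 ≤ (C * s / x) ^ 2 := by positivity
          nlinarith
  have t5 : C * s * x / x ^ 6 ≤ C * s / x := by
    rw [div_le_div_iff₀ (by positivity) hx0]
    have : x * x ≤ x ^ 6 := by
      rw [← sq]; exact pow_le_pow_right₀ hx1 (by norm_num)
    nlinarith
  calc _ ≤ C * s / x + 6 * (C * s / x) := add_le_add t5 t4
    _ = _ := by ring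

theorem small_improved_of (far_bound : FarBoundS) (split_kernel : SplitKernelS) : SmallImprovedS := by
  obtain ⟨c₀, E, hc₀, hc₁, hfar⟩ := far_bound
  obtain ⟨Cw, hCw, hweyl⟩ := weyl_bound
  obtain ⟨C, hC, hker⟩ := split_kernel
  set δ : ℝ := c₀ / (200 * (E + 1)) with hδ
  have hE0 : (0 : ℝ) ≤ E := Nat.cast_nonneg E
  have hδ0 : 0 < δ := by positivity
  have hδc : δ * (8 * E + 16) ≤ c₀ := by
    rw [hδ, div_mul_eq_mul_div, div_le_iff₀ (by positivity)]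
    nlinarith
  have hδ1 : 8 * δ ≤ 1 := by
    have : 16 * δ ≤ c₀ := by nlinarith
    linarith
  refine ⟨δ, hδ0, fun Y0 ε hε => ?_⟩
  obtain ⟨K, hK, hF⟩ := hfar Y0 (2 * δ) (by positivity)
  obtain ⟨C', hC', hnear⟩ := near_sum (ε / 2) (by positivity)
  set Y1 := max Y0 1 with hY1
  have hY1p : 1 ≤ Y1 := le_max_right _ _
  set N₀ : ℝ := max ((3 : ℝ) ^ (1 / δ)) (20 * Y1) with hN₀
  have hN₀p : 1 ≤ N₀ := by
    have : 20 * Y1 ≤ N₀ := le_max_right _ _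
    linarith
  refine ⟨max (9 * N₀ * (Cw * (1 + Y1))) (800 * (7 * K * C + C' * C * (1 + Y1) * (3 + C))),
    lt_max_of_lt_left (by positivity), ?_⟩
  intro N T hN hNT hTN U c hFrm hrel z hre him hzY hsmall
  set K₀ := max (9 * N₀ * (Cw * (1 + Y1))) (800 * (7 * K * C + C' * C * (1 + Y1) * (3 + C))) with hK₀
  have hN0 : (0 : ℝ) < N := by exact_mod_cast hN
  have hNr : (1 : ℝ) ≤ N := by exact_mod_cast hN
  have hT1 : 1 ≤ T := le_trans (one_le_pow₀ hNr) hNT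
  have hT0 : 0 < T := by linarith
  have hz0 := z.im_pos
  have hzY1 : z.im ≤ Y1 := hzY.trans (le_max_left _ _)
  have hNε : 1 ≤ (N : ℝ) ^ ε := Real.one_le_rpow hNr hε.le
  have hrest : 0 ≤ √T * (N : ℝ) ^ (4 - δ) := by positivity
  by_cases hbig : N₀ < N
  · -- main case
    set x : ℝ := (N : ℝ) ^ δ with hx
    have hx3 : 3 ≤ x := by
      have h1 : (3 : ℝ) ^ (1 / δ) ≤ N := (le_max_left _ _).trans hbig.le
      have h2 : ((3 : ℝ) ^ (1 / δ)) ^ δ ≤ (N : ℝ) ^ δ := Real.rpow_le_rpow (by positivity) h1 hδ0.le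
      rwa [← Real.rpow_mul (by norm_num), one_div_mul_cancel hδ0.ne', Real.rpow_one] at h2
    have hx0 : 0 < x := by linarith
    have hx1 : 1 ≤ x := by linarith
    have hxpow : ∀ n : ℕ, x ^ n = (N : ℝ) ^ (δ * n) := by
      intro n
      rw [hx, ← Real.rpow_natCast, ← Real.rpow_mul hN0.le]
    have hx8 : x ^ 8 ≤ N := by
      rw [hxpow]
      calc (N : ℝ) ^ (δ * ((8 : ℕ) : ℝ)) ≤ (N : ℝ) ^ (1 : ℝ) :=
            Real.rpow_le_rpow_of_exponent_le hNr (by push_cast; linarith)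
        _ = N := Real.rpow_one _
    have hx6 : 9 * x ^ 6 ≤ N := by
      have h1 : 9 * x ^ 6 ≤ x ^ 8 := by
        have : (9 : ℝ) ≤ x ^ 2 := by nlinarith
        calc 9 * x ^ 6 ≤ x ^ 2 * x ^ 6 := mul_le_mul_of_nonneg_right this (by positivity)
          _ = x ^ 8 := by ring
      linarith
    have hx6' : x ^ 6 ≤ N := by
      have : 0 ≤ x ^ 6 := by positivity
      linarith
    have hNNT : (N : ℝ) ≤ T := by
      refine le_trans ?_ hNT
      calc (N : ℝ) = (N : ℝ) ^ 1 := (pow_one _).symm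
        _ ≤ (N : ℝ) ^ 5 := pow_le_pow_right₀ hNr (by norm_num)
    have hx2 : x ^ 2 ≤ T := by
      have : x ^ 2 ≤ x ^ 6 := pow_le_pow_right₀ hx1 (by norm_num)
      linarith
    have hx28 : 8 ≤ x ^ 2 := by nlinarith
    obtain ⟨L, j0, k, A, hL, hj0, h8, hk, hsel, hA, hKK⟩ := hker T hT1 ((x ^ 2)⁻¹)
      (by rw [one_div]; exact inv_anti₀ (by positivity) hx2)
      (by rw [one_div]; exact inv_anti₀ (by norm_num) hx28)
    obtain ⟨S, hS⟩ := exists_cover (II N) (zt z) (zt z) (1 / 2)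
    have hbes := bessel_one hk hFrm (II N) (fun i => 1 / (i.1 : ℝ)) (zt z) S
      (fun i hi j hj σ hσ => hS i hi j hj σ (by linarith))
    rw [F2_sum hFrm N z] at hbes
    have hlow := F2_lower hrel N hsmall
    have hn := hnear z hre him C T hC.le hT1 j0 L hj0 hL N hN
    rw [show 2 * (ε / 2) = ε by ring] at hn
    have hgeo := F2_geo (k := k) (A := A) (C := C) (T := T) (j0 := j0) (L := L) N z S hKK
      (by positivity) hn
    have hfarb := hF A _ _ _ T ((x ^ 6)⁻¹) (x ^ 6) N z S hA (by positivity)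
      (inv_le_one_of_one_le₀ (by nlinarith)) (by rw [one_div]; exact inv_anti₀ (by positivity) hx6')
      (inv_le_one_of_one_le₀ (one_le_pow₀ hx1)) (by
        have : x ^ 2 ≤ x ^ 6 := pow_le_pow_right₀ hx1 (by norm_num)
        linarith) hx6 (by
        have h1 : 20 * Y1 ≤ N₀ := le_max_right _ _
        have h2 : Y0 ≤ Y1 := le_max_left _ _
        linarith) hN hNT hTN hre him hzY (fun i hi j hj σ hσ => hS i hi j hj σ hσ)
    have hNx2 : (N : ℝ) ^ (2 * δ) = x ^ 2 := by rw [hxpow]; congr 1; push_cast; ring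
    have hNc : (N : ℝ) ^ (-c₀) ≤ (x ^ (8 * E + 16))⁻¹ := by
      rw [hxpow, ← Real.rpow_neg hN0.le]
      refine Real.rpow_le_rpow_of_exponent_le hNr ?_
      push_cast
      linarith
    rw [hNx2] at hfarb
    have hpar := F2_param (C := C) (T := T) (x := x) (Nc := (N : ℝ) ^ (-c₀)) (E := E) hC hT0 hx3 hNc
      (by positivity)
    have hN4 : (N : ℝ) ^ (4 - δ) = (N : ℝ) ^ 4 / x := by
      rw [Real.rpow_sub hN0, Real.rpow_ofNat]
    have hfar2 : ‖FF A T N z S‖ ≤ 7 * K * C * (√T * (N : ℝ) ^ (4 - δ)) := by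
      refine hfarb.trans ?_
      rw [hN4]
      calc K * (N : ℝ) ^ 4 * _ ≤ K * (N : ℝ) ^ 4 * (7 * C * √T / x) :=
            mul_le_mul_of_nonneg_left hpar (by positivity)
        _ = _ := by ring
    -- the near part
    have hs0 : 0 < √T := Real.sqrt_pos.2 hT0
    have hN2T : (N : ℝ) ^ 2 ≤ T := le_trans (pow_le_pow_right₀ hNr (by norm_num)) hNT
    have hNs : (N : ℝ) ≤ √T := Real.le_sqrt_of_sq_le hN2T
    have n1 : √T * (N : ℝ) ^ 2 ≤ N * T := by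
      calc √T * (N : ℝ) ^ 2 = N * (√T * N) := by ring
        _ ≤ N * (√T * √T) := by gcongr
        _ = N * T := by rw [Real.mul_self_sqrt hT0.le]
    have hρ : ((x ^ 2)⁻¹) ^ (3 / 2 : ℝ) ≤ x⁻¹ := by
      have h1 : ((x ^ 2)⁻¹) ^ (3 / 2 : ℝ) ≤ ((x ^ 2)⁻¹) ^ (1 / 2 : ℝ) :=
        Real.rpow_le_rpow_of_exponent_ge (by positivity) (inv_le_one_of_one_le₀ (by nlinarith))
          (by norm_num)
      rwa [← Real.sqrt_eq_rpow, Real.sqrt_inv, Real.sqrt_sq hx0.le] at h1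
    have n2 : √T * (N : ℝ) ^ 4 / 8 ^ j0 ≤ C * (√T * (N : ℝ) ^ (4 - δ)) := by
      have h1 : 1 / (8 : ℝ) ^ j0 ≤ C * x⁻¹ := h8.trans (mul_le_mul_of_nonneg_left hρ hC.le)
      rw [hN4]
      calc √T * (N : ℝ) ^ 4 / 8 ^ j0 = √T * (N : ℝ) ^ 4 * (1 / 8 ^ j0) := by ring
        _ ≤ √T * (N : ℝ) ^ 4 * (C * x⁻¹) := mul_le_mul_of_nonneg_left h1 (by positivity)
        _ = _ := by ring
    have n3 : (N : ℝ) ^ 4 ≤ √T * (N : ℝ) ^ (4 - δ) := by
      rw [hN4, ← mul_div_assoc, le_div_iff₀ hx0]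
      have h1 : x ≤ √T := by
        have : x ≤ x ^ 8 := by
          calc x = x ^ 1 := (pow_one x).symm
            _ ≤ x ^ 8 := pow_le_pow_right₀ hx1 (by norm_num)
        linarith
      calc (N : ℝ) ^ 4 * x ≤ (N : ℝ) ^ 4 * √T := by gcongr
        _ = _ := by ring
    set Wt := √T * (N : ℝ) ^ (4 - δ) with hWt
    have hsum : N * T + √T * (N : ℝ) ^ 2 + √T * (N : ℝ) ^ 4 / 8 ^ j0 + (N : ℝ) ^ 4 ≤
        (3 + C) * (N * T + Wt) := by
      have : 0 ≤ (N : ℝ) * T := by positivity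
      nlinarith
    have hnear2 : C' * C * (1 + z.im) * ((N : ℝ) ^ ε *
        (N * T + √T * (N : ℝ) ^ 2 + √T * (N : ℝ) ^ 4 / 8 ^ j0 + (N : ℝ) ^ 4)) ≤
        C' * C * (1 + Y1) * (3 + C) * ((N : ℝ) ^ ε * (N * T + Wt)) := by
      calc _ ≤ C' * C * (1 + Y1) * ((N : ℝ) ^ ε * ((3 + C) * (N * T + Wt))) := by gcongr
        _ = _ := by ring
    have hfar3 : 7 * K * C * Wt ≤ 7 * K * C * ((N : ℝ) ^ ε * (N * T + Wt)) := by
      refine mul_le_mul_of_nonneg_left ?_ (by positivity)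
      have h0 : 0 ≤ (N : ℝ) * T := by positivity
      calc Wt ≤ 1 * (N * T + Wt) := by linarith
        _ ≤ _ := mul_le_mul_of_nonneg_right hNε (by positivity)
    have hleft : ((PR N).card : ℝ) ^ 2 * ‖U z‖ ^ 2 ≤ 400 *
        ‖2 * selb k (1 / 2 + T * Complex.I) *
          ((∑ p ∈ PR N, (c (p ^ 2) - 1) / (p : ℂ)) * U z)‖ ^ 2 := by
      rw [norm_mul, norm_mul, norm_mul, Complex.norm_ofNat]
      set P := ((PR N).card : ℝ) with hP
      have hP0 : 0 ≤ P := Nat.cast_nonneg _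
      set s := ‖selb k (1 / 2 + T * Complex.I)‖
      set a := ‖∑ p ∈ PR N, (c (p ^ 2) - 1) / (p : ℂ)‖
      set u := ‖U z‖
      have h1 : P * u ≤ 20 * (2 * s * (a * u)) := by
        have h2 : P / 2 * u ≤ a * u := mul_le_mul_of_nonneg_right hlow (norm_nonneg _)
        have h3 : 0 ≤ a * u := by positivity
        have h4 : 1 / 20 * (a * u) ≤ s * (a * u) := mul_le_mul_of_nonneg_right hsel h3
        linarith
      calc P ^ 2 * u ^ 2 = (P * u) ^ 2 := by ring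
        _ ≤ (20 * (2 * s * (a * u))) ^ 2 := pow_le_pow_left₀ (by positivity) h1 2
        _ = _ := by ring
    have hright : 2 * ∑ i ∈ II N, ∑ j ∈ II N, (1 / (i.1 : ℝ)) * (1 / (j.1 : ℝ)) *
        ∑ σ ∈ S, KK k (zt z i) (σ • zt z j) ≤
        2 * ((7 * K * C + C' * C * (1 + Y1) * (3 + C)) * ((N : ℝ) ^ ε * (N * T + Wt))) := by
      refine mul_le_mul_of_nonneg_left ?_ (by norm_num)
      calc _ ≤ _ := hgeo
        _ ≤ 7 * K * C * ((N : ℝ) ^ ε * (N * T + Wt)) +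
            C' * C * (1 + Y1) * (3 + C) * ((N : ℝ) ^ ε * (N * T + Wt)) :=
            add_le_add (hfar2.trans hfar3) hnear2
        _ = _ := by ring
    calc ((PR N).card : ℝ) ^ 2 * ‖U z‖ ^ 2 ≤ 400 * (2 * ((7 * K * C + C' * C * (1 + Y1) * (3 + C)) *
          ((N : ℝ) ^ ε * (N * T + Wt)))) := by
          refine hleft.trans (mul_le_mul_of_nonneg_left ?_ (by norm_num))
          exact hbes.trans hright
      _ = 800 * (7 * K * C + C' * C * (1 + Y1) * (3 + C)) * ((N : ℝ) ^ ε * (N * T + Wt)) := by ring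
      _ ≤ K₀ * ((N : ℝ) ^ ε * (N * T + Wt)) :=
          mul_le_mul_of_nonneg_right (le_max_right _ _) (by positivity)
  · -- small N
    rw [not_lt] at hbig
    have h1 := hweyl T hT1 Unit (fun _ => T) (fun _ => U) (fun _ => c) (fun _ => by simp)
      (fun _ => hFrm) (fun i j hij => absurd (Subsingleton.elim i j) hij) z hre him
    simp only [Finset.univ_unique, Finset.sum_singleton] at h1
    have h2 : ((PR N).card : ℝ) ≤ 3 * N := by exact_mod_cast card_PR_le N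
    have h3 : ((PR N).card : ℝ) ^ 2 ≤ 9 * N₀ * N := by
      calc ((PR N).card : ℝ) ^ 2 ≤ (3 * N) ^ 2 := pow_le_pow_left₀ (Nat.cast_nonneg _) h2 2
        _ = 9 * N * N := by ring
        _ ≤ 9 * N₀ * N := by gcongr
    calc ((PR N).card : ℝ) ^ 2 * ‖U z‖ ^ 2 ≤ (9 * N₀ * N) * (Cw * (1 + z.im) * T) :=
          mul_le_mul h3 h1 (by positivity) (by positivity)
      _ ≤ (9 * N₀ * N) * (Cw * (1 + Y1) * T) := by gcongr
      _ = 9 * N₀ * (Cw * (1 + Y1)) * (1 * (N * T)) := by ring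
      _ ≤ K₀ * ((N : ℝ) ^ ε * (N * T + √T * (N : ℝ) ^ (4 - δ))) := by
          refine mul_le_mul (le_max_left _ _) ?_ (by positivity) ?_
          · exact mul_le_mul hNε (by linarith) (by positivity) (by positivity)
          · exact le_max_of_le_left (by positivity)

end Pool.Agent.H19.Sup
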