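import Mathlib
import Pool.Agent.H19.Sup.Defs

set_option autoImplicit false

/-!
# L1: cutting a sum into blocks

Proof.  The blocks `[na + i L, na + (i+1) L - 1] ∩ (-∞, nb]`, `0 ≤ i ≤ (nb - na) / L`, cover `[na, nb]`.  Good blocks
contribute at most `G` each, bad ones at most `L B`.  There are at most `d s` bad blocks: list them in increasing
order, `g_0 < g_1 < ...`; if there were more than `d s`, then `g_0, g_s, ..., g_{ds}` contradict `hbad`.
-/

namespace Pool.Agent.H19.Sup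

theorem L1_sum (t : ℤ → ℂ) (na nb : ℤ) (L : ℕ) (hL : 1 ≤ L) (m : ℕ) :
    ∑ i ∈ Finset.range m, ∑ n ∈ Finset.Icc (na + (i : ℤ) * L) (min nb (na + (i + 1 : ℤ) * L - 1)), t n =
      ∑ n ∈ Finset.Icc na (min nb (na + (m : ℤ) * L - 1)), t n := by
  induction m with
  | zero =>
    simp
  | succ m ih =>
    rw [Finset.sum_range_succ, ih, ← Finset.sum_union]
    · apply Finset.sum_congr _ (fun _ _ => rfl)
      ext n
      simp only [Finset.mem_union, Finset.mem_Icc, le_min_iff]
      have h0 : (0 : ℤ) ≤ (m : ℤ) * L := by positivity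
      have h1 : ((m + 1 : ℕ) : ℤ) * L = (m : ℤ) * L + L := by push_cast; ring
      have h2 : ((m : ℤ) + 1) * L = (m : ℤ) * L + L := by ring
      rw [h1, h2]
      have hL' : (1 : ℤ) ≤ L := by exact_mod_cast hL
      constructor
      · rintro (h | h) <;> refine ⟨?_, ?_, ?_⟩ <;> omega
      · rintro ⟨h, h', h''⟩
        by_cases hc : n ≤ na + (m : ℤ) * L - 1
        · left; exact ⟨h, h', hc⟩
        · right; refine ⟨by omega, h', h''⟩
    · rw [Finset.disjoint_left]
      intro n h1 h2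
      simp only [Finset.mem_Icc, le_min_iff] at h1 h2
      omega

theorem L1_card (S : Finset ℕ) (s d : ℕ)
    (hbad : ∀ f : Fin (d + 1) → ℕ, (∀ i, f i ∈ S) → (∀ i j, i < j → f i + s ≤ f j) → False) :
    S.card ≤ d * s := by
  by_contra hcon
  push Not at hcon
  have hk : d * s + 1 ≤ S.card := hcon
  let g : Fin S.card ↪o ℕ := S.orderEmbOfFin rfl
  have hlt : ∀ i : Fin (d + 1), (i : ℕ) * s < S.card := by
    intro i
    have h1 : (i : ℕ) ≤ d := Nat.lt_succ_iff.mp i.2
    have h2 : (i : ℕ) * s ≤ d * s := Nat.mul_le_mul_right s h1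
    omega
  have hg : ∀ (a b : ℕ) (ha : a < S.card) (hb : b < S.card), a ≤ b →
      g ⟨a, ha⟩ + (b - a) ≤ g ⟨b, hb⟩ := by
    intro a b ha hb hab
    induction b, hab using Nat.le_induction with
    | base => simp
    | succ b hab ih =>
      have hb' : b < S.card := by omega
      have h1 := ih hb'
      have h2 : g ⟨b, hb'⟩ < g ⟨b + 1, hb⟩ := g.strictMono (by simp [Fin.lt_def])
      omega
  refine hbad (fun i => g ⟨(i : ℕ) * s, hlt i⟩) (fun i => Finset.orderEmbOfFin_mem S rfl _) ?_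
  intro i j hij
  have h1 : (i : ℕ) + 1 ≤ (j : ℕ) := hij
  have h2 : (i : ℕ) * s + s ≤ (j : ℕ) * s := by
    calc (i : ℕ) * s + s = ((i : ℕ) + 1) * s := by ring
      _ ≤ (j : ℕ) * s := Nat.mul_le_mul_right s h1
  have h3 := hg ((i : ℕ) * s) ((j : ℕ) * s) (hlt i) (hlt j) (by omega)
  show g ⟨(i : ℕ) * s, hlt i⟩ + s ≤ g ⟨(j : ℕ) * s, hlt j⟩
  omega

theorem blocks (t : ℤ → ℂ) {na nb : ℤ} (hab : na ≤ nb) {B G : ℝ} (hB : 0 ≤ B) (hG : 0 ≤ G)
    (L s d : ℕ) (hL : 1 ≤ L) (hs : 1 ≤ s) (ht : ∀ n, ‖t n‖ ≤ B) (bad : ℕ → Prop)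
    (hgood : ∀ i : ℕ, ¬ bad i → na + (i : ℤ) * L ≤ nb →
      ‖∑ n ∈ Finset.Icc (na + (i : ℤ) * L) (min nb (na + (i + 1 : ℤ) * L - 1)), t n‖ ≤ G)
    (hbad : ∀ f : Fin (d + 1) → ℕ, (∀ i, bad (f i) ∧ na + (f i : ℤ) * L ≤ nb) →
      (∀ i j, i < j → f i + s ≤ f j) → False) :
    ‖∑ n ∈ Finset.Icc na nb, t n‖ ≤ (((nb - na : ℤ) : ℝ) / L + 1) * G + d * s * L * B := by
  classical
  obtain ⟨D, hD⟩ := Int.eq_ofNat_of_zero_le (sub_nonneg.mpr hab)
  set m : ℕ := D / L with hm
  have hL0 : 0 < L := hL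
  have hmL : m * L ≤ D := Nat.div_mul_le_self D L
  have hmL' : D < (m + 1) * L := by
    have h1 := Nat.lt_mul_div_succ D hL0
    rw [hm, mul_comm]
    exact h1
  have hmLz : (m : ℤ) * L ≤ D := by exact_mod_cast hmL
  have hmLz' : (D : ℤ) < ((m + 1 : ℕ) : ℤ) * L := by exact_mod_cast hmL'
  -- the sum as a sum over blocks
  have hsum := L1_sum t na nb L hL (m + 1)
  have hmin : min nb (na + ((m + 1 : ℕ) : ℤ) * L - 1) = nb := by
    apply min_eq_left
    omega
  rw [hmin] at hsum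
  rw [← hsum]
  have hin : ∀ i ∈ Finset.range (m + 1), na + (i : ℤ) * L ≤ nb := by
    intro i hi
    have h1 : i ≤ m := Nat.lt_succ_iff.mp (Finset.mem_range.mp hi)
    have h2 : (i : ℤ) * L ≤ (m : ℤ) * L := by
      have : i * L ≤ m * L := Nat.mul_le_mul_right L h1
      exact_mod_cast this
    omega
  set S : Finset ℕ := (Finset.range (m + 1)).filter (fun i => bad i) with hS
  have hcard : S.card ≤ d * s := by
    apply L1_card
    intro f hf hf'
    refine hbad f (fun i => ?_) hf'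
    have h1 := hf i
    rw [hS, Finset.mem_filter] at h1
    exact ⟨h1.2, hin _ h1.1⟩
  have hblock : ∀ i : ℕ, ‖∑ n ∈ Finset.Icc (na + (i : ℤ) * L) (min nb (na + (i + 1 : ℤ) * L - 1)), t n‖
      ≤ L * B := by
    intro i
    refine (norm_sum_le_of_le _ (fun n _ => ht n)).trans ?_
    rw [Finset.sum_const, nsmul_eq_mul]
    apply mul_le_mul_of_nonneg_right _ hB
    rw [Int.card_Icc]
    have : (min nb (na + (i + 1 : ℤ) * L - 1) + 1 - (na + (i : ℤ) * L)).toNat ≤ L := by
      have h1 : min nb (na + (i + 1 : ℤ) * L - 1) ≤ na + (i + 1 : ℤ) * L - 1 := min_le_right _ _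
      have h2 : ((i : ℤ) + 1) * L = (i : ℤ) * L + L := by ring
      rw [h2] at h1 ⊢
      omega
    exact_mod_cast this
  calc ‖∑ i ∈ Finset.range (m + 1), ∑ n ∈ Finset.Icc (na + (i : ℤ) * L)
          (min nb (na + (i + 1 : ℤ) * L - 1)), t n‖
      ≤ ∑ i ∈ Finset.range (m + 1), ‖∑ n ∈ Finset.Icc (na + (i : ℤ) * L)
          (min nb (na + (i + 1 : ℤ) * L - 1)), t n‖ := norm_sum_le _ _
    _ = ∑ i ∈ S, ‖∑ n ∈ Finset.Icc (na + (i : ℤ) * L)
          (min nb (na + (i + 1 : ℤ) * L - 1)), t n‖ +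
        ∑ i ∈ (Finset.range (m + 1)).filter (fun i => ¬ bad i), ‖∑ n ∈ Finset.Icc (na + (i : ℤ) * L)
          (min nb (na + (i + 1 : ℤ) * L - 1)), t n‖ := by
        rw [hS, Finset.sum_filter_add_sum_filter_not]
    _ ≤ ∑ i ∈ S, (L * B) + ∑ i ∈ (Finset.range (m + 1)).filter (fun i => ¬ bad i), G := by
        apply add_le_add
        · exact Finset.sum_le_sum (fun i _ => hblock i)
        · apply Finset.sum_le_sum
          intro i hi
          rw [Finset.mem_filter] at hi
          exact hgood i hi.2 (hin i hi.1)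
    _ ≤ d * s * L * B + (((nb - na : ℤ) : ℝ) / L + 1) * G := by
        rw [Finset.sum_const, Finset.sum_const, nsmul_eq_mul, nsmul_eq_mul]
        apply add_le_add
        · rw [← mul_assoc]
          apply mul_le_mul_of_nonneg_right _ hB
          apply mul_le_mul_of_nonneg_right _ (Nat.cast_nonneg L)
          exact_mod_cast hcard
        · apply mul_le_mul_of_nonneg_right _ hG
          have h1 : ((Finset.range (m + 1)).filter (fun i => ¬ bad i)).card ≤ m + 1 := by
            refine (Finset.card_filter_le _ _).trans ?_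
            simp
          have h2 : (((Finset.range (m + 1)).filter (fun i => ¬ bad i)).card : ℝ) ≤ m + 1 := by
            exact_mod_cast h1
          refine h2.trans ?_
          have h3 : (m : ℝ) ≤ ((nb - na : ℤ) : ℝ) / L := by
            rw [hD, le_div_iff₀ (by exact_mod_cast hL0)]
            have h4 : (m : ℤ) * L ≤ D := hmLz
            exact_mod_cast h4
          linarith
    _ = (((nb - na : ℤ) : ℝ) / L + 1) * G + d * s * L * B := by ring

end Pool.Agent.H19.Sup
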