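import Mathlib
import Pool.Agent.H19.Sup.L1
import Pool.Agent.H19.Sup.L2
import Pool.Agent.H19.Sup.St

set_option autoImplicit false

/-!
# L4: the sum over a line

Proof.  Let `c, K, E` be the constants of `good_block`, `nondeg (k-1)`; `d = 16 (k-1) + 6`.  Let `ε = N^(-c/8)`,
`ℓ = ρ N^(-c/8) / 48`, `L = ⌊ℓ N⌋`.  If `ℓ N < 1` then `ρ⁻¹ ≥ N^(1-c/8) / 48` and the trivial bound
(`≤ (80 N + 1) B0²`: all `|u_n| ≤ 40`) suffices.  Otherwise apply `blocks` with `t n = term` (set `t n = 0` outside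
`[na, nb]`), `B = B0²`, and call block `i` bad if some `n` of the block has `term ≠ 0` and some real `t` between its
first and last element has `|H k (u_t)| < ε`.
* good block: either all terms vanish, or for some `n0` in it both distances lie in `(ρ, 1/2)`, and `|H k| ≥ ε` on the
  whole block.  For real `t` in the block `|u_t - u_{n0}| ≤ L/N ≤ ρ/48`, so both distances are `≥ ρ/2` (`xi_lip`, `dh_lip`);
  `R_far` gives `R1, R2 ≥ (ρ/2)²`; `good_block` with `ρ/2`.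
* `d + 1` bad blocks with gaps `≥ s` give `d + 1` points with `|H k| ≤ ε` and mutual distances
  `≥ (s - 1) L / N =: g`; by `nondeg`: `μ^E g^d ≤ K ε` (if `g ≤ 1`; `g > 1`: replace by `1`).  Choose `s` minimal with
  `μ^E min(g,1)^d > K ε`: `(s-1) L / N ≤ (K ε / μ^E)^(1/d) + L/N` roughly (if `K ε ≥ μ^E` the trivial bound suffices).
* total: `(80 N / L + 1) G + d s L B0² ≤ ...`.
-/

namespace Pool.Agent.H19.Sup

open Polynomial

theorem L4_B0 {A : ℝ → ℂ} {B0 B1 ρ : ℝ} (hA : Amp A B0 B1 ρ) : 0 ≤ B0 :=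
  (norm_nonneg _).trans (hA.bdd 0)

theorem L4_B1 {A : ℝ → ℂ} {B0 B1 ρ : ℝ} (hA : Amp A B0 B1 ρ) : 0 ≤ B1 := by
  have := (norm_nonneg _).trans (hA.lip 1 0)
  simpa using this

theorem L4_osc_le {A : ℝ → ℂ} {B0 B1 ρ : ℝ} (hA : Amp A B0 B1 ρ) (T d d' : ℝ) :
    ‖osc A T d d'‖ ≤ B0 * B0 := by
  unfold osc
  rw [norm_mul, norm_mul, Complex.norm_exp_ofReal_mul_I, mul_one, RCLike.norm_conj]
  exact mul_le_mul (hA.bdd _) (hA.bdd _) (norm_nonneg _) (L4_B0 hA)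

theorem L4_osc_ne {A : ℝ → ℂ} {B0 B1 ρ : ℝ} (hA : Amp A B0 B1 ρ) {T d d' : ℝ}
    (h : osc A T d d' ≠ 0) : ρ < d ∧ ρ < d' := by
  constructor
  · by_contra hc
    exact h (by simp [osc, hA.lo d (not_lt.1 hc)])
  · by_contra hc
    exact h (by simp [osc, hA.lo d' (not_lt.1 hc)])

theorem L4_neval (p : Par) (u : ℝ) : p.n.eval u = p.n0 + p.n1 * u := by
  simp [Par.n]

/-- geometry of a block that contains a nonzero term -/
theorem L4_block (p : Par) {μ : ℝ} (hp : p.Good μ) {A : ℝ → ℂ} {B0 B1 ρ : ℝ} (hA : Amp A B0 B1 ρ)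
    (hρ : 0 < ρ) {T N u0 : ℝ} (hN : 1 ≤ N) {a b n : ℤ}
    (ha : |u0 + a / N| ≤ 40 ∧ 1 ≤ p.n.eval (u0 + a / N))
    (hb : |u0 + b / N| ≤ 40 ∧ 1 ≤ p.n.eval (u0 + b / N))
    (hn : a ≤ n ∧ n ≤ b) (hterm : p.term A T N u0 n ≠ 0) (hlen : ((b - a : ℤ) : ℝ) ≤ ρ * N / 48)
    {t : ℝ} (hat : (a : ℝ) ≤ t) (htb : t ≤ b) :
    |u0 + t / N| ≤ 40 ∧ 1 ≤ p.n.eval (u0 + t / N) ∧
      (ρ / 2) ^ 2 ≤ p.R1.eval (u0 + t / N) ∧ (ρ / 2) ^ 2 ≤ p.R2.eval (u0 + t / N) := by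
  have hN0 : 0 < N := by linarith
  -- convexity
  have key : ∀ x : ℝ, (a : ℝ) ≤ x → x ≤ b → |u0 + x / N| ≤ 40 ∧ 1 ≤ p.n.eval (u0 + x / N) := by
    intro x hax hxb
    have h1 : (a : ℝ) / N ≤ x / N := div_le_div_of_nonneg_right hax hN0.le
    have h2 : x / N ≤ (b : ℝ) / N := div_le_div_of_nonneg_right hxb hN0.le
    refine ⟨?_, ?_⟩
    · rw [abs_le] at ha hb ⊢
      constructor
      · linarith [ha.1.1]
      · linarith [hb.1.2]
    · rw [L4_neval] at *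
      rcases le_total 0 p.n1 with h | h
      · have := ha.2
        nlinarith
      · have := hb.2
        nlinarith
  have hx := key t hat htb
  have hn' : (a : ℝ) ≤ (n : ℝ) ∧ (n : ℝ) ≤ b := ⟨by exact_mod_cast hn.1, by exact_mod_cast hn.2⟩
  have hy := key n hn'.1 hn'.2
  have hne := L4_osc_ne hA hterm
  -- the distance of the two parameters
  have hdist : |(u0 + t / N) - (u0 + n / N)| ≤ ρ / 48 := by
    have e : (u0 + t / N) - (u0 + n / N) = (t - n) / N := by ring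
    rw [e, abs_div, abs_of_pos hN0, div_le_iff₀ hN0]
    have : |t - n| ≤ ((b - a : ℤ) : ℝ) := by
      push_cast
      rw [abs_le]; constructor <;> linarith [hn'.1, hn'.2]
    calc |t - n| ≤ _ := this
      _ ≤ _ := hlen
      _ = ρ / 48 * N := by ring
  have hxi := xi_lip p hp hx.2 hy.2
  have hxi' : |p.m.eval (u0 + t / N) / p.n.eval (u0 + t / N) -
      p.m.eval (u0 + n / N) / p.n.eval (u0 + n / N)| ≤ ρ / 4 := by
    refine hxi.trans ?_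
    linarith
  have hY : 0 < p.Y := by have := hp.hY.1; linarith
  have hY' : 0 < p.Y' := by have := hp.hY'.1; linarith
  have h1 := dh_lip hY (p.m.eval (u0 + t / N) / p.n.eval (u0 + t / N))
    (p.m.eval (u0 + n / N) / p.n.eval (u0 + n / N))
  have h2 := dh_lip hY' (p.m.eval (u0 + t / N) / p.n.eval (u0 + t / N) - p.Δ)
    (p.m.eval (u0 + n / N) / p.n.eval (u0 + n / N) - p.Δ)
  rw [sub_sub_sub_cancel_right] at h2
  have h1' := (abs_le.1 (h1.trans hxi')).1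
  have h2' := (abs_le.1 (h2.trans hxi')).1
  have hf := R_far p hp hx.2 (ρ := ρ / 2) (by positivity) (by linarith [hne.1]) (by linarith [hne.2])
  exact ⟨hx.1, hx.2, hf.1, hf.2⟩

theorem L4_good (good_block : GoodBlockS) (k : ℕ) (hk : 2 ≤ k) : ∃ (c K : ℝ) (E : ℕ), 0 < c ∧ c ≤ 1 ∧ 0 < K ∧
    ∀ (p : Par) (μ : ℝ), p.Good μ → ∀ (A : ℝ → ℂ) (B0 B1 ρ₀ ρ ε T N u0 : ℝ) (a b : ℤ),
    Amp A B0 B1 ρ₀ → 0 < ρ → ρ ≤ 1 → 0 < ε → ε ≤ 1 → 1 ≤ N → a ≤ b → ((b - a : ℤ) : ℝ) ≤ N →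
    N ^ (-(5 / 4) : ℝ) ≤ T / (2 * Real.pi * N ^ k) → T / (2 * Real.pi * N ^ k) ≤ N ^ (-(1 / 4) : ℝ) →
    (∀ t : ℝ, (a : ℝ) ≤ t → t ≤ b → |u0 + t / N| ≤ 40 ∧ 1 ≤ p.n.eval (u0 + t / N) ∧
      ρ ^ 2 ≤ p.R1.eval (u0 + t / N) ∧ ρ ^ 2 ≤ p.R2.eval (u0 + t / N) ∧
      ε ≤ |p.H k (u0 + t / N)|) →
    ‖∑ n ∈ Finset.Icc a b, p.term A T N u0 n‖ ≤
      K * (B0 * (B0 + B1)) * (ρ⁻¹) ^ E * (ε⁻¹) ^ 2 * N ^ (1 - c) := by
  obtain ⟨c, K, E, hc, hK, h⟩ := good_block k hk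
  refine ⟨min c 1, K, E, lt_min hc one_pos, min_le_right _ _, hK, ?_⟩
  intro p μ hp A B0 B1 ρ₀ ρ ε T N u0 a b hA hρ hρ1 hε hε1 hN hab hlen h1 h2 hu
  have hB0 := L4_B0 hA
  have hB1 := L4_B1 hA
  refine (h p μ hp A B0 B1 ρ₀ ρ ε T N u0 a b hA hρ hρ1 hε hε1 hN hab hlen h1 h2 hu).trans ?_
  have : N ^ (1 - c) ≤ N ^ (1 - min c 1) :=
    Real.rpow_le_rpow_of_exponent_le hN (by linarith [min_le_left c 1])
  gcongr

theorem L4_triv (p : Par) {A : ℝ → ℂ} {B0 B1 ρ : ℝ} (hA : Amp A B0 B1 ρ) {T N u0 : ℝ} (hN : 1 ≤ N)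
    {na nb : ℤ} (hab : na ≤ nb) (ha : |u0 + na / N| ≤ 40) (hb : |u0 + nb / N| ≤ 40) :
    ((nb - na : ℤ) : ℝ) ≤ 80 * N ∧
      ‖∑ n ∈ Finset.Icc na nb, p.term A T N u0 n‖ ≤ 81 * N * (B0 * B0) := by
  have hN0 : 0 < N := by linarith
  have h1 : ((nb - na : ℤ) : ℝ) ≤ 80 * N := by
    have e : ((nb - na : ℤ) : ℝ) = ((u0 + nb / N) - (u0 + na / N)) * N := by
      push_cast; field_simp; ring
    rw [e]
    rw [abs_le] at ha hb
    exact mul_le_mul_of_nonneg_right (by linarith [ha.1, hb.2]) hN0.le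
  refine ⟨h1, ?_⟩
  calc ‖∑ n ∈ Finset.Icc na nb, p.term A T N u0 n‖
      ≤ ∑ n ∈ Finset.Icc na nb, ‖p.term A T N u0 n‖ := norm_sum_le _ _
    _ ≤ ∑ _n ∈ Finset.Icc na nb, B0 * B0 := Finset.sum_le_sum fun n _ => L4_osc_le hA _ _ _
    _ = ((nb + 1 - na).toNat : ℝ) * (B0 * B0) := by
        rw [Finset.sum_const, Int.card_Icc, nsmul_eq_mul]
    _ ≤ 81 * N * (B0 * B0) := by
        refine mul_le_mul_of_nonneg_right ?_ (mul_nonneg (L4_B0 hA) (L4_B0 hA))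
        have h2 : (((nb + 1 - na).toNat : ℤ) : ℝ) = ((nb + 1 - na : ℤ) : ℝ) := by
          rw [Int.toNat_of_nonneg (by omega)]
        have h3 : (((nb + 1 - na).toNat : ℕ) : ℝ) = ((nb + 1 - na : ℤ) : ℝ) := by
          rw [← h2]; norm_cast
        rw [h3]
        push_cast at h1 ⊢
        linarith

theorem line_sum_of (good_block : GoodBlockS) (nondeg : NondegS) : LineSumS := by
  intro k hk
  obtain ⟨c₁, K₁, E₁, hc₁, hc₁', hK₁, hgb⟩ := L4_good good_block k hk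
  obtain ⟨j, rfl⟩ : ∃ j, k = j + 1 := ⟨k - 1, by omega⟩
  obtain ⟨K₂, E₂, hK₂, hnd⟩ := nondeg j
  obtain ⟨d, hd⟩ : ∃ d : ℕ, d = 16 * j + 6 := ⟨_, rfl⟩
  have hd6 : (6 : ℝ) ≤ d := by
    have : 6 ≤ d := by omega
    exact_mod_cast this
  have hd0 : (0 : ℝ) < d := by linarith
  obtain ⟨K₃, hK₃⟩ : ∃ K₃ : ℝ, K₃ = max 1 K₂ := ⟨_, rfl⟩
  have hK₃1 : 1 ≤ K₃ := hK₃ ▸ le_max_left _ _
  have hK₃2 : K₂ ≤ K₃ := hK₃ ▸ le_max_right _ _
  have hK₃0 : 0 < K₃ := by linarith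
  obtain ⟨c, hc⟩ : ∃ c : ℝ, c = c₁ / (8 * d) := ⟨_, rfl⟩
  have hc0 : 0 < c := by rw [hc]; positivity
  have hcd : c * d = c₁ / 8 := by rw [hc]; field_simp
  have hc48 : c ≤ c₁ / 48 := by
    rw [hc]
    apply div_le_div_of_nonneg_left hc₁.le (by norm_num)
    linarith
  obtain ⟨K, hK⟩ : ∃ K : ℝ, K = 81 * 48 + 81 * K₃ + 161 * 48 * K₁ * 2 ^ E₁ + d * (K₃ + 2) := ⟨_, rfl⟩
  have hK0 : 0 < K := by rw [hK]; positivity
  refine ⟨c, K, E₁ + E₂ + 1, hc0, hK0, ?_⟩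
  intro p μ hp A B0 B1 ρ T N u0 na nb hA hρ hρ1 hN hT1 hT2 hu
  have hμ := hp.hμ
  have hμ1 := hp.hμ1
  have hB0 := L4_B0 hA
  have hB1 := L4_B1 hA
  have hN0 : 0 < N := by linarith
  obtain ⟨X, hXe⟩ : ∃ X : ℝ, X = B0 * (B0 + B1) := ⟨_, rfl⟩
  have hX : B0 * B0 ≤ X := by rw [hXe]; exact mul_le_mul_of_nonneg_left (by linarith) hB0
  have hX0 : 0 ≤ X := (mul_nonneg hB0 hB0).trans hX
  rw [← hXe]
  obtain ⟨P, hPe⟩ : ∃ P : ℝ, P = (ρ * μ)⁻¹ := ⟨_, rfl⟩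
  have hP : 1 ≤ P := by
    rw [hPe]; exact (one_le_inv₀ (by positivity)).2 (mul_le_one₀ hρ1 hμ.le hμ1)
  have hP0 : 0 < P := by linarith
  have hρP : ρ⁻¹ ≤ P := by
    rw [hPe]; exact inv_anti₀ (by positivity) (mul_le_of_le_one_right hρ.le hμ1)
  have hμP : μ⁻¹ ≤ P := by
    rw [hPe]; exact inv_anti₀ (by positivity) (mul_le_of_le_one_left hμ.le hρ1)
  rw [← hPe]
  have hρ0' : 0 < ρ⁻¹ := inv_pos.2 hρ
  have hμ0' : 0 < μ⁻¹ := inv_pos.2 hμ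
  have hPE1 : 1 ≤ P ^ (E₁ + E₂ + 1) := one_le_pow₀ hP
  have hPE2 : (ρ⁻¹) ^ (E₁ + 1) ≤ P ^ (E₁ + E₂ + 1) :=
    (pow_le_pow_left₀ hρ0'.le hρP _).trans (pow_le_pow_right₀ hP (by omega))
  have hPE2' : ρ⁻¹ ≤ P ^ (E₁ + E₂ + 1) :=
    hρP.trans (le_self_pow₀ hP (by omega))
  have hPE3 : (μ⁻¹) ^ E₂ ≤ P ^ (E₁ + E₂ + 1) :=
    (pow_le_pow_left₀ hμ0'.le hμP _).trans (pow_le_pow_right₀ hP (by omega))
  obtain ⟨Q, hQe⟩ : ∃ Q : ℝ, Q = P ^ (E₁ + E₂ + 1) := ⟨_, rfl⟩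
  rw [← hQe] at hPE1 hPE2 hPE2' hPE3 ⊢
  have hQ0 : 0 < Q := by linarith
  -- the powers of `N`
  obtain ⟨F, hFe⟩ : ∃ F : ℝ, F = N ^ (1 - c) := ⟨_, rfl⟩
  rw [← hFe]
  have hF0 : 0 < F := by rw [hFe]; exact Real.rpow_pos_of_pos hN0 _
  obtain ⟨a, hae⟩ : ∃ a : ℝ, a = N ^ (c₁ / 8) := ⟨_, rfl⟩
  have ha1 : 1 ≤ a := by rw [hae]; exact Real.one_le_rpow hN (by positivity)
  have ha0 : 0 < a := by linarith
  have f1 : a ≤ F := by
    rw [hae, hFe]; exact Real.rpow_le_rpow_of_exponent_le hN (by linarith)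
  have f2 : a * a * a * N ^ (1 - c₁) ≤ F := by
    rw [hae, hFe, ← Real.rpow_add hN0, ← Real.rpow_add hN0, ← Real.rpow_add hN0]
    exact Real.rpow_le_rpow_of_exponent_le hN (by linarith)
  have f3 : N * N ^ (-c) = F := by
    rw [hFe, sub_eq_add_neg, Real.rpow_add hN0, Real.rpow_one]
  have f4 : N / a ≤ F := by
    rw [hFe, hae, div_eq_mul_inv, ← Real.rpow_neg hN0.le]
    nth_rewrite 1 [← Real.rpow_one N]
    rw [← Real.rpow_add hN0]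
    exact Real.rpow_le_rpow_of_exponent_le hN (by linarith)
  have hfin : ∀ y : ℝ, y ≤ K → y * X * Q * F ≤ K * X * Q * F := by
    intro y hy; gcongr
  rcases lt_or_ge nb na with hlt | hab
  · rw [Finset.Icc_eq_empty (by omega), Finset.sum_empty, norm_zero]
    positivity
  have hua := hu na le_rfl hab
  have hub := hu nb hab le_rfl
  obtain ⟨hlen, htriv⟩ := L4_triv p hA (T := T) hN hab hua.1 hub.1
  have htriv' : ‖∑ n ∈ Finset.Icc na nb, p.term A T N u0 n‖ ≤ 81 * N * X :=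
    htriv.trans (by gcongr)
  obtain ⟨w, hwe⟩ : ∃ w : ℝ, w = ρ * N / (48 * a) := ⟨_, rfl⟩
  have hw0 : 0 < w := by rw [hwe]; positivity
  rcases lt_or_ge w 1 with hw | hw
  · -- short blocks
    have h1 : N ≤ 48 * a * ρ⁻¹ := by
      rw [hwe, div_lt_one (by positivity)] at hw
      rw [← div_eq_mul_inv, le_div_iff₀ hρ]
      linarith
    refine htriv'.trans ?_
    refine le_trans ?_ (hfin (81 * 48) ?_)
    · calc 81 * N * X ≤ 81 * (48 * a * ρ⁻¹) * X := by gcongr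
        _ ≤ 81 * (48 * F * Q) * X := by gcongr
        _ = 81 * 48 * X * Q * F := by ring
    · rw [hK]
      have : 0 ≤ 81 * K₃ + 161 * 48 * K₁ * 2 ^ E₁ + d * (K₃ + 2) := by positivity
      linarith
  obtain ⟨Γ, hΓe⟩ : ∃ Γ : ℝ, Γ = K₃ * (μ⁻¹) ^ E₂ * N ^ (-c) := ⟨_, rfl⟩
  have hNc : 0 < N ^ (-c) := Real.rpow_pos_of_pos hN0 _
  have hΓ0 : 0 < Γ := by rw [hΓe]; positivity
  have hΓN : Γ * N ≤ K₃ * Q * F := by
    rw [hΓe, ← f3]
    calc K₃ * (μ⁻¹) ^ E₂ * N ^ (-c) * N = K₃ * (μ⁻¹) ^ E₂ * (N * N ^ (-c)) := by ring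
      _ ≤ K₃ * Q * (N * N ^ (-c)) := by gcongr
  rcases le_or_gt 1 Γ with hΓ | hΓ
  · refine htriv'.trans ?_
    refine le_trans ?_ (hfin (81 * K₃) ?_)
    · calc 81 * N * X ≤ 81 * (Γ * N) * X := by
            have : N ≤ Γ * N := le_mul_of_one_le_left hN0.le hΓ
            gcongr
        _ ≤ 81 * (K₃ * Q * F) * X := by gcongr
        _ = 81 * K₃ * X * Q * F := by ring
    · rw [hK]
      have : 0 ≤ 81 * 48 + 161 * 48 * K₁ * 2 ^ E₁ + d * (K₃ + 2) := by positivity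
      linarith
  -- the main case
  obtain ⟨L, hLe⟩ : ∃ L : ℕ, L = ⌊w⌋₊ := ⟨_, rfl⟩
  have hL1 : 1 ≤ L := by rw [hLe]; exact Nat.floor_pos.2 hw
  have hL1' : (1 : ℝ) ≤ L := by exact_mod_cast hL1
  have hL0' : (0 : ℝ) < L := by linarith
  have hLw : (L : ℝ) ≤ w := by rw [hLe]; exact Nat.floor_le hw0.le
  have hwL : w ≤ 2 * L := by
    have : w < L + 1 := by rw [hLe]; exact Nat.lt_floor_add_one w
    linarith
  have hwN : w ≤ ρ * N / 48 := by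
    rw [hwe]
    apply div_le_div_of_nonneg_left (by positivity) (by norm_num)
    linarith
  obtain ⟨s, hse⟩ : ∃ s : ℕ, s = ⌈Γ * N / L⌉₊ + 1 := ⟨_, rfl⟩
  have hs1 : 1 ≤ s := by omega
  have hsL : Γ * N ≤ ((s : ℝ) - 1) * L := by
    have : Γ * N / L ≤ (s : ℝ) - 1 := by
      rw [hse]; push_cast
      linarith [Nat.le_ceil (Γ * N / L)]
    rwa [div_le_iff₀ hL0'] at this
  have hsL' : (s : ℝ) * L ≤ Γ * N + 2 * w := by
    have : (s : ℝ) ≤ Γ * N / L + 2 := by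
      rw [hse]; push_cast
      linarith [(Nat.ceil_lt_add_one (a := Γ * N / L) (by positivity)).le]
    calc (s : ℝ) * L ≤ (Γ * N / L + 2) * L := by gcongr
      _ = Γ * N + 2 * L := by field_simp
      _ ≤ _ := by linarith
  obtain ⟨ε, hεe⟩ : ∃ ε : ℝ, ε = a⁻¹ := ⟨_, rfl⟩
  have hε0 : 0 < ε := by rw [hεe]; positivity
  have hε1 : ε ≤ 1 := by rw [hεe]; exact inv_le_one_of_one_le₀ ha1
  obtain ⟨G, hGe⟩ : ∃ G : ℝ, G = K₁ * X * ((ρ / 2)⁻¹) ^ E₁ * (ε⁻¹) ^ 2 * N ^ (1 - c₁) := ⟨_, rfl⟩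
  have hG0 : 0 ≤ G := by rw [hGe]; positivity
  -- facts on blocks
  have hblk : ∀ i : ℕ, na + (i : ℤ) * L ≤ nb →
      na ≤ na + (i : ℤ) * L ∧ na + (i : ℤ) * L ≤ min nb (na + (i + 1 : ℤ) * L - 1) ∧
      min nb (na + (i + 1 : ℤ) * L - 1) ≤ nb ∧
      ((min nb (na + (i + 1 : ℤ) * L - 1) - (na + (i : ℤ) * L) : ℤ) : ℝ) ≤ w := by
    intro i hi
    have hL1z : (1 : ℤ) ≤ L := by exact_mod_cast hL1
    have hiL : (0 : ℤ) ≤ (i : ℤ) * L := by positivity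
    refine ⟨by omega, ?_, min_le_left _ _, ?_⟩
    · refine le_min hi ?_
      have : (i + 1 : ℤ) * L = (i : ℤ) * L + L := by ring
      rw [this]; omega
    · have h1 : min nb (na + (i + 1 : ℤ) * L - 1) - (na + (i : ℤ) * L) ≤ L := by
        have h2 := min_le_right nb (na + (i + 1 : ℤ) * L - 1)
        have : (i + 1 : ℤ) * L = (i : ℤ) * L + L := by ring
        rw [this] at h2 ⊢
        omega
      calc ((min nb (na + (i + 1 : ℤ) * L - 1) - (na + (i : ℤ) * L) : ℤ) : ℝ) ≤ ((L : ℤ) : ℝ) := by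
            exact_mod_cast h1
        _ = L := by norm_cast
        _ ≤ w := hLw
  have hmain := blocks (p.term A T N u0) hab (B := B0 * B0) (G := G) (mul_nonneg hB0 hB0) hG0 L s d
    hL1 hs1 (fun n => L4_osc_le hA _ _ _)
    (fun i => (∃ n : ℤ, na + (i : ℤ) * L ≤ n ∧ n ≤ min nb (na + (i + 1 : ℤ) * L - 1) ∧
        p.term A T N u0 n ≠ 0) ∧
      ∃ t : ℝ, ((na + (i : ℤ) * L : ℤ) : ℝ) ≤ t ∧ t ≤ ((min nb (na + (i + 1 : ℤ) * L - 1) : ℤ) : ℝ) ∧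
        |p.H (j + 1) (u0 + t / N)| < ε) ?_ ?_
  rotate_left
  · -- good blocks
    intro i hnb hi
    obtain ⟨h1, h2, h3, h4⟩ := hblk i hi
    by_cases hz : ∃ n : ℤ, na + (i : ℤ) * L ≤ n ∧ n ≤ min nb (na + (i + 1 : ℤ) * L - 1) ∧
        p.term A T N u0 n ≠ 0
    · have hH : ∀ t : ℝ, ((na + (i : ℤ) * L : ℤ) : ℝ) ≤ t →
          t ≤ ((min nb (na + (i + 1 : ℤ) * L - 1) : ℤ) : ℝ) → ε ≤ |p.H (j + 1) (u0 + t / N)| := by
        intro t ht1 ht2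
        by_contra hc'
        exact hnb ⟨hz, t, ht1, ht2, not_le.1 hc'⟩
      obtain ⟨n, hn1, hn2, hn3⟩ := hz
      have hwN' : w ≤ N := by
        have h0 : ρ * N ≤ N := mul_le_of_le_one_left hN0.le hρ1
        have : ρ * N / 48 ≤ N := by linarith only [h0, hN0]
        exact hwN.trans this
      rw [hGe, hXe]
      refine hgb p μ hp A B0 B1 ρ (ρ / 2) ε T N u0 _ _ hA (by positivity) (by linarith) hε0 hε1 hN h2
        (h4.trans hwN') hT1 hT2 ?_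
      intro t ht1 ht2
      obtain ⟨q1, q2, q3, q4⟩ := L4_block p hp hA hρ hN (hu _ h1 (h2.trans h3))
        (hu _ (h1.trans h2) h3) ⟨hn1, hn2⟩ hn3 (h4.trans hwN) ht1 ht2
      exact ⟨q1, q2, q3, q4, hH t ht1 ht2⟩
    · push Not at hz
      rw [Finset.sum_eq_zero, norm_zero]
      · exact hG0
      · intro n hn
        rw [Finset.mem_Icc] at hn
        exact hz n hn.1 hn.2
  · -- bad blocks
    intro f hf hsep
    have hf' : ∀ i, ∃ t : ℝ, ((na + (f i : ℤ) * L : ℤ) : ℝ) ≤ t ∧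
        t ≤ ((min nb (na + (f i + 1 : ℤ) * L - 1) : ℤ) : ℝ) ∧
        |p.H (j + 1) (u0 + t / N)| < ε ∧ (|u0 + t / N| ≤ 40 ∧ 1 ≤ p.n.eval (u0 + t / N) ∧
        (ρ / 2) ^ 2 ≤ p.R1.eval (u0 + t / N) ∧ (ρ / 2) ^ 2 ≤ p.R2.eval (u0 + t / N)) := by
      intro i
      obtain ⟨⟨⟨n, hn1, hn2, hn3⟩, t, ht1, ht2, ht3⟩, hi⟩ := hf i
      obtain ⟨h1, h2, h3, h4⟩ := hblk (f i) hi
      exact ⟨t, ht1, ht2, ht3, L4_block p hp hA hρ hN (hu _ h1 (h2.trans h3))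
        (hu _ (h1.trans h2) h3) ⟨hn1, hn2⟩ hn3 (h4.trans hwN) ht1 ht2⟩
    choose t ht1 ht2 ht3 ht4 using hf'
    obtain ⟨g, hge⟩ : ∃ g : ℝ, g = min 1 ((((s : ℝ) - 1) * L + 1) / N) := ⟨_, rfl⟩
    have hgΓ : Γ < g := by
      rw [hge]
      refine lt_min hΓ ?_
      rw [lt_div_iff₀ hN0]; linarith
    have hg1 : g ≤ 1 := hge ▸ min_le_left _ _
    have hsepr : ∀ i l : Fin (d + 1), i < l → g ≤ (u0 + t l / N) - (u0 + t i / N) := by
      intro i l hil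
      have h1 := hsep i l hil
      have h2 : ((s : ℝ) - 1) * L + 1 ≤ t l - t i := by
        have e1 := ht1 l
        have e2 : t i ≤ ((na + (f i + 1 : ℤ) * L - 1 : ℤ) : ℝ) :=
          (ht2 i).trans (by exact_mod_cast min_le_right _ _)
        have e3 : ((f i : ℝ) + s) ≤ f l := by exact_mod_cast h1
        push_cast at e1 e2
        have e4 : ((f i : ℝ) + s) * L ≤ f l * L := by gcongr
        linarith
      have e : (u0 + t l / N) - (u0 + t i / N) = (t l - t i) / N := by ring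
      rw [e, hge]
      exact (min_le_right _ _).trans (div_le_div_of_nonneg_right h2 hN0.le)
    have hsep2 : ∀ i l : Fin (d + 1), i ≠ l → g ≤ |(u0 + t i / N) - (u0 + t l / N)| := by
      intro i l hil
      rcases lt_or_gt_of_ne hil with h | h
      · rw [abs_sub_comm]; exact (hsepr i l h).trans (le_abs_self _)
      · exact (hsepr l i h).trans (le_abs_self _)
    have hρ2 : 0 < (ρ / 2) ^ 2 := by positivity
    have hfinal : μ ^ E₂ * g ^ d ≤ K₂ * ε := by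
      clear hK hK0 hfin hsL hsL'
      subst hd
      exact hnd p μ hp g ε (hΓ0.trans hgΓ) hg1 hε0.le (fun i => u0 + t i / N)
        (fun i => (ht4 i).1) hsep2 (fun i => one_pos.trans_le (ht4 i).2.1)
        (fun i => hρ2.trans_le (ht4 i).2.2.1) (fun i => hρ2.trans_le (ht4 i).2.2.2)
        (fun i => (ht3 i).le)
    have hΓd : K₂ * ε ≤ μ ^ E₂ * Γ ^ d := by
      have e1 : (N ^ (-c)) ^ d = ε := by
        rw [hεe, hae, ← Real.rpow_natCast, ← Real.rpow_mul hN0.le, ← Real.rpow_neg hN0.le]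
        congr 1
        linarith [hcd]
      have e2 : K₂ ≤ K₃ ^ d := hK₃2.trans (le_self_pow₀ hK₃1 (by omega))
      have e3 : (μ⁻¹) ^ E₂ ≤ ((μ⁻¹) ^ E₂) ^ d :=
        le_self_pow₀ (one_le_pow₀ ((one_le_inv₀ hμ).2 hμ1)) (by omega)
      have e4 : μ ^ E₂ * (μ⁻¹) ^ E₂ = 1 := by
        rw [← mul_pow, mul_inv_cancel₀ hμ.ne', one_pow]
      rw [hΓe, mul_pow, mul_pow, e1]
      calc K₂ * ε = μ ^ E₂ * (K₂ * (μ⁻¹) ^ E₂ * ε) := by
            rw [show μ ^ E₂ * (K₂ * (μ⁻¹) ^ E₂ * ε) = (μ ^ E₂ * (μ⁻¹) ^ E₂) * (K₂ * ε) by ring, e4,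
              one_mul]
        _ ≤ μ ^ E₂ * (K₃ ^ d * ((μ⁻¹) ^ E₂) ^ d * ε) := by gcongr
    have hlt : μ ^ E₂ * Γ ^ d < μ ^ E₂ * g ^ d :=
      mul_lt_mul_of_pos_left (pow_lt_pow_left₀ hgΓ hΓ0.le (by omega)) (by positivity)
    linarith
  · -- total
    refine hmain.trans ?_
    have haρ : 1 ≤ 48 * a * ρ⁻¹ := by
      have h1 : 1 ≤ ρ⁻¹ := (one_le_inv₀ hρ).2 hρ1
      exact one_le_mul_of_one_le_of_one_le
        (one_le_mul_of_one_le_of_one_le (by norm_num) ha1) h1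
    have hA1 : (((nb - na : ℤ) : ℝ) / L + 1) ≤ 161 * 48 * a * ρ⁻¹ := by
      have e1 : N = 48 * a * ρ⁻¹ * w := by
        rw [hwe]; field_simp
      have e2 : ((nb - na : ℤ) : ℝ) / L ≤ 160 * 48 * a * ρ⁻¹ := by
        rw [div_le_iff₀ hL0']
        calc ((nb - na : ℤ) : ℝ) ≤ 80 * N := hlen
          _ = 80 * (48 * a * ρ⁻¹ * w) := by rw [← e1]
          _ ≤ 80 * (48 * a * ρ⁻¹ * (2 * L)) := by gcongr
          _ = 160 * 48 * a * ρ⁻¹ * L := by ring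
      linarith
    have hA2 : G = K₁ * X * (2 ^ E₁ * (ρ⁻¹) ^ E₁) * (a * a) * N ^ (1 - c₁) := by
      rw [hGe, hεe, inv_inv, show (ρ / 2)⁻¹ = 2 * ρ⁻¹ by field_simp, mul_pow]
      ring
    have hNc1 : 0 < N ^ (1 - c₁) := Real.rpow_pos_of_pos hN0 _
    have hp1 : (((nb - na : ℤ) : ℝ) / L + 1) * G ≤ 161 * 48 * K₁ * 2 ^ E₁ * X * Q * F := by
      calc (((nb - na : ℤ) : ℝ) / L + 1) * G ≤ (161 * 48 * a * ρ⁻¹) * G := by gcongr
        _ = 161 * 48 * K₁ * 2 ^ E₁ * X * (ρ⁻¹) ^ (E₁ + 1) * (a * a * a * N ^ (1 - c₁)) := by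
            rw [hA2, pow_succ]; ring
        _ ≤ 161 * 48 * K₁ * 2 ^ E₁ * X * Q * F := by gcongr
    have hwF : w ≤ Q * F := by
      have h1 : w ≤ N / a := by
        rw [hwe, div_le_div_iff₀ (by positivity) ha0]
        have h2 := mul_pos hN0 ha0
        have h3 := mul_le_mul_of_nonneg_right hρ1 h2.le
        linarith only [h2, h3]
      exact (h1.trans f4).trans (le_mul_of_one_le_left hF0.le hPE1)
    have hp2 : (d : ℝ) * s * L * (B0 * B0) ≤ d * (K₃ + 2) * X * Q * F := by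
      calc (d : ℝ) * s * L * (B0 * B0) = d * (s * L) * (B0 * B0) := by ring
        _ ≤ d * (Γ * N + 2 * w) * X := by gcongr
        _ ≤ d * (K₃ * Q * F + 2 * (Q * F)) * X := by gcongr
        _ = d * (K₃ + 2) * X * Q * F := by ring
    refine (add_le_add hp1 hp2).trans ?_
    rw [show 161 * 48 * K₁ * 2 ^ E₁ * X * Q * F + d * (K₃ + 2) * X * Q * F =
      (161 * 48 * K₁ * 2 ^ E₁ + d * (K₃ + 2)) * X * Q * F by ring]
    refine hfin _ ?_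
    rw [hK]
    have : 0 ≤ 81 * 48 + 81 * K₃ := by positivity
    linarith

end Pool.Agent.H19.Sup
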