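import Mathlib
import Pool.Agent.H19.Sup.Defs

set_option autoImplicit false

/-!
# N3: lower bound of `PP` at a complex root of `R1`

Proof.  Let `s = 1 + Y`, `w = m1 - i s n1` (not `0`: otherwise `m1 = n1 = 0` and `D = 0`), and
`u0 = (-m0 + i s n0) / w`, so that `m(u0) = i s n(u0)` (evaluation in `ℂ`).
* `n(u0) = n0 + n1 u0 = D / w`, `|w| ≤ 2 + 8/3 ≤ 5`, so `|n(u0)| ≥ μ / 5`.
* `|w| ≥ μ / 20`: from `μ ≤ |D| ≤ 4 |m1| + 4 |n1|` and `|w|² = m1² + s² n1²`.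
  So `|u0| ≤ (4 + 11) / (μ / 20)`.
* In `ℂ[X]`: `R1 = (m - i s n)(m + i s n)(m - i s' n)(m + i s' n)`, `s' = 1 - Y`; the first factor vanishes
  at `u0`, so `R1(u0) = 0` and `R1'(u0) = w * (2 i s n) (i (s - s') n) (i (s + s') n)`, with `s - s' = 2Y`,
  `s + s' = 2`, hence `|R1'(u0)| = 8 s Y |w| |n(u0)|³ = 8 s Y |D| |n(u0)|² ≥ c μ³`.
* by induction `al1 (j+1) (u0) = (1/2 - (j+1)) n(u0) R1'(u0) al1 j (u0)` and `al1 0 (u0) = 2 D m(u0)`,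
  `|m(u0)| = s |n(u0)|`; so `|al1 j (u0)| ≥ c_j μ^E`.
* `R2(u0) = n(u0)⁴ ((is - Δ)² + (1-Y')²) ((is - Δ)² + (1+Y')²)` and
  `(is - Δ)² + t² = (-Δ + i (s - t)) (-Δ + i (s + t))`.  For `t = 1 + Y'`: `|-Δ + i (Y - Y')| ≥ μ` (`Good.hne`),
  `s + t ≥ 3`; for `t = 1 - Y'`: `s - t = Y + Y' ≥ 6/5`, `s + t = 2 + Y - Y' ≥ 14/15`.
  So `|R2(u0)| ≥ c μ⁵`.
* `PP j (u0) = al1 j (u0)² R2(u0)^(2j+1)`.
-/

namespace Pool.Agent.H19.Sup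

open Polynomial

/-- the norm of `a + i b` is at least `|b|` -/
theorem N3_im_le (a b : ℝ) : |b| ≤ ‖(a : ℂ) + Complex.I * (b : ℂ)‖ := by
  have h := Complex.abs_im_le_norm ((a : ℂ) + Complex.I * (b : ℂ))
  simpa using h

theorem N3_sq (a b : ℝ) : ‖(a : ℂ) + Complex.I * (b : ℂ)‖ ^ 2 = a ^ 2 + b ^ 2 := by
  rw [← Complex.normSq_eq_norm_sq, Complex.normSq_apply]
  simp
  ring

theorem N3_base (p : Par) (μ : ℝ) (h : p.Good μ) :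
    ∃ u0 nn w : ℂ, ‖u0‖ ≤ 300 * μ⁻¹ ∧ aeval u0 p.n = nn ∧
      aeval u0 p.m = Complex.I * ((1 + p.Y : ℝ) : ℂ) * nn ∧ μ / 5 ≤ ‖nn‖ ∧ nn * w = (p.D : ℂ) ∧
      w = (p.m1 : ℂ) - Complex.I * ((1 + p.Y : ℝ) : ℂ) * (p.n1 : ℂ) := by
  obtain ⟨hμ, hμ1, hm0, hm1, hn0, hn1, hY, hY', hΔ, hD, hne⟩ := h
  set s : ℝ := 1 + p.Y with hs
  have hs1 : 8 / 5 ≤ s := by rw [hs]; linarith [hY.1]
  have hs2 : s ≤ 8 / 3 := by rw [hs]; linarith [hY.2]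
  set w : ℂ := (p.m1 : ℂ) - Complex.I * (s : ℂ) * (p.n1 : ℂ) with hw
  have hw' : w = (p.m1 : ℂ) + Complex.I * ((-(s * p.n1) : ℝ) : ℂ) := by
    rw [hw]; push_cast; ring
  have hwsq : ‖w‖ ^ 2 = p.m1 ^ 2 + (s * p.n1) ^ 2 := by
    rw [hw', N3_sq]; ring
  have hDle : |p.D| ≤ 4 * |p.m1| + 4 * |p.n1| := by
    unfold Par.D
    have h1 : |p.m1 * p.n0 - p.m0 * p.n1| ≤ |p.m1 * p.n0| + |p.m0 * p.n1| := abs_sub _ _
    rw [abs_mul, abs_mul] at h1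
    have h2 : |p.m1| * |p.n0| ≤ |p.m1| * 4 := mul_le_mul_of_nonneg_left hn0 (abs_nonneg _)
    have h3 : |p.m0| * |p.n1| ≤ 4 * |p.n1| := mul_le_mul_of_nonneg_right hm0 (abs_nonneg _)
    linarith
  have hwlow : μ / 20 ≤ ‖w‖ := by
    have h1 : (μ / 20) ^ 2 ≤ ‖w‖ ^ 2 := by
      rw [hwsq]
      have h2 : μ ≤ 4 * (|p.m1| + |p.n1|) := by linarith
      have h3 : μ ^ 2 ≤ 16 * (|p.m1| + |p.n1|) ^ 2 := by nlinarith [abs_nonneg p.m1, abs_nonneg p.n1]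
      have h4 : (|p.m1| + |p.n1|) ^ 2 ≤ 2 * (p.m1 ^ 2 + p.n1 ^ 2) := by
        nlinarith [sq_nonneg (|p.m1| - |p.n1|), sq_abs p.m1, sq_abs p.n1]
      have h5 : p.n1 ^ 2 ≤ (s * p.n1) ^ 2 := by
        rw [mul_pow]
        have hs3 : 1 ≤ s ^ 2 := by nlinarith
        exact le_mul_of_one_le_left (sq_nonneg _) hs3
      nlinarith [sq_nonneg p.m1, sq_nonneg p.n1]
    exact le_of_sq_le_sq h1 (norm_nonneg _)
  have hwne : w ≠ 0 := by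
    intro h0
    rw [h0, norm_zero] at hwlow
    linarith
  have hwup : ‖w‖ ≤ 5 := by
    have h1 : ‖w‖ ^ 2 ≤ 5 ^ 2 := by
      rw [hwsq]
      have h2 : p.m1 ^ 2 ≤ 2 ^ 2 := by
        rw [← sq_abs]; exact pow_le_pow_left₀ (abs_nonneg _) hm1 2
      have h3 : p.n1 ^ 2 ≤ 1 ^ 2 := by
        rw [← sq_abs]; exact pow_le_pow_left₀ (abs_nonneg _) hn1 2
      have h4 : (s * p.n1) ^ 2 ≤ 9 * 1 := by
        rw [mul_pow]
        have : s ^ 2 ≤ 9 := by nlinarith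
        nlinarith [sq_nonneg p.n1]
      linarith
    exact le_of_sq_le_sq h1 (by norm_num)
  set u0 : ℂ := (-(p.m0 : ℂ) + Complex.I * (s : ℂ) * (p.n0 : ℂ)) / w with hu0
  have hu0w : u0 * w = -(p.m0 : ℂ) + Complex.I * (s : ℂ) * (p.n0 : ℂ) := div_mul_cancel₀ _ hwne
  have hn : aeval u0 p.n = (p.n0 : ℂ) + (p.n1 : ℂ) * u0 := by
    simp [Par.n, aeval_C]
  have hm : aeval u0 p.m = (p.m0 : ℂ) + (p.m1 : ℂ) * u0 := by
    simp [Par.m, aeval_C]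
  have hnw : ((p.n0 : ℂ) + (p.n1 : ℂ) * u0) * w = (p.D : ℂ) := by
    have : ((p.n0 : ℂ) + (p.n1 : ℂ) * u0) * w = (p.n0 : ℂ) * w + (p.n1 : ℂ) * (u0 * w) := by ring
    rw [this, hu0w, hw]
    unfold Par.D
    push_cast
    ring
  have hmw : ((p.m0 : ℂ) + (p.m1 : ℂ) * u0) * w = Complex.I * (s : ℂ) * (p.D : ℂ) := by
    have : ((p.m0 : ℂ) + (p.m1 : ℂ) * u0) * w = (p.m0 : ℂ) * w + (p.m1 : ℂ) * (u0 * w) := by ring
    rw [this, hu0w, hw]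
    unfold Par.D
    push_cast
    ring
  refine ⟨u0, (p.n0 : ℂ) + (p.n1 : ℂ) * u0, w, ?_, hn, ?_, ?_, hnw, rfl⟩
  · rw [hu0, norm_div, div_le_iff₀ (lt_of_lt_of_le (by positivity) hwlow)]
    have h1 : ‖-(p.m0 : ℂ) + Complex.I * (s : ℂ) * (p.n0 : ℂ)‖ ≤ 15 := by
      refine (norm_add_le _ _).trans ?_
      rw [norm_neg, norm_mul, norm_mul, Complex.norm_I, Complex.norm_real, Complex.norm_real,
        Complex.norm_real, Real.norm_eq_abs, Real.norm_eq_abs, Real.norm_eq_abs, one_mul]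
      have h2 : |s| ≤ 8 / 3 := by rw [abs_of_nonneg (by linarith)]; exact hs2
      have h3 : |s| * |p.n0| ≤ 8 / 3 * 4 := mul_le_mul h2 hn0 (abs_nonneg _) (by norm_num)
      linarith
    have h2 : (15 : ℝ) ≤ 300 * μ⁻¹ * ‖w‖ := by
      have h3 : 300 * μ⁻¹ * (μ / 20) = 15 := by field_simp; norm_num
      rw [← h3]
      exact mul_le_mul_of_nonneg_left hwlow (by positivity)
    exact h1.trans h2
  · rw [hm]
    apply mul_right_cancel₀ hwne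
    rw [hmw, mul_assoc (Complex.I * (s : ℂ)), hnw]
  · have h1 : ‖(p.n0 : ℂ) + (p.n1 : ℂ) * u0‖ * ‖w‖ = |p.D| := by
      rw [← norm_mul, hnw, Complex.norm_real, Real.norm_eq_abs]
    have h2 : ‖(p.n0 : ℂ) + (p.n1 : ℂ) * u0‖ * ‖w‖ ≤ ‖(p.n0 : ℂ) + (p.n1 : ℂ) * u0‖ * 5 :=
      mul_le_mul_of_nonneg_left hwup (norm_nonneg _)
    linarith

theorem N3_R1 (p : Par) (u0 nn w : ℂ) (hn : aeval u0 p.n = nn)
    (hm : aeval u0 p.m = Complex.I * ((1 + p.Y : ℝ) : ℂ) * nn)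
    (hnw : nn * w = (p.D : ℂ))
    (hw : w = (p.m1 : ℂ) - Complex.I * ((1 + p.Y : ℝ) : ℂ) * (p.n1 : ℂ)) :
    aeval u0 p.R1 = 0 ∧ aeval u0 (derivative p.R1) =
      -(8 * Complex.I * ((1 + p.Y : ℝ) : ℂ) * (p.Y : ℂ) * (p.D : ℂ) * nn ^ 2) := by
  have hdm : derivative p.m = C p.m1 := by simp [Par.m]
  have hdn : derivative p.n = C p.n1 := by simp [Par.n]
  have hI : Complex.I ^ 2 = -1 := Complex.I_sq
  constructor
  · unfold Par.R1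
    simp only [map_add, map_mul, map_pow, aeval_C, hn, hm, Complex.coe_algebraMap]
    push_cast
    have : (Complex.I * (1 + (p.Y : ℂ)) * nn) ^ 2 + (1 + (p.Y : ℂ)) ^ 2 * nn ^ 2 = 0 := by
      have e : (Complex.I * (1 + (p.Y : ℂ)) * nn) ^ 2 = Complex.I ^ 2 * ((1 + (p.Y : ℂ)) ^ 2 * nn ^ 2) := by
        ring
      rw [e, hI]; ring
    rw [this, mul_zero]
  · unfold Par.R1
    rw [← hnw, hw]
    simp only [derivative_mul, derivative_add, derivative_pow, derivative_C, hdm, hdn, zero_mul,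
      zero_add, map_add, map_mul, map_pow, aeval_C, hn, hm, Complex.coe_algebraMap, map_natCast, map_zero]
    push_cast
    have e2 : (Complex.I * (1 + (p.Y : ℂ)) * nn) ^ 2 = -((1 + (p.Y : ℂ)) ^ 2 * nn ^ 2) := by
      have e : (Complex.I * (1 + (p.Y : ℂ)) * nn) ^ 2 = Complex.I ^ 2 * ((1 + (p.Y : ℂ)) ^ 2 * nn ^ 2) := by
        ring
      rw [e, hI]; ring
    rw [e2]
    ring_nf
    simp only [hI]
    ring

theorem N3_al (p : Par) (u0 nn w : ℂ) (hn : aeval u0 p.n = nn) (hR : aeval u0 p.R1 = 0) (j : ℕ) :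
    aeval u0 (p.al1 (j + 1)) =
      (((1 / 2 - (j + 1 : ℝ) : ℝ)) : ℂ) * nn * aeval u0 (derivative p.R1) * aeval u0 (p.al1 j) := by
  unfold Par.al1
  rw [Par.al]
  simp only [map_add, map_sub, map_mul, aeval_C, hn, hR, Complex.coe_algebraMap]
  push_cast
  ring

theorem N3_al_lower (p : Par) (μ : ℝ) (h : p.Good μ) (u0 nn w : ℂ) (hn : aeval u0 p.n = nn)
    (hm : aeval u0 p.m = Complex.I * ((1 + p.Y : ℝ) : ℂ) * nn) (hlow : μ / 5 ≤ ‖nn‖)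
    (hR : aeval u0 p.R1 = 0) (hR' : aeval u0 (derivative p.R1) =
      -(8 * Complex.I * ((1 + p.Y : ℝ) : ℂ) * (p.Y : ℂ) * (p.D : ℂ) * nn ^ 2)) (j : ℕ) :
    3 / 5 * μ ^ 2 * (3 / 100 * μ ^ 4) ^ j ≤ ‖aeval u0 (p.al1 j)‖ := by
  obtain ⟨hμ, hμ1, hm0, hm1, hn0, hn1, hY, hY', hΔ, hD, hne⟩ := h
  have hsabs : 8 / 5 ≤ |1 + p.Y| := by
    rw [abs_of_nonneg (by linarith [hY.1])]; linarith [hY.1]
  have hYabs : 3 / 5 ≤ |p.Y| := by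
    rw [abs_of_nonneg (by linarith [hY.1])]; exact hY.1
  have hder : 3 / 10 * μ ^ 3 ≤ ‖aeval u0 (derivative p.R1)‖ := by
    rw [hR', norm_neg, norm_mul, norm_mul, norm_mul, norm_mul, norm_mul, norm_pow, Complex.norm_I,
      Complex.norm_real, Complex.norm_real, Complex.norm_real, Real.norm_eq_abs, Real.norm_eq_abs,
      Real.norm_eq_abs]
    have h8 : ‖(8 : ℂ)‖ = 8 := by norm_num
    rw [h8]
    have h1 : (μ / 5) ^ 2 ≤ ‖nn‖ ^ 2 := pow_le_pow_left₀ (by positivity) hlow 2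
    calc 3 / 10 * μ ^ 3 ≤ 8 * 1 * (8 / 5) * (3 / 5) * μ * (μ / 5) ^ 2 := by
          nlinarith [pow_pos hμ 3]
      _ ≤ 8 * 1 * |1 + p.Y| * |p.Y| * |p.D| * ‖nn‖ ^ 2 := by gcongr
  induction j with
  | zero =>
    rw [pow_zero, mul_one]
    unfold Par.al1
    rw [Par.al]
    unfold Par.a1
    rw [map_mul, aeval_C, hm, Complex.coe_algebraMap, norm_mul, norm_mul, norm_mul, Complex.norm_I,
      Complex.norm_real, Complex.norm_real, Real.norm_eq_abs, Real.norm_eq_abs, abs_mul,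
      abs_of_nonneg (by norm_num : (0 : ℝ) ≤ 2)]
    calc 3 / 5 * μ ^ 2 ≤ 2 * μ * (1 * (8 / 5) * (μ / 5)) := by nlinarith [pow_pos hμ 2]
      _ ≤ 2 * |p.D| * (1 * |1 + p.Y| * ‖nn‖) := by gcongr
  | succ j ih =>
    rw [N3_al p u0 nn w hn hR j, norm_mul, norm_mul, norm_mul, Complex.norm_real, Real.norm_eq_abs]
    have h1 : (1 : ℝ) / 2 ≤ |1 / 2 - ((j : ℝ) + 1)| := by
      rw [abs_sub_comm, abs_of_nonneg (by have : (0 : ℝ) ≤ j := Nat.cast_nonneg j; linarith)]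
      have : (0 : ℝ) ≤ j := Nat.cast_nonneg j
      linarith
    calc 3 / 5 * μ ^ 2 * (3 / 100 * μ ^ 4) ^ (j + 1)
        = 1 / 2 * (μ / 5) * (3 / 10 * μ ^ 3) * (3 / 5 * μ ^ 2 * (3 / 100 * μ ^ 4) ^ j) := by
          rw [pow_succ]; ring
      _ ≤ |1 / 2 - ((j : ℝ) + 1)| * ‖nn‖ * ‖aeval u0 (derivative p.R1)‖ * ‖aeval u0 (p.al1 j)‖ := by
          gcongr

theorem N3_R2_lower (p : Par) (μ : ℝ) (h : p.Good μ) (u0 nn : ℂ) (hn : aeval u0 p.n = nn)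
    (hm : aeval u0 p.m = Complex.I * ((1 + p.Y : ℝ) : ℂ) * nn) (hlow : μ / 5 ≤ ‖nn‖) :
    3 / 625 * μ ^ 5 ≤ ‖aeval u0 p.R2‖ := by
  obtain ⟨hμ, hμ1, hm0, hm1, hn0, hn1, hY, hY', hΔ, hD, hne⟩ := h
  have hI : Complex.I ^ 2 = -1 := Complex.I_sq
  have e : aeval u0 p.R2 = nn ^ 4 *
      ((((-p.Δ : ℝ) : ℂ) + Complex.I * ((p.Y + p.Y' : ℝ) : ℂ)) *
        (((-p.Δ : ℝ) : ℂ) + Complex.I * ((2 + p.Y - p.Y' : ℝ) : ℂ))) *
      ((((-p.Δ : ℝ) : ℂ) + Complex.I * ((p.Y - p.Y' : ℝ) : ℂ)) *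
        (((-p.Δ : ℝ) : ℂ) + Complex.I * ((2 + p.Y + p.Y' : ℝ) : ℂ))) := by
    unfold Par.R2 Par.m'
    simp only [map_add, map_sub, map_mul, map_pow, aeval_C, hn, hm, Complex.coe_algebraMap]
    push_cast
    have e1 : (Complex.I * (1 + (p.Y : ℂ)) * nn - (p.Δ : ℂ) * nn) ^ 2 + (1 - (p.Y' : ℂ)) ^ 2 * nn ^ 2 =
        nn ^ 2 * ((-(p.Δ : ℂ) + Complex.I * ((p.Y : ℂ) + (p.Y' : ℂ))) *
          (-(p.Δ : ℂ) + Complex.I * (2 + (p.Y : ℂ) - (p.Y' : ℂ)))) := by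
      linear_combination (1 - (p.Y' : ℂ)) ^ 2 * nn ^ 2 * (hI)
    have e2 : (Complex.I * (1 + (p.Y : ℂ)) * nn - (p.Δ : ℂ) * nn) ^ 2 + (1 + (p.Y' : ℂ)) ^ 2 * nn ^ 2 =
        nn ^ 2 * ((-(p.Δ : ℂ) + Complex.I * ((p.Y : ℂ) - (p.Y' : ℂ))) *
          (-(p.Δ : ℂ) + Complex.I * (2 + (p.Y : ℂ) + (p.Y' : ℂ)))) := by
      linear_combination (1 + (p.Y' : ℂ)) ^ 2 * nn ^ 2 * (hI)
    rw [e1, e2]
    ring
  rw [e, norm_mul, norm_mul, norm_mul, norm_mul, norm_pow]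
  have h1 : (μ / 5) ^ 4 ≤ ‖nn‖ ^ 4 := pow_le_pow_left₀ (by positivity) hlow 4
  have h2 : 6 / 5 ≤ ‖((-p.Δ : ℝ) : ℂ) + Complex.I * ((p.Y + p.Y' : ℝ) : ℂ)‖ := by
    refine le_trans ?_ (N3_im_le _ _)
    rw [abs_of_nonneg (by linarith [hY.1, hY'.1])]
    linarith [hY.1, hY'.1]
  have h3 : 5 / 6 ≤ ‖((-p.Δ : ℝ) : ℂ) + Complex.I * ((2 + p.Y - p.Y' : ℝ) : ℂ)‖ := by
    refine le_trans ?_ (N3_im_le _ _)
    rw [abs_of_nonneg (by linarith [hY.1, hY'.2])]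
    linarith [hY.1, hY'.2]
  have h4 : μ ≤ ‖((-p.Δ : ℝ) : ℂ) + Complex.I * ((p.Y - p.Y' : ℝ) : ℂ)‖ := by
    have h5 : μ ^ 2 ≤ ‖((-p.Δ : ℝ) : ℂ) + Complex.I * ((p.Y - p.Y' : ℝ) : ℂ)‖ ^ 2 := by
      rw [N3_sq]; linarith
    exact le_of_sq_le_sq h5 (norm_nonneg _)
  have h6 : 3 ≤ ‖((-p.Δ : ℝ) : ℂ) + Complex.I * ((2 + p.Y + p.Y' : ℝ) : ℂ)‖ := by
    refine le_trans ?_ (N3_im_le _ _)
    rw [abs_of_nonneg (by linarith [hY.1, hY'.1])]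
    linarith [hY.1, hY'.1]
  calc 3 / 625 * μ ^ 5 = (μ / 5) ^ 4 * (6 / 5 * (5 / 6)) * (μ * 3) := by ring
    _ ≤ _ := by gcongr

theorem PP_lower (j : ℕ) : ∃ (K : ℝ) (E : ℕ), 0 < K ∧ ∀ (p : Par) (μ : ℝ), p.Good μ →
    ∃ u0 : ℂ, ‖u0‖ ≤ K * (μ⁻¹) ^ E ∧ μ ^ E ≤ K * ‖aeval u0 (p.PP j)‖ := by
  set c : ℝ := (3 / 5 * (3 / 100) ^ j) ^ 2 * (3 / 625) ^ (2 * j + 1) with hc
  have hcpos : 0 < c := by positivity
  refine ⟨300 + c⁻¹, 18 * j + 9, by positivity, fun p μ h => ?_⟩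
  obtain ⟨u0, nn, w, hu0, hn, hm, hlow, hnw, hw⟩ := N3_base p μ h
  obtain ⟨hR, hR'⟩ := N3_R1 p u0 nn w hn hm hnw hw
  have hal := N3_al_lower p μ h u0 nn w hn hm hlow hR hR' j
  have hR2 := N3_R2_lower p μ h u0 nn hn hm hlow
  have hμ := h.hμ
  refine ⟨u0, ?_, ?_⟩
  · refine hu0.trans ?_
    have h1 : 1 ≤ μ⁻¹ := (one_le_inv₀ hμ).mpr h.hμ1
    have h2 : μ⁻¹ ≤ (μ⁻¹) ^ (18 * j + 9) := le_self_pow₀ h1 (by omega)
    have h3 : (0 : ℝ) < c⁻¹ := by positivity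
    nlinarith [inv_pos.mpr hμ]
  · have e : aeval u0 (p.PP j) = (aeval u0 (p.al1 j)) ^ 2 * (aeval u0 p.R2) ^ (2 * j + 1) := by
      unfold Par.PP
      rw [map_sub, map_mul, map_mul, map_pow, map_pow, map_pow, map_pow, hR,
        zero_pow (by omega), mul_zero, sub_zero]
    rw [e, norm_mul, norm_pow, norm_pow]
    have h1 : (3 / 5 * μ ^ 2 * (3 / 100 * μ ^ 4) ^ j) ^ 2 * (3 / 625 * μ ^ 5) ^ (2 * j + 1) ≤
        ‖aeval u0 (p.al1 j)‖ ^ 2 * ‖aeval u0 p.R2‖ ^ (2 * j + 1) := by gcongr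
    have h2 : (3 / 5 * μ ^ 2 * (3 / 100 * μ ^ 4) ^ j) ^ 2 * (3 / 625 * μ ^ 5) ^ (2 * j + 1) =
        c * μ ^ (18 * j + 9) := by
      rw [hc, mul_pow, mul_pow, mul_pow, mul_pow, mul_pow, mul_pow, ← pow_mul, ← pow_mul,
        ← pow_mul, ← pow_mul, ← pow_mul]
      have : μ ^ (18 * j + 9) = μ ^ (2 * 2) * μ ^ (4 * (j * 2)) * μ ^ (5 * (2 * j + 1)) := by
        rw [← pow_add, ← pow_add]; congr 1; ring
      rw [this]; ring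
    rw [h2] at h1
    have h3 : μ ^ (18 * j + 9) ≤ c⁻¹ * (‖aeval u0 (p.al1 j)‖ ^ 2 * ‖aeval u0 p.R2‖ ^ (2 * j + 1)) := by
      rw [← div_eq_inv_mul, le_div_iff₀ hcpos]
      linarith
    have h4 : 0 ≤ ‖aeval u0 (p.al1 j)‖ ^ 2 * ‖aeval u0 p.R2‖ ^ (2 * j + 1) := by positivity
    nlinarith

end Pool.Agent.H19.Sup
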