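import Mathlib
import Pool.Agent.H19.Sup.Defs

set_option autoImplicit false

/-!
# N4: Lagrange interpolation bound, degree of `PP`

`interp`: Lagrange interpolation in `ℂ` at the nodes `u i` (Mathlib: `Lagrange.eq_interpolate_of_eval_eq`,
`Lagrange.interpolate`, `Lagrange.basis`):  `|P(u0)| ≤ ∑_i |P(u_i)| ∏_{l ≠ i} |u0 - u_l| / |u_i - u_l|`, every factor
is at most `(M + 40) / g ≤ 2 M / g`.

`PP_degree`: `natDegree m, n, m' ≤ 1`, `R1, R2 ≤ 4`, `al j ≤ 4 j + 1` by induction, so
`natDegree (PP j) ≤ 2 (4 j + 1) + 4 (2 j + 1) = 16 j + 6`.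
-/

namespace Pool.Agent.H19.Sup

open Polynomial

theorem interp (P : ℝ[X]) (d : ℕ) (hd : P.natDegree ≤ d) (u : Fin (d + 1) → ℝ) {g M ε : ℝ}
    (hg : 0 < g) (hM : 40 ≤ M) (hε : 0 ≤ ε) (hu : ∀ i, |u i| ≤ 40)
    (hsep : ∀ i l, i ≠ l → g ≤ |u i - u l|) (hP : ∀ i, |P.eval (u i)| ≤ ε) (u0 : ℂ)
    (hu0 : ‖u0‖ ≤ M) : ‖aeval u0 P‖ ≤ (d + 1) * ε * (2 * M / g) ^ d := by
  classical
  set Q : ℂ[X] := P.map (algebraMap ℝ ℂ) with hQ
  set v : Fin (d + 1) → ℂ := fun i => ((u i : ℝ) : ℂ) with hv
  have hinj : Set.InjOn v (Finset.univ : Finset (Fin (d + 1))) := by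
    intro i _ l _ hil
    by_contra hne
    have h1 := hsep i l hne
    have h2 : u i = u l := by
      simpa [hv] using hil
    rw [h2, sub_self, abs_zero] at h1
    linarith
  have hdeg : Q.degree < (Finset.univ : Finset (Fin (d + 1))).card := by
    rw [Finset.card_univ, Fintype.card_fin]
    have h1 : Q.natDegree ≤ d := (natDegree_map_le (f := algebraMap ℝ ℂ) (p := P)).trans hd
    calc Q.degree ≤ Q.natDegree := degree_le_natDegree
      _ < ((d + 1 : ℕ) : WithBot ℕ) := by exact_mod_cast Nat.lt_succ_of_le h1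
  have hQi : Q = Lagrange.interpolate Finset.univ v (fun i => Q.eval (v i)) :=
    Lagrange.eq_interpolate_of_eval_eq _ hinj hdeg (fun i _ => rfl)
  have hae : aeval u0 P = Q.eval u0 := by
    rw [hQ, eval_map_algebraMap]
  have hev : ∀ i, ‖Q.eval (v i)‖ ≤ ε := by
    intro i
    have h1 : Q.eval (v i) = ((P.eval (u i) : ℝ) : ℂ) := by
      rw [hQ, hv]
      simp only
      rw [eval_map_algebraMap]
      have := aeval_algebraMap_apply ℂ (u i) P
      simpa using this
    rw [h1, Complex.norm_real, Real.norm_eq_abs]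
    exact hP i
  have hM0 : 0 ≤ M := by linarith
  have h2M : 0 ≤ 2 * M / g := by positivity
  have hbasis : ∀ i, ‖(Lagrange.basis Finset.univ v i).eval u0‖ ≤ (2 * M / g) ^ d := by
    intro i
    unfold Lagrange.basis
    rw [eval_prod, norm_prod]
    calc ∏ l ∈ Finset.univ.erase i, ‖(Lagrange.basisDivisor (v i) (v l)).eval u0‖
        ≤ ∏ l ∈ Finset.univ.erase i, (2 * M / g) := by
          apply Finset.prod_le_prod
          · intro l _; exact norm_nonneg _
          · intro l hl
            have hne : i ≠ l := (Finset.ne_of_mem_erase hl).symm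
            have h1 := hsep i l hne
            unfold Lagrange.basisDivisor
            rw [eval_mul, eval_C, eval_sub, eval_X, eval_C, norm_mul, norm_inv]
            have h3 : ‖v i - v l‖ = |u i - u l| := by
              rw [hv]
              simp only
              rw [← Complex.ofReal_sub, Complex.norm_real, Real.norm_eq_abs]
            have h4 : ‖u0 - v l‖ ≤ 2 * M := by
              calc ‖u0 - v l‖ ≤ ‖u0‖ + ‖v l‖ := norm_sub_le _ _
                _ ≤ M + 40 := by
                    have : ‖v l‖ = |u l| := by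
                      rw [hv]
                      simp only
                      rw [Complex.norm_real, Real.norm_eq_abs]
                    rw [this]
                    exact add_le_add hu0 (hu l)
                _ ≤ 2 * M := by linarith
            rw [h3, div_eq_inv_mul]
            apply mul_le_mul _ h4 (norm_nonneg _) (by positivity)
            exact inv_anti₀ hg h1
      _ = (2 * M / g) ^ d := by
          rw [Finset.prod_const, Finset.card_erase_of_mem (Finset.mem_univ i), Finset.card_univ,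
            Fintype.card_fin]
          rfl
  rw [hae, hQi, Lagrange.interpolate_apply, eval_finsetSum]
  calc ‖∑ i, (C (Q.eval (v i)) * Lagrange.basis Finset.univ v i).eval u0‖
      ≤ ∑ i, ‖(C (Q.eval (v i)) * Lagrange.basis Finset.univ v i).eval u0‖ := norm_sum_le _ _
    _ ≤ ∑ _i : Fin (d + 1), ε * (2 * M / g) ^ d := by
        apply Finset.sum_le_sum
        intro i _
        rw [eval_mul, eval_C, norm_mul]
        exact mul_le_mul (hev i) (hbasis i) (norm_nonneg _) hε
    _ = (d + 1) * ε * (2 * M / g) ^ d := by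
        rw [Finset.sum_const, Finset.card_univ, Fintype.card_fin, nsmul_eq_mul]
        push_cast
        ring

theorem N4_lin (c0 c1 : ℝ) : (C c0 + C c1 * X : ℝ[X]).natDegree ≤ 1 := by
  refine (natDegree_add_le _ _).trans (max_le ?_ ?_)
  · rw [natDegree_C]; exact Nat.zero_le _
  · exact (natDegree_C_mul_le _ _).trans natDegree_X_le

theorem N4_m (p : Par) : p.m.natDegree ≤ 1 := N4_lin _ _

theorem N4_n (p : Par) : p.n.natDegree ≤ 1 := N4_lin _ _

theorem N4_m' (p : Par) : p.m'.natDegree ≤ 1 := by
  unfold Par.m'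
  refine (natDegree_sub_le _ _).trans (max_le (N4_m p) ?_)
  exact (natDegree_C_mul_le _ _).trans (N4_n p)

theorem N4_quad (a b : ℝ[X]) (c : ℝ) (ha : a.natDegree ≤ 1) (hb : b.natDegree ≤ 1) :
    (a ^ 2 + C c * b ^ 2).natDegree ≤ 2 := by
  refine (natDegree_add_le _ _).trans (max_le ?_ ?_)
  · exact (natDegree_pow_le_of_le 2 ha).trans (by norm_num)
  · exact (natDegree_C_mul_le _ _).trans ((natDegree_pow_le_of_le 2 hb).trans (by norm_num))

theorem N4_R1 (p : Par) : p.R1.natDegree ≤ 4 := by
  unfold Par.R1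
  exact (natDegree_mul_le_of_le (N4_quad _ _ _ (N4_m p) (N4_n p))
    (N4_quad _ _ _ (N4_m p) (N4_n p))).trans (by norm_num)

theorem N4_R2 (p : Par) : p.R2.natDegree ≤ 4 := by
  unfold Par.R2
  exact (natDegree_mul_le_of_le (N4_quad _ _ _ (N4_m' p) (N4_n p))
    (N4_quad _ _ _ (N4_m' p) (N4_n p))).trans (by norm_num)

theorem N4_al (p : Par) (R a : ℝ[X]) (hR : R.natDegree ≤ 4) (ha : a.natDegree ≤ 1) (j : ℕ) :
    (p.al R a j).natDegree ≤ 4 * j + 1 := by
  induction j with
  | zero => simpa [Par.al] using ha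
  | succ j ih =>
      have hn := N4_n p
      have hd : (derivative (p.al R a j)).natDegree ≤ 4 * j :=
        (natDegree_derivative_le _).trans (by omega)
      have hRd : (derivative R).natDegree ≤ 3 := (natDegree_derivative_le _).trans (by omega)
      rw [Par.al]
      refine (natDegree_add_le _ _).trans (max_le ((natDegree_sub_le _ _).trans (max_le ?_ ?_)) ?_)
      · exact (natDegree_mul_le_of_le (natDegree_mul_le_of_le hn hR) hd).trans (by omega)
      · refine (natDegree_mul_le_of_le (natDegree_mul_le_of_le (m := 0) ?_ hR) ih).trans (by omega)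
        rw [natDegree_C]
      · refine (natDegree_mul_le_of_le (natDegree_mul_le_of_le
          (natDegree_mul_le_of_le (m := 0) ?_ hn) hRd) ih).trans (by omega)
        rw [natDegree_C]

theorem PP_degree (p : Par) (j : ℕ) : (p.PP j).natDegree ≤ 16 * j + 6 := by
  have h1 : (p.al1 j).natDegree ≤ 4 * j + 1 := by
    unfold Par.al1
    refine N4_al p _ _ (N4_R1 p) ?_ j
    unfold Par.a1
    exact (natDegree_C_mul_le _ _).trans (N4_m p)
  have h2 : (p.al2 j).natDegree ≤ 4 * j + 1 := by
    unfold Par.al2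
    refine N4_al p _ _ (N4_R2 p) ?_ j
    unfold Par.a2
    exact (natDegree_C_mul_le _ _).trans (N4_m' p)
  unfold Par.PP
  refine (natDegree_sub_le _ _).trans (max_le ?_ ?_)
  · exact (natDegree_mul_le_of_le (natDegree_pow_le_of_le 2 h1)
      (natDegree_pow_le_of_le (2 * j + 1) (N4_R2 p))).trans (by ring_nf; omega)
  · exact (natDegree_mul_le_of_le (natDegree_pow_le_of_le 2 h2)
      (natDegree_pow_le_of_le (2 * j + 1) (N4_R1 p))).trans (by ring_nf; omega)

end Pool.Agent.H19.Sup
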