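import Mathlib
import Pool.Agent.H19.Sup.N2
import Pool.Agent.H19.Sup.N3
import Pool.Agent.H19.Sup.N4

set_option autoImplicit false

/-!
# N5: the derivatives of the phase are small at few separated points only

Proof.  At a node `u`: `A = al1 R1^(1/2-(j+1))`, `B = al2 R2^(1/2-(j+1))`, `|A - B| = n^(j+1) |H (j+1) u| ≤ 44^(j+1) ε`
and `PP = (A² - B²) (R1 R2)^(2j+1) = (A - B) * [al1 R1^(j+1/2) R2^(2j+1) + al2 R2^(j+1/2) R1^(2j+1)]`,
so `|PP (u_i)| ≤ K' ε` by `al_bound`.  Then `interp` with `u0` of `PP_lower` gives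
`μ^E ≤ K (16j+7) K' ε (2 M / g)^(16j+6)` with `M = 40 + K μ⁻¹^E`.
-/

namespace Pool.Agent.H19.Sup

open Polynomial

/-- squares of the powers with half integral exponent -/
theorem N5_rpow_sq {r : ℝ} (hr : 0 < r) (j : ℕ) :
    (r ^ (1 / 2 - (j + 1 : ℝ))) ^ 2 * r ^ (2 * j + 1) = 1 := by
  rw [← Real.rpow_natCast (r ^ (1 / 2 - (j + 1 : ℝ))) 2, ← Real.rpow_mul hr.le,
    ← Real.rpow_natCast r (2 * j + 1), ← Real.rpow_add hr]
  have : (1 / 2 - (j + 1 : ℝ)) * ((2 : ℕ) : ℝ) + ((2 * j + 1 : ℕ) : ℝ) = 0 := by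
    push_cast
    ring
  rw [this, Real.rpow_zero]

/-- the product of the power with half integral exponent with the large power is bounded -/
theorem N5_rpow_le {r K : ℝ} (hr : 0 < r) (hK : 1 ≤ K) (hrK : r ≤ K) (j : ℕ) :
    r ^ (1 / 2 - (j + 1 : ℝ)) * r ^ (2 * j + 1) ≤ K ^ (2 * j + 1) := by
  rw [← Real.rpow_natCast r (2 * j + 1), ← Real.rpow_add hr]
  have : (1 / 2 - (j + 1 : ℝ)) + ((2 * j + 1 : ℕ) : ℝ) = (j : ℝ) + 1 / 2 := by
    push_cast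
    ring
  rw [this]
  calc r ^ ((j : ℝ) + 1 / 2) ≤ K ^ ((j : ℝ) + 1 / 2) :=
        Real.rpow_le_rpow hr.le hrK (by positivity)
    _ ≤ K ^ ((2 * j + 1 : ℕ) : ℝ) := by
        apply Real.rpow_le_rpow_of_exponent_le hK
        push_cast
        have : (0 : ℝ) ≤ j := Nat.cast_nonneg j
        linarith
    _ = K ^ (2 * j + 1) := Real.rpow_natCast K (2 * j + 1)

/-- the computation at a node, with real numbers only -/
theorem N5_alg (j : ℕ) {a b r1 r2 n K ε : ℝ} (hK1 : 1 ≤ K) (hn : 0 < n) (hn44 : n ≤ 44)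
    (h1 : 0 < r1) (h2 : 0 < r2) (ha : |a| ≤ K) (hb : |b| ≤ K) (hr1 : r1 ≤ K) (hr2 : r2 ≤ K)
    (hH : |(n ^ (j + 1))⁻¹ * (a * r1 ^ (1 / 2 - (j + 1 : ℝ)) - b * r2 ^ (1 / 2 - (j + 1 : ℝ)))| ≤ ε) :
    |a ^ 2 * r2 ^ (2 * j + 1) - b ^ 2 * r1 ^ (2 * j + 1)| ≤
      44 ^ (j + 1) * (2 * K * (K ^ (2 * j + 1) * K ^ (2 * j + 1))) * ε := by
  have hxpos : 0 < r1 ^ (1 / 2 - (j + 1 : ℝ)) := Real.rpow_pos_of_pos h1 _
  have hypos : 0 < r2 ^ (1 / 2 - (j + 1 : ℝ)) := Real.rpow_pos_of_pos h2 _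
  have hxs := N5_rpow_sq h1 j
  have hys := N5_rpow_sq h2 j
  have hxl := N5_rpow_le h1 hK1 hr1 j
  have hyl := N5_rpow_le h2 hK1 hr2 j
  have hr1p : r1 ^ (2 * j + 1) ≤ K ^ (2 * j + 1) := pow_le_pow_left₀ h1.le hr1 _
  have hr2p : r2 ^ (2 * j + 1) ≤ K ^ (2 * j + 1) := pow_le_pow_left₀ h2.le hr2 _
  have hr1q : 0 < r1 ^ (2 * j + 1) := pow_pos h1 _
  have hr2q : 0 < r2 ^ (2 * j + 1) := pow_pos h2 _
  generalize r1 ^ (1 / 2 - (j + 1 : ℝ)) = x at *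
  generalize r2 ^ (1 / 2 - (j + 1 : ℝ)) = y at *
  generalize r1 ^ (2 * j + 1) = s1 at *
  generalize r2 ^ (2 * j + 1) = s2 at *
  have hKpos : 0 < K := by linarith
  have hL : 0 < K ^ (2 * j + 1) := pow_pos hKpos _
  generalize K ^ (2 * j + 1) = L at *
  have hnp : 0 < n ^ (j + 1) := pow_pos hn _
  have hnp' : n ^ (j + 1) ≤ 44 ^ (j + 1) := pow_le_pow_left₀ hn.le hn44 _
  generalize n ^ (j + 1) = nn at *
  generalize (44 : ℝ) ^ (j + 1) = c at *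
  have hε : 0 ≤ ε := (abs_nonneg _).trans hH
  have hdiff : |a * x - b * y| ≤ c * ε := by
    have e1 : a * x - b * y = nn * (nn⁻¹ * (a * x - b * y)) := by
      rw [mul_inv_cancel_left₀ hnp.ne']
    rw [e1, abs_mul, abs_of_pos hnp]
    exact mul_le_mul hnp' hH (abs_nonneg _) (hnp.le.trans hnp')
  have hsum : |a * ((x * s1) * s2) + b * ((y * s2) * s1)| ≤ 2 * K * (L * L) := by
    have hLL : 0 < L * L := mul_pos hL hL
    have e1 : |a * ((x * s1) * s2)| ≤ K * (L * L) := by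
      have f1 : 0 < (x * s1) * s2 := by positivity
      have f2 : (x * s1) * s2 ≤ L * L := mul_le_mul hxl hr2p hr2q.le hL.le
      rw [abs_mul, abs_of_pos f1]
      exact mul_le_mul ha f2 f1.le hKpos.le
    have e2 : |b * ((y * s2) * s1)| ≤ K * (L * L) := by
      have f1 : 0 < (y * s2) * s1 := by positivity
      have f2 : (y * s2) * s1 ≤ L * L := mul_le_mul hyl hr1p hr1q.le hL.le
      rw [abs_mul, abs_of_pos f1]
      exact mul_le_mul hb f2 f1.le hKpos.le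
    have e3 := abs_add_le (a * ((x * s1) * s2)) (b * ((y * s2) * s1))
    linarith
  have e4 : a ^ 2 * s2 - b ^ 2 * s1 = (a * x - b * y) * (a * ((x * s1) * s2) + b * ((y * s2) * s1)) := by
    have e5 : (a * x - b * y) * (a * ((x * s1) * s2) + b * ((y * s2) * s1)) =
        a ^ 2 * (x ^ 2 * s1) * s2 - b ^ 2 * (y ^ 2 * s2) * s1 := by ring
    rw [e5, hxs, hys]
    ring
  rw [e4, abs_mul]
  calc |a * x - b * y| * |a * ((x * s1) * s2) + b * ((y * s2) * s1)|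
      ≤ (c * ε) * (2 * K * (L * L)) :=
        mul_le_mul hdiff hsum (abs_nonneg _) ((abs_nonneg _).trans hdiff)
    _ = c * (2 * K * (L * L)) * ε := by ring

/-- the polynomial is small where the derivative of the phase is small -/
theorem N5_PP_small (j : ℕ) : ∃ K : ℝ, 0 < K ∧ ∀ (p : Par) (μ : ℝ), p.Good μ →
    ∀ (ε u : ℝ), |u| ≤ 40 → 0 < p.n.eval u → 0 < p.R1.eval u → 0 < p.R2.eval u →
    |p.H (j + 1) u| ≤ ε → |(p.PP j).eval u| ≤ K * ε := by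
  obtain ⟨K0, hK0, hal⟩ := al_bound j
  have hK1 : 1 ≤ max K0 1 := le_max_right _ _
  refine ⟨44 ^ (j + 1) * (2 * max K0 1 * (max K0 1 ^ (2 * j + 1) * max K0 1 ^ (2 * j + 1))),
    by positivity, ?_⟩
  intro p μ hp ε u hu hn h1 h2 hH
  obtain ⟨ha, hb, hr1, hr2⟩ := hal p μ hp u hu
  have hn44 : p.n.eval u ≤ 44 := by
    simp only [Par.n, eval_add, eval_mul, eval_C, eval_X]
    have e1 := hp.hn0
    have e2 := hp.hn1
    have e3 : p.n1 * u ≤ 40 := by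
      calc p.n1 * u ≤ |p.n1 * u| := le_abs_self _
        _ = |p.n1| * |u| := abs_mul _ _
        _ ≤ 1 * 40 := mul_le_mul e2 hu (abs_nonneg _) zero_le_one
        _ = 40 := by norm_num
    have e4 : p.n0 ≤ 4 := (le_abs_self _).trans e1
    linarith
  have e1 : (p.PP j).eval u = (p.al1 j).eval u ^ 2 * p.R2.eval u ^ (2 * j + 1) -
      (p.al2 j).eval u ^ 2 * p.R1.eval u ^ (2 * j + 1) := by
    simp only [Par.PP, eval_sub, eval_mul, eval_pow]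
  rw [e1]
  exact N5_alg j hK1 hn hn44 h1 h2 (ha.trans (le_max_left _ _)) (hb.trans (le_max_left _ _))
    ((le_abs_self _).trans (hr1.trans (le_max_left _ _)))
    ((le_abs_self _).trans (hr2.trans (le_max_left _ _))) hH

theorem nondeg (j : ℕ) : ∃ (K : ℝ) (E : ℕ), 0 < K ∧ ∀ (p : Par) (μ : ℝ), p.Good μ →
    ∀ (g ε : ℝ), 0 < g → g ≤ 1 → 0 ≤ ε → ∀ u : Fin (16 * j + 7) → ℝ, (∀ i, |u i| ≤ 40) →
    (∀ i l, i ≠ l → g ≤ |u i - u l|) → (∀ i, 0 < p.n.eval (u i)) →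
    (∀ i, 0 < p.R1.eval (u i)) → (∀ i, 0 < p.R2.eval (u i)) →
    (∀ i, |p.H (j + 1) (u i)| ≤ ε) → μ ^ E * g ^ (16 * j + 6) ≤ K * ε := by
  obtain ⟨K1, hK1, hsmall⟩ := N5_PP_small j
  obtain ⟨K3, E, hK3, hlow⟩ := PP_lower j
  refine ⟨K3 * ((((16 * j + 6 : ℕ) : ℝ) + 1) * K1 * (2 * (40 + K3)) ^ (16 * j + 6)),
    E + E * (16 * j + 6), by positivity, ?_⟩
  intro p μ hp g ε hg _ hε u hu hsep hn h1 h2 hH
  obtain ⟨u0, hu0, hPu0⟩ := hlow p μ hp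
  have hμ := hp.hμ
  have hμ1 := hp.hμ1
  have hμinv : 1 ≤ μ⁻¹ := (one_le_inv₀ hμ).mpr hμ1
  have hpow : 1 ≤ (μ⁻¹) ^ E := one_le_pow₀ hμinv
  set M : ℝ := 40 + K3 * (μ⁻¹) ^ E with hM
  have hM40 : 40 ≤ M := by
    have : 0 ≤ K3 * (μ⁻¹) ^ E := by positivity
    linarith
  have hMpos : 0 < M := by linarith
  have hu0M : ‖u0‖ ≤ M := by
    have : (0 : ℝ) ≤ 40 := by norm_num
    linarith
  have hI := interp (p.PP j) (16 * j + 6) (PP_degree p j) u hg hM40 (mul_nonneg hK1.le hε) hu hsep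
    (fun i => hsmall p μ hp ε (u i) (hu i) (hn i) (h1 i) (h2 i) (hH i)) u0 hu0M
  have hMle : M ≤ (40 + K3) * (μ⁻¹) ^ E := by
    rw [hM, add_mul]
    nlinarith
  have hμE : μ ^ E * (μ⁻¹) ^ E = 1 := by
    rw [← mul_pow, mul_inv_cancel₀ hμ.ne', one_pow]
  have hgd : 0 < g ^ (16 * j + 6) := pow_pos hg _
  have h3 : μ ^ E * g ^ (16 * j + 6) ≤ K3 * ((((16 * j + 6 : ℕ) : ℝ) + 1) * (K1 * ε) * (2 * M) ^ (16 * j + 6)) := by
    calc μ ^ E * g ^ (16 * j + 6) ≤ (K3 * ‖aeval u0 (p.PP j)‖) * g ^ (16 * j + 6) :=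
          mul_le_mul_of_nonneg_right hPu0 hgd.le
      _ ≤ (K3 * ((((16 * j + 6 : ℕ) : ℝ) + 1) * (K1 * ε) * (2 * M / g) ^ (16 * j + 6))) * g ^ (16 * j + 6) := by
          apply mul_le_mul_of_nonneg_right _ hgd.le
          exact mul_le_mul_of_nonneg_left hI hK3.le
      _ = K3 * ((((16 * j + 6 : ℕ) : ℝ) + 1) * (K1 * ε) * (2 * M) ^ (16 * j + 6)) := by
          rw [div_pow]
          field_simp
  have h4 : (2 * M) ^ (16 * j + 6) ≤ (2 * (40 + K3)) ^ (16 * j + 6) * ((μ⁻¹) ^ E) ^ (16 * j + 6) := by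
    rw [← mul_pow]
    apply pow_le_pow_left₀ (by positivity)
    nlinarith
  have h5 : μ ^ (E * (16 * j + 6)) * ((μ⁻¹) ^ E) ^ (16 * j + 6) = 1 := by
    rw [pow_mul, ← mul_pow, hμE, one_pow]
  calc μ ^ (E + E * (16 * j + 6)) * g ^ (16 * j + 6)
      = μ ^ (E * (16 * j + 6)) * (μ ^ E * g ^ (16 * j + 6)) := by rw [pow_add]; ring
    _ ≤ μ ^ (E * (16 * j + 6)) * (K3 * ((((16 * j + 6 : ℕ) : ℝ) + 1) * (K1 * ε) *
          ((2 * (40 + K3)) ^ (16 * j + 6) * ((μ⁻¹) ^ E) ^ (16 * j + 6)))) := by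
        apply mul_le_mul_of_nonneg_left _ (by positivity)
        refine h3.trans ?_
        apply mul_le_mul_of_nonneg_left _ hK3.le
        apply mul_le_mul_of_nonneg_left h4
        positivity
    _ = K3 * ((((16 * j + 6 : ℕ) : ℝ) + 1) * K1 * (2 * (40 + K3)) ^ (16 * j + 6)) * ε *
          (μ ^ (E * (16 * j + 6)) * ((μ⁻¹) ^ E) ^ (16 * j + 6)) := by ring
    _ = K3 * ((((16 * j + 6 : ℕ) : ℝ) + 1) * K1 * (2 * (40 + K3)) ^ (16 * j + 6)) * ε := by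
        rw [h5, mul_one]

end Pool.Agent.H19.Sup
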