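import Mathlib
import Pool.Agent.H19.Sup.Defs2
import Pool.Agent.H19.Sup.L2
import Pool.Agent.H19.Sup.St

set_option autoImplicit false

/-!
# P1: the sum over one line of a plane

Write `x = q / N ∈ (1, 4]`, `κ = j / (s y N)`, `α = (a / s - X) / y`, `κ1 = max 1 |κ|`, `Nj = N / (s κ1) =
N / max s (|j| / (y N))`.  On the line `b s - a q = j`: `b / q = a / s + j / (s q)`, so
`ξ := (b / q - X) / y = α + κ / x = (α x + κ) / x` and `dh X Y y (b/q) = dh 0 (Y/y) 1 ξ` (`dh_scale`),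
`dh X' Y' y (b/q) = dh 0 (Y'/y) 1 (ξ - Δ)`, `Δ = (X' - X) / y`.

If all terms vanish there is nothing to prove.  Otherwise fix a point `(b_c, q_c)` of the line with nonzero term:
both distances are `< 1/2` there (`Amp.hi`), so by `dh_small` `Y/y, Y'/y ∈ [3/5, 5/3]`, `|ξ0| ≤ 1`, `|ξ0 - Δ| ≤ 1`
(hence `|Δ| ≤ 2`).  Put `x0 = q_c / N` and
`p = { m0 := ξ0 x0, m1 := α / κ1, n0 := x0, n1 := 1 / κ1, Y := Y / y, Y' := Y' / y, Δ := Δ }`.
With `x = x0 + u / κ1`: `m(u) = α x + κ`, `n(u) = x`, so `m/n = ξ`.  `|α| = |ξ0 - κ/x0| ≤ 1 + |κ|`, so `|m1| ≤ 2`;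
`D = m1 n0 - m0 n1 = -κ / κ1`, `|D| = min 1 |κ| ≥ μ`; `Δ² + (Y/y - Y'/y)² ≥ μ² (Y/y)(Y'/y) ≥ (3 μ / 5)²`.
So `p.Good (3 μ / 5)`.
The points of the line are `q = q_c + s t`, `b = b_c + a t`, `t ∈ ℤ` (`IsCoprime a s`), `u = t / Nj`.  If the term at `t`
is not zero then `|ξ| ≤ 1` and `|ξ - ξ0| = |κ| |x - x0| / (x x0) ≤ 2`, so `|u| ≤ 33`.  So the sum is the sum of
`p.term A T Nj 0 t` over an interval of integers on which `|u| ≤ 33`, `1 ≤ x` (the points of the line with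
`N < q ≤ 4 N`, `|u| ≤ 33`; `|b| ≤ M` where the term is not zero, by the cover hypothesis): apply `line_sum k`.

Choice of `k`: if `N ≤ 10^9` use the trivial bound (at most `66 Nj + 1` nonzero terms, each `≤ B0²`;
`Nj ≥ √N / 40 ≥ 1/40`).  Otherwise `√N / 40 ≤ Nj ≤ N`; let `k` be minimal with `T / (2 π) ≤ Nj ^ (k - 1/4)`; then
`T / (2 π) > Nj ^ (k - 5/4)`; `k ≥ 2` since `T / (2π) ≥ N^5 / (2π) > N^(3/4)`, and `k ≤ 20` since `T ≤ N^6 ≤ (1600 Nj²)^6`
and `1600^6 ≤ Nj^7`.  Take the minimum of the `c`, maximum of the `K`, `E` over `2 ≤ k ≤ 20`.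
-/

namespace Pool.Agent.H19.Sup

open Polynomial

/-- the bound of `line_sum` with given constants -/
def P1_LB (k : ℕ) (c K : ℝ) (E : ℕ) : Prop :=
    ∀ (p : Par) (μ : ℝ), p.Good μ → ∀ (A : ℝ → ℂ) (B0 B1 ρ T N u0 : ℝ) (na nb : ℤ),
    Amp A B0 B1 ρ → 0 < ρ → ρ ≤ 1 → 1 ≤ N →
    N ^ (-(5 / 4) : ℝ) ≤ T / (2 * Real.pi * N ^ k) → T / (2 * Real.pi * N ^ k) ≤ N ^ (-(1 / 4) : ℝ) →
    (∀ n : ℤ, na ≤ n → n ≤ nb → |u0 + n / N| ≤ 40 ∧ 1 ≤ p.n.eval (u0 + n / N)) →
    ‖∑ n ∈ Finset.Icc na nb, p.term A T N u0 n‖ ≤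
      K * (B0 * (B0 + B1)) * ((ρ * μ)⁻¹) ^ E * N ^ (1 - c)

theorem P1_B0 {A : ℝ → ℂ} {B0 B1 ρ : ℝ} (hA : Amp A B0 B1 ρ) : 0 ≤ B0 :=
  (norm_nonneg _).trans (hA.bdd 0)

theorem P1_B1 {A : ℝ → ℂ} {B0 B1 ρ : ℝ} (hA : Amp A B0 B1 ρ) : 0 ≤ B1 := by
  have h := hA.lip 1 0
  simp only [sub_zero, abs_one, mul_one] at h
  exact (norm_nonneg _).trans h

theorem P1_LB_mono {k : ℕ} {c K c' K' : ℝ} {E E' : ℕ} (h : P1_LB k c K E) (hc : c' ≤ c)
    (hK0 : 0 ≤ K) (hK : K ≤ K') (hE : E ≤ E') : P1_LB k c' K' E' := by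
  intro p μ hp A B0 B1 ρ T N u0 na nb hA hρ hρ1 hN h1 h2 h3
  refine (h p μ hp A B0 B1 ρ T N u0 na nb hA hρ hρ1 hN h1 h2 h3).trans ?_
  have hB0 := P1_B0 hA
  have hB1 := P1_B1 hA
  have hμ := hp.hμ
  have hμ1 := hp.hμ1
  have hx : 1 ≤ (ρ * μ)⁻¹ := by
    rw [one_le_inv₀ (by positivity)]
    nlinarith
  have hx1 : ((ρ * μ)⁻¹) ^ E ≤ ((ρ * μ)⁻¹) ^ E' := pow_le_pow_right₀ hx hE
  have hx2 : N ^ (1 - c) ≤ N ^ (1 - c') := Real.rpow_le_rpow_of_exponent_le hN (by linarith)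
  have hx3 : 0 ≤ N ^ (1 - c) := Real.rpow_nonneg (by linarith) _
  have hx4 : 0 ≤ ((ρ * μ)⁻¹) ^ E := by positivity
  have hK0' : 0 ≤ K' := hK0.trans hK
  gcongr

theorem P1_common (line_sum : LineSumS) (m : ℕ) : ∃ (c K : ℝ) (E : ℕ), 0 < c ∧ c ≤ 1 ∧ 0 < K ∧
    ∀ k, 2 ≤ k → k ≤ m → P1_LB k c K E := by
  induction m with
  | zero => exact ⟨1, 1, 0, one_pos, le_rfl, one_pos, fun k h1 h2 => by omega⟩
  | succ m ih =>
    obtain ⟨c, K, E, hc, hc1, hK, h⟩ := ih
    by_cases hm : 2 ≤ m + 1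
    · obtain ⟨c', K', E', hc', hK', h'⟩ := line_sum (m + 1) hm
      refine ⟨min c c', max K K', max E E', lt_min hc hc', (min_le_left _ _).trans hc1,
        lt_max_of_lt_left hK, fun k hk1 hk2 => ?_⟩
      rcases Nat.lt_or_ge m k with hmk | hmk
      · obtain rfl : k = m + 1 := by omega
        exact P1_LB_mono (c := c') (K := K') (E := E') h' (min_le_right _ _) hK'.le
          (le_max_right _ _) (le_max_right _ _)
      · exact P1_LB_mono (h k hk1 hmk) (min_le_left _ _) hK.le (le_max_left _ _) (le_max_left _ _)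
    · exact ⟨c, K, E, hc, hc1, hK, fun k h1 h2 => by omega⟩

/-- choice of the order of the derivative -/
theorem P1_k {N Nj T : ℝ} (hN : 1000000000 ≤ N) (hT : N ^ 5 ≤ T) (hT6 : T ≤ N ^ 6)
    (h1 : √N / 40 ≤ Nj) (h2 : Nj ≤ N) :
    ∃ k : ℕ, 2 ≤ k ∧ k ≤ 20 ∧ Nj ^ (-(5 / 4) : ℝ) ≤ T / (2 * Real.pi * Nj ^ k) ∧
      T / (2 * Real.pi * Nj ^ k) ≤ Nj ^ (-(1 / 4) : ℝ) := by
  have hN0 : 0 < N := by linarith
  have hsq : (31600 : ℝ) ≤ √N := by
    apply Real.le_sqrt_of_sq_le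
    linarith
  have hNj : (790 : ℝ) ≤ Nj := by linarith
  have hNj0 : 0 < Nj := by linarith
  have hNj1 : 1 ≤ Nj := by linarith
  have hpi := Real.pi_gt_three
  have hpi4 := Real.pi_le_four
  have hT0 : 0 < T := lt_of_lt_of_le (by positivity) hT
  have hP20 : T / (2 * Real.pi) ≤ Nj ^ (((20 : ℕ) : ℝ) - 1 / 4) := by
    have e1 : T / (2 * Real.pi) ≤ T := by
      apply div_le_self hT0.le
      linarith
    have e2 : N ≤ 1600 * Nj ^ 2 := by
      have h3 : √N ≤ 40 * Nj := by linarith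
      calc N = √N ^ 2 := (Real.sq_sqrt hN0.le).symm
        _ ≤ (40 * Nj) ^ 2 := by gcongr
        _ = 1600 * Nj ^ 2 := by ring
    have e3 : (1600 : ℝ) ^ 6 ≤ Nj ^ 7 := by
      calc (1600 : ℝ) ^ 6 ≤ 790 ^ 7 := by norm_num
        _ ≤ Nj ^ 7 := by gcongr
    calc T / (2 * Real.pi) ≤ N ^ 6 := e1.trans hT6
      _ ≤ (1600 * Nj ^ 2) ^ 6 := by gcongr
      _ = 1600 ^ 6 * Nj ^ 12 := by ring
      _ ≤ Nj ^ 7 * Nj ^ 12 := by gcongr
      _ = Nj ^ (19 : ℝ) := by
        rw [← pow_add]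
        norm_cast
      _ ≤ Nj ^ (((20 : ℕ) : ℝ) - 1 / 4) := by
        apply Real.rpow_le_rpow_of_exponent_le hNj1
        norm_num
  have hP1 : ∀ r : ℝ, r ≤ 1 → Nj ^ r < T / (2 * Real.pi) := by
    intro r hr
    have e1 : Nj ^ r ≤ N := by
      calc Nj ^ r ≤ Nj ^ (1 : ℝ) := Real.rpow_le_rpow_of_exponent_le hNj1 hr
        _ = Nj := Real.rpow_one _
        _ ≤ N := h2
    have e2 : N * (2 * Real.pi) < N ^ 5 := by
      have e4 : 2 * Real.pi < N ^ 4 := by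
        calc 2 * Real.pi ≤ 8 := by linarith
          _ < 1000000000 ^ 4 := by norm_num
          _ ≤ N ^ 4 := by gcongr
      calc N * (2 * Real.pi) < N * N ^ 4 := by gcongr
        _ = N ^ 5 := by ring
    calc Nj ^ r ≤ N := e1
      _ < T / (2 * Real.pi) := by
        rw [lt_div_iff₀ (by positivity)]
        linarith
  classical
  have hex : ∃ k : ℕ, T / (2 * Real.pi) ≤ Nj ^ ((k : ℝ) - 1 / 4) := ⟨20, hP20⟩
  set k := Nat.find hex with hk
  have hks : T / (2 * Real.pi) ≤ Nj ^ ((k : ℝ) - 1 / 4) := Nat.find_spec hex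
  have hk20 : k ≤ 20 := Nat.find_min' hex hP20
  have hk2 : 2 ≤ k := by
    by_contra hlt
    have hk1 : (k : ℝ) ≤ 1 := by
      have : k ≤ 1 := by omega
      exact_mod_cast this
    have := hP1 ((k : ℝ) - 1 / 4) (by linarith)
    linarith
  have hkm : ¬ T / (2 * Real.pi) ≤ Nj ^ (((k - 1 : ℕ) : ℝ) - 1 / 4) :=
    Nat.find_min hex (by omega)
  have hkm' : Nj ^ ((k : ℝ) - 5 / 4) < T / (2 * Real.pi) := by
    have e : ((k - 1 : ℕ) : ℝ) - 1 / 4 = (k : ℝ) - 5 / 4 := by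
      rw [Nat.cast_sub (by omega)]
      push_cast
      ring
    rw [e] at hkm
    exact not_le.mp hkm
  have hd : T / (2 * Real.pi * Nj ^ k) = T / (2 * Real.pi) / Nj ^ (k : ℝ) := by
    rw [Real.rpow_natCast, div_div]
  refine ⟨k, hk2, hk20, ?_, ?_⟩
  · rw [hd, le_div_iff₀ (by positivity), ← Real.rpow_add hNj0]
    have e : -(5 / 4 : ℝ) + (k : ℝ) = (k : ℝ) - 5 / 4 := by ring
    rw [e]
    exact hkm'.le
  · rw [hd, div_le_iff₀ (by positivity), ← Real.rpow_add hNj0]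
    have e : -(1 / 4 : ℝ) + (k : ℝ) = (k : ℝ) - 1 / 4 := by ring
    rw [e]
    exact hks

theorem P1_osc_ne {A : ℝ → ℂ} {B0 B1 ρ T d d' : ℝ} (hA : Amp A B0 B1 ρ) (h : osc A T d d' ≠ 0) :
    d < 1 / 2 ∧ d' < 1 / 2 := by
  constructor
  · by_contra hc
    apply h
    simp [osc, hA.hi d (not_lt.mp hc)]
  · by_contra hc
    apply h
    simp [osc, hA.hi d' (not_lt.mp hc)]

theorem P1_osc_norm {A : ℝ → ℂ} {B0 B1 ρ T d d' : ℝ} (hA : Amp A B0 B1 ρ) :
    ‖osc A T d d'‖ ≤ B0 * B0 := by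
  have hB0 := P1_B0 hA
  rw [osc, norm_mul, norm_mul, Complex.norm_exp_ofReal_mul_I, mul_one, RCLike.norm_conj]
  exact mul_le_mul (hA.bdd d) (hA.bdd d') (norm_nonneg _) hB0

/-- the position of a point of the line -/
theorem P1_pos {X y : ℝ} {N : ℝ} {a s j b q : ℝ} (hy : 0 < y) (hN : 0 < N) (hs : 0 < s)
    (hq : 0 < q) (hl : b * s - a * q = j) :
    (b / q - X) / y = (a / s - X) / y + (j / (s * y * N)) / (q / N) := by
  have hb : b = (a * q + j) / s := by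
    rw [eq_div_iff hs.ne']
    linarith
  rw [hb]
  field_simp
  ring

/-- the sum over a line as a sum of the terms of a good parameter -/
theorem P1_line {A : ℝ → ℂ} {B0 B1 ρ T μ : ℝ} {N : ℕ} {M : ℤ} {X Y X' Y' y : ℝ} {a s j : ℤ}
    (hA : Amp A B0 B1 ρ) (hμ : 0 < μ) (hμ1 : μ ≤ 1) (hN : 1 ≤ N)
    (hY : 0 < Y) (hY' : 0 < Y') (hy : 0 < y)
    (hne : μ ^ 2 * (Y * Y') ≤ (X - X') ^ 2 + (Y - Y') ^ 2)
    (hcov : ∀ q ∈ Finset.Ioc N (4 * N), ∀ b : ℤ, dh X Y y ((b : ℝ) / q) < 1 / 2 → |b| ≤ M)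
    (hs : 1 ≤ s) (has : IsCoprime a s) (hj : μ * (s * y * N) ≤ |(j : ℝ)|)
    {Nj : ℝ} (hNj : Nj = N / max (s : ℝ) (|(j : ℝ)| / (y * N)))
    (h0 : LS A T N M X Y X' Y' y a s j ≠ 0) :
    ∃ (p : Par) (na nb : ℤ), p.Good (3 / 5 * μ) ∧
      LS A T N M X Y X' Y' y a s j = ∑ n ∈ Finset.Icc na nb, p.term A T Nj 0 n ∧
      ∀ n : ℤ, na ≤ n → n ≤ nb → |0 + n / Nj| ≤ 33 ∧ 1 ≤ p.n.eval (0 + n / Nj) := by
  have hN0 : (0 : ℝ) < N := by exact_mod_cast hN
  have hs0 : (0 : ℝ) < s := by exact_mod_cast (by omega : 0 < s)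
  have hs1 : (1 : ℝ) ≤ s := by exact_mod_cast hs
  -- a center
  obtain ⟨qc, hqc, h1⟩ := Finset.exists_ne_zero_of_sum_ne_zero h0
  obtain ⟨bc, hbc, h2⟩ := Finset.exists_ne_zero_of_sum_ne_zero h1
  rw [Finset.mem_Ioc] at hqc
  have hlc : bc * s - a * qc = j := by
    by_contra hc
    rw [if_neg hc] at h2
    exact h2 rfl
  rw [if_pos hlc] at h2
  obtain ⟨hd, hd'⟩ := P1_osc_ne hA h2
  have hqc1 : (N : ℝ) < qc := by exact_mod_cast hqc.1
  have hqc2 : (qc : ℝ) ≤ 4 * N := by exact_mod_cast hqc.2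
  have hqc0 : (0 : ℝ) < qc := hN0.trans hqc1
  set κ : ℝ := j / (s * y * N) with hκ
  set α : ℝ := (a / s - X) / y with hα
  set κ1 : ℝ := max 1 |κ| with hκ1
  set Δ : ℝ := (X' - X) / y with hΔ
  set x0 : ℝ := qc / N with hx0
  set ξ0 : ℝ := ((bc : ℝ) / qc - X) / y with hξ0
  have hκ1p : 1 ≤ κ1 := le_max_left _ _
  have hκ1q : |κ| ≤ κ1 := le_max_right _ _
  have hκ10 : 0 < κ1 := by linarith
  have hx01 : 1 < x0 := by
    rw [hx0, lt_div_iff₀ hN0]
    linarith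
  have hx04 : x0 ≤ 4 := by
    rw [hx0, div_le_iff₀ hN0]
    linarith
  have hx00 : 0 < x0 := by linarith
  -- positions
  have hpos : ∀ b q : ℝ, 0 < q → b * s - a * q = j → (b / q - X) / y = α + κ / (q / N) :=
    fun b q hq hl => P1_pos hy hN0 hs0 hq hl
  have hξ0' : ξ0 = α + κ / x0 := hpos bc qc hqc0 (by exact_mod_cast hlc)
  have hshift : ∀ z : ℝ, (z - X') / y = (z - X) / y - Δ := by
    intro z
    rw [hΔ]
    ring
  have hdc : dh 0 (Y / y) 1 ξ0 < 1 / 2 := by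
    rw [← dh_scale hY hy]
    exact hd
  have hdc' : dh 0 (Y' / y) 1 (ξ0 - Δ) < 1 / 2 := by
    rw [← hshift, ← dh_scale hY' hy]
    exact hd'
  obtain ⟨hy1, hy2, hξ1⟩ := dh_small (div_pos hY hy) hdc
  obtain ⟨hy1', hy2', hξ1'⟩ := dh_small (div_pos hY' hy) hdc'
  have hκμ : μ ≤ |κ| := by
    rw [hκ, abs_div, abs_of_pos (by positivity : 0 < (s : ℝ) * y * N), le_div_iff₀ (by positivity)]
    exact hj
  have hκ0 : 0 < |κ| := by linarith
  have hmax : max (s : ℝ) (|(j : ℝ)| / (y * N)) = s * κ1 := by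
    have e1 : |(j : ℝ)| / (y * N) = s * |κ| := by
      rw [hκ, abs_div, abs_of_pos (by positivity : 0 < (s : ℝ) * y * N)]
      field_simp
    rw [e1, hκ1, mul_max_of_nonneg _ _ hs0.le, mul_one]
  have hNj' : Nj = N / (s * κ1) := by rw [hNj, hmax]
  have hNj0 : 0 < Nj := by
    rw [hNj']
    positivity
  set p : Par := { m0 := ξ0 * x0, m1 := α / κ1, n0 := x0, n1 := 1 / κ1, Y := Y / y, Y' := Y' / y,
                   Δ := Δ } with hp
  have hαb : |α| ≤ 1 + |κ| := by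
    have e1 : α = ξ0 - κ / x0 := by rw [hξ0']; ring
    have e2 : |κ / x0| ≤ |κ| := by
      rw [abs_div, abs_of_pos hx00]
      exact div_le_self (abs_nonneg _) hx01.le
    rw [e1]
    calc |ξ0 - κ / x0| ≤ |ξ0| + |κ / x0| := abs_sub _ _
      _ ≤ 1 + |κ| := by linarith
  have hgood : p.Good (3 / 5 * μ) := by
    refine ⟨by positivity, by linarith, ?_, ?_, ?_, ?_, ⟨hy1, hy2⟩, ⟨hy1', hy2'⟩, ?_, ?_, ?_⟩
    · show |ξ0 * x0| ≤ 4
      rw [abs_mul, abs_of_pos hx00]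
      nlinarith [abs_nonneg ξ0]
    · show |α / κ1| ≤ 2
      rw [abs_div, abs_of_pos hκ10, div_le_iff₀ hκ10]
      linarith
    · show |x0| ≤ 4
      rw [abs_of_pos hx00]
      exact hx04
    · show |1 / κ1| ≤ 1
      rw [abs_of_pos (by positivity), div_le_one hκ10]
      exact hκ1p
    · show |Δ| ≤ 2
      have e1 : Δ = ξ0 - (ξ0 - Δ) := by ring
      rw [e1]
      calc |ξ0 - (ξ0 - Δ)| ≤ |ξ0| + |ξ0 - Δ| := abs_sub _ _
        _ ≤ 2 := by linarith
    · show 3 / 5 * μ ≤ |α / κ1 * x0 - ξ0 * x0 * (1 / κ1)|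
      have e1 : α / κ1 * x0 - ξ0 * x0 * (1 / κ1) = -(κ / κ1) := by
        rw [hξ0']
        field_simp
        ring
      rw [e1, abs_neg, abs_div, abs_of_pos hκ10, le_div_iff₀ hκ10]
      rcases le_total 1 |κ| with hc | hc
      · rw [hκ1, max_eq_right hc]
        nlinarith
      · rw [hκ1, max_eq_left hc]
        linarith
    · show (3 / 5 * μ) ^ 2 ≤ Δ ^ 2 + (Y / y - Y' / y) ^ 2
      have e1 : Δ ^ 2 + (Y / y - Y' / y) ^ 2 = ((X - X') ^ 2 + (Y - Y') ^ 2) / y ^ 2 := by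
        rw [hΔ]
        field_simp
        ring
      have e2 : μ ^ 2 * ((Y / y) * (Y' / y)) = μ ^ 2 * (Y * Y') / y ^ 2 := by
        field_simp
      have e3 : (3 / 5 : ℝ) * (3 / 5) ≤ (Y / y) * (Y' / y) := by
        apply mul_le_mul hy1 hy1' (by norm_num) (by positivity)
      rw [e1]
      calc (3 / 5 * μ) ^ 2 = μ ^ 2 * (3 / 5 * (3 / 5)) := by ring
        _ ≤ μ ^ 2 * ((Y / y) * (Y' / y)) := by gcongr
        _ = μ ^ 2 * (Y * Y') / y ^ 2 := e2
        _ ≤ ((X - X') ^ 2 + (Y - Y') ^ 2) / y ^ 2 := by gcongr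
  -- evaluation of the polynomials
  have hneval : ∀ t : ℤ, p.n.eval (0 + (t : ℝ) / Nj) = ((qc : ℝ) + s * t) / N := by
    intro t
    have : p.n.eval (0 + (t : ℝ) / Nj) = x0 + 1 / κ1 * (0 + (t : ℝ) / Nj) := by
      simp [Par.n, hp]
    rw [this, hNj', hx0]
    field_simp
    ring
  have hmeval : ∀ t : ℤ, p.m.eval (0 + (t : ℝ) / Nj) = α * (((qc : ℝ) + s * t) / N) + κ := by
    intro t
    have : p.m.eval (0 + (t : ℝ) / Nj) = ξ0 * x0 + α / κ1 * (0 + (t : ℝ) / Nj) := by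
      simp [Par.m, hp]
    rw [this, hNj', hξ0']
    have e1 : (α + κ / x0) * x0 = α * x0 + κ := by field_simp
    rw [e1, hx0]
    field_simp
    ring
  have hterm : ∀ t : ℤ, 0 < (qc : ℝ) + s * t →
      p.term A T Nj 0 t = osc A T (dh X Y y (((bc : ℝ) + a * t) / ((qc : ℝ) + s * t)))
        (dh X' Y' y (((bc : ℝ) + a * t) / ((qc : ℝ) + s * t))) := by
    intro t ht
    have hl : ((bc : ℝ) + a * t) * s - a * ((qc : ℝ) + s * t) = j := by
      have : (bc : ℝ) * s - a * qc = j := by exact_mod_cast hlc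
      linarith
    have e1 := hpos _ _ ht hl
    have e2 : p.m.eval (0 + (t : ℝ) / Nj) / p.n.eval (0 + (t : ℝ) / Nj) =
        (((bc : ℝ) + a * t) / ((qc : ℝ) + s * t) - X) / y := by
      rw [hmeval, hneval, e1]
      have : 0 < ((qc : ℝ) + s * t) / N := by positivity
      field_simp
    rw [Par.term, e2, dh_scale hY hy, dh_scale hY' hy (X := X'), hshift]
  -- the size of u on the support
  have hsize : ∀ t : ℤ, (N : ℝ) < qc + s * t → (qc : ℝ) + s * t ≤ 4 * N →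
      p.term A T Nj 0 t ≠ 0 → |(t : ℝ)| ≤ 33 * Nj := by
    intro t ht1 ht2 ht3
    have ht0 : 0 < (qc : ℝ) + s * t := hN0.trans ht1
    have hl : ((bc : ℝ) + a * t) * s - a * ((qc : ℝ) + s * t) = j := by
      have : (bc : ℝ) * s - a * qc = j := by exact_mod_cast hlc
      linarith
    rw [hterm t ht0] at ht3
    obtain ⟨hf, -⟩ := P1_osc_ne hA ht3
    rw [dh_scale hY hy] at hf
    obtain ⟨-, -, hξ⟩ := dh_small (div_pos hY hy) hf
    rw [hpos _ _ ht0 hl] at hξ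
    set x : ℝ := ((qc : ℝ) + s * t) / N with hx
    have hx1 : 1 < x := by
      rw [hx, lt_div_iff₀ hN0]
      linarith
    have hx4 : x ≤ 4 := by
      rw [hx, div_le_iff₀ hN0]
      linarith
    have hxx : x - x0 = s * t / N := by
      rw [hx, hx0]
      field_simp
      ring
    have hdiff : |κ * (x - x0)| ≤ 32 := by
      have e1 : κ * (x - x0) = ((α + κ / x0) - (α + κ / x)) * (x * x0) := by
        field_simp
        ring
      have e2 : |(α + κ / x0) - (α + κ / x)| ≤ 2 := by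
        rw [← hξ0']
        calc |ξ0 - (α + κ / x)| ≤ |ξ0| + |α + κ / x| := abs_sub _ _
          _ ≤ 2 := by linarith
      rw [e1, abs_mul, abs_of_pos (by positivity : 0 < x * x0)]
      have e3 : x * x0 ≤ 16 := by nlinarith
      have e4 : 0 < x * x0 := by positivity
      nlinarith [abs_nonneg ((α + κ / x0) - (α + κ / x))]
    have hxd : |x - x0| ≤ 3 := by
      rw [abs_le]
      constructor <;> linarith
    have hκx : κ1 * |x - x0| ≤ 33 := by
      rcases le_total 1 |κ| with hc | hc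
      · rw [hκ1, max_eq_right hc, ← abs_mul]
        linarith
      · rw [hκ1, max_eq_left hc]
        linarith
    rw [hxx, abs_div, abs_mul, abs_of_pos hs0, abs_of_pos hN0] at hκx
    rw [hNj']
    have e5 : |(t : ℝ)| = (κ1 * (s * |(t : ℝ)| / N)) * (N / (s * κ1)) := by
      field_simp
    rw [e5]
    gcongr
  -- the interval
  set R : ℤ := ⌊33 * Nj⌋ with hR
  have hRt : ∀ t : ℤ, |(t : ℝ)| ≤ 33 * Nj ↔ -R ≤ t ∧ t ≤ R := by
    intro t
    rw [← abs_le, hR, Int.le_floor]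
    push_cast
    rfl
  have hsZ : 0 < s := by omega
  have hlo : ∀ t : ℤ, ((N : ℤ) - qc) / s + 1 ≤ t ↔ (N : ℤ) < qc + s * t := by
    intro t
    rw [Int.add_one_le_iff, Int.ediv_lt_iff_lt_mul hsZ]
    constructor <;> intro h <;> nlinarith
  have hhi : ∀ t : ℤ, t ≤ (4 * (N : ℤ) - qc) / s ↔ qc + s * t ≤ 4 * (N : ℤ) := by
    intro t
    rw [Int.le_ediv_iff_mul_le hsZ]
    constructor <;> intro h <;> nlinarith
  have hmem : ∀ t : ℤ, t ∈ Finset.Icc (max (((N : ℤ) - qc) / s + 1) (-R))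
      (min ((4 * (N : ℤ) - qc) / s) R) ↔
      ((N : ℤ) < qc + s * t ∧ qc + s * t ≤ 4 * (N : ℤ)) ∧ |(t : ℝ)| ≤ 33 * Nj := by
    intro t
    rw [Finset.mem_Icc, max_le_iff, le_min_iff, hlo, hhi, hRt]
    tauto
  refine ⟨p, max (((N : ℤ) - qc) / s + 1) (-R), min ((4 * (N : ℤ) - qc) / s) R, hgood, ?_, ?_⟩
  · -- equality of the sums
    rw [LS, ← Finset.sum_product']
    symm
    refine Finset.sum_bij_ne_zero
      (fun t _ _ => (((qc : ℤ) + s * t).toNat, bc + a * t)) ?_ ?_ ?_ ?_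
    · intro t ht ht0
      obtain ⟨⟨h3, h4⟩, h5⟩ := (hmem t).mp ht
      have hq0 : (0 : ℤ) ≤ qc + s * t := by
        have : (0 : ℤ) ≤ N := by positivity
        linarith
      have hqr : (((qc : ℤ) + s * t).toNat : ℤ) = qc + s * t := Int.toNat_of_nonneg hq0
      have hqR : ((((qc : ℤ) + s * t).toNat : ℕ) : ℝ) = (qc : ℝ) + s * t := by
        have := congrArg (Int.cast : ℤ → ℝ) hqr
        push_cast at this
        exact_mod_cast this
      have hqI : ((qc : ℤ) + s * t).toNat ∈ Finset.Ioc N (4 * N) := by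
        rw [Finset.mem_Ioc]
        constructor
        · zify
          rw [hqr]
          exact h3
        · zify
          rw [hqr]
          exact_mod_cast h4
      rw [Finset.mem_product]
      refine ⟨hqI, ?_⟩
      have hq0' : 0 < (qc : ℝ) + s * t := by
        have : (N : ℝ) < qc + s * t := by exact_mod_cast h3
        linarith
      rw [hterm t hq0'] at ht0
      obtain ⟨hf, -⟩ := P1_osc_ne hA ht0
      have := hcov _ hqI (bc + a * t) (by
        rw [hqR]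
        push_cast
        exact hf)
      rw [Finset.mem_Icc]
      exact abs_le.mp this
    · intro t ht ht0 t' ht' ht0' heq
      have h6 := congrArg Prod.fst heq
      simp only at h6
      obtain ⟨⟨h3, -⟩, -⟩ := (hmem t).mp ht
      obtain ⟨⟨h3', -⟩, -⟩ := (hmem t').mp ht'
      have hq0 : (0 : ℤ) ≤ qc + s * t := by
        have : (0 : ℤ) ≤ N := by positivity
        linarith
      have hq0' : (0 : ℤ) ≤ qc + s * t' := by
        have : (0 : ℤ) ≤ N := by positivity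
        linarith
      have h7 := congrArg (Nat.cast : ℕ → ℤ) h6
      rw [Int.toNat_of_nonneg hq0, Int.toNat_of_nonneg hq0'] at h7
      have h8 : s * t = s * t' := by linarith
      exact mul_left_cancel₀ hsZ.ne' h8
    · rintro ⟨q, b⟩ hqb hne0
      rw [Finset.mem_product] at hqb
      obtain ⟨hq, hb⟩ := hqb
      simp only at hq hb hne0
      have hl : b * s - a * q = j := by
        by_contra hc
        rw [if_neg hc] at hne0
        exact hne0 rfl
      rw [if_pos hl] at hne0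
      have hdvd : s ∣ (q : ℤ) - qc := by
        have h9 : s ∣ a * ((q : ℤ) - qc) := ⟨b - bc, by linarith⟩
        exact has.symm.dvd_of_dvd_mul_left h9
      obtain ⟨t, ht⟩ := hdvd
      have hqt : (q : ℤ) = qc + s * t := by linarith
      have hbt : b = bc + a * t := by
        have h9 : s * (b - bc) = s * (a * t) := by
          have h10 : (b - bc) * s = a * ((q : ℤ) - qc) := by linarith
          rw [ht] at h10
          linarith
        have := mul_left_cancel₀ hsZ.ne' h9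
        linarith
      rw [Finset.mem_Ioc] at hq
      have hqz1 : (N : ℤ) < qc + s * t := by
        rw [← hqt]
        exact_mod_cast hq.1
      have hqz2 : qc + s * t ≤ 4 * (N : ℤ) := by
        rw [← hqt]
        exact_mod_cast hq.2
      have hqr1 : (N : ℝ) < qc + s * t := by exact_mod_cast hqz1
      have hqr2 : (qc : ℝ) + s * t ≤ 4 * N := by exact_mod_cast hqz2
      have hqR : (q : ℝ) = qc + s * t := by
        have := congrArg (Int.cast : ℤ → ℝ) hqt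
        push_cast at this
        exact_mod_cast this
      have hbR : (b : ℝ) = bc + a * t := by
        rw [hbt]
        push_cast
        ring
      have htt : p.term A T Nj 0 t ≠ 0 := by
        rw [hterm t (hN0.trans hqr1), ← hqR, ← hbR]
        exact hne0
      refine ⟨t, (hmem t).mpr ⟨⟨hqz1, hqz2⟩, hsize t hqr1 hqr2 htt⟩, htt, ?_⟩
      ext
      · simp only
        rw [← hqt]
        simp
      · simp only
        exact hbt.symm
    · intro t ht ht0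
      obtain ⟨⟨h3, h4⟩, h5⟩ := (hmem t).mp ht
      have hq0 : (0 : ℤ) ≤ qc + s * t := by
        have : (0 : ℤ) ≤ N := by positivity
        linarith
      have hqr : (((qc : ℤ) + s * t).toNat : ℤ) = qc + s * t := Int.toNat_of_nonneg hq0
      have hqR : ((((qc : ℤ) + s * t).toNat : ℕ) : ℝ) = (qc : ℝ) + s * t := by
        have := congrArg (Int.cast : ℤ → ℝ) hqr
        push_cast at this
        exact_mod_cast this
      have hq0' : 0 < (qc : ℝ) + s * t := by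
        have : (N : ℝ) < qc + s * t := by exact_mod_cast h3
        linarith
      simp only
      rw [hqr, if_pos (by linarith [hlc, mul_comm a (s * t)]), hterm t hq0', hqR]
      push_cast
      rfl
  · intro t ht1 ht2
    obtain ⟨⟨h3, h4⟩, h5⟩ := (hmem t).mp (Finset.mem_Icc.mpr ⟨ht1, ht2⟩)
    refine ⟨?_, ?_⟩
    · rw [zero_add, abs_div, abs_of_pos hNj0, div_le_iff₀ hNj0]
      exact h5
    · rw [hneval, le_div_iff₀ hN0]
      have : (N : ℝ) < qc + s * t := by exact_mod_cast h3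
      linarith

theorem plane_line_of (line_sum : LineSumS) : PlaneLineS := by
  obtain ⟨c, K, E, hc, hc1, hK, hLB⟩ := P1_common line_sum 20
  refine ⟨c, max (K * (5 / 3) ^ E) (67 * 1000000000 + 2680), E, hc, hc1,
    lt_max_of_lt_left (by positivity), ?_⟩
  intro A B0 B1 ρ T μ N M X Y X' Y' y a s j hA hρ hρ1 hμ hμ1 hN hT5 hT6 hY hY' hy hne hcov hs has hj
    hNj40
  set K' : ℝ := max (K * (5 / 3) ^ E) (67 * 1000000000 + 2680) with hK'
  have hK1 : K * (5 / 3) ^ E ≤ K' := le_max_left _ _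
  have hK2 : (67 * 1000000000 + 2680 : ℝ) ≤ K' := le_max_right _ _
  have hK0 : 0 < K' := lt_of_lt_of_le (by positivity) hK1
  set Nj : ℝ := (N : ℝ) / max (s : ℝ) (|(j : ℝ)| / (y * N)) with hNj
  have hB0 := P1_B0 hA
  have hB1 := P1_B1 hA
  have hN1 : (1 : ℝ) ≤ N := by exact_mod_cast hN
  have hs1 : (1 : ℝ) ≤ s := by exact_mod_cast hs
  have hsqrt : 1 ≤ √(N : ℝ) := Real.one_le_sqrt.mpr hN1
  have hNj0 : (1 : ℝ) / 40 ≤ Nj := by linarith
  have hNjp : 0 < Nj := by linarith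
  have hNjN : Nj ≤ N := by
    rw [hNj]
    apply div_le_self (by positivity)
    exact hs1.trans (le_max_left _ _)
  have hx : 1 ≤ (ρ * μ)⁻¹ := by
    rw [one_le_inv₀ (by positivity)]
    nlinarith
  have hxE : 1 ≤ ((ρ * μ)⁻¹) ^ E := one_le_pow₀ hx
  have hrp : 0 ≤ Nj ^ (1 - c) := Real.rpow_nonneg hNjp.le _
  by_cases h0 : LS A T N M X Y X' Y' y a s j = 0
  · rw [h0, norm_zero]
    positivity
  obtain ⟨p, na, nb, hp, hLS, hn⟩ := P1_line hA hμ hμ1 hN hY hY' hy hne hcov hs has hj hNj h0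
  rw [hLS]
  rcases le_total (N : ℝ) 1000000000 with hsm | hbig
  · -- trivial bound
    have hcard : ((Finset.Icc na nb).card : ℝ) ≤ 66 * Nj + 1 := by
      rcases le_or_gt na nb with hab | hab
      · rw [Int.card_Icc]
        have e1 : (((nb + 1 - na).toNat : ℕ) : ℝ) = (nb : ℝ) + 1 - na := by
          have : (((nb + 1 - na).toNat : ℕ) : ℤ) = nb + 1 - na := Int.toNat_of_nonneg (by linarith)
          have := congrArg (Int.cast : ℤ → ℝ) this
          push_cast at this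
          exact_mod_cast this
        rw [e1]
        have e2 := (hn na le_rfl hab).1
        have e3 := (hn nb hab le_rfl).1
        rw [zero_add, abs_div, abs_of_pos hNjp, div_le_iff₀ hNjp] at e2 e3
        have e4 := (abs_le.mp e2).1
        have e5 := (abs_le.mp e3).2
        linarith
      · rw [Finset.Icc_eq_empty (not_le.mpr hab)]
        simp only [Finset.card_empty, Nat.cast_zero]
        positivity
    have h67 : 66 * Nj + 1 ≤ (67 * 1000000000 + 2680) * Nj ^ (1 - c) := by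
      rcases le_total Nj 1 with hle | hge
      · have e1 : Nj ≤ Nj ^ (1 - c) := by
          calc Nj = Nj ^ (1 : ℝ) := (Real.rpow_one _).symm
            _ ≤ Nj ^ (1 - c) := Real.rpow_le_rpow_of_exponent_ge hNjp hle (by linarith)
        linarith
      · have e1 : Nj ≤ 1000000000 * Nj ^ (1 - c) := by
          calc Nj = Nj ^ (c + (1 - c)) := by
                rw [add_sub_cancel, Real.rpow_one]
            _ = Nj ^ c * Nj ^ (1 - c) := Real.rpow_add hNjp _ _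
            _ ≤ 1000000000 * Nj ^ (1 - c) := by
              gcongr
              calc Nj ^ c ≤ Nj ^ (1 : ℝ) := Real.rpow_le_rpow_of_exponent_le hge hc1
                _ = Nj := Real.rpow_one _
                _ ≤ 1000000000 := hNjN.trans hsm
        linarith
    calc ‖∑ n ∈ Finset.Icc na nb, p.term A T Nj 0 n‖
        ≤ ∑ n ∈ Finset.Icc na nb, ‖p.term A T Nj 0 n‖ := norm_sum_le _ _
      _ ≤ ∑ n ∈ Finset.Icc na nb, B0 * B0 := Finset.sum_le_sum fun n _ => P1_osc_norm hA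
      _ = (Finset.Icc na nb).card * (B0 * B0) := by rw [Finset.sum_const, nsmul_eq_mul]
      _ ≤ (66 * Nj + 1) * (B0 * B0) := by gcongr
      _ ≤ ((67 * 1000000000 + 2680) * Nj ^ (1 - c)) * (B0 * (B0 + B1)) := by
        gcongr
        linarith
      _ ≤ (K' * Nj ^ (1 - c)) * (B0 * (B0 + B1)) := by gcongr
      _ = K' * (B0 * (B0 + B1)) * 1 * Nj ^ (1 - c) := by ring
      _ ≤ K' * (B0 * (B0 + B1)) * ((ρ * μ)⁻¹) ^ E * Nj ^ (1 - c) := by gcongr
  · obtain ⟨k, hk2, hk20, hk3, hk4⟩ := P1_k hbig hT5 hT6 hNj40 hNjN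
    have hsq : (31600 : ℝ) ≤ √(N : ℝ) := by
      apply Real.le_sqrt_of_sq_le
      linarith
    have hNj1 : 1 ≤ Nj := by linarith
    have key := hLB k hk2 hk20 p (3 / 5 * μ) hp A B0 B1 ρ T Nj 0 na nb hA hρ hρ1 hNj1 hk3 hk4
      (fun n h1 h2 => ⟨(hn n h1 h2).1.trans (by norm_num), (hn n h1 h2).2⟩)
    refine key.trans ?_
    have e1 : ((ρ * (3 / 5 * μ))⁻¹) ^ E = (5 / 3) ^ E * ((ρ * μ)⁻¹) ^ E := by
      rw [← mul_pow]
      congr 1
      field_simp
    rw [e1]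
    calc K * (B0 * (B0 + B1)) * ((5 / 3) ^ E * ((ρ * μ)⁻¹) ^ E) * Nj ^ (1 - c)
        = (K * (5 / 3) ^ E) * (B0 * (B0 + B1)) * ((ρ * μ)⁻¹) ^ E * Nj ^ (1 - c) := by ring
      _ ≤ K' * (B0 * (B0 + B1)) * ((ρ * μ)⁻¹) ^ E * Nj ^ (1 - c) := by gcongr

end Pool.Agent.H19.Sup
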