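import Mathlib
import Pool.Agent.H19.Sup.Defs2

set_option autoImplicit false

/-!
# K0: the kernel of radius 1/4

Copy of `Maass/Kernel.lean` and of `Maass.window_kernel` with the bump function of radii `1/8 < 1/4`.
* `rho4` is infinitely differentiable, even, `0 ≤ rho4 ≤ 1`, `rho4 = 1` on `[-1/8, 1/8]`, `0` outside `(-1/4, 1/4)`.
* `EV4` as `Maass.exists_EV`.
* `selb4`: `selb (kd g) (1/2 + i T) = ∫ g(b) e^{i T b}` (`EV.selb_eq`), real part `∫ rho4 cos² (T b) ≥ ∫_{-1/8}^{1/8} cos²(T b) db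
  = 1/8 + sin (T/4) / (2 T) ≥ 1/20` (if `T ≤ 4 π` the sine is `≥ 0`; otherwise `1/(2T) ≤ 1/24`).
-/

namespace Pool.Agent.H19.Sup

open UpperHalfPlane
open Pool.Agent.H19.Maass
open scoped MatrixGroups ENNReal

/-- the bump function -/
noncomputable def rho4 : ContDiffBump (0 : ℝ) := ⟨1 / 8, 1 / 4, by norm_num, by norm_num⟩

noncomputable def gT4 (T x : ℝ) : ℝ := rho4 x * Real.cos (T * x)

open MeasureTheory Set Filter Topology

lemma K0_contDiff (n : ℕ∞) : ContDiff ℝ n (rho4 : ℝ → ℝ) := rho4.contDiff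

lemma K0_even (x : ℝ) : rho4 (-x) = rho4 x := rho4.neg x

lemma K0_supp {x : ℝ} (hx : 1 / 4 ≤ |x|) : rho4 x = 0 := by
  refine rho4.zero_of_le_dist ?_
  show (1 / 4 : ℝ) ≤ dist x 0
  simpa [Real.dist_eq] using hx

lemma K0_nonneg (x : ℝ) : 0 ≤ rho4 x := rho4.nonneg
lemma K0_le_one (x : ℝ) : rho4 x ≤ 1 := rho4.le_one

lemma K0_one {x : ℝ} (hx : |x| ≤ 1 / 8) : rho4 x = 1 := by
  refine rho4.one_of_mem_closedBall ?_
  rw [Metric.mem_closedBall]
  show dist x 0 ≤ 1 / 8
  simpa [Real.dist_eq] using hx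

lemma K0_hcs : HasCompactSupport (rho4 : ℝ → ℝ) := rho4.hasCompactSupport

lemma K0_bounds : ∃ B1 B2 : ℝ, 0 ≤ B1 ∧ 0 ≤ B2 ∧ (∀ x, |deriv rho4 x| ≤ B1) ∧
    (∀ x, |deriv (deriv rho4) x| ≤ B2) := by
  have h1 : ContDiff ℝ 1 (deriv rho4) := by
    have : ContDiff ℝ (1 + 1) (rho4 : ℝ → ℝ) := by
      have := K0_contDiff 2
      exact_mod_cast this
    exact (contDiff_succ_iff_deriv.1 this).2.2
  have h0 : Continuous (deriv (deriv rho4)) := h1.continuous_deriv (by norm_num)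
  obtain ⟨B1, hB1⟩ := h1.continuous.bounded_above_of_compact_support K0_hcs.deriv
  obtain ⟨B2, hB2⟩ := h0.bounded_above_of_compact_support K0_hcs.deriv.deriv
  exact ⟨B1, B2, (norm_nonneg _).trans (hB1 0), (norm_nonneg _).trans (hB2 0), hB1, hB2⟩

lemma K0_diff : Differentiable ℝ (rho4 : ℝ → ℝ) :=
  (K0_contDiff 1).differentiable (by norm_num)

lemma K0_diff2 : Differentiable ℝ (deriv rho4) := by
  have h1 : ContDiff ℝ 1 (deriv rho4) := by
    have : ContDiff ℝ (1 + 1) (rho4 : ℝ → ℝ) := by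
      have := K0_contDiff 2
      exact_mod_cast this
    exact (contDiff_succ_iff_deriv.1 this).2.2
  exact h1.differentiable (by norm_num)

lemma K0_hasDerivAt (T x : ℝ) : HasDerivAt (gT4 T)
    (deriv rho4 x * Real.cos (T * x) - T * (rho4 x * Real.sin (T * x))) x := by
  have := (K0_diff x).hasDerivAt.mul (hasDerivAt_cosT T x)
  exact HasDerivAt.congr_deriv this (by ring)

lemma K0_deriv (T : ℝ) : deriv (gT4 T) =
    fun x => deriv rho4 x * Real.cos (T * x) - T * (rho4 x * Real.sin (T * x)) :=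
  funext fun x => (K0_hasDerivAt T x).deriv

lemma K0_hasDerivAt2 (T x : ℝ) : HasDerivAt (deriv (gT4 T))
    (deriv (deriv rho4) x * Real.cos (T * x) - 2 * T * (deriv rho4 x * Real.sin (T * x)) -
      T ^ 2 * (rho4 x * Real.cos (T * x))) x := by
  rw [K0_deriv]
  have h1 := (K0_diff2 x).hasDerivAt.mul (hasDerivAt_cosT T x)
  have h2 := ((K0_diff x).hasDerivAt.mul (hasDerivAt_sinT T x)).const_mul T
  exact HasDerivAt.congr_deriv (h1.sub h2) (by ring)

theorem EV4 : ∃ B : ℝ, 1 ≤ B ∧ ∀ T : ℝ, 1 ≤ T → EV (gT4 T) (1 / 4) 1 (B * T) (B * T ^ 2) := by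
  obtain ⟨B1, B2, h1, h2, hB1, hB2⟩ := K0_bounds
  refine ⟨B2 + 2 * B1 + 1, by linarith, fun T hT => ?_⟩
  refine ⟨fun x => (K0_hasDerivAt T x).differentiableAt,
    fun x => (K0_hasDerivAt2 T x).differentiableAt, ?_, by norm_num, ?_, ?_, ?_, ?_⟩
  · intro x
    unfold gT4
    rw [K0_even, mul_neg, Real.cos_neg]
  · intro x hx
    unfold gT4
    rw [K0_supp hx.le, zero_mul]
  · intro x
    unfold gT4
    rw [abs_mul]
    have := Real.abs_cos_le_one (T * x)
    have h3 : |rho4 x| ≤ 1 := by rw [abs_of_nonneg (K0_nonneg x)]; exact K0_le_one x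
    calc |rho4 x| * |Real.cos (T * x)| ≤ 1 * 1 := mul_le_mul h3 this (abs_nonneg _) (by norm_num)
      _ = 1 := by norm_num
  · intro x
    rw [K0_deriv]
    simp only
    have hc := Real.abs_cos_le_one (T * x)
    have hs := Real.abs_sin_le_one (T * x)
    have h3 : |rho4 x| ≤ 1 := by rw [abs_of_nonneg (K0_nonneg x)]; exact K0_le_one x
    have e1 : |deriv rho4 x * Real.cos (T * x)| ≤ B1 * 1 := by
      rw [abs_mul]; exact mul_le_mul (hB1 x) hc (abs_nonneg _) h1
    have e2 : |T * (rho4 x * Real.sin (T * x))| ≤ T * (1 * 1) := by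
      rw [abs_mul, abs_mul, abs_of_pos (by linarith : 0 < T)]
      exact mul_le_mul_of_nonneg_left (mul_le_mul h3 hs (abs_nonneg _) (by norm_num))
        (by linarith)
    have e3 := abs_sub (deriv rho4 x * Real.cos (T * x)) (T * (rho4 x * Real.sin (T * x)))
    nlinarith [mul_nonneg h1 (by linarith : 0 ≤ T - 1), mul_nonneg h2 (by linarith : 0 ≤ T - 1)]
  · intro x
    rw [(K0_hasDerivAt2 T x).deriv]
    have hc := Real.abs_cos_le_one (T * x)
    have hs := Real.abs_sin_le_one (T * x)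
    have h3 : |rho4 x| ≤ 1 := by rw [abs_of_nonneg (K0_nonneg x)]; exact K0_le_one x
    have hT0 : 0 < T := by linarith
    have e1 : |deriv (deriv rho4) x * Real.cos (T * x)| ≤ B2 * 1 := by
      rw [abs_mul]; exact mul_le_mul (hB2 x) hc (abs_nonneg _) h2
    have e2 : |2 * T * (deriv rho4 x * Real.sin (T * x))| ≤ 2 * T * (B1 * 1) := by
      rw [abs_mul, abs_mul (deriv rho4 x), abs_of_pos (by positivity : 0 < 2 * T)]
      exact mul_le_mul_of_nonneg_left (mul_le_mul (hB1 x) hs (abs_nonneg _) h1)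
        (by positivity)
    have e3 : |T ^ 2 * (rho4 x * Real.cos (T * x))| ≤ T ^ 2 * (1 * 1) := by
      rw [abs_mul, abs_mul (rho4 x), abs_of_pos (by positivity : 0 < T ^ 2)]
      exact mul_le_mul_of_nonneg_left (mul_le_mul h3 hc (abs_nonneg _) (by norm_num))
        (by positivity)
    have e4 := abs_sub (deriv (deriv rho4) x * Real.cos (T * x) -
      2 * T * (deriv rho4 x * Real.sin (T * x))) (T ^ 2 * (rho4 x * Real.cos (T * x)))
    have e5 := abs_sub (deriv (deriv rho4) x * Real.cos (T * x))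
      (2 * T * (deriv rho4 x * Real.sin (T * x)))
    have hT2 : 1 ≤ T ^ 2 := by nlinarith
    have hTT : T ≤ T ^ 2 := by nlinarith
    nlinarith [mul_nonneg h1 (by linarith : 0 ≤ T ^ 2 - T), mul_nonneg h2 (by linarith : 0 ≤ T ^ 2 - 1)]

lemma K0_continuous : Continuous (rho4 : ℝ → ℝ) := (K0_contDiff 0).continuous

lemma K0_integrable {f : ℝ → ℝ} (hf : Continuous f) : Integrable fun x => rho4 x * f x :=
  (K0_continuous.mul hf).integrable_of_hasCompactSupport K0_hcs.mul_right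

lemma K0_sin_div_ge {T : ℝ} (hT : 1 ≤ T) : -(1 / 12) ≤ Real.sin (T / 4) / T := by
  have hT0 : 0 < T := by linarith
  by_cases h : T / 4 ≤ Real.pi
  · have : 0 ≤ Real.sin (T / 4) := Real.sin_nonneg_of_nonneg_of_le_pi (by linarith) h
    have : 0 ≤ Real.sin (T / 4) / T := by positivity
    linarith
  · have h1 : 12 ≤ T := by have := Real.pi_gt_three; linarith [not_le.1 h]
    rw [le_div_iff₀ hT0]
    have := Real.neg_one_le_sin (T / 4)
    linarith

lemma K0_integral {T : ℝ} (hT : 1 ≤ T) :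
    1 / 20 ≤ ∫ x : ℝ, rho4 x * (Real.cos (T * x) * Real.cos (T * x)) := by
  have hT0 : 0 < T := by linarith
  have hc : Continuous fun x : ℝ => Real.cos (T * x) * Real.cos (T * x) := by fun_prop
  have h1 : ∫ x in Icc (-(1 / 8) : ℝ) (1 / 8), rho4 x * (Real.cos (T * x) * Real.cos (T * x)) ≤
      ∫ x : ℝ, rho4 x * (Real.cos (T * x) * Real.cos (T * x)) := by
    refine setIntegral_le_integral (K0_integrable hc) (Eventually.of_forall fun x => ?_)
    exact mul_nonneg (K0_nonneg x) (mul_self_nonneg _)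
  refine le_trans ?_ h1
  have h2 : ∫ x in Icc (-(1 / 8) : ℝ) (1 / 8), rho4 x * (Real.cos (T * x) * Real.cos (T * x)) =
      ∫ x in (-(1 / 8) : ℝ)..(1 / 8), Real.cos (T * x) ^ 2 := by
    rw [intervalIntegral.integral_of_le (by norm_num), ← integral_Icc_eq_integral_Ioc]
    refine setIntegral_congr_fun measurableSet_Icc fun x hx => ?_
    rw [K0_one (abs_le.2 hx)]
    ring
  rw [h2]
  have h3 : ∫ x in (-(1 / 8) : ℝ)..(1 / 8), Real.cos (T * x) ^ 2 =
      T⁻¹ * ∫ x in (-(T / 8))..(T / 8), Real.cos x ^ 2 := by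
    have := intervalIntegral.integral_comp_mul_left (a := -(1 / 8)) (b := 1 / 8)
      (fun x => Real.cos x ^ 2) hT0.ne'
    rw [this, smul_eq_mul]
    congr 2 <;> ring
  rw [h3, integral_cos_sq]
  have h4 : Real.cos (-(T / 8)) = Real.cos (T / 8) := Real.cos_neg _
  have h5 : Real.sin (-(T / 8)) = - Real.sin (T / 8) := Real.sin_neg _
  rw [h4, h5]
  have h6 : Real.sin (T / 4) = 2 * Real.sin (T / 8) * Real.cos (T / 8) := by
    rw [← Real.sin_two_mul]; congr 1; ring
  have h7 := K0_sin_div_ge hT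
  rw [h6] at h7
  have h8 : T⁻¹ * ((Real.cos (T / 8) * Real.sin (T / 8) - Real.cos (T / 8) * -Real.sin (T / 8) +
      T / 8 - -(T / 8)) / 2) = (2 * Real.sin (T / 8) * Real.cos (T / 8) / T) / 2 + 1 / 8 := by
    field_simp
    ring
  rw [h8]
  linarith

theorem selb4 {T : ℝ} (hT : 1 ≤ T) : 1 / 20 ≤ ‖selb (kd (gT4 T)) (1 / 2 + T * Complex.I)‖ := by
  obtain ⟨B, hB, hE⟩ := EV4
  have hEV := hE T hT
  refine le_trans ?_ (Complex.re_le_norm _)
  rw [hEV.selb_eq]
  have hc : Continuous fun b : ℝ => (gT4 T b : ℂ) *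
      Complex.exp ((1 / 2 + T * Complex.I - 1 / 2) * b) := by
    have := hEV.d1.continuous
    fun_prop
  have hint : Integrable fun b : ℝ => (gT4 T b : ℂ) *
      Complex.exp ((1 / 2 + T * Complex.I - 1 / 2) * b) := by
    refine hc.integrable_of_hasCompactSupport ?_
    exact (hEV.hcs.comp_left (g := fun x : ℝ => (x : ℂ)) (by simp)).mul_right
  have h1 : (∫ b : ℝ, (gT4 T b : ℂ) * Complex.exp ((1 / 2 + T * Complex.I - 1 / 2) * b)).re =
      ∫ b : ℝ, rho4 b * (Real.cos (T * b) * Real.cos (T * b)) := by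
    have h2 := integral_re (𝕜 := ℂ) hint
    have h3 : RCLike.re (∫ b : ℝ, (gT4 T b : ℂ) *
        Complex.exp ((1 / 2 + T * Complex.I - 1 / 2) * b)) =
      (∫ b : ℝ, (gT4 T b : ℂ) * Complex.exp ((1 / 2 + T * Complex.I - 1 / 2) * b)).re := rfl
    rw [← h3, ← h2]
    refine integral_congr_ae (Eventually.of_forall fun b => ?_)
    simp only
    have h4 : (1 / 2 + (T : ℂ) * Complex.I - 1 / 2) * (b : ℂ) = ((T * b : ℝ) : ℂ) * Complex.I := by
      push_cast; ring
    rw [h4]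
    show ((gT4 T b : ℂ) * Complex.exp (((T * b : ℝ) : ℂ) * Complex.I)).re = _
    rw [Complex.re_ofReal_mul, Complex.exp_ofReal_mul_I_re]
    unfold gT4
    ring
  rw [h1]
  exact K0_integral hT

end Pool.Agent.H19.Sup
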