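import Mathlib
import Pool.Agent.H19.Sup.K0

set_option autoImplicit false

/-!
# K0b: dyadic majorant of the kernel of radius 1/4

`EV4` and `EV.kas_bound` as in `Maass.exists_kernel` (`|kas g s| ≤ 2 a C0 (C1 / (2 √s) δ + C0 / δ)`, `a = 1/4`, with `δ = 1/T` and
`δ = q / √T`, `q^4 = s`), then the dyadic argument of `Maass.window_kernel` word for word (the kernel vanishes for `dist > 1/2`).
-/

namespace Pool.Agent.H19.Sup

open UpperHalfPlane
open Pool.Agent.H19.Maass
open scoped MatrixGroups ENNReal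

open Filter Topology Set in
lemma K0b_kernel : ∃ C : ℝ, 0 < C ∧ ∀ T : ℝ, 1 ≤ T → Ker (kd (gT4 T)) 1 ∧
    (∀ z w : ℍ, |KK (kd (gT4 T)) z w| ≤ C * T) ∧
    (∀ z w : ℍ, ∀ q : ℝ, 0 < q → q ^ 4 = 2 * Real.cosh (dist z w) - 2 →
      |KK (kd (gT4 T)) z w| ≤ C * √T / q) := by
  obtain ⟨B, hB, hEV⟩ := EV4
  refine ⟨2 * (B + 1), by linarith, fun T hT => ⟨?_, ?_, ?_⟩⟩
  · have h := (hEV T hT).ker
    exact ⟨h.meas, h.bdd, fun r hr => h.supp r (by linarith)⟩
  · have hT0 : 0 < T := by linarith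
    have h1 : ∀ s : ℝ, 0 < s → |kas (gT4 T) s| ≤ 2 * (B + 1) * T := by
      intro s hs
      have h2 := ((hEV T hT).kas_bound hs (δ := 1 / T) (by positivity)).2
      refine h2.trans ?_
      have h3 : 2 * (1 / 4 : ℝ) * 1 * (B * T ^ 2 / 2 * (1 / T) + 1 / (1 / T)) =
          (B + 2) / 4 * T := by
        field_simp
      rw [h3]
      exact mul_le_mul_of_nonneg_right (by linarith) hT0.le
    have h0 : |kas (gT4 T) 0| ≤ 2 * (B + 1) * T := by
      have hc := (hEV T hT).continuous_kas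
      have h4 : Tendsto (fun s => |kas (gT4 T) s|) (𝓝[>] 0) (𝓝 |kas (gT4 T) 0|) :=
        (hc.abs.tendsto 0).mono_left nhdsWithin_le_nhds
      refine le_of_tendsto h4 ?_
      filter_upwards [self_mem_nhdsWithin] with s hs
      exact h1 s hs
    intro z w
    rw [KK_eq_kas]
    have h5 : 0 ≤ 2 * Real.cosh (dist z w) - 2 := by
      have := Real.one_le_cosh (dist z w); linarith
    rcases h5.eq_or_lt with h6 | h6
    · rw [← h6]; exact h0
    · exact h1 _ h6
  · intro z w q hq hqs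
    have hT0 : 0 < T := by linarith
    have hsT : 0 < √T := Real.sqrt_pos.2 hT0
    rw [KK_eq_kas, ← hqs]
    have h2 := ((hEV T hT).kas_bound (s := q ^ 4) (by positivity) (δ := q / √T)
      (by positivity)).1
    refine h2.trans ?_
    have h3 : √(q ^ 4) = q ^ 2 := by
      rw [show q ^ 4 = (q ^ 2) ^ 2 by ring, Real.sqrt_sq (by positivity)]
    rw [h3]
    have h4 : T = √T * √T := (Real.mul_self_sqrt hT0.le).symm
    have h5 : 2 * (1 / 4 : ℝ) * 1 * (B * T / (2 * q ^ 2) * (q / √T) + 1 / (q / √T)) =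
        (B + 2) / 4 * √T / q := by
      conv_lhs => rw [h4]
      rw [Real.sqrt_mul_self hsT.le]
      field_simp
    rw [h5]
    exact div_le_div_of_nonneg_right (mul_le_mul_of_nonneg_right (by linarith) hsT.le) hq.le

theorem ph4 : ∃ C : ℝ, 0 < C ∧ ∀ T : ℝ, 1 ≤ T → ∃ L : ℕ, √T ≤ 2 ^ L ∧ (2 : ℝ) ^ L ≤ 2 * √T ∧
    ∀ z w : ℍ, ENNReal.ofReal |KK (kd (gT4 T)) z w| ≤ ph C T L (2 * Real.cosh (dist z w) - 2) := by
  obtain ⟨C, hC, hker⟩ := K0b_kernel
  refine ⟨2 * C, by positivity, fun T hT => ?_⟩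
  obtain ⟨hk, hb1, hb2⟩ := hker T hT
  have hT0 : 0 < T := by linarith
  have hsT : 1 ≤ √T := by rw [Real.one_le_sqrt]; exact hT
  obtain ⟨n, hn1, hn2⟩ := exists_nat_pow_near hsT (by norm_num : (1 : ℝ) < 2)
  refine ⟨n + 1, hn2.le, by rw [pow_succ]; linarith, fun z w => ?_⟩
  set k := kd (gT4 T) with hkd
  set s := 2 * Real.cosh (dist z w) - 2 with hs
  have hs0 : 0 ≤ s := by have := Real.one_le_cosh (dist z w); linarith
  have hterm : ∀ j ∈ Finset.range (n + 1 + 1), s ≤ 6 / 16 ^ j →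
      ENNReal.ofReal (2 * C * √T * 2 ^ j) ≤ ph (2 * C) T (n + 1) s := by
    intro j hj hsj
    unfold ph
    refine le_trans ?_ (Finset.single_le_sum (f := fun j : ℕ =>
      ENNReal.ofReal (2 * C * √T * 2 ^ j) * ic (s ≤ 6 / 16 ^ j)) (fun _ _ => zero_le) hj)
    rw [ic_true hsj, mul_one]
  by_cases hd : 2 < dist z w
  · rw [KK_supp hk (by linarith)]
    simp
  rw [not_lt] at hd
  have hs6 : s ≤ 6 := by
    have h1 : Real.cosh (dist z w) ≤ Real.cosh 2 := by
      rw [Real.cosh_le_cosh, abs_of_nonneg dist_nonneg, abs_of_pos (by norm_num)]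
      exact hd
    have := cosh_two_le
    linarith
  by_cases hlast : s ≤ 6 / 16 ^ (n + 1)
  · refine le_trans (ENNReal.ofReal_le_ofReal ?_) (hterm (n + 1) (by simp) hlast)
    refine (hb1 z w).trans ?_
    have h2 : T = √T * √T := (Real.mul_self_sqrt hT0.le).symm
    calc C * T = C * √T * √T := by rw [mul_assoc, ← h2]
      _ ≤ C * √T * 2 ^ (n + 1) := mul_le_mul_of_nonneg_left hn2.le (by positivity)
      _ ≤ 2 * C * √T * 2 ^ (n + 1) := by
          have : 0 ≤ C * √T * 2 ^ (n + 1) := by positivity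
          nlinarith
  · -- find the dyadic scale
    have hex : ∃ j, j ≤ n ∧ s ≤ 6 / 16 ^ j ∧ 6 / 16 ^ (j + 1) < s := by
      have hex0 : ∃ j, ¬ s ≤ 6 / 16 ^ j := ⟨n + 1, hlast⟩
      classical
      set j0 := Nat.find hex0 with hj0
      have h1 := Nat.find_spec hex0
      have h2 : j0 ≤ n + 1 := Nat.find_min' hex0 hlast
      have h3 : j0 ≠ 0 := by
        intro h
        rw [← hj0, h] at h1
        apply h1; simpa using hs6
      obtain ⟨j, hj⟩ := Nat.exists_eq_succ_of_ne_zero h3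
      refine ⟨j, by omega, ?_, ?_⟩
      · have := Nat.find_min hex0 (m := j) (by rw [← hj0, hj]; exact Nat.lt_succ_self j)
        exact not_not.1 this
      · rw [← hj0, hj] at h1
        exact not_le.1 h1
    obtain ⟨j, hjn, hj1, hj2⟩ := hex
    refine le_trans (ENNReal.ofReal_le_ofReal ?_) (hterm j (by
      rw [Finset.mem_range]; omega) hj1)
    have hspos : 0 < s := lt_trans (by positivity) hj2
    set q := √(√s) with hq
    have hq0 : 0 < q := Real.sqrt_pos.2 (Real.sqrt_pos.2 hspos)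
    have hq4 : q ^ 4 = s := by
      have e1 : q ^ 2 = √s := Real.sq_sqrt (Real.sqrt_nonneg s)
      calc q ^ 4 = (q ^ 2) ^ 2 := by ring
        _ = s := by rw [e1, Real.sq_sqrt hs0]
    have hb := hb2 z w q hq0 hq4
    refine hb.trans ?_
    have hqj : 1 ≤ q * 2 ^ (j + 1) := by
      by_contra hlt
      rw [not_le] at hlt
      have h5 : (q * 2 ^ (j + 1)) ^ 4 < 1 := pow_lt_one₀ (by positivity) hlt (by norm_num)
      rw [mul_pow, hq4, ← pow_mul, mul_comm (j + 1) 4, pow_mul] at h5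
      norm_num at h5
      have h6 : 6 / 16 ^ (j + 1) * (16 : ℝ) ^ (j + 1) < s * 16 ^ (j + 1) :=
        mul_lt_mul_of_pos_right hj2 (by positivity)
      rw [div_mul_cancel₀ _ (by positivity)] at h6
      linarith
    rw [div_le_iff₀ hq0]
    calc C * √T = C * √T * 1 := by ring
      _ ≤ C * √T * (q * 2 ^ (j + 1)) := mul_le_mul_of_nonneg_left hqj (by positivity)
      _ = 2 * C * √T * 2 ^ j * q := by rw [pow_succ]; ring

end Pool.Agent.H19.Sup
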