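import Mathlib
import Pool.Agent.H19.Sup.K0

set_option autoImplicit false

/-!
# K1: structure of the convolution square `cv (gT4 T)`

Let `R b = ∫ rho4 c * rho4 (b - c) dc` (even, `C²` (even `C^∞`), zero for `1/2 ≤ |b|`, so `|R' b| ≤ C |b|`), and
`P b = ∫ rho4 c * rho4 (b - c) * cos (T (2 c - b)) dc`.  Then `cv (gT4 T) b = 1/2 cos (T b) R b + 1/2 P b` and
`(cv (gT4 T))' + T/2 sin (T b) R b = 1/2 cos (T b) R' b + 1/2 P' b`, where
`P' b = ∫ [rho4 c rho4' (b - c) cos (T (2c - b)) + T rho4 c rho4 (b - c) sin (T (2c - b))] dc`: integrate by parts once in `c` in the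
first term and twice in the second: `|P' b| ≤ C / T`.
(Derivatives of convolutions: `Maass.EV.conv_deriv`, or Mathlib's `HasCompactSupport.contDiff_convolution_left`.)
-/

namespace Pool.Agent.H19.Sup

open UpperHalfPlane MeasureTheory Set
open Pool.Agent.H19.Maass

lemma K1_cd (n : ℕ∞) : ContDiff ℝ n (rho4 : ℝ → ℝ) := rho4.contDiff

lemma K1_even (x : ℝ) : rho4 (-x) = rho4 x := rho4.neg x

lemma K1_supp {x : ℝ} (hx : 1 / 4 ≤ |x|) : rho4 x = 0 := by
  refine rho4.zero_of_le_dist ?_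
  show (1 / 4 : ℝ) ≤ dist x 0
  simpa [Real.dist_eq] using hx

lemma K1_hcs : HasCompactSupport (rho4 : ℝ → ℝ) := rho4.hasCompactSupport

lemma K1_cd1 : ContDiff ℝ 1 (deriv rho4) := by
  have : ContDiff ℝ (1 + 1) (rho4 : ℝ → ℝ) := by
    have := K1_cd 2
    exact_mod_cast this
  exact (contDiff_succ_iff_deriv.1 this).2.2

lemma K1_cont2 : Continuous (deriv (deriv rho4)) := K1_cd1.continuous_deriv (by norm_num)

lemma K1_diff : Differentiable ℝ (rho4 : ℝ → ℝ) := (K1_cd 1).differentiable (by norm_num)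

lemma K1_diff1 : Differentiable ℝ (deriv rho4) := K1_cd1.differentiable (by norm_num)

lemma K1_cont : Continuous (rho4 : ℝ → ℝ) := (K1_cd 0).continuous

lemma K1_cont1 : Continuous (deriv rho4) := K1_cd1.continuous

/-- bounds for `rho4` and its derivatives -/
lemma K1_EV : ∃ B : ℝ, 1 ≤ B ∧ EV rho4 (1 / 4) B B B := by
  obtain ⟨B0, hB0⟩ := K1_cont.bounded_above_of_compact_support K1_hcs
  obtain ⟨B1, hB1⟩ := K1_cont1.bounded_above_of_compact_support K1_hcs.deriv
  obtain ⟨B2, hB2⟩ := K1_cont2.bounded_above_of_compact_support K1_hcs.deriv.deriv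
  refine ⟨max 1 (max B0 (max B1 B2)), le_max_left _ _, K1_diff, K1_diff1, K1_even, by norm_num,
    fun x hx => K1_supp hx.le, fun x => ?_, fun x => ?_, fun x => ?_⟩
  · exact (hB0 x).trans ((le_max_left _ _).trans (le_max_right _ _))
  · exact (hB1 x).trans ((le_max_left _ _).trans ((le_max_right _ _).trans (le_max_right _ _)))
  · exact (hB2 x).trans ((le_max_right _ _).trans ((le_max_right _ _).trans (le_max_right _ _)))

lemma K1_bound {φ w : ℝ → ℝ} {M : ℝ} (hM : ∀ x, |φ x| ≤ M) (hs : ∀ x, 1 / 4 < |x| → φ x = 0)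
    (hw : ∀ x, |w x| ≤ 1) : |∫ c, φ c * w c| ≤ M := by
  have hM0 : 0 ≤ M := (abs_nonneg _).trans (hM 0)
  have h1 : ∫ c, φ c * w c = ∫ c in Icc (-(1 / 4) : ℝ) (1 / 4), φ c * w c := by
    refine (setIntegral_eq_integral_of_forall_compl_eq_zero fun c hc => ?_).symm
    rw [hs c, zero_mul]
    by_contra h1
    exact hc (abs_le.1 (not_lt.1 h1))
  rw [h1]
  have h2 := norm_setIntegral_le_of_norm_le_const (f := fun c : ℝ => φ c * w c)
    (C := M) (s := Icc (-(1 / 4) : ℝ) (1 / 4)) (μ := volume) (by simp) (fun c _ => by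
      rw [norm_mul]
      calc ‖φ c‖ * ‖w c‖ ≤ M * 1 := mul_le_mul (hM _) (hw _) (norm_nonneg _) hM0
        _ = M := mul_one M)
  refine h2.trans ?_
  rw [Real.volume_real_Icc_of_le (by norm_num)]
  linarith

/-- integration by parts against `cos` -/
lemma K1_ibp_cos {φ φ' : ℝ → ℝ} (hφ : ∀ x, HasDerivAt φ (φ' x) x) (hc : Continuous φ')
    (hs : HasCompactSupport φ) (hs' : HasCompactSupport φ') {T : ℝ} (hT : 0 < T) (b : ℝ) :
    ∫ c, φ c * Real.cos (T * (2 * c - b)) =
      -(1 / (2 * T)) * ∫ c, φ' c * Real.sin (T * (2 * c - b)) := by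
  have hφc : Continuous φ := continuous_iff_continuousAt.2 fun x => (hφ x).continuousAt
  have hv : ∀ c, HasDerivAt (fun c => 1 / (2 * T) * Real.sin (T * (2 * c - b)))
      (Real.cos (T * (2 * c - b))) c := by
    intro c
    have h1 : HasDerivAt (fun c => T * (2 * c - b)) (T * 2) c := by
      have := (((hasDerivAt_id c).const_mul 2).sub_const b).const_mul T
      simpa using this
    have h2 := ((Real.hasDerivAt_sin (T * (2 * c - b))).comp c h1).const_mul (1 / (2 * T))
    refine HasDerivAt.congr_deriv h2 ?_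
    field_simp
  have key := integral_mul_deriv_eq_deriv_mul_of_integrable (u := φ) (u' := φ')
    (v := fun c => 1 / (2 * T) * Real.sin (T * (2 * c - b)))
    (v' := fun c => Real.cos (T * (2 * c - b))) (fun x _ => hφ x) (fun x _ => hv x)
    ((hφc.mul (by fun_prop)).integrable_of_hasCompactSupport hs.mul_right)
    ((hc.mul (by fun_prop)).integrable_of_hasCompactSupport hs'.mul_right)
    ((hφc.mul (by fun_prop)).integrable_of_hasCompactSupport hs.mul_right)
  rw [key, neg_mul, ← integral_const_mul]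
  congr 1
  refine integral_congr_ae (Filter.Eventually.of_forall fun c => ?_)
  simp only
  ring

/-- integration by parts against `sin` -/
lemma K1_ibp_sin {φ φ' : ℝ → ℝ} (hφ : ∀ x, HasDerivAt φ (φ' x) x) (hc : Continuous φ')
    (hs : HasCompactSupport φ) (hs' : HasCompactSupport φ') {T : ℝ} (hT : 0 < T) (b : ℝ) :
    ∫ c, φ c * Real.sin (T * (2 * c - b)) =
      1 / (2 * T) * ∫ c, φ' c * Real.cos (T * (2 * c - b)) := by
  have hφc : Continuous φ := continuous_iff_continuousAt.2 fun x => (hφ x).continuousAt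
  have hv : ∀ c, HasDerivAt (fun c => -(1 / (2 * T)) * Real.cos (T * (2 * c - b)))
      (Real.sin (T * (2 * c - b))) c := by
    intro c
    have h1 : HasDerivAt (fun c => T * (2 * c - b)) (T * 2) c := by
      have := (((hasDerivAt_id c).const_mul 2).sub_const b).const_mul T
      simpa using this
    have h2 := ((Real.hasDerivAt_cos (T * (2 * c - b))).comp c h1).const_mul (-(1 / (2 * T)))
    refine HasDerivAt.congr_deriv h2 ?_
    field_simp
  have key := integral_mul_deriv_eq_deriv_mul_of_integrable (u := φ) (u' := φ')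
    (v := fun c => -(1 / (2 * T)) * Real.cos (T * (2 * c - b)))
    (v' := fun c => Real.sin (T * (2 * c - b))) (fun x _ => hφ x) (fun x _ => hv x)
    ((hφc.mul (by fun_prop)).integrable_of_hasCompactSupport hs.mul_right)
    ((hc.mul (by fun_prop)).integrable_of_hasCompactSupport hs'.mul_right)
    ((hφc.mul (by fun_prop)).integrable_of_hasCompactSupport hs.mul_right)
  rw [key, ← integral_const_mul, ← integral_neg]
  refine integral_congr_ae (Filter.Eventually.of_forall fun c => ?_)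
  simp only
  ring

lemma K1_cv_contDiff : ContDiff ℝ 2 (cv rho4) := by
  have h : ContDiff ℝ 2 (MeasureTheory.convolution (rho4 : ℝ → ℝ) (rho4 : ℝ → ℝ)
      (ContinuousLinearMap.mul ℝ ℝ) volume) := by
    refine K1_hcs.contDiff_convolution_right _ K1_cont.locallyIntegrable ?_
    exact_mod_cast K1_cd 2
  exact h

lemma K1_cv_zero {b : ℝ} (hb : 1 / 2 ≤ |b|) : cv rho4 b = 0 := by
  show ∫ c, rho4 c * rho4 (b - c) = 0
  have : ∀ c, rho4 c * rho4 (b - c) = 0 := by
    intro c
    by_cases h1 : 1 / 4 ≤ |c|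
    · rw [K1_supp h1, zero_mul]
    · rw [K1_supp (x := b - c), mul_zero]
      have h2 : |b| ≤ |b - c| + |c| := by
        have := abs_add_le (b - c) c
        rwa [sub_add_cancel] at this
      linarith [not_le.1 h1]
  simp_rw [this]
  simp

lemma K1_deriv_gT4 (T : ℝ) (x : ℝ) : deriv (gT4 T) x =
    deriv rho4 x * Real.cos (T * x) - T * (rho4 x * Real.sin (T * x)) := by
  have := (K1_diff x).hasDerivAt.mul (hasDerivAt_cosT T x)
  exact (HasDerivAt.congr_deriv this (by ring)).deriv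

lemma K1_hcs_flip {f : ℝ → ℝ} (hf : HasCompactSupport f) (b : ℝ) :
    HasCompactSupport fun c => f (b - c) :=
  hf.comp_homeomorph (Homeomorph.subLeft b)

lemma K1_int4 {f1 f2 f3 f4 : ℝ → ℝ} (h1 : Integrable f1) (h2 : Integrable f2) (h3 : Integrable f3)
    (h4 : Integrable f4) : ∫ x, (f1 x - f2 x + f3 x + f4 x) =
      (∫ x, f1 x) - (∫ x, f2 x) + (∫ x, f3 x) + ∫ x, f4 x := by
  have e1 : ∫ x, (f1 x - f2 x + f3 x + f4 x) = (∫ x, (f1 x - f2 x + f3 x)) + ∫ x, f4 x :=
    integral_add ((h1.sub h2).add h3) h4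
  have e2 : ∫ x, (f1 x - f2 x + f3 x) = (∫ x, (f1 x - f2 x)) + ∫ x, f3 x :=
    integral_add (h1.sub h2) h3
  rw [e1, e2, integral_sub h1 h2]

lemma K1_formula {T : ℝ} (hT : 1 ≤ T) (b : ℝ) :
    deriv (cv (gT4 T)) b = 1 / 2 * Real.cos (T * b) * deriv (cv rho4) b
      - T / 2 * Real.sin (T * b) * cv rho4 b
      + 1 / 2 * (∫ c, (rho4 c * deriv rho4 (b - c)) * Real.cos (T * (2 * c - b)))
      + T / 2 * ∫ c, (rho4 c * rho4 (b - c)) * Real.sin (T * (2 * c - b)) := by
  obtain ⟨B, hB1, hB⟩ := EV4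
  have hg := hB T hT
  obtain ⟨B', hB'1, hr⟩ := K1_EV
  have e1 : deriv (cv (gT4 T)) b = ∫ c, gT4 T c * deriv (gT4 T) (b - c) :=
    (hg.conv_deriv hg.d1 hg.b1 b).deriv
  have e2 : deriv (cv rho4) b = ∫ c, rho4 c * deriv rho4 (b - c) :=
    (hr.conv_deriv hr.d1 hr.b1 b).deriv
  have e3 : cv rho4 b = ∫ c, rho4 c * rho4 (b - c) := rfl
  have hc1 : Continuous fun c => rho4 c * deriv rho4 (b - c) :=
    K1_cont.mul (K1_cont1.comp (by fun_prop))
  have hc2 : Continuous fun c => rho4 c * rho4 (b - c) :=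
    K1_cont.mul (K1_cont.comp (by fun_prop))
  have hs1 : HasCompactSupport fun c => rho4 c * deriv rho4 (b - c) := K1_hcs.mul_right
  have hs2 : HasCompactSupport fun c => rho4 c * rho4 (b - c) := K1_hcs.mul_right
  have i1 := hc1.integrable_of_hasCompactSupport (μ := volume) hs1
  have i2 := hc2.integrable_of_hasCompactSupport (μ := volume) hs2
  have i3 : Integrable fun c => (rho4 c * deriv rho4 (b - c)) * Real.cos (T * (2 * c - b)) :=
    (hc1.mul (by fun_prop)).integrable_of_hasCompactSupport hs1.mul_right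
  have i4 : Integrable fun c => (rho4 c * rho4 (b - c)) * Real.sin (T * (2 * c - b)) :=
    (hc2.mul (by fun_prop)).integrable_of_hasCompactSupport hs2.mul_right
  rw [e1, e2, e3, ← integral_const_mul, ← integral_const_mul, ← integral_const_mul,
    ← integral_const_mul]
  refine Eq.trans ?_ (K1_int4 (i1.const_mul _) (i2.const_mul _) (i3.const_mul _) (i4.const_mul _))
  refine integral_congr_ae (Filter.Eventually.of_forall fun c => ?_)
  simp only
  rw [K1_deriv_gT4]
  unfold gT4
  have t1 : Real.cos (T * b) = Real.cos (T * c) * Real.cos (T * (b - c)) -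
      Real.sin (T * c) * Real.sin (T * (b - c)) := by
    rw [← Real.cos_add]; congr 1; ring
  have t2 : Real.sin (T * b) = Real.sin (T * c) * Real.cos (T * (b - c)) +
      Real.cos (T * c) * Real.sin (T * (b - c)) := by
    rw [← Real.sin_add]; congr 1; ring
  have t3 : Real.cos (T * (2 * c - b)) = Real.cos (T * c) * Real.cos (T * (b - c)) +
      Real.sin (T * c) * Real.sin (T * (b - c)) := by
    rw [← Real.cos_sub]; congr 1; ring
  have t4 : Real.sin (T * (2 * c - b)) = Real.sin (T * c) * Real.cos (T * (b - c)) -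
      Real.cos (T * c) * Real.sin (T * (b - c)) := by
    rw [← Real.sin_sub]; congr 1; ring
  rw [t1, t2, t3, t4]
  ring

lemma K1_I3 : ∃ M : ℝ, 0 ≤ M ∧ ∀ T : ℝ, 1 ≤ T → ∀ b : ℝ,
    |∫ c, (rho4 c * deriv rho4 (b - c)) * Real.cos (T * (2 * c - b))| ≤ M / T := by
  obtain ⟨B, hB1, hr⟩ := K1_EV
  refine ⟨B * B + B * B, by positivity, fun T hT b => ?_⟩
  have hT0 : 0 < T := by linarith
  have hd : ∀ x, HasDerivAt (fun c => rho4 c * deriv rho4 (b - c))
      (deriv rho4 x * deriv rho4 (b - x) - rho4 x * deriv (deriv rho4) (b - x)) x := by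
    intro x
    have h1 := (K1_diff x).hasDerivAt
    have h2 := (K1_diff1 (b - x)).hasDerivAt.comp x ((hasDerivAt_id x).const_sub b)
    refine HasDerivAt.congr_deriv (h1.mul h2) ?_
    simp
    ring
  have hcont : Continuous fun x => deriv rho4 x * deriv rho4 (b - x) -
      rho4 x * deriv (deriv rho4) (b - x) :=
    (K1_cont1.mul (K1_cont1.comp (by fun_prop))).sub (K1_cont.mul (K1_cont2.comp (by fun_prop)))
  have hs1 : HasCompactSupport fun c => rho4 c * deriv rho4 (b - c) := K1_hcs.mul_right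
  have hs2 : HasCompactSupport fun x => deriv rho4 x * deriv rho4 (b - x) -
      rho4 x * deriv (deriv rho4) (b - x) :=
    (K1_hcs.deriv.mul_right).sub (K1_hcs.mul_right)
  rw [K1_ibp_cos hd hcont hs1 hs2 hT0 b, abs_mul, abs_neg, abs_of_pos (by positivity)]
  have hb := K1_bound (φ := fun x => deriv rho4 x * deriv rho4 (b - x) -
      rho4 x * deriv (deriv rho4) (b - x)) (w := fun c => Real.sin (T * (2 * c - b)))
      (M := B * B + B * B) (fun x => ?_) (fun x hx => ?_) (fun x => Real.abs_sin_le_one _)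
  · calc 1 / (2 * T) * _ ≤ 1 / (2 * T) * (B * B + B * B) := by gcongr
      _ ≤ (B * B + B * B) / T := by
        rw [div_mul_eq_mul_div, one_mul, div_le_div_iff₀ (by positivity) hT0]
        nlinarith [mul_pos (by linarith : 0 < B) (by linarith : 0 < B)]
  · refine (abs_sub _ _).trans (add_le_add ?_ ?_)
    · rw [abs_mul]; exact mul_le_mul (hr.b1 _) (hr.b1 _) (abs_nonneg _) (by linarith)
    · rw [abs_mul]; exact mul_le_mul (hr.b0 _) (hr.b2 _) (abs_nonneg _) (by linarith)
  · rw [hr.supp x hx, hr.deriv_supp hx]; ring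

lemma K1_I4 : ∃ M : ℝ, 0 ≤ M ∧ ∀ T : ℝ, 1 ≤ T → ∀ b : ℝ,
    |T / 2 * ∫ c, (rho4 c * rho4 (b - c)) * Real.sin (T * (2 * c - b))| ≤ M / T := by
  obtain ⟨B, hB1, hr⟩ := K1_EV
  refine ⟨B * B + 2 * (B * B) + B * B, by positivity, fun T hT b => ?_⟩
  have hT0 : 0 < T := by linarith
  have hd : ∀ x, HasDerivAt (fun c => rho4 c * rho4 (b - c))
      (deriv rho4 x * rho4 (b - x) - rho4 x * deriv rho4 (b - x)) x := by
    intro x
    have h1 := (K1_diff x).hasDerivAt
    have h2 := (K1_diff (b - x)).hasDerivAt.comp x ((hasDerivAt_id x).const_sub b)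
    refine HasDerivAt.congr_deriv (h1.mul h2) ?_
    simp
    ring
  have hd2 : ∀ x, HasDerivAt (fun x => deriv rho4 x * rho4 (b - x) - rho4 x * deriv rho4 (b - x))
      (deriv (deriv rho4) x * rho4 (b - x) - 2 * (deriv rho4 x * deriv rho4 (b - x)) +
        rho4 x * deriv (deriv rho4) (b - x)) x := by
    intro x
    have h1 := (K1_diff x).hasDerivAt
    have h1' := (K1_diff1 x).hasDerivAt
    have h2 := (K1_diff (b - x)).hasDerivAt.comp x ((hasDerivAt_id x).const_sub b)
    have h2' := (K1_diff1 (b - x)).hasDerivAt.comp x ((hasDerivAt_id x).const_sub b)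
    refine HasDerivAt.congr_deriv ((h1'.mul h2).sub (h1.mul h2')) ?_
    simp
    ring
  have hcont : Continuous fun x => deriv rho4 x * rho4 (b - x) - rho4 x * deriv rho4 (b - x) :=
    (K1_cont1.mul (K1_cont.comp (by fun_prop))).sub (K1_cont.mul (K1_cont1.comp (by fun_prop)))
  have hcont2 : Continuous fun x => deriv (deriv rho4) x * rho4 (b - x) -
      2 * (deriv rho4 x * deriv rho4 (b - x)) + rho4 x * deriv (deriv rho4) (b - x) :=
    ((K1_cont2.mul (K1_cont.comp (by fun_prop))).sub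
      (continuous_const.mul (K1_cont1.mul (K1_cont1.comp (by fun_prop))))).add
      (K1_cont.mul (K1_cont2.comp (by fun_prop)))
  have hs1 : HasCompactSupport fun c => rho4 c * rho4 (b - c) := K1_hcs.mul_right
  have hs2 : HasCompactSupport fun x => deriv rho4 x * rho4 (b - x) -
      rho4 x * deriv rho4 (b - x) :=
    (K1_hcs.deriv.mul_right).sub (K1_hcs.mul_right)
  have hs3 : HasCompactSupport fun x => deriv (deriv rho4) x * rho4 (b - x) -
      2 * (deriv rho4 x * deriv rho4 (b - x)) + rho4 x * deriv (deriv rho4) (b - x) := by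
    refine HasCompactSupport.add (HasCompactSupport.sub (K1_hcs.deriv.deriv.mul_right) ?_)
      (K1_hcs.mul_right)
    exact HasCompactSupport.mul_left (K1_hcs.deriv.mul_right)
  rw [K1_ibp_sin hd hcont hs1 hs2 hT0 b, K1_ibp_cos hd2 hcont2 hs2 hs3 hT0 b]
  have hb := K1_bound (φ := fun x => deriv (deriv rho4) x * rho4 (b - x) -
      2 * (deriv rho4 x * deriv rho4 (b - x)) + rho4 x * deriv (deriv rho4) (b - x))
      (w := fun c => Real.sin (T * (2 * c - b)))
      (M := B * B + 2 * (B * B) + B * B) (fun x => ?_) (fun x hx => ?_)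
      (fun x => Real.abs_sin_le_one _)
  · have e : ∀ J : ℝ, T / 2 * (1 / (2 * T) * (-(1 / (2 * T)) * J)) = -(1 / (8 * T)) * J := by
      intro J; field_simp; ring
    rw [e, abs_mul, abs_neg, abs_of_pos (by positivity)]
    calc 1 / (8 * T) * _ ≤ 1 / (8 * T) * (B * B + 2 * (B * B) + B * B) := by gcongr
      _ ≤ (B * B + 2 * (B * B) + B * B) / T := by
        rw [div_mul_eq_mul_div, one_mul, div_le_div_iff₀ (by positivity) hT0]
        nlinarith [mul_pos (by linarith : 0 < B) (by linarith : 0 < B)]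
  · refine (abs_add_le _ _).trans (add_le_add ((abs_sub _ _).trans (add_le_add ?_ ?_)) ?_)
    · rw [abs_mul]; exact mul_le_mul (hr.b2 _) (hr.b0 _) (abs_nonneg _) (by linarith)
    · rw [abs_mul, abs_two, abs_mul]
      exact mul_le_mul_of_nonneg_left (mul_le_mul (hr.b1 _) (hr.b1 _) (abs_nonneg _) (by linarith))
        (by norm_num)
    · rw [abs_mul]; exact mul_le_mul (hr.b0 _) (hr.b2 _) (abs_nonneg _) (by linarith)
  · have h2 : deriv (deriv rho4) x = 0 := by
      have h1 : deriv rho4 =ᶠ[nhds x] fun _ => 0 := by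
        have : ∀ᶠ y in nhds x, 1 / 4 < |y| :=
          (continuous_abs.continuousAt).eventually_const_lt hx
        filter_upwards [this] with y hy
        exact hr.deriv_supp hy
      rw [h1.deriv_eq]
      simp
    rw [hr.supp x hx, hr.deriv_supp hx, h2]; ring

theorem cv4 : ∃ (R : ℝ → ℝ) (C : ℝ), 0 < C ∧ ContDiff ℝ 2 R ∧ (∀ b, 1 / 2 ≤ |b| → R b = 0) ∧
    (∀ b, |R b| ≤ C ∧ |deriv R b| ≤ C ∧ |deriv (deriv R) b| ≤ C) ∧
    ∀ T : ℝ, 1 ≤ T → ∀ b : ℝ,
      |deriv (cv (gT4 T)) b + T / 2 * Real.sin (T * b) * R b| ≤ C * (|b| + 1 / T) := by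
  obtain ⟨B, hB1, hr⟩ := K1_EV
  obtain ⟨M3, hM3, h3⟩ := K1_I3
  obtain ⟨M4, hM4, h4⟩ := K1_I4
  have hcv := hr.cv
  have hBB : B * B * (2 * (1 / 4)) ≤ B * B + M3 + M4 := by nlinarith [mul_nonneg (by linarith : 0 ≤ B) (by linarith : 0 ≤ B)]
  have hBB0 : 0 < B * B := by positivity
  refine ⟨cv rho4, B * B + M3 + M4, by positivity, K1_cv_contDiff, fun b hb => K1_cv_zero hb,
    fun b => ⟨(hcv.b0 b).trans hBB, (hcv.b1 b).trans hBB, (hcv.b2 b).trans hBB⟩, ?_⟩
  intro T hT b
  have hT0 : 0 < T := by linarith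
  rw [K1_formula hT b]
  have e1 := hcv.deriv_le b
  have e3 := h3 T hT b
  have e4 := h4 T hT b
  have e5 : |1 / 2 * Real.cos (T * b) * deriv (cv rho4) b| ≤ B * B * |b| := by
    rw [abs_mul, abs_mul, abs_of_pos (by norm_num : (0 : ℝ) < 1 / 2)]
    have h1 := Real.abs_cos_le_one (T * b)
    have h0 := abs_nonneg (Real.cos (T * b))
    calc 1 / 2 * |Real.cos (T * b)| * |deriv (cv rho4) b|
        ≤ 1 / 2 * 1 * (B * B * (2 * (1 / 4)) * |b|) := by gcongr
      _ ≤ B * B * |b| := by nlinarith [mul_nonneg hBB0.le (abs_nonneg b)]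
  have e6 : |1 / 2 * (∫ c, (rho4 c * deriv rho4 (b - c)) * Real.cos (T * (2 * c - b)))| ≤ M3 / T := by
    rw [abs_mul, abs_of_pos (by norm_num : (0 : ℝ) < 1 / 2)]
    have := div_nonneg hM3 hT0.le
    linarith [abs_nonneg (∫ c, (rho4 c * deriv rho4 (b - c)) * Real.cos (T * (2 * c - b)))]
  have e7 : ∀ x1 x2 x3 x4 : ℝ, x1 - x2 + x3 + x4 + x2 = x1 + x3 + x4 := by intros; ring
  rw [e7]
  refine (abs_add_le _ _).trans ((add_le_add (abs_add_le _ _) le_rfl).trans ?_)
  have e8 : 0 ≤ |b| := abs_nonneg b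
  have e9 : M3 / T + M4 / T ≤ (B * B + M3 + M4) * (1 / T) := by
    rw [mul_one_div, ← add_div]
    apply div_le_div_of_nonneg_right _ hT0.le
    linarith
  have e10 : B * B * |b| ≤ (B * B + M3 + M4) * |b| := by gcongr; linarith
  rw [mul_add]
  linarith

end Pool.Agent.H19.Sup
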