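import Mathlib
import Pool.Agent.H19.Sup.Defs2

set_option autoImplicit false

/-!
# K2: the inversion formula in the variable `t`

`Maass.EV.kas_eq`: `kas g s = -(1/π) ∫_ℝ qf (cv g) (s + ξ²) dξ`, `s = 2 cosh d - 2`.  The integrand is even; on `ξ > 0` substitute
`ξ = √(2 cosh (d + t) - 2 cosh d)`, `t > 0`: `arc (s + ξ²) = d + t` (`Maass.arc_cosh`), `dξ = sinh (d + t) / ξ dt`,
`qf G w = G'(arc w) / (2 sinh (arc w))`.  (`MeasureTheory.integral_image_eq_integral_abs_deriv_smul` on `Ioi 0`, the map is injective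
with image `Ioi 0`.)
-/

namespace Pool.Agent.H19.Sup

open UpperHalfPlane MeasureTheory
open Pool.Agent.H19.Maass

theorem K2_cosh_lt {d t : ℝ} (hd : 0 < d) (ht : 0 < t) :
    0 < 2 * Real.cosh (d + t) - 2 * Real.cosh d := by
  have h : Real.cosh d < Real.cosh (d + t) := by
    rw [Real.cosh_lt_cosh, abs_of_pos hd, abs_of_pos (by positivity)]
    linarith
  linarith

theorem K2_deriv {d t : ℝ} (hd : 0 < d) (ht : 0 < t) :
    HasDerivAt (fun t => √(2 * Real.cosh (d + t) - 2 * Real.cosh d))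
      (Real.sinh (d + t) / √(2 * Real.cosh (d + t) - 2 * Real.cosh d)) t := by
  have h0 := K2_cosh_lt hd ht
  have h1 : HasDerivAt (fun t => Real.cosh (d + t)) (Real.sinh (d + t)) t := by
    have h := (Real.hasDerivAt_cosh (d + t)).comp_const_add d t
    exact h
  have h2 : HasDerivAt (fun t => 2 * Real.cosh (d + t) - 2 * Real.cosh d)
      (2 * Real.sinh (d + t)) t := (h1.const_mul 2).sub_const _
  refine (h2.sqrt h0.ne').congr_deriv ?_
  have h3 : √(2 * Real.cosh (d + t) - 2 * Real.cosh d) ≠ 0 := (Real.sqrt_pos.2 h0).ne'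
  field_simp

theorem K2_injOn {d : ℝ} (hd : 0 < d) :
    Set.InjOn (fun t => √(2 * Real.cosh (d + t) - 2 * Real.cosh d)) (Set.Ioi 0) := by
  intro t ht u hu h
  have ht' : 0 < t := ht
  have hu' : 0 < u := hu
  have h1 : 2 * Real.cosh (d + t) - 2 * Real.cosh d = 2 * Real.cosh (d + u) - 2 * Real.cosh d :=
    (Real.sqrt_inj (K2_cosh_lt hd ht').le (K2_cosh_lt hd hu').le).1 h
  have h2 : Real.cosh (d + t) = Real.cosh (d + u) := by linarith
  rcases lt_trichotomy t u with h3 | h3 | h3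
  · have : Real.cosh (d + t) < Real.cosh (d + u) := by
      rw [Real.cosh_lt_cosh, abs_of_pos (by positivity), abs_of_pos (by positivity)]
      linarith
    linarith
  · exact h3
  · have : Real.cosh (d + u) < Real.cosh (d + t) := by
      rw [Real.cosh_lt_cosh, abs_of_pos (by positivity), abs_of_pos (by positivity)]
      linarith
    linarith

theorem K2_image {d : ℝ} (hd : 0 < d) :
    (fun t => √(2 * Real.cosh (d + t) - 2 * Real.cosh d)) '' Set.Ioi 0 = Set.Ioi 0 := by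
  ext ξ
  constructor
  · rintro ⟨t, ht, rfl⟩
    exact Real.sqrt_pos.2 (K2_cosh_lt hd ht)
  · intro hξ
    have hξ' : 0 < ξ := hξ
    have hs : 0 < 2 * Real.cosh d - 2 := by
      have := Real.one_lt_cosh.2 hd.ne'
      linarith
    have hw : 0 ≤ 2 * Real.cosh d - 2 + ξ ^ 2 := by positivity
    have hc := cosh_arc hw
    have hlt : d < arc (2 * Real.cosh d - 2 + ξ ^ 2) := by
      have h1 : Real.cosh d < Real.cosh (arc (2 * Real.cosh d - 2 + ξ ^ 2)) := by
        rw [hc]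
        have : 0 < ξ ^ 2 := by positivity
        linarith
      rw [Real.cosh_lt_cosh, abs_of_pos hd, abs_of_nonneg (arc_nonneg hw)] at h1
      exact h1
    refine ⟨arc (2 * Real.cosh d - 2 + ξ ^ 2) - d, by simpa using hlt, ?_⟩
    show √(2 * Real.cosh (d + (arc (2 * Real.cosh d - 2 + ξ ^ 2) - d)) - 2 * Real.cosh d) = ξ
    rw [add_sub_cancel, hc]
    rw [show 2 * (1 + (2 * Real.cosh d - 2 + ξ ^ 2) / 2) - 2 * Real.cosh d = ξ ^ 2 by ring]
    exact Real.sqrt_sq hξ'.le

theorem kas_formula {g : ℝ → ℝ} {a C0 C1 C2 : ℝ} (h : EV g a C0 C1 C2) {d : ℝ} (hd : 0 < d) :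
    kas g (2 * Real.cosh d - 2) = -(1 / Real.pi) *
      ∫ t in Set.Ioi (0 : ℝ), deriv (cv g) (d + t) / √(2 * Real.cosh (d + t) - 2 * Real.cosh d) := by
  have hs : 0 < 2 * Real.cosh d - 2 := by
    have := Real.one_lt_cosh.2 hd.ne'
    linarith
  rw [h.kas_eq hs]
  congr 1
  have h1 : ∫ ξ : ℝ, qf (Maass.cv g) (2 * Real.cosh d - 2 + ξ ^ 2) =
      2 * ∫ ξ in Set.Ioi (0 : ℝ), qf (Maass.cv g) (2 * Real.cosh d - 2 + ξ ^ 2) := by
    have := integral_comp_abs (f := fun ξ : ℝ => qf (Maass.cv g) (2 * Real.cosh d - 2 + ξ ^ 2))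
    simpa only [sq_abs] using this
  rw [h1]
  have h2 := integral_image_eq_integral_abs_deriv_smul (s := Set.Ioi (0 : ℝ))
    (f := fun t => √(2 * Real.cosh (d + t) - 2 * Real.cosh d))
    (f' := fun t => Real.sinh (d + t) / √(2 * Real.cosh (d + t) - 2 * Real.cosh d))
    measurableSet_Ioi (fun t ht => (K2_deriv hd ht).hasDerivWithinAt) (K2_injOn hd)
    (fun ξ : ℝ => qf (Maass.cv g) (2 * Real.cosh d - 2 + ξ ^ 2))
  rw [K2_image hd] at h2
  rw [h2, ← integral_const_mul]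
  refine setIntegral_congr_fun measurableSet_Ioi ?_
  intro t ht
  have ht' : 0 < t := ht
  have hpos := K2_cosh_lt hd ht'
  have hdt : 0 < d + t := by positivity
  have hsinh : 0 < Real.sinh (d + t) := Real.sinh_pos_iff.2 hdt
  have hsq : 0 < √(2 * Real.cosh (d + t) - 2 * Real.cosh d) := Real.sqrt_pos.2 hpos
  show 2 * (|Real.sinh (d + t) / √(2 * Real.cosh (d + t) - 2 * Real.cosh d)| •
    qf (Maass.cv g) (2 * Real.cosh d - 2 + √(2 * Real.cosh (d + t) - 2 * Real.cosh d) ^ 2)) =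
    deriv (Maass.cv g) (d + t) / √(2 * Real.cosh (d + t) - 2 * Real.cosh d)
  rw [Real.sq_sqrt hpos.le, abs_of_pos (by positivity)]
  have h3 : 2 * Real.cosh d - 2 + (2 * Real.cosh (d + t) - 2 * Real.cosh d) =
      2 * Real.cosh (d + t) - 2 := by ring
  rw [h3]
  have h4 : 0 < 2 * Real.cosh (d + t) - 2 := by
    have := Real.one_lt_cosh.2 hdt.ne'
    linarith
  unfold qf
  rw [if_pos h4, arc_cosh, abs_of_pos hdt, smul_eq_mul]
  field_simp

end Pool.Agent.H19.Sup
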