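import Mathlib
import Pool.Agent.H19.Sup.Defs2

set_option autoImplicit false

/-!
# K3: the amplitude

`2 cosh (d + t) - 2 cosh d = 4 sinh (d + t/2) sinh (t/2)`.  Let `Φ(t) = ∫_0^t e^{i T s} (4 sinh (s/2))^(-1/2) ds`;
`(4 sinh (s/2))^(-1/2) ≤ (2 s)^(-1/2)` is decreasing, so `|Φ(t)| ≤ C T^(-1/2)` (trivial bound on `[0, 1/T]`, one integration by parts
on `[1/T, t]`).  Hence for `h` of class `C¹` on `[0, 1/2]`, `h (1/2) = 0` or not,
`|∫_0^{1/2} e^{i T t} (4 sinh (t/2))^(-1/2) h(t) dt| ≤ C T^(-1/2) (sup |h| + ∫_0^{1/2} |h'|)` (integration by parts).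
Apply it with `h(t) = R (d + t) (sinh (d + t/2))^(-1/2)`, `sup ≤ C d^(-1/2)`; for the bound on `∫ |h'|` note `|R| ≤ C`, `|R'| ≤ C`, and
`∫_0^{1/2} cosh(d+t/2) sinh^(-3/2)(d + t/2) dt ≤ C d^(-1/2)`.  (`R (d + t) = 0` for `d + t ≥ 1/2`.)
For the Lipschitz bound apply it to the difference `h_d - h_{d'}`, bounded by `C d0^(-3/2) |d - d'|`, and its derivative in `t` by
`C d0^(-5/2) |d - d'|` (mean value theorem in `d`; `R` is `C²`); `d0^(-5/2) ≤ d0^(-3)`.
-/

namespace Pool.Agent.H19.Sup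

open UpperHalfPlane MeasureTheory
open Pool.Agent.H19.Maass

/-- the amplitude -/
noncomputable def AA (R : ℝ → ℝ) (T d : ℝ) : ℂ :=
  -Complex.I * ((T / (2 * Real.pi) : ℝ) : ℂ) * ∫ t in Set.Ioi (0 : ℝ),
    Complex.exp (((T * t : ℝ) : ℂ) * Complex.I) *
      ((R (d + t) / √(2 * Real.cosh (d + t) - 2 * Real.cosh d) : ℝ) : ℂ)

open Set
theorem K3_osc (F F' : ℝ → ℝ) (A T : ℝ) (hT : 1 ≤ T) (hA : 0 ≤ A)
    (hd : ∀ t : ℝ, 0 < t → HasDerivAt F (F' t) t) (hc : ContinuousOn F' (Ioi 0))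
    (h0 : ∀ t : ℝ, 1 / 2 ≤ t → F t = 0)
    (h1 : ∀ t : ℝ, 0 < t → |F t| ≤ A * t ^ (-(1 / 2) : ℝ))
    (h2 : ∀ t : ℝ, 0 < t → |F' t| ≤ A * t ^ (-(3 / 2) : ℝ)) :
    IntegrableOn (fun t => Complex.exp (((T * t : ℝ) : ℂ) * Complex.I) * ((F t : ℝ) : ℂ)) (Ioi 0) ∧
    ‖∫ t in Ioi (0 : ℝ), Complex.exp (((T * t : ℝ) : ℂ) * Complex.I) * ((F t : ℝ) : ℂ)‖
      ≤ 5 * A / √T := by
  have hT0 : 0 < T := by linarith
  set f : ℝ → ℂ := fun t => Complex.exp (((T * t : ℝ) : ℂ) * Complex.I) * ((F t : ℝ) : ℂ) with hf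
  have hE : ∀ t : ℝ, ‖Complex.exp (((T * t : ℝ) : ℂ) * Complex.I)‖ = 1 := fun t =>
    Complex.norm_exp_ofReal_mul_I _
  have hFc : ContinuousOn F (Ioi 0) := fun t ht => (hd t ht).continuousAt.continuousWithinAt
  have hEc : Continuous (fun t : ℝ => Complex.exp (((T * t : ℝ) : ℂ) * Complex.I)) := by
    fun_prop
  have hfc : ContinuousOn f (Ioi 0) :=
    hEc.continuousOn.mul (Complex.continuous_ofReal.comp_continuousOn hFc)
  have hfn : ∀ t : ℝ, 0 < t → ‖f t‖ ≤ A * t ^ (-(1 / 2) : ℝ) := by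
    intro t ht
    simp only [hf, norm_mul, hE, one_mul, Complex.norm_real, Real.norm_eq_abs]
    exact h1 t ht
  -- integrability on (0, 1]
  have hrp : ∀ a b : ℝ, IntervalIntegrable (fun t : ℝ => A * t ^ (-(1 / 2) : ℝ)) volume a b :=
    fun a b => (intervalIntegral.intervalIntegrable_rpow' (by norm_num)).const_mul A
  have hint : ∀ b : ℝ, 0 ≤ b → IntegrableOn f (Ioc 0 b) := by
    intro b hb
    have hg := (intervalIntegrable_iff_integrableOn_Ioc_of_le hb).mp (hrp 0 b)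
    refine Integrable.mono' hg ?_ ?_
    · exact (hfc.mono Ioc_subset_Ioi_self).aestronglyMeasurable measurableSet_Ioc
    · exact (ae_restrict_iff' measurableSet_Ioc).mpr (Filter.Eventually.of_forall
        fun t ht => hfn t ht.1)
  have hzero : ∀ t ∈ Ioi (1 : ℝ), f t = 0 := by
    intro t ht
    have ht' : (1 : ℝ) < t := ht
    simp [hf, h0 t (by linarith)]
  have hint1 : IntegrableOn f (Ioi 1) :=
    (integrableOn_congr_fun hzero measurableSet_Ioi).mpr integrableOn_zero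
  have hsplit : Ioi (0 : ℝ) = Ioc 0 1 ∪ Ioi 1 := (Ioc_union_Ioi_eq_Ioi zero_le_one).symm
  have hintAll : IntegrableOn f (Ioi 0) := by
    rw [hsplit]; exact (hint 1 zero_le_one).union hint1
  refine ⟨hintAll, ?_⟩
  have hI : ∫ t in Ioi (0 : ℝ), f t = ∫ t in (0 : ℝ)..1, f t := by
    rw [hsplit, setIntegral_union (Ioc_disjoint_Ioi le_rfl) measurableSet_Ioi (hint 1 zero_le_one)
      hint1, setIntegral_congr_fun measurableSet_Ioi hzero,
      intervalIntegral.integral_of_le zero_le_one]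
    simp
  rw [hI]
  set τ : ℝ := 1 / T with hτ
  have hτ0 : 0 < τ := by positivity
  have hτ1 : τ ≤ 1 := by rw [hτ, div_le_one hT0]; exact hT
  have hii : ∀ a b : ℝ, 0 ≤ a → 0 ≤ b → IntervalIntegrable f volume a b := by
    intro a b ha hb
    have h0b : ∀ c : ℝ, 0 ≤ c → IntervalIntegrable f volume 0 c := fun c hc =>
      (intervalIntegrable_iff_integrableOn_Ioc_of_le hc).mpr (hint c hc)
    exact (h0b a ha).symm.trans (h0b b hb)
  rw [← intervalIntegral.integral_add_adjacent_intervals (hii 0 τ le_rfl hτ0.le)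
    (hii τ 1 hτ0.le zero_le_one)]
  have hsT : 0 < √T := Real.sqrt_pos.mpr hT0
  have hsTT : √T * √T = T := Real.mul_self_sqrt hT0.le
  have hτs : √τ = 1 / √T := by rw [hτ, Real.sqrt_div zero_le_one, Real.sqrt_one]
  -- first part
  have hfirst : ‖∫ t in (0 : ℝ)..τ, f t‖ ≤ 2 * A / √T := by
    calc ‖∫ t in (0 : ℝ)..τ, f t‖ ≤ ∫ t in (0 : ℝ)..τ, A * t ^ (-(1 / 2) : ℝ) := by
          refine intervalIntegral.norm_integral_le_of_norm_le hτ0.le ?_ (hrp 0 τ)
          exact Filter.Eventually.of_forall fun t ht => hfn t ht.1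
      _ = 2 * A / √T := by
          rw [intervalIntegral.integral_const_mul, integral_rpow (Or.inl (by norm_num))]
          have e1 : (-(1 / 2) + 1 : ℝ) = 1 / 2 := by norm_num
          rw [e1, Real.zero_rpow (by norm_num), ← Real.sqrt_eq_rpow, hτs]
          field_simp
          ring
  -- second part
  have hsecond : ‖∫ t in τ..1, f t‖ ≤ 3 * A / √T := by
    have hTI : ((T : ℂ) * Complex.I) ≠ 0 := by
      simp [Complex.I_ne_zero, hT0.ne']
    set u : ℝ → ℂ := fun t => Complex.exp (((T * t : ℝ) : ℂ) * Complex.I) / ((T : ℂ) * Complex.I)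
      with hu
    have hud : ∀ t : ℝ, HasDerivAt u (Complex.exp (((T * t : ℝ) : ℂ) * Complex.I)) t := by
      intro t
      have e1 : HasDerivAt (fun t : ℝ => ((T * t : ℝ) : ℂ) * Complex.I) ((T : ℂ) * Complex.I) t := by
        have := ((hasDerivAt_id t).const_mul T).ofReal_comp
        simpa using this.mul_const Complex.I
      have e2 := e1.cexp.div_const ((T : ℂ) * Complex.I)
      have e3 : Complex.exp (((T * t : ℝ) : ℂ) * Complex.I) * ((T : ℂ) * Complex.I) /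
          ((T : ℂ) * Complex.I) = Complex.exp (((T * t : ℝ) : ℂ) * Complex.I) :=
        mul_div_cancel_right₀ _ hTI
      rw [e3] at e2
      exact e2
    have hFd : ∀ t : ℝ, 0 < t → HasDerivAt (fun t => ((F t : ℝ) : ℂ)) ((F' t : ℝ) : ℂ) t :=
      fun t ht => (hd t ht).ofReal_comp
    have hsub : uIcc τ 1 ⊆ Ioi 0 := by
      rw [uIcc_of_le hτ1]
      intro t ht
      exact lt_of_lt_of_le hτ0 ht.1
    have hF'i : IntervalIntegrable (fun t => ((F' t : ℝ) : ℂ)) volume τ 1 :=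
      (Complex.continuous_ofReal.comp_continuousOn (hc.mono hsub)).intervalIntegrable
    have hui : IntervalIntegrable (fun t : ℝ => Complex.exp (((T * t : ℝ) : ℂ) * Complex.I))
        volume τ 1 := hEc.intervalIntegrable _ _
    have hparts := intervalIntegral.integral_deriv_mul_eq_sub
      (u := u) (v := fun t => ((F t : ℝ) : ℂ))
      (u' := fun t : ℝ => Complex.exp (((T * t : ℝ) : ℂ) * Complex.I))
      (v' := fun t => ((F' t : ℝ) : ℂ)) (a := τ) (b := 1)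
      (fun t _ => hud t) (fun t ht => hFd t (hsub ht)) hui hF'i
    have huc : Continuous u := continuous_iff_continuousAt.mpr fun t => (hud t).continuousAt
    have huF' : IntervalIntegrable (fun t => u t * ((F' t : ℝ) : ℂ)) volume τ 1 :=
      (huc.continuousOn.mul
        (Complex.continuous_ofReal.comp_continuousOn (hc.mono hsub))).intervalIntegrable
    have hunorm : ∀ t : ℝ, ‖u t‖ = 1 / T := by
      intro t
      simp only [hu, norm_div, hE, norm_mul, Complex.norm_I, mul_one, Complex.norm_real,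
        Real.norm_eq_abs, abs_of_pos hT0]
    have heq : ∫ t in τ..1, f t = (u 1 * ((F 1 : ℝ) : ℂ) - u τ * ((F τ : ℝ) : ℂ)) -
        ∫ t in τ..1, u t * ((F' t : ℝ) : ℂ) := by
      rw [← hparts, intervalIntegral.integral_add (hii τ 1 hτ0.le zero_le_one) huF']
      ring
    rw [heq, h0 1 (by norm_num)]
    have hb1 : ‖u τ * ((F τ : ℝ) : ℂ)‖ ≤ A / √T := by
      rw [norm_mul, hunorm, Complex.norm_real, Real.norm_eq_abs]
      have := h1 τ hτ0
      have e : τ ^ (-(1 / 2) : ℝ) = √T := by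
        rw [Real.rpow_neg hτ0.le, ← Real.sqrt_eq_rpow, hτs]
        simp
      rw [e] at this
      calc 1 / T * |F τ| ≤ 1 / T * (A * √T) := by gcongr
        _ = A / √T := by
          rw [one_div, inv_mul_eq_div, div_eq_div_iff hT0.ne' hsT.ne', mul_assoc, hsTT]
    have hb2 : ‖∫ t in τ..1, u t * ((F' t : ℝ) : ℂ)‖ ≤ 2 * A / √T := by
      have hr2 : IntervalIntegrable (fun t : ℝ => 1 / T * (A * t ^ (-(3 / 2) : ℝ))) volume τ 1 := by
        refine ContinuousOn.intervalIntegrable ?_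
        refine continuousOn_const.mul (continuousOn_const.mul ?_)
        exact continuousOn_id.rpow_const fun t ht => Or.inl (ne_of_gt (hsub ht))
      calc ‖∫ t in τ..1, u t * ((F' t : ℝ) : ℂ)‖
          ≤ ∫ t in τ..1, 1 / T * (A * t ^ (-(3 / 2) : ℝ)) := by
            refine intervalIntegral.norm_integral_le_of_norm_le hτ1 ?_ hr2
            refine Filter.Eventually.of_forall fun t ht => ?_
            rw [norm_mul, hunorm, Complex.norm_real, Real.norm_eq_abs]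
            have := h2 t (lt_trans hτ0 ht.1)
            gcongr
        _ = 1 / T * (A * (2 * (√T - 1))) := by
            rw [intervalIntegral.integral_const_mul, intervalIntegral.integral_const_mul,
              integral_rpow (Or.inr ⟨by norm_num, fun h => by
                have := hsub h; simp at this⟩)]
            have e1 : (-(3 / 2) + 1 : ℝ) = -(1 / 2) := by norm_num
            have e : τ ^ (-(1 / 2) : ℝ) = √T := by
              rw [Real.rpow_neg hτ0.le, ← Real.sqrt_eq_rpow, hτs]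
              simp
            rw [e1, e, Real.one_rpow]
            ring
        _ ≤ 1 / T * (A * (2 * √T)) := by gcongr; linarith
        _ = 2 * A / √T := by
          rw [one_div, inv_mul_eq_div, div_eq_div_iff hT0.ne' hsT.ne']
          have : √T * √T = T := hsTT
          linear_combination (2 * A) * this
    calc ‖u 1 * (((0 : ℝ)) : ℂ) - u τ * ((F τ : ℝ) : ℂ) - ∫ t in τ..1, u t * ((F' t : ℝ) : ℂ)‖
        ≤ ‖u 1 * (((0 : ℝ)) : ℂ) - u τ * ((F τ : ℝ) : ℂ)‖ + ‖∫ t in τ..1, u t * ((F' t : ℝ) : ℂ)‖ :=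
          norm_sub_le _ _
      _ ≤ A / √T + 2 * A / √T := by
          refine add_le_add ?_ hb2
          simpa using hb1
      _ = 3 * A / √T := by ring
  calc _ ≤ ‖∫ t in (0 : ℝ)..τ, f t‖ + ‖∫ t in τ..1, f t‖ := norm_add_le _ _
    _ ≤ 2 * A / √T + 3 * A / √T := add_le_add hfirst hsecond
    _ = 5 * A / √T := by ring


/-- `sinh^(-1/2)` and its derivatives -/
noncomputable def K3w (x : ℝ) : ℝ := (Real.sinh x) ^ (-(1 / 2) : ℝ)
noncomputable def K3w1 (x : ℝ) : ℝ := -(1 / 2) * (Real.cosh x * (Real.sinh x) ^ (-(3 / 2) : ℝ))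
noncomputable def K3w2 (x : ℝ) : ℝ :=
  -(1 / 2) * (Real.sinh x) ^ (-(1 / 2) : ℝ) + 3 / 4 * (Real.cosh x ^ 2 * (Real.sinh x) ^ (-(5 / 2) : ℝ))
noncomputable def K3g (t : ℝ) : ℝ := (4 * Real.sinh (t / 2)) ^ (-(1 / 2) : ℝ)
noncomputable def K3g1 (t : ℝ) : ℝ := -(Real.cosh (t / 2) * (4 * Real.sinh (t / 2)) ^ (-(3 / 2) : ℝ))

theorem K3_sinh {x : ℝ} (hx : 0 < x) : x ≤ Real.sinh x := by
  exact Real.self_le_sinh_iff.mpr hx.le

theorem K3_cosh {x : ℝ} (hx : 0 < x) (hx1 : x ≤ 1) : Real.cosh x ≤ 2 := by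
  have h1 : Real.cosh x ≤ Real.cosh 1 := by
    rw [Real.cosh_le_cosh, abs_of_pos hx, abs_one]; exact hx1
  have h2 : Real.cosh 1 ≤ 2 := by
    rw [Real.cosh_eq]
    have e1 : Real.exp 1 < 2.7182818286 := Real.exp_one_lt_d9
    have e2 : Real.exp (-1) ≤ 1 := Real.exp_le_one_iff.mpr (by norm_num)
    linarith
  linarith

theorem K3w_deriv {x : ℝ} (hx : 0 < x) : HasDerivAt K3w (K3w1 x) x := by
  have hs : 0 < Real.sinh x := lt_of_lt_of_le hx (K3_sinh hx)
  have := (Real.hasDerivAt_sinh x).rpow_const (p := (-(1 / 2) : ℝ)) (Or.inl hs.ne')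
  unfold K3w K3w1
  have e : (-(1 / 2) - 1 : ℝ) = -(3 / 2) := by norm_num
  rw [e] at this
  convert this using 1
  ring

theorem K3w1_deriv {x : ℝ} (hx : 0 < x) : HasDerivAt K3w1 (K3w2 x) x := by
  have hs : 0 < Real.sinh x := lt_of_lt_of_le hx (K3_sinh hx)
  have h1 := (Real.hasDerivAt_sinh x).rpow_const (p := (-(3 / 2) : ℝ)) (Or.inl hs.ne')
  have h2 := ((Real.hasDerivAt_cosh x).mul h1).const_mul (-(1 / 2) : ℝ)
  unfold K3w1 K3w2
  have e : (-(3 / 2) - 1 : ℝ) = -(5 / 2) := by norm_num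
  rw [e] at h2
  have e2 : Real.sinh x * Real.sinh x ^ (-(3 / 2) : ℝ) = Real.sinh x ^ (-(1 / 2) : ℝ) := by
    nth_rewrite 1 [← Real.rpow_one (Real.sinh x)]
    rw [← Real.rpow_add hs]
    norm_num
  refine h2.congr_deriv ?_
  rw [e2]
  ring

theorem K3g_deriv {t : ℝ} (ht : 0 < t) : HasDerivAt K3g (K3g1 t) t := by
  have hs : 0 < 4 * Real.sinh (t / 2) := by
    have := K3_sinh (half_pos ht)
    linarith
  have h0 : HasDerivAt (fun t : ℝ => 4 * Real.sinh (t / 2)) (4 * (Real.cosh (t / 2) * (1 / 2))) t := by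
    have := ((hasDerivAt_id t).div_const 2).sinh.const_mul 4
    simpa using this
  have := h0.rpow_const (p := (-(1 / 2) : ℝ)) (Or.inl hs.ne')
  unfold K3g K3g1
  have e : (-(1 / 2) - 1 : ℝ) = -(3 / 2) := by norm_num
  rw [e] at this
  refine this.congr_deriv ?_
  ring

theorem K3w_bd {x : ℝ} (hx : 0 < x) : |K3w x| ≤ x ^ (-(1 / 2) : ℝ) := by
  have hs := K3_sinh hx
  unfold K3w
  rw [abs_of_nonneg (Real.rpow_nonneg (hx.le.trans hs) _)]
  exact Real.rpow_le_rpow_of_nonpos hx hs (by norm_num)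

theorem K3w1_bd {x : ℝ} (hx : 0 < x) (hx1 : x ≤ 1) : |K3w1 x| ≤ x ^ (-(3 / 2) : ℝ) := by
  have hs := K3_sinh hx
  have hc := K3_cosh hx hx1
  have hc0 := Real.cosh_pos x
  unfold K3w1
  rw [abs_mul, abs_mul, abs_of_nonneg (Real.rpow_nonneg (hx.le.trans hs) _), abs_of_pos hc0]
  have h1 := Real.rpow_le_rpow_of_nonpos hx hs (by norm_num : (-(3 / 2) : ℝ) ≤ 0)
  have h2 : |(-(1 / 2) : ℝ)| = 1 / 2 := by norm_num [abs_of_neg]
  rw [h2]
  have h3 : 0 ≤ Real.sinh x ^ (-(3 / 2) : ℝ) := Real.rpow_nonneg (hx.le.trans hs) _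
  nlinarith

theorem K3w2_bd {x : ℝ} (hx : 0 < x) (hx1 : x ≤ 1) : |K3w2 x| ≤ 4 * x ^ (-(5 / 2) : ℝ) := by
  have hs := K3_sinh hx
  have hc := K3_cosh hx hx1
  have hc0 := Real.cosh_pos x
  unfold K3w2
  have h1 := Real.rpow_le_rpow_of_nonpos hx hs (by norm_num : (-(1 / 2) : ℝ) ≤ 0)
  have h2 := Real.rpow_le_rpow_of_nonpos hx hs (by norm_num : (-(5 / 2) : ℝ) ≤ 0)
  have h3 : x ^ (-(1 / 2) : ℝ) ≤ x ^ (-(5 / 2) : ℝ) :=
    Real.rpow_le_rpow_of_exponent_ge hx hx1 (by norm_num)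
  have p1 : 0 ≤ Real.sinh x ^ (-(1 / 2) : ℝ) := Real.rpow_nonneg (hx.le.trans hs) _
  have p2 : 0 ≤ Real.sinh x ^ (-(5 / 2) : ℝ) := Real.rpow_nonneg (hx.le.trans hs) _
  have hc2 : Real.cosh x ^ 2 ≤ 4 := by nlinarith
  have h4 : Real.cosh x ^ 2 * Real.sinh x ^ (-(5 / 2) : ℝ) ≤ 4 * x ^ (-(5 / 2) : ℝ) :=
    mul_le_mul hc2 h2 p2 (by norm_num)
  have h5 : 0 ≤ Real.cosh x ^ 2 * Real.sinh x ^ (-(5 / 2) : ℝ) := by positivity
  rw [abs_le]
  constructor <;> nlinarith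

theorem K3g_bd {t : ℝ} (ht : 0 < t) : |K3g t| ≤ t ^ (-(1 / 2) : ℝ) := by
  have hs := K3_sinh (half_pos ht)
  have h : t ≤ 4 * Real.sinh (t / 2) := by linarith
  unfold K3g
  rw [abs_of_nonneg (Real.rpow_nonneg (ht.le.trans h) _)]
  exact Real.rpow_le_rpow_of_nonpos ht h (by norm_num)

theorem K3g1_bd {t : ℝ} (ht : 0 < t) (ht1 : t ≤ 1) : |K3g1 t| ≤ t ^ (-(3 / 2) : ℝ) := by
  have hs := K3_sinh (half_pos ht)
  have hc := K3_cosh (half_pos ht) (by linarith)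
  have hc0 := Real.cosh_pos (t / 2)
  have h : 2 * t ≤ 4 * Real.sinh (t / 2) := by linarith
  have h2t : 0 < 2 * t := by linarith
  unfold K3g1
  rw [abs_neg, abs_mul, abs_of_nonneg (Real.rpow_nonneg (h2t.le.trans h) _), abs_of_pos hc0]
  have h1 := Real.rpow_le_rpow_of_nonpos h2t h (by norm_num : (-(3 / 2) : ℝ) ≤ 0)
  have h3 : (2 * t) ^ (-(3 / 2) : ℝ) ≤ 1 / 2 * t ^ (-(3 / 2) : ℝ) := by
    rw [Real.mul_rpow (by norm_num) ht.le]
    refine mul_le_mul_of_nonneg_right ?_ (Real.rpow_nonneg ht.le _)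
    calc (2 : ℝ) ^ (-(3 / 2) : ℝ) ≤ (2 : ℝ) ^ (-1 : ℝ) :=
          Real.rpow_le_rpow_of_exponent_le (by norm_num) (by norm_num)
      _ = 1 / 2 := by rw [Real.rpow_neg_one]; norm_num
  have p : 0 ≤ (4 * Real.sinh (t / 2)) ^ (-(3 / 2) : ℝ) := Real.rpow_nonneg (h2t.le.trans h) _
  nlinarith

/-- the amplitude is a product -/
theorem K3_prod {d t : ℝ} (hd : 0 < d) (ht : 0 < t) :
    1 / √(2 * Real.cosh (d + t) - 2 * Real.cosh d) = K3g t * K3w (d + t / 2) := by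
  have e : 2 * Real.cosh (d + t) - 2 * Real.cosh d =
      (4 * Real.sinh (t / 2)) * Real.sinh (d + t / 2) := by
    have h1 : Real.cosh (d + t) = Real.cosh ((d + t / 2) + t / 2) := by congr 1; ring
    have h2 : Real.cosh d = Real.cosh ((d + t / 2) - t / 2) := by congr 1; ring
    rw [h1, h2, Real.cosh_add, Real.cosh_sub]
    ring
  have hs1 : 0 < 4 * Real.sinh (t / 2) := by
    have := K3_sinh (half_pos ht); linarith
  have hs2 : 0 < Real.sinh (d + t / 2) := by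
    have := K3_sinh (show 0 < d + t / 2 by positivity)
    linarith
  rw [e, Real.sqrt_eq_rpow, one_div, ← Real.rpow_neg (by positivity), Real.mul_rpow hs1.le hs2.le]
  rfl

section main
variable (R : ℝ → ℝ)

noncomputable def K3h (d t : ℝ) : ℝ := R (d + t) * K3w (d + t / 2)
noncomputable def K3h1 (d t : ℝ) : ℝ :=
  deriv R (d + t) * K3w (d + t / 2) + R (d + t) * (K3w1 (d + t / 2) * (1 / 2))
noncomputable def K3F (d t : ℝ) : ℝ := K3g t * K3h R d t
noncomputable def K3F1 (d t : ℝ) : ℝ := K3g1 t * K3h R d t + K3g t * K3h1 R d t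

variable {R} {C : ℝ} (hR : ContDiff ℝ 2 R) (hs : ∀ b, 1 / 2 ≤ |b| → R b = 0)
    (hC : ∀ b, |R b| ≤ C ∧ |deriv R b| ≤ C ∧ |deriv (deriv R) b| ≤ C)

include hR in
theorem K3_dR (b : ℝ) : HasDerivAt R (deriv R b) b :=
  (hR.differentiable (by norm_num) b).hasDerivAt

include hR in
theorem K3_dR1 : ContDiff ℝ 1 (deriv R) := by
  have : ContDiff ℝ (1 + 1) R := by norm_num; exact hR
  exact (contDiff_succ_iff_deriv.mp this).2.2

include hR in
theorem K3_ddR (b : ℝ) : HasDerivAt (deriv R) (deriv (deriv R) b) b :=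
  ((K3_dR1 hR).differentiable (by norm_num) b).hasDerivAt

include hR hs in
theorem K3_dR0 {b : ℝ} (hb : 1 / 2 ≤ b) : R b = 0 ∧ deriv R b = 0 ∧ deriv (deriv R) b = 0 := by
  have h0 : ∀ b ∈ Set.Ioi (1 / 2 : ℝ), R b = 0 := fun b hb => hs b (by
    rw [abs_of_pos (lt_trans (by norm_num) hb)]; exact le_of_lt hb)
  have h1 : ∀ b ∈ Set.Ioi (1 / 2 : ℝ), deriv R b = 0 := by
    intro b hb
    have : R =ᶠ[nhds b] fun _ => 0 := Filter.eventuallyEq_of_mem (isOpen_Ioi.mem_nhds hb) h0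
    rw [this.deriv_eq]; simp
  have h2 : ∀ b ∈ Set.Ioi (1 / 2 : ℝ), deriv (deriv R) b = 0 := by
    intro b hb
    have : deriv R =ᶠ[nhds b] fun _ => 0 := Filter.eventuallyEq_of_mem (isOpen_Ioi.mem_nhds hb) h1
    rw [this.deriv_eq]; simp
  have c1 : Continuous (deriv R) := (K3_dR1 hR).continuous
  have c2 : Continuous (deriv (deriv R)) := (K3_dR1 hR).continuous_deriv le_rfl
  have key : ∀ G : ℝ → ℝ, Continuous G → (∀ b ∈ Set.Ioi (1 / 2 : ℝ), G b = 0) → G b = 0 := by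
    intro G hG h
    have hcl : IsClosed {x | G x = 0} := isClosed_eq hG continuous_const
    have hsub : closure (Set.Ioi (1 / 2 : ℝ)) ⊆ {x | G x = 0} :=
      hcl.closure_subset_iff.mpr h
    rw [closure_Ioi] at hsub
    exact hsub hb
  exact ⟨key R hR.continuous h0, key _ c1 h1, key _ c2 h2⟩

theorem K3_inner (d t : ℝ) : HasDerivAt (fun t : ℝ => d + t / 2) (1 / 2) t := by
  simpa using ((hasDerivAt_id t).div_const 2).const_add d

include hR in
theorem K3h_dt {d t : ℝ} (hd : 0 < d) (ht : 0 < t) :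
    HasDerivAt (fun t => K3h R d t) (K3h1 R d t) t := by
  have hx : 0 < d + t / 2 := by positivity
  have h1 : HasDerivAt (fun t : ℝ => R (d + t)) (deriv R (d + t)) t := by
    simpa using (K3_dR hR (d + t)).comp_const_add d t
  have h2 : HasDerivAt (fun t : ℝ => K3w (d + t / 2)) (K3w1 (d + t / 2) * (1 / 2)) t :=
    HasDerivAt.comp (h := fun t : ℝ => d + t / 2) (h₂ := K3w) t (K3w_deriv hx) (K3_inner d t)
  exact h1.mul h2

include hR in
theorem K3h_dd {d t : ℝ} (hd : 0 < d) (ht : 0 < t) :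
    HasDerivAt (fun d => K3h R d t) (deriv R (d + t) * K3w (d + t / 2) +
      R (d + t) * K3w1 (d + t / 2)) d := by
  have hx : 0 < d + t / 2 := by positivity
  have h1 : HasDerivAt (fun d : ℝ => R (d + t)) (deriv R (d + t)) d := by
    simpa using (K3_dR hR (d + t)).comp_add_const d t
  have h2 : HasDerivAt (fun d : ℝ => K3w (d + t / 2)) (K3w1 (d + t / 2)) d := by
    simpa using (K3w_deriv hx).comp_add_const d (t / 2)
  exact h1.mul h2

include hR in
theorem K3h1_dd {d t : ℝ} (hd : 0 < d) (ht : 0 < t) :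
    HasDerivAt (fun d => K3h1 R d t) ((deriv (deriv R) (d + t) * K3w (d + t / 2) +
      deriv R (d + t) * K3w1 (d + t / 2)) + (deriv R (d + t) * (K3w1 (d + t / 2) * (1 / 2)) +
      R (d + t) * (K3w2 (d + t / 2) * (1 / 2)))) d := by
  have hx : 0 < d + t / 2 := by positivity
  have h0 : HasDerivAt (fun d : ℝ => deriv R (d + t)) (deriv (deriv R) (d + t)) d := by
    simpa using (K3_ddR hR (d + t)).comp_add_const d t
  have h1 : HasDerivAt (fun d : ℝ => R (d + t)) (deriv R (d + t)) d := by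
    simpa using (K3_dR hR (d + t)).comp_add_const d t
  have h2 : HasDerivAt (fun d : ℝ => K3w (d + t / 2)) (K3w1 (d + t / 2)) d := by
    simpa using (K3w_deriv hx).comp_add_const d (t / 2)
  have h3 : HasDerivAt (fun d : ℝ => K3w1 (d + t / 2) * (1 / 2)) (K3w2 (d + t / 2) * (1 / 2)) d := by
    simpa using ((K3w1_deriv hx).comp_add_const d (t / 2)).mul_const (1 / 2 : ℝ)
  exact (h0.mul h2).add (h1.mul h3)

include hR in
theorem K3F_dt {d t : ℝ} (hd : 0 < d) (ht : 0 < t) :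
    HasDerivAt (fun t => K3F R d t) (K3F1 R d t) t :=
  (K3g_deriv ht).mul (K3h_dt hR hd ht)

theorem K3_w1c : ContinuousOn K3w1 (Set.Ioi 0) := fun _ hx =>
  (K3w1_deriv hx).continuousAt.continuousWithinAt
theorem K3_wc : ContinuousOn K3w (Set.Ioi 0) := fun _ hx =>
  (K3w_deriv hx).continuousAt.continuousWithinAt
theorem K3_gc : ContinuousOn K3g (Set.Ioi 0) := fun _ hx =>
  (K3g_deriv hx).continuousAt.continuousWithinAt
theorem K3_g1c : ContinuousOn K3g1 (Set.Ioi 0) := by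
  unfold K3g1
  refine (ContinuousOn.mul (by fun_prop) ?_).neg
  refine ContinuousOn.rpow_const (by fun_prop) fun t ht => Or.inl ?_
  have ht' : 0 < t := ht
  have := K3_sinh (half_pos ht')
  exact (by linarith : 0 < 4 * Real.sinh (t / 2)).ne'

include hR in
theorem K3F1_cont {d : ℝ} (hd : 0 < d) : ContinuousOn (fun t => K3F1 R d t) (Set.Ioi 0) := by
  have hm : Set.MapsTo (fun t : ℝ => d + t / 2) (Set.Ioi 0) (Set.Ioi 0) := by
    intro t ht
    have ht' : 0 < t := ht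
    show 0 < d + t / 2
    positivity
  have c0 : ContinuousOn (fun t : ℝ => d + t / 2) (Set.Ioi 0) := by fun_prop
  have cw : ContinuousOn (fun t : ℝ => K3w (d + t / 2)) (Set.Ioi 0) := K3_wc.comp c0 hm
  have cw1 : ContinuousOn (fun t : ℝ => K3w1 (d + t / 2)) (Set.Ioi 0) := K3_w1c.comp c0 hm
  have cR : ContinuousOn (fun t : ℝ => R (d + t)) (Set.Ioi 0) :=
    (hR.continuous.comp (by fun_prop)).continuousOn
  have cR1 : ContinuousOn (fun t : ℝ => deriv R (d + t)) (Set.Ioi 0) :=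
    ((K3_dR1 hR).continuous.comp (by fun_prop)).continuousOn
  unfold K3F1 K3h K3h1
  exact (K3_g1c.mul (cR.mul cw)).add (K3_gc.mul ((cR1.mul cw).add (cR.mul (cw1.mul_const _))))

include hC in
theorem K3_C0 : 0 ≤ C := le_trans (abs_nonneg _) (hC 0).1

include hR hs hC in
/-- pointwise bounds of `h` -/
theorem K3h_bd {d t : ℝ} (hd : 0 < d) (ht : 0 < t) :
    |K3h R d t| ≤ C * d ^ (-(1 / 2) : ℝ) ∧ |K3h1 R d t| ≤ 2 * C * d ^ (-(1 / 2) : ℝ) * t⁻¹ := by
  have hC0 := K3_C0 hC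
  have hdp : 0 ≤ d ^ (-(1 / 2) : ℝ) := Real.rpow_nonneg hd.le _
  by_cases hb : 1 / 2 ≤ d + t
  · obtain ⟨r0, r1, -⟩ := K3_dR0 hR hs hb
    simp only [K3h, K3h1, r0, r1, zero_mul, add_zero, abs_zero]
    constructor <;> positivity
  · push Not at hb
    have hx : 0 < d + t / 2 := by positivity
    have hx1 : d + t / 2 ≤ 1 := by linarith
    have w0 := K3w_bd hx
    have w1 := K3w1_bd hx hx1
    obtain ⟨c0, c1, -⟩ := hC (d + t)
    have e0 : (d + t / 2) ^ (-(1 / 2) : ℝ) ≤ d ^ (-(1 / 2) : ℝ) :=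
      Real.rpow_le_rpow_of_nonpos hd (by linarith) (by norm_num)
    have e1 : (d + t / 2) ^ (-(3 / 2) : ℝ) ≤ d ^ (-(1 / 2) : ℝ) * (2 * t⁻¹) := by
      have : (-(3 / 2) : ℝ) = -(1 / 2) + -1 := by norm_num
      rw [this, Real.rpow_add hx]
      refine mul_le_mul e0 ?_ (Real.rpow_nonneg hx.le _) hdp
      rw [Real.rpow_neg_one]
      rw [show (2 * t⁻¹ : ℝ) = (t / 2)⁻¹ by rw [inv_div, div_eq_mul_inv]]
      exact inv_anti₀ (by positivity) (by linarith)
    have ti : 1 ≤ t⁻¹ := (one_le_inv₀ ht).mpr (by linarith)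
    constructor
    · unfold K3h
      rw [abs_mul]
      exact mul_le_mul c0 (w0.trans e0) (abs_nonneg _) hC0
    · unfold K3h1
      have a1 : |deriv R (d + t) * K3w (d + t / 2)| ≤ C * d ^ (-(1 / 2) : ℝ) := by
        rw [abs_mul]
        exact mul_le_mul c1 (w0.trans e0) (abs_nonneg _) hC0
      have a2 : |R (d + t) * (K3w1 (d + t / 2) * (1 / 2))| ≤ C * (d ^ (-(1 / 2) : ℝ) * t⁻¹) := by
        rw [abs_mul, abs_mul, abs_of_pos (show (0 : ℝ) < 1 / 2 by norm_num)]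
        refine mul_le_mul c0 ?_ (by positivity) hC0
        have := w1.trans e1
        linarith
      have a3 : C * d ^ (-(1 / 2) : ℝ) ≤ C * (d ^ (-(1 / 2) : ℝ) * t⁻¹) := by
        refine mul_le_mul_of_nonneg_left ?_ hC0
        exact le_mul_of_one_le_right hdp ti
      calc _ ≤ _ := abs_add_le _ _
        _ ≤ C * (d ^ (-(1 / 2) : ℝ) * t⁻¹) + C * (d ^ (-(1 / 2) : ℝ) * t⁻¹) :=
            add_le_add (a1.trans a3) a2
        _ = _ := by ring

include hR hs hC in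
/-- Lipschitz bounds of `h` in `d` -/
theorem K3h_lip {d0 d d' t : ℝ} (h0 : 0 < d0) (h01 : d0 ≤ 1) (hd : d0 ≤ d) (hd' : d0 ≤ d')
    (ht : 0 < t) :
    |K3h R d t - K3h R d' t| ≤ 5 * C * d0 ^ (-3 : ℝ) * |d - d'| ∧
      |K3h1 R d t - K3h1 R d' t| ≤ 5 * C * d0 ^ (-3 : ℝ) * |d - d'| := by
  have hC0 := K3_C0 hC
  have key : ∀ x ∈ Set.Ici d0, x + t < 1 / 2 → (x + t / 2) ^ (-(1 / 2) : ℝ) ≤ d0 ^ (-3 : ℝ) ∧
      (x + t / 2) ^ (-(3 / 2) : ℝ) ≤ d0 ^ (-3 : ℝ) ∧ (x + t / 2) ^ (-(5 / 2) : ℝ) ≤ d0 ^ (-3 : ℝ) := by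
    intro x hx _
    have hx' : d0 ≤ x + t / 2 := by
      have : d0 ≤ x := hx
      linarith
    refine ⟨?_, ?_, ?_⟩ <;>
    exact (Real.rpow_le_rpow_of_nonpos h0 hx' (by norm_num)).trans
      (Real.rpow_le_rpow_of_exponent_ge h0 h01 (by norm_num))
  have dp : 0 ≤ d0 ^ (-3 : ℝ) := Real.rpow_nonneg h0.le _
  have b1 : ∀ x ∈ Set.Ici d0, ‖deriv R (x + t) * K3w (x + t / 2) +
      R (x + t) * K3w1 (x + t / 2)‖ ≤ 5 * C * d0 ^ (-3 : ℝ) := by
    intro x hx
    have hx0 : 0 < x := lt_of_lt_of_le h0 hx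
    by_cases hb : 1 / 2 ≤ x + t
    · obtain ⟨r0, r1, -⟩ := K3_dR0 hR hs hb
      rw [r0, r1]; simp only [zero_mul, add_zero, norm_zero]; positivity
    · push Not at hb
      have hy : 0 < x + t / 2 := by positivity
      have hy1 : x + t / 2 ≤ 1 := by linarith
      obtain ⟨k0, k1, k2⟩ := key x hx hb
      obtain ⟨c0, c1, -⟩ := hC (x + t)
      have a1 : |deriv R (x + t) * K3w (x + t / 2)| ≤ C * d0 ^ (-3 : ℝ) := by
        rw [abs_mul]; exact mul_le_mul c1 ((K3w_bd hy).trans k0) (abs_nonneg _) hC0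
      have a2 : |R (x + t) * K3w1 (x + t / 2)| ≤ C * d0 ^ (-3 : ℝ) := by
        rw [abs_mul]; exact mul_le_mul c0 ((K3w1_bd hy hy1).trans k1) (abs_nonneg _) hC0
      rw [Real.norm_eq_abs]
      have := abs_add_le (deriv R (x + t) * K3w (x + t / 2)) (R (x + t) * K3w1 (x + t / 2))
      have hp : 0 ≤ C * d0 ^ (-3 : ℝ) := by positivity
      linarith
  have b2 : ∀ x ∈ Set.Ici d0, ‖(deriv (deriv R) (x + t) * K3w (x + t / 2) +
      deriv R (x + t) * K3w1 (x + t / 2)) + (deriv R (x + t) * (K3w1 (x + t / 2) * (1 / 2)) +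
      R (x + t) * (K3w2 (x + t / 2) * (1 / 2)))‖ ≤ 5 * C * d0 ^ (-3 : ℝ) := by
    intro x hx
    have hx0 : 0 < x := lt_of_lt_of_le h0 hx
    by_cases hb : 1 / 2 ≤ x + t
    · obtain ⟨r0, r1, r2⟩ := K3_dR0 hR hs hb
      rw [r0, r1, r2]; simp only [zero_mul, add_zero, norm_zero]; positivity
    · push Not at hb
      have hy : 0 < x + t / 2 := by positivity
      have hy1 : x + t / 2 ≤ 1 := by linarith
      obtain ⟨k0, k1, k2⟩ := key x hx hb
      obtain ⟨c0, c1, c2⟩ := hC (x + t)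
      have hh : |(1 / 2 : ℝ)| = 1 / 2 := by norm_num
      have a1 : |deriv (deriv R) (x + t) * K3w (x + t / 2)| ≤ C * d0 ^ (-3 : ℝ) := by
        rw [abs_mul]; exact mul_le_mul c2 ((K3w_bd hy).trans k0) (abs_nonneg _) hC0
      have a2 : |deriv R (x + t) * K3w1 (x + t / 2)| ≤ C * d0 ^ (-3 : ℝ) := by
        rw [abs_mul]; exact mul_le_mul c1 ((K3w1_bd hy hy1).trans k1) (abs_nonneg _) hC0
      have a3 : |deriv R (x + t) * (K3w1 (x + t / 2) * (1 / 2))| ≤ C * d0 ^ (-3 : ℝ) := by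
        rw [abs_mul, abs_mul, hh]
        refine mul_le_mul c1 ?_ (by positivity) hC0
        have := (K3w1_bd hy hy1).trans k1
        linarith
      have a4 : |R (x + t) * (K3w2 (x + t / 2) * (1 / 2))| ≤ C * (2 * d0 ^ (-3 : ℝ)) := by
        rw [abs_mul, abs_mul, hh]
        refine mul_le_mul c0 ?_ (by positivity) hC0
        have := K3w2_bd hy hy1
        linarith
      rw [Real.norm_eq_abs]
      have e1 := abs_add_le (deriv (deriv R) (x + t) * K3w (x + t / 2) +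
        deriv R (x + t) * K3w1 (x + t / 2)) (deriv R (x + t) * (K3w1 (x + t / 2) * (1 / 2)) +
        R (x + t) * (K3w2 (x + t / 2) * (1 / 2)))
      have e2 := abs_add_le (deriv (deriv R) (x + t) * K3w (x + t / 2))
        (deriv R (x + t) * K3w1 (x + t / 2))
      have e3 := abs_add_le (deriv R (x + t) * (K3w1 (x + t / 2) * (1 / 2)))
        (R (x + t) * (K3w2 (x + t / 2) * (1 / 2)))
      linarith
  have hconv : Convex ℝ (Set.Ici d0) := convex_Ici d0
  have m1 := hconv.norm_image_sub_le_of_norm_hasDerivWithin_le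
    (f := fun x => K3h R x t) (fun x hx =>
      (K3h_dd hR (lt_of_lt_of_le h0 hx) ht).hasDerivWithinAt) b1
    (show d' ∈ Set.Ici d0 from hd') (show d ∈ Set.Ici d0 from hd)
  have m2 := hconv.norm_image_sub_le_of_norm_hasDerivWithin_le
    (f := fun x => K3h1 R x t) (fun x hx =>
      (K3h1_dd hR (lt_of_lt_of_le h0 hx) ht).hasDerivWithinAt) b2
    (show d' ∈ Set.Ici d0 from hd') (show d ∈ Set.Ici d0 from hd)
  simp only [Real.norm_eq_abs] at m1 m2
  exact ⟨m1, m2⟩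

/-- bounds of `F` -/
theorem K3_comb {g g1 h h1 A t : ℝ} (ht : 0 < t) (ht1 : t ≤ 1) (hg : |g| ≤ t ^ (-(1 / 2) : ℝ))
    (hg1 : |g1| ≤ t ^ (-(3 / 2) : ℝ)) (hh : |h| ≤ A) (hh1 : |h1| ≤ 2 * A * t⁻¹) :
    |g * h| ≤ 3 * A * t ^ (-(1 / 2) : ℝ) ∧ |g1 * h + g * h1| ≤ 3 * A * t ^ (-(3 / 2) : ℝ) := by
  have hA : 0 ≤ A := (abs_nonneg _).trans hh
  have p1 : 0 ≤ t ^ (-(1 / 2) : ℝ) := Real.rpow_nonneg ht.le _
  have p2 : 0 ≤ t ^ (-(3 / 2) : ℝ) := Real.rpow_nonneg ht.le _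
  have e : t ^ (-(1 / 2) : ℝ) * t⁻¹ = t ^ (-(3 / 2) : ℝ) := by
    rw [← Real.rpow_neg_one, ← Real.rpow_add ht]; norm_num
  constructor
  · rw [abs_mul]
    have := mul_le_mul hg hh (abs_nonneg _) p1
    nlinarith
  · have a1 : |g1 * h| ≤ t ^ (-(3 / 2) : ℝ) * A := by
      rw [abs_mul]; exact mul_le_mul hg1 hh (abs_nonneg _) p2
    have a2 : |g * h1| ≤ t ^ (-(1 / 2) : ℝ) * (2 * A * t⁻¹) := by
      rw [abs_mul]; exact mul_le_mul hg hh1 (abs_nonneg _) p1
    have a3 : t ^ (-(1 / 2) : ℝ) * (2 * A * t⁻¹) = 2 * A * t ^ (-(3 / 2) : ℝ) := by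
      rw [← e]; ring
    have := abs_add_le (g1 * h) (g * h1)
    linarith

end main

theorem K3_AA (R : ℝ → ℝ) (T : ℝ) {d : ℝ} (hd : 0 < d) : AA R T d =
    -Complex.I * ((T / (2 * Real.pi) : ℝ) : ℂ) * ∫ t in Set.Ioi (0 : ℝ),
      Complex.exp (((T * t : ℝ) : ℂ) * Complex.I) * ((K3F R d t : ℝ) : ℂ) := by
  unfold AA
  congr 1
  refine setIntegral_congr_fun measurableSet_Ioi fun t ht => ?_
  have ht' : 0 < t := ht
  congr 2
  rw [div_eq_mul_one_div, K3_prod hd ht']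
  unfold K3F K3h
  ring

theorem K3_pref {T : ℝ} (hT : 1 ≤ T) (x : ℂ) {A : ℝ} (hx : ‖x‖ ≤ 5 * A / √T) :
    ‖-Complex.I * ((T / (2 * Real.pi) : ℝ) : ℂ) * x‖ ≤ A * √T := by
  have hT0 : 0 < T := by linarith
  have hs : 0 < √T := Real.sqrt_pos.mpr hT0
  have hA : 0 ≤ A := by
    have h1 : 0 ≤ 5 * A / √T := (norm_nonneg _).trans hx
    have h2 := (div_nonneg_iff.mp h1)
    rcases h2 with h2 | h2
    · linarith [h2.1]
    · linarith [h2.2]
  rw [norm_mul, norm_mul, norm_neg, Complex.norm_I, one_mul, Complex.norm_real, Real.norm_eq_abs,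
    abs_of_pos (by positivity)]
  have hpi : 3 < Real.pi := Real.pi_gt_three
  calc T / (2 * Real.pi) * ‖x‖ ≤ T / 5 * (5 * A / √T) := by
        refine mul_le_mul ?_ hx (norm_nonneg _) (by positivity)
        exact div_le_div_of_nonneg_left hT0.le (by norm_num) (by linarith)
    _ = A * √T := by
        have : √T * √T = T := Real.mul_self_sqrt hT0.le
        field_simp
        rw [Real.sq_sqrt hT0.le]
        ring

theorem AA_bounds (R : ℝ → ℝ) (C : ℝ) (hR : ContDiff ℝ 2 R) (hs : ∀ b, 1 / 2 ≤ |b| → R b = 0)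
    (hC : ∀ b, |R b| ≤ C ∧ |deriv R b| ≤ C ∧ |deriv (deriv R) b| ≤ C) : ∃ K : ℝ, 0 < K ∧
    ∀ T : ℝ, 1 ≤ T → (∀ d : ℝ, 0 < d → ‖AA R T d‖ ≤ K * √T / √d) ∧
      (∀ d : ℝ, 1 / 2 ≤ d → AA R T d = 0) ∧
      (∀ d0 d d' : ℝ, 0 < d0 → d0 ≤ 1 → d0 ≤ d → d0 ≤ d' →
        ‖AA R T d - AA R T d'‖ ≤ K * √T / d0 ^ 3 * |d - d'|) := by
  have hC0 := K3_C0 hC
  have hF0 : ∀ d t : ℝ, 0 < d → 1 / 2 ≤ t → K3F R d t = 0 ∧ K3F1 R d t = 0 := by
    intro d t hd ht
    obtain ⟨r0, r1, -⟩ := K3_dR0 hR hs (show 1 / 2 ≤ d + t by linarith)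
    simp [K3F, K3F1, K3h, K3h1, r0, r1]
  have hbd : ∀ d t : ℝ, 0 < d → 0 < t →
      |K3F R d t| ≤ 3 * (C * d ^ (-(1 / 2) : ℝ)) * t ^ (-(1 / 2) : ℝ) ∧
      |K3F1 R d t| ≤ 3 * (C * d ^ (-(1 / 2) : ℝ)) * t ^ (-(3 / 2) : ℝ) := by
    intro d t hd ht
    by_cases h1 : t ≤ 1
    · obtain ⟨a, b⟩ := K3h_bd hR hs hC hd ht
      exact K3_comb ht h1 (K3g_bd ht) (K3g1_bd ht h1) a (by linarith)
    · obtain ⟨a, b⟩ := hF0 d t hd (by linarith)
      rw [a, b, abs_zero]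
      constructor <;> positivity
  refine ⟨15 * C + 1, by positivity, fun T hT => ⟨fun d hd => ?_, fun d hd => ?_, ?_⟩⟩
  · have := (K3_osc (fun t => K3F R d t) (fun t => K3F1 R d t)
      (3 * (C * d ^ (-(1 / 2) : ℝ))) T hT (by positivity) (fun t ht => K3F_dt hR hd ht)
      (K3F1_cont hR hd) (fun t ht => (hF0 d t hd ht).1) (fun t ht => (hbd d t hd ht).1)
      (fun t ht => (hbd d t hd ht).2)).2
    rw [K3_AA R T hd]
    refine (K3_pref hT _ this).trans ?_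
    have e : d ^ (-(1 / 2) : ℝ) = 1 / √d := by
      rw [Real.rpow_neg hd.le, ← Real.sqrt_eq_rpow, one_div]
    rw [e]
    have hsd : 0 < √d := Real.sqrt_pos.mpr hd
    have hsT : 0 ≤ √T := Real.sqrt_nonneg _
    rw [show 3 * (C * (1 / √d)) * √T = 3 * C * √T / √d by ring]
    gcongr
    linarith
  · rw [K3_AA R T (by linarith)]
    have : ∀ t ∈ Set.Ioi (0 : ℝ), Complex.exp (((T * t : ℝ) : ℂ) * Complex.I) *
        ((K3F R d t : ℝ) : ℂ) = 0 := by
      intro t ht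
      have ht' : 0 < t := ht
      obtain ⟨r0, -, -⟩ := K3_dR0 hR hs (show 1 / 2 ≤ d + t by linarith)
      simp [K3F, K3h, r0]
    rw [setIntegral_congr_fun measurableSet_Ioi this]
    simp
  · intro d0 d d' h0 h01 hd hd'
    have hdp : 0 < d := lt_of_lt_of_le h0 hd
    have hdp' : 0 < d' := lt_of_lt_of_le h0 hd'
    set A : ℝ := 3 * (5 * C * d0 ^ (-3 : ℝ) * |d - d'|) with hA
    have hA0 : 0 ≤ A := by
      have := Real.rpow_nonneg h0.le (-3 : ℝ)
      positivity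
    have hb : ∀ t : ℝ, 0 < t → |K3F R d t - K3F R d' t| ≤ A * t ^ (-(1 / 2) : ℝ) ∧
        |K3F1 R d t - K3F1 R d' t| ≤ A * t ^ (-(3 / 2) : ℝ) := by
      intro t ht
      by_cases h1 : t ≤ 1
      · obtain ⟨a, b⟩ := K3h_lip hR hs hC h0 h01 hd hd' ht
        have ti : 1 ≤ t⁻¹ := (one_le_inv₀ ht).mpr h1
        have hB : 0 ≤ 5 * C * d0 ^ (-3 : ℝ) * |d - d'| := (abs_nonneg _).trans a
        have := K3_comb ht h1 (K3g_bd ht) (K3g1_bd ht h1) a (by nlinarith)
        obtain ⟨c, e⟩ := this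
        constructor
        · have e1 : K3F R d t - K3F R d' t = K3g t * (K3h R d t - K3h R d' t) := by
            unfold K3F; ring
          rw [e1]; exact c
        · have e1 : K3F1 R d t - K3F1 R d' t = K3g1 t * (K3h R d t - K3h R d' t) +
              K3g t * (K3h1 R d t - K3h1 R d' t) := by
            unfold K3F1; ring
          rw [e1]; exact e
      · obtain ⟨a, b⟩ := hF0 d t hdp (by linarith)
        obtain ⟨a', b'⟩ := hF0 d' t hdp' (by linarith)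
        rw [a, b, a', b', sub_zero, abs_zero]
        constructor <;> positivity
    have hosc := (K3_osc (fun t => K3F R d t - K3F R d' t) (fun t => K3F1 R d t - K3F1 R d' t)
      A T hT hA0 (fun t ht => (K3F_dt hR hdp ht).sub (K3F_dt hR hdp' ht))
      ((K3F1_cont hR hdp).sub (K3F1_cont hR hdp'))
      (fun t ht => by
        rw [(hF0 d t hdp ht).1, (hF0 d' t hdp' ht).1, sub_zero]) (fun t ht => (hb t ht).1)
      (fun t ht => (hb t ht).2)).2
    have hi : ∀ x : ℝ, 0 < x → IntegrableOn (fun t => Complex.exp (((T * t : ℝ) : ℂ) * Complex.I) *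
        ((K3F R x t : ℝ) : ℂ)) (Set.Ioi 0) := fun x hx =>
      (K3_osc (fun t => K3F R x t) (fun t => K3F1 R x t)
      (3 * (C * x ^ (-(1 / 2) : ℝ))) T hT (by positivity) (fun t ht => K3F_dt hR hx ht)
      (K3F1_cont hR hx) (fun t ht => (hF0 x t hx ht).1) (fun t ht => (hbd x t hx ht).1)
      (fun t ht => (hbd x t hx ht).2)).1
    have hsub : (∫ t in Set.Ioi (0 : ℝ), Complex.exp (((T * t : ℝ) : ℂ) * Complex.I) *
        ((K3F R d t - K3F R d' t : ℝ) : ℂ)) =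
        (∫ t in Set.Ioi (0 : ℝ), Complex.exp (((T * t : ℝ) : ℂ) * Complex.I) *
        ((K3F R d t : ℝ) : ℂ)) - ∫ t in Set.Ioi (0 : ℝ),
        Complex.exp (((T * t : ℝ) : ℂ) * Complex.I) * ((K3F R d' t : ℝ) : ℂ) := by
      rw [← integral_sub (hi d hdp) (hi d' hdp')]
      refine integral_congr_ae (Filter.Eventually.of_forall fun t => ?_)
      simp only [Complex.ofReal_sub]
      ring
    rw [K3_AA R T hdp, K3_AA R T hdp', ← mul_sub, ← hsub]
    refine (K3_pref hT _ hosc).trans ?_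
    have e : d0 ^ (-3 : ℝ) = (d0 ^ 3)⁻¹ := by
      rw [Real.rpow_neg h0.le]; norm_cast
    rw [hA, e]
    have hp : 0 ≤ √T * (d0 ^ 3)⁻¹ * |d - d'| := by positivity
    calc _ = 15 * C * (√T * (d0 ^ 3)⁻¹ * |d - d'|) := by ring
      _ ≤ (15 * C + 1) * (√T * (d0 ^ 3)⁻¹ * |d - d'|) := by linarith
      _ = _ := by ring

end Pool.Agent.H19.Sup
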