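import Mathlib
import Pool.Agent.H19.Sup.K1
import Pool.Agent.H19.Sup.K2
import Pool.Agent.H19.Sup.K3

set_option autoImplicit false

/-!
# K4: the kernel is the oscillating main term plus `O(1)`

`KK k z w = kas g (2 cosh d - 2)`, `d = dist z w` (`Maass.KK_eq_kas`), `kas_formula`, and by `cv4`
`(cv g)' (b) = - T/2 sin (T b) R b + E b`, `|E b| ≤ C (|b| + 1/T)`, `E b = 0` for `b ≥ 1/2` (both terms vanish: `EV.cv`, `EV.deriv_supp`;
`b = 1/2` by continuity or use `Ioi`).
Main term: `(T / 2π) ∫ sin (T (d+t)) R (d+t) / √(...) dt = Re (AA R T d * e^{i T d})` (`sin x = Re (-i e^{i x})`; the integral converges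
absolutely).  Error: `2 cosh (d+t) - 2 cosh d ≥ 2 d t + t²`, so
`∫_0^{1/2} (d + t) / √(t² + 2 d t) dt ≤ ∫ (1 + √(2 d / t)) dt ≤ C` for `d ≤ 1/2` (for `d ≥ 1/2` everything is zero), and
`(1/T) ∫_0^{1/2} dt / √(2 d t) ≤ C / (T √d) ≤ C` for `d ≥ 1/T`.
-/

namespace Pool.Agent.H19.Sup

open UpperHalfPlane
open Pool.Agent.H19.Maass

section K4core

open MeasureTheory Set

theorem K4_cosh {d t : ℝ} (hd : 0 ≤ d) (ht : 0 ≤ t) :
    t * (2 * d + t) ≤ 2 * Real.cosh (d + t) - 2 * Real.cosh d := by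
  have h1 : Real.cosh (d + t) - Real.cosh d = 2 * Real.sinh (d + t / 2) * Real.sinh (t / 2) := by
    have e1 : d + t = (d + t / 2) + t / 2 := by ring
    have e2 : Real.cosh d = Real.cosh ((d + t / 2) - t / 2) := by congr 1; ring
    rw [e2, e1, Real.cosh_add, Real.cosh_sub]
    ring
  have h2 : d + t / 2 ≤ Real.sinh (d + t / 2) := Real.self_le_sinh_iff.2 (by linarith)
  have h3 : t / 2 ≤ Real.sinh (t / 2) := Real.self_le_sinh_iff.2 (by linarith)
  have h4 : (d + t / 2) * (t / 2) ≤ Real.sinh (d + t / 2) * Real.sinh (t / 2) :=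
    mul_le_mul h2 h3 (by linarith) (by linarith)
  nlinarith

theorem K4_sqrt {d t : ℝ} (hd : 0 < d) (ht : 0 < t) :
    √(t * (2 * d + t)) ≤ √(2 * Real.cosh (d + t) - 2 * Real.cosh d) ∧
      0 < √(t * (2 * d + t)) :=
  ⟨Real.sqrt_le_sqrt (K4_cosh hd.le ht.le), Real.sqrt_pos.2 (by positivity)⟩

/-- `t ^ (-1/2)` is integrable on `(0, 1/2]` -/
theorem K4_rpow : IntegrableOn (fun t : ℝ => t ^ (-(1 / 2) : ℝ)) (Ioc 0 (1 / 2)) := by
  have h := intervalIntegral.intervalIntegrable_rpow' (a := 0) (b := 1 / 2) (r := -(1 / 2))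
    (by norm_num)
  rwa [intervalIntegrable_iff_integrableOn_Ioc_of_le (by norm_num)] at h

theorem K4_rpow_integral : ∫ t in Ioc (0 : ℝ) (1 / 2), t ^ (-(1 / 2) : ℝ) ≤ 3 / 2 := by
  rw [← intervalIntegral.integral_of_le (by norm_num), integral_rpow (Or.inl (by norm_num))]
  have h1 : (-(1 / 2) : ℝ) + 1 = 1 / 2 := by norm_num
  rw [h1, Real.zero_rpow (by norm_num), ← Real.sqrt_eq_rpow]
  have h2 : √(1 / 2 : ℝ) ≤ 3 / 4 := by
    rw [Real.sqrt_le_left (by norm_num)]
    norm_num
  linarith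

theorem K4_int {f : ℝ → ℝ} (hf : Measurable f) {M : ℝ} (hM : ∀ t, |f t| ≤ M)
    (h0 : ∀ t, 1 / 2 < t → f t = 0) {d : ℝ} (hd : 0 < d) :
    IntegrableOn (fun t => f t / √(2 * Real.cosh (d + t) - 2 * Real.cosh d)) (Ioi 0) := by
  have hM0 : 0 ≤ M := (abs_nonneg _).trans (hM 0)
  have hb : IntegrableOn ((Ioc (0 : ℝ) (1 / 2)).indicator
      fun t => M / √(2 * d) * t ^ (-(1 / 2) : ℝ)) (Ioi 0) := by
    refine Integrable.integrableOn ?_
    rw [integrable_indicator_iff measurableSet_Ioc]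
    exact K4_rpow.const_mul _
  refine Integrable.mono' hb ?_ ?_
  · refine Measurable.aestronglyMeasurable ?_
    refine hf.div ?_
    fun_prop
  · rw [ae_restrict_iff' measurableSet_Ioi]
    refine Filter.Eventually.of_forall fun t ht => ?_
    have ht0 : 0 < t := ht
    by_cases h : t ≤ 1 / 2
    · rw [indicator_of_mem (show t ∈ Ioc (0 : ℝ) (1 / 2) from ⟨ht0, h⟩), norm_div,
        Real.norm_eq_abs, Real.norm_eq_abs, abs_of_nonneg (Real.sqrt_nonneg _)]
      have h1 : √(2 * d * t) ≤ √(2 * Real.cosh (d + t) - 2 * Real.cosh d) := by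
        refine Real.sqrt_le_sqrt ((K4_cosh hd.le ht0.le).trans' ?_)
        nlinarith
      have h2 : 0 < √(2 * d * t) := Real.sqrt_pos.2 (by positivity)
      calc |f t| / √(2 * Real.cosh (d + t) - 2 * Real.cosh d) ≤ M / √(2 * d * t) :=
            div_le_div₀ hM0 (hM t) h2 h1
        _ = M / √(2 * d) * t ^ (-(1 / 2) : ℝ) := by
            rw [Real.sqrt_mul (by positivity), Real.rpow_neg ht0.le, ← Real.sqrt_eq_rpow]
            field_simp
    · rw [indicator_of_notMem (fun hh => h hh.2), h0 t (not_le.1 h)]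
      simp

theorem K4_core {φ R : ℝ → ℝ} (hφ : Measurable φ) (hR : Measurable R) {C M T d : ℝ}
    (hC : 0 < C) (hT : 1 ≤ T) (hd : 1 / T ≤ d)
    (h1 : ∀ b, |φ b + T / 2 * Real.sin (T * b) * R b| ≤ C * (|b| + 1 / T))
    (h2 : ∀ b, 1 / 2 < b → φ b = 0) (h3 : ∀ b, 1 / 2 ≤ |b| → R b = 0)
    (h4 : ∀ b, |φ b| ≤ M) (h5 : ∀ b, |R b| ≤ C) :
    |-(1 / Real.pi) * (∫ t in Ioi (0 : ℝ), φ (d + t) / √(2 * Real.cosh (d + t) - 2 * Real.cosh d)) -
      ((-Complex.I * ((T / (2 * Real.pi) : ℝ) : ℂ) * ∫ t in Ioi (0 : ℝ),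
        Complex.exp (((T * t : ℝ) : ℂ) * Complex.I) *
      ((R (d + t) / √(2 * Real.cosh (d + t) - 2 * Real.cosh d) : ℝ) : ℂ)) *
        Complex.exp (((T * d : ℝ) : ℂ) * Complex.I)).re| ≤ C := by
  have hT0 : 0 < T := by linarith
  have hd0 : 0 < d := lt_of_lt_of_le (by positivity) hd
  have hpi := Real.pi_gt_three
  -- the two integrands
  have i1 : IntegrableOn (fun t => φ (d + t) / √(2 * Real.cosh (d + t) - 2 * Real.cosh d)) (Ioi 0) := by
    refine K4_int (f := fun t => φ (d + t)) (by fun_prop) (M := M) (fun t => h4 _) ?_ hd0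
    intro t ht
    exact h2 _ (by linarith)
  have i2 : IntegrableOn (fun t => (Real.sin (T * (d + t)) * R (d + t)) /
      √(2 * Real.cosh (d + t) - 2 * Real.cosh d)) (Ioi 0) := by
    refine K4_int (f := fun t => Real.sin (T * (d + t)) * R (d + t)) (by fun_prop) (M := C) ?_ ?_ hd0
    · intro t
      rw [abs_mul]
      have := Real.abs_sin_le_one (T * (d + t))
      have := h5 (d + t)
      nlinarith [abs_nonneg (R (d + t)), abs_nonneg (Real.sin (T * (d + t)))]
    · intro t ht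
      have : R (d + t) = 0 := h3 _ (by rw [abs_of_pos (by linarith)]; linarith)
      rw [this, mul_zero]
  -- integrability of the complex integrand
  have i3 : IntegrableOn (fun t => Complex.exp (((T * t : ℝ) : ℂ) * Complex.I) *
      ((R (d + t) / √(2 * Real.cosh (d + t) - 2 * Real.cosh d) : ℝ) : ℂ)) (Ioi 0) := by
    have i4 : IntegrableOn (fun t => R (d + t) / √(2 * Real.cosh (d + t) - 2 * Real.cosh d)) (Ioi 0) := by
      refine K4_int (f := fun t => R (d + t)) (by fun_prop) (M := C) (fun t => h5 _) ?_ hd0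
      intro t ht
      exact h3 _ (by rw [abs_of_pos (by linarith)]; linarith)
    refine Integrable.mono i4 ?_ ?_
    · refine AEStronglyMeasurable.mul ?_ ?_
      · exact (by fun_prop : Continuous fun t : ℝ => Complex.exp (((T * t : ℝ) : ℂ) * Complex.I)).aestronglyMeasurable
      · exact Complex.continuous_ofReal.comp_aestronglyMeasurable i4.aestronglyMeasurable
    · refine Filter.Eventually.of_forall fun t => ?_
      rw [norm_mul, Complex.norm_exp_ofReal_mul_I, one_mul, Complex.norm_real]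
  have hre : ((-Complex.I * ((T / (2 * Real.pi) : ℝ) : ℂ) * ∫ t in Ioi (0 : ℝ),
        Complex.exp (((T * t : ℝ) : ℂ) * Complex.I) *
      ((R (d + t) / √(2 * Real.cosh (d + t) - 2 * Real.cosh d) : ℝ) : ℂ)) *
        Complex.exp (((T * d : ℝ) : ℂ) * Complex.I)).re =
      T / (2 * Real.pi) * ∫ t in Ioi (0 : ℝ), (Real.sin (T * (d + t)) * R (d + t)) /
      √(2 * Real.cosh (d + t) - 2 * Real.cosh d) := by
    have e1 : (-Complex.I * ((T / (2 * Real.pi) : ℝ) : ℂ) * ∫ t in Ioi (0 : ℝ),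
        Complex.exp (((T * t : ℝ) : ℂ) * Complex.I) *
      ((R (d + t) / √(2 * Real.cosh (d + t) - 2 * Real.cosh d) : ℝ) : ℂ)) *
        Complex.exp (((T * d : ℝ) : ℂ) * Complex.I) =
        ((T / (2 * Real.pi) : ℝ) : ℂ) * ∫ t in Ioi (0 : ℝ), (-Complex.I *
          Complex.exp (((T * d : ℝ) : ℂ) * Complex.I)) *
        (Complex.exp (((T * t : ℝ) : ℂ) * Complex.I) *
      ((R (d + t) / √(2 * Real.cosh (d + t) - 2 * Real.cosh d) : ℝ) : ℂ)) := by
      rw [integral_const_mul]
      ring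
    rw [e1, Complex.re_ofReal_mul]
    congr 1
    have i5 := i3.const_mul (-Complex.I * Complex.exp (((T * d : ℝ) : ℂ) * Complex.I))
    have e3 : (∫ t in Ioi (0 : ℝ), (-Complex.I *
          Complex.exp (((T * d : ℝ) : ℂ) * Complex.I)) *
        (Complex.exp (((T * t : ℝ) : ℂ) * Complex.I) *
      ((R (d + t) / √(2 * Real.cosh (d + t) - 2 * Real.cosh d) : ℝ) : ℂ))).re =
      ∫ t in Ioi (0 : ℝ), ((-Complex.I *
          Complex.exp (((T * d : ℝ) : ℂ) * Complex.I)) *
        (Complex.exp (((T * t : ℝ) : ℂ) * Complex.I) *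
      ((R (d + t) / √(2 * Real.cosh (d + t) - 2 * Real.cosh d) : ℝ) : ℂ))).re :=
      (Complex.reCLM.integral_comp_comm i5).symm
    rw [e3]
    refine integral_congr_ae (Filter.Eventually.of_forall fun t => ?_)
    beta_reduce
    have e4 : (-Complex.I * Complex.exp (((T * d : ℝ) : ℂ) * Complex.I)) *
        (Complex.exp (((T * t : ℝ) : ℂ) * Complex.I) *
      ((R (d + t) / √(2 * Real.cosh (d + t) - 2 * Real.cosh d) : ℝ) : ℂ)) =
      (-Complex.I * Complex.exp (((T * (d + t) : ℝ) : ℂ) * Complex.I)) *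
        ((R (d + t) / √(2 * Real.cosh (d + t) - 2 * Real.cosh d) : ℝ) : ℂ) := by
      have : Complex.exp (((T * (d + t) : ℝ) : ℂ) * Complex.I) =
          Complex.exp (((T * d : ℝ) : ℂ) * Complex.I) * Complex.exp (((T * t : ℝ) : ℂ) * Complex.I) := by
        rw [← Complex.exp_add]; congr 1; push_cast; ring
      rw [this]; ring
    rw [e4, Complex.re_mul_ofReal]
    have e5 : (-Complex.I * Complex.exp (((T * (d + t) : ℝ) : ℂ) * Complex.I)).re =
        Real.sin (T * (d + t)) := by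
      rw [neg_mul, Complex.neg_re, Complex.mul_re, Complex.I_re, Complex.I_im,
        Complex.exp_ofReal_mul_I_im]
      ring
    rw [e5]
    ring
  rw [hre]
  -- combine
  have hcomb : -(1 / Real.pi) * (∫ t in Ioi (0 : ℝ), φ (d + t) / √(2 * Real.cosh (d + t) - 2 * Real.cosh d)) -
      T / (2 * Real.pi) * ∫ t in Ioi (0 : ℝ), (Real.sin (T * (d + t)) * R (d + t)) /
      √(2 * Real.cosh (d + t) - 2 * Real.cosh d) =
      -(1 / Real.pi) * ∫ t in Ioi (0 : ℝ), (φ (d + t) / √(2 * Real.cosh (d + t) - 2 * Real.cosh d) +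
        T / 2 * ((Real.sin (T * (d + t)) * R (d + t)) /
      √(2 * Real.cosh (d + t) - 2 * Real.cosh d))) := by
    rw [integral_add i1 (i2.const_mul _), integral_const_mul]
    field_simp
    ring
  rw [hcomb, abs_mul, abs_neg, abs_of_pos (by positivity : (0 : ℝ) < 1 / Real.pi)]
  -- the bound
  have hbi : IntegrableOn (fun t : ℝ => C * (1 + t ^ (-(1 / 2) : ℝ))) (Ioc 0 (1 / 2)) := by
    refine Integrable.const_mul ?_ _
    refine Integrable.add ?_ K4_rpow
    simp
  have hbound : ‖∫ t in Ioi (0 : ℝ), (φ (d + t) / √(2 * Real.cosh (d + t) - 2 * Real.cosh d) +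
        T / 2 * ((Real.sin (T * (d + t)) * R (d + t)) /
      √(2 * Real.cosh (d + t) - 2 * Real.cosh d)))‖ ≤
      ∫ t in Ioi (0 : ℝ), (Ioc (0 : ℝ) (1 / 2)).indicator
        (fun t : ℝ => C * (1 + t ^ (-(1 / 2) : ℝ))) t := by
    refine norm_integral_le_of_norm_le ?_ ?_
    · refine Integrable.integrableOn ?_
      rw [integrable_indicator_iff measurableSet_Ioc]
      exact hbi
    · rw [ae_restrict_iff' measurableSet_Ioi]
      refine Filter.Eventually.of_forall fun t ht => ?_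
      have ht0 : 0 < t := ht
      have hcomb2 : φ (d + t) / √(2 * Real.cosh (d + t) - 2 * Real.cosh d) +
        T / 2 * ((Real.sin (T * (d + t)) * R (d + t)) /
      √(2 * Real.cosh (d + t) - 2 * Real.cosh d)) =
        (φ (d + t) + T / 2 * Real.sin (T * (d + t)) * R (d + t)) /
          √(2 * Real.cosh (d + t) - 2 * Real.cosh d) := by
        rw [add_div]; ring
      rw [hcomb2]
      by_cases h : d + t ≤ 1 / 2
      · have hd2 : 2 * d ≤ 1 := by linarith
        rw [indicator_of_mem (show t ∈ Ioc (0 : ℝ) (1 / 2) from ⟨ht0, by linarith⟩), norm_div,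
          Real.norm_eq_abs, Real.norm_eq_abs, abs_of_nonneg (Real.sqrt_nonneg _)]
        obtain ⟨g1, g2⟩ := K4_sqrt hd0 ht0
        have g3 : |φ (d + t) + T / 2 * Real.sin (T * (d + t)) * R (d + t)| ≤ C * (2 * d + t) := by
          refine (h1 (d + t)).trans ?_
          refine mul_le_mul_of_nonneg_left ?_ hC.le
          rw [abs_of_pos (by linarith)]
          linarith
        calc |φ (d + t) + T / 2 * Real.sin (T * (d + t)) * R (d + t)| /
              √(2 * Real.cosh (d + t) - 2 * Real.cosh d) ≤ C * (2 * d + t) / √(t * (2 * d + t)) :=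
              div_le_div₀ (by positivity) g3 g2 g1
          _ ≤ C * (1 + t ^ (-(1 / 2) : ℝ)) := by
              rw [div_le_iff₀ g2, Real.rpow_neg ht0.le, ← Real.sqrt_eq_rpow, mul_assoc]
              refine mul_le_mul_of_nonneg_left ?_ hC.le
              have hst : 0 < √t := Real.sqrt_pos.2 ht0
              have hs2 : 0 < √(2 * d + t) := Real.sqrt_pos.2 (by positivity)
              rw [Real.sqrt_mul ht0.le]
              have e1 : (1 + (√t)⁻¹) * (√t * √(2 * d + t)) = (√t + 1) * √(2 * d + t) := by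
                field_simp
              rw [e1]
              have e2 : √(2 * d + t) ≤ √t + 1 := by
                rw [Real.sqrt_le_left (by positivity)]
                nlinarith [Real.sq_sqrt ht0.le]
              calc 2 * d + t = √(2 * d + t) * √(2 * d + t) := (Real.mul_self_sqrt (by positivity)).symm
                _ ≤ (√t + 1) * √(2 * d + t) := mul_le_mul_of_nonneg_right e2 hs2.le
      · have e1 : φ (d + t) = 0 := h2 _ (not_le.1 h)
        have e2 : R (d + t) = 0 := h3 _ (by rw [abs_of_pos (by linarith)]; linarith)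
        rw [e1, e2]
        simp only [mul_zero, add_zero, zero_div, norm_zero]
        refine indicator_nonneg (fun x hx => ?_) t
        have : 0 ≤ x ^ (-(1 / 2) : ℝ) := Real.rpow_nonneg hx.1.le _
        positivity
  have hval : ∫ t in Ioi (0 : ℝ), (Ioc (0 : ℝ) (1 / 2)).indicator
        (fun t : ℝ => C * (1 + t ^ (-(1 / 2) : ℝ))) t ≤ C * 2 := by
    rw [setIntegral_indicator measurableSet_Ioc]
    have e1 : Ioi (0 : ℝ) ∩ Ioc 0 (1 / 2) = Ioc 0 (1 / 2) :=
      inter_eq_right.2 fun x hx => hx.1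
    rw [e1, integral_const_mul]
    refine mul_le_mul_of_nonneg_left ?_ hC.le
    rw [integral_add (by simp) K4_rpow]
    have := K4_rpow_integral
    simp only [integral_const, smul_eq_mul, mul_one]
    have e2 : (volume.restrict (Ioc (0 : ℝ) (1 / 2))).real univ = 1 / 2 := by
      simp [Measure.real]
    rw [e2]
    linarith
  rw [← Real.norm_eq_abs]
  have h6 := hbound.trans hval
  calc 1 / Real.pi * ‖∫ t in Ioi (0 : ℝ), (φ (d + t) / √(2 * Real.cosh (d + t) - 2 * Real.cosh d) +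
        T / 2 * ((Real.sin (T * (d + t)) * R (d + t)) /
      √(2 * Real.cosh (d + t) - 2 * Real.cosh d)))‖ ≤ 1 / Real.pi * (C * 2) :=
        mul_le_mul_of_nonneg_left h6 (by positivity)
    _ ≤ C := by
        rw [one_div, inv_mul_le_iff₀ (by positivity)]
        nlinarith

end K4core

theorem kernel_main : ∃ (R : ℝ → ℝ) (C : ℝ), 0 < C ∧ ContDiff ℝ 2 R ∧ (∀ b, 1 / 2 ≤ |b| → R b = 0) ∧
    (∀ b, |R b| ≤ C ∧ |deriv R b| ≤ C ∧ |deriv (deriv R) b| ≤ C) ∧
    ∀ T : ℝ, 1 ≤ T → ∀ z w : ℍ, 1 / T ≤ dist z w →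
      |KK (kd (gT4 T)) z w - (wv (AA R T) T (dist z w)).re| ≤ C := by
  obtain ⟨R, C, hC, hR2, hRs, hRb, hcv⟩ := cv4
  obtain ⟨B, hB, hEV⟩ := EV4
  refine ⟨R, C, hC, hR2, hRs, hRb, fun T hT z w hd => ?_⟩
  have hT0 : 0 < T := by linarith
  have hd0 : 0 < dist z w := lt_of_lt_of_le (by positivity) hd
  rw [KK_eq_kas, kas_formula (hEV T hT) hd0]
  unfold wv AA
  refine K4_core (M := 1 * (B * T) * (2 * (1 / 4))) (measurable_deriv _) hR2.continuous.measurable hC hT hd
    (hcv T hT) ?_ hRs ?_ (fun b => (hRb b).1)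
  · intro b hb
    refine (hEV T hT).cv.deriv_supp ?_
    rw [abs_of_pos (by linarith)]
    linarith
  · exact (hEV T hT).cv.b1

end Pool.Agent.H19.Sup
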