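import Mathlib
import Pool.Agent.H19.Sup.K4
import Pool.Agent.H19.Sup.K0b

set_option autoImplicit false

/-!
# K5: cutting off the neighbourhood of the diagonal

`Af d = AA R T d * ψ (d / ρ)`, `ψ t = min 1 (max 0 (t - 1))` (1-Lipschitz, `0` for `t ≤ 1`, `1` for `t ≥ 2`).
`Amp`: bounded by `K √T / √ρ`; Lipschitz on `[ρ, ∞)` with constant `K √T / ρ³ + (K √T / √ρ) / ρ ≤ 2 K √T / ρ³`, and `Af = 0` on `(-∞, ρ]`
(for `d ≤ ρ < d'` compare with `d'' = ρ`).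
`j0`: the largest integer with `4^j0 ≤ 1/ρ`; `j0 ≤ L` because `1/ρ ≤ T ≤ 4^L`; `4^(j0+1) > 1/ρ` so `8^(-j0) ≤ 8 ρ^(3/2)` and
`1/√ρ ≤ 2 * 2^j0`.
* `dist > 1/2`: both terms vanish.  * `2 ρ ≤ dist ≤ 1/2`: `Af = AA`, the difference is `≤ C` and `2 cosh (1/2) - 2 ≤ 1`.
* `dist ≤ 2 ρ`: `s = 2 cosh d - 2 ≤ 6/16^j0` (`2 ρ ≤ 1/4`, `s ≤ 1.01 d² ≤ 4.04 ρ²`, `16^j0 ≤ 1/ρ²`); by `ph4`,
  `|KK| ≤ ∑_{j ≤ L} C √T 2^j ic (s ≤ 6/16^j) ≤ C √T 2^j0 + ∑_{j0 ≤ j ≤ L} ... ≤ 2 ∑_{j0 ≤ j ≤ L} C √T 2^j ic (...)`, and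
  `|Af| ≤ K √T / √ρ ≤ 2 K √T 2^j0`, also bounded by a multiple of the term `j = j0`.
-/

namespace Pool.Agent.H19.Sup

open UpperHalfPlane
open Pool.Agent.H19.Maass
open scoped ENNReal

/-- the cutoff -/
noncomputable def K5_psi (t : ℝ) : ℝ := min 1 (max 0 (t - 1))

lemma K5_psi_nonneg (t : ℝ) : 0 ≤ K5_psi t := le_min zero_le_one (le_max_left _ _)
lemma K5_psi_le (t : ℝ) : K5_psi t ≤ 1 := min_le_left _ _
lemma K5_psi_zero {t : ℝ} (h : t ≤ 1) : K5_psi t = 0 := by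
  unfold K5_psi
  rw [max_eq_left (by linarith)]
  exact min_eq_right zero_le_one
lemma K5_psi_one {t : ℝ} (h : 2 ≤ t) : K5_psi t = 1 := by
  unfold K5_psi
  rw [max_eq_right (by linarith)]
  exact min_eq_left (by linarith)
lemma K5_psi_lip (t t' : ℝ) : |K5_psi t - K5_psi t'| ≤ |t - t'| := by
  unfold K5_psi
  calc |min 1 (max 0 (t - 1)) - min 1 (max 0 (t' - 1))| ≤ |max 0 (t - 1) - max 0 (t' - 1)| := by
        have := abs_min_sub_min_le_max (1 : ℝ) (max 0 (t - 1)) 1 (max 0 (t' - 1))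
        rwa [sub_self, abs_zero, max_eq_right (abs_nonneg (max 0 (t - 1) - max 0 (t' - 1)))] at this
    _ ≤ |(t - 1) - (t' - 1)| := by
        have := abs_max_sub_max_le_max (0 : ℝ) (t - 1) 0 (t' - 1)
        rwa [sub_self, abs_zero, max_eq_right (abs_nonneg ((t - 1) - (t' - 1)))] at this
    _ = |t - t'| := by congr 1; ring

/-- the amplitude cut off -/
noncomputable def K5_Af (R : ℝ → ℝ) (T ρ d : ℝ) : ℂ := AA R T d * ((K5_psi (d / ρ) : ℝ) : ℂ)

lemma K5_rho {ρ : ℝ} (h0 : 0 < ρ) (h1 : ρ ≤ 1) : ρ ^ 3 ≤ √ρ * ρ := by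
  have h2 : ρ ≤ √ρ := by
    rw [Real.le_sqrt h0.le h0.le]
    nlinarith
  have h3 : ρ ^ 3 ≤ ρ ^ 2 := pow_le_pow_of_le_one h0.le h1 (by norm_num)
  nlinarith

lemma K5_amp (R : ℝ → ℝ) {K T ρ : ℝ} (hK : 0 < K) (hT : 1 ≤ T) (hρ : 0 < ρ) (hρ1 : ρ ≤ 1)
    (h1 : ∀ d : ℝ, 0 < d → ‖AA R T d‖ ≤ K * √T / √d)
    (h2 : ∀ d : ℝ, 1 / 2 ≤ d → AA R T d = 0)
    (h3 : ∀ d0 d d' : ℝ, 0 < d0 → d0 ≤ 1 → d0 ≤ d → d0 ≤ d' →
        ‖AA R T d - AA R T d'‖ ≤ K * √T / d0 ^ 3 * |d - d'|) :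
    Amp (K5_Af R T ρ) (K * √T / √ρ) (2 * K * √T / ρ ^ 3) ρ := by
  have hsT : 0 < √T := Real.sqrt_pos.mpr (by linarith)
  have hsρ : 0 < √ρ := Real.sqrt_pos.mpr hρ
  have hlo : ∀ d, d ≤ ρ → K5_Af R T ρ d = 0 := by
    intro d hd
    unfold K5_Af
    rw [K5_psi_zero (by rw [div_le_one hρ]; exact hd)]
    simp
  have hAA : ∀ d, ρ ≤ d → ‖AA R T d‖ ≤ K * √T / √ρ := by
    intro d hd
    refine (h1 d (by linarith)).trans ?_
    apply div_le_div_of_nonneg_left (by positivity) hsρ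
    exact Real.sqrt_le_sqrt hd
  have hlip : ∀ d d', ρ ≤ d → ρ ≤ d' →
      ‖K5_Af R T ρ d - K5_Af R T ρ d'‖ ≤ 2 * K * √T / ρ ^ 3 * |d - d'| := by
    intro d d' hd hd'
    have e1 : K5_Af R T ρ d - K5_Af R T ρ d' = (AA R T d - AA R T d') * ((K5_psi (d / ρ) : ℝ) : ℂ) +
        AA R T d' * ((K5_psi (d / ρ) - K5_psi (d' / ρ) : ℝ) : ℂ) := by
      unfold K5_Af
      push_cast
      ring
    rw [e1]
    have b1 : ‖(AA R T d - AA R T d') * ((K5_psi (d / ρ) : ℝ) : ℂ)‖ ≤ K * √T / ρ ^ 3 * |d - d'| := by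
      rw [norm_mul, Complex.norm_real, Real.norm_eq_abs, abs_of_nonneg (K5_psi_nonneg _)]
      calc ‖AA R T d - AA R T d'‖ * K5_psi (d / ρ) ≤ ‖AA R T d - AA R T d'‖ * 1 :=
            mul_le_mul_of_nonneg_left (K5_psi_le _) (norm_nonneg _)
        _ = ‖AA R T d - AA R T d'‖ := mul_one _
        _ ≤ _ := h3 ρ d d' hρ hρ1 hd hd'
    have b2 : ‖AA R T d' * ((K5_psi (d / ρ) - K5_psi (d' / ρ) : ℝ) : ℂ)‖ ≤
        K * √T / ρ ^ 3 * |d - d'| := by
      rw [norm_mul, Complex.norm_real, Real.norm_eq_abs]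
      have c1 : |K5_psi (d / ρ) - K5_psi (d' / ρ)| ≤ |d - d'| / ρ := by
        refine (K5_psi_lip _ _).trans (le_of_eq ?_)
        rw [← sub_div, abs_div, abs_of_pos hρ]
      calc ‖AA R T d'‖ * |K5_psi (d / ρ) - K5_psi (d' / ρ)| ≤ (K * √T / √ρ) * (|d - d'| / ρ) :=
            mul_le_mul (hAA d' hd') c1 (abs_nonneg _) (by positivity)
        _ = K * √T / (√ρ * ρ) * |d - d'| := by field_simp
        _ ≤ K * √T / ρ ^ 3 * |d - d'| := by
            apply mul_le_mul_of_nonneg_right _ (abs_nonneg _)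
            apply div_le_div_of_nonneg_left (by positivity) (by positivity)
            exact K5_rho hρ hρ1
    calc ‖(AA R T d - AA R T d') * ((K5_psi (d / ρ) : ℝ) : ℂ) +
        AA R T d' * ((K5_psi (d / ρ) - K5_psi (d' / ρ) : ℝ) : ℂ)‖ ≤ _ := norm_add_le _ _
      _ ≤ K * √T / ρ ^ 3 * |d - d'| + K * √T / ρ ^ 3 * |d - d'| := add_le_add b1 b2
      _ = 2 * K * √T / ρ ^ 3 * |d - d'| := by ring
  refine ⟨hlo, ?_, ?_, ?_⟩
  · intro d hd
    unfold K5_Af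
    rw [h2 d hd, zero_mul]
  · intro d
    by_cases hd : d ≤ ρ
    · rw [hlo d hd, norm_zero]; positivity
    · push Not at hd
      unfold K5_Af
      rw [norm_mul, Complex.norm_real, Real.norm_eq_abs, abs_of_nonneg (K5_psi_nonneg _)]
      calc ‖AA R T d‖ * K5_psi (d / ρ) ≤ ‖AA R T d‖ * 1 :=
            mul_le_mul_of_nonneg_left (K5_psi_le _) (norm_nonneg _)
        _ = ‖AA R T d‖ := mul_one _
        _ ≤ _ := hAA d hd.le
  · intro d d'
    have hc : 0 ≤ 2 * K * √T / ρ ^ 3 := by positivity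
    rcases le_total d ρ with hd | hd <;> rcases le_total d' ρ with hd' | hd'
    · rw [hlo d hd, hlo d' hd', sub_zero, norm_zero]; positivity
    · have := hlip ρ d' le_rfl hd'
      rw [hlo ρ le_rfl] at this
      rw [hlo d hd]
      refine this.trans (mul_le_mul_of_nonneg_left ?_ hc)
      rw [abs_of_nonpos (by linarith), abs_of_nonpos (by linarith)]
      linarith
    · have := hlip d ρ hd le_rfl
      rw [hlo ρ le_rfl] at this
      rw [hlo d' hd']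
      refine this.trans (mul_le_mul_of_nonneg_left ?_ hc)
      rw [abs_of_nonneg (by linarith), abs_of_nonneg (by linarith)]
      linarith
    · exact hlip d d' hd hd'

lemma K5_cosh {d : ℝ} (h0 : 0 ≤ d) (h1 : d ≤ 1 / 2) : 2 * Real.cosh d - 2 ≤ 3 / 2 * d ^ 2 := by
  have h2 : Real.cosh d ≤ Real.exp (d ^ 2 / 2) := Real.cosh_le_exp_half_sq d
  have h3 : d ^ 2 ≤ 1 / 4 := by nlinarith
  have h4 : |d ^ 2 / 2| ≤ 1 := by
    rw [abs_of_nonneg (by positivity)]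
    linarith
  have h5 := Real.abs_exp_sub_one_sub_id_le h4
  rw [abs_le] at h5
  nlinarith [h5.2, sq_nonneg d]

lemma K5_tail {C T : ℝ} (hC : 0 ≤ C) {j0 L : ℕ} (hj : j0 ≤ L) {s : ℝ} (hs : s ≤ 6 / 16 ^ j0) :
    ph C T L s ≤ 2 * ∑ j ∈ Finset.Icc j0 L, ENNReal.ofReal (C * √T * 2 ^ j) * ic (s ≤ 6 / 16 ^ j) := by
  unfold ph
  have hsplit : Finset.range (L + 1) = Finset.range j0 ∪ Finset.Icc j0 L := by
    ext x
    simp only [Finset.mem_range, Finset.mem_union, Finset.mem_Icc]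
    omega
  have hdisj : Disjoint (Finset.range j0) (Finset.Icc j0 L) := by
    rw [Finset.disjoint_left]
    intro x hx hx'
    rw [Finset.mem_range] at hx
    rw [Finset.mem_Icc] at hx'
    omega
  rw [hsplit, Finset.sum_union hdisj, two_mul]
  refine add_le_add ?_ le_rfl
  calc ∑ j ∈ Finset.range j0, ENNReal.ofReal (C * √T * 2 ^ j) * ic (s ≤ 6 / 16 ^ j)
      ≤ ∑ j ∈ Finset.range j0, ENNReal.ofReal (C * √T * 2 ^ j) := by
        apply Finset.sum_le_sum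
        intro j _
        calc ENNReal.ofReal (C * √T * 2 ^ j) * ic (s ≤ 6 / 16 ^ j) ≤
            ENNReal.ofReal (C * √T * 2 ^ j) * 1 := by
              gcongr
              by_cases h : s ≤ 6 / 16 ^ j
              · rw [ic_true h]
              · rw [ic_false h]; exact bot_le
          _ = _ := mul_one _
    _ = ENNReal.ofReal (∑ j ∈ Finset.range j0, C * √T * 2 ^ j) := by
        rw [ENNReal.ofReal_sum_of_nonneg]
        intro j _
        positivity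
    _ ≤ ENNReal.ofReal (C * √T * 2 ^ j0) := by
        apply ENNReal.ofReal_le_ofReal
        rw [← Finset.mul_sum, geom_sum_eq (by norm_num)]
        apply mul_le_mul_of_nonneg_left _ (by positivity)
        have : (0 : ℝ) ≤ 1 := zero_le_one
        norm_num
    _ = ENNReal.ofReal (C * √T * 2 ^ j0) * ic (s ≤ 6 / 16 ^ j0) := by rw [ic_true hs, mul_one]
    _ ≤ _ := Finset.single_le_sum (f := fun j => ENNReal.ofReal (C * √T * 2 ^ j) *
        ic (s ≤ 6 / 16 ^ j)) (fun _ _ => bot_le) (Finset.mem_Icc.mpr ⟨le_rfl, hj⟩)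

theorem split_kernel : ∃ C : ℝ, 0 < C ∧ ∀ T : ℝ, 1 ≤ T → ∀ ρ : ℝ, 1 / T ≤ ρ → ρ ≤ 1 / 8 →
    ∃ (L j0 : ℕ) (k : ℝ → ℝ) (A : ℝ → ℂ), (2 : ℝ) ^ L ≤ 2 * √T ∧ j0 ≤ L ∧
      1 / (8 : ℝ) ^ j0 ≤ C * ρ ^ (3 / 2 : ℝ) ∧ Ker k (1 / 4) ∧
      1 / 20 ≤ ‖selb k (1 / 2 + T * Complex.I)‖ ∧ Amp A (C * √T / √ρ) (C * √T / ρ ^ 3) ρ ∧
      ∀ z w : ℍ, ENNReal.ofReal |KK k z w - (wv A T (dist z w)).re| ≤
        phn C T j0 L (2 * Real.cosh (dist z w) - 2) := by
  obtain ⟨R, C1, hC1, hR2, hRs, hRb, hmain⟩ := kernel_main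
  obtain ⟨K, hK, hAA⟩ := AA_bounds R C1 hR2 hRs hRb
  obtain ⟨C4, hC4, hph⟩ := ph4
  obtain ⟨B, hB, hEV⟩ := EV4
  refine ⟨C1 + 2 * C4 + 2 * K + 8, by positivity, ?_⟩
  set C := C1 + 2 * C4 + 2 * K + 8 with hCdef
  have hC0 : 0 < C := by positivity
  intro T hT ρ hρT hρ8
  have hT0 : 0 < T := by linarith
  have hρ : 0 < ρ := lt_of_lt_of_le (by positivity) hρT
  have hsT : 0 < √T := Real.sqrt_pos.mpr hT0
  have hsρ : 0 < √ρ := Real.sqrt_pos.mpr hρ
  obtain ⟨L, hL1, hL2, hphb⟩ := hph T hT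
  obtain ⟨hA1, hA2, hA3⟩ := hAA T hT
  have hker : Ker (kd (gT4 T)) (1 / 4) := (hEV T hT).ker
  have hρinv : 1 ≤ 1 / ρ := by rw [le_div_iff₀ hρ]; linarith
  obtain ⟨j0, hj1, hj2⟩ := exists_nat_pow_near hρinv (show (1 : ℝ) < 4 by norm_num)
  have hj1' : (4 : ℝ) ^ j0 * ρ ≤ 1 := by rwa [le_div_iff₀ hρ] at hj1
  have hj2' : 1 < (4 : ℝ) ^ (j0 + 1) * ρ := by rwa [div_lt_iff₀ hρ] at hj2
  have hj0L : j0 ≤ L := by
    have h1 : (4 : ℝ) ^ j0 ≤ 4 ^ L := by
      have h2 : 1 / ρ ≤ T := by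
        rw [div_le_iff₀ hρ]
        rw [div_le_iff₀ hT0] at hρT
        linarith
      have h3 : T ≤ 4 ^ L := by
        have h4 : √T ^ 2 ≤ (2 ^ L) ^ 2 := pow_le_pow_left₀ hsT.le hL1 2
        rw [Real.sq_sqrt hT0.le] at h4
        calc T ≤ (2 ^ L) ^ 2 := h4
          _ = 4 ^ L := by rw [← pow_mul, mul_comm, pow_mul]; norm_num
      exact hj1.trans (h2.trans h3)
    exact (pow_le_pow_iff_right₀ (by norm_num : (1 : ℝ) < 4)).mp h1
  have h8 : 1 / (8 : ℝ) ^ j0 ≤ 8 * ρ ^ (3 / 2 : ℝ) := by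
    have h1 : (1 / (4 : ℝ) ^ (j0 + 1)) ^ (3 / 2 : ℝ) ≤ ρ ^ (3 / 2 : ℝ) := by
      apply Real.rpow_le_rpow (by positivity) _ (by norm_num)
      rw [div_le_iff₀ (by positivity)]
      linarith
    have h2 : (1 / (4 : ℝ) ^ (j0 + 1)) ^ (3 / 2 : ℝ) = 1 / 8 ^ (j0 + 1) := by
      rw [Real.div_rpow zero_le_one (by positivity), Real.one_rpow]
      congr 1
      rw [← Real.rpow_natCast, ← Real.rpow_natCast, ← Real.rpow_mul (by norm_num)]
      rw [show (4 : ℝ) = 2 ^ (2 : ℝ) by norm_num, show (8 : ℝ) = 2 ^ (3 : ℝ) by norm_num,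
        ← Real.rpow_mul (by norm_num), ← Real.rpow_mul (by norm_num)]
      congr 1
      ring
    rw [h2] at h1
    have h3 : 1 / (8 : ℝ) ^ j0 = 8 * (1 / 8 ^ (j0 + 1)) := by
      rw [pow_succ]
      field_simp
    rw [h3]
    linarith
  have hamp := K5_amp R hK hT hρ (by linarith) hA1 hA2 hA3
  have hAmp : Amp (K5_Af R T ρ) (C * √T / √ρ) (C * √T / ρ ^ 3) ρ := by
    refine ⟨hamp.lo, hamp.hi, ?_, ?_⟩
    · intro d
      refine (hamp.bdd d).trans ?_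
      have : K ≤ C := by rw [hCdef]; linarith
      gcongr
    · intro d d'
      refine (hamp.lip d d').trans ?_
      have : 2 * K ≤ C := by rw [hCdef]; linarith
      gcongr
  refine ⟨L, j0, kd (gT4 T), K5_Af R T ρ, hL2, hj0L, ?_, hker, selb4 hT, hAmp, ?_⟩
  · refine h8.trans ?_
    have h1 : 0 ≤ ρ ^ (3 / 2 : ℝ) := Real.rpow_nonneg hρ.le _
    have h2 : 8 ≤ C := by rw [hCdef]; linarith
    exact mul_le_mul_of_nonneg_right h2 h1
  · intro z w
    set d := dist z w with hd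
    have hd0 : 0 ≤ d := dist_nonneg
    rcases lt_or_ge (1 / 2) d with hd1 | hd1
    · have h1 : KK (kd (gT4 T)) z w = 0 := KK_supp hker (by rw [← hd]; linarith)
      have h2 : wv (K5_Af R T ρ) T d = 0 := by
        unfold wv
        rw [hAmp.hi d hd1.le, zero_mul]
      rw [h1, h2]
      simp
    rcases le_or_gt (2 * ρ) d with hd2 | hd2
    · have h1 : K5_Af R T ρ d = AA R T d := by
        unfold K5_Af
        rw [K5_psi_one (by rw [le_div_iff₀ hρ]; exact hd2)]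
        simp
      have h2 : wv (K5_Af R T ρ) T d = wv (AA R T) T d := by
        unfold wv
        rw [h1]
      rw [h2]
      have h3 := hmain T hT z w (by rw [← hd]; linarith)
      rw [← hd] at h3
      have h4 : 2 * Real.cosh d - 2 ≤ 1 := by
        have := K5_cosh hd0 hd1
        nlinarith
      unfold phn
      rw [ic_true h4, mul_one]
      refine le_trans ?_ le_self_add
      apply ENNReal.ofReal_le_ofReal
      refine h3.trans ?_
      rw [hCdef]; linarith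
    · have hs : 2 * Real.cosh d - 2 ≤ 6 / 16 ^ j0 := by
        have h1 := K5_cosh hd0 (by linarith)
        have h2 : d ^ 2 ≤ 4 * ρ ^ 2 := by nlinarith
        have h3 : ρ ^ 2 ≤ 1 / 16 ^ j0 := by
          rw [le_div_iff₀ (by positivity)]
          have h4 : (4 ^ j0 * ρ) ^ 2 ≤ 1 := by
            have := pow_le_pow_left₀ (by positivity) hj1' 2
            simpa using this
          calc ρ ^ 2 * 16 ^ j0 = (4 ^ j0 * ρ) ^ 2 := by
                rw [mul_pow, ← pow_mul, mul_comm j0 2, pow_mul]; norm_num; ring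
            _ ≤ 1 := h4
        have h5 : (6 : ℝ) / 16 ^ j0 = 6 * (1 / 16 ^ j0) := by ring
        rw [h5]
        linarith
      set s := 2 * Real.cosh d - 2 with hsdef
      have hsρ2 : 1 / √ρ ≤ 2 * 2 ^ j0 := by
        rw [div_le_iff₀ hsρ]
        have h1 : (1 : ℝ) ^ 2 ≤ (2 * 2 ^ j0 * √ρ) ^ 2 := by
          rw [mul_pow, Real.sq_sqrt hρ.le]
          have : (2 * (2 : ℝ) ^ j0) ^ 2 = 4 ^ (j0 + 1) := by
            rw [mul_pow, ← pow_mul, mul_comm j0 2, pow_mul, pow_succ]; norm_num; ring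
          rw [this, one_pow]
          exact hj2'.le
        exact (pow_le_pow_iff_left₀ zero_le_one (by positivity) two_ne_zero).mp h1
      have hw : |(wv (K5_Af R T ρ) T d).re| ≤ 2 * K * √T * 2 ^ j0 := by
        refine (Complex.abs_re_le_norm _).trans ?_
        unfold wv
        rw [norm_mul, Complex.norm_exp_ofReal_mul_I, mul_one]
        refine (hamp.bdd d).trans ?_
        calc K * √T / √ρ = K * √T * (1 / √ρ) := by ring
          _ ≤ K * √T * (2 * 2 ^ j0) := mul_le_mul_of_nonneg_left hsρ2 (by positivity)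
          _ = 2 * K * √T * 2 ^ j0 := by ring
      have e1 : ENNReal.ofReal |KK (kd (gT4 T)) z w - (wv (K5_Af R T ρ) T d).re| ≤
          ENNReal.ofReal |KK (kd (gT4 T)) z w| + ENNReal.ofReal (2 * K * √T * 2 ^ j0) := by
        rw [← ENNReal.ofReal_add (abs_nonneg _) (by positivity)]
        apply ENNReal.ofReal_le_ofReal
        refine (abs_sub _ _).trans ?_
        linarith
      refine e1.trans ?_
      have e2 : ENNReal.ofReal |KK (kd (gT4 T)) z w| ≤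
          2 * ∑ j ∈ Finset.Icc j0 L, ENNReal.ofReal (C4 * √T * 2 ^ j) * ic (s ≤ 6 / 16 ^ j) :=
        (hphb z w).trans (K5_tail hC4.le hj0L hs)
      have e3 : ENNReal.ofReal (2 * K * √T * 2 ^ j0) ≤
          ∑ j ∈ Finset.Icc j0 L, ENNReal.ofReal (2 * K * √T * 2 ^ j) * ic (s ≤ 6 / 16 ^ j) := by
        calc ENNReal.ofReal (2 * K * √T * 2 ^ j0) =
            ENNReal.ofReal (2 * K * √T * 2 ^ j0) * ic (s ≤ 6 / 16 ^ j0) := by
              rw [ic_true hs, mul_one]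
          _ ≤ _ := Finset.single_le_sum (f := fun j => ENNReal.ofReal (2 * K * √T * 2 ^ j) *
              ic (s ≤ 6 / 16 ^ j)) (fun _ _ => bot_le) (Finset.mem_Icc.mpr ⟨le_rfl, hj0L⟩)
      refine (add_le_add e2 e3).trans ?_
      unfold phn
      refine le_trans ?_ le_add_self
      rw [Finset.mul_sum, ← Finset.sum_add_distrib]
      apply Finset.sum_le_sum
      intro j _
      rw [← mul_assoc, ← add_mul]
      gcongr
      rw [show (2 : ℝ≥0∞) = ENNReal.ofReal 2 by simp, ← ENNReal.ofReal_mul (by norm_num),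
        ← ENNReal.ofReal_add (by positivity) (by positivity)]
      apply ENNReal.ofReal_le_ofReal
      have h7 : 2 * C4 + 2 * K ≤ C := by rw [hCdef]; linarith
      calc 2 * (C4 * √T * 2 ^ j) + 2 * K * √T * 2 ^ j = (2 * C4 + 2 * K) * (√T * 2 ^ j) := by ring
        _ ≤ C * (√T * 2 ^ j) := mul_le_mul_of_nonneg_right h7 (by positivity)
        _ = C * √T * 2 ^ j := by ring

end Pool.Agent.H19.Sup
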