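import Mathlib
import Pool.Agent.H19.Sup.Defs2

set_option autoImplicit false

/-!
# C1: heights and the number of cusps of given height

`sec_col`: from `Classical.choose_spec` of `IsCoprime.exists_SL2_col`.
`ht_eq`: `(sec e)⁻¹` has bottom row `(-e.2, e.1)`, and `(g • w).im = w.im / |g 1 0 * w + g 1 1|²`.
`ht_le`: if `e.2 = 0` then `e.1 = ±1`, `ht = w.im`; otherwise the denominator is at least `w.im²`, `ht ≤ 1 / w.im ≤ 2`.
`card_ht`: `|e.2| ≤ 1 / √(η w.im)`, `|e.1 - e.2 w.re| ≤ √(w.im / η)`.  If `e.2 = 0` then `e.1 = ±1`: at most 2.  If there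
is an element with `e.2 ≠ 0` then `1 ≤ 1 / √(η w.im)`; the number of those is at most
`(2 / √(η w.im)) (2 √(w.im / η) + 1) = 4 / η + 2 / √(η w.im) ≤ 4/η + 2/(η w.im) ≤ 8/η`.
-/

namespace Pool.Agent.H19.Sup

open UpperHalfPlane
open scoped MatrixGroups

theorem sec_col {e : ℤ × ℤ} (he : IsCoprime e.1 e.2) :
    (sec e) 0 0 = e.1 ∧ (sec e) 1 0 = e.2 := by
  unfold sec
  rw [dif_pos he]
  exact Classical.choose_spec (he.exists_SL2_col (0 : Fin 2))

theorem ht_pos (e : ℤ × ℤ) (w : ℍ) : 0 < ht e w := UpperHalfPlane.im_pos _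

theorem ht_eq {e : ℤ × ℤ} (he : IsCoprime e.1 e.2) (w : ℍ) :
    ht e w = w.im / (((e.1 : ℝ) - e.2 * w.re) ^ 2 + ((e.2 : ℝ) * w.im) ^ 2) := by
  obtain ⟨h0, h1⟩ := sec_col he
  unfold ht
  rw [ModularGroup.im_smul_eq_div_normSq, ModularGroup.denom_apply]
  have h10 : ((sec e)⁻¹ : SL(2, ℤ)) 1 0 = -e.2 := by
    rw [Matrix.SpecialLinearGroup.SL2_inv_expl]
    simpa using h1
  have h11 : ((sec e)⁻¹ : SL(2, ℤ)) 1 1 = e.1 := by
    rw [Matrix.SpecialLinearGroup.SL2_inv_expl]
    simpa using h0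
  rw [h10, h11]
  congr 1
  rw [Complex.normSq_apply]
  simp only [Complex.add_re, Complex.add_im, Complex.mul_re, Complex.mul_im, Complex.intCast_re,
    Complex.intCast_im, UpperHalfPlane.coe_re, UpperHalfPlane.coe_im, Int.cast_neg, Complex.neg_re,
    Complex.neg_im]
  ring

theorem ht_le {e : ℤ × ℤ} (he : IsCoprime e.1 e.2) (w : ℍ) (hw : 1 / 2 ≤ w.im) :
    ht e w ≤ max w.im 2 := by
  rw [ht_eq he]
  have hy : 0 < w.im := w.im_pos
  by_cases h2 : e.2 = 0
  · apply le_max_of_le_left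
    have h1 : IsUnit e.1 := by
      rw [h2] at he
      exact isCoprime_zero_right.mp he
    have h3 : (e.1 : ℝ) ^ 2 = 1 := by
      rcases Int.isUnit_iff.mp h1 with h | h <;> rw [h] <;> norm_num
    rw [h2]
    simp only [Int.cast_zero, zero_mul, sub_zero]
    rw [h3]
    norm_num
  · apply le_max_of_le_right
    have h3 : (1 : ℝ) ≤ (e.2 : ℝ) ^ 2 := by
      have : (1 : ℤ) ≤ e.2 ^ 2 := by
        have := sq_pos_of_ne_zero h2
        omega
      exact_mod_cast this
    have h4 : w.im ^ 2 ≤ ((e.1 : ℝ) - e.2 * w.re) ^ 2 + ((e.2 : ℝ) * w.im) ^ 2 := by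
      rw [mul_pow]
      nlinarith [sq_nonneg ((e.1 : ℝ) - e.2 * w.re), sq_nonneg w.im]
    have h5 : 0 < w.im ^ 2 := by positivity
    calc w.im / (((e.1 : ℝ) - e.2 * w.re) ^ 2 + ((e.2 : ℝ) * w.im) ^ 2)
        ≤ w.im / w.im ^ 2 := div_le_div_of_nonneg_left hy.le h5 h4
      _ ≤ 2 := by
          rw [div_le_iff₀ h5]
          nlinarith

theorem C1_int (G : Finset ℤ) (c B : ℝ) (hB : 0 ≤ B) (hG : ∀ n ∈ G, |(n : ℝ) - c| ≤ B) :
    (G.card : ℝ) ≤ 2 * B + 1 := by
  have hsub : G ⊆ Finset.Icc ⌈c - B⌉ ⌊c + B⌋ := by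
    intro n hn
    have h := abs_le.mp (hG n hn)
    rw [Finset.mem_Icc]
    constructor
    · rw [Int.ceil_le]; linarith
    · rw [Int.le_floor]; linarith
  have hc := Finset.card_le_card hsub
  rw [Int.card_Icc] at hc
  have h1 : (((⌊c + B⌋ + 1 - ⌈c - B⌉).toNat : ℤ) : ℝ) ≤ 2 * B + 1 := by
    rcases le_or_gt 0 (⌊c + B⌋ + 1 - ⌈c - B⌉) with h | h
    · rw [Int.toNat_of_nonneg h]
      push_cast
      have h2 := Int.floor_le (c + B)
      have h3 := Int.le_ceil (c - B)
      linarith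
    · rw [Int.toNat_eq_zero.mpr h.le]
      simp only [Nat.cast_zero, Int.cast_zero]
      linarith
  calc (G.card : ℝ) ≤ ((⌊c + B⌋ + 1 - ⌈c - B⌉).toNat : ℝ) := by exact_mod_cast hc
    _ = (((⌊c + B⌋ + 1 - ⌈c - B⌉).toNat : ℤ) : ℝ) := by norm_cast
    _ ≤ 2 * B + 1 := h1

theorem card_ht (w : ℍ) (hw : 1 / 2 ≤ w.im) {η : ℝ} (hη : 0 < η) (F : Finset (ℤ × ℤ))
    (hF : ∀ e ∈ F, IsCoprime e.1 e.2 ∧ η ≤ ht e w) : (F.card : ℝ) ≤ 8 / η + 2 := by
  classical
  have hy : 0 < w.im := w.im_pos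
  set F0 := F.filter (fun e => e.2 = 0) with hF0
  set F1 := F.filter (fun e => ¬ e.2 = 0) with hF1
  have hsplit : F0.card + F1.card = F.card := Finset.card_filter_add_card_filter_not _
  have h0 : F0.card ≤ 2 := by
    have hsub : F0 ⊆ {((1 : ℤ), (0 : ℤ)), ((-1 : ℤ), (0 : ℤ))} := by
      intro e he
      rw [hF0, Finset.mem_filter] at he
      have hc := (hF e he.1).1
      rw [he.2] at hc
      have hu : IsUnit e.1 := isCoprime_zero_right.mp hc
      rw [Finset.mem_insert, Finset.mem_singleton]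
      rcases Int.isUnit_iff.mp hu with h | h
      · left; exact Prod.ext h he.2
      · right; exact Prod.ext h he.2
    exact (Finset.card_le_card hsub).trans Finset.card_le_two
  have hkey : ∀ e ∈ F1, ((e.1 : ℝ) - e.2 * w.re) ^ 2 + ((e.2 : ℝ) * w.im) ^ 2 ≤ w.im / η ∧
      (1 : ℝ) ≤ (e.2 : ℝ) ^ 2 := by
    intro e he
    rw [hF1, Finset.mem_filter] at he
    obtain ⟨hc, hη'⟩ := hF e he.1
    rw [ht_eq hc] at hη'
    have h3 : (1 : ℝ) ≤ (e.2 : ℝ) ^ 2 := by
      have h2 := he.2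
      have : (1 : ℤ) ≤ e.2 ^ 2 := by
        have := sq_pos_of_ne_zero h2
        omega
      exact_mod_cast this
    have h4 : 0 < ((e.1 : ℝ) - e.2 * w.re) ^ 2 + ((e.2 : ℝ) * w.im) ^ 2 := by
      have : 0 < ((e.2 : ℝ) * w.im) ^ 2 := by
        rw [mul_pow]; positivity
      nlinarith [sq_nonneg ((e.1 : ℝ) - e.2 * w.re)]
    refine ⟨?_, h3⟩
    rw [le_div_iff₀ h4] at hη'
    rw [le_div_iff₀ hη]
    linarith
  have h1 : (F1.card : ℝ) ≤ 8 / η := by
    rcases F1.eq_empty_or_nonempty with hE | ⟨e0, he0⟩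
    · rw [hE]
      simp only [Finset.card_empty, Nat.cast_zero]
      positivity
    set A : ℝ := 1 / √(η * w.im) with hA
    set B : ℝ := √(w.im / η) with hB
    have hηy : 0 < η * w.im := mul_pos hη hy
    have hsq : 0 < √(η * w.im) := Real.sqrt_pos.mpr hηy
    have hA0 : 0 < A := by positivity
    have hB0 : 0 ≤ B := Real.sqrt_nonneg _
    have hAB : A * B = 1 / η := by
      have h5 : √(w.im / η) = √(η * w.im) / η := by
        rw [show w.im / η = (η * w.im) / η ^ 2 by field_simp, Real.sqrt_div hηy.le,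
          Real.sqrt_sq hη.le]
      rw [hA, hB, h5]
      field_simp
    have hAsq : A ^ 2 = 1 / (η * w.im) := by
      rw [hA, div_pow, one_pow, Real.sq_sqrt hηy.le]
    have hbd : ∀ e ∈ F1, |(e.2 : ℝ)| ≤ A ∧ |(e.1 : ℝ) - e.2 * w.re| ≤ B := by
      intro e he
      obtain ⟨h5, _⟩ := hkey e he
      constructor
      · apply abs_le_of_sq_le_sq _ hA0.le
        rw [hAsq, le_div_iff₀ hηy]
        have h6 : (e.2 : ℝ) ^ 2 * w.im ^ 2 ≤ w.im / η := by
          rw [← mul_pow]
          nlinarith [sq_nonneg ((e.1 : ℝ) - e.2 * w.re)]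
        rw [le_div_iff₀ hη] at h6
        have h7 : ((e.2 : ℝ) ^ 2 * (η * w.im)) * w.im ≤ 1 * w.im := by nlinarith
        exact le_of_mul_le_mul_right h7 hy
      · apply Real.abs_le_sqrt
        nlinarith [sq_nonneg ((e.2 : ℝ) * w.im)]
    have hA1 : 1 ≤ A := by
      obtain ⟨_, h5⟩ := hkey e0 he0
      have h6 := (hbd e0 he0).1
      have h7 : 1 ≤ |(e0.2 : ℝ)| := by
        rw [← one_le_sq_iff_one_le_abs]
        exact h5
      linarith
    have hn : ∀ b ∈ F1.image Prod.snd, (F1.filter (fun e => e.2 = b)).card ≤ ⌊2 * B + 1⌋₊ := by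
      intro b _
      apply Nat.le_floor
      have h5 : (F1.filter (fun e => e.2 = b)).card =
          ((F1.filter (fun e => e.2 = b)).image Prod.fst).card := by
        symm
        apply Finset.card_image_of_injOn
        intro e he e' he' hee
        rw [Finset.mem_coe, Finset.mem_filter] at he he'
        exact Prod.ext hee (he.2.trans he'.2.symm)
      rw [h5]
      apply C1_int _ ((b : ℝ) * w.re) B hB0
      intro n hn
      rw [Finset.mem_image] at hn
      obtain ⟨e, he, hen⟩ := hn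
      rw [Finset.mem_filter] at he
      have h6 := (hbd e he.1).2
      rw [hen, he.2] at h6
      exact h6
    have hcard := Finset.card_le_mul_card_image (f := Prod.snd) F1 ⌊2 * B + 1⌋₊ hn
    have himg : ((F1.image Prod.snd).card : ℝ) ≤ 2 * A := by
      have hsub : F1.image Prod.snd ⊆ (Finset.Icc (-(⌊A⌋₊ : ℤ)) (⌊A⌋₊ : ℤ)).erase 0 := by
        intro b hb
        rw [Finset.mem_image] at hb
        obtain ⟨e, he, heb⟩ := hb
        have h6 := (hbd e he).1
        rw [heb] at h6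
        rw [Finset.mem_erase, Finset.mem_Icc]
        have h7 : e.2 ≠ 0 := by
          rw [hF1, Finset.mem_filter] at he
          exact he.2
        rw [heb] at h7
        refine ⟨h7, ?_⟩
        have h8 : b.natAbs ≤ ⌊A⌋₊ := by
          apply Nat.le_floor
          rw [Nat.cast_natAbs, Int.cast_abs]
          exact h6
        omega
      have h9 := Finset.card_le_card hsub
      rw [Finset.card_erase_of_mem (by rw [Finset.mem_Icc]; omega), Int.card_Icc] at h9
      have h10 : ((F1.image Prod.snd).card : ℝ) ≤ ((2 * ⌊A⌋₊ : ℕ) : ℝ) := by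
        apply Nat.cast_le.mpr
        refine h9.trans ?_
        omega
      have h11 := Nat.floor_le hA0.le
      push_cast at h10
      linarith
    have hfl := Nat.floor_le (show 0 ≤ 2 * B + 1 by linarith)
    calc (F1.card : ℝ) ≤ ((⌊2 * B + 1⌋₊ * (F1.image Prod.snd).card : ℕ) : ℝ) := by
          exact_mod_cast hcard
      _ = (⌊2 * B + 1⌋₊ : ℝ) * ((F1.image Prod.snd).card : ℝ) := by push_cast; ring
      _ ≤ (2 * B + 1) * (2 * A) := by
          apply mul_le_mul hfl himg (Nat.cast_nonneg _) (by linarith)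
      _ = 4 * (1 / η) + 2 * A := by rw [← hAB]; ring
      _ ≤ 4 * (1 / η) + 2 * A ^ 2 := by nlinarith
      _ ≤ 4 * (1 / η) + 2 * (2 * (1 / η)) := by
          rw [hAsq]
          have h12 : 1 / (η * w.im) ≤ 2 * (1 / η) := by
            rw [div_le_iff₀ hηy]
            have : 2 * (1 / η) * (η * w.im) = 2 * w.im := by field_simp
            rw [this]
            linarith
          linarith
      _ = 8 / η := by ring
  have h2 : (F.card : ℝ) = F0.card + F1.card := by
    rw [← hsplit]; push_cast; ring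
  have h3 : (F0.card : ℝ) ≤ 2 := by exact_mod_cast h0
  rw [h2]
  linarith

end Pool.Agent.H19.Sup
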