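import Mathlib
import Pool.Agent.H19.Sup.St
import Pool.Agent.H19.Sup.P3
import Pool.Agent.H19.Sup.C1

set_option autoImplicit false

/-!
# AP: the sum over all planes

Write `y = ht e z`, `Y = ht c w` and use `ZZ_eq`.  If some term of `ZZ` is nonzero then `dh X Y y x < 1/2` for some `x`
and `dh_scale`, `dh_small` give `3/5 y ≤ Y ≤ 5/3 y`.  For fixed `e` the number of such `c` is (`card_ht`) at most
`8 / (3/5 y) + 2 ≤ (14 + 2 max Y0 2) / y` (`y ≤ max Y0 2` by `ht_le`); the number of `e` is at most `8 * 20 N + 2 ≤ 162 N`.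
* trivial bound: `∑_e ∑_c 84 N² y B0² ≤ K N³ B0²`.
* if `μ ≤ dist w w'`: the planes with `y ≤ 1` by `plane_sum` (hypothesis from `dist_coord`):
  `∑_e ∑_c K N² y (...) ≤ K' N³ (...)`; the planes with `y > 1`: at most `8 + 2` cusps `e` (`card_ht` with `η = 1`), trivial
  bound: `≤ K N² B0² ≤ K N³ B0² N^(-c)` since `c ≤ 1`.
The hypothesis `cover` of `plane_sum` is `hM` (with `dist_VV`).
-/

namespace Pool.Agent.H19.Sup

open UpperHalfPlane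
open Pool.Agent.H19.Maass
open scoped MatrixGroups

theorem AP_nonzero {A : ℝ → ℂ} {B0 B1 ρ T : ℝ} {N : ℕ} {M : ℤ} {w w' z : ℍ} {c e : ℤ × ℤ}
    (hA : Amp A B0 B1 ρ) (h : ZZ A T N M w w' z c e ≠ 0) : 3 / 5 * ht e z ≤ ht c w := by
  unfold ZZ at h
  obtain ⟨q, hq, h⟩ := Finset.exists_ne_zero_of_sum_ne_zero h
  obtain ⟨b, hb, h⟩ := Finset.exists_ne_zero_of_sum_ne_zero h
  by_cases hom : om (ht e z) q b
  · rw [if_pos hom] at h
    have hA' : A (dist w (VV c e q b z)) ≠ 0 := by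
      intro h0
      apply h
      unfold osc
      rw [h0, zero_mul, zero_mul]
    have hd : dist w (VV c e q b z) < 1 / 2 := by
      by_contra hcon
      exact hA' (hA.hi _ (not_lt.1 hcon))
    rw [dist_VV, dh_scale (ht_pos c w) (ht_pos e z)] at hd
    have h35 := (dh_small (div_pos (ht_pos c w) (ht_pos e z)) hd).1
    exact (le_div_iff₀ (ht_pos e z)).1 h35
  · rw [if_neg hom] at h
    exact absurd rfl h

/-- the counting: `f` is supported on pairs with `3/5 ht e z ≤ ht c w` and is at most `κ * ht e z` -/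
theorem AP_count {w z : ℍ} (hw : 1 / 2 ≤ w.im) (hz : 1 / 2 ≤ z.im) {Y0 : ℝ} (hz0 : z.im ≤ Y0)
    (f : (ℤ × ℤ) × (ℤ × ℤ) → ℂ) (G : Finset ((ℤ × ℤ) × (ℤ × ℤ))) {η κ : ℝ} (hη : 0 < η)
    (hκ : 0 ≤ κ)
    (hG : ∀ g ∈ G, IsCoprime g.1.1 g.1.2 ∧ IsCoprime g.2.1 g.2.2 ∧ η ≤ ht g.2 z)
    (hf0 : ∀ g ∈ G, f g ≠ 0 → 3 / 5 * ht g.2 z ≤ ht g.1 w)
    (hf : ∀ g ∈ G, ‖f g‖ ≤ κ * ht g.2 z) :
    ‖∑ g ∈ G, f g‖ ≤ (8 / η + 2) * ((14 + 2 * max Y0 2) * κ) := by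
  classical
  set m : ℝ := max Y0 2 with hm
  have hm2 : (2 : ℝ) ≤ m := le_max_right _ _
  set G' := G.filter (fun g => f g ≠ 0) with hG'
  have hsum : ∑ g ∈ G, f g = ∑ g ∈ G', f g := by
    rw [hG', Finset.sum_filter_ne_zero]
  rw [hsum]
  have hG'mem : ∀ g ∈ G', g ∈ G ∧ f g ≠ 0 := fun g hg => Finset.mem_filter.1 hg
  have h1 : ‖∑ g ∈ G', f g‖ ≤ ∑ g ∈ G', κ * ht g.2 z :=
    (norm_sum_le _ _).trans (Finset.sum_le_sum fun g hg => hf g (hG'mem g hg).1)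
  refine h1.trans ?_
  set E := G'.image Prod.snd with hE
  have h2 : ∑ g ∈ G', κ * ht g.2 z =
      ∑ e ∈ E, ∑ g ∈ G' with g.2 = e, κ * ht g.2 z :=
    (Finset.sum_fiberwise_of_maps_to (fun g hg => Finset.mem_image_of_mem _ hg) _).symm
  rw [h2]
  have hEprop : ∀ e ∈ E, IsCoprime e.1 e.2 ∧ η ≤ ht e z := by
    intro e he
    obtain ⟨g, hg, rfl⟩ := Finset.mem_image.1 he
    exact ⟨(hG g (hG'mem g hg).1).2.1, (hG g (hG'mem g hg).1).2.2⟩
  have hfib : ∀ e ∈ E, ∑ g ∈ G' with g.2 = e, κ * ht g.2 z ≤ (14 + 2 * m) * κ := by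
    intro e he
    have hy : 0 < ht e z := ht_pos e z
    have hym : ht e z ≤ m := by
      refine (ht_le (hEprop e he).1 z hz).trans ?_
      exact max_le_max hz0 le_rfl
    have hconst : ∑ g ∈ G' with g.2 = e, κ * ht g.2 z =
        ((G'.filter (fun g => g.2 = e)).card : ℝ) * (κ * ht e z) := by
      rw [Finset.sum_congr rfl (g := fun _ => κ * ht e z) ?_, Finset.sum_const, nsmul_eq_mul]
      intro g hg
      rw [(Finset.mem_filter.1 hg).2]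
    rw [hconst]
    have hinj : Set.InjOn Prod.fst ((G'.filter (fun g => g.2 = e)) : Set ((ℤ × ℤ) × (ℤ × ℤ))) := by
      intro g hg g' hg' hgg
      have e1 := (Finset.mem_filter.1 (Finset.mem_coe.1 hg)).2
      have e2 := (Finset.mem_filter.1 (Finset.mem_coe.1 hg')).2
      exact Prod.ext hgg (e1.trans e2.symm)
    have hcard : ((G'.filter (fun g => g.2 = e)).card : ℝ) ≤ 8 / (3 / 5 * ht e z) + 2 := by
      rw [← Finset.card_image_of_injOn hinj]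
      refine card_ht w hw (by positivity) _ ?_
      intro c hc
      obtain ⟨g, hg, rfl⟩ := Finset.mem_image.1 hc
      have hg1 := (Finset.mem_filter.1 hg).1
      have hg2 := (Finset.mem_filter.1 hg).2
      refine ⟨(hG g (hG'mem g hg1).1).1, ?_⟩
      rw [← hg2]
      exact hf0 g (hG'mem g hg1).1 (hG'mem g hg1).2
    have hb : 8 / (3 / 5 * ht e z) + 2 ≤ (14 + 2 * m) / ht e z := by
      rw [div_add' _ _ _ (by positivity), div_le_div_iff₀ (by positivity) hy]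
      nlinarith [mul_pos hy hy, mul_le_mul_of_nonneg_left hym hy.le]
    calc ((G'.filter (fun g => g.2 = e)).card : ℝ) * (κ * ht e z)
        ≤ ((14 + 2 * m) / ht e z) * (κ * ht e z) :=
          mul_le_mul_of_nonneg_right (hcard.trans hb) (by positivity)
      _ = (14 + 2 * m) * κ := by field_simp
  have h3 : ∑ e ∈ E, ∑ g ∈ G' with g.2 = e, κ * ht g.2 z ≤ (E.card : ℝ) * ((14 + 2 * m) * κ) := by
    refine (Finset.sum_le_sum hfib).trans ?_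
    rw [Finset.sum_const, nsmul_eq_mul]
  refine h3.trans ?_
  exact mul_le_mul_of_nonneg_right (card_ht z hz hη E hEprop) (by positivity)

theorem AP_trivZZ {A : ℝ → ℂ} {B0 B1 ρ T : ℝ} {N : ℕ} {M : ℤ} {w w' z : ℍ} {c e : ℤ × ℤ}
    (hA : Amp A B0 B1 ρ) (hN : 1 ≤ N) (hy : 1 / (20 * N : ℝ) ≤ ht e z) :
    ‖ZZ A T N M w w' z c e‖ ≤ (84 * (N : ℝ) ^ 2 * B0 ^ 2) * ht e z := by
  rw [ZZ_eq]
  refine (plane_triv A hA T hN M _ _ (ht c w') (ht_pos c w) (ht_pos c w') hy).trans (le_of_eq ?_)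
  ring

theorem all_planes_of (plane_sum : PlaneSumS) : AllPlanesS := by
  classical
  obtain ⟨c, K1, E, hc, hc1, hK1, hP⟩ := plane_sum
  refine ⟨c, E, hc, hc1, ?_⟩
  intro Y0
  set m : ℝ := max Y0 2 with hm
  have hm2 : (2 : ℝ) ≤ m := le_max_right _ _
  refine ⟨162 * ((14 + 2 * m) * K1) + 840 * (14 + 2 * m), by positivity, ?_⟩
  intro A B0 B1 ρ T μ N M w w' z hA hρ hρ1 hμ hμ1 hN hT1 hT2 hz hz0 hw hw' hww G hG hM
  have hN0 : (1 : ℝ) ≤ N := by exact_mod_cast hN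
  have hNpos : (0 : ℝ) < N := by linarith
  have hB0 : 0 ≤ B0 := (norm_nonneg _).trans (hA.bdd 0)
  have hB1 : 0 ≤ B1 := by
    have := hA.lip 1 0
    simp only [sub_zero, abs_one, mul_one] at this
    exact (norm_nonneg _).trans this
  have hNc : 0 < (N : ℝ) ^ (-c) := Real.rpow_pos_of_pos hNpos _
  set Q : ℝ := B0 ^ 2 * (μ + (N : ℝ) ^ (-c)) +
      B0 * (B0 + B1) * ((ρ * μ)⁻¹) ^ E * (N : ℝ) ^ (-c) with hQ
  have hQ0 : 0 ≤ Q := by positivity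
  have hQ1 : B0 ^ 2 * (N : ℝ) ^ (-c) ≤ Q := by
    have h1 : 0 ≤ B0 ^ 2 * μ := by positivity
    have h2 : 0 ≤ B0 * (B0 + B1) * ((ρ * μ)⁻¹) ^ E * (N : ℝ) ^ (-c) := by positivity
    rw [hQ]; nlinarith
  set f : (ℤ × ℤ) × (ℤ × ℤ) → ℂ := fun g => ZZ A T N M w w' z g.1 g.2 with hf
  have hsplit : ∑ g ∈ G, f g = ∑ g ∈ G with ht g.2 z ≤ 1, f g + ∑ g ∈ G with ¬ ht g.2 z ≤ 1, f g :=
    (Finset.sum_filter_add_sum_filter_not G (fun g => ht g.2 z ≤ 1) f).symm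
  have hfnz : ∀ g : (ℤ × ℤ) × (ℤ × ℤ), f g ≠ 0 → 3 / 5 * ht g.2 z ≤ ht g.1 w :=
    fun g hg => AP_nonzero hA hg
  -- the low planes
  have hlow : ‖∑ g ∈ G with ht g.2 z ≤ 1, f g‖ ≤
      (8 / (1 / (20 * N : ℝ)) + 2) * ((14 + 2 * max Y0 2) * (K1 * (N : ℝ) ^ 2 * Q)) := by
    refine AP_count hw hz hz0 f _ (by positivity) (by positivity) ?_ ?_ ?_
    · intro g hg
      exact hG g (Finset.mem_filter.1 hg).1
    · intro g _ hg0
      exact hfnz g hg0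
    · intro g hg
      obtain ⟨hgG, hg1⟩ := Finset.mem_filter.1 hg
      obtain ⟨_, _, hg20⟩ := hG g hgG
      simp only [hf]
      rw [ZZ_eq]
      refine (hP A B0 B1 ρ T μ N M _ _ _ _ _ hA hρ hρ1 hμ hμ1 hN hT1 hT2 (ht_pos g.1 w)
        (ht_pos g.1 w') hg20 hg1 (dist_coord hμ.le w w' hww g.1 _) ?_).trans (le_of_eq ?_)
      · intro q hq b hb
        refine hM g hgG q hq b ?_
        rw [dist_VV]
        exact hb
      · rw [← hQ]; ring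
  -- the high planes
  have hhigh : ‖∑ g ∈ G with ¬ ht g.2 z ≤ 1, f g‖ ≤
      (8 / 1 + 2) * ((14 + 2 * max Y0 2) * (84 * (N : ℝ) ^ 2 * B0 ^ 2)) := by
    refine AP_count hw hz hz0 f _ one_pos (by positivity) ?_ ?_ ?_
    · intro g hg
      obtain ⟨hgG, hg1⟩ := Finset.mem_filter.1 hg
      exact ⟨(hG g hgG).1, (hG g hgG).2.1, (not_le.1 hg1).le⟩
    · intro g _ hg0
      exact hfnz g hg0
    · intro g hg
      obtain ⟨hgG, hg1⟩ := Finset.mem_filter.1 hg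
      exact AP_trivZZ hA hN (hG g hgG).2.2
  have hN3 : (N : ℝ) ^ 2 ≤ (N : ℝ) ^ 3 * (N : ℝ) ^ (-c) := by
    have h1 : (N : ℝ) ^ (-(1 : ℝ)) ≤ (N : ℝ) ^ (-c) :=
      Real.rpow_le_rpow_of_exponent_le hN0 (by linarith)
    rw [Real.rpow_neg_one] at h1
    calc (N : ℝ) ^ 2 = (N : ℝ) ^ 3 * (N : ℝ)⁻¹ := by field_simp
      _ ≤ _ := mul_le_mul_of_nonneg_left h1 (by positivity)
  have hcount : 8 / (1 / (20 * N : ℝ)) + 2 ≤ 162 * N := by
    rw [div_div_eq_mul_div, div_one]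
    nlinarith
  have hfin : ‖∑ g ∈ G, f g‖ ≤ 162 * N * ((14 + 2 * m) * (K1 * (N : ℝ) ^ 2 * Q)) +
      10 * ((14 + 2 * m) * (84 * ((N : ℝ) ^ 3 * Q))) := by
    rw [hsplit]
    refine (norm_add_le _ _).trans (add_le_add ?_ ?_)
    · refine hlow.trans (mul_le_mul_of_nonneg_right hcount (by positivity))
    · refine hhigh.trans ?_
      have h10 : (8 / 1 + 2 : ℝ) = 10 := by norm_num
      rw [h10]
      refine mul_le_mul_of_nonneg_left ?_ (by norm_num)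
      refine mul_le_mul_of_nonneg_left ?_ (by positivity)
      have : 84 * (N : ℝ) ^ 2 * B0 ^ 2 ≤ 84 * ((N : ℝ) ^ 3 * (N : ℝ) ^ (-c)) * B0 ^ 2 := by
        have := mul_le_mul_of_nonneg_right hN3 (by positivity : (0 : ℝ) ≤ B0 ^ 2)
        nlinarith
      refine this.trans ?_
      have h3 := mul_le_mul_of_nonneg_left hQ1 (by positivity : (0 : ℝ) ≤ (N : ℝ) ^ 3)
      nlinarith
  refine hfin.trans (le_of_eq ?_)
  ring

theorem all_planes_triv (Y0 : ℝ) : ∃ K : ℝ, 0 < K ∧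
    ∀ (A : ℝ → ℂ) (B0 B1 ρ T : ℝ) (N : ℕ) (M : ℤ) (w w' z : ℍ),
    Amp A B0 B1 ρ → 1 ≤ N →
    1 / 2 ≤ z.im → z.im ≤ Y0 → 1 / 2 ≤ w.im → 1 / 2 ≤ w'.im →
    ∀ G : Finset ((ℤ × ℤ) × (ℤ × ℤ)),
    (∀ g ∈ G, IsCoprime g.1.1 g.1.2 ∧ IsCoprime g.2.1 g.2.2 ∧ 1 / (20 * N : ℝ) ≤ ht g.2 z) →
    ‖∑ g ∈ G, ZZ A T N M w w' z g.1 g.2‖ ≤ K * (N : ℝ) ^ 3 * B0 ^ 2 := by
  set m : ℝ := max Y0 2 with hm
  have hm2 : (2 : ℝ) ≤ m := le_max_right _ _
  refine ⟨162 * ((14 + 2 * m) * 84), by positivity, ?_⟩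
  intro A B0 B1 ρ T N M w w' z hA hN hz hz0 hw hw' G hG
  have hN0 : (1 : ℝ) ≤ N := by exact_mod_cast hN
  have hNpos : (0 : ℝ) < N := by linarith
  have h := AP_count hw hz hz0 (fun g => ZZ A T N M w w' z g.1 g.2) G
    (η := 1 / (20 * N : ℝ)) (κ := 84 * (N : ℝ) ^ 2 * B0 ^ 2) (by positivity) (by positivity) hG
    (fun g _ hg0 => AP_nonzero hA hg0) (fun g hg => AP_trivZZ hA hN (hG g hg).2.2)
  refine h.trans ?_
  have hcount : 8 / (1 / (20 * N : ℝ)) + 2 ≤ 162 * N := by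
    rw [div_div_eq_mul_div, div_one]
    nlinarith
  refine (mul_le_mul_of_nonneg_right hcount (by positivity)).trans (le_of_eq ?_)
  ring

end Pool.Agent.H19.Sup
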