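import Mathlib
import Pool.Agent.H19.Sup.Defs2

set_option autoImplicit false

/-!
# NR1: pairs of near Hecke points

`pair_count`: `Maass.MM_sq_le` with `φ s = ic (s ≤ 2 r²)`, then `Maass.sum_prod_le` and `Maass.count_sq` exactly as in `Maass.total_sq`:
`∑ ct((pq)²) ≤ 2 C (16N²)^(1+ε) ((1 + √2 r 16 N²)² + √2 r 16 N² y) ≤ C' N^(2+2ε) (N⁴ r²)(1 + y)` (`1 ≤ N² r`), the second term is
`∑ p · ct(q²) ≤ 12 N² * C (4N)^(1+ε) ((1 + 4√2 r N)² + ...)`, the third `∑ p² ct φ 1 ≤ 48 N³ * C (...)`; `N r ≥ 1`.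
-/

namespace Pool.Agent.H19.Sup

open UpperHalfPlane
open Pool.Agent.H19.Maass
open scoped MatrixGroups ENNReal

lemma NR1_ct_sq (S : ℝ) (D : ℕ) (z : ℍ) : ct (fun s => ic (s ≤ S)) ((D : ℤ) ^ 2) z =
    ∑' β : Z4, ic (det4 β = (D : ℤ) ^ 2 ∧ sf4 β z ≤ S) := by
  unfold ct
  refine tsum_congr fun β => ?_
  rw [ic_and]

/-- the real inequality behind `pair_count` -/
lemma NR1_real {ε C₂ N r s y : ℝ} (hε : 0 < ε) (hC₂ : 0 < C₂) (hN : 1 ≤ N) (hr0 : 0 ≤ r)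
    (hNr : 1 ≤ N * r) (hr1 : r ≤ 1) (hs0 : 0 ≤ s) (hs : s ≤ 3 / 2 * r) (hy : 0 ≤ y) :
    3 * (2 * (C₂ * (16 * N ^ 2 * (16 * N ^ 2) ^ ε *
        ((1 + s * (16 * N ^ 2)) ^ 2 + s * (16 * N ^ 2) * y))) +
      12 * N ^ 2 * (C₂ * (4 * N * (4 * N) ^ ε * ((1 + s * (4 * N)) ^ 2 + s * (4 * N) * y))) +
      48 * N ^ 3 * (C₂ * ((1 + s) ^ 2 + s * y))) ≤
    3 * (20768 * 16 ^ ε * C₂ + 2640 * 4 ^ ε * C₂ + 336 * C₂) *
      (N ^ (6 + 2 * ε) * r ^ 2) * (1 + y) := by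
  have hN0 : 0 < N := by linarith
  have hpow : N ^ (6 + 2 * ε) = N ^ 6 * N ^ (2 * ε) := by
    rw [Real.rpow_add hN0]
    congr 1
    exact_mod_cast Real.rpow_natCast N 6
  rw [hpow]
  set E := N ^ (2 * ε) with hE
  have hE1 : 1 ≤ E := Real.one_le_rpow hN (by positivity)
  have hE16 : (16 * N ^ 2) ^ ε = 16 ^ ε * E := by
    rw [Real.mul_rpow (by norm_num) (by positivity), hE, Real.rpow_mul hN0.le]
    norm_cast
  have hE4 : (4 * N) ^ ε ≤ 4 ^ ε * E := by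
    rw [Real.mul_rpow (by norm_num) (by positivity)]
    refine mul_le_mul_of_nonneg_left ?_ (by positivity)
    exact Real.rpow_le_rpow_of_exponent_le hN (by linarith)
  rw [hE16]
  have hNNr : 1 ≤ N ^ 2 * r := by nlinarith
  set W := N ^ 6 * r ^ 2 * (1 + y) with hW
  have hW0 : 0 ≤ W := by positivity
  -- first piece
  have a1 : N ^ 2 * ((1 + s * (16 * N ^ 2)) ^ 2 + s * (16 * N ^ 2) * y) ≤ 649 * W := by
    have b1 : s * (16 * N ^ 2) ≤ 24 * (N ^ 2 * r) := by nlinarith [sq_nonneg N]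
    have b2 : (1 + s * (16 * N ^ 2)) ^ 2 ≤ (25 * (N ^ 2 * r)) ^ 2 := by
      apply pow_le_pow_left₀ (by positivity)
      linarith
    have b3 : s * (16 * N ^ 2) * y ≤ 24 * (N ^ 2 * r) ^ 2 * y := by
      refine mul_le_mul_of_nonneg_right ?_ hy
      nlinarith
    have b4 : (1 + s * (16 * N ^ 2)) ^ 2 + s * (16 * N ^ 2) * y ≤
        649 * ((N ^ 2 * r) ^ 2 * (1 + y)) := by
      have : 0 ≤ (N ^ 2 * r) ^ 2 := by positivity
      have : 0 ≤ (N ^ 2 * r) ^ 2 * y := by positivity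
      nlinarith
    calc N ^ 2 * ((1 + s * (16 * N ^ 2)) ^ 2 + s * (16 * N ^ 2) * y)
        ≤ N ^ 2 * (649 * ((N ^ 2 * r) ^ 2 * (1 + y))) :=
          mul_le_mul_of_nonneg_left b4 (by positivity)
      _ = 649 * W := by rw [hW]; ring
  -- second piece
  have a2 : N ^ 3 * ((1 + s * (4 * N)) ^ 2 + s * (4 * N) * y) ≤ 55 * W := by
    have b1 : s * (4 * N) ≤ 6 * (N * r) := by nlinarith
    have b2 : (1 + s * (4 * N)) ^ 2 ≤ (7 * (N * r)) ^ 2 := by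
      apply pow_le_pow_left₀ (by positivity)
      linarith
    have b3 : s * (4 * N) * y ≤ 6 * (N * r) ^ 2 * y := by
      refine mul_le_mul_of_nonneg_right ?_ hy
      nlinarith
    have b4 : (1 + s * (4 * N)) ^ 2 + s * (4 * N) * y ≤ 55 * ((N * r) ^ 2 * (1 + y)) := by
      have : 0 ≤ (N * r) ^ 2 := by positivity
      have : 0 ≤ (N * r) ^ 2 * y := by positivity
      nlinarith
    have b5 : N ^ 5 ≤ N ^ 6 := pow_le_pow_right₀ hN (by norm_num)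
    calc N ^ 3 * ((1 + s * (4 * N)) ^ 2 + s * (4 * N) * y)
        ≤ N ^ 3 * (55 * ((N * r) ^ 2 * (1 + y))) :=
          mul_le_mul_of_nonneg_left b4 (by positivity)
      _ = 55 * (N ^ 5 * r ^ 2 * (1 + y)) := by ring
      _ ≤ 55 * W := by
          rw [hW]
          gcongr
  -- third piece
  have a3 : N ^ 3 * ((1 + s) ^ 2 + s * y) ≤ 7 * W := by
    have b2 : (1 + s) ^ 2 ≤ (5 / 2) ^ 2 := by
      apply pow_le_pow_left₀ (by positivity)
      linarith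
    have b3 : s * y ≤ 7 * y := mul_le_mul_of_nonneg_right (by linarith) hy
    have b4 : (1 + s) ^ 2 + s * y ≤ 7 * (1 + y) := by linarith
    have b5 : N ^ 5 ≤ N ^ 6 := pow_le_pow_right₀ hN (by norm_num)
    have b6 : N ^ 3 ≤ N ^ 3 * (N * r) ^ 2 :=
      le_mul_of_one_le_right (by positivity) (one_le_pow₀ hNr)
    calc N ^ 3 * ((1 + s) ^ 2 + s * y) ≤ N ^ 3 * (7 * (1 + y)) :=
          mul_le_mul_of_nonneg_left b4 (by positivity)
      _ ≤ (N ^ 3 * (N * r) ^ 2) * (7 * (1 + y)) :=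
          mul_le_mul_of_nonneg_right b6 (by positivity)
      _ = 7 * (N ^ 5 * r ^ 2 * (1 + y)) := by ring
      _ ≤ 7 * W := by
          rw [hW]
          gcongr
  have c1 : 2 * (C₂ * (16 * N ^ 2 * (16 ^ ε * E) *
        ((1 + s * (16 * N ^ 2)) ^ 2 + s * (16 * N ^ 2) * y))) ≤
      20768 * 16 ^ ε * C₂ * (E * W) := by
    calc 2 * (C₂ * (16 * N ^ 2 * (16 ^ ε * E) *
          ((1 + s * (16 * N ^ 2)) ^ 2 + s * (16 * N ^ 2) * y)))
        = 32 * 16 ^ ε * C₂ * E *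
          (N ^ 2 * ((1 + s * (16 * N ^ 2)) ^ 2 + s * (16 * N ^ 2) * y)) := by ring
      _ ≤ 32 * 16 ^ ε * C₂ * E * (649 * W) := mul_le_mul_of_nonneg_left a1 (by positivity)
      _ = _ := by ring
  have c2 : 12 * N ^ 2 * (C₂ * (4 * N * (4 * N) ^ ε *
        ((1 + s * (4 * N)) ^ 2 + s * (4 * N) * y))) ≤
      2640 * 4 ^ ε * C₂ * (E * W) := by
    calc 12 * N ^ 2 * (C₂ * (4 * N * (4 * N) ^ ε * ((1 + s * (4 * N)) ^ 2 + s * (4 * N) * y)))
        = 48 * C₂ * (4 * N) ^ ε * (N ^ 3 * ((1 + s * (4 * N)) ^ 2 + s * (4 * N) * y)) := by ring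
      _ ≤ 48 * C₂ * (4 ^ ε * E) * (55 * W) := by
          gcongr
      _ = _ := by ring
  have c3 : 48 * N ^ 3 * (C₂ * ((1 + s) ^ 2 + s * y)) ≤ 336 * C₂ * (E * W) := by
    calc 48 * N ^ 3 * (C₂ * ((1 + s) ^ 2 + s * y))
        = 48 * C₂ * (N ^ 3 * ((1 + s) ^ 2 + s * y)) := by ring
      _ ≤ 48 * C₂ * (7 * W) := mul_le_mul_of_nonneg_left a3 (by positivity)
      _ ≤ 48 * C₂ * (7 * W) * E := le_mul_of_one_le_right (by positivity) hE1
      _ = _ := by ring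
  calc _ ≤ 3 * (20768 * 16 ^ ε * C₂ * (E * W) + 2640 * 4 ^ ε * C₂ * (E * W) +
        336 * C₂ * (E * W)) := by
        refine mul_le_mul_of_nonneg_left ?_ (by norm_num)
        exact add_le_add (add_le_add c1 c2) c3
    _ = _ := by rw [hW]; ring

theorem pair_count (ε : ℝ) (hε : 0 < ε) : ∃ C : ℝ, 0 < C ∧ ∀ z : ℍ, |z.re| ≤ 1 / 2 →
    1 / 2 ≤ z.im → ∀ N : ℕ, 1 ≤ N → ∀ r : ℝ, 1 / (N : ℝ) ≤ r → r ≤ 1 →
    ∑ p ∈ PR N, ∑ q ∈ PR N, MM (fun s => ic (s ≤ 2 * r ^ 2)) (p ^ 2) (q ^ 2) z ≤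
      ENNReal.ofReal (C * ((N : ℝ) ^ (6 + 2 * ε) * r ^ 2) * (1 + z.im)) := by
  obtain ⟨C₂, hC₂, hcount⟩ := count_sq ε hε
  refine ⟨3 * (20768 * 16 ^ ε * C₂ + 2640 * 4 ^ ε * C₂ + 336 * C₂), by positivity, ?_⟩
  intro z hx hy N hN r hr hr1
  have hN1 : (1 : ℝ) ≤ N := by exact_mod_cast hN
  have hN0 : (0 : ℝ) < N := by linarith
  have hr0 : 0 < r := lt_of_lt_of_le (by positivity) hr
  have hNr : 1 ≤ (N : ℝ) * r := by
    rw [div_le_iff₀ hN0] at hr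
    linarith
  have hy0 := z.im_pos
  have hS0 : 0 ≤ 2 * r ^ 2 := by positivity
  have hS6 : 2 * r ^ 2 ≤ 6 := by nlinarith
  set φ : ℝ → ℝ≥0∞ := fun s => ic (s ≤ 2 * r ^ 2) with hφ
  set s := √(2 * r ^ 2) with hs
  have hs0 : 0 ≤ s := Real.sqrt_nonneg _
  have hs32 : s ≤ 3 / 2 * r := by
    rw [hs, Real.sqrt_le_left (by positivity)]
    nlinarith [sq_nonneg r]
  have hG : ∀ X : ℕ, 1 ≤ X → ∑ D ∈ Finset.Icc 1 X, ct φ ((D : ℤ) ^ 2) z ≤
      ENNReal.ofReal (C₂ * (X * (X : ℝ) ^ ε * ((1 + s * X) ^ 2 + s * X * z.im))) := by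
    intro X hX
    simp_rw [hφ, NR1_ct_sq]
    exact hcount z hx hy (2 * r ^ 2) hS0 hS6 X hX
  have hB : ct φ 1 z ≤ ENNReal.ofReal (C₂ * ((1 + s) ^ 2 + s * z.im)) := by
    have h1 := hG 1 le_rfl
    simpa only [Finset.Icc_self, Finset.sum_singleton, Nat.cast_one, one_pow, mul_one,
      Real.one_rpow, one_mul] using h1
  have hpt : ∀ p ∈ PR N, ∀ q ∈ PR N, MM φ (p ^ 2) (q ^ 2) z ≤
      3 * (ct φ (((p * q : ℕ) : ℤ) ^ 2) z +
        ENNReal.ofReal (4 * N) * ct φ ((q : ℤ) ^ 2) z +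
        if q = p then ENNReal.ofReal (16 * N ^ 2) * ct φ 1 z else 0) := by
    intro p hp q hq
    rw [mem_PR] at hp hq
    obtain ⟨⟨_, hp2⟩, hpp⟩ := hp
    have hp4 : (p : ℝ) ≤ 4 * N := by exact_mod_cast hp2
    refine (MM_sq_le φ hpp hq.2 z).trans ?_
    refine mul_le_mul_right ?_ 3
    refine add_le_add (add_le_add le_rfl ?_) ?_
    · refine mul_le_mul_left ?_ _
      rw [← ENNReal.ofReal_natCast]
      exact ENNReal.ofReal_le_ofReal hp4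
    · by_cases h : q = p
      · rw [if_pos h, if_pos h]
        refine mul_le_mul_left ?_ _
        rw [← ENNReal.ofReal_natCast, ← ENNReal.ofReal_pow (Nat.cast_nonneg p)]
        refine ENNReal.ofReal_le_ofReal ?_
        have hp0 : (0 : ℝ) ≤ p := Nat.cast_nonneg p
        nlinarith
      · rw [if_neg h, if_neg h]
  have hs1 : ∑ p ∈ PR N, ∑ q ∈ PR N, ct φ (((p * q : ℕ) : ℤ) ^ 2) z ≤
      2 * ∑ D ∈ Finset.Icc (1 : ℕ) (16 * N ^ 2), ct φ ((D : ℤ) ^ 2) z :=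
    sum_prod_le N (fun D => ct φ ((D : ℤ) ^ 2) z)
  have hs2 : ∑ q ∈ PR N, ct φ ((q : ℤ) ^ 2) z ≤
      ∑ D ∈ Finset.Icc (1 : ℕ) (4 * N), ct φ ((D : ℤ) ^ 2) z := by
    refine Finset.sum_le_sum_of_subset ?_
    intro q hq
    rw [mem_PR] at hq
    rw [Finset.mem_Icc]
    omega
  have hcard : ((PR N).card : ℝ≥0∞) ≤ ENNReal.ofReal (3 * N) := by
    rw [← ENNReal.ofReal_natCast]
    refine ENNReal.ofReal_le_ofReal ?_
    exact_mod_cast card_PR_le N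
  calc ∑ p ∈ PR N, ∑ q ∈ PR N, MM φ (p ^ 2) (q ^ 2) z
      ≤ ∑ p ∈ PR N, ∑ q ∈ PR N, 3 * (ct φ (((p * q : ℕ) : ℤ) ^ 2) z +
        ENNReal.ofReal (4 * N) * ct φ ((q : ℤ) ^ 2) z +
        if q = p then ENNReal.ofReal (16 * N ^ 2) * ct φ 1 z else 0) :=
        Finset.sum_le_sum fun p hp => Finset.sum_le_sum fun q hq => hpt p hp q hq
    _ = 3 * (∑ p ∈ PR N, ∑ q ∈ PR N, ct φ (((p * q : ℕ) : ℤ) ^ 2) z +
        ENNReal.ofReal (4 * N) * (((PR N).card : ℝ≥0∞) * ∑ q ∈ PR N, ct φ ((q : ℤ) ^ 2) z) +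
        ((PR N).card : ℝ≥0∞) * (ENNReal.ofReal (16 * N ^ 2) * ct φ 1 z)) := by
        simp_rw [← Finset.mul_sum, Finset.sum_add_distrib, ← Finset.mul_sum]
        congr 3
        · rw [Finset.sum_const, nsmul_eq_mul]
        · rw [← nsmul_eq_mul, ← Finset.sum_const]
          refine Finset.sum_congr rfl fun p hp => ?_
          rw [Finset.sum_ite_eq', if_pos hp]
    _ ≤ ENNReal.ofReal 3 * (ENNReal.ofReal 2 * ENNReal.ofReal
          (C₂ * ((16 * N ^ 2 : ℕ) * ((16 * N ^ 2 : ℕ) : ℝ) ^ ε *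
            ((1 + s * (16 * N ^ 2 : ℕ)) ^ 2 + s * (16 * N ^ 2 : ℕ) * z.im))) +
        ENNReal.ofReal (4 * N) * (ENNReal.ofReal (3 * N) * ENNReal.ofReal
          (C₂ * ((4 * N : ℕ) * ((4 * N : ℕ) : ℝ) ^ ε *
            ((1 + s * (4 * N : ℕ)) ^ 2 + s * (4 * N : ℕ) * z.im)))) +
        ENNReal.ofReal (3 * N) * (ENNReal.ofReal (16 * N ^ 2) *
          ENNReal.ofReal (C₂ * ((1 + s) ^ 2 + s * z.im)))) := by
        rw [show (3 : ℝ≥0∞) = ENNReal.ofReal 3 by norm_num]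
        gcongr
        · refine hs1.trans ?_
          rw [show (2 : ℝ≥0∞) = ENNReal.ofReal 2 by norm_num]
          gcongr
          exact hG _ (by nlinarith)
        · exact hs2.trans (hG _ (by omega))
    _ = ENNReal.ofReal (3 * (2 *
          (C₂ * ((16 * N ^ 2 : ℕ) * ((16 * N ^ 2 : ℕ) : ℝ) ^ ε *
            ((1 + s * (16 * N ^ 2 : ℕ)) ^ 2 + s * (16 * N ^ 2 : ℕ) * z.im))) +
        4 * N * (3 * N *
          (C₂ * ((4 * N : ℕ) * ((4 * N : ℕ) : ℝ) ^ ε *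
            ((1 + s * (4 * N : ℕ)) ^ 2 + s * (4 * N : ℕ) * z.im)))) +
        3 * N * (16 * N ^ 2 * (C₂ * ((1 + s) ^ 2 + s * z.im))))) := by
        rw [← ENNReal.ofReal_mul (by positivity), ← ENNReal.ofReal_mul (by positivity),
          ← ENNReal.ofReal_mul (by positivity), ← ENNReal.ofReal_mul (by positivity),
          ← ENNReal.ofReal_mul (by positivity), ← ENNReal.ofReal_add (by positivity)
          (by positivity), ← ENNReal.ofReal_add (by positivity) (by positivity),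
          ← ENNReal.ofReal_mul (by positivity)]
    _ ≤ _ := by
        refine ENNReal.ofReal_le_ofReal ?_
        push_cast
        refine le_trans (le_of_eq ?_) (NR1_real hε hC₂ hN1 hr0.le hNr hr1 hs0 hs32 hy0.le)
        ring

end Pool.Agent.H19.Sup
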