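import Mathlib
import Pool.Agent.H19.Sup.Defs2
import Pool.Agent.H19.Sup.C1

set_option autoImplicit false

/-!
# R1: every Hecke point lies in a plane

Let `M = σ * dl q y`, `det M = q²`, and `M` is not divisible by `q` (`y ≠ ⟨q, 0⟩`: `dl q y` is divisible by `q` only
for `y = ⟨q, 0⟩`; `y.1 ∈ {1, q, q²}`).

1. *A short vector.*  `M` modulo `q` has rank one, so there are `l1, l2` (a nonzero row of `M` modulo `q`) such that
`M x ≡ 0 mod q` iff `l1 x1 + l2 x2 ≡ 0 mod q`.  (It is enough to have: if `q ∣ l1 x1 + l2 x2` for a row `(l1, l2)` of `M` not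
`≡ 0`, then `q ∣ M x`: the determinant `≡ 0` makes the rows proportional modulo the prime `q`.)
Let `t = √(q z.im) ≥ 1`.  Pigeonhole: the integer points `x` with `0 ≤ x2 ≤ √(q / z.im)`,
`0 ≤ x1 - x2 z.re ≤ t + 1` are more than `q` many (more than `√(q/z.im)` values of `x2`, at least `⌊t + 1⌋ > t` of `x1` each),
so two have the same `l1 x1 + l2 x2` modulo `q`; the difference `x ≠ 0` has
`N(x) := (x1 - x2 z.re)² + (x2 z.im)² ≤ (t + 1)² + t² ≤ 5 t² = 5 q z.im`.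
2. `q ∤ gcd x`: otherwise `N(x) ≥ q² / 4` (a nonzero integer vector has `N ≥ 1/4`), contradicting `20 z.im < q`.
So `e = x / gcd x` is primitive, `M e ≡ 0 mod q`, `N(e) ≤ 5 q z.im`, i.e. `ht e z ≥ 1 / (5 q)` (`ht_eq`).
3. `c = M e / q`.  `adj(M) M e = q² e`, so the gcd of the entries of `M e` divides `q²` and the gcd of `c` is `1` or `q`.
If it is `q`, `c'' = c / q` is primitive (its gcd divides `1`...: `q² gcd(c'')` divides `q²`), and with `v = M z = σ • hx (q^2) y z`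
one computes `N_v(M e) / v.im = q² N(e) / z.im` so `N_v(c'') / v.im = N(e) / (q² z.im) ≤ 5 / q`:
`ht c'' v ≥ q / 5`, contradicting `hv` with `γ = (sec c'')⁻¹`.
4. `(sec c)⁻¹ M (sec e)` has first column `(q, 0)` and determinant `q²`, so it is `!![q, b; 0, q]`; `q ∤ b` since `q ∤ M`.
-/

namespace Pool.Agent.H19.Sup

open UpperHalfPlane
open Pool.Agent.H19.Maass
open scoped MatrixGroups

/-- pigeonhole: a short vector in a sublattice of index `q` -/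
lemma R1_short {q : ℕ} (hq : 0 < q) (l1 l2 : ℤ) {X Y : ℝ} (hY : 0 < Y) (hqY : 1 ≤ q * Y) :
    ∃ x1 x2 : ℤ, (x1, x2) ≠ (0, 0) ∧ (q : ℤ) ∣ l1 * x1 + l2 * x2 ∧
      ((x1 : ℝ) - x2 * X) ^ 2 + ((x2 : ℝ) * Y) ^ 2 ≤ 5 * q * Y := by
  have hq0 : (0 : ℝ) < q := by exact_mod_cast hq
  have : NeZero q := ⟨hq.ne'⟩
  set s : ℝ := √(q / Y) with hs
  set t : ℝ := √(q * Y) with ht
  have hs0 : 0 ≤ s := Real.sqrt_nonneg _
  have ht0 : 0 ≤ t := Real.sqrt_nonneg _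
  have hs2 : s ^ 2 = q / Y := Real.sq_sqrt (by positivity)
  have ht2 : t ^ 2 = q * Y := Real.sq_sqrt (by positivity)
  have ht1 : 1 ≤ t := by
    rw [ht]; exact Real.one_le_sqrt.2 hqY
  have hst : s * t = q := by
    rw [hs, ht, ← Real.sqrt_mul (by positivity)]
    rw [show (q : ℝ) / Y * (q * Y) = q ^ 2 by field_simp]
    exact Real.sqrt_sq hq0.le
  have hsY : s * Y ≤ t := by
    refine abs_le_of_sq_le_sq' ?_ ht0 |>.2
    rw [mul_pow, hs2, ht2]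
    field_simp
    exact le_refl _
  let f : Fin (⌊s⌋₊ + 1) × Fin (⌊t⌋₊ + 1) → ZMod q := fun p =>
    ((l1 * (⌈((p.1 : ℕ) : ℝ) * X⌉ + (p.2 : ℕ)) + l2 * (p.1 : ℕ) : ℤ) : ZMod q)
  have hcard : Fintype.card (ZMod q) < Fintype.card (Fin (⌊s⌋₊ + 1) × Fin (⌊t⌋₊ + 1)) := by
    rw [ZMod.card, Fintype.card_prod, Fintype.card_fin, Fintype.card_fin]
    have h1 := Nat.lt_floor_add_one s
    have h2 := Nat.lt_floor_add_one t
    have h3 : (q : ℝ) < ((⌊s⌋₊ + 1) * (⌊t⌋₊ + 1) : ℕ) := by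
      push_cast
      rw [← hst]
      exact mul_lt_mul'' h1 h2 hs0 ht0
    exact_mod_cast h3
  obtain ⟨p, p', hne, hf⟩ := Fintype.exists_ne_map_eq_of_card_lt f hcard
  set a : ℤ := ((p.1 : ℕ) : ℤ) with ha
  set a' : ℤ := ((p'.1 : ℕ) : ℤ) with ha'
  set i : ℤ := ((p.2 : ℕ) : ℤ) with hi
  set i' : ℤ := ((p'.2 : ℕ) : ℤ) with hi'
  refine ⟨(⌈((p.1 : ℕ) : ℝ) * X⌉ + i) - (⌈((p'.1 : ℕ) : ℝ) * X⌉ + i'), a - a', ?_, ?_, ?_⟩
  · intro h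
    rw [Prod.mk.injEq] at h
    obtain ⟨h1, h2⟩ := h
    apply hne
    have h3 : (p.1 : ℕ) = (p'.1 : ℕ) := by omega
    rw [h3] at h1
    have h4 : (p.2 : ℕ) = (p'.2 : ℕ) := by omega
    exact Prod.ext (Fin.ext h3) (Fin.ext h4)
  · have h1 : (((l1 * (⌈((p.1 : ℕ) : ℝ) * X⌉ + (p.2 : ℕ)) + l2 * (p.1 : ℕ) : ℤ)) : ZMod q) =
      ((l1 * (⌈((p'.1 : ℕ) : ℝ) * X⌉ + (p'.2 : ℕ)) + l2 * (p'.1 : ℕ) : ℤ) : ZMod q) := hf
    rw [← sub_eq_zero, ← Int.cast_sub, ZMod.intCast_zmod_eq_zero_iff_dvd] at h1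
    convert h1 using 1
    simp only [ha, ha', hi, hi']
    ring
  · have e1 := Int.le_ceil (((p.1 : ℕ) : ℝ) * X)
    have e2 := Int.ceil_lt_add_one (((p.1 : ℕ) : ℝ) * X)
    have e3 := Int.le_ceil (((p'.1 : ℕ) : ℝ) * X)
    have e4 := Int.ceil_lt_add_one (((p'.1 : ℕ) : ℝ) * X)
    have b1 : ((p.1 : ℕ) : ℝ) ≤ s := (by exact_mod_cast Nat.lt_succ_iff.1 p.1.2 : ((p.1 : ℕ) : ℝ) ≤ ⌊s⌋₊).trans (Nat.floor_le hs0)
    have b2 : ((p'.1 : ℕ) : ℝ) ≤ s := (by exact_mod_cast Nat.lt_succ_iff.1 p'.1.2 : ((p'.1 : ℕ) : ℝ) ≤ ⌊s⌋₊).trans (Nat.floor_le hs0)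
    have b3 : ((p.2 : ℕ) : ℝ) ≤ t := (by exact_mod_cast Nat.lt_succ_iff.1 p.2.2 : ((p.2 : ℕ) : ℝ) ≤ ⌊t⌋₊).trans (Nat.floor_le ht0)
    have b4 : ((p'.2 : ℕ) : ℝ) ≤ t := (by exact_mod_cast Nat.lt_succ_iff.1 p'.2.2 : ((p'.2 : ℕ) : ℝ) ≤ ⌊t⌋₊).trans (Nat.floor_le ht0)
    have c1 : (0 : ℝ) ≤ ((p.1 : ℕ) : ℝ) := Nat.cast_nonneg _
    have c2 : (0 : ℝ) ≤ ((p'.1 : ℕ) : ℝ) := Nat.cast_nonneg _
    have c3 : (0 : ℝ) ≤ ((p.2 : ℕ) : ℝ) := Nat.cast_nonneg _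
    have c4 : (0 : ℝ) ≤ ((p'.2 : ℕ) : ℝ) := Nat.cast_nonneg _
    have g1 : (((⌈((p.1 : ℕ) : ℝ) * X⌉ + i) - (⌈((p'.1 : ℕ) : ℝ) * X⌉ + i') : ℤ) : ℝ) -
        ((a - a' : ℤ) : ℝ) * X = (⌈((p.1 : ℕ) : ℝ) * X⌉ - ((p.1 : ℕ) : ℝ) * X + ((p.2 : ℕ) : ℝ)) -
          (⌈((p'.1 : ℕ) : ℝ) * X⌉ - ((p'.1 : ℕ) : ℝ) * X + ((p'.2 : ℕ) : ℝ)) := by
      simp only [ha, ha', hi, hi']
      push_cast
      ring
    have g2 : (((⌈((p.1 : ℕ) : ℝ) * X⌉ + i) - (⌈((p'.1 : ℕ) : ℝ) * X⌉ + i') : ℤ) : ℝ) -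
        ((a - a' : ℤ) : ℝ) * X ≤ t + 1 := by
      rw [g1]; linarith
    have g3 : -(t + 1) ≤ (((⌈((p.1 : ℕ) : ℝ) * X⌉ + i) - (⌈((p'.1 : ℕ) : ℝ) * X⌉ + i') : ℤ) : ℝ) -
        ((a - a' : ℤ) : ℝ) * X := by
      rw [g1]; linarith
    have g4 : ((((⌈((p.1 : ℕ) : ℝ) * X⌉ + i) - (⌈((p'.1 : ℕ) : ℝ) * X⌉ + i') : ℤ) : ℝ) -
        ((a - a' : ℤ) : ℝ) * X) ^ 2 ≤ (t + 1) ^ 2 := sq_le_sq' g3 g2
    have g5 : |((a - a' : ℤ) : ℝ)| ≤ s := by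
      rw [abs_le]
      push_cast
      simp only [ha, ha']
      push_cast
      constructor <;> linarith
    have g6 : (((a - a' : ℤ) : ℝ) * Y) ^ 2 ≤ t ^ 2 := by
      refine sq_le_sq' ?_ ?_
      · have := (abs_le.1 g5).1
        nlinarith
      · have := (abs_le.1 g5).2
        nlinarith
    nlinarith

lemma R1_lower {x1 x2 : ℤ} (h : (x1, x2) ≠ (0, 0)) {X Y : ℝ} (hY : 1 / 2 ≤ Y) :
    1 / 4 ≤ ((x1 : ℝ) - x2 * X) ^ 2 + ((x2 : ℝ) * Y) ^ 2 := by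
  by_cases h2 : x2 = 0
  · subst h2
    have h1 : x1 ≠ 0 := fun h1 => h (by rw [h1])
    have h3 : (1 : ℝ) ≤ (x1 : ℝ) ^ 2 := by
      have : (1 : ℤ) ≤ x1 ^ 2 := by
        have := sq_abs x1
        have h4 : 1 ≤ |x1| := Int.one_le_abs h1
        nlinarith
      exact_mod_cast this
    push_cast
    nlinarith
  · have h3 : (1 : ℝ) ≤ (x2 : ℝ) ^ 2 := by
      have : (1 : ℤ) ≤ x2 ^ 2 := by
        have := sq_abs x2
        have h4 : 1 ≤ |x2| := Int.one_le_abs h2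
        nlinarith
      exact_mod_cast this
    have h4 : (1 / 4 : ℝ) ≤ ((x2 : ℝ) * Y) ^ 2 := by
      rw [mul_pow]
      nlinarith
    nlinarith [sq_nonneg ((x1 : ℝ) - x2 * X)]

lemma R1_row {q : ℕ} (hq : q.Prime) {m00 m01 m10 m11 x1 x2 : ℤ}
    (hdet : (q : ℤ) ∣ m00 * m11 - m01 * m10) (hnd : ¬ ((q : ℤ) ∣ m00 ∧ (q : ℤ) ∣ m01))
    (h : (q : ℤ) ∣ m00 * x1 + m01 * x2) : (q : ℤ) ∣ m10 * x1 + m11 * x2 := by
  have hp : Prime (q : ℤ) := Nat.prime_iff_prime_int.1 hq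
  rw [not_and_or] at hnd
  rcases hnd with h0 | h0
  · have h1 : (q : ℤ) ∣ m00 * (m10 * x1 + m11 * x2) := by
      rw [show m00 * (m10 * x1 + m11 * x2) = m10 * (m00 * x1 + m01 * x2) +
        x2 * (m00 * m11 - m01 * m10) by ring]
      exact dvd_add (h.mul_left _) (hdet.mul_left _)
    exact (hp.dvd_or_dvd h1).resolve_left h0
  · have h1 : (q : ℤ) ∣ m01 * (m10 * x1 + m11 * x2) := by
      rw [show m01 * (m10 * x1 + m11 * x2) = m11 * (m00 * x1 + m01 * x2) -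
        x1 * (m00 * m11 - m01 * m10) by ring]
      exact dvd_sub (h.mul_left _) (hdet.mul_left _)
    exact (hp.dvd_or_dvd h1).resolve_left h0

/-- a short primitive vector in the kernel modulo `q` -/
lemma R1_vec {q : ℕ} (hq : q.Prime) {m00 m01 m10 m11 : ℤ}
    (hdet : (q : ℤ) ∣ m00 * m11 - m01 * m10)
    (hnd : ¬ (((q : ℤ) ∣ m00 ∧ (q : ℤ) ∣ m01) ∧ ((q : ℤ) ∣ m10 ∧ (q : ℤ) ∣ m11)))
    {X Y : ℝ} (hY : 1 / 2 ≤ Y) (hqY : 20 * Y < q) :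
    ∃ e1 e2 : ℤ, IsCoprime e1 e2 ∧ (q : ℤ) ∣ m00 * e1 + m01 * e2 ∧ (q : ℤ) ∣ m10 * e1 + m11 * e2 ∧
      ((e1 : ℝ) - e2 * X) ^ 2 + ((e2 : ℝ) * Y) ^ 2 ≤ 5 * q * Y := by
  have hp : Prime (q : ℤ) := Nat.prime_iff_prime_int.1 hq
  have hq0 : (0 : ℝ) < q := by exact_mod_cast hq.pos
  have hY0 : 0 < Y := by linarith
  have hqY1 : 1 ≤ q * Y := by nlinarith
  obtain ⟨x1, x2, hx0, hd1, hd2, hN⟩ : ∃ x1 x2 : ℤ, (x1, x2) ≠ (0, 0) ∧
      (q : ℤ) ∣ m00 * x1 + m01 * x2 ∧ (q : ℤ) ∣ m10 * x1 + m11 * x2 ∧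
      ((x1 : ℝ) - x2 * X) ^ 2 + ((x2 : ℝ) * Y) ^ 2 ≤ 5 * q * Y := by
    by_cases h : (q : ℤ) ∣ m00 ∧ (q : ℤ) ∣ m01
    · have h' : ¬ ((q : ℤ) ∣ m10 ∧ (q : ℤ) ∣ m11) := fun h' => hnd ⟨h, h'⟩
      obtain ⟨x1, x2, h0, h1, h2⟩ := R1_short hq.pos m10 m11 (X := X) hY0 hqY1
      refine ⟨x1, x2, h0, ?_, h1, h2⟩
      refine R1_row hq (m00 := m10) (m01 := m11) ?_ h' h1
      rw [show m10 * m01 - m11 * m00 = -(m00 * m11 - m01 * m10) by ring]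
      exact hdet.neg_right
    · obtain ⟨x1, x2, h0, h1, h2⟩ := R1_short hq.pos m00 m01 (X := X) hY0 hqY1
      exact ⟨x1, x2, h0, h1, R1_row hq hdet h h1, h2⟩
  have hx : x1 ≠ 0 ∨ x2 ≠ 0 := by
    by_contra h
    push Not at h
    exact hx0 (by rw [h.1, h.2])
  set g : ℤ := (Int.gcd x1 x2 : ℤ) with hg
  have hg0 : 0 < g := by
    rw [hg]
    exact_mod_cast Int.gcd_pos_iff.2 hx
  obtain ⟨e1, he1⟩ : g ∣ x1 := Int.gcd_dvd_left ..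
  obtain ⟨e2, he2⟩ : g ∣ x2 := Int.gcd_dvd_right ..
  have hcop : IsCoprime e1 e2 := by
    have h1 := Int.gcd_eq_gcd_ab x1 x2
    rw [← hg] at h1
    refine ⟨Int.gcdA x1 x2, Int.gcdB x1 x2, ?_⟩
    have h2 : g * (Int.gcdA x1 x2 * e1 + Int.gcdB x1 x2 * e2) = g * 1 := by
      linear_combination (-Int.gcdA x1 x2) * he1 + (-Int.gcdB x1 x2) * he2 - h1
    exact mul_left_cancel₀ hg0.ne' h2
  have he0 : (e1, e2) ≠ (0, 0) := by
    intro h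
    rw [Prod.mk.injEq] at h
    apply hx0
    rw [he1, he2, h.1, h.2, mul_zero]
  have hqg : ¬ (q : ℤ) ∣ g := by
    rintro ⟨k, hk⟩
    have hk0 : k ≠ 0 := by
      rintro rfl
      rw [mul_zero] at hk
      exact hg0.ne' hk
    have h1 : (k * e1, k * e2) ≠ ((0 : ℤ), (0 : ℤ)) := by
      intro h
      rw [Prod.mk.injEq] at h
      apply he0
      rw [Prod.mk.injEq]
      exact ⟨(mul_eq_zero.1 h.1).resolve_left hk0, (mul_eq_zero.1 h.2).resolve_left hk0⟩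
    have h2 := R1_lower (X := X) h1 hY
    have h3 : (((x1 : ℤ) : ℝ) - x2 * X) ^ 2 + ((x2 : ℝ) * Y) ^ 2 =
        (q : ℝ) ^ 2 * ((((k * e1 : ℤ) : ℝ) - ((k * e2 : ℤ) : ℝ) * X) ^ 2 +
          (((k * e2 : ℤ) : ℝ) * Y) ^ 2) := by
      rw [he1, he2, hk]
      push_cast
      ring
    rw [h3] at hN
    nlinarith [sq_nonneg (q : ℝ)]
  have hg1 : (1 : ℝ) ≤ g := by exact_mod_cast hg0
  refine ⟨e1, e2, hcop, ?_, ?_, ?_⟩
  · have h1 : (q : ℤ) ∣ g * (m00 * e1 + m01 * e2) := by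
      have : m00 * x1 + m01 * x2 = g * (m00 * e1 + m01 * e2) := by rw [he1, he2]; ring
      rwa [this] at hd1
    exact (hp.dvd_or_dvd h1).resolve_left hqg
  · have h1 : (q : ℤ) ∣ g * (m10 * e1 + m11 * e2) := by
      have : m10 * x1 + m11 * x2 = g * (m10 * e1 + m11 * e2) := by rw [he1, he2]; ring
      rwa [this] at hd2
    exact (hp.dvd_or_dvd h1).resolve_left hqg
  · refine le_trans ?_ hN
    have h3 : (((x1 : ℤ) : ℝ) - x2 * X) ^ 2 + ((x2 : ℝ) * Y) ^ 2 =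
        (g : ℝ) ^ 2 * (((e1 : ℝ) - e2 * X) ^ 2 + ((e2 : ℝ) * Y) ^ 2) := by
      rw [he1, he2]
      push_cast
      ring
    rw [h3]
    have h4 : 0 ≤ ((e1 : ℝ) - e2 * X) ^ 2 + ((e2 : ℝ) * Y) ^ 2 := by positivity
    nlinarith [mul_nonneg h4 (sub_nonneg.2 hg1), mul_nonneg (mul_nonneg h4 (sub_nonneg.2 hg1)) (by linarith : (0 : ℝ) ≤ g + 1)]

/-- `c = M e / q` is primitive or `q` times a primitive vector -/
lemma R1_col {q : ℕ} (hq : q.Prime) {m00 m01 m10 m11 e1 e2 c1 c2 : ℤ}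
    (hdet : m00 * m11 - m01 * m10 = (q : ℤ) ^ 2) (he : IsCoprime e1 e2)
    (h1 : m00 * e1 + m01 * e2 = q * c1) (h2 : m10 * e1 + m11 * e2 = q * c2) :
    IsCoprime c1 c2 ∨ ∃ d1 d2 : ℤ, c1 = q * d1 ∧ c2 = q * d2 ∧ IsCoprime d1 d2 := by
  have hq0 : (q : ℤ) ≠ 0 := by exact_mod_cast hq.ne_zero
  obtain ⟨u, w, huw⟩ := he
  have a1 : m11 * c1 - m01 * c2 = q * e1 := by
    apply mul_left_cancel₀ hq0
    linear_combination (-m11) * h1 + m01 * h2 + e1 * hdet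
  have a2 : -m10 * c1 + m00 * c2 = q * e2 := by
    apply mul_left_cancel₀ hq0
    linear_combination m10 * h1 - m00 * h2 + e2 * hdet
  have hgd : (Int.gcd c1 c2 : ℤ) ∣ q := by
    have b1 : (Int.gcd c1 c2 : ℤ) ∣ c1 := Int.gcd_dvd_left ..
    have b2 : (Int.gcd c1 c2 : ℤ) ∣ c2 := Int.gcd_dvd_right ..
    have : (q : ℤ) = u * (m11 * c1 - m01 * c2) + w * (-m10 * c1 + m00 * c2) := by
      linear_combination (-u) * a1 - w * a2 - q * huw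
    rw [this]
    exact dvd_add (((b1.mul_left _).sub (b2.mul_left _)).mul_left _)
      (((b1.mul_left _).add (b2.mul_left _)).mul_left _)
  have hgd' : Int.gcd c1 c2 ∣ q := by exact_mod_cast hgd
  rcases (Nat.dvd_prime hq).1 hgd' with h | h
  · exact Or.inl (Int.isCoprime_iff_gcd_eq_one.2 h)
  · right
    obtain ⟨d1, hd1⟩ : (Int.gcd c1 c2 : ℤ) ∣ c1 := Int.gcd_dvd_left ..
    obtain ⟨d2, hd2⟩ : (Int.gcd c1 c2 : ℤ) ∣ c2 := Int.gcd_dvd_right ..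
    rw [h] at hd1 hd2
    refine ⟨d1, d2, hd1, hd2, u * m11 - w * m10, w * m00 - u * m01, ?_⟩
    apply mul_left_cancel₀ hq0
    rw [hd1, hd2] at a1 a2
    linear_combination u * a1 + w * a2 + q * huw

/-- the point `σ • hx (q ^ 2) y z` as a quotient -/
lemma R1_coe {q : ℕ} (hq : 0 < q) {y : Σ _ : ℕ, ℕ} (hy : y ∈ RR (q ^ 2)) (σ : SL(2, ℤ)) (z : ℍ) :
    ((σ • hx (q ^ 2) y z : ℍ) : ℂ) =
      (((σ 0 0 * ((q ^ 2 / y.1 : ℕ) : ℤ) : ℤ) : ℂ) * z +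
        ((σ 0 0 * (y.2 : ℤ) + σ 0 1 * (y.1 : ℤ) : ℤ) : ℂ)) /
      (((σ 1 0 * ((q ^ 2 / y.1 : ℕ) : ℤ) : ℤ) : ℂ) * z +
        ((σ 1 0 * (y.2 : ℤ) + σ 1 1 * (y.1 : ℤ) : ℤ) : ℂ)) := by
  rw [mem_RR, Nat.mem_divisors] at hy
  obtain ⟨⟨hyd, _⟩, hyb⟩ := hy
  have hq2 : 0 < q ^ 2 := by positivity
  have hy0 : 0 < y.1 := Nat.pos_of_dvd_of_pos hyd hq2
  have hay : 0 < q ^ 2 / y.1 := Nat.div_pos (Nat.le_of_dvd hq2 hyd) hy0
  have hyC : (y.1 : ℂ) ≠ 0 := by exact_mod_cast hy0.ne'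
  rw [coe_specialLinearGroup_apply]
  unfold hx
  rw [coe_hp hay hy0]
  simp only [algebraMap_int_eq, eq_intCast, Complex.ofReal_intCast]
  generalize q ^ 2 / y.1 = A
  push_cast
  rw [← mul_div_mul_right _ _ hyC]
  congr 1
  · field_simp
    ring
  · field_simp
    ring

/-- `dl q y` is not divisible by `q` -/
lemma R1_nd {q : ℕ} (hq : q.Prime) {y : Σ _ : ℕ, ℕ} (hy : y ∈ RR (q ^ 2)) (hne : y ≠ ⟨q, 0⟩) :
    ¬ ((q : ℤ) ∣ ((q ^ 2 / y.1 : ℕ) : ℤ) ∧ (q : ℤ) ∣ (y.2 : ℤ) ∧ (q : ℤ) ∣ (y.1 : ℤ)) := by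
  rintro ⟨h1, h2, h3⟩
  rw [mem_RR, Nat.mem_divisors] at hy
  obtain ⟨⟨hyd, _⟩, hyb⟩ := hy
  have h1' : q ∣ q ^ 2 / y.1 := by exact_mod_cast h1
  have h2' : q ∣ y.2 := by exact_mod_cast h2
  have h3' : q ∣ y.1 := by exact_mod_cast h3
  have hq1 := hq.one_lt
  obtain ⟨k, hk, hyk⟩ := (Nat.dvd_prime_pow hq).1 hyd
  interval_cases k
  · rw [hyk, pow_zero] at h3'
    exact absurd (Nat.le_of_dvd one_pos h3') (by omega)
  · rw [pow_one] at hyk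
    rw [hyk] at hyb
    have : y.2 = 0 := Nat.eq_zero_of_dvd_of_lt h2' hyb
    exact hne (Sigma.ext hyk (heq_of_eq this))
  · rw [hyk, Nat.div_self (pow_pos hq.pos 2)] at h1'
    exact absurd (Nat.le_of_dvd one_pos h1') (by omega)

theorem reduction {q : ℕ} (hq : q.Prime) {y : Σ _ : ℕ, ℕ} (hy : y ∈ RR (q ^ 2)) (hne : y ≠ ⟨q, 0⟩)
    (σ : SL(2, ℤ)) (z : ℍ) (hre : |z.re| ≤ 1 / 2) (him : 1 / 2 ≤ z.im) (hqz : 20 * z.im < q)
    (hv : ∀ γ : SL(2, ℤ), 5 * (γ • (σ • hx (q ^ 2) y z)).im < q) :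
    ∃ (c e : ℤ × ℤ) (b : ℤ), IsCoprime c.1 c.2 ∧ IsCoprime e.1 e.2 ∧ ¬ (q : ℤ) ∣ b ∧
      1 / (5 * q : ℝ) ≤ ht e z ∧
      (σ : Matrix (Fin 2) (Fin 2) ℤ) * dl q y =
        (sec c : Matrix (Fin 2) (Fin 2) ℤ) * !![(q : ℤ), b; 0, (q : ℤ)] *
          ((sec e)⁻¹ : SL(2, ℤ)) := by
  have hqZ : (q : ℤ) ≠ 0 := by exact_mod_cast hq.ne_zero
  have hq0 : (0 : ℝ) < q := by exact_mod_cast hq.pos
  have hqR : (q : ℝ) ≠ 0 := hq0.ne'
  have hqC : (q : ℂ) ≠ 0 := by exact_mod_cast hq.ne_zero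
  have hcoe := R1_coe hq.pos hy σ z
  have hnd := R1_nd hq hy hne
  have hda : ((q ^ 2 / y.1 : ℕ) : ℤ) * (y.1 : ℤ) = (q : ℤ) ^ 2 := by
    rw [mem_RR, Nat.mem_divisors] at hy
    exact_mod_cast Nat.div_mul_cancel hy.1.1
  set a : ℤ := ((q ^ 2 / y.1 : ℕ) : ℤ) with ha
  set m00 : ℤ := σ 0 0 * a with hm00
  set m01 : ℤ := σ 0 0 * (y.2 : ℤ) + σ 0 1 * (y.1 : ℤ) with hm01
  set m10 : ℤ := σ 1 0 * a with hm10
  set m11 : ℤ := σ 1 0 * (y.2 : ℤ) + σ 1 1 * (y.1 : ℤ) with hm11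
  have hσ := sl_det σ
  have hM : (σ : Matrix (Fin 2) (Fin 2) ℤ) * dl q y = !![m00, m01; m10, m11] := by
    unfold dl
    rw [← ha]
    ext i j
    fin_cases i <;> fin_cases j <;>
      simp [Matrix.mul_apply, Fin.sum_univ_two, hm00, hm01, hm10, hm11]
  have hdet : m00 * m11 - m01 * m10 = (q : ℤ) ^ 2 := by
    rw [← hda, hm00, hm01, hm10, hm11]
    linear_combination (a * y.1) * hσ
  have hnd' : ¬ (((q : ℤ) ∣ m00 ∧ (q : ℤ) ∣ m01) ∧ ((q : ℤ) ∣ m10 ∧ (q : ℤ) ∣ m11)) := by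
    rintro ⟨⟨g1, g2⟩, g3, g4⟩
    refine hnd ⟨?_, ?_, ?_⟩
    · have : a = σ 1 1 * m00 - σ 0 1 * m10 := by
        rw [hm00, hm10]; linear_combination (-a) * hσ
      rw [this]
      exact dvd_sub (g1.mul_left _) (g3.mul_left _)
    · have : (y.2 : ℤ) = σ 1 1 * m01 - σ 0 1 * m11 := by
        rw [hm01, hm11]; linear_combination (-(y.2 : ℤ)) * hσ
      rw [this]
      exact dvd_sub (g2.mul_left _) (g4.mul_left _)
    · have : (y.1 : ℤ) = σ 0 0 * m11 - σ 1 0 * m01 := by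
        rw [hm01, hm11]; linear_combination (-(y.1 : ℤ)) * hσ
      rw [this]
      exact dvd_sub (g4.mul_left _) (g2.mul_left _)
  have hdd : (q : ℤ) ∣ m00 * m11 - m01 * m10 := by
    rw [hdet]; exact Dvd.intro_left _ (by ring : (q : ℤ) * q = _) |>.trans (dvd_refl _)
  obtain ⟨e1, e2, hcop, ⟨c1, hc1⟩, ⟨c2, hc2⟩, hN⟩ := R1_vec hq hdd hnd' (X := z.re) him hqz
  have hN0 : 0 < ((e1 : ℝ) - e2 * z.re) ^ 2 + ((e2 : ℝ) * z.im) ^ 2 := by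
    have he0 : (e1, e2) ≠ ((0 : ℤ), (0 : ℤ)) := by
      intro h
      rw [Prod.mk.injEq] at h
      rw [h.1, h.2] at hcop
      exact not_isCoprime_zero_zero hcop
    have := R1_lower (X := z.re) he0 him
    linarith
  have hte : 1 / (5 * q : ℝ) ≤ ht (e1, e2) z := by
    rw [ht_eq hcop]
    rw [div_le_div_iff₀ (by positivity) hN0]
    linarith
  have hzi := z.im_pos
  -- `c` is primitive
  have hcc : IsCoprime c1 c2 := by
    rcases R1_col hq hdet hcop hc1 hc2 with h | ⟨d1, d2, hd1, hd2, hdc⟩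
    · exact h
    exfalso
    set v : ℍ := σ • hx (q ^ 2) y z with hvdef
    have h1 := hv (sec (d1, d2))⁻¹
    have h2 : ((sec (d1, d2))⁻¹ • v).im = ht (d1, d2) v := rfl
    rw [h2, ht_eq hdc] at h1
    simp only at h1
    set D : ℂ := (m10 : ℂ) * z + m11 with hD
    have hD0 : D ≠ 0 := by
      intro h0
      have i1 := congrArg Complex.im h0
      have i2 := congrArg Complex.re h0
      simp [hD] at i1 i2
      have i3 : m10 = 0 := by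
        rcases i1 with h | h
        · exact h
        · exact absurd h hzi.ne'
      rw [i3] at i2
      have i4 : m11 = 0 := by
        have : (m11 : ℝ) = 0 := by simpa using i2
        exact_mod_cast this
      rw [i3, i4, mul_zero, mul_zero, sub_zero] at hdet
      exact pow_ne_zero 2 hqZ hdet.symm
    have hDn : 0 < Complex.normSq D := Complex.normSq_pos.2 hD0
    have hvim : v.im = (q : ℝ) ^ 2 * z.im / Complex.normSq D := by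
      rw [← coe_im, hcoe, Complex.div_im]
      have hdR : (m00 : ℝ) * m11 - m01 * m10 = (q : ℝ) ^ 2 := by exact_mod_cast hdet
      rw [← sub_div]
      congr 1
      simp [hD]
      linear_combination z.im * hdR
    have hNv : (((d1 : ℝ) - d2 * v.re) ^ 2 + ((d2 : ℝ) * v.im) ^ 2) =
        (((e1 : ℝ) - e2 * z.re) ^ 2 + ((e2 : ℝ) * z.im) ^ 2) / Complex.normSq D := by
      have j1 : (((d1 : ℝ) - d2 * v.re) ^ 2 + ((d2 : ℝ) * v.im) ^ 2) =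
          Complex.normSq ((d1 : ℂ) - d2 * (v : ℂ)) := by
        rw [Complex.normSq_apply]
        simp
        ring
      have j2 : (((e1 : ℝ) - e2 * z.re) ^ 2 + ((e2 : ℝ) * z.im) ^ 2) =
          Complex.normSq ((e1 : ℂ) - e2 * (z : ℂ)) := by
        rw [Complex.normSq_apply]
        simp
        ring
      rw [j1, j2, ← map_div₀, hcoe]
      congr 1
      rw [eq_div_iff hD0, sub_mul, mul_assoc, div_mul_cancel₀ _ hD0]
      have k1 : (m00 : ℂ) * e1 + m01 * e2 = q * (q * d1) := by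
        exact_mod_cast hd1 ▸ hc1
      have k2 : (m10 : ℂ) * e1 + m11 * e2 = q * (q * d2) := by
        exact_mod_cast hd2 ▸ hc2
      have k3 : (m00 : ℂ) * m11 - m01 * m10 = (q : ℂ) ^ 2 := by exact_mod_cast hdet
      have hq2C : (q : ℂ) ^ 2 ≠ 0 := pow_ne_zero 2 hqC
      apply mul_left_cancel₀ hq2C
      rw [hD]
      linear_combination (-((m10 : ℂ) * z + m11)) * k1 + ((m00 : ℂ) * z + m01) * k2 + ((e1 : ℂ) - e2 * z) * k3
    rw [hNv, hvim, div_div_div_cancel_right₀ hDn.ne'] at h1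
    rw [← mul_div_assoc, div_lt_iff₀ hN0] at h1
    nlinarith
  -- the matrix
  have hs1 := sec_col (e := (c1, c2)) hcc
  have hs2 := sec_col (e := (e1, e2)) hcop
  have hdc := sl_det (sec (c1, c2))
  have hde := sl_det (sec (e1, e2))
  set s := sec (c1, c2) with hs
  set t := sec (e1, e2) with ht'
  simp only at hs1 hs2
  obtain ⟨hs1a, hs1b⟩ := hs1
  obtain ⟨hs2a, hs2b⟩ := hs2
  -- `B = s⁻¹ M t`
  set b : ℤ := s 1 1 * (m00 * t 0 1 + m01 * t 1 1) - s 0 1 * (m10 * t 0 1 + m11 * t 1 1) with hb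
  have hB : !![m00, m01; m10, m11] * (t : Matrix (Fin 2) (Fin 2) ℤ) =
      (s : Matrix (Fin 2) (Fin 2) ℤ) * !![(q : ℤ), b; 0, (q : ℤ)] := by
    have f1 : m00 * t 0 0 + m01 * t 1 0 = s 0 0 * q := by rw [hs2a, hs2b, hs1a]; linarith
    have f2 : m10 * t 0 0 + m11 * t 1 0 = s 1 0 * q := by rw [hs2a, hs2b, hs1b]; linarith
    have f3 : s 0 0 * (m10 * t 0 1 + m11 * t 1 1) - s 1 0 * (m00 * t 0 1 + m01 * t 1 1) = q := by
      apply mul_left_cancel₀ hqZ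
      linear_combination (-(m10 * t 0 1 + m11 * t 1 1)) * f1 + (m00 * t 0 1 + m01 * t 1 1) * f2 +
        (m00 * m11 - m01 * m10) * hde + hdet
    ext i j
    fin_cases i <;> fin_cases j
    · simp [Matrix.mul_apply, Fin.sum_univ_two]
      exact f1
    · simp [Matrix.mul_apply, Fin.sum_univ_two]
      rw [hb]
      linear_combination (-(m00 * t 0 1 + m01 * t 1 1)) * hdc + s 0 1 * f3
    · simp [Matrix.mul_apply, Fin.sum_univ_two]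
      exact f2
    · simp [Matrix.mul_apply, Fin.sum_univ_two]
      rw [hb]
      linear_combination (-(m10 * t 0 1 + m11 * t 1 1)) * hdc + s 1 1 * f3
  have hfin : !![m00, m01; m10, m11] = (s : Matrix (Fin 2) (Fin 2) ℤ) * !![(q : ℤ), b; 0, (q : ℤ)] *
      ((t⁻¹ : SL(2, ℤ)) : Matrix (Fin 2) (Fin 2) ℤ) := by
    rw [← hB, Matrix.mul_assoc]
    have : (t : Matrix (Fin 2) (Fin 2) ℤ) * ((t⁻¹ : SL(2, ℤ)) : Matrix (Fin 2) (Fin 2) ℤ) = 1 := by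
      rw [← Matrix.SpecialLinearGroup.coe_mul, mul_inv_cancel, Matrix.SpecialLinearGroup.coe_one]
    rw [this, Matrix.mul_one]
  refine ⟨(c1, c2), (e1, e2), b, hcc, hcop, ?_, hte, ?_⟩
  · rintro ⟨b', hb'⟩
    apply hnd'
    have hq' : !![m00, m01; m10, m11] = (q : ℤ) • ((s : Matrix (Fin 2) (Fin 2) ℤ) * !![(1 : ℤ), b'; 0, 1] *
        ((t⁻¹ : SL(2, ℤ)) : Matrix (Fin 2) (Fin 2) ℤ)) := by
      rw [hfin, ← Matrix.smul_mul, ← Matrix.mul_smul]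
      congr 2
      ext i j
      fin_cases i <;> fin_cases j <;> simp [hb']
    have g : ∀ i j, (q : ℤ) ∣ !![m00, m01; m10, m11] i j := by
      intro i j
      rw [hq']
      exact Dvd.intro _ rfl
    exact ⟨⟨g 0 0, g 0 1⟩, g 1 0, g 1 1⟩
  · rw [hM]
    exact hfin

end Pool.Agent.H19.Sup
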