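import Mathlib
import Pool.Agent.H19.Sup.Defs2

set_option autoImplicit false

/-!
# R2: Hecke points and matrices

`point_eq`: both sides are the image of `z` under the Moebius transformation of the matrix (`Maass.coe_hp`; the
coercion of `σ • w` is `(σ 0 0 * w + σ 0 1) / (σ 1 0 * w + σ 1 1)`); e.g. compare `(sec e • (-b/q +ᵥ ((sec c)⁻¹ • p)))`
or use the real matrices in `GL(2, ℝ)⁺` acting on `ℍ`.
`hermite_inj`: `Maass.hermite`.
`om_true`: `gcd(q, b) = 1`, `√(1 / y) ≤ √(5 q) < 10 q`.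
-/

namespace Pool.Agent.H19.Sup

open UpperHalfPlane
open Pool.Agent.H19.Maass
open scoped MatrixGroups

/-- Moebius action of an integral matrix on a quotient -/
theorem R2_moeb (σ : SL(2, ℤ)) (w : ℍ) (N D : ℂ) (hD : D ≠ 0) (hw : (w : ℂ) = N / D) :
    ((σ • w : ℍ) : ℂ) = ((σ 0 0 : ℂ) * N + σ 0 1 * D) / ((σ 1 0 : ℂ) * N + σ 1 1 * D) := by
  rw [coe_specialLinearGroup_apply]
  simp only [hw, algebraMap_int_eq, eq_intCast, Complex.ofReal_intCast]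
  rw [← mul_div_mul_right _ _ hD]
  congr 1 <;> field_simp

theorem point_eq {q : ℕ} (hq : 0 < q) {y : Σ _ : ℕ, ℕ} (hy : y ∈ RR (q ^ 2)) (σ : SL(2, ℤ)) (z : ℍ)
    {c e : ℤ × ℤ} {b : ℤ}
    (h : (σ : Matrix (Fin 2) (Fin 2) ℤ) * dl q y =
        (sec c : Matrix (Fin 2) (Fin 2) ℤ) * !![(q : ℤ), b; 0, (q : ℤ)] * ((sec e)⁻¹ : SL(2, ℤ))) :
    σ • hx (q ^ 2) y z = VV c e q b z := by
  rw [mem_RR, Nat.mem_divisors] at hy
  obtain ⟨⟨hyd, hm⟩, hyb⟩ := hy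
  have hy0 : 0 < y.1 := Nat.pos_of_dvd_of_pos hyd (Nat.pos_of_ne_zero hm)
  have ha0 : 0 < q ^ 2 / y.1 := Nat.div_pos (Nat.le_of_dvd (Nat.pos_of_ne_zero hm) hyd) hy0
  have hyC : ((y.1 : ℕ) : ℂ) ≠ 0 := by exact_mod_cast hy0.ne'
  have hqC : ((q : ℕ) : ℂ) ≠ 0 := by exact_mod_cast hq.ne'
  apply UpperHalfPlane.ext
  have e1 := R2_moeb σ (hx (q ^ 2) y z) _ _ hyC (coe_hp ha0 hy0 z)
  rw [e1]
  unfold VV
  set τ : SL(2, ℤ) := (sec e)⁻¹ with hτ
  have hD : (τ 1 0 : ℂ) * z + τ 1 1 ≠ 0 := by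
    have := UpperHalfPlane.denom_ne_zero (τ : GL (Fin 2) ℝ) z
    rwa [ModularGroup.denom_apply] at this
  have e2 : ((τ • z : ℍ) : ℂ) = ((τ 0 0 : ℂ) * z + τ 0 1) / ((τ 1 0 : ℂ) * z + τ 1 1) := by
    rw [coe_specialLinearGroup_apply]
    simp
  have e3 : (((((b : ℝ) / (q : ℝ)) +ᵥ (τ • z) : ℍ)) : ℂ) =
      ((q : ℂ) * ((τ 0 0 : ℂ) * z + τ 0 1) + b * ((τ 1 0 : ℂ) * z + τ 1 1)) /
        ((q : ℂ) * ((τ 1 0 : ℂ) * z + τ 1 1)) := by
    rw [UpperHalfPlane.coe_vadd, e2]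
    push_cast
    generalize (τ 1 0 : ℂ) * z + τ 1 1 = D at hD
    generalize (τ 0 0 : ℂ) * z + τ 0 1 = N
    field_simp
    ring
  rw [R2_moeb (sec c) _ _ _ (mul_ne_zero hqC hD) e3]
  have f00 := congrFun (congrFun h 0) 0
  have f01 := congrFun (congrFun h 0) 1
  have f10 := congrFun (congrFun h 1) 0
  have f11 := congrFun (congrFun h 1) 1
  simp only [Matrix.mul_apply, Fin.sum_univ_two, dl, Matrix.of_apply, Matrix.cons_val', Matrix.cons_val_zero,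
    Matrix.cons_val_one, Matrix.cons_val_fin_one] at f00 f01 f10 f11
  have g00 := congrArg (fun x : ℤ => (x : ℂ)) f00
  have g01 := congrArg (fun x : ℤ => (x : ℂ)) f01
  have g10 := congrArg (fun x : ℤ => (x : ℂ)) f10
  have g11 := congrArg (fun x : ℤ => (x : ℂ)) f11
  generalize q ^ 2 / y.1 = a at g00 g10
  push_cast at g00 g01 g10 g11
  congr 1
  · linear_combination (z : ℂ) * g00 + g01
  · linear_combination (z : ℂ) * g10 + g11

theorem hermite_inj {q : ℕ} {y y' : Σ _ : ℕ, ℕ} (hy : y ∈ RR (q ^ 2)) (hy' : y' ∈ RR (q ^ 2))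
    {σ σ' : SL(2, ℤ)} (h : (σ : Matrix (Fin 2) (Fin 2) ℤ) * dl q y =
      (σ' : Matrix (Fin 2) (Fin 2) ℤ) * dl q y') : y = y' ∧ σ = σ' := by
  have f00 := congrFun (congrFun h 0) 0
  have f01 := congrFun (congrFun h 0) 1
  have f10 := congrFun (congrFun h 1) 0
  have f11 := congrFun (congrFun h 1) 1
  simp only [Matrix.mul_apply, Fin.sum_univ_two, dl, Matrix.of_apply, Matrix.cons_val', Matrix.cons_val_zero,
    Matrix.cons_val_one, Matrix.cons_val_fin_one, mul_zero, add_zero] at f00 f01 f10 f11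
  exact hermite hy hy' f00 f01 f10 f11

theorem om_true {q : ℕ} (hq : q.Prime) {b : ℤ} (hb : ¬ (q : ℤ) ∣ b) {y : ℝ}
    (hy : 1 / (5 * q : ℝ) ≤ y) : om y q b := by
  unfold om
  have hg : Nat.gcd q b.natAbs = 1 := by
    rw [← Nat.coprime_iff_gcd_eq_one, hq.coprime_iff_not_dvd]
    intro hh
    exact hb (Int.natCast_dvd.2 hh)
  rw [hg, Nat.div_one]
  have hq2 : (2 : ℝ) ≤ q := by exact_mod_cast hq.two_le
  have hy0 : 0 < y := lt_of_lt_of_le (by positivity) hy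
  have h1 : 1 / y ≤ 5 * q := by
    rw [div_le_iff₀ hy0]
    rw [div_le_iff₀ (by positivity)] at hy
    linarith
  rw [div_lt_iff₀ (by norm_num), Real.sqrt_lt' (by positivity)]
  nlinarith

end Pool.Agent.H19.Sup
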