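import Mathlib
import Pool.Agent.H19.Sup.R1
import Pool.Agent.H19.Sup.R2
import Pool.Agent.H19.Sup.P3

set_option autoImplicit false

/-!
# R3: the majorant over the planes

For every `s = (j, σ) ∈ S` (`q = j.1` a prime in `(N, 4 N]`, `y = j.2 ∈ RR (q^2)`, `y ≠ ⟨q, 0⟩`), `reduction` gives
`(c, e, b)`; choose them.  Let `G` be the finite set of the pairs `(c, e)` and `M` larger than all the `|b|` and than all `|b|`
with `dist (W i) (VV c e q b z) < 1/2` for some `i ∈ L`, `(c, e) ∈ G`, `q ≤ 4 N` (finitely many: by `dist_VV`, `dh_scale` and `dh_small`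
`|b / q - X| ≤ ht e z`, so `|b| ≤ q (|X| + ht e z)`).
The map `s ↦ ((c, e), q, b)` is injective (`hermite_inj`: `q, c, e, b` determine the matrix), the point is `VV c e q b z`
(`point_eq`), and `om (ht e z) q b` holds (`om_true`; `1/(5q) ≥ 1/(20N)`).  Since all terms are squares of absolute values,
`∑_{s ∈ S} ‖f (point)‖² ≤ ∑_{g ∈ G} ∑_{q ∈ Ioc N (4N)} ∑_{|b| ≤ M} [om] ‖f (VV c e q b z)‖²` with
`f v = ∑_{i ∈ L} a i * wv A T (dist (W i) v)`; expand `‖f‖² = f * conj f` and exchange the sums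
(`osc A T d d' = wv A T d * conj (wv A T d')`).
-/

namespace Pool.Agent.H19.Sup

open UpperHalfPlane
open Pool.Agent.H19.Maass
open scoped MatrixGroups ComplexConjugate

/-- the oscillating term as a product -/
theorem R3_osc_eq (A : ℝ → ℂ) (T d d' : ℝ) :
    osc A T d d' = wv A T d * conj (wv A T d') := by
  unfold osc wv
  rw [map_mul, ← Complex.exp_conj, map_mul, Complex.conj_ofReal, Complex.conj_I]
  have : Complex.exp (((T * (d - d') : ℝ) : ℂ) * Complex.I) =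
      Complex.exp (((T * d : ℝ) : ℂ) * Complex.I) *
        Complex.exp (((T * d' : ℝ) : ℂ) * -Complex.I) := by
    rw [← Complex.exp_add]
    congr 1
    push_cast
    ring
  rw [this]
  ring

/-- the square of the absolute value, expanded -/
theorem R3_norm_sq {ι : Type*} (L : Finset ι) (W : ι → ℍ) (a : ι → ℝ) (A : ℝ → ℂ) (T : ℝ) (v : ℍ) :
    ((‖∑ i ∈ L, (a i : ℂ) * wv A T (dist (W i) v)‖ ^ 2 : ℝ) : ℂ) =
      ∑ i ∈ L, ∑ i' ∈ L, ((a i * a i' : ℝ) : ℂ) * osc A T (dist (W i) v) (dist (W i') v) := by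
  have h1 : ∀ x : ℂ, ((‖x‖ ^ 2 : ℝ) : ℂ) = x * conj x := by
    intro x
    rw [Complex.mul_conj, Complex.normSq_eq_norm_sq]
  rw [h1, map_sum, Finset.sum_mul_sum]
  refine Finset.sum_congr rfl fun i _ => Finset.sum_congr rfl fun i' _ => ?_
  rw [R3_osc_eq, map_mul, Complex.conj_ofReal]
  push_cast
  ring

/-- points near `W i` have bounded `b` -/
theorem R3_bound (w z : ℍ) (c e : ℤ × ℤ) {N q : ℕ} (hq : q ∈ Finset.Ioc N (4 * N))
    (b : ℤ) (h : dist w (VV c e q b z) < 1 / 2) :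
    |b| ≤ ⌈(4 * N : ℝ) * (|((sec c)⁻¹ • w).re - ((sec e)⁻¹ • z).re| + ht e z)⌉ := by
  rw [dist_VV, dh_scale (ht_pos c w) (ht_pos e z)] at h
  have hy := ht_pos e z
  have h3 := (dh_small (div_pos (ht_pos c w) hy) h).2.2
  rw [abs_div, abs_of_pos hy, div_le_one hy] at h3
  set X := ((sec c)⁻¹ • w).re - ((sec e)⁻¹ • z).re with hX
  rw [Finset.mem_Ioc] at hq
  have hq0 : (0 : ℝ) < q := by
    have : 0 < q := by omega
    exact_mod_cast this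
  have h4 : |(b : ℝ) / q| ≤ |X| + ht e z := by
    have : (b : ℝ) / q = X + ((b : ℝ) / q - X) := by ring
    rw [this]
    exact (abs_add_le _ _).trans (by linarith)
  rw [abs_div, abs_of_pos hq0, div_le_iff₀ hq0] at h4
  have h5 : (|(b : ℝ)|) ≤ (4 * N : ℝ) * (|X| + ht e z) := by
    refine h4.trans ?_
    rw [mul_comm]
    refine mul_le_mul_of_nonneg_right ?_ (by positivity)
    exact_mod_cast hq.2
  have h6 : ((|b| : ℤ) : ℝ) ≤ (⌈(4 * N : ℝ) * (|X| + ht e z)⌉ : ℝ) := by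
    rw [Int.cast_abs]
    exact h5.trans (Int.le_ceil _)
  exact_mod_cast h6

theorem majorant {ι : Type*} (L : Finset ι) (W : ι → ℍ) (a : ι → ℝ) (A : ℝ → ℂ) (T : ℝ) {B0 B1 ρ : ℝ}
    (hA : Amp A B0 B1 ρ) {N : ℕ} (hN : 1 ≤ N) (z : ℍ) (hre : |z.re| ≤ 1 / 2) (him : 1 / 2 ≤ z.im)
    (hNz : 20 * z.im < N) (S : Finset ((Σ _ : ℕ, Σ _ : ℕ, ℕ) × SL(2, ℤ)))
    (hS : ∀ s ∈ S, s.1 ∈ II N ∧ ∀ γ : SL(2, ℤ), 5 * (γ • (s.2 • zt z s.1)).im < N) :
    ∃ (G : Finset ((ℤ × ℤ) × (ℤ × ℤ))) (M : ℤ),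
      (∀ g ∈ G, IsCoprime g.1.1 g.1.2 ∧ IsCoprime g.2.1 g.2.2 ∧ 1 / (20 * N : ℝ) ≤ ht g.2 z) ∧
      (∀ i ∈ L, ∀ g ∈ G, ∀ q ∈ Finset.Ioc N (4 * N), ∀ b : ℤ,
        dist (W i) (VV g.1 g.2 q b z) < 1 / 2 → |b| ≤ M) ∧
      ∑ s ∈ S, ‖∑ i ∈ L, (a i : ℂ) * wv A T (dist (W i) (s.2 • zt z s.1))‖ ^ 2 ≤
        ‖∑ i ∈ L, ∑ i' ∈ L, ((a i * a i' : ℝ) : ℂ) * ∑ g ∈ G, ZZ A T N M (W i) (W i') z g.1 g.2‖ := by
  classical
  -- membership
  have hmem : ∀ s ∈ S, (N < s.1.1 ∧ s.1.1 ≤ 4 * N) ∧ s.1.1.Prime ∧ s.1.2 ∈ RR (s.1.1 ^ 2) ∧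
      s.1.2 ≠ ⟨s.1.1, 0⟩ := by
    intro s hs
    have h := (hS s hs).1
    unfold II PR at h
    rw [Finset.mem_sigma, Finset.mem_filter, Finset.mem_Ioc, Finset.mem_erase] at h
    exact ⟨h.1.1, h.1.2, h.2.2, h.2.1⟩
  -- the planes
  have hred : ∀ s ∈ S, ∃ (c e : ℤ × ℤ) (b : ℤ), IsCoprime c.1 c.2 ∧ IsCoprime e.1 e.2 ∧
      ¬ (s.1.1 : ℤ) ∣ b ∧ 1 / (5 * s.1.1 : ℝ) ≤ ht e z ∧
      (s.2 : Matrix (Fin 2) (Fin 2) ℤ) * dl s.1.1 s.1.2 =
        (sec c : Matrix (Fin 2) (Fin 2) ℤ) * !![(s.1.1 : ℤ), b; 0, (s.1.1 : ℤ)] *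
          ((sec e)⁻¹ : SL(2, ℤ)) := by
    intro s hs
    obtain ⟨h1, h2, h3, h4⟩ := hmem s hs
    have h5 : (N : ℝ) < s.1.1 := by exact_mod_cast h1.1
    refine reduction h2 h3 h4 s.2 z hre him (hNz.trans h5) ?_
    intro γ
    exact ((hS s hs).2 γ).trans h5
  choose! cf ef bf hc he hb hh hmat using hred
  set G : Finset ((ℤ × ℤ) × (ℤ × ℤ)) := S.image fun s => (cf s, ef s) with hG
  obtain ⟨M, hM⟩ := Finset.exists_le (S.image (fun s => |bf s|) ∪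
    (L ×ˢ G).image (fun p => ⌈(4 * N : ℝ) *
      (|((sec p.2.1)⁻¹ • W p.1).re - ((sec p.2.2)⁻¹ • z).re| + ht p.2.2 z)⌉))
  have hM1 : ∀ s ∈ S, |bf s| ≤ M := by
    intro s hs
    exact hM _ (Finset.mem_union_left _ (Finset.mem_image_of_mem _ hs))
  have hM2 : ∀ i ∈ L, ∀ g ∈ G, ∀ q ∈ Finset.Ioc N (4 * N), ∀ b : ℤ,
      dist (W i) (VV g.1 g.2 q b z) < 1 / 2 → |b| ≤ M := by
    intro i hi g hg q hq b hd
    refine (R3_bound (W i) z g.1 g.2 hq b hd).trans ?_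
    exact hM _ (Finset.mem_union_right _ (Finset.mem_image.2 ⟨(i, g), Finset.mem_product.2 ⟨hi, hg⟩, rfl⟩))
  refine ⟨G, M, ?_, hM2, ?_⟩
  · intro g hg
    rw [hG, Finset.mem_image] at hg
    obtain ⟨s, hs, rfl⟩ := hg
    refine ⟨hc s hs, he s hs, ?_⟩
    refine le_trans ?_ (hh s hs)
    obtain ⟨h1, h2, -, -⟩ := hmem s hs
    have h5 : (0 : ℝ) < s.1.1 := by exact_mod_cast h2.pos
    have h6 : (s.1.1 : ℝ) ≤ 4 * N := by exact_mod_cast h1.2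
    apply one_div_le_one_div_of_le (by positivity)
    linarith
  -- the function on the index set
  set f : ℍ → ℂ := fun v => ∑ i ∈ L, (a i : ℂ) * wv A T (dist (W i) v) with hf
  set F : ((ℤ × ℤ) × (ℤ × ℤ)) × (ℕ × ℤ) → ℝ := fun t =>
    if om (ht t.1.2 z) t.2.1 t.2.2 then ‖f (VV t.1.1 t.1.2 t.2.1 t.2.2 z)‖ ^ 2 else 0 with hF
  have hF0 : ∀ t, 0 ≤ F t := by
    intro t
    simp only [hF]
    split_ifs
    · positivity
    · exact le_rfl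
  set Φ : (Σ _ : ℕ, Σ _ : ℕ, ℕ) × SL(2, ℤ) → ((ℤ × ℤ) × (ℤ × ℤ)) × (ℕ × ℤ) :=
    fun s => ((cf s, ef s), (s.1.1, bf s)) with hΦ
  have hterm : ∀ s ∈ S, ‖f (s.2 • zt z s.1)‖ ^ 2 = F (Φ s) := by
    intro s hs
    obtain ⟨h1, h2, h3, h4⟩ := hmem s hs
    have h5 : om (ht (ef s) z) s.1.1 (bf s) := om_true h2 (hb s hs) (hh s hs)
    simp only [hF, hΦ]
    rw [if_pos h5]
    have h6 : s.2 • zt z s.1 = VV (cf s) (ef s) s.1.1 (bf s) z :=
      point_eq h2.pos h3 s.2 z (hmat s hs)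
    rw [h6]
  have hinj : Set.InjOn Φ (S : Set ((Σ _ : ℕ, Σ _ : ℕ, ℕ) × SL(2, ℤ))) := by
    intro s hs s' hs' hss
    have hs := Finset.mem_coe.1 hs
    have hs' := Finset.mem_coe.1 hs'
    simp only [hΦ, Prod.mk.injEq] at hss
    obtain ⟨⟨h1, h2⟩, h3, h4⟩ := hss
    have m1 := hmat s hs
    have m2 := hmat s' hs'
    rw [h1, h2, h4, h3] at m1
    rw [← m2] at m1
    obtain ⟨-, hp, h5, -⟩ := hmem s hs
    obtain ⟨-, hp', h5', -⟩ := hmem s' hs'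
    rw [h3] at h5
    obtain ⟨h6, h7⟩ := hermite_inj h5 h5' m1
    obtain ⟨⟨q, y⟩, σ⟩ := s
    obtain ⟨⟨q', y'⟩, σ'⟩ := s'
    simp only at h3 h6 h7
    subst h3 h6 h7
    rfl
  have hsub : S.image Φ ⊆ G ×ˢ (Finset.Ioc N (4 * N) ×ˢ Finset.Icc (-M) M) := by
    intro t ht'
    rw [Finset.mem_image] at ht'
    obtain ⟨s, hs, rfl⟩ := ht'
    obtain ⟨h1, h2, h3, h4⟩ := hmem s hs
    rw [Finset.mem_product, Finset.mem_product, Finset.mem_Ioc, Finset.mem_Icc]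
    refine ⟨Finset.mem_image_of_mem (fun s => (cf s, ef s)) hs, h1, ?_⟩
    exact abs_le.1 (hM1 s hs)
  have hle : ∑ s ∈ S, ‖f (s.2 • zt z s.1)‖ ^ 2 ≤
      ∑ t ∈ G ×ˢ (Finset.Ioc N (4 * N) ×ˢ Finset.Icc (-M) M), F t := by
    rw [Finset.sum_congr rfl hterm, ← Finset.sum_image hinj]
    exact Finset.sum_le_sum_of_subset_of_nonneg hsub fun t _ _ => hF0 t
  refine hle.trans ?_
  have hcomplex : (((∑ t ∈ G ×ˢ (Finset.Ioc N (4 * N) ×ˢ Finset.Icc (-M) M), F t : ℝ)) : ℂ) =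
      ∑ i ∈ L, ∑ i' ∈ L, ((a i * a i' : ℝ) : ℂ) * ∑ g ∈ G, ZZ A T N M (W i) (W i') z g.1 g.2 := by
    have e1 : ∀ i ∈ L, ∀ i' ∈ L, ((a i * a i' : ℝ) : ℂ) * ∑ g ∈ G, ZZ A T N M (W i) (W i') z g.1 g.2 =
        ∑ t ∈ G ×ˢ (Finset.Ioc N (4 * N) ×ˢ Finset.Icc (-M) M),
          if om (ht t.1.2 z) t.2.1 t.2.2 then ((a i * a i' : ℝ) : ℂ) *
            osc A T (dist (W i) (VV t.1.1 t.1.2 t.2.1 t.2.2 z))
              (dist (W i') (VV t.1.1 t.1.2 t.2.1 t.2.2 z)) else 0 := by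
      intro i _ i' _
      rw [Finset.sum_product, Finset.mul_sum]
      refine Finset.sum_congr rfl fun g _ => ?_
      unfold ZZ
      rw [Finset.sum_product, Finset.mul_sum]
      refine Finset.sum_congr rfl fun q _ => ?_
      rw [Finset.mul_sum]
      refine Finset.sum_congr rfl fun b _ => ?_
      dsimp only
      split_ifs
      · rfl
      · rw [mul_zero]
    rw [Finset.sum_congr rfl fun i hi => Finset.sum_congr rfl fun i' hi' => e1 i hi i' hi']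
    push_cast
    rw [Finset.sum_congr rfl fun i _ => Finset.sum_comm, Finset.sum_comm]
    refine Finset.sum_congr rfl fun t _ => ?_
    simp only [hF]
    split_ifs
    · have h7 := R3_norm_sq L W a A T (VV t.1.1 t.1.2 t.2.1 t.2.2 z)
      rw [hf]
      dsimp only
      rw [h7]
      refine Finset.sum_congr rfl fun i _ => Finset.sum_congr rfl fun i' _ => ?_
      push_cast
      ring
    · simp
  rw [← hcomplex, Complex.norm_real]
  exact le_abs_self _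

end Pool.Agent.H19.Sup
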