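import Mathlib
import Pool.Agent.H19.Sup.St
import Pool.Agent.H19.Sup.AP
import Pool.Agent.H19.Sup.R3
import Pool.Agent.H19.Sup.CL2
import Pool.Agent.H19.Sup.NR1
import Pool.Agent.H19.Sup.NR2
import Pool.Agent.H19.Sup.B1
import Pool.Agent.H19.Sup.F0
import Pool.Agent.H19.Maass.Cells

set_option autoImplicit false

/-!
# F1: bound for the oscillating part

Choose `g i` with `W i = g i • zt z i`, `|re| ≤ 1/2`, `1/2 ≤ im` (`Maass.exists_move'`).  `∑_{σ ∈ S} wv (dist (zt i) (σ • zt j))` is the sum over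
all `σ` (terms with distance `≥ 1/2` vanish), hence (`σ → g i σ`) the sum over `σ ∈ S'` of `wv (dist (W i) (σ • zt j))`, where `S'` is a finite set
containing all `σ` with `dist (W i) (σ • zt j) ≤ 1/2` for some `i, j ∈ II N`.

*High part* (`h0 < (W i).im`): `≤ N^(-2) B0 * high_pairs ≤ K B0 N⁴ / h0`.

*Low part.*  Let `P` be the set of the `(j, σ) ∈ II N × S'` with `dist (W i) (σ • zt j) < 1/2` for some low `i`.  Cauchy-Schwarz: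
`|low|² ≤ (∑_{P} 1/q_j²) * ∑_{(j,σ) ∈ P} |∑_{i low} wv (dist (W i) (σ • zt j)) / p_i|²`.
First factor: `≤ N^(-2) low_count ≤ K N (1 + log h0)` (`near_im`: `im ≥ 3/5 * 1/2 ≥ 1/4`, `im ≤ 5/3 h0 ≤ 2 h0`, `|re| ≤ 1/2 + im`).
Second factor: `majorant` (hypothesis on heights: `near_orbit`, `5 * 5/3 * max h0 2 ≤ 9 h0 ≤ N`, `2 ≤ h0`), so it is at most
`∑_{i, i'} N^(-2) ‖∑_g ZZ ..‖`: the pairs with `dist (W i) (W i') < μ` are at most (`pair_count`, `cosh_le_of_dist`,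
`dist (W i) (W i') = dist (zt i) ((g i)⁻¹ g i' • zt i')`, `MM` contains these terms) `C N^(6+ε) μ² (1 + Y0)`, each `≤ K N³ B0²`
(`all_planes_triv`); the other ones, at most `(63 N³)²`, by `all_planes`.
-/

namespace Pool.Agent.H19.Sup

open UpperHalfPlane
open Pool.Agent.H19.Maass
open scoped MatrixGroups ComplexConjugate ENNReal

/-- moving all points into the fundamental domain -/
lemma F1_FF {A : ℝ → ℂ} {B0 B1 ρ : ℝ} (h : Amp A B0 B1 ρ) (T : ℝ) (N : ℕ) (z : ℍ)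
    (g : (Σ _ : ℕ, Σ _ : ℕ, ℕ) → SL(2, ℤ)) {S S' : Finset SL(2, ℤ)}
    (hS : ∀ i ∈ II N, ∀ j ∈ II N, ∀ σ : SL(2, ℤ), dist (zt z i) (σ • zt z j) ≤ 1 / 2 → σ ∈ S)
    (hS' : ∀ i ∈ II N, ∀ j ∈ II N, ∀ σ : SL(2, ℤ), dist (g i • zt z i) (σ • zt z j) ≤ 1 / 2 → σ ∈ S') :
    FF A T N z S = ∑ i ∈ II N, ∑ j ∈ II N, ((1 / (i.1 : ℝ) * (1 / (j.1 : ℝ)) : ℝ) : ℂ) *
      ∑ σ ∈ S', wv A T (dist (g i • zt z i) (σ • zt z j)) := by
  unfold FF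
  refine Finset.sum_congr rfl fun i hi => Finset.sum_congr rfl fun j hj => ?_
  rw [F0_shift h T (g i) (zt z i) (zt z j) (hS i hi j hj) (hS' i hi j hj)]

/-- the high part -/
lemma F1_high {K : ℝ} {A : ℝ → ℂ} {B0 B1 ρ : ℝ} (h : Amp A B0 B1 ρ) (T : ℝ) {N : ℕ} (hN : 1 ≤ N) (z : ℍ)
    (g : (Σ _ : ℕ, Σ _ : ℕ, ℕ) → SL(2, ℤ)) (S' : Finset SL(2, ℤ)) (I : Finset (Σ _ : ℕ, Σ _ : ℕ, ℕ))
    (hI : I ⊆ II N) (hK : 0 ≤ K)
    (hp : ∑ i ∈ I, ∑ j ∈ II N, ∑' σ : SL(2, ℤ), ic (dist (g i • zt z i) (σ • zt z j) ≤ 1 / 2) ≤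
      ENNReal.ofReal K) :
    ‖∑ i ∈ I, ∑ j ∈ II N, ((1 / (i.1 : ℝ) * (1 / (j.1 : ℝ)) : ℝ) : ℂ) *
      ∑ σ ∈ S', wv A T (dist (g i • zt z i) (σ • zt z j))‖ ≤ B0 / N ^ 2 * K := by
  have hB := h.B0_nonneg
  have hN0 : (0 : ℝ) < N := by exact_mod_cast hN
  rw [← ENNReal.ofReal_le_ofReal_iff (by positivity)]
  have h1 : ∀ i ∈ I, ∀ j ∈ II N, ENNReal.ofReal ‖((1 / (i.1 : ℝ) * (1 / (j.1 : ℝ)) : ℝ) : ℂ) *
      ∑ σ ∈ S', wv A T (dist (g i • zt z i) (σ • zt z j))‖ ≤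
      ENNReal.ofReal (B0 / N ^ 2) * ∑' σ : SL(2, ℤ), ic (dist (g i • zt z i) (σ • zt z j) ≤ 1 / 2) := by
    intro i hi j hj
    obtain ⟨a1, a2⟩ := inv_II hN (hI hi)
    obtain ⟨b1, b2⟩ := inv_II hN hj
    rw [norm_mul, Complex.norm_real, Real.norm_eq_abs, abs_of_pos (mul_pos a1 b1),
      ENNReal.ofReal_mul (mul_pos a1 b1).le]
    have h2 : ENNReal.ofReal ‖∑ σ ∈ S', wv A T (dist (g i • zt z i) (σ • zt z j))‖ ≤
        ENNReal.ofReal B0 * ∑' σ : SL(2, ℤ), ic (dist (g i • zt z i) (σ • zt z j) ≤ 1 / 2) := by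
      calc ENNReal.ofReal ‖∑ σ ∈ S', wv A T (dist (g i • zt z i) (σ • zt z j))‖
          ≤ ENNReal.ofReal (∑ σ ∈ S', ‖wv A T (dist (g i • zt z i) (σ • zt z j))‖) :=
            ENNReal.ofReal_le_ofReal (norm_sum_le _ _)
        _ = ∑ σ ∈ S', ENNReal.ofReal ‖wv A T (dist (g i • zt z i) (σ • zt z j))‖ :=
            ENNReal.ofReal_sum_of_nonneg fun _ _ => norm_nonneg _
        _ ≤ ∑ σ ∈ S', ENNReal.ofReal B0 * ic (dist (g i • zt z i) (σ • zt z j) ≤ 1 / 2) :=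
            Finset.sum_le_sum fun σ _ => wv_le h T _
        _ ≤ _ := by
            rw [← Finset.mul_sum]
            exact mul_le_mul_right (ENNReal.sum_le_tsum _) _
    calc ENNReal.ofReal (1 / (i.1 : ℝ) * (1 / (j.1 : ℝ))) *
          ENNReal.ofReal ‖∑ σ ∈ S', wv A T (dist (g i • zt z i) (σ • zt z j))‖
        ≤ ENNReal.ofReal (1 / N * (1 / N)) * (ENNReal.ofReal B0 *
          ∑' σ : SL(2, ℤ), ic (dist (g i • zt z i) (σ • zt z j) ≤ 1 / 2)) :=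
          mul_le_mul' (ENNReal.ofReal_le_ofReal (mul_le_mul a2 b2 b1.le (by positivity))) h2
      _ = _ := by
          rw [← mul_assoc, ← ENNReal.ofReal_mul (by positivity)]
          congr 2
          field_simp
  calc ENNReal.ofReal ‖∑ i ∈ I, ∑ j ∈ II N, ((1 / (i.1 : ℝ) * (1 / (j.1 : ℝ)) : ℝ) : ℂ) *
      ∑ σ ∈ S', wv A T (dist (g i • zt z i) (σ • zt z j))‖
      ≤ ENNReal.ofReal (∑ i ∈ I, ∑ j ∈ II N, ‖((1 / (i.1 : ℝ) * (1 / (j.1 : ℝ)) : ℝ) : ℂ) *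
        ∑ σ ∈ S', wv A T (dist (g i • zt z i) (σ • zt z j))‖) :=
        ENNReal.ofReal_le_ofReal ((norm_sum_le _ _).trans
          (Finset.sum_le_sum fun i _ => norm_sum_le _ _))
    _ = ∑ i ∈ I, ∑ j ∈ II N, ENNReal.ofReal ‖((1 / (i.1 : ℝ) * (1 / (j.1 : ℝ)) : ℝ) : ℂ) *
        ∑ σ ∈ S', wv A T (dist (g i • zt z i) (σ • zt z j))‖ := by
        rw [ENNReal.ofReal_sum_of_nonneg fun _ _ => Finset.sum_nonneg fun _ _ => norm_nonneg _]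
        exact Finset.sum_congr rfl fun i _ => ENNReal.ofReal_sum_of_nonneg fun _ _ => norm_nonneg _
    _ ≤ ∑ i ∈ I, ∑ j ∈ II N, ENNReal.ofReal (B0 / N ^ 2) *
        ∑' σ : SL(2, ℤ), ic (dist (g i • zt z i) (σ • zt z j) ≤ 1 / 2) :=
        Finset.sum_le_sum fun i hi => Finset.sum_le_sum fun j hj => h1 i hi j hj
    _ = ENNReal.ofReal (B0 / N ^ 2) * ∑ i ∈ I, ∑ j ∈ II N,
        ∑' σ : SL(2, ℤ), ic (dist (g i • zt z i) (σ • zt z j) ≤ 1 / 2) := by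
        simp_rw [← Finset.mul_sum]
    _ ≤ ENNReal.ofReal (B0 / N ^ 2) * ENNReal.ofReal K := mul_le_mul_right hp _
    _ = _ := by rw [← ENNReal.ofReal_mul (by positivity)]

/-- the number of pairs of near points -/
lemma F1_close {r : ℝ} (hr : r ≤ 1) (N : ℕ) (z : ℍ)
    (g : (Σ _ : ℕ, Σ _ : ℕ, ℕ) → SL(2, ℤ)) (I : Finset (Σ _ : ℕ, Σ _ : ℕ, ℕ)) (hI : I ⊆ II N) :
    ∑ i ∈ I, ∑ i' ∈ I, ic (dist (g i • zt z i) (g i' • zt z i') ≤ r) ≤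
      ∑ p ∈ PR N, ∑ q ∈ PR N, MM (fun s => ic (s ≤ 2 * r ^ 2)) (p ^ 2) (q ^ 2) z := by
  have h1 := II_le_MM (fun s => ic (s ≤ 2 * r ^ 2)) (fun _ _ => 1) N z
  simp only [one_mul] at h1
  refine le_trans ?_ h1
  have h2 : ∀ i i', ic (dist (g i • zt z i) (g i' • zt z i') ≤ r) ≤
      ∑' σ : SL(2, ℤ), ic (2 * Real.cosh (dist (zt z i) (σ • zt z i')) - 2 ≤ 2 * r ^ 2) := by
    intro i i'
    refine le_trans ?_ (ENNReal.le_tsum ((g i)⁻¹ * g i'))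
    refine ic_mono fun h => cosh_le_of_dist hr ?_
    rw [mul_smul, dist_sl', inv_inv]
    exact h
  calc ∑ i ∈ I, ∑ i' ∈ I, ic (dist (g i • zt z i) (g i' • zt z i') ≤ r)
      ≤ ∑ i ∈ I, ∑ i' ∈ I, ∑' σ : SL(2, ℤ),
          ic (2 * Real.cosh (dist (zt z i) (σ • zt z i')) - 2 ≤ 2 * r ^ 2) :=
        Finset.sum_le_sum fun i _ => Finset.sum_le_sum fun i' _ => h2 i i'
    _ ≤ ∑ i ∈ II N, ∑ i' ∈ II N, ∑' σ : SL(2, ℤ),
          ic (2 * Real.cosh (dist (zt z i) (σ • zt z i')) - 2 ≤ 2 * r ^ 2) := by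
        refine le_trans (Finset.sum_le_sum fun i _ => Finset.sum_le_sum_of_subset hI)
          (Finset.sum_le_sum_of_subset hI)

open Classical in
/-- Cauchy-Schwarz -/
lemma F1_cs {A : ℝ → ℂ} {B0 B1 ρ : ℝ} (h : Amp A B0 B1 ρ) (T : ℝ) {N : ℕ} (hN : 1 ≤ N) (z : ℍ)
    (W : (Σ _ : ℕ, Σ _ : ℕ, ℕ) → ℍ) (S' : Finset SL(2, ℤ)) (I : Finset (Σ _ : ℕ, Σ _ : ℕ, ℕ)) :
    ‖∑ i ∈ I, ∑ j ∈ II N, ((1 / (i.1 : ℝ) * (1 / (j.1 : ℝ)) : ℝ) : ℂ) *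
      ∑ σ ∈ S', wv A T (dist (W i) (σ • zt z j))‖ ^ 2 ≤
    (((II N ×ˢ S').filter fun s => ∃ i ∈ I, dist (W i) (s.2 • zt z s.1) < 1 / 2).card / (N : ℝ) ^ 2) *
      ∑ s ∈ (II N ×ˢ S').filter fun s => ∃ i ∈ I, dist (W i) (s.2 • zt z s.1) < 1 / 2,
        ‖∑ i ∈ I, ((1 / (i.1 : ℝ) : ℝ) : ℂ) * wv A T (dist (W i) (s.2 • zt z s.1))‖ ^ 2 := by
  have hN0 : (0 : ℝ) < N := by exact_mod_cast hN
  set P := (II N ×ˢ S').filter fun s => ∃ i ∈ I, dist (W i) (s.2 • zt z s.1) < 1 / 2 with hP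
  set f : (Σ _ : ℕ, Σ _ : ℕ, ℕ) × SL(2, ℤ) → ℂ := fun s =>
    ∑ i ∈ I, ((1 / (i.1 : ℝ) : ℝ) : ℂ) * wv A T (dist (W i) (s.2 • zt z s.1)) with hf
  have e1 : ∑ i ∈ I, ∑ j ∈ II N, ((1 / (i.1 : ℝ) * (1 / (j.1 : ℝ)) : ℝ) : ℂ) *
      ∑ σ ∈ S', wv A T (dist (W i) (σ • zt z j)) =
      ∑ s ∈ II N ×ˢ S', ((1 / (s.1.1 : ℝ) : ℝ) : ℂ) * f s := by
    rw [Finset.sum_product, Finset.sum_comm]
    refine Finset.sum_congr rfl fun j _ => ?_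
    simp_rw [hf, Finset.mul_sum]
    rw [Finset.sum_comm]
    refine Finset.sum_congr rfl fun σ _ => Finset.sum_congr rfl fun i _ => ?_
    push_cast
    ring
  have e2 : ∑ s ∈ II N ×ˢ S', ((1 / (s.1.1 : ℝ) : ℝ) : ℂ) * f s =
      ∑ s ∈ P, ((1 / (s.1.1 : ℝ) : ℝ) : ℂ) * f s := by
    refine (Finset.sum_subset (Finset.filter_subset _ _) fun s hs hsP => ?_).symm
    have h3 : f s = 0 := by
      rw [hf]
      simp only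
      refine Finset.sum_eq_zero fun i hi => ?_
      rw [wv_zero h T, mul_zero]
      by_contra hc
      exact hsP (Finset.mem_filter.2 ⟨hs, i, hi, not_le.1 hc⟩)
    rw [h3, mul_zero]
  have e3 : ‖∑ s ∈ P, ((1 / (s.1.1 : ℝ) : ℝ) : ℂ) * f s‖ ≤ 1 / N * ∑ s ∈ P, ‖f s‖ := by
    rw [Finset.mul_sum]
    refine (norm_sum_le _ _).trans (Finset.sum_le_sum fun s hs => ?_)
    have h4 : s.1 ∈ II N := (Finset.mem_product.1 (Finset.mem_filter.1 hs).1).1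
    obtain ⟨b1, b2⟩ := inv_II hN h4
    rw [norm_mul, Complex.norm_real, Real.norm_eq_abs, abs_of_pos b1]
    exact mul_le_mul_of_nonneg_right b2 (norm_nonneg _)
  have e4 := sq_sum_le_card_mul_sum_sq (s := P) (f := fun s => ‖f s‖)
  rw [e1, e2]
  calc ‖∑ s ∈ P, ((1 / (s.1.1 : ℝ) : ℝ) : ℂ) * f s‖ ^ 2 ≤ (1 / N * ∑ s ∈ P, ‖f s‖) ^ 2 :=
        pow_le_pow_left₀ (norm_nonneg _) e3 2
    _ = 1 / (N : ℝ) ^ 2 * (∑ s ∈ P, ‖f s‖) ^ 2 := by rw [mul_pow, one_div_pow]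
    _ ≤ 1 / (N : ℝ) ^ 2 * (P.card * ∑ s ∈ P, ‖f s‖ ^ 2) :=
        mul_le_mul_of_nonneg_left e4 (by positivity)
    _ = _ := by ring

open Classical in
/-- the number of points near a low point -/
lemma F1_card {K : ℝ} (hK : 0 ≤ K) {N : ℕ} (z : ℍ) (W : (Σ _ : ℕ, Σ _ : ℕ, ℕ) → ℍ)
    (S' : Finset SL(2, ℤ)) (I : Finset (Σ _ : ℕ, Σ _ : ℕ, ℕ)) {h0 : ℝ} (hh : 1 ≤ h0)
    (hW : ∀ i ∈ I, |(W i).re| ≤ 1 / 2 ∧ 1 / 2 ≤ (W i).im ∧ (W i).im ≤ h0)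
    (hc : ∑ i ∈ II N, ∑' σ : SL(2, ℤ),
      ic (1 / 4 ≤ (σ • zt z i).im ∧ (σ • zt z i).im ≤ 2 * h0 ∧
        |(σ • zt z i).re| ≤ 1 / 2 + (σ • zt z i).im) ≤ ENNReal.ofReal K) :
    (((II N ×ˢ S').filter fun s => ∃ i ∈ I, dist (W i) (s.2 • zt z s.1) < 1 / 2).card : ℝ) ≤ K := by
  set P := (II N ×ˢ S').filter fun s => ∃ i ∈ I, dist (W i) (s.2 • zt z s.1) < 1 / 2 with hP
  rw [← ENNReal.ofReal_le_ofReal_iff hK, ENNReal.ofReal_natCast]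
  refine le_trans ?_ hc
  have h1 : ∀ s ∈ P, (1 : ℝ≥0∞) ≤ ic (1 / 4 ≤ (s.2 • zt z s.1).im ∧ (s.2 • zt z s.1).im ≤ 2 * h0 ∧
        |(s.2 • zt z s.1).re| ≤ 1 / 2 + (s.2 • zt z s.1).im) := by
    intro s hs
    obtain ⟨_, i, hi, hd⟩ := Finset.mem_filter.1 hs
    obtain ⟨w1, w2, w3⟩ := hW i hi
    rw [dist_comm] at hd
    obtain ⟨n1, n2, n3⟩ := near_im hd.le
    rw [ic_true]
    refine ⟨by linarith, by linarith, ?_⟩
    have h5 := abs_sub_abs_le_abs_sub (s.2 • zt z s.1).re (W i).re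
    linarith
  calc (P.card : ℝ≥0∞) = ∑ s ∈ P, 1 := by simp
    _ ≤ ∑ s ∈ P, ic (1 / 4 ≤ (s.2 • zt z s.1).im ∧ (s.2 • zt z s.1).im ≤ 2 * h0 ∧
        |(s.2 • zt z s.1).re| ≤ 1 / 2 + (s.2 • zt z s.1).im) := Finset.sum_le_sum h1
    _ ≤ ∑ s ∈ II N ×ˢ S', ic (1 / 4 ≤ (s.2 • zt z s.1).im ∧ (s.2 • zt z s.1).im ≤ 2 * h0 ∧
        |(s.2 • zt z s.1).re| ≤ 1 / 2 + (s.2 • zt z s.1).im) :=
        Finset.sum_le_sum_of_subset (Finset.filter_subset _ _)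
    _ = ∑ i ∈ II N, ∑ σ ∈ S', ic (1 / 4 ≤ (σ • zt z i).im ∧ (σ • zt z i).im ≤ 2 * h0 ∧
        |(σ • zt z i).re| ≤ 1 / 2 + (σ • zt z i).im) := by rw [Finset.sum_product]
    _ ≤ _ := Finset.sum_le_sum fun i _ => ENNReal.sum_le_tsum _

open Classical in
/-- the sum over pairs -/
lemma F1_pairs {N : ℕ} (hN : 1 ≤ N) (W : (Σ _ : ℕ, Σ _ : ℕ, ℕ) → ℍ)
    (I : Finset (Σ _ : ℕ, Σ _ : ℕ, ℕ)) (hI : I ⊆ II N) {μ : ℝ}
    (Z : (Σ _ : ℕ, Σ _ : ℕ, ℕ) → (Σ _ : ℕ, Σ _ : ℕ, ℕ) → ℂ) {V0 V1 C : ℝ} (hV0 : 0 ≤ V0) (hV1 : 0 ≤ V1)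
    (hC : 0 ≤ C) (hZ0 : ∀ i ∈ I, ∀ i' ∈ I, ‖Z i i'‖ ≤ V0)
    (hZ1 : ∀ i ∈ I, ∀ i' ∈ I, μ ≤ dist (W i) (W i') → ‖Z i i'‖ ≤ V1)
    (hc : ∑ i ∈ I, ∑ i' ∈ I, ic (dist (W i) (W i') ≤ μ) ≤ ENNReal.ofReal C) :
    ‖∑ i ∈ I, ∑ i' ∈ I, ((1 / (i.1 : ℝ) * (1 / (i'.1 : ℝ)) : ℝ) : ℂ) * Z i i'‖ ≤
      1 / (N : ℝ) ^ 2 * (C * V0 + (63 * (N : ℝ) ^ 3) ^ 2 * V1) := by
  have hN0 : (0 : ℝ) < N := by exact_mod_cast hN
  have h1 : ∀ i ∈ I, ∀ i' ∈ I, ‖((1 / (i.1 : ℝ) * (1 / (i'.1 : ℝ)) : ℝ) : ℂ) * Z i i'‖ ≤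
      1 / (N : ℝ) ^ 2 * ((if dist (W i) (W i') ≤ μ then V0 else 0) + V1) := by
    intro i hi i' hi'
    obtain ⟨a1, a2⟩ := inv_II hN (hI hi)
    obtain ⟨b1, b2⟩ := inv_II hN (hI hi')
    rw [norm_mul, Complex.norm_real, Real.norm_eq_abs, abs_of_pos (mul_pos a1 b1)]
    refine mul_le_mul ?_ ?_ (norm_nonneg _) (by positivity)
    · rw [show 1 / (N : ℝ) ^ 2 = 1 / N * (1 / N) by field_simp]
      exact mul_le_mul a2 b2 b1.le (by positivity)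
    · split_ifs with hd
      · have := hZ0 i hi i' hi'; linarith
      · have := hZ1 i hi i' hi' (not_le.1 hd).le; linarith
  have h2 : ∑ i ∈ I, ∑ i' ∈ I, (if dist (W i) (W i') ≤ μ then V0 else 0) ≤ C * V0 := by
    rw [← ENNReal.ofReal_le_ofReal_iff (by positivity), ENNReal.ofReal_mul hC,
      ENNReal.ofReal_sum_of_nonneg (fun i _ => Finset.sum_nonneg fun i' _ => by split_ifs <;> positivity)]
    calc ∑ i ∈ I, ENNReal.ofReal (∑ i' ∈ I, if dist (W i) (W i') ≤ μ then V0 else 0)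
        = ∑ i ∈ I, ∑ i' ∈ I, ic (dist (W i) (W i') ≤ μ) * ENNReal.ofReal V0 := by
          refine Finset.sum_congr rfl fun i _ => ?_
          rw [ENNReal.ofReal_sum_of_nonneg (fun i' _ => by split_ifs <;> positivity)]
          refine Finset.sum_congr rfl fun i' _ => ?_
          split_ifs with hd
          · rw [ic_true hd, one_mul]
          · rw [ic_false hd, zero_mul, ENNReal.ofReal_zero]
      _ = (∑ i ∈ I, ∑ i' ∈ I, ic (dist (W i) (W i') ≤ μ)) * ENNReal.ofReal V0 := by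
          simp_rw [← Finset.sum_mul]
      _ ≤ _ := mul_le_mul_left hc _
  have h3 : (I.card : ℝ) ≤ 63 * (N : ℝ) ^ 3 :=
    le_trans (by exact_mod_cast Finset.card_le_card hI) (card_II_le N)
  calc ‖∑ i ∈ I, ∑ i' ∈ I, ((1 / (i.1 : ℝ) * (1 / (i'.1 : ℝ)) : ℝ) : ℂ) * Z i i'‖
      ≤ ∑ i ∈ I, ∑ i' ∈ I, ‖((1 / (i.1 : ℝ) * (1 / (i'.1 : ℝ)) : ℝ) : ℂ) * Z i i'‖ :=
        (norm_sum_le _ _).trans (Finset.sum_le_sum fun i _ => norm_sum_le _ _)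
    _ ≤ ∑ i ∈ I, ∑ i' ∈ I, 1 / (N : ℝ) ^ 2 * ((if dist (W i) (W i') ≤ μ then V0 else 0) + V1) :=
        Finset.sum_le_sum fun i hi => Finset.sum_le_sum fun i' hi' => h1 i hi i' hi'
    _ = 1 / (N : ℝ) ^ 2 * (∑ i ∈ I, ∑ i' ∈ I, (if dist (W i) (W i') ≤ μ then V0 else 0) +
          (I.card : ℝ) * (I.card * V1)) := by
        simp_rw [← Finset.mul_sum, Finset.sum_add_distrib, Finset.sum_const, nsmul_eq_mul]
    _ ≤ 1 / (N : ℝ) ^ 2 * (C * V0 + (63 * (N : ℝ) ^ 3) ^ 2 * V1) := by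
        refine mul_le_mul_of_nonneg_left (add_le_add h2 ?_) (by positivity)
        rw [← mul_assoc, sq]
        exact mul_le_mul_of_nonneg_right (mul_le_mul h3 h3 (Nat.cast_nonneg _) (by positivity)) hV1

open Classical in
theorem far_bound_of (all_planes : AllPlanesS) : FarBoundS := by
  obtain ⟨c, E, hc, hc1, hAP⟩ := all_planes
  refine ⟨c, E, hc, hc1, fun Y0 ε hε => ?_⟩
  obtain ⟨K3, hK3, hall⟩ := hAP Y0
  obtain ⟨Kt, hKt, htriv⟩ := all_planes_triv Y0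
  obtain ⟨C4, hC4, hpair⟩ := pair_count (ε / 2) (by positivity)
  obtain ⟨K1, hK1, hlow⟩ := low_count
  obtain ⟨K2, hK2, hhigh⟩ := high_pairs
  set Y1 := max Y0 1 with hY1
  have hY1p : 1 ≤ Y1 := le_max_right _ _
  refine ⟨K2 * Y1 ^ 2 + √(K1 * Y1 * (C4 * (1 + Y1) * Kt + 3969 * K3)), by positivity, ?_⟩
  intro A B0 B1 ρ T μ h0 N z S hA hρ hρ1 hμN hμ1 hh0 hh9 hNY hN hNT hTN hre him hzY hS
  have hB0 := hA.B0_nonneg
  have hN0 : (0 : ℝ) < N := by exact_mod_cast hN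
  have hNr : (1 : ℝ) ≤ N := by exact_mod_cast hN
  have hμ : 0 < μ := lt_of_lt_of_le (by positivity) hμN
  have hz0 := z.im_pos
  have hzY1 : z.im ≤ Y1 := hzY.trans (le_max_left _ _)
  have hB1 : 0 ≤ B1 := by
    have := (norm_nonneg _).trans (hA.lip 1 0)
    simpa using this
  -- moving into the fundamental domain
  choose g hg1 hg2 _ using fun i : (Σ _ : ℕ, Σ _ : ℕ, ℕ) => exists_move' (zt z i)
  set W : (Σ _ : ℕ, Σ _ : ℕ, ℕ) → ℍ := fun i => g i • zt z i with hW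
  obtain ⟨S', hS'⟩ := exists_cover (II N) W (zt z) (1 / 2)
  rw [F1_FF hA T N z g hS hS']
  set low := (II N).filter fun i => ¬ h0 < (g i • zt z i).im with hlowdef
  have hlowsub : low ⊆ II N := Finset.filter_subset _ _
  rw [← Finset.sum_filter_add_sum_filter_not (II N) (fun i => h0 < (g i • zt z i).im)]
  have hh1 : 1 ≤ h0 := by linarith
  have hlog : 0 ≤ Real.log h0 := Real.log_nonneg hh1
  -- high part
  have hH := F1_high hA T hN z g S' _ (Finset.filter_subset _ _) (by positivity)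
    (hhigh z hre him N hN h0 hh1 g (fun i _ => hg1 i))
  have hH2 : B0 / (N : ℝ) ^ 2 * (K2 * ((N : ℝ) ^ 6 * z.im ^ 2 / h0)) ≤
      K2 * Y1 ^ 2 * (N : ℝ) ^ 4 * (B0 / h0) := by
    have e1 : z.im ^ 2 ≤ Y1 ^ 2 := pow_le_pow_left₀ hz0.le hzY1 2
    calc B0 / (N : ℝ) ^ 2 * (K2 * ((N : ℝ) ^ 6 * z.im ^ 2 / h0))
        = K2 * z.im ^ 2 * (N : ℝ) ^ 4 * (B0 / h0) := by field_simp
      _ ≤ _ := by gcongr
  -- low part
  have hWlow : ∀ i ∈ low, |(W i).re| ≤ 1 / 2 ∧ 1 / 2 ≤ (W i).im ∧ (W i).im ≤ h0 := by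
    intro i hi
    exact ⟨hg1 i, hg2 i, not_lt.1 (Finset.mem_filter.1 hi).2⟩
  have hcs := F1_cs hA T hN z W S' low
  have hcard := F1_card (by positivity) z W S' low hh1 hWlow (hlow z hre him N hN h0 hh1)
  set P := (II N ×ˢ S').filter fun s => ∃ i ∈ low, dist (W i) (s.2 • zt z s.1) < 1 / 2 with hP
  obtain ⟨G, M, hG1, hG2, hmaj⟩ := majorant low W (fun i => 1 / (i.1 : ℝ)) A T hA hN z hre him
    (by linarith) P (by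
      intro s hs
      obtain ⟨hs1, i, hi, hd⟩ := Finset.mem_filter.1 hs
      refine ⟨(Finset.mem_product.1 hs1).1, fun γ => ?_⟩
      rw [dist_comm] at hd
      have h1 := near_orbit hd.le (hWlow i hi).2.1 γ
      have h2 : max (W i).im 2 ≤ h0 := max_le (hWlow i hi).2.2 hh0
      linarith)
  set Q : ℝ := B0 ^ 2 * (μ + (N : ℝ) ^ (-c)) +
        B0 * (B0 + B1) * ((ρ * μ)⁻¹) ^ E * (N : ℝ) ^ (-c) with hQ
  have hQ0 : 0 ≤ Q := by positivity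
  have hcl : ∑ i ∈ low, ∑ i' ∈ low, ic (dist (W i) (W i') ≤ μ) ≤
      ENNReal.ofReal (C4 * ((N : ℝ) ^ (6 + ε) * μ ^ 2) * (1 + z.im)) := by
    refine (F1_close hμ1 N z g low hlowsub).trans ?_
    have := hpair z hre him N hN μ hμN hμ1
    rwa [show 2 * (ε / 2) = ε by ring] at this
  have hprs := F1_pairs hN W low hlowsub (μ := μ)
    (fun i i' => ∑ g ∈ G, ZZ A T N M (W i) (W i') z g.1 g.2)
    (V0 := Kt * (N : ℝ) ^ 3 * B0 ^ 2) (V1 := K3 * (N : ℝ) ^ 3 * Q)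
    (C := C4 * ((N : ℝ) ^ (6 + ε) * μ ^ 2) * (1 + z.im))
    (by positivity) (by positivity) (by positivity)
    (fun i hi i' hi' => htriv A B0 B1 ρ T N M (W i) (W i') z hA hN him hzY (hWlow i hi).2.1
      (hWlow i' hi').2.1 G hG1)
    (fun i hi i' hi' hd => hall A B0 B1 ρ T μ N M (W i) (W i') z hA hρ hρ1 hμ hμ1 hN hNT hTN him hzY
      (hWlow i hi).2.1 (hWlow i' hi').2.1 hd G hG1 (hG2 i hi)) hcl
  have hmul : (N : ℝ) ^ (6 + ε) = (N : ℝ) ^ 6 * (N : ℝ) ^ ε := by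
    rw [Real.rpow_add hN0, Real.rpow_ofNat]
  set R : ℝ := (N : ℝ) ^ ε * μ ^ 2 * B0 ^ 2 + Q with hR
  have hR0 : 0 ≤ R := by positivity
  have hsq : ‖∑ i ∈ low, ∑ j ∈ II N, ((1 / (i.1 : ℝ) * (1 / (j.1 : ℝ)) : ℝ) : ℂ) *
      ∑ σ ∈ S', wv A T (dist (W i) (σ • zt z j))‖ ^ 2 ≤
      (√(K1 * Y1 * (C4 * (1 + Y1) * Kt + 3969 * K3)) * (N : ℝ) ^ 4 *
        √((1 + Real.log h0) * R)) ^ 2 := by
    have e1 : (P.card : ℝ) / (N : ℝ) ^ 2 ≤ K1 * Y1 * N * (1 + Real.log h0) := by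
      rw [div_le_iff₀ (by positivity)]
      refine hcard.trans ?_
      calc K1 * ((N : ℝ) ^ 3 * z.im) * (1 + Real.log h0)
          ≤ K1 * ((N : ℝ) ^ 3 * Y1) * (1 + Real.log h0) := by gcongr
        _ = _ := by ring
    have e2 : 1 / (N : ℝ) ^ 2 * (C4 * ((N : ℝ) ^ (6 + ε) * μ ^ 2) * (1 + z.im) *
        (Kt * (N : ℝ) ^ 3 * B0 ^ 2) + (63 * (N : ℝ) ^ 3) ^ 2 * (K3 * (N : ℝ) ^ 3 * Q)) ≤
        (N : ℝ) ^ 7 * ((C4 * (1 + Y1) * Kt + 3969 * K3) * R) := by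
      rw [hmul]
      have e3 : (N : ℝ) ^ ε * μ ^ 2 * B0 ^ 2 ≤ R := by rw [hR]; linarith
      have e4 : Q ≤ R := by
        have : 0 ≤ (N : ℝ) ^ ε * μ ^ 2 * B0 ^ 2 := by positivity
        rw [hR]; linarith
      calc 1 / (N : ℝ) ^ 2 * (C4 * ((N : ℝ) ^ 6 * (N : ℝ) ^ ε * μ ^ 2) * (1 + z.im) *
          (Kt * (N : ℝ) ^ 3 * B0 ^ 2) + (63 * (N : ℝ) ^ 3) ^ 2 * (K3 * (N : ℝ) ^ 3 * Q))
          = (N : ℝ) ^ 7 * (C4 * (1 + z.im) * Kt * ((N : ℝ) ^ ε * μ ^ 2 * B0 ^ 2) + 3969 * K3 * Q) := by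
            field_simp
            ring
        _ ≤ (N : ℝ) ^ 7 * (C4 * (1 + Y1) * Kt * R + 3969 * K3 * R) := by gcongr
        _ = _ := by ring
    have e5 := hmaj.trans hprs
    rw [mul_pow, mul_pow, Real.sq_sqrt (by positivity), Real.sq_sqrt (by positivity)]
    calc _ ≤ _ := hcs
      _ ≤ (K1 * Y1 * N * (1 + Real.log h0)) *
          ((N : ℝ) ^ 7 * ((C4 * (1 + Y1) * Kt + 3969 * K3) * R)) :=
          mul_le_mul e1 (e5.trans e2) (Finset.sum_nonneg fun _ _ => by positivity) (by positivity)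
      _ = _ := by ring
  have hL : ‖∑ i ∈ low, ∑ j ∈ II N, ((1 / (i.1 : ℝ) * (1 / (j.1 : ℝ)) : ℝ) : ℂ) *
      ∑ σ ∈ S', wv A T (dist (W i) (σ • zt z j))‖ ≤
      √(K1 * Y1 * (C4 * (1 + Y1) * Kt + 3969 * K3)) * (N : ℝ) ^ 4 *
        √((1 + Real.log h0) * R) := by
    refine le_of_sq_le_sq ?_ (by positivity)
    exact hsq
  refine (norm_add_le _ _).trans ?_
  have hRdef : (N : ℝ) ^ ε * μ ^ 2 * B0 ^ 2 + B0 ^ 2 * (μ + (N : ℝ) ^ (-c)) +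
        B0 * (B0 + B1) * ((ρ * μ)⁻¹) ^ E * (N : ℝ) ^ (-c) = R := by rw [hR, hQ]; ring
  rw [hRdef]
  set s1 := √(K1 * Y1 * (C4 * (1 + Y1) * Kt + 3969 * K3)) with hs1
  set s2 := √((1 + Real.log h0) * R) with hs2
  have p1 : 0 ≤ s1 := Real.sqrt_nonneg _
  have p2 : 0 ≤ s2 := Real.sqrt_nonneg _
  calc _ ≤ K2 * Y1 ^ 2 * (N : ℝ) ^ 4 * (B0 / h0) + s1 * (N : ℝ) ^ 4 * s2 :=
        add_le_add (hH.trans hH2) hL
    _ ≤ (K2 * Y1 ^ 2 + s1) * (N : ℝ) ^ 4 * (B0 / h0 + s2) := by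
        have q1 : 0 ≤ K2 * Y1 ^ 2 * (N : ℝ) ^ 4 * s2 := by positivity
        have q2 : 0 ≤ s1 * (N : ℝ) ^ 4 * (B0 / h0) := by positivity
        nlinarith

end Pool.Agent.H19.Sup
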