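import Mathlib
import Pool.Agent.H19.Sup.L2
import Pool.Agent.H19.Sup.St

set_option autoImplicit false

/-!
# P2: the sum over a plane

Let `Λ = 1 / y ∈ [1, 20 N]`.  By Dirichlet (`Real.exists_rat_abs_sub_le_and_den_le` with `n = ⌊√Λ⌋₊ ≥ 1`) there is
`a / s` in lowest terms, `1 ≤ s ≤ √Λ`, `|X - a / s| ≤ 1 / (s √Λ)`.  Only the `(q, b)` with
`|b / q - X| ≤ y` have nonzero `osc` (`Amp.hi`, `dh_scale`, `dh_small`), call them the window.

* in the window `j := b s - a q` satisfies `|j| = s q |b/q - a/s| ≤ q (s y + √y) ≤ 8 N √y`.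
* `om` fails at a point of the window iff `j = 0` and `s ≤ √Λ / 10`: if `om` fails, `b / q = a' / s'` in lowest terms with
  `s' ≤ √Λ / 10`; if `a'/s' ≠ a/s` then `1/(s s') ≤ |a'/s' - a/s| ≤ y + 1/(s √Λ) ≤ 2/(s √Λ)`, but
  `1/(s s') ≥ 10/(s √Λ)`; so `a'/s' = a/s`, `s = s'` and `j = 0`.  Conversely `j = 0` gives `b/q = a/s`, reduced denominator `s`.
So `PS = ∑_{j ≠ 0, |j| ≤ 8 N √y} LS j + [s > √Λ / 10] LS 0`.

* `j = 0`, `s > √Λ / 10`: at most `3 N / s + 1 ≤ 30 N √y + 1` terms (each `q` gives at most one `b`, and `s ∣ q`), each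
  `≤ B0²`; `N √y ≤ N² y √(20/N)` and `1 ≤ N² y * (20 / N)` because `y ≥ 1/(20 N)`.
* `0 < |j| < μ s y N`: at most `2 μ s y N` values of `j`, `3 N / s + 1` terms each (on a line `q` is determined modulo `s`):
  total `≤ 6 μ y N² + 2 μ s y N ≤ 16 μ y N²` (`s ≤ √(20 N) ≤ 5 N`).
* `μ s y N ≤ |j| ≤ 8 N √y`: `plane_line`; `max s (|j| / (y N)) ≤ max √(20 N) (8 √(20 N)) ≤ 40 √N`, so
  `Nj := N / max s (|j|/(yN)) ≥ √N / 40`, `Nj^(1-c) ≤ Nj (√N / 40)^(-c)`, and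
  `∑_j Nj ≤ 2 (y s N) N / s + 2 ∑_{y s N < j ≤ 8 N √y} y N² / j ≤ 2 N² y (2 + log (8 N))`.
  Absorb the logarithm in `N^(c/4)`.
-/

namespace Pool.Agent.H19.Sup

open Finset

lemma P2_B0 {A : ℝ → ℂ} {B0 B1 ρ : ℝ} (hA : Amp A B0 B1 ρ) : 0 ≤ B0 :=
  (norm_nonneg _).trans (hA.bdd 0)

lemma P2_B1 {A : ℝ → ℂ} {B0 B1 ρ : ℝ} (hA : Amp A B0 B1 ρ) : 0 ≤ B1 := by
  have h := hA.lip 0 1
  have h1 : |(0 : ℝ) - 1| = 1 := by norm_num
  rw [h1, mul_one] at h
  exact (norm_nonneg _).trans h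

lemma P2_osc_norm {A : ℝ → ℂ} {B0 B1 ρ : ℝ} (hA : Amp A B0 B1 ρ) (T d d' : ℝ) :
    ‖osc A T d d'‖ ≤ B0 ^ 2 := by
  unfold osc
  rw [norm_mul, norm_mul, Complex.norm_exp_ofReal_mul_I, mul_one, RCLike.norm_conj, sq]
  exact mul_le_mul (hA.bdd d) (hA.bdd d') (norm_nonneg _) (P2_B0 hA)

lemma P2_osc_zero {A : ℝ → ℂ} {B0 B1 ρ : ℝ} (hA : Amp A B0 B1 ρ) {T d d' : ℝ}
    (h : osc A T d d' ≠ 0) : d < 1 / 2 := by
  by_contra hd
  push Not at hd
  apply h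
  unfold osc
  rw [hA.hi d hd]
  simp

lemma P2_card {a s j : ℤ} (hs : 1 ≤ s) (has : IsCoprime a s) (N : ℕ) :
    ((#{q ∈ Ioc N (4 * N) | s ∣ j + a * ((q : ℕ) : ℤ)} : ℕ) : ℝ) ≤ 3 * N / s + 1 := by
  have hs0 : (0 : ℝ) < s := by exact_mod_cast (by omega : 0 < s)
  rcases Finset.eq_empty_or_nonempty {q ∈ Ioc N (4 * N) | s ∣ j + a * ((q : ℕ) : ℤ)} with h | ⟨q0, hq0⟩
  · rw [h]; simp; positivity
  · obtain ⟨n, hn⟩ := Int.eq_ofNat_of_zero_le (by omega : 0 ≤ s)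
    have hn0 : 0 < n := by omega
    have hsub : {q ∈ Ioc N (4 * N) | s ∣ j + a * ((q : ℕ) : ℤ)} ⊆
        {q ∈ Ioc N (4 * N) | q ≡ q0 [MOD n]} := by
      intro q hq
      rw [mem_filter] at hq hq0 ⊢
      refine ⟨hq.1, ?_⟩
      have h1 : s ∣ a * ((q0 : ℤ) - q) := by
        have := dvd_sub hq0.2 hq.2
        have e : j + a * (q0 : ℤ) - (j + a * (q : ℤ)) = a * ((q0 : ℤ) - q) := by ring
        rwa [e] at this
      have h2 : s ∣ (q0 : ℤ) - q := has.symm.dvd_of_dvd_mul_left h1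
      rw [hn] at h2
      exact (Nat.modEq_iff_dvd).2 h2
    have hc := card_le_card hsub
    have hm := Nat.Ioc_filter_modEq_card N (4 * N) hn0 q0
    have h3 : ((#{q ∈ Ioc N (4 * N) | s ∣ j + a * ((q : ℕ) : ℤ)} : ℕ) : ℤ) ≤
        max (⌊(((4 * N : ℕ) : ℚ) - q0) / (n : ℚ)⌋ - ⌊(((N : ℕ) : ℚ) - q0) / (n : ℚ)⌋) 0 := by
      rw [← hm]; exact_mod_cast hc
    have h4 : ((#{q ∈ Ioc N (4 * N) | s ∣ j + a * ((q : ℕ) : ℤ)} : ℕ) : ℚ) ≤ 3 * N / n + 1 := by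
      have h5 : ((#{q ∈ Ioc N (4 * N) | s ∣ j + a * ((q : ℕ) : ℤ)} : ℕ) : ℚ) ≤
        ((max (⌊(((4 * N : ℕ) : ℚ) - q0) / (n : ℚ)⌋ - ⌊(((N : ℕ) : ℚ) - q0) / (n : ℚ)⌋) 0 : ℤ) : ℚ) := by
        exact_mod_cast h3
      refine h5.trans ?_
      rw [Int.cast_max]
      refine max_le ?_ (by push_cast; positivity)
      push_cast
      have f1 := Int.floor_le ((4 * (N : ℚ) - q0) / (n : ℚ))
      have f2 := Int.sub_one_lt_floor ((((N : ℕ) : ℚ) - q0) / (n : ℚ))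
      have hnq : (0 : ℚ) < n := by exact_mod_cast hn0
      have e : (4 * (N : ℚ) - q0) / n - ((N : ℚ) - q0) / n = 3 * N / n := by field_simp; ring
      linarith
    have h6 : ((((#{q ∈ Ioc N (4 * N) | s ∣ j + a * ((q : ℕ) : ℤ)} : ℕ) : ℚ)) : ℝ) ≤
        ((3 * N / n + 1 : ℚ) : ℝ) := by exact_mod_cast h4
    rw [hn] at h6 ⊢
    push_cast at h6 ⊢
    exact h6

lemma P2_LS_triv {A : ℝ → ℂ} {B0 B1 ρ : ℝ} (hA : Amp A B0 B1 ρ) (T : ℝ) (N : ℕ) (M : ℤ)
    (X Y X' Y' y : ℝ) {a s : ℤ} (j : ℤ) (hs : 1 ≤ s) (has : IsCoprime a s) :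
    ‖LS A T N M X Y X' Y' y a s j‖ ≤ (3 * N / s + 1) * B0 ^ 2 := by
  unfold LS
  have hB : 0 ≤ B0 ^ 2 := sq_nonneg _
  calc _ ≤ ∑ q ∈ Ioc N (4 * N), (if s ∣ j + a * ((q : ℕ) : ℤ) then B0 ^ 2 else 0) := by
        refine (norm_sum_le _ _).trans (sum_le_sum fun q _ => ?_)
        refine (norm_sum_le _ _).trans ?_
        split_ifs with hd
        · obtain ⟨b0, hb0⟩ := hd
          calc _ ≤ ∑ b ∈ Icc (-M) M, (if b = b0 then B0 ^ 2 else 0) := by
                refine sum_le_sum fun b _ => ?_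
                by_cases hb : b * s - a * (q : ℤ) = j
                · have : b = b0 := by
                    have : s * b = s * b0 := by linarith
                    exact mul_left_cancel₀ (by omega) this
                  rw [if_pos hb, if_pos this]
                  exact P2_osc_norm hA _ _ _
                · rw [if_neg hb, norm_zero]
                  split_ifs
                  · exact hB
                  · exact le_rfl
            _ ≤ B0 ^ 2 := by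
                rw [sum_ite_eq']
                split_ifs
                · exact le_rfl
                · exact hB
        · refine le_of_eq (sum_eq_zero fun b _ => ?_)
          rw [if_neg, norm_zero]
          intro h
          exact hd ⟨b, by linarith⟩
    _ = (#{q ∈ Ioc N (4 * N) | s ∣ j + a * ((q : ℕ) : ℤ)} : ℕ) * B0 ^ 2 := by
        rw [← sum_filter, sum_const, nsmul_eq_mul]
    _ ≤ _ := by
        exact mul_le_mul_of_nonneg_right (P2_card hs has N) hB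

lemma P2_om_imp {y : ℝ} {s : ℕ} {a : ℤ} (hs : 1 ≤ s)
    (has : Nat.Coprime a.natAbs s) {q : ℕ} (hq : 1 ≤ q) {b : ℤ}
    (hj : b * s - a * q = 0) (hsm : (s : ℝ) ≤ √(1 / y) / 10) : ¬ om y q b := by
  unfold om
  push Not
  have h1 : (s : ℤ) ∣ a * (q : ℤ) := ⟨b, by linarith⟩
  have hcop : IsCoprime (s : ℤ) a := by
    rw [Int.isCoprime_iff_gcd_eq_one, Int.gcd_comm]
    simpa [Int.gcd] using has
  have h2 : (s : ℤ) ∣ (q : ℤ) := hcop.dvd_of_dvd_mul_left h1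
  have h3 : s ∣ q := by exact_mod_cast h2
  obtain ⟨g, hg⟩ := h3
  have hg0 : 0 < g := by
    rcases Nat.eq_zero_or_pos g with h | h
    · rw [h] at hg; omega
    · exact h
  have hb : b = a * g := by
    have h4 : (s : ℤ) * b = (s : ℤ) * (a * g) := by
      rw [hg] at hj; push_cast at hj; linarith
    exact mul_left_cancel₀ (by exact_mod_cast (by omega : s ≠ 0)) h4
  have h5 : Nat.gcd q b.natAbs = g := by
    rw [hb, Int.natAbs_mul, Int.natAbs_natCast, hg, Nat.gcd_mul_right, Nat.gcd_comm, has, one_mul]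
  rw [h5, hg, Nat.mul_div_cancel _ hg0]
  exact hsm

lemma P2_om_neg {X y : ℝ} (hy : 0 < y) {s : ℕ} {a : ℤ} (hs : 1 ≤ s)
    (has : Nat.Coprime a.natAbs s) (hsy : (s : ℝ) * √y ≤ 1) (happ : |X - a / s| ≤ √y / s)
    {q : ℕ} (hq : 1 ≤ q) {b : ℤ} (hb : |(b : ℝ) / q - X| ≤ y) (hom : ¬ om y q b) :
    b * s - a * q = 0 ∧ (s : ℝ) ≤ √(1 / y) / 10 := by
  unfold om at hom
  push Not at hom
  set g := Nat.gcd q b.natAbs with hgdef
  have hg0 : 0 < g := Nat.gcd_pos_of_pos_left _ (by omega)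
  obtain ⟨s', hs'⟩ : g ∣ q := Nat.gcd_dvd_left _ _
  have hgb : (g : ℤ) ∣ b := by
    rw [← Int.dvd_natAbs]; exact_mod_cast Nat.gcd_dvd_right q b.natAbs
  obtain ⟨a', ha'⟩ := hgb
  have hqg : q / g = s' := by rw [hs', Nat.mul_div_cancel_left _ hg0]
  rw [hqg] at hom
  have hs'0 : 1 ≤ s' := by
    rcases Nat.eq_zero_or_pos s' with h | h
    · rw [h] at hs'; omega
    · exact h
  have hcop' : Nat.Coprime a'.natAbs s' := by
    have h1 : g = Nat.gcd (g * s') (g * a'.natAbs) := by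
      have : b.natAbs = g * a'.natAbs := by rw [ha', Int.natAbs_mul, Int.natAbs_natCast]
      rw [← this, ← hs']
    rw [Nat.gcd_mul_left] at h1
    have h2 : Nat.gcd s' a'.natAbs = 1 := by
      have : g * 1 = g * Nat.gcd s' a'.natAbs := by rw [mul_one]; exact h1
      exact (Nat.eq_of_mul_eq_mul_left hg0 this).symm
    rw [Nat.Coprime, Nat.gcd_comm]; exact h2
  have hsR : (0 : ℝ) < s := by exact_mod_cast hs
  have hs'R : (0 : ℝ) < s' := by exact_mod_cast hs'0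
  have hgR : (0 : ℝ) < g := by exact_mod_cast hg0
  have hsq : 0 < √y := Real.sqrt_pos.2 hy
  have hyy : √y * √y = y := Real.mul_self_sqrt hy.le
  have hinv : √(1 / y) = 1 / √y := by rw [one_div, Real.sqrt_inv, one_div]
  by_cases heq : a' * s = a * s'
  · have e0 : b * s - a * q = 0 := by
      rw [ha', hs']; push_cast
      have : (g : ℤ) * a' * s - a * (g * s') = g * (a' * s - a * s') := by ring
      rw [this, heq, sub_self, mul_zero]
    refine ⟨e0, ?_⟩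
    have hc1 : IsCoprime (s : ℤ) a := by
      rw [Int.isCoprime_iff_gcd_eq_one, Int.gcd_comm]
      simpa [Int.gcd] using has
    have hc2 : IsCoprime (s' : ℤ) a' := by
      rw [Int.isCoprime_iff_gcd_eq_one, Int.gcd_comm]
      simpa [Int.gcd] using hcop'
    have d1 : (s : ℤ) ∣ s' := hc1.dvd_of_dvd_mul_left ⟨a', by linarith⟩
    have d2 : (s' : ℤ) ∣ s := hc2.dvd_of_dvd_mul_left ⟨a, by linarith⟩
    have : s = s' := Nat.dvd_antisymm (by exact_mod_cast d1) (by exact_mod_cast d2)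
    rw [this]; exact hom
  · exfalso
    have h1 : (1 : ℝ) ≤ |((a' * s - a * s' : ℤ) : ℝ)| := by
      rw [← Int.cast_abs]
      exact_mod_cast Int.one_le_abs (sub_ne_zero.2 heq)
    have hbq : (b : ℝ) / q = a' / s' := by
      rw [ha', hs']; push_cast; field_simp
    rw [hbq] at hb
    have h2 : |(a' : ℝ) / s' - a / s| ≤ y + √y / s := by
      have := abs_sub_le ((a' : ℝ) / s') X (a / s)
      linarith
    have h3 : ((a' * s - a * s' : ℤ) : ℝ) = ((a' : ℝ) / s' - a / s) * (s * s') := by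
      push_cast; field_simp
    rw [h3, abs_mul, abs_of_pos (mul_pos hsR hs'R)] at h1
    have h4 : (y + √y / s) * (s * s') ≤ 2 * (s' * √y) := by
      have e : (y + √y / s) * (s * s') = (s * √y) * (s' * √y) + s' * √y := by
        have e1 : √y / s * (s * s') = s' * √y := by field_simp
        have e2 : y * (s * s') = (s * √y) * (s' * √y) := by
          calc y * (s * s') = (√y * √y) * (s * s') := by rw [hyy]
            _ = _ := by ring
        rw [add_mul, e1, e2]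
      rw [e]
      have : (s * √y) * (s' * √y) ≤ 1 * (s' * √y) :=
        mul_le_mul_of_nonneg_right hsy (by positivity)
      linarith
    have h5 : (s' : ℝ) * √y ≤ 1 / 10 := by
      rw [hinv] at hom
      calc (s' : ℝ) * √y ≤ (1 / √y / 10) * √y := mul_le_mul_of_nonneg_right hom hsq.le
        _ = 1 / 10 := by field_simp
    have h6 : |(a' : ℝ) / s' - a / s| * (s * s') ≤ (y + √y / s) * (s * s') :=
      mul_le_mul_of_nonneg_right h2 (by positivity)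
    linarith

lemma P2_window {X Y y : ℝ} (hY : 0 < Y) (hy : 0 < y) {A : ℝ → ℂ} {B0 B1 ρ T d' x : ℝ}
    (hA : Amp A B0 B1 ρ) (h : osc A T (dh X Y y x) d' ≠ 0) : |x - X| ≤ y := by
  have h1 := P2_osc_zero hA h
  rw [dh_scale hY hy] at h1
  have h2 := (dh_small (div_pos hY hy) h1).2.2
  rw [abs_div, abs_of_pos hy, div_le_one hy] at h2
  exact h2

/-- Dirichlet approximation of the centre -/
lemma P2_dir (X : ℝ) {y : ℝ} (hy : 0 < y) (hy1 : y ≤ 1) :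
    ∃ (a : ℤ) (s : ℕ), 1 ≤ s ∧ Nat.Coprime a.natAbs s ∧ (s : ℝ) * √y ≤ 1 ∧
      |X - a / s| ≤ √y / s := by
  have hsq : 0 < √y := Real.sqrt_pos.2 hy
  have hinv : 1 ≤ 1 / √y := by
    rw [le_div_iff₀ hsq, one_mul]
    exact Real.sqrt_le_one.2 hy1
  have hn : 0 < ⌊1 / √y⌋₊ := Nat.floor_pos.2 hinv
  obtain ⟨r, hr1, hr2⟩ := Real.exists_rat_abs_sub_le_and_den_le X hn
  have hden : (0 : ℝ) < r.den := by exact_mod_cast r.den_pos
  refine ⟨r.num, r.den, r.den_pos, r.reduced, ?_, ?_⟩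
  · have h1 : (r.den : ℝ) ≤ 1 / √y := by
      refine le_trans ?_ (Nat.floor_le (by positivity))
      exact_mod_cast hr2
    calc (r.den : ℝ) * √y ≤ 1 / √y * √y := mul_le_mul_of_nonneg_right h1 hsq.le
      _ = 1 := by field_simp
  · have e : (r : ℝ) = (r.num : ℝ) / r.den := by exact_mod_cast (Rat.num_div_den r).symm
    rw [← e]
    refine hr1.trans ?_
    have h2 : 1 / √y ≤ (⌊1 / √y⌋₊ : ℝ) + 1 := (Nat.lt_floor_add_one _).le
    rw [div_le_div_iff₀ (by positivity) hden]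
    have h3 : 1 ≤ ((⌊1 / √y⌋₊ : ℝ) + 1) * √y := by
      calc (1 : ℝ) = 1 / √y * √y := by field_simp
        _ ≤ _ := mul_le_mul_of_nonneg_right h2 hsq.le
    nlinarith

lemma P2_j {X y : ℝ} (hy : 0 < y) {s : ℕ} {a : ℤ} (hs : 1 ≤ s) (hsy : (s : ℝ) * √y ≤ 1)
    (happ : |X - a / s| ≤ √y / s) {q N : ℕ} (hq : 1 ≤ q) (hqN : q ≤ 4 * N) {b : ℤ}
    (hb : |(b : ℝ) / q - X| ≤ y) : |((b * s - a * q : ℤ) : ℝ)| ≤ 8 * N * √y := by
  have hsR : (0 : ℝ) < s := by exact_mod_cast hs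
  have hqR : (0 : ℝ) < q := by exact_mod_cast hq
  have hsq : 0 < √y := Real.sqrt_pos.2 hy
  have hyy : √y * √y = y := Real.mul_self_sqrt hy.le
  have hqN' : (q : ℝ) ≤ 4 * N := by exact_mod_cast hqN
  have h2 : |(b : ℝ) / q - a / s| ≤ y + √y / s := by
    have := abs_sub_le ((b : ℝ) / q) X (a / s)
    linarith
  have h3 : ((b * s - a * q : ℤ) : ℝ) = ((b : ℝ) / q - a / s) * (s * q) := by
    push_cast; field_simp
  rw [h3, abs_mul, abs_of_pos (mul_pos hsR hqR)]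
  calc |(b : ℝ) / q - a / s| * (s * q) ≤ (y + √y / s) * (s * q) :=
        mul_le_mul_of_nonneg_right h2 (by positivity)
    _ = (s * √y) * (q * √y) + q * √y := by
        have e1 : √y / s * (s * q) = q * √y := by field_simp
        have e2 : y * (s * q) = (s * √y) * (q * √y) := by
          calc y * (s * q) = (√y * √y) * (s * q) := by rw [hyy]
            _ = _ := by ring
        rw [add_mul, e1, e2]
    _ ≤ 1 * (q * √y) + q * √y := by
        gcongr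
    _ ≤ 8 * N * √y := by nlinarith

open Classical in
lemma P2_dec {A : ℝ → ℂ} {B0 B1 ρ : ℝ} (hA : Amp A B0 B1 ρ) (T : ℝ) (N : ℕ) (M : ℤ)
    {X Y X' Y' y : ℝ} (hY : 0 < Y) (hy : 0 < y) {s : ℕ} {a : ℤ} (hs : 1 ≤ s)
    (has : Nat.Coprime a.natAbs s) (hsy : (s : ℝ) * √y ≤ 1) (happ : |X - a / s| ≤ √y / s)
    {J : ℤ} (hJ : 8 * N * √y < J + 1) :
    PS A T N M X Y X' Y' y = ∑ j ∈ Icc (-J) J,
      (if j = 0 ∧ (s : ℝ) ≤ √(1 / y) / 10 then 0 else LS A T N M X Y X' Y' y a s j) := by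
  have h0 : ∀ j : ℤ, (if j = 0 ∧ (s : ℝ) ≤ √(1 / y) / 10 then 0 else
      LS A T N M X Y X' Y' y a s j) = ∑ q ∈ Ioc N (4 * N), ∑ b ∈ Icc (-M) M,
      (if j = 0 ∧ (s : ℝ) ≤ √(1 / y) / 10 then 0 else
        (if b * s - a * q = j then
          osc A T (dh X Y y ((b : ℝ) / q)) (dh X' Y' y ((b : ℝ) / q)) else 0)) := by
    intro j
    split_ifs with h
    · simp
    · rfl
  rw [sum_congr rfl fun j _ => h0 j, sum_comm]
  unfold PS
  refine sum_congr rfl fun q hq => ?_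
  rw [sum_comm]
  refine sum_congr rfl fun b _ => ?_
  rw [mem_Ioc] at hq
  have hq1 : 1 ≤ q := by omega
  by_cases ht : osc A T (dh X Y y ((b : ℝ) / q)) (dh X' Y' y ((b : ℝ) / q)) = 0
  · rw [ht]
    simp
  · have hw := P2_window hY hy hA ht
    have hj := P2_j hy hs hsy happ hq1 hq.2 hw
    have hmem : b * s - a * q ∈ Icc (-J) J := by
      have h1 : |b * (s : ℤ) - a * q| < J + 1 := by
        have h2 : ((|b * (s : ℤ) - a * q| : ℤ) : ℝ) < ((J + 1 : ℤ) : ℝ) := by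
          rw [Int.cast_abs]; push_cast; push_cast at hj; linarith
        exact_mod_cast h2
      rw [mem_Icc]
      have := abs_lt.1 h1
      constructor <;> omega
    rw [sum_eq_single_of_mem _ hmem]
    · rw [if_pos (rfl : b * (s : ℤ) - a * q = _)]
      by_cases hom : om y q b
      · rw [if_pos hom, if_neg]
        intro h
        exact P2_om_imp hs has hq1 h.1 h.2 hom
      · rw [if_neg hom, if_pos]
        exact P2_om_neg hy hs has hsy happ hq1 hw hom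
    · intro j _ hne
      rw [if_neg (show ¬ (b * (s : ℤ) - a * q = j) from fun h => hne h.symm)]
      split_ifs <;> rfl

lemma P2_sumsym (g : ℤ → ℝ) (J : ℕ) :
    ∑ j ∈ Icc (-(J : ℤ)) J, g j = g 0 + ∑ k ∈ Icc 1 J, (g k + g (-k)) := by
  induction J with
  | zero => simp
  | succ J ih =>
    have h : Icc (-((J + 1 : ℕ) : ℤ)) ((J + 1 : ℕ) : ℤ) =
        insert ((J + 1 : ℕ) : ℤ) (insert (-((J + 1 : ℕ) : ℤ)) (Icc (-(J : ℤ)) J)) := by
      ext j
      simp only [mem_Icc, mem_insert]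
      push_cast
      omega
    rw [h, sum_insert, sum_insert, ih, sum_Icc_succ_top (by omega : 1 ≤ J + 1)]
    · ring
    · simp only [mem_Icc]; push_cast; omega
    · simp only [mem_Icc, mem_insert]; push_cast; omega

lemma P2_cnt (J : ℕ) {R V : ℝ} (hR : 0 ≤ R) (hV : 0 ≤ V) :
    ∑ k ∈ Icc 1 J, (if ((k : ℕ) : ℝ) < R then V else 0) ≤ R * V := by
  rw [← sum_filter, sum_const, nsmul_eq_mul]
  refine mul_le_mul_of_nonneg_right ?_ hV
  have h : {k ∈ Icc 1 J | ((k : ℕ) : ℝ) < R} ⊆ Icc 1 ⌊R⌋₊ := by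
    intro k hk
    rw [mem_filter, mem_Icc] at hk
    rw [mem_Icc]
    exact ⟨hk.1.1, Nat.le_floor hk.2.le⟩
  calc ((#{k ∈ Icc 1 J | ((k : ℕ) : ℝ) < R} : ℕ) : ℝ) ≤ ((#(Icc 1 ⌊R⌋₊) : ℕ) : ℝ) := by
        exact_mod_cast card_le_card h
    _ = (⌊R⌋₊ : ℝ) := by rw [Nat.card_Icc]; simp
    _ ≤ R := Nat.floor_le hR

lemma P2_harm (J N : ℕ) (hN : 1 ≤ N) (hJ : J ≤ 8 * N) :
    ∑ k ∈ Icc 1 J, ((k : ℝ))⁻¹ ≤ 1 + Real.log (8 * N) := by
  have h1 : (harmonic J : ℝ) = ∑ k ∈ Icc 1 J, ((k : ℝ))⁻¹ := by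
    rw [harmonic_eq_sum_Icc]; push_cast; rfl
  rw [← h1]
  refine (harmonic_le_one_add_log J).trans ?_
  have h2 : Real.log J ≤ Real.log (8 * N) := by
    rcases Nat.eq_zero_or_pos J with h | h
    · rw [h]; simp
      apply Real.log_nonneg
      have : (1 : ℝ) ≤ N := by exact_mod_cast hN
      linarith
    · apply Real.log_le_log (by exact_mod_cast h)
      exact_mod_cast hJ
  linarith

lemma P2_log {c : ℝ} (hc : 0 < c) (hc1 : c ≤ 1) {N : ℕ} (hN : 1 ≤ N) :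
    1 + Real.log (8 * N) ≤ (1 + 32 / c) * (N : ℝ) ^ (c / 4) := by
  have hNR : (1 : ℝ) ≤ N := by exact_mod_cast hN
  have h1 : Real.log (8 * N) ≤ (8 * N : ℝ) ^ (c / 4) / (c / 4) :=
    Real.log_le_rpow_div (by positivity) (by positivity)
  have h2 : (8 * N : ℝ) ^ (c / 4) = 8 ^ (c / 4) * (N : ℝ) ^ (c / 4) :=
    Real.mul_rpow (by norm_num) (by positivity)
  have h3 : (8 : ℝ) ^ (c / 4) ≤ 8 := by
    calc (8 : ℝ) ^ (c / 4) ≤ 8 ^ (1 : ℝ) :=
          Real.rpow_le_rpow_of_exponent_le (by norm_num) (by linarith)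
      _ = 8 := Real.rpow_one 8
  have h4 : (1 : ℝ) ≤ (N : ℝ) ^ (c / 4) := Real.one_le_rpow hNR (by positivity)
  have h5 : (8 * N : ℝ) ^ (c / 4) / (c / 4) ≤ 32 / c * (N : ℝ) ^ (c / 4) := by
    rw [h2]
    have : 8 ^ (c / 4) * (N : ℝ) ^ (c / 4) / (c / 4) ≤ 8 * (N : ℝ) ^ (c / 4) / (c / 4) := by
      gcongr
    refine this.trans (le_of_eq ?_)
    field_simp
    norm_num
  linarith

lemma P2_s {y : ℝ} {N : ℕ} (hN : 1 ≤ N) (hy0 : 1 / (20 * N : ℝ) ≤ y) {s : ℕ}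
    (hsy : (s : ℝ) * √y ≤ 1) : (s : ℝ) ^ 2 ≤ 20 * N := by
  have hNR : (1 : ℝ) ≤ N := by exact_mod_cast hN
  have hy : 0 < y := lt_of_lt_of_le (by positivity) hy0
  have h1 : ((s : ℝ) * √y) ^ 2 ≤ 1 := pow_le_one₀ (by positivity) hsy
  rw [mul_pow, Real.sq_sqrt hy.le] at h1
  have h2 : (s : ℝ) ^ 2 * (1 / (20 * N : ℝ)) ≤ 1 :=
    (mul_le_mul_of_nonneg_left hy0 (by positivity)).trans h1
  rw [mul_one_div, div_le_one (by positivity)] at h2
  exact h2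

lemma P2_s5 {N : ℕ} (hN : 1 ≤ N) {s : ℝ} (h : s ^ 2 ≤ 20 * N) : s ≤ 5 * N := by
  have hNR : (1 : ℝ) ≤ N := by exact_mod_cast hN
  nlinarith

lemma P2_fin {n x u v k : ℝ} (hn : 0 ≤ n) (hx : 0 ≤ x) (hu : 0 ≤ u) (hv : 0 ≤ v) (hk : 0 ≤ k) :
    170 * n * x + (16 * n * u + k * n * v) ≤ (200 + k) * n * ((u + x) + v) := by
  nlinarith [mul_nonneg hn hx, mul_nonneg hn hu, mul_nonneg hn hv, mul_nonneg hk (mul_nonneg hn hx),
    mul_nonneg hk (mul_nonneg hn hu)]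

/-- the bound for one line with `j ≠ 0` -/
lemma P2_one {c1 K1 : ℝ} {E1 : ℕ} (hc1 : 0 < c1) (hc11 : c1 ≤ 1) (hK1 : 0 < K1)
    {A : ℝ → ℂ} {B0 B1 ρ T μ : ℝ} {N : ℕ} {M : ℤ} {X Y X' Y' y : ℝ} {a j : ℤ} {s : ℕ}
    (hA : Amp A B0 B1 ρ) (hρ : 0 < ρ) (hμ : 0 < μ) (hN : 1 ≤ N)
    (hy0 : 1 / (20 * N : ℝ) ≤ y) (hs : 1 ≤ s) (has : Nat.Coprime a.natAbs s)
    (hsy : (s : ℝ) * √y ≤ 1) (hj0 : j ≠ 0) (hj : |(j : ℝ)| ≤ 8 * N * √y)
    (hl : μ * (((s : ℤ) : ℝ) * y * N) ≤ |(j : ℝ)| →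
      √(N : ℝ) / 40 ≤ N / max ((s : ℤ) : ℝ) (|(j : ℝ)| / (y * N)) →
      ‖LS A T N M X Y X' Y' y a s j‖ ≤ K1 * (B0 * (B0 + B1)) * ((ρ * μ)⁻¹) ^ E1 *
        ((N : ℝ) / max ((s : ℤ) : ℝ) (|(j : ℝ)| / (y * N))) ^ (1 - c1)) :
    ‖LS A T N M X Y X' Y' y a s j‖ ≤
      (if |(j : ℝ)| < μ * (s * y * N) then (3 * N / s + 1) * B0 ^ 2 else 0) +
      K1 * (B0 * (B0 + B1)) * ((ρ * μ)⁻¹) ^ E1 * (40 * (N : ℝ) ^ (-(c1 / 2)) *
        (y * N ^ 2 * |(j : ℝ)|⁻¹)) := by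
  have hNR : (1 : ℝ) ≤ N := by exact_mod_cast hN
  have hy : 0 < y := lt_of_lt_of_le (by positivity) hy0
  have hB0 := P2_B0 hA
  have hB1 := P2_B1 hA
  have hsR : (1 : ℝ) ≤ s := by exact_mod_cast hs
  have hjR : (0 : ℝ) < |(j : ℝ)| := abs_pos.2 (by exact_mod_cast hj0)
  have hsq : 0 < √y := Real.sqrt_pos.2 hy
  have hyy : √y * √y = y := Real.mul_self_sqrt hy.le
  split_ifs with h
  · have h1 := P2_LS_triv hA T N M X Y X' Y' y (a := a) (s := s) j (by exact_mod_cast hs) (by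
      rw [Int.isCoprime_iff_gcd_eq_one]
      simpa [Int.gcd] using has)
    have h2 : (0 : ℝ) ≤ K1 * (B0 * (B0 + B1)) * ((ρ * μ)⁻¹) ^ E1 *
        (40 * (N : ℝ) ^ (-(c1 / 2)) * (y * N ^ 2 * |(j : ℝ)|⁻¹)) := by positivity
    push_cast at h1
    linarith
  · push Not at h
    rw [zero_add]
    have hmax : 0 < max ((s : ℤ) : ℝ) (|(j : ℝ)| / (y * N)) :=
      lt_of_lt_of_le (by push_cast; linarith) (le_max_left _ _)
    have hsN : √(N : ℝ) * √(N : ℝ) = N := Real.mul_self_sqrt (by positivity)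
    have hsN0 : 0 < √(N : ℝ) := Real.sqrt_pos.2 (by positivity)
    -- the square root of `y` is at least `1 / (5 √N)`
    have hys : 1 ≤ 5 * √(N : ℝ) * √y := by
      have h1 : (1 : ℝ) ≤ (5 * √(N : ℝ) * √y) ^ 2 := by
        have : (5 * √(N : ℝ) * √y) ^ 2 = 25 * (N * y) := by
          rw [mul_pow, mul_pow, sq (√(N : ℝ)), sq (√y), hsN, hyy]; ring
        rw [this]
        have h2 : 1 / 20 ≤ N * y := by
          have := mul_le_mul_of_nonneg_left hy0 (by positivity : (0 : ℝ) ≤ N)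
          have e : (N : ℝ) * (1 / (20 * N)) = 1 / 20 := by field_simp
          linarith
        linarith
      nlinarith [mul_pos (mul_pos (by norm_num : (0 : ℝ) < 5) hsN0) hsq]
    have hle : max ((s : ℤ) : ℝ) (|(j : ℝ)| / (y * N)) ≤ 40 * √(N : ℝ) := by
      refine max_le ?_ ?_
      · push_cast
        have h1 : (s : ℝ) ≤ 5 * √(N : ℝ) := by
          calc (s : ℝ) = s * 1 := (mul_one _).symm
            _ ≤ s * (5 * √(N : ℝ) * √y) := mul_le_mul_of_nonneg_left hys (by positivity)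
            _ = (s * √y) * (5 * √(N : ℝ)) := by ring
            _ ≤ 1 * (5 * √(N : ℝ)) := mul_le_mul_of_nonneg_right hsy (by positivity)
            _ = _ := one_mul _
        linarith
      · rw [div_le_iff₀ (by positivity)]
        calc |(j : ℝ)| ≤ 8 * N * √y := hj
          _ = 8 * N * √y * 1 := (mul_one _).symm
          _ ≤ 8 * N * √y * (5 * √(N : ℝ) * √y) := mul_le_mul_of_nonneg_left hys (by positivity)
          _ = 40 * √(N : ℝ) * ((√y * √y) * N) := by ring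
          _ = _ := by rw [hyy]
    have hNj : √(N : ℝ) / 40 ≤ N / max ((s : ℤ) : ℝ) (|(j : ℝ)| / (y * N)) := by
      rw [div_le_div_iff₀ (by norm_num) hmax]
      calc √(N : ℝ) * max ((s : ℤ) : ℝ) (|(j : ℝ)| / (y * N)) ≤ √(N : ℝ) * (40 * √(N : ℝ)) :=
            mul_le_mul_of_nonneg_left hle hsN0.le
        _ = N * 40 := by linear_combination 40 * hsN
    have hl' := hl (by push_cast; exact h) hNj
    refine hl'.trans ?_
    have hNj0 : 0 < (N : ℝ) / max ((s : ℤ) : ℝ) (|(j : ℝ)| / (y * N)) := by positivity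
    refine mul_le_mul_of_nonneg_left ?_ (by positivity)
    set Q := (N : ℝ) / max ((s : ℤ) : ℝ) (|(j : ℝ)| / (y * N)) with hQ
    have e1 : Q ^ (1 - c1) = Q ^ (-c1) * Q := by
      rw [show (1 - c1 : ℝ) = -c1 + 1 by ring, Real.rpow_add hNj0, Real.rpow_one]
    rw [e1]
    have h5 : Q ^ (-c1) ≤ 40 * (N : ℝ) ^ (-(c1 / 2)) := by
      calc Q ^ (-c1) ≤ (√(N : ℝ) / 40) ^ (-c1) :=
            Real.rpow_le_rpow_of_nonpos (by positivity) hNj (by linarith)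
        _ = (√(N : ℝ)) ^ (-c1) * (40 : ℝ) ^ c1 := by
            rw [Real.div_rpow hsN0.le (by norm_num), Real.rpow_neg (by norm_num : (0 : ℝ) ≤ 40),
              div_inv_eq_mul]
        _ = (N : ℝ) ^ (-(c1 / 2)) * (40 : ℝ) ^ c1 := by
            rw [Real.sqrt_eq_rpow, ← Real.rpow_mul (by positivity)]
            congr 2; ring
        _ ≤ (N : ℝ) ^ (-(c1 / 2)) * 40 := by
            refine mul_le_mul_of_nonneg_left ?_ (by positivity)
            calc (40 : ℝ) ^ c1 ≤ 40 ^ (1 : ℝ) :=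
                  Real.rpow_le_rpow_of_exponent_le (by norm_num) hc11
              _ = 40 := Real.rpow_one 40
        _ = _ := mul_comm _ _
    have h6 : Q ≤ y * N ^ 2 * |(j : ℝ)|⁻¹ := by
      rw [hQ, div_le_iff₀ hmax]
      calc (N : ℝ) = y * N ^ 2 * |(j : ℝ)|⁻¹ * (|(j : ℝ)| / (y * N)) := by field_simp
        _ ≤ _ := mul_le_mul_of_nonneg_left (le_max_right _ _) (by positivity)
    exact mul_le_mul h5 h6 hNj0.le (by positivity)

theorem plane_sum_of (plane_line : PlaneLineS) : PlaneSumS := by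
  obtain ⟨c1, K1, E1, hc1, hc11, hK1, hline⟩ := plane_line
  refine ⟨c1 / 4, 200 + 80 * K1 * (1 + 32 / c1), E1, by positivity, by linarith, by positivity, ?_⟩
  intro A B0 B1 ρ T μ N M X Y X' Y' y hA hρ hρ1 hμ hμ1 hN hT hT' hY hY' hy0 hy1 hXY hcov
  have hNR : (1 : ℝ) ≤ N := by exact_mod_cast hN
  have hy : 0 < y := lt_of_lt_of_le (by positivity) hy0
  have hB0 := P2_B0 hA
  have hB1 := P2_B1 hA
  have hsq : 0 < √y := Real.sqrt_pos.2 hy
  have hyy : √y * √y = y := Real.mul_self_sqrt hy.le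
  obtain ⟨a, s, hs, has, hsy, happ⟩ := P2_dir X hy hy1
  have hsR : (1 : ℝ) ≤ s := by exact_mod_cast hs
  have hasI : IsCoprime a (s : ℤ) := by
    rw [Int.isCoprime_iff_gcd_eq_one]
    simpa [Int.gcd] using has
  set J : ℕ := ⌊8 * N * √y⌋₊ with hJdef
  have hJ : 8 * N * √y < ((J : ℤ) : ℝ) + 1 := by
    push_cast; exact Nat.lt_floor_add_one _
  have hJle : (J : ℝ) ≤ 8 * N * √y := Nat.floor_le (by positivity)
  have hJ8 : J ≤ 8 * N := by
    have h1 : √y ≤ 1 := Real.sqrt_le_one.2 hy1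
    have h2 : (J : ℝ) ≤ 8 * N := by nlinarith
    exact_mod_cast h2
  rw [P2_dec hA T N M hY hy hs has hsy happ hJ]
  refine (norm_sum_le _ _).trans ?_
  rw [P2_sumsym]
  set W := K1 * (B0 * (B0 + B1)) * ((ρ * μ)⁻¹) ^ E1 * (40 * (N : ℝ) ^ (-(c1 / 2)) * (y * N ^ 2))
    with hW
  have hW0 : 0 ≤ W := by positivity
  set V := (3 * N / s + 1) * B0 ^ 2 with hV
  have hV0 : 0 ≤ V := by positivity
  set R := μ * (s * y * N) with hR
  have hR0 : 0 ≤ R := by positivity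
  -- the lines `j ≠ 0`
  have hone : ∀ j : ℤ, j ≠ 0 → |(j : ℝ)| ≤ 8 * N * √y →
      ‖(if j = 0 ∧ (s : ℝ) ≤ √(1 / y) / 10 then 0 else LS A T N M X Y X' Y' y a s j)‖ ≤
      (if |(j : ℝ)| < R then V else 0) + W * |(j : ℝ)|⁻¹ := by
    intro j hj0 hj
    rw [if_neg (fun h => hj0 h.1)]
    have h1 := P2_one hc1 hc11 hK1 hA hρ hμ hN hy0 hs has hsy hj0 hj
      (fun h1 h2 => hline A B0 B1 ρ T μ N M X Y X' Y' y a s j hA hρ hρ1 hμ hμ1 hN hT hT' hY hY' hy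
        hXY hcov (by exact_mod_cast hs) hasI h1 h2) (E1 := E1)
    refine h1.trans (le_of_eq ?_)
    rw [hW]; ring
  have hsum : ∑ k ∈ Icc 1 J,
      (‖(if ((k : ℕ) : ℤ) = 0 ∧ (s : ℝ) ≤ √(1 / y) / 10 then 0 else
          LS A T N M X Y X' Y' y a s ((k : ℕ) : ℤ))‖ +
        ‖(if (-((k : ℕ) : ℤ)) = 0 ∧ (s : ℝ) ≤ √(1 / y) / 10 then 0 else
          LS A T N M X Y X' Y' y a s (-((k : ℕ) : ℤ)))‖) ≤
      2 * (R * V) + 2 * (W * (1 + Real.log (8 * N))) := by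
    calc _ ≤ ∑ k ∈ Icc 1 J, (2 * (if ((k : ℕ) : ℝ) < R then V else 0) + 2 * (W * ((k : ℝ))⁻¹)) := by
          refine sum_le_sum fun k hk => ?_
          rw [mem_Icc] at hk
          have hk0 : (0 : ℝ) < k := by exact_mod_cast hk.1
          have hkJ : (k : ℝ) ≤ 8 * N * √y := le_trans (by exact_mod_cast hk.2) hJle
          have a1 : |(((k : ℕ) : ℤ) : ℝ)| = k := by push_cast; exact abs_of_pos hk0
          have a2 : |((-((k : ℕ) : ℤ) : ℤ) : ℝ)| = k := by push_cast; rw [abs_neg]; exact abs_of_pos hk0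
          have b1 := hone ((k : ℕ) : ℤ) (by omega) (by rw [a1]; exact hkJ)
          have b2 := hone (-((k : ℕ) : ℤ)) (by omega) (by rw [a2]; exact hkJ)
          rw [a1] at b1
          rw [a2] at b2
          linarith
      _ = 2 * ∑ k ∈ Icc 1 J, (if ((k : ℕ) : ℝ) < R then V else 0) +
          2 * (W * ∑ k ∈ Icc 1 J, ((k : ℝ))⁻¹) := by
          rw [sum_add_distrib, ← mul_sum, ← mul_sum, ← mul_sum]
      _ ≤ _ := by
          have h1 := P2_cnt J hR0 hV0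
          have h2 := mul_le_mul_of_nonneg_left (P2_harm J N hN hJ8) hW0
          linarith
  -- the line `j = 0`
  have hNc : (1 : ℝ) ≤ (N : ℝ) ^ (c1 / 4) := Real.one_le_rpow hNR (by positivity)
  have hNcs : (N : ℝ) ^ (c1 / 4) ≤ √(N : ℝ) := by
    rw [Real.sqrt_eq_rpow]
    exact Real.rpow_le_rpow_of_exponent_le hNR (by linarith)
  have hNm : (N : ℝ) ^ (-(c1 / 4)) * (N : ℝ) ^ (c1 / 4) = 1 := by
    rw [← Real.rpow_add (by positivity)]; simp
  have hNm0 : 0 < (N : ℝ) ^ (-(c1 / 4)) := by positivity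
  have hsN : √(N : ℝ) * √(N : ℝ) = N := Real.mul_self_sqrt (by positivity)
  have hsN0 : 0 < √(N : ℝ) := Real.sqrt_pos.2 (by positivity)
  have hNy : 1 / 20 ≤ N * y := by
    have := mul_le_mul_of_nonneg_left hy0 (by positivity : (0 : ℝ) ≤ N)
    have e : (N : ℝ) * (1 / (20 * N)) = 1 / 20 := by field_simp
    linarith
  have hys : 1 ≤ 5 * √(N : ℝ) * √y := by
    have h1 : (1 : ℝ) ≤ (5 * √(N : ℝ) * √y) ^ 2 := by
      have : (5 * √(N : ℝ) * √y) ^ 2 = 25 * (N * y) := by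
        rw [mul_pow, mul_pow, sq (√(N : ℝ)), sq (√y), hsN, hyy]; ring
      rw [this]
      linarith
    nlinarith [mul_pos (mul_pos (by norm_num : (0 : ℝ) < 5) hsN0) hsq]
  have hz : ‖(if (0 : ℤ) = 0 ∧ (s : ℝ) ≤ √(1 / y) / 10 then 0 else
      LS A T N M X Y X' Y' y a s 0)‖ ≤ 170 * ((N : ℝ) ^ 2 * y) * (B0 ^ 2 * (N : ℝ) ^ (-(c1 / 4))) := by
    split_ifs with h
    · rw [norm_zero]; positivity
    · clear hsum hone
      have hgt : √(1 / y) / 10 < s := by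
        by_contra hc
        push Not at hc
        exact h ⟨rfl, hc⟩
      have hinv : √(1 / y) = 1 / √y := by rw [one_div, Real.sqrt_inv, one_div]
      rw [hinv] at hgt
      have h1 := P2_LS_triv hA T N M X Y X' Y' y (a := a) (s := s) 0 (by exact_mod_cast hs) hasI
      push_cast at h1
      refine h1.trans ?_
      have h2 : 3 * (N : ℝ) / s ≤ 30 * N * √y := by
        rw [div_le_iff₀ (by positivity)]
        have h3 : 1 ≤ 10 * √y * s := by
          have := mul_le_mul_of_nonneg_left hgt.le (by positivity : (0 : ℝ) ≤ 10 * √y)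
          have e : 10 * √y * (1 / √y / 10) = 1 := by field_simp
          linarith
        calc 3 * (N : ℝ) = 3 * N * 1 := (mul_one _).symm
          _ ≤ 3 * N * (10 * √y * s) := mul_le_mul_of_nonneg_left h3 (by positivity)
          _ = _ := by ring
      have h4 : (N : ℝ) * √y ≤ 5 * ((N : ℝ) ^ 2 * y) * (N : ℝ) ^ (-(c1 / 4)) := by
        have h5 : (1 : ℝ) ≤ (5 * N * √y) * (N : ℝ) ^ (-(c1 / 4)) := by
          calc (1 : ℝ) = (N : ℝ) ^ (-(c1 / 4)) * (N : ℝ) ^ (c1 / 4) := hNm.symm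
            _ ≤ (N : ℝ) ^ (-(c1 / 4)) * √(N : ℝ) := mul_le_mul_of_nonneg_left hNcs hNm0.le
            _ ≤ (N : ℝ) ^ (-(c1 / 4)) * (√(N : ℝ) * (5 * √(N : ℝ) * √y)) := by
                refine mul_le_mul_of_nonneg_left ?_ hNm0.le
                exact le_mul_of_one_le_right hsN0.le hys
            _ = (5 * (√(N : ℝ) * √(N : ℝ)) * √y) * (N : ℝ) ^ (-(c1 / 4)) := by ring
            _ = _ := by rw [hsN]
        calc (N : ℝ) * √y = N * √y * 1 := (mul_one _).symm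
          _ ≤ N * √y * ((5 * N * √y) * (N : ℝ) ^ (-(c1 / 4))) :=
              mul_le_mul_of_nonneg_left h5 (by positivity)
          _ = 5 * ((N : ℝ) ^ 2 * (√y * √y)) * (N : ℝ) ^ (-(c1 / 4)) := by ring
          _ = _ := by rw [hyy]
      have h6 : (1 : ℝ) ≤ 20 * ((N : ℝ) ^ 2 * y) * (N : ℝ) ^ (-(c1 / 4)) := by
        have h7 : (N : ℝ) ^ (c1 / 4) ≤ N := by
          calc (N : ℝ) ^ (c1 / 4) ≤ (N : ℝ) ^ (1 : ℝ) :=
                Real.rpow_le_rpow_of_exponent_le hNR (by linarith)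
            _ = N := Real.rpow_one _
        calc (1 : ℝ) = (N : ℝ) ^ (-(c1 / 4)) * (N : ℝ) ^ (c1 / 4) := hNm.symm
          _ ≤ (N : ℝ) ^ (-(c1 / 4)) * N := mul_le_mul_of_nonneg_left h7 hNm0.le
          _ ≤ (N : ℝ) ^ (-(c1 / 4)) * (N * (20 * (N * y))) := by
              refine mul_le_mul_of_nonneg_left ?_ hNm0.le
              exact le_mul_of_one_le_right (by positivity) (by linarith)
          _ = _ := by ring
      have h8 : 3 * (N : ℝ) / s + 1 ≤ 170 * ((N : ℝ) ^ 2 * y) * (N : ℝ) ^ (-(c1 / 4)) := by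
        linarith
      calc (3 * (N : ℝ) / s + 1) * B0 ^ 2 ≤
            (170 * ((N : ℝ) ^ 2 * y) * (N : ℝ) ^ (-(c1 / 4))) * B0 ^ 2 :=
            mul_le_mul_of_nonneg_right h8 (sq_nonneg _)
        _ = _ := by ring
  -- the three parts
  have hRV : 2 * (R * V) ≤ 16 * ((N : ℝ) ^ 2 * y) * (B0 ^ 2 * μ) := by
    have hs5 : (s : ℝ) ≤ 5 * N := P2_s5 hN (P2_s hN hy0 hsy)
    have h2 : 2 * (R * V) = (6 * ((N : ℝ) ^ 2 * y) + 2 * (s * y * N)) * (B0 ^ 2 * μ) := by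
      rw [hR, hV]; field_simp; ring
    rw [h2]
    refine mul_le_mul_of_nonneg_right ?_ (by positivity)
    have h3 : s * y * N ≤ 5 * ((N : ℝ) ^ 2 * y) := by
      calc s * y * N ≤ 5 * N * y * N := by gcongr
        _ = _ := by ring
    linarith
  have hWl : 2 * (W * (1 + Real.log (8 * N))) ≤ 80 * K1 * (1 + 32 / c1) * ((N : ℝ) ^ 2 * y) *
      (B0 * (B0 + B1) * ((ρ * μ)⁻¹) ^ E1 * (N : ℝ) ^ (-(c1 / 4))) := by
    have h1 := mul_le_mul_of_nonneg_left (P2_log hc1 hc11 hN) hW0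
    have e : (N : ℝ) ^ (-(c1 / 2)) * (N : ℝ) ^ (c1 / 4) = (N : ℝ) ^ (-(c1 / 4)) := by
      rw [← Real.rpow_add (by positivity)]; congr 1; ring
    have h2 : W * ((1 + 32 / c1) * (N : ℝ) ^ (c1 / 4)) = 40 * K1 * (1 + 32 / c1) *
        ((N : ℝ) ^ 2 * y) * (B0 * (B0 + B1) * ((ρ * μ)⁻¹) ^ E1 *
          ((N : ℝ) ^ (-(c1 / 2)) * (N : ℝ) ^ (c1 / 4))) := by
      rw [hW]; ring
    rw [e] at h2
    linarith
  have hfin : 170 * ((N : ℝ) ^ 2 * y) * (B0 ^ 2 * (N : ℝ) ^ (-(c1 / 4))) +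
      (16 * ((N : ℝ) ^ 2 * y) * (B0 ^ 2 * μ) + 80 * K1 * (1 + 32 / c1) * ((N : ℝ) ^ 2 * y) *
      (B0 * (B0 + B1) * ((ρ * μ)⁻¹) ^ E1 * (N : ℝ) ^ (-(c1 / 4)))) ≤
      (200 + 80 * K1 * (1 + 32 / c1)) * ((N : ℝ) ^ 2 * y) *
        (B0 ^ 2 * (μ + (N : ℝ) ^ (-(c1 / 4))) +
        B0 * (B0 + B1) * ((ρ * μ)⁻¹) ^ E1 * (N : ℝ) ^ (-(c1 / 4))) := by
    have h := P2_fin (n := (N : ℝ) ^ 2 * y) (x := B0 ^ 2 * (N : ℝ) ^ (-(c1 / 4)))
      (u := B0 ^ 2 * μ) (v := B0 * (B0 + B1) * ((ρ * μ)⁻¹) ^ E1 * (N : ℝ) ^ (-(c1 / 4)))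
      (k := 80 * K1 * (1 + 32 / c1)) (by positivity) (by positivity) (by positivity)
      (by positivity) (by positivity)
    refine h.trans (le_of_eq ?_)
    rw [mul_add (B0 ^ 2)]
  refine le_trans ?_ hfin
  linarith

end Pool.Agent.H19.Sup
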