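import Mathlib
import Pool.Agent.H19.Sup.V3

set_option autoImplicit false

/-!
# V4: van der Corput's `k`-th derivative test, `λ ∈ [N^(-5/4), N^(-1/4)]`

Proof.  If `N^(-7/8) ≤ λ`, use `vdc_Q k (1/8)`.  Otherwise `N^(-5/4) ≤ λ ≤ N^(-7/8)`: apply
`vdc_ineq` with `H = ⌊N^(1/2)⌋` exactly as in the induction step of V3.  For `h ≥ N^(3/8)`, `h < H`:
`λ' = h λ ∈ [N^(-7/8), N^(-3/8)]`, use `vdc_Q (k-1) (1/8)`; for `h < N^(3/8)` use the trivial bound
`|inner| ≤ N + 1`.  So `|S|² ≤ C (N/H) (N + N^(3/8) N + H (R/eps²) N^(1-c')) ≤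
C (R/eps²) (N^(2-1/8) + N^(2-c'))`.
(It may be convenient to prove the differencing step once, as a lemma in V3, with `H` arbitrary.)
-/

namespace Pool.Agent.H19.Sup

theorem vdc (k : ℕ) (hk : 2 ≤ k) :
    ∃ c C : ℝ, 0 < c ∧ 0 < C ∧ ∀ (f : ℕ → ℝ → ℝ) (A B N lam eps R : ℝ), 1 ≤ N → A ≤ B →
      B - A ≤ N → 0 < eps → eps ≤ 1 → 1 ≤ R → N ^ (-(5 / 4) : ℝ) ≤ lam → lam ≤ N ^ (-(1 / 4) : ℝ) →
      (∀ i ≤ k, ∀ x ∈ Set.Icc A B, HasDerivAt (f i) (f (i + 1) x) x) →
      (∀ x ∈ Set.Icc A B, eps * lam ≤ |f k x| ∧ |f k x| ≤ R * lam) →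
      (∀ x ∈ Set.Icc A B, |f (k + 1) x| ≤ R * lam / N) →
      ‖∑ n ∈ Finset.Icc ⌈A⌉ ⌊B⌋, ee (f 0 n)‖ ≤ C * (R / eps ^ 2) * N ^ (1 - c) := by
  obtain ⟨j, rfl⟩ : ∃ j, k = j + 1 := ⟨k - 1, by omega⟩
  obtain ⟨c₁, C₁, hc₁, hC₁, h₁⟩ := vdc_Q (j + 1) (by omega) (1 / 8) (by norm_num) (by norm_num)
  obtain ⟨c', C', hc', hC', h'⟩ := vdc_Q j (by omega) (1 / 8) (by norm_num) (by norm_num)
  refine ⟨min c₁ (min (1 / 16) (c' / 2)), C₁ + (36 + 6 * C'), ?_, by linarith, ?_⟩
  · exact lt_min hc₁ (lt_min (by norm_num) (by linarith))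
  intro f A B N lam eps R hN hAB hBA heps heps1 hR hl1 hl2 hd h1 h2
  have hN0 : 0 < N := by linarith
  have hlam : 0 < lam := lt_of_lt_of_le (Real.rpow_pos_of_pos hN0 _) hl1
  have hRe := V3_one_le heps heps1 hR
  set c : ℝ := min c₁ (min (1 / 16) (c' / 2)) with hcdef
  have hcc1 : c ≤ c₁ := min_le_left _ _
  have hcc2 : c ≤ 1 / 16 := (min_le_right _ _).trans (min_le_left _ _)
  have hcc3 : c ≤ c' / 2 := (min_le_right _ _).trans (min_le_right _ _)
  have hpc0 : 0 < N ^ (1 - c) := Real.rpow_pos_of_pos hN0 _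
  rcases le_or_gt (N ^ (-(7 / 8) : ℝ)) lam with hcase | hcase
  · -- large `lam`
    have h3 := h₁ f A B N lam eps R hN hAB hBA heps heps1 hR
      (by
        refine le_trans ?_ hcase
        exact Real.rpow_le_rpow_of_exponent_le hN (by norm_num))
      (by
        refine hl2.trans ?_
        exact Real.rpow_le_rpow_of_exponent_le hN (by norm_num))
      hd h1 h2
    refine h3.trans ?_
    have h4 : N ^ (1 - c₁) ≤ N ^ (1 - c) :=
      Real.rpow_le_rpow_of_exponent_le hN (by linarith)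
    have h5 : C₁ * (R / eps ^ 2) ≤ (C₁ + (36 + 6 * C')) * (R / eps ^ 2) := by
      apply mul_le_mul_of_nonneg_right _ (by linarith)
      linarith
    exact mul_le_mul h5 h4 (by positivity) (by positivity)
  · -- small `lam`
    set H : ℕ := ⌊N ^ (1 / 2 : ℝ)⌋₊ with hHdef
    have hNg1 : 1 ≤ N ^ (1 / 2 : ℝ) := Real.one_le_rpow hN (by norm_num)
    have hH1 : 1 ≤ H := Nat.one_le_floor_iff _ |>.mpr hNg1
    have hHle : (H : ℝ) ≤ N ^ (1 / 2 : ℝ) := Nat.floor_le (by linarith)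
    have hHge : N ^ (1 / 2 : ℝ) ≤ 2 * H := by
      have h3 := Nat.lt_floor_add_one (N ^ (1 / 2 : ℝ))
      have h4 : (1 : ℝ) ≤ H := by exact_mod_cast hH1
      rw [← hHdef] at h3
      linarith
    have hHN : (H : ℝ) ≤ N := by
      refine hHle.trans ?_
      calc N ^ (1 / 2 : ℝ) ≤ N ^ (1 : ℝ) := Real.rpow_le_rpow_of_exponent_le hN (by norm_num)
        _ = N := Real.rpow_one N
    have hH0 : (0 : ℝ) < H := by exact_mod_cast hH1
    have hM1 : 1 ≤ N ^ (3 / 8 : ℝ) := Real.one_le_rpow hN (by norm_num)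
    set D : ℝ := C' * (R / eps ^ 2) * N ^ (1 - c') with hD
    have hD0 : 0 ≤ D := by positivity
    set E : ℕ → ℝ := fun h => if (h : ℝ) < N ^ (3 / 8 : ℝ) then 2 * N else D with hE
    have hE0 : ∀ h, 0 ≤ E h := by
      intro h
      simp only [hE]
      split_ifs
      · positivity
      · exact hD0
    have key := V3_diff (f 0) hN hBA hH1 hHN E hE0 (by
      intro h hh hAh
      rw [Finset.mem_Icc] at hh
      have hh0 : (0 : ℝ) < h := by exact_mod_cast hh.1
      simp only [hE]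
      split_ifs with hsm
      · exact V3_trivial (fun n : ℤ => f 0 ((n : ℝ) + h) - f 0 n) hN (by linarith)
      · rw [not_lt] at hsm
        have hhH : (h : ℝ) ≤ N ^ (1 / 2 : ℝ) := by
          refine le_trans ?_ hHle
          exact_mod_cast (by omega : h ≤ H)
        obtain ⟨g1, g2, g3⟩ := V3_hyp hd h1 h2 hh0
        exact h' (fun i x => f i (x + h) - f i x) A (B - h) N (h * lam) eps R hN hAh
          (by linarith) heps heps1 hR
          (by
            calc N ^ (-1 + 1 / 8 : ℝ) = N ^ (3 / 8 : ℝ) * N ^ (-(5 / 4) : ℝ) := by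
                  rw [← Real.rpow_add hN0]; congr 1; norm_num
              _ ≤ h * lam := mul_le_mul hsm hl1 (by positivity) hh0.le)
          (by
            calc (h : ℝ) * lam ≤ N ^ (1 / 2 : ℝ) * N ^ (-(7 / 8) : ℝ) :=
                  mul_le_mul hhH hcase.le hlam.le (by positivity)
              _ = N ^ (-(3 / 8) : ℝ) := by
                  rw [← Real.rpow_add hN0]; congr 1; norm_num
              _ ≤ N ^ (-(1 / 8) : ℝ) := Real.rpow_le_rpow_of_exponent_le hN (by norm_num))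
          g1 g2 g3)
    have hsum : ∑ h ∈ Finset.Icc 1 (H - 1), E h ≤ N ^ (3 / 8 : ℝ) * (2 * N) + H * D := by
      have h3 : ∀ h ∈ Finset.Icc 1 (H - 1), E h ≤
          (if (h : ℝ) < N ^ (3 / 8 : ℝ) then 2 * N else 0) + D := by
        intro h _
        simp only [hE]
        split_ifs
        · linarith
        · linarith
      refine (Finset.sum_le_sum h3).trans ?_
      rw [Finset.sum_add_distrib]
      apply add_le_add
      · rw [← Finset.sum_filter, Finset.sum_const, nsmul_eq_mul]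
        apply mul_le_mul_of_nonneg_right _ (by positivity)
        have h4 : (Finset.Icc 1 (H - 1)).filter (fun h : ℕ => (h : ℝ) < N ^ (3 / 8 : ℝ)) ⊆
            Finset.Icc 1 ⌊N ^ (3 / 8 : ℝ)⌋₊ := by
          intro h hh
          rw [Finset.mem_filter, Finset.mem_Icc] at hh
          rw [Finset.mem_Icc]
          exact ⟨hh.1.1, Nat.le_floor hh.2.le⟩
        have h5 := Finset.card_le_card h4
        rw [Nat.card_Icc, Nat.add_sub_cancel] at h5
        calc (((Finset.Icc 1 (H - 1)).filter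
              (fun h : ℕ => (h : ℝ) < N ^ (3 / 8 : ℝ))).card : ℝ)
            ≤ (⌊N ^ (3 / 8 : ℝ)⌋₊ : ℝ) := by exact_mod_cast h5
          _ ≤ N ^ (3 / 8 : ℝ) := Nat.floor_le (by linarith)
      · rw [Finset.sum_const, nsmul_eq_mul, Nat.card_Icc]
        apply mul_le_mul_of_nonneg_right _ hD0
        exact_mod_cast (by omega : H - 1 + 1 - 1 ≤ H)
    have hP : N ^ (1 - c) * N ^ (1 - c) = N ^ (2 - 2 * c) := by
      rw [← Real.rpow_add hN0]; congr 1; ring
    have hP0 : 0 < N ^ (2 - 2 * c) := Real.rpow_pos_of_pos hN0 _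
    have hstep : 2 * N + 2 * ∑ h ∈ Finset.Icc 1 (H - 1), E h ≤
        6 * (N * N ^ (3 / 8 : ℝ)) + 2 * (H * D) := by
      have h3 : N ≤ N * N ^ (3 / 8 : ℝ) := by nlinarith
      linarith
    -- first part
    have e1 : 3 * N / H * (6 * (N * N ^ (3 / 8 : ℝ))) ≤ 36 * N ^ (2 - 2 * c) := by
      have h3 : N * N * N ^ (3 / 8 : ℝ) = N ^ (15 / 8 : ℝ) * N ^ (1 / 2 : ℝ) := by
        have h6 : N * N = N ^ (2 : ℝ) := by rw [Real.rpow_two]; ring
        rw [h6, ← Real.rpow_add hN0, ← Real.rpow_add hN0]; congr 1; norm_num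
      have h4 : N ^ (15 / 8 : ℝ) ≤ N ^ (2 - 2 * c) :=
        Real.rpow_le_rpow_of_exponent_le hN (by linarith)
      have h5 : 0 < N ^ (15 / 8 : ℝ) := Real.rpow_pos_of_pos hN0 _
      calc 3 * N / H * (6 * (N * N ^ (3 / 8 : ℝ))) = 18 * (N * N * N ^ (3 / 8 : ℝ)) / H := by
            ring
        _ = 18 * (N ^ (15 / 8 : ℝ) * N ^ (1 / 2 : ℝ)) / H := by rw [h3]
        _ ≤ 18 * (N ^ (15 / 8 : ℝ) * (2 * H)) / H := by
            apply div_le_div_of_nonneg_right _ hH0.le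
            apply mul_le_mul_of_nonneg_left _ (by norm_num)
            exact mul_le_mul_of_nonneg_left hHge h5.le
        _ = 36 * N ^ (15 / 8 : ℝ) := by field_simp; ring
        _ ≤ 36 * N ^ (2 - 2 * c) := by linarith
    have e2 : 3 * N / H * (2 * (H * D)) ≤ 6 * C' * (R / eps ^ 2) * N ^ (2 - 2 * c) := by
      have h3 : N * N ^ (1 - c') = N ^ (2 - c') := by
        nth_rewrite 1 [← Real.rpow_one N]
        rw [← Real.rpow_add hN0]; congr 1; ring
      have h4 : N ^ (2 - c') ≤ N ^ (2 - 2 * c) :=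
        Real.rpow_le_rpow_of_exponent_le hN (by linarith)
      calc 3 * N / H * (2 * (H * D)) = 6 * C' * (R / eps ^ 2) * (N * N ^ (1 - c')) := by
            rw [hD]; field_simp; ring
        _ = 6 * C' * (R / eps ^ 2) * N ^ (2 - c') := by rw [h3]
        _ ≤ _ := mul_le_mul_of_nonneg_left h4 (by positivity)
    have hfin : ‖∑ n ∈ Finset.Icc ⌈A⌉ ⌊B⌋, ee (f 0 n)‖ ^ 2 ≤
        (36 + 6 * C') * (R / eps ^ 2) * N ^ (2 - 2 * c) := by
      refine key.trans ?_
      have h5 : 0 ≤ 3 * N / H := by positivity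
      have h6 := mul_le_mul_of_nonneg_left hstep h5
      refine h6.trans ?_
      have h4 : 36 * N ^ (2 - 2 * c) ≤ 36 * (R / eps ^ 2) * N ^ (2 - 2 * c) := by
        nlinarith
      calc 3 * N / H * (6 * (N * N ^ (3 / 8 : ℝ)) + 2 * (H * D))
          = 3 * N / H * (6 * (N * N ^ (3 / 8 : ℝ))) + 3 * N / H * (2 * (H * D)) := by ring
        _ ≤ 36 * (R / eps ^ 2) * N ^ (2 - 2 * c) + 6 * C' * (R / eps ^ 2) * N ^ (2 - 2 * c) :=
            add_le_add (e1.trans h4) e2
        _ = _ := by ring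
    have hres : ‖∑ n ∈ Finset.Icc ⌈A⌉ ⌊B⌋, ee (f 0 n)‖ ≤
        (36 + 6 * C') * (R / eps ^ 2) * N ^ (1 - c) := by
      apply abs_le_of_sq_le_sq' _ (by positivity) |>.2
      refine hfin.trans ?_
      have hD : 1 ≤ (36 + 6 * C') * (R / eps ^ 2) := by nlinarith
      calc (36 + 6 * C') * (R / eps ^ 2) * N ^ (2 - 2 * c)
          ≤ ((36 + 6 * C') * (R / eps ^ 2)) ^ 2 * N ^ (2 - 2 * c) := by
            apply mul_le_mul_of_nonneg_right _ hP0.le
            nlinarith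
        _ = ((36 + 6 * C') * (R / eps ^ 2) * N ^ (1 - c)) ^ 2 := by
            rw [← hP]; ring
    refine hres.trans ?_
    apply mul_le_mul_of_nonneg_right _ hpc0.le
    apply mul_le_mul_of_nonneg_right _ (by linarith)
    linarith

end Pool.Agent.H19.Sup
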