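import Mathlib
import Pool.Agent.H19.Sup.V4
import Pool.Agent.H19.Sup.L3
import Pool.Agent.H19.Sup.N5
import Pool.Agent.H19.Sup.L4
import Pool.Agent.H19.Sup.P1
import Pool.Agent.H19.Sup.P2
import Pool.Agent.H19.Sup.AP
import Pool.Agent.H19.Sup.F1
import Pool.Agent.H19.Sup.K5
import Pool.Agent.H19.Sup.F2
import Pool.Agent.H19.Sup.F3

set_option autoImplicit false

/-!
# The steps put together
-/

namespace Pool.Agent.H19.Sup

open Pool.Agent.H19.Maass

theorem good_block : GoodBlockS := good_block_of vdc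

theorem line_sum : LineSumS := line_sum_of good_block nondeg

theorem plane_line : PlaneLineS := plane_line_of line_sum

theorem plane_sum : PlaneSumS := plane_sum_of plane_line

theorem all_planes : AllPlanesS := all_planes_of plane_sum

theorem far_bound : FarBoundS := far_bound_of all_planes

theorem small_improved : SmallImprovedS := small_improved_of far_bound split_kernel

theorem below : ∃ δ : ℝ, 0 < δ ∧ ∀ K : Set ℂ, IsCompact K → K ⊆ {z : ℂ | 0 < z.im} →
    ∃ C : ℝ, ∀ T : ℝ, 1 ≤ T → ∀ U : ℂ → ℂ, IsHeckeMaass T U →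
    ∀ z ∈ K, ‖U z‖ ≤ C * T ^ (5 / 12 - δ) :=
  below_of small_improved

end Pool.Agent.H19.Sup
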